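import Pool.Agent.Run7.h186.NY1

/-! An infinite family of forms. -/

set_option autoImplicit false

namespace Run7.h186.NY

open Filter Topology Polynomial NumberField UpperHalfPlane CongruenceSubgroup
open scoped MatrixGroups ModularForm
open Pool.Agent.Y149.TL (Motive tensL)
open Pool.Agent.Y149.PK (tens frobE)
open Pool.Agent.Y722.EP (points IsModular NotIsogenous IsNewformOf)
open Run7.h186.NV
open Run7.h186.BF (Cv notIsogenous14)

/-- forget the bound of Deligne -/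
def ofNT (g : Run7.h186.NT.Eigenform) : NU.Eigenform where
  level := g.level
  weight := g.weight
  chi := g.chi
  form := g.form
  level_pos := g.level_pos
  weight_pos := g.weight_pos
  nebentypus := g.nebentypus
  one := g.one
  mul := g.mul
  pow := g.pow

theorem ram_ofNT (g : Run7.h186.NT.Eigenform) : NU.Ramanujan (ofNT g) := by
  intro p hp hpN z hz
  refine g.deligne p hp hpN z ?_
  have h1 := isRoot_of_mem_roots hz
  rw [IsRoot.def, eval_add, eval_sub, eval_mul, eval_pow, eval_X, eval_C, eval_C] at h1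
  exact h1

theorem differ_ofNT {g g' : Run7.h186.NT.Eigenform} (h : Run7.h186.NT.Differ g g') :
    NU.Differ (ofNT g) (ofNT g') := h

theorem frob_ev (c : Cv) : ∀ᶠ p : Nat.Primes in cofinite,
    NU.frob (ofNT c.ev) p = frobE c.a c.b p 1 := by
  filter_upwards [Pool.Agent.Y149.TL.good_primes c.hab] with p hp
  obtain ⟨h1, h2⟩ := c.hf.2 p p.2 hp
  have h3 : (ofNT c.ev).a p = ((((p : ℕ) : ℤ) + 1 - points (ZMod p) c.a c.b : ℤ) : ℂ) := by
    have : (ofNT c.ev).a p = Pool.Agent.W165.RS.ac c.f p := rfl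
    rw [this, h2]
    push_cast
    rfl
  have h4 : (ofNT c.ev).chi ((p : ℕ) : ZMod (ofNT c.ev).level) *
      ((p : ℕ) : ℂ) ^ ((ofNT c.ev).weight - 1) = ((p : ℕ) : ℂ) := by
    have e1 : (ofNT c.ev).chi ((p : ℕ) : ZMod (ofNT c.ev).level) = 1 := by
      change (1 : DirichletCharacter ℂ c.N) ((p : ℕ) : ZMod c.N) = 1
      refine MulChar.one_apply ?_
      rw [ZMod.isUnit_iff_coprime]
      exact (Nat.Prime.coprime_iff_not_dvd p.2).2 h1
    have e2 : (ofNT c.ev).weight - 1 = 1 := rfl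
    rw [e1, e2, one_mul, pow_one]
  unfold NU.frob frobE
  rw [h3, h4]
  rfl

/-- the primitive Dirichlet characters, and the primes `l > 7` -/
abbrev Idx : Type := (Σ N : ℕ, {χ : DirichletCharacter ℂ N // 0 < N ∧ χ.IsPrimitive}) ⊕
  {l : ℕ // l.Prime ∧ 7 < l}

theorem exists_cv (l : {l : ℕ // l.Prime ∧ 7 < l}) : ∃ c : Cv,
    c.a = 5805 * (l.1 : ℤ) ^ 2 ∧ c.b = -285714 * (l.1 : ℤ) ^ 3 := by
  have hl0 : (l.1 : ℤ) ≠ 0 := by exact_mod_cast l.2.1.ne_zero
  obtain ⟨N, hN, f, hf⟩ := Pool.Agent.X288.L2.modular14 hl0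
  refine ⟨⟨5805 * (l.1 : ℤ) ^ 2, -285714 * (l.1 : ℤ) ^ 3, ?_, N, hN, f, hf⟩, rfl, rfl⟩
  have e : 4 * (5805 * (l.1 : ℤ) ^ 2) ^ 3 + 27 * (-285714 * (l.1 : ℤ) ^ 3) ^ 2 =
      2986545364992 * (l.1 : ℤ) ^ 6 := by ring
  rw [e]
  positivity

/-- **An infinite family of forms.** -/
theorem exists_family : ∃ f : Idx → Form,
    (∀ e e', e ≠ e' → (f e).Differ (f e')) ∧ (∀ e, (f e).Ramanujan) ∧
    (∀ c, f (.inl c) = .chr c.1 c.2.1 c.2.2.1) ∧
    ∀ l : {l : ℕ // l.Prime ∧ 7 < l}, (∃ g, f (.inr l) = .cusp g ∧ g.weight = 2) ∧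
      ∀ᶠ p : Nat.Primes in cofinite, (f (.inr l)).frob p =
        frobE (5805 * (l : ℤ) ^ 2) (-285714 * (l : ℤ) ^ 3) p 1 := by
  choose c hc1 hc2 using exists_cv
  refine ⟨fun e => match e with
    | .inl x => .chr x.1 x.2.1 x.2.2.1
    | .inr l => .cusp (ofNT (c l).ev), ?_, ?_, fun _ => rfl, fun l => ⟨⟨_, rfl, rfl⟩, ?_⟩⟩
  · rintro (⟨N, χ, h1, h2⟩ | ⟨l, hl⟩) (⟨N', χ', h1', h2'⟩ | ⟨l', hl'⟩) hne
    · refine primitive_differ h1 h1' χ χ' h2 h2' ?_
      by_cases hN : N = N'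
      · subst hN
        refine Or.inr fun h => hne ?_
        obtain rfl := eq_of_heq h
        rfl
      · exact Or.inl hN
    · trivial
    · trivial
    · refine differ_ofNT (Run7.h186.BF.differ ?_)
      rw [hc1, hc2, hc1, hc2]
      refine notIsogenous14 hl.1 hl'.1 ?_ hl.2 hl'.2
      rintro rfl
      exact hne rfl
  · rintro (x | l)
    · trivial
    · exact ram_ofNT _
  · have h := frob_ev (c l)
    rw [hc1, hc2] at h
    exact h

end Run7.h186.NY
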