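import Mathlib.AlgebraicGeometry.EllipticCurve.Affine.Point
import Mathlib.GroupTheory.OrderOfElement
import Mathlib.NumberTheory.LegendreSymbol.JacobiSymbol
import Mathlib.NumberTheory.LSeries.PrimesInAP
import Pool.Agent.Y722.EP.Defs
import Pool.Agent.Y691.QT.ApTw

/-! The quadratic twists of `X_0(14)` by prime numbers are pairwise not isogenous. -/

set_option autoImplicit false

namespace Run7.h186.BF

open Pool.Agent.Y722.EP (points NotIsogenous)
open Pool.Agent.Y19.QT (ap)
open Pool.Agent.Y691.QT (ap_twist)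

section
variable {p : ℕ} [Fact p.Prime]

/-- the curve `X_0(14)` modulo `p` -/
def W14 (p : ℕ) [Fact p.Prime] : WeierstrassCurve.Affine (ZMod p) where
  a₁ := 0
  a₂ := 0
  a₃ := 0
  a₄ := 5805
  a₆ := -285714

theorem cast_ne (hp : 7 < p) (n : ℕ) (hn : ∀ q : ℕ, q.Prime → q ∣ n → q ≤ 7) :
    (n : ZMod p) ≠ 0 := by
  intro h
  rw [ZMod.natCast_eq_zero_iff] at h
  have := hn p (Fact.out) h
  omega

theorem small {q n a b c d : ℕ} (hq : q.Prime) (h : q ∣ n) (hn : n = 2 ^ a * 3 ^ b * 5 ^ c * 7 ^ d) :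
    q ≤ 7 := by
  rw [hn] at h
  rcases (hq.dvd_mul).1 h with h | h
  · rcases (hq.dvd_mul).1 h with h | h
    · rcases (hq.dvd_mul).1 h with h | h
      · exact (Nat.le_of_dvd (by norm_num) (hq.dvd_of_dvd_pow h)).trans (by norm_num)
      · exact (Nat.le_of_dvd (by norm_num) (hq.dvd_of_dvd_pow h)).trans (by norm_num)
    · exact (Nat.le_of_dvd (by norm_num) (hq.dvd_of_dvd_pow h)).trans (by norm_num)
  · exact (Nat.le_of_dvd (by norm_num) (hq.dvd_of_dvd_pow h)).trans (by norm_num)

theorem cast_ne' (hp : 7 < p) {n a b c d : ℕ} (hn : n = 2 ^ a * 3 ^ b * 5 ^ c * 7 ^ d) :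
    (n : ZMod p) ≠ 0 :=
  cast_ne hp n fun _ hq h => small hq h hn

theorem ns_iff (hp : 7 < p) (x y : ZMod p) : (W14 p).Nonsingular x y ↔
    y ^ 2 = x ^ 3 + ((5805 : ℤ) : ZMod p) * x + ((-285714 : ℤ) : ZMod p) := by
  rw [WeierstrassCurve.Affine.nonsingular_iff', WeierstrassCurve.Affine.equation_iff]
  simp only [W14, zero_mul, mul_zero, add_zero, zero_sub, ne_eq, neg_eq_zero]
  push_cast
  constructor
  · rintro ⟨h, _⟩
    linear_combination h
  · intro h
    refine ⟨by linear_combination h, ?_⟩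
    by_contra hc
    push Not at hc
    obtain ⟨h1, h2⟩ := hc
    have h20 : (2 : ZMod p) ≠ 0 := by
      have := cast_ne' hp (n := 2) (a := 1) (b := 0) (c := 0) (d := 0) (by norm_num)
      exact_mod_cast this
    have hy : y = 0 := by
      rcases mul_eq_zero.mp h2 with h3 | h3
      · exact absurd h3 h20
      · exact h3
    subst hy
    have hA : (5805 : ZMod p) = -(3 * x ^ 2) := by linear_combination h1
    have hB : (-285714 : ZMod p) = 2 * x ^ 3 := by
      rw [hA] at h
      linear_combination -h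
    have hD : (4 * 5805 ^ 3 + 27 * (-285714) ^ 2 : ZMod p) = 0 := by
      rw [hA, hB]
      ring
    have h3 : ((2986545364992 : ℕ) : ZMod p) = 0 := by
      push_cast
      linear_combination hD
    exact cast_ne' hp (n := 2986545364992) (a := 14) (b := 12) (c := 0) (d := 3) (by norm_num) h3

/-- the number of points -/
theorem card14 (hp : 7 < p) : Nat.card (W14 p).Point = points (ZMod p) 5805 (-285714) := by
  classical
  have hfin : Finite (WithZero {xy : ZMod p × ZMod p // (W14 p).Nonsingular xy.1 xy.2}) :=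
    inferInstanceAs (Finite (Option {xy : ZMod p × ZMod p // (W14 p).Nonsingular xy.1 xy.2}))
  rw [Nat.card_congr (WeierstrassCurve.Affine.nonsingularPointEquiv (W14 p))]
  have h2 : Nat.card (WithZero {xy : ZMod p × ZMod p // (W14 p).Nonsingular xy.1 xy.2}) =
      Nat.card {xy : ZMod p × ZMod p // (W14 p).Nonsingular xy.1 xy.2} + 1 :=
    Finite.card_option
  rw [h2]
  unfold points
  congr 1
  exact Nat.card_congr (Equiv.subtypeEquivRight fun z => ns_iff hp z.1 z.2)

theorem finite14 : Finite (W14 p).Point := by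
  classical
  have hfin : Finite (WithZero {xy : ZMod p × ZMod p // (W14 p).Nonsingular xy.1 xy.2}) :=
    inferInstanceAs (Finite (Option {xy : ZMod p × ZMod p // (W14 p).Nonsingular xy.1 xy.2}))
  exact Finite.of_equiv _ (WeierstrassCurve.Affine.nonsingularPointEquiv (W14 p)).symm

/-- the point of order three -/
theorem three_dvd (hp : 7 < p) : 3 ∣ points (ZMod p) 5805 (-285714) := by
  classical
  have hfin := finite14 (p := p)
  rw [← card14 hp]
  have hns : (W14 p).Nonsingular 75 756 := by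
    rw [ns_iff hp]
    push_cast
    norm_num
  have h1512 : (1512 : ZMod p) ≠ 0 := by
    have := cast_ne' hp (n := 1512) (a := 3) (b := 3) (c := 0) (d := 1) (by norm_num)
    exact_mod_cast this
  have hY : (756 : ZMod p) ≠ (W14 p).negY 75 756 := by
    intro h
    apply h1512
    simp only [WeierstrassCurve.Affine.negY, W14] at h
    linear_combination h
  set P : (W14 p).Point := WeierstrassCurve.Affine.Point.some 75 756 hns with hP
  have hsl : (W14 p).slope 75 75 756 756 = 15 := by
    rw [WeierstrassCurve.Affine.slope_of_Y_ne rfl hY, div_eq_iff]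
    · simp only [WeierstrassCurve.Affine.negY, W14]
      norm_num
    · simp only [WeierstrassCurve.Affine.negY, W14]
      intro h
      apply h1512
      linear_combination h
  have h2 : P + P = -P := by
    rw [hP, WeierstrassCurve.Affine.Point.add_self_of_Y_ne hY,
      WeierstrassCurve.Affine.Point.neg_some, WeierstrassCurve.Affine.Point.some.injEq, hsl]
    constructor
    · simp only [WeierstrassCurve.Affine.addX, W14]
      norm_num
    · simp only [WeierstrassCurve.Affine.addY, WeierstrassCurve.Affine.negAddY,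
        WeierstrassCurve.Affine.addX, WeierstrassCurve.Affine.negY, W14]
      norm_num
  have h3 : (3 : ℕ) • P = 0 := by
    have : (3 : ℕ) • P = P + P + P := by
      rw [succ_nsmul, two_nsmul]
    rw [this, h2, neg_add_cancel]
  have h0 : P ≠ 0 := WeierstrassCurve.Affine.Point.some_ne_zero _
  have h4 : addOrderOf P = 3 := by
    have : Fact (Nat.Prime 3) := ⟨Nat.prime_three⟩
    exact addOrderOf_eq_prime h3 h0
  rw [← h4]
  exact addOrderOf_dvd_natCard P

omit [Fact p.Prime] in
theorem ap_points (a b : ℤ) : ap a b p = (p : ℤ) + 1 - points (ZMod p) a b := by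
  unfold ap points
  push_cast
  ring

theorem ap14_ne (hp : 7 < p) (h3 : p % 3 = 1) : ap 5805 (-285714) p ≠ 0 := by
  intro h
  rw [ap_points] at h
  obtain ⟨c, hc⟩ := three_dvd hp
  rw [hc] at h
  push_cast at h
  omega

end

/-- a prime number with given quadratic symbols -/
theorem exists_prime {l m : ℕ} (hl : l.Prime) (hm : m.Prime) (hlm : l ≠ m) (hl3 : 7 < l)
    (B : ℕ) : ∃ p : ℕ, B < p ∧ p.Prime ∧ p % 3 = 1 ∧ jacobiSym l p = -1 ∧
      jacobiSym m p = 1 := by
  have : Fact l.Prime := ⟨hl⟩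
  obtain ⟨a, ha⟩ : ∃ a : ZMod l, ¬ IsSquare a := by
    refine FiniteField.exists_nonsquare ?_
    rw [ZMod.ringChar_zmod_n]
    omega
  have ha0 : a ≠ 0 := fun h => ha (h ▸ IsSquare.zero)
  have hcop : Nat.Coprime l (24 * m) := by
    rw [Nat.coprime_mul_iff_right]
    refine ⟨?_, (Nat.coprime_primes hl hm).2 hlm⟩
    rw [Nat.Prime.coprime_iff_not_dvd hl]
    intro h
    have h1 : l ∣ 2 ^ 3 * 3 := by simpa using h
    rcases (hl.dvd_mul).1 h1 with h2 | h2
    · have := Nat.le_of_dvd (by norm_num) (hl.dvd_of_dvd_pow h2)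
      omega
    · have := Nat.le_of_dvd (by norm_num) h2
      omega
  obtain ⟨k, hk1, hk2⟩ := Nat.chineseRemainder hcop a.val 1
  have hm0 := hm.pos
  have hl0 := hl.pos
  have : NeZero (l * (24 * m)) := ⟨by positivity⟩
  have hku : IsUnit ((k : ℕ) : ZMod (l * (24 * m))) := by
    rw [ZMod.isUnit_iff_coprime, Nat.coprime_mul_iff_right]
    constructor
    · have h1 : ((k : ℕ) : ZMod l) = a := by
        have := (ZMod.natCast_eq_natCast_iff _ _ _).2 hk1
        rw [this, ZMod.natCast_val, ZMod.cast_id', id]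
      have h2 : IsUnit ((k : ℕ) : ZMod l) := by
        rw [h1]
        exact isUnit_iff_ne_zero.2 ha0
      exact (ZMod.isUnit_iff_coprime _ _).1 h2
    · have h1 : ((k : ℕ) : ZMod (24 * m)) = ((1 : ℕ) : ZMod (24 * m)) :=
        (ZMod.natCast_eq_natCast_iff _ _ _).2 hk2
      have h2 : IsUnit ((k : ℕ) : ZMod (24 * m)) := by
        rw [h1, Nat.cast_one]
        exact isUnit_one
      exact (ZMod.isUnit_iff_coprime _ _).1 h2
  obtain ⟨p, hpB, hp, hpk⟩ := Nat.forall_exists_prime_gt_and_eq_mod hku (B + 2 * m + 2)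
  have hpk' : p ≡ k [MOD l * (24 * m)] := (ZMod.natCast_eq_natCast_iff _ _ _).1 hpk
  have hp1 : p ≡ a.val [MOD l] := (hpk'.of_mul_right (24 * m)).trans hk1
  have hp2 : p ≡ 1 [MOD 24 * m] := (hpk'.of_mul_left l).trans hk2
  have hp3 : p ≡ 1 [MOD 24] := hp2.of_mul_right m
  have hp4 : p ≡ 1 [MOD m] := hp2.of_mul_left 24
  have hp24 : p % 24 = 1 := hp3
  have hpodd : Odd p := by
    rw [Nat.odd_iff]
    omega
  refine ⟨p, by omega, hp, by omega, ?_, ?_⟩
  · have hlodd : Odd l := hl.odd_of_ne_two (by omega)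
    rw [← jacobiSym.quadratic_reciprocity_one_mod_four (a := p) (b := l) (by omega) hlodd,
      ← jacobiSym.legendreSym.to_jacobiSym]
    unfold legendreSym
    have e : (((p : ℕ) : ℤ) : ZMod l) = a := by
      have := (ZMod.natCast_eq_natCast_iff _ _ _).2 hp1
      rw [Int.cast_natCast, this, ZMod.natCast_val, ZMod.cast_id', id]
    rw [e]
    exact quadraticChar_neg_one_iff_not_isSquare.2 ha
  · by_cases hm2 : m = 2
    · subst hm2
      have h1 : Fact p.Prime := ⟨hp⟩
      rw [← jacobiSym.legendreSym.to_jacobiSym]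
      have hp2' : p ≠ 2 := by omega
      rw [legendreSym.eq_one_iff' p (by
        intro h
        have h3 : ((2 : ℕ) : ZMod p) = 0 := h
        rw [ZMod.natCast_eq_zero_iff] at h3
        have := Nat.le_of_dvd (by norm_num) h3
        omega)]
      have h2 : ¬ (p % 8 ≠ 1 ∧ p % 8 ≠ 7) := by omega
      have h4 := (ZMod.exists_sq_eq_two_iff hp2').2 (Or.inl (by
        have : p ≡ 1 [MOD 48] := hp2
        have h5 : p % 48 = 1 := this
        omega))
      exact_mod_cast h4
    · have hmodd : Odd m := hm.odd_of_ne_two hm2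
      rw [← jacobiSym.quadratic_reciprocity_one_mod_four (a := p) (b := m) (by omega) hmodd]
      have e : jacobiSym (p : ℤ) m = jacobiSym (1 : ℤ) m := by
        have h5 : (p : ℤ) % m = 1 % m := by exact_mod_cast hp4
        rw [jacobiSym.mod_left, h5, ← jacobiSym.mod_left]
      rw [e, jacobiSym.one_left]

/-- **The twists are not isogenous.** -/
theorem notIsogenous14 {l m : ℕ} (hl : l.Prime) (hm : m.Prime) (hlm : l ≠ m) (hl7 : 7 < l)
    (hm7 : 7 < m) : NotIsogenous (5805 * (l : ℤ) ^ 2) (-285714 * (l : ℤ) ^ 3)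
      (5805 * (m : ℤ) ^ 2) (-285714 * (m : ℤ) ^ 3) := by
  obtain ⟨p, hpB, hp, h3, hjl, hjm⟩ := exists_prime hl hm hlm hl7 (l + m + 7)
  have hF : Fact p.Prime := ⟨hp⟩
  have hp7 : 7 < p := by omega
  have key : ∀ q : ℕ, q.Prime → q < p → ¬ ((p : ℕ) : ℤ) ∣
      2 * (4 * (5805 * (q : ℤ) ^ 2) ^ 3 + 27 * (-285714 * (q : ℤ) ^ 3) ^ 2) := by
    intro q hq hqp h
    have e : 2 * (4 * (5805 * (q : ℤ) ^ 2) ^ 3 + 27 * (-285714 * (q : ℤ) ^ 3) ^ 2) =
        ((2 ^ 15 * 3 ^ 12 * 7 ^ 3 * q ^ 6 : ℕ) : ℤ) := by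
      push_cast
      ring
    rw [e, Int.natCast_dvd_natCast] at h
    rcases (hp.dvd_mul).1 h with h1 | h1
    · have := small (c := 0) (a := 15) (b := 12) (d := 3) hp h1 (by norm_num)
      omega
    · have := Nat.le_of_dvd hq.pos (hp.dvd_of_dvd_pow h1)
      omega
  have hnd : ∀ q : ℕ, q.Prime → q < p → ¬ ((p : ℕ) : ℤ) ∣ (q : ℤ) := by
    intro q hq hqp h
    rw [Int.natCast_dvd_natCast] at h
    have := Nat.le_of_dvd hq.pos h
    omega
  refine ⟨p, hp, key l hl (by omega), key m hm (by omega), fun h => ?_⟩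
  have h1 := ap_twist 5805 (-285714) l p hp (by omega) (hnd l hl (by omega))
  have h2 := ap_twist 5805 (-285714) m p hp (by omega) (hnd m hm (by omega))
  rw [hjl] at h1
  rw [hjm] at h2
  rw [ap_points] at h1 h2
  have h4 := ap14_ne hp7 h3
  rw [h] at h1
  omega

end Run7.h186.BF
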