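import Pool.Agent.Run7.h186.AffD

/-!
# The affine step: triangular form
-/

set_option autoImplicit false
set_option linter.unusedSectionVars false

namespace Run7.h186

open Pool.Agent.Y72.Dt Pool.Agent.Y72.Log MulAction

universe u v

variable {l : ℕ} [Fact l.Prime] {G : Type u} [Group G] {X : Type*} [MulAction G X]
  (D : AffD l G X) {L : Type v} [Field L] [CharP L l] {κ : Type} [Fintype κ] [DecidableEq κ]

instance instNeZeroPrime : NeZero l := ⟨(Fact.out : l.Prime).ne_zero⟩

/-- the nodes -/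
noncomputable def nd (L : Type v) [Field L] [CharP L l] (i : Fin l) : L :=
  ul L (ZMod.finEquiv l i)

omit [Fact l.Prime] in
lemma ul_inj [Fact l.Prime] : Function.Injective (ul L : ZMod l → L) :=
  (ZMod.castHom (dvd_refl l) L).injective

lemma nd_inj : Function.Injective (nd L : Fin l → L) := fun _ _ h =>
  (ZMod.finEquiv l).injective (ul_inj h)

/-- the change of basis -/
noncomputable def VP (κ : Type) [DecidableEq κ] (l : ℕ) (L : Type v) [Field L] [CharP L l] :
    Matrix (κ × Fin l) (κ × ZMod l) L :=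
  Matrix.of fun x y => if x.1 = y.1 then ul L y.2 ^ (x.2 : ℕ) else 0

lemma exists_VQ (κ : Type) [Fintype κ] [DecidableEq κ] (l : ℕ) [Fact l.Prime] (L : Type v)
    [Field L] [CharP L l] : ∃ Q : Matrix (κ × ZMod l) (κ × Fin l) L,
      VP κ l L * Q = 1 ∧ Q * VP κ l L = 1 := by
  let V : Matrix (Fin l) (Fin l) L := (Matrix.vandermonde (nd L))
  have hV : IsUnit V.det := by
    rw [isUnit_iff_ne_zero]
    exact Matrix.det_vandermonde_ne_zero_iff.2 nd_inj
  let e : κ × Fin l ≃ κ × ZMod l := Equiv.prodCongr (Equiv.refl κ) (ZMod.finEquiv l).toEquiv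
  let W : Matrix (κ × Fin l) (κ × Fin l) L := Matrix.kroneckerMap (· * ·) (1 : Matrix κ κ L) V.transpose
  let W' : Matrix (κ × Fin l) (κ × Fin l) L :=
    Matrix.kroneckerMap (· * ·) (1 : Matrix κ κ L) (V⁻¹).transpose
  have hW : VP κ l L = W.submatrix id e.symm := by
    ext ⟨k, i⟩ ⟨j, a⟩
    obtain ⟨a', rfl⟩ := (ZMod.finEquiv l).surjective a
    rw [Matrix.submatrix_apply]
    have h1 : e.symm (j, ZMod.finEquiv l a') = (j, a') := by
      rw [Equiv.symm_apply_eq]
      rfl
    rw [h1]
    show (if k = j then ul L (ZMod.finEquiv l a') ^ (i : ℕ) else 0) =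
      (1 : Matrix κ κ L) k j * V a' i
    rw [Matrix.one_apply]
    have h2 : V a' i = nd L a' ^ (i : ℕ) := Matrix.vandermonde_apply _ _ _
    rw [h2]
    split_ifs
    · rw [one_mul]; rfl
    · rw [zero_mul]
  have hWW : W * W' = 1 ∧ W' * W = 1 := by
    have e1 : V.transpose * (V⁻¹).transpose = 1 := by
      rw [← Matrix.transpose_mul, Matrix.nonsing_inv_mul _ hV, Matrix.transpose_one]
    have e2 : (V⁻¹).transpose * V.transpose = 1 := by
      rw [← Matrix.transpose_mul, Matrix.mul_nonsing_inv _ hV, Matrix.transpose_one]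
    constructor
    · have h := Matrix.mul_kronecker_mul (1 : Matrix κ κ L) (1 : Matrix κ κ L) V.transpose (V⁻¹).transpose
      rw [e1, Matrix.one_mul, Matrix.one_kronecker_one] at h
      exact h.symm
    · have h := Matrix.mul_kronecker_mul (1 : Matrix κ κ L) (1 : Matrix κ κ L) (V⁻¹).transpose V.transpose
      rw [e2, Matrix.one_mul, Matrix.one_kronecker_one] at h
      exact h.symm
  refine ⟨W'.submatrix e.symm id, ?_, ?_⟩
  · rw [hW, Matrix.submatrix_mul_equiv, hWW.1, Matrix.submatrix_id_id]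
  · have h := Matrix.submatrix_mul W' W e.symm id e.symm Function.bijective_id
    rw [hW, ← h, hWW.2, Matrix.submatrix_one_equiv]

/-- the triangular form of the representation on functions on the fibres -/
noncomputable def nz (σ : G →* Matrix κ κ L) (β : κ → X)
    (hσ : ∀ g k j, σ g k j ≠ 0 → β k = g • β j) : G →* Matrix (κ × Fin l) (κ × Fin l) L where
  toFun g := VP κ l L * tz D σ β hσ g * (exists_VQ κ l L).choose
  map_one' := by
    rw [map_one, Matrix.mul_one]
    exact (exists_VQ κ l L).choose_spec.1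
  map_mul' g h := by
    rw [map_mul]
    have h1 := (exists_VQ κ l L).choose_spec.2
    set Q := (exists_VQ κ l L).choose
    calc VP κ l L * (tz D σ β hσ g * tz D σ β hσ h) * Q =
        VP κ l L * tz D σ β hσ g * (Q * VP κ l L) * tz D σ β hσ h * Q := by
          rw [h1, Matrix.mul_one]
          simp only [Matrix.mul_assoc]
      _ = _ := by simp only [Matrix.mul_assoc]

lemma nz_apply (σ : G →* Matrix κ κ L) (β : κ → X)
    (hσ : ∀ g k j, σ g k j ≠ 0 → β k = g • β j) (g : G) (k j : κ × Fin l) :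
    nz D σ β hσ g k j = σ g k.1 j.1 * (((k.2 : ℕ).choose (j.2 : ℕ) : L) *
      ul L (D.u g (β j.1)) ^ (j.2 : ℕ) * ul L (D.b g (β j.1)) ^ ((k.2 : ℕ) - (j.2 : ℕ))) := by
  let N : Matrix (κ × Fin l) (κ × Fin l) L := Matrix.of fun k j =>
    σ g k.1 j.1 * (((k.2 : ℕ).choose (j.2 : ℕ) : L) *
      ul L (D.u g (β j.1)) ^ (j.2 : ℕ) * ul L (D.b g (β j.1)) ^ ((k.2 : ℕ) - (j.2 : ℕ)))
  suffices h : VP κ l L * tz D σ β hσ g = N * VP κ l L by
    show (VP κ l L * tz D σ β hσ g * (exists_VQ κ l L).choose) k j = N k j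
    rw [h, Matrix.mul_assoc, (exists_VQ κ l L).choose_spec.1, Matrix.mul_one]
  ext ⟨k, i⟩ ⟨j, b⟩
  rw [Matrix.mul_apply, Matrix.mul_apply, Fintype.sum_prod_type, Fintype.sum_prod_type,
    Finset.sum_eq_single k, Finset.sum_eq_single j]
  · rw [Finset.sum_eq_single (D.u g (β j) * b + D.b g (β j))]
    · rw [tz_apply]
      simp only [if_true, mul_one]
      show (if k = k then ul L (D.u g (β j) * b + D.b g (β j)) ^ (i : ℕ) else 0) * σ g k j =
        ∑ i' : Fin l, N (k, i) (j, i') * (if j = j then ul L b ^ (i' : ℕ) else 0)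
      rw [if_pos rfl, ul_add, ul_mul, add_pow, Finset.sum_mul]
      have h1 : ∑ i' : Fin l, N (k, i) (j, i') * (if j = j then ul L b ^ (i' : ℕ) else 0) =
          ∑ i' ∈ Finset.range l, σ g k j * (((i : ℕ).choose i' : L) *
            ul L (D.u g (β j)) ^ i' * ul L (D.b g (β j)) ^ ((i : ℕ) - i')) * ul L b ^ i' := by
        rw [Finset.sum_range (fun i' => σ g k j * (((i : ℕ).choose i' : L) *
            ul L (D.u g (β j)) ^ i' * ul L (D.b g (β j)) ^ ((i : ℕ) - i')) * ul L b ^ i')]
        apply Finset.sum_congr rfl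
        intro i' _
        rw [if_pos rfl]
        rfl
      rw [h1]
      have h2 : Finset.range ((i : ℕ) + 1) ⊆ Finset.range l := by
        intro x hx
        rw [Finset.mem_range] at hx ⊢
        have := i.2
        omega
      rw [← Finset.sum_subset h2]
      · apply Finset.sum_congr rfl
        intro i' _
        rw [mul_pow]
        ring
      · intro x _ hx
        rw [Finset.mem_range, not_lt] at hx
        rw [Nat.choose_eq_zero_of_lt (by omega), Nat.cast_zero]
        ring
    · intro c _ hc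
      rw [tz_apply]
      simp only [if_neg hc, mul_zero]
    · intro hc
      exact absurd (Finset.mem_univ _) hc
  · intro m _ hm
    apply Finset.sum_eq_zero
    intro i' _
    show _ * (if m = j then _ else 0) = 0
    rw [if_neg hm, mul_zero]
  · intro hc
    exact absurd (Finset.mem_univ _) hc
  · intro m _ hm
    apply Finset.sum_eq_zero
    intro i' _
    show (if k = m then _ else 0) * _ = 0
    rw [if_neg (Ne.symm hm), zero_mul]
  · intro hc
    exact absurd (Finset.mem_univ _) hc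

/-- **the determinant of the representation on functions on the fibres** -/
theorem DD_tz {n : Type} [Fintype n] [DecidableEq n] (A : Matrix n n (MonoidAlgebra ℤ G))
    (σ : G →* Matrix κ κ L) (β : κ → X) (hσ : ∀ g k j, σ g k j ≠ 0 → β k = g • β j) :
    DD (tz D σ β hσ) A = ∏ i ∈ Finset.range l, DD (tw D σ β hσ i) A := by
  have h1 : DD (nz D σ β hσ) A = DD (tz D σ β hσ) A :=
    DD_conj (tz D σ β hσ) (nz D σ β hσ) (VP κ l L) (exists_VQ κ l L).choose
      (exists_VQ κ l L).choose_spec.1 (exists_VQ κ l L).choose_spec.2 (fun g => rfl) A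
  rw [← h1]
  have hβ : ∀ g, (nz D σ β hσ g).BlockTriangular (fun x => l - 1 - (x.2 : ℕ)) := by
    intro g k j hkj
    have h2 := k.2.2
    have h3 := j.2.2
    simp only at hkj
    rw [nz_apply, Nat.choose_eq_zero_of_lt (by omega), Nat.cast_zero]
    ring
  rw [DD_tri' _ _ hβ A (Finset.range l) (by
    intro x
    rw [Finset.mem_range]
    have := (Fact.out : l.Prime).pos
    omega), ← Finset.prod_range_reflect]
  apply Finset.prod_congr rfl
  intro i hi
  rw [Finset.mem_range] at hi
  let e : κ ≃ {x : κ × Fin l // l - 1 - (x.2 : ℕ) = l - 1 - i} :=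
    { toFun := fun k => ⟨(k, ⟨i, hi⟩), rfl⟩
      invFun := fun x => x.1.1
      left_inv := fun k => rfl
      right_inv := by
        rintro ⟨⟨k, i'⟩, h⟩
        apply Subtype.ext
        have h2 : (i' : ℕ) = i := by
          have h3 := i'.2
          simp only at h
          omega
        exact Prod.ext rfl (Fin.ext h2.symm) }
  rw [← DD_rei e (tw D σ β hσ i)]
  congr 1
  ext g x y
  obtain ⟨k, rfl⟩ := e.surjective x
  obtain ⟨j, rfl⟩ := e.surjective y
  rw [rei_apply, Equiv.symm_apply_apply, Equiv.symm_apply_apply, tw_apply]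
  show nz D σ β hσ g (k, ⟨i, hi⟩) (j, ⟨i, hi⟩) = _
  rw [nz_apply]
  simp only [Nat.choose_self, Nat.cast_one, Nat.sub_self, pow_zero, mul_one, one_mul]

lemma prod_first {M : Type*} [CommMonoid M] (f : ℕ → M) (m : ℕ) (hm : 1 ≤ m) :
    ∏ i ∈ Finset.range m, f i = f 0 * ∏ x ∈ Finset.range (m - 1), f (x + 1) := by
  obtain ⟨k, rfl⟩ : ∃ k, m = k + 1 := ⟨m - 1, by omega⟩
  rw [Finset.prod_range_succ', mul_comm]
  rfl

lemma prod_last {M : Type*} [CommMonoid M] (f : ℕ → M) (m : ℕ) (hm : 1 ≤ m) :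
    ∏ i ∈ Finset.range m, f i = (∏ x ∈ Finset.range (m - 1), f x) * f (m - 1) := by
  obtain ⟨k, rfl⟩ : ∃ k, m = k + 1 := ⟨m - 1, by omega⟩
  rw [Finset.prod_range_succ]
  rfl

/-- **the affine step** -/
theorem QX_step {n : Type} [Fintype n] [DecidableEq n] {A : Matrix n n (MonoidAlgebra ℤ G)}
    (h : QX A L (ZZ D)) : QX A L X := by
  -- products of twists
  have h1 : ∀ (κ : Type) [Fintype κ] [DecidableEq κ] (σ : G →* Matrix κ κ L) (β : κ → X)
      (hσ : ∀ g k j, σ g k j ≠ 0 → β k = g • β j),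
      ∏ i ∈ Finset.range l, DD (tw D σ β hσ i) A ^ 2 = 1 := by
    intro κ _ _ σ β hσ
    have h2 := h (κ × ZMod l) (tz D σ β hσ) (fun x => (β x.1, x.2)) (by
      rintro g ⟨k, a⟩ ⟨j, b⟩ h0
      rw [tz_apply] at h0
      have h3 : σ g k j ≠ 0 := fun hc => h0 (by
        show σ g k j * _ = 0
        rw [hc, zero_mul])
      have h4 : a = D.u g (β j) * b + D.b g (β j) := by
        by_contra hc
        apply h0
        show _ * (if a = D.u g (β j) * b + D.b g (β j) then 1 else 0) = 0
        rw [if_neg hc, mul_zero]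
      exact Prod.ext (hσ g k j h3) h4)
    rw [DD_tz, ← Finset.prod_pow] at h2
    exact h2
  -- one twist
  have h2 : ∀ (κ : Type) [Fintype κ] [DecidableEq κ] (σ : G →* Matrix κ κ L) (β : κ → X)
      (hσ : ∀ g k j, σ g k j ≠ 0 → β k = g • β j),
      DD (tw D σ β hσ 1) A ^ 2 = DD σ A ^ 2 := by
    intro κ _ _ σ β hσ
    have hl : 1 ≤ l := (Fact.out : l.Prime).pos
    have e1 := h1 κ σ β hσ
    have e2 := h1 κ (tw D σ β hσ 1) β (tw_supp D σ β hσ 1)
    simp only [tw_tw] at e2
    rw [prod_first _ l hl, tw_zero] at e1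
    rw [prod_last _ l hl] at e2
    have e3 : 1 + (l - 1) = l := by omega
    have e6 : DD (tw D σ β hσ (1 + (l - 1))) A ^ 2 = DD (tw D σ β hσ 1) A ^ 2 := by
      rw [e3, tw_l]
    rw [e6] at e2
    have e4 : ∏ x ∈ Finset.range (l - 1), DD (tw D σ β hσ (1 + x)) A ^ 2 =
        ∏ x ∈ Finset.range (l - 1), DD (tw D σ β hσ (x + 1)) A ^ 2 := by
      apply Finset.prod_congr rfl
      intro x _
      rw [add_comm]
    rw [e4] at e2
    have e5 : (∏ x ∈ Finset.range (l - 1), DD (tw D σ β hσ (x + 1)) A ^ 2) ≠ 0 := by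
      intro hc
      rw [hc, zero_mul] at e2
      exact zero_ne_one e2
    exact mul_left_cancel₀ e5 (e2.trans (by rw [← e1, mul_comm]))
  intro κ _ _ σ β hσ
  have h3 : ∀ i, DD (tw D σ β hσ i) A ^ 2 = DD σ A ^ 2 := by
    intro i
    induction i with
    | zero => rw [tw_zero]
    | succ i ih =>
      rw [← tw_tw D σ β hσ i 1, h2, ih]
  have h4 := h1 κ σ β hσ
  rw [Finset.prod_congr rfl (fun i _ => h3 i), Finset.prod_const, Finset.card_range] at h4
  have h5 : (DD σ A ^ 2) ^ l = 1 ^ l := by rw [h4, one_pow]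
  exact frobenius_inj L l h5

end Run7.h186
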