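import Pool.Agent.Run7.h186.Ec

/-!
# Affine lines for groups with a cyclic normal subgroup of `p`-power index
-/

set_option autoImplicit false
set_option linter.unusedSectionVars false

namespace Run7.h186

open MulAction Pool.Agent.Y72.Dt

section aff

/-- an affine action of a finite group in the class `Ec` without fixed points -/
theorem exists_aff {p l : ℕ} [hp : Fact p.Prime] [hl : Fact l.Prime] (hpl : p ≠ l) {K : Type*}
    [Group K] [Finite K] (hK : Ec p K) (hlK : l ∣ Nat.card K) :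
    ∃ u b : K → ZMod l, u 1 = 1 ∧ (∀ g h, u (g * h) = u g * u h) ∧
      (∀ g h, b (g * h) = u g * b h + b g) ∧ ∀ a, ∃ g, u g * a + b g ≠ a := by
  obtain ⟨N, hN, hNc, hNp⟩ := hK
  obtain ⟨⟨n, hnN⟩, hn⟩ := hNc.exists_generator
  have hn' : ∀ x ∈ N, ∃ j : ℤ, n ^ j = x := by
    intro x hx
    obtain ⟨j, hj⟩ := hn ⟨x, hx⟩
    exact ⟨j, congrArg Subtype.val hj⟩
  have hquo : IsPGroup p (K ⧸ N) := by
    intro x
    obtain ⟨g, rfl⟩ := QuotientGroup.mk_surjective x
    obtain ⟨k, hk⟩ := hNp g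
    refine ⟨k, ?_⟩
    rw [← QuotientGroup.mk_pow, QuotientGroup.eq_one_iff]
    exact hk
  obtain ⟨a, ha⟩ := IsPGroup.iff_card.1 hquo
  have hcop : ∀ k, Nat.Coprime l (p ^ k) := fun k =>
    Nat.Coprime.pow_right _ ((Nat.coprime_primes hl.out hp.out).2 (Ne.symm hpl))
  have hNcard : Nat.card N = orderOf n := by
    have h1 : N = Subgroup.zpowers n := by
      apply le_antisymm
      · intro x hx
        obtain ⟨j, hj⟩ := hn' x hx
        exact ⟨j, hj⟩
      · rw [Subgroup.zpowers_le]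
        exact hnN
    rw [h1, Nat.card_zpowers]
  have hlN : l ∣ orderOf n := by
    rw [← hNcard]
    rw [Subgroup.card_eq_card_quotient_mul_card_subgroup N, ha] at hlK
    exact (hcop a).dvd_of_dvd_mul_left hlK
  -- the Sylow subgroup
  obtain ⟨P⟩ : Nonempty (Sylow p K) := inferInstance
  have hNP : N ⊔ (P : Subgroup K) = ⊤ := by
    rw [← Subgroup.index_eq_one]
    have h1 : (N ⊔ (P : Subgroup K)).index ∣ p ^ a := by
      have h3 : N.index = p ^ a := ha
      rw [← h3]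
      exact Subgroup.index_dvd_of_le (le_sup_left : N ≤ N ⊔ (P : Subgroup K))
    have h2 : (N ⊔ (P : Subgroup K)).index ∣ (P : Subgroup K).index :=
      Subgroup.index_dvd_of_le le_sup_right
    obtain ⟨k, _, hk⟩ := (Nat.dvd_prime_pow hp.out).1 h1
    rcases Nat.eq_zero_or_pos k with h3 | h3
    · rw [hk, h3, pow_zero]
    · exfalso
      apply P.not_dvd_index
      refine dvd_trans ?_ h2
      rw [hk]
      exact dvd_pow_self p h3.ne'
  have hdec : ∀ g : K, ∃ i : ℤ, (n ^ i)⁻¹ * g ∈ (P : Subgroup K) := by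
    intro g
    have h1 : g ∈ N ⊔ (P : Subgroup K) := hNP ▸ Subgroup.mem_top g
    rw [← SetLike.mem_coe, Subgroup.normal_mul] at h1
    obtain ⟨x, hx, y, hy, rfl⟩ := h1
    obtain ⟨i, rfl⟩ := hn' x hx
    refine ⟨i, ?_⟩
    rw [inv_mul_cancel_left]
    exact hy
  have huniq : ∀ i : ℤ, n ^ i ∈ (P : Subgroup K) → (i : ZMod l) = 0 := by
    intro i hi
    obtain ⟨k, hk⟩ := P.2 ⟨_, hi⟩
    have h1 : (n ^ i) ^ p ^ k = 1 := congrArg Subtype.val hk
    rw [← zpow_natCast, ← zpow_mul, ← orderOf_dvd_iff_zpow_eq_one] at h1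
    have h2 : (l : ℤ) ∣ i * (p ^ k : ℕ) := dvd_trans (Int.natCast_dvd_natCast.2 hlN) h1
    rw [ZMod.intCast_zmod_eq_zero_iff_dvd]
    exact (Int.isCoprime_iff_gcd_eq_one.2 (by
      rw [Int.gcd_natCast_natCast]
      exact hcop k)).dvd_of_dvd_mul_right h2
  have huniq' : ∀ i : ℤ, n ^ i = 1 → (i : ZMod l) = 0 := fun i hi =>
    huniq i (hi ▸ Subgroup.one_mem _)
  have huniq2 : ∀ i j : ℤ, n ^ i = n ^ j → (i : ZMod l) = j := by
    intro i j hij
    have := huniq' (i - j) (by rw [zpow_sub, hij, mul_inv_cancel])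
    rwa [Int.cast_sub, sub_eq_zero] at this
  have hconj : ∀ g : K, ∃ j : ℤ, n ^ j = g * n * g⁻¹ := fun g => hn' _ (hN.conj_mem n hnN g)
  choose j hj using hconj
  choose i hi using hdec
  have hconj' : ∀ (g : K) (m : ℤ), n ^ (j g * m) = g * n ^ m * g⁻¹ := by
    intro g m
    rw [zpow_mul, hj, conj_zpow]
  have hb : ∀ (g : K) (m : ℤ), (n ^ m)⁻¹ * g ∈ (P : Subgroup K) → (m : ZMod l) = i g := by
    intro g m hm
    have h1 := (P : Subgroup K).mul_mem hm ((P : Subgroup K).inv_mem (hi g))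
    have h2 : (n ^ m)⁻¹ * g * ((n ^ i g)⁻¹ * g)⁻¹ = n ^ (i g - m) := by
      rw [zpow_sub]
      have h3 : n ^ i g * (n ^ m)⁻¹ = (n ^ m)⁻¹ * n ^ i g := by
        rw [← zpow_neg, ← zpow_add, ← zpow_add, add_comm]
      rw [h3]
      group
    rw [h2] at h1
    have h3 := huniq _ h1
    rw [Int.cast_sub, sub_eq_zero] at h3
    exact h3.symm
  refine ⟨fun g => (j g : ZMod l), fun g => (i g : ZMod l), ?_, ?_, ?_, ?_⟩
  · have h1 := huniq2 (j 1) 1 (by rw [hj, zpow_one]; group)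
    show ((j 1 : ℤ) : ZMod l) = 1
    rw [h1, Int.cast_one]
  · intro g h
    show ((j (g * h) : ℤ) : ZMod l) = (j g : ZMod l) * (j h : ZMod l)
    rw [← Int.cast_mul]
    apply huniq2
    rw [hj, hconj', hj]
    group
  · intro g h
    show ((i (g * h) : ℤ) : ZMod l) = (j g : ZMod l) * (i h : ZMod l) + (i g : ZMod l)
    rw [← Int.cast_mul, ← Int.cast_add]
    symm
    apply hb
    have h1 : (n ^ (j g * i h + i g))⁻¹ * (g * h) = ((n ^ i g)⁻¹ * g) * ((n ^ i h)⁻¹ * h) := by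
      rw [zpow_add, hconj']
      group
    rw [h1]
    exact (P : Subgroup K).mul_mem (hi g) (hi h)
  · intro a
    refine ⟨n, ?_⟩
    have h1 : ((j n : ℤ) : ZMod l) = 1 := by
      rw [huniq2 (j n) 1 (by rw [hj, zpow_one]; group), Int.cast_one]
    have h2 : ((i n : ℤ) : ZMod l) = 1 := by
      rw [← hb n 1 (by rw [zpow_one, inv_mul_cancel]; exact Subgroup.one_mem _), Int.cast_one]
    show (j n : ZMod l) * a + (i n : ZMod l) ≠ a
    rw [h1, h2, one_mul]
    intro h3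
    exact one_ne_zero (add_eq_left.1 h3)

end aff

end Run7.h186
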