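import Pool.Agent.Run7.h186.QX

/-!
# The affine step
-/

set_option autoImplicit false
set_option linter.unusedSectionVars false

namespace Run7.h186

open Pool.Agent.Y72.Dt Pool.Agent.Y72.Log MulAction

universe u v

section tri

variable {G : Type*} [Group G] {n : Type*} [Fintype n] [DecidableEq n] {R : Type*} [CommRing R]
  {ι : Type*} [Fintype ι] [DecidableEq ι]

/-- determinants in block triangular representations, product over a larger set -/
theorem DD_tri' (ρ : G →* Matrix ι ι R) (β : ι → ℕ) (hβ : ∀ g, (ρ g).BlockTriangular β)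
    (A : Matrix n n (MonoidAlgebra ℤ G)) (s : Finset ℕ) (hs : ∀ i, β i ∈ s) :
    DD ρ A = ∏ k ∈ s, DD (dgb ρ β hβ k) A := by
  rw [DD_tri ρ β hβ A]
  apply Finset.prod_subset
  · intro k hk
    rw [Finset.mem_image] at hk
    obtain ⟨x, _, rfl⟩ := hk
    exact hs _
  · intro k _ hk
    have : IsEmpty (n × {i // β i = k}) := by
      constructor
      rintro ⟨a, i, hi⟩
      apply hk
      rw [Finset.mem_image]
      exact ⟨(a, i), Finset.mem_univ _, hi⟩
    unfold DD
    exact Matrix.det_isEmpty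

end tri

/-- an affine line bundle over `X` -/
structure AffD (l : ℕ) (G X : Type*) [Group G] [MulAction G X] where
  u : G → X → ZMod l
  b : G → X → ZMod l
  u_one : ∀ x, u 1 x = 1
  u_mul : ∀ g h x, u (g * h) x = u g (h • x) * u h x
  b_mul : ∀ g h x, b (g * h) x = u g (h • x) * b h x + b g (h • x)

variable {l : ℕ} {G : Type u} [Group G] {X : Type*} [MulAction G X] (D : AffD l G X)

lemma AffD.b_one (x : X) : D.b 1 x = 0 := by
  have h := D.b_mul 1 1 x
  rw [mul_one, one_smul, D.u_one, one_mul] at h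
  exact left_eq_add.1 h

/-- the total space -/
def ZZ (_ : AffD l G X) := X × ZMod l

instance : MulAction G (ZZ D) where
  smul g z := (g • z.1, D.u g z.1 * z.2 + D.b g z.1)
  one_smul z := by
    show ((1 : G) • z.1, D.u 1 z.1 * z.2 + D.b 1 z.1) = z
    rw [one_smul, D.u_one, D.b_one, one_mul, add_zero]
    rfl
  mul_smul g h z := by
    show ((g * h) • z.1, D.u (g * h) z.1 * z.2 + D.b (g * h) z.1) =
      (g • h • z.1, D.u g (h • z.1) * (D.u h z.1 * z.2 + D.b h z.1) + D.b g (h • z.1))
    rw [mul_smul, D.u_mul, D.b_mul]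
    congr 1
    ring

lemma ZZ_smul (g : G) (z : ZZ D) : g • z = ((g • z.1, D.u g z.1 * z.2 + D.b g z.1) : X × ZMod l) :=
  rfl

section twist

variable {L : Type v} [Field L] [CharP L l] {κ : Type} [Fintype κ] [DecidableEq κ]

/-- the multiplier as an element of the field -/
def ul (L : Type v) [Field L] [CharP L l] (a : ZMod l) : L := ZMod.castHom (dvd_refl l) L a

lemma ul_mul (a b : ZMod l) : ul L (a * b) = ul L a * ul L b := map_mul _ _ _
lemma ul_add (a b : ZMod l) : ul L (a + b) = ul L a + ul L b := map_add _ _ _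
lemma ul_one : ul L (1 : ZMod l) = 1 := map_one _

/-- the twist by a power of the multiplier -/
def tw (σ : G →* Matrix κ κ L) (β : κ → X) (hσ : ∀ g k j, σ g k j ≠ 0 → β k = g • β j) (i : ℕ) :
    G →* Matrix κ κ L where
  toFun g := Matrix.of fun k j => σ g k j * ul L (D.u g (β j)) ^ i
  map_one' := by
    ext k j
    rw [Matrix.of_apply, map_one, D.u_one, ul_one, one_pow, mul_one]
  map_mul' g h := by
    ext k j
    rw [Matrix.of_apply, map_mul, Matrix.mul_apply, Matrix.mul_apply, Finset.sum_mul]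
    apply Finset.sum_congr rfl
    intro m _
    rw [Matrix.of_apply, Matrix.of_apply]
    by_cases h0 : σ h m j = 0
    · rw [h0]; ring
    · rw [D.u_mul, ← hσ h m j h0, ul_mul, mul_pow]
      ring

lemma tw_apply (σ : G →* Matrix κ κ L) (β : κ → X) (hσ : ∀ g k j, σ g k j ≠ 0 → β k = g • β j)
    (i : ℕ) (g : G) (k j : κ) : tw D σ β hσ i g k j = σ g k j * ul L (D.u g (β j)) ^ i := rfl

lemma tw_supp (σ : G →* Matrix κ κ L) (β : κ → X) (hσ : ∀ g k j, σ g k j ≠ 0 → β k = g • β j)
    (i : ℕ) : ∀ g k j, tw D σ β hσ i g k j ≠ 0 → β k = g • β j := by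
  intro g k j h
  apply hσ
  intro h0
  apply h
  rw [tw_apply, h0, zero_mul]

lemma tw_tw (σ : G →* Matrix κ κ L) (β : κ → X) (hσ : ∀ g k j, σ g k j ≠ 0 → β k = g • β j)
    (i i' : ℕ) : tw D (tw D σ β hσ i) β (tw_supp D σ β hσ i) i' = tw D σ β hσ (i + i') := by
  ext g k j
  rw [tw_apply, tw_apply, tw_apply, pow_add, mul_assoc]

lemma tw_zero (σ : G →* Matrix κ κ L) (β : κ → X) (hσ : ∀ g k j, σ g k j ≠ 0 → β k = g • β j) :
    tw D σ β hσ 0 = σ := by
  ext g k j
  rw [tw_apply, pow_zero, mul_one]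

lemma tw_l [Fact l.Prime] (σ : G →* Matrix κ κ L) (β : κ → X)
    (hσ : ∀ g k j, σ g k j ≠ 0 → β k = g • β j) : tw D σ β hσ l = tw D σ β hσ 1 := by
  ext g k j
  rw [tw_apply, tw_apply, pow_one]
  congr 1
  unfold ul
  rw [← map_pow, ZMod.pow_card]

/-- the tensor product with the functions on the fibres -/
def tz (σ : G →* Matrix κ κ L) (β : κ → X) (hσ : ∀ g k j, σ g k j ≠ 0 → β k = g • β j)
    [NeZero l] : G →* Matrix (κ × ZMod l) (κ × ZMod l) L where
  toFun g := Matrix.of fun k j => σ g k.1 j.1 *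
    (if k.2 = D.u g (β j.1) * j.2 + D.b g (β j.1) then 1 else 0)
  map_one' := by
    ext ⟨k, a⟩ ⟨j, b⟩
    rw [Matrix.of_apply, map_one, D.u_one, D.b_one, one_mul, add_zero, Matrix.one_apply,
      Matrix.one_apply]
    by_cases h1 : k = j <;> by_cases h2 : a = b <;> simp [h1, h2]
  map_mul' g h := by
    ext ⟨k, a⟩ ⟨j, b⟩
    rw [Matrix.of_apply, map_mul, Matrix.mul_apply, Matrix.mul_apply, Finset.sum_mul,
      Fintype.sum_prod_type]
    apply Finset.sum_congr rfl
    intro m _
    rw [Finset.sum_eq_single (D.u h (β j) * b + D.b h (β j))]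
    · rw [Matrix.of_apply, Matrix.of_apply]
      simp only [if_true, mul_one]
      by_cases h0 : σ h m j = 0
      · rw [h0]; ring
      · have h1 := hσ h m j h0
        have h2 : (a = D.u (g * h) (β j) * b + D.b (g * h) (β j)) ↔
            (a = D.u g (β m) * (D.u h (β j) * b + D.b h (β j)) + D.b g (β m)) := by
          rw [D.u_mul, D.b_mul, h1]
          have h3 : D.u g (h • β j) * D.u h (β j) * b + (D.u g (h • β j) * D.b h (β j) +
            D.b g (h • β j)) = D.u g (h • β j) * (D.u h (β j) * b + D.b h (β j)) +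
            D.b g (h • β j) := by ring
          rw [h3]
        simp only [h2]
        ring
    · intro c _ hc
      rw [Matrix.of_apply, Matrix.of_apply]
      simp only [if_neg hc, mul_zero]
    · intro hc
      exact absurd (Finset.mem_univ _) hc

lemma tz_apply (σ : G →* Matrix κ κ L) (β : κ → X) (hσ : ∀ g k j, σ g k j ≠ 0 → β k = g • β j)
    [NeZero l] (g : G) (k j : κ × ZMod l) : tz D σ β hσ g k j = σ g k.1 j.1 *
      (if k.2 = D.u g (β j.1) * j.2 + D.b g (β j.1) then 1 else 0) := rfl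

end twist

end Run7.h186
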