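import Pool.Agent.Run7.h186.NT14
import Pool.Agent.TH941.Newform

/-! Newforms of weight two on `Γ₀(N)` as forms on `Γ₁(N)`. -/

set_option autoImplicit false

namespace Run7.h186.BF

open Filter Topology UpperHalfPlane CongruenceSubgroup
open scoped MatrixGroups ModularForm
open Run7.h186.NT (S1 aq Neb Hk isUnit_of_mem)
open Pool.Agent.W165.RS (ac)
open Pool.Agent.TH941 (Hecke)

noncomputable section

variable {N : ℕ} [NeZero N]

theorem isCusp01 {c : OnePoint ℝ} (hc : IsCusp c (Gamma1 N : Subgroup (GL (Fin 2) ℝ))) :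
    IsCusp c (Gamma0 N : Subgroup (GL (Fin 2) ℝ)) := by
  rw [Subgroup.IsArithmetic.isCusp_iff_isCusp_SL2Z] at hc ⊢
  exact hc

/-- a form on `Γ₀(N)` as a form on `Γ₁(N)` -/
def toS1 (f : CuspForm (Gamma0 N : Subgroup (GL (Fin 2) ℝ)) 2) : S1 N 2 where
  toFun := f
  slash_action_eq' := by
    intro γ hγ
    obtain ⟨γ', hγ', rfl⟩ := hγ
    exact SlashInvariantForm.slash_action_eqn f.toSlashInvariantForm _
      ⟨γ', Gamma1_in_Gamma0 N hγ', rfl⟩
  holo' := f.holo'
  zero_at_cusps' := fun hc => f.zero_at_cusps' (isCusp01 hc)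

theorem aq_toS1 (f : CuspForm (Gamma0 N : Subgroup (GL (Fin 2) ℝ)) 2) (n : ℕ) :
    aq (toS1 f) n = ac f n := rfl

theorem neb_toS1 (f : CuspForm (Gamma0 N : Subgroup (GL (Fin 2) ℝ)) 2) :
    Neb 1 (toS1 f) := by
  intro γ hγ
  have h1 : IsUnit (((γ 1 1 : ℤ)) : ZMod N) := isUnit_of_mem hγ
  rw [MulChar.one_apply h1, one_smul]
  exact SlashInvariantForm.slash_action_eqn f.toSlashInvariantForm _ ⟨γ, hγ, rfl⟩

theorem root_norm {a q : ℝ} (h : a ^ 2 ≤ 4 * q) {z : ℂ} (hz : z ^ 2 - a * z + q = 0) :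
    ‖z‖ ^ 2 = q := by
  have h1 := congrArg Complex.re hz
  have h2 := congrArg Complex.im hz
  simp only [sq, Complex.add_re, Complex.sub_re, Complex.mul_re, Complex.ofReal_re,
    Complex.ofReal_im, Complex.add_im, Complex.sub_im, Complex.mul_im, Complex.zero_re,
    Complex.zero_im] at h1 h2
  rw [← Complex.normSq_eq_norm_sq, Complex.normSq_apply]
  have h3 : z.im * (2 * z.re - a) = 0 := by linarith
  rcases mul_eq_zero.1 h3 with h4 | h4
  · rw [h4] at h1 ⊢
    have h5 : (z.re - a / 2) ^ 2 = a ^ 2 / 4 - q := by nlinarith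
    have h6 : (z.re - a / 2) ^ 2 = 0 := le_antisymm (by rw [h5]; linarith) (sq_nonneg _)
    have h7 : z.re = a / 2 := by
      have := pow_eq_zero_iff (two_ne_zero) |>.1 h6
      linarith
    rw [h7]
    nlinarith
  · have h5 : z.re = a / 2 := by linarith
    rw [h5] at h1 ⊢
    nlinarith

/-- the properties of the newform of an elliptic curve -/
theorem hk_toS1 {f : CuspForm (Gamma0 N : Subgroup (GL (Fin 2) ℝ)) 2} (hf : Hecke f) :
    Hk (toS1 f) 1 := by
  refine ⟨two_pos, neb_toS1 f, hf.one, hf.mul, fun p hp j => ?_, fun p hp hN z hz => ?_⟩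
  · rw [aq_toS1, aq_toS1, aq_toS1, aq_toS1, hf.pow p j hp]
    by_cases h : p ∣ N
    · have h1 : ¬ IsUnit ((p : ZMod N)) := by
        rw [ZMod.isUnit_iff_coprime, Nat.Prime.coprime_iff_not_dvd hp]
        exact not_not.2 h
      rw [if_pos h, MulChar.map_nonunit _ h1]
      ring
    · have h1 : IsUnit ((p : ZMod N)) := by
        rw [ZMod.isUnit_iff_coprime, Nat.Prime.coprime_iff_not_dvd hp]
        exact h
      rw [if_neg h, MulChar.one_apply h1]
      norm_num
  · have h1 : IsUnit ((p : ZMod N)) := by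
      rw [ZMod.isUnit_iff_coprime, Nat.Prime.coprime_iff_not_dvd hp]
      exact hN
    have hp0 : (0 : ℝ) < p := by exact_mod_cast hp.pos
    have e1 : ac f p = (((ac f p).re : ℝ) : ℂ) := by
      apply Complex.ext
      · simp
      · rw [hf.real p, Complex.ofReal_im]
    rw [MulChar.one_apply h1, aq_toS1, e1] at hz
    have h2 := hf.good p hp hN
    have h3 : (ac f p).re ^ 2 ≤ 4 * p := by
      have h4 : |(ac f p).re| ≤ 2 * Real.sqrt p := (Complex.abs_re_le_norm _).trans h2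
      have h5 := pow_le_pow_left₀ (abs_nonneg _) h4 2
      rw [sq_abs, mul_pow, Real.sq_sqrt hp0.le] at h5
      linarith
    have h6 : z ^ 2 - ((ac f p).re : ℂ) * z + ((p : ℝ) : ℂ) = 0 := by
      rw [← hz]
      push_cast
      norm_num
    have h7 := root_norm h3 h6
    have e2 : (((2 : ℕ) : ℝ) - 1) / 2 = 1 / 2 := by norm_num
    rw [e2, ← Real.sqrt_eq_rpow]
    rw [← Real.sqrt_sq (norm_nonneg z), h7]

end

end Run7.h186.BF
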