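import Pool.Agent.Run7.h186.NT14
import Pool.Agent.Y149.TL.Core

/-! The mean square for an arbitrary pure system twisted by the eigenforms. -/

set_option autoImplicit false

namespace Run7.h186.NT

open Finset Filter Topology Complex ComplexConjugate Polynomial
open Pool.Agent.H341R2 (E lam lam_bounded)
open Pool.Agent.Y149.CM (LFun)
open Pool.Agent.Y149.PK (tens sq_perturb)
open Pool.Agent.Y149.TL
open Run7.h186.ML (CFam)

noncomputable section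

/-- the good primes -/
theorem good (f : Eigenform) : ∀ᶠ p : Nat.Primes in cofinite, ¬ (p : ℕ) ∣ f.level := by
  rw [eventually_cofinite]
  refine (finite_dvd f.level_pos.ne').subset fun p hp => ?_
  rw [Set.mem_ofPred_eq, not_not] at hp
  exact hp

theorem frob_eq (f : Eigenform) (p : Nat.Primes) (hp : ¬ (p : ℕ) ∣ f.level) :
    ∃ u v : ℂ, ‖u‖ = 1 ∧ ‖v‖ = 1 ∧ u + v = lm (N := f.level) (k := f.weight) f.form p ∧
      frob f p = {((Real.sqrt (p : ℕ) ^ (f.weight - 1) : ℝ) : ℂ) * u,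
        ((Real.sqrt (p : ℕ) ^ (f.weight - 1) : ℝ) : ℂ) * v} := by
  obtain ⟨u, v, hu, hv, hs, hm⟩ := f.hk.sat p.2 hp
  refine ⟨u, v, hu, hv, hs, ?_⟩
  have hpp : (0 : ℝ) < ((p : ℕ) : ℝ) := by exact_mod_cast p.2.pos
  have hk := f.weight_pos
  set P : ℂ := ((Real.sqrt (p : ℕ) ^ (f.weight - 1) : ℝ) : ℂ) with hP
  have e2 : P ^ 2 = ((p : ℕ) : ℂ) ^ (f.weight - 1) := by
    rw [hP, ← Complex.ofReal_pow, ← pow_mul, mul_comm, pow_mul, Real.sq_sqrt hpp.le,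
      Complex.ofReal_pow, Complex.ofReal_natCast]
  have e3 : Real.sqrt (p : ℕ) ^ (f.weight - 1) = ((p : ℕ) : ℝ) ^ (((f.weight : ℝ) - 1) / 2) := by
    rw [Real.sqrt_eq_rpow, ← Real.rpow_natCast, ← Real.rpow_mul hpp.le, Nat.cast_sub hk]
    congr 1
    push_cast
    ring
  have e4 : f.a p = P * (u + v) := by
    rw [hs, hP, e3]
    unfold lm
    have e5 : f.a p = aq (N := f.level) (k := f.weight) f.form p := rfl
    rw [e5, mul_comm, mul_assoc, ← Complex.ofReal_mul, ← Real.rpow_add hpp, neg_add_cancel,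
      Real.rpow_zero]
    simp
  unfold frob
  rw [e4]
  have e6 : (X ^ 2 - C (P * (u + v)) * X +
      C (f.chi ((p : ℕ) : ZMod f.level) * ((p : ℕ) : ℂ) ^ (f.weight - 1)) : ℂ[X]) =
      (X - C (P * u)) * (X - C (P * v)) := by
    rw [← hm, ← e2]
    simp only [map_mul, map_add, map_pow]
    ring
  rw [e6, Polynomial.roots_mul (mul_ne_zero (X_sub_C_ne_zero _) (X_sub_C_ne_zero _)),
    roots_X_sub_C, roots_X_sub_C]
  rfl

theorem sqrt_pow_eq (m : ℕ) (p : Nat.Primes) :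
    Real.sqrt (p : ℕ) ^ m = ((p : ℕ) : ℝ) ^ (((m : ℤ) : ℝ) / 2) := by
  have hpp : (0 : ℝ) < ((p : ℕ) : ℝ) := by exact_mod_cast p.2.pos
  rw [Real.sqrt_eq_rpow, ← Real.rpow_natCast, ← Real.rpow_mul hpp.le]
  congr 1
  push_cast
  ring

/-- the weight of the Galois representation -/
def wg (f : Eigenform) : ℕ := f.weight - 1

theorem frob_pure (f : Eigenform) (p : Nat.Primes) (hp : ¬ (p : ℕ) ∣ f.level) :
    Pure (wg f) 2 p (frob f p) := by
  obtain ⟨u, v, hu, hv, -, hf⟩ := frob_eq f p hp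
  have hs : 0 ≤ Real.sqrt (p : ℕ) ^ (f.weight - 1) := by positivity
  have key : ∀ w : ℂ, ‖w‖ = 1 → ‖((Real.sqrt (p : ℕ) ^ (f.weight - 1) : ℝ) : ℂ) * w‖ =
      ((p : ℕ) : ℝ) ^ (((wg f : ℤ) : ℝ) / 2) := by
    intro w hw
    rw [norm_mul, hw, mul_one, Complex.norm_real, Real.norm_of_nonneg hs, sqrt_pow_eq]
    rfl
  rw [hf]
  refine ⟨fun z hz => ?_, by simp⟩
  simp only [Multiset.insert_eq_cons, Multiset.mem_cons, Multiset.mem_singleton] at hz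
  rcases hz with rfl | rfl
  · exact key u hu
  · exact key v hv

theorem frob_sum (f : Eigenform) (p : Nat.Primes) (hp : ¬ (p : ℕ) ∣ f.level) :
    (frob f p).sum = ((((p : ℕ) : ℝ) ^ (((wg f : ℤ) : ℝ) / 2) : ℝ) : ℂ) *
      tn (M := f.level) (k := f.weight) f.form p := by
  obtain ⟨u, v, -, -, hs, hf⟩ := frob_eq f p hp
  unfold tn
  rw [if_neg hp, hf, ← hs, ← sqrt_pow_eq]
  simp only [Multiset.insert_eq_cons, Multiset.sum_cons, Multiset.sum_singleton]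
  unfold wg
  ring

/-- positive parts -/
theorem max_perturb {α : Type} (S : Finset α) (x y : α → ℝ → ℝ) (K : ℝ) (hK : 0 ≤ K)
    (h : ∀ η : ℝ, 0 < η → ∀ᶠ ε : ℝ in 𝓝[>] 0, ∑ l ∈ S, (max (x l ε) 0) ^ 2 ≤ K + η)
    (hy : ∀ l ∈ S, Tendsto (fun ε => y l ε - x l ε) (𝓝[>] 0) (𝓝 0)) {η : ℝ} (hη : 0 < η) :
    ∀ᶠ ε : ℝ in 𝓝[>] 0, ∑ l ∈ S, (max (y l ε) 0) ^ 2 ≤ K + η := by
  refine sq_perturb S (fun l ε => max (x l ε) 0) (fun l ε => max (y l ε) 0) K hK h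
    (fun l hl => ?_) hη
  have h1 := (tendsto_zero_iff_abs_tendsto_zero _).1 (hy l hl)
  refine squeeze_zero_norm (fun ε => ?_) h1
  rw [Real.norm_eq_abs]
  exact abs_max_sub_max_le_abs _ _ _

section
variable {ι : Type} {ψ : ι → Eigenform} {w : ℤ} {N : ℕ} {δ : Nat.Primes → Multiset ℂ}

/-- **The mean square.** -/
theorem one_mean (hψ : ∀ e e', e ≠ e' → Differ (ψ e) (ψ e'))
    (hδ : ∀ᶠ p in cofinite, Pure w N p (δ p))
    (S : Finset (ι × ℝ)) {B : ι × ℝ → Nat.Primes → ℂ[X]} (hB : ∀ x ∈ S,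
      IsEuler (w + wg (ψ x.1)) (fun p => tens (δ p) (frob (ψ x.1) p)) (B x))
    {η : ℝ} (hη : 0 < η) : ∀ᶠ ε : ℝ in 𝓝[>] 0,
      (∀ x ∈ S, LFun (B x) (edge (w + wg (ψ x.1)) x.2 + ε) ≠ 0) ∧
      ∑ x ∈ S, max (size (w + wg (ψ x.1)) (B x) x.2 ε) 0 ^ 2 ≤ (N : ℝ) ^ 2 + η ∧
      ∑ x ∈ S, max (-size (w + wg (ψ x.1)) (B x) x.2 ε) 0 ^ 2 ≤ (N : ℝ) ^ 2 + η := by
  classical
  have hfam := fam_CFam hψ
  set Q : Nat.Primes → ℂ := Pool.Agent.Y149.TL.mt w N δ with hQ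
  have hlink : ∀ x ∈ S, (∀ᶠ ε : ℝ in 𝓝[>] 0, LFun (B x) (edge (w + wg (ψ x.1)) x.2 + ε) ≠ 0) ∧
      Tendsto (fun ε : ℝ => size (w + wg (ψ x.1)) (B x) x.2 ε -
        E ε (fun p => (Q p * fam ψ x p).re) / lam ε) (𝓝[>] 0) (𝓝 0) := by
    intro x hx
    have hg := good (ψ x.1)
    refine line_log (hB x hx) (N := N * 2) ((hδ.and hg).mono fun p hp =>
      tens_pure hp.1 (frob_pure (ψ x.1) p hp.2)) x.2 (C0 := N * 2) (fun p => ?_)
      ((hδ.and hg).mono fun p hp => ?_)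
    · refine (Complex.abs_re_le_norm _).trans ?_
      rw [norm_mul]
      exact mul_le_mul (norm_mt w N δ p) (hfam.bd x p) (norm_nonneg _) (Nat.cast_nonneg _)
    · have hp0 : (0 : ℝ) < (p : ℕ) := by exact_mod_cast p.2.pos
      congr 1
      rw [tens_sum, frob_sum (ψ x.1) p hp.2]
      have e1 : Q p = (δ p).sum / ((((p : ℕ) : ℝ) ^ ((w : ℝ) / 2) : ℝ) : ℂ) := by
        rw [hQ]
        unfold Pool.Agent.Y149.TL.mt
        rw [if_pos hp.1]
      have e2 : ((((p : ℕ) : ℝ) ^ (((w + wg (ψ x.1) : ℤ) : ℝ) / 2) : ℝ) : ℂ) =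
          ((((p : ℕ) : ℝ) ^ ((w : ℝ) / 2) : ℝ) : ℂ) *
            ((((p : ℕ) : ℝ) ^ (((wg (ψ x.1) : ℤ) : ℝ) / 2) : ℝ) : ℂ) := by
        rw [← Complex.ofReal_mul, ← Real.rpow_add hp0]
        congr 2
        push_cast
        ring
      have e4 := cpow_half w p
      have e5 := cpow_half (wg (ψ x.1) : ℤ) p
      rw [e1, e2]
      unfold fam
      field_simp
  have h1 : ∀ᶠ ε : ℝ in 𝓝[>] 0, ∀ x ∈ S, LFun (B x) (edge (w + wg (ψ x.1)) x.2 + ε) ≠ 0 := by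
    rw [Filter.eventually_all_finset]
    exact fun x hx => (hlink x hx).1
  have h2 := max_perturb S (fun x ε => 1 * (E ε (fun p => (Q p * fam ψ x p).re) / lam ε))
    (fun x ε => size (w + wg (ψ x.1)) (B x) x.2 ε) _ (by positivity)
    (fun η' hη' => hfam.bes S Q (norm_mt w N δ) hη' (Or.inl rfl))
    (fun x hx => by simpa only [one_mul] using (hlink x hx).2) hη
  have h3 := max_perturb S (fun x ε => (-1) * (E ε (fun p => (Q p * fam ψ x p).re) / lam ε))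
    (fun x ε => -size (w + wg (ψ x.1)) (B x) x.2 ε) _ (by positivity)
    (fun η' hη' => hfam.bes S Q (norm_mt w N δ) hη' (Or.inr rfl))
    (fun x hx => by
      have := (hlink x hx).2.neg
      rw [neg_zero] at this
      refine this.congr fun ε => ?_
      ring) hη
  exact h1.and (h2.and h3)

/-- **The orders.** -/
theorem one_order (hψ : ∀ e e', e ≠ e' → Differ (ψ e) (ψ e'))
    (hδ : ∀ᶠ p in cofinite, Pure w N p (δ p))
    (S : Finset (ι × ℝ)) {B : ι × ℝ → Nat.Primes → ℂ[X]} (hB : ∀ x ∈ S,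
      IsEuler (w + wg (ψ x.1)) (fun p => tens (δ p) (frob (ψ x.1) p)) (B x))
    {r : ι × ℝ → ℤ} (hr : ∀ x ∈ S, HasOrder (w + wg (ψ x.1)) (B x) x.2 (r x)) :
    ∑ x ∈ S, max (r x) 0 ^ 2 ≤ (N : ℤ) ^ 2 ∧ ∑ x ∈ S, max (-r x) 0 ^ 2 ≤ (N : ℤ) ^ 2 := by
  have h1 : ∑ x ∈ S, (max (-(-(r x : ℝ))) 0) ^ 2 ≤ (N : ℝ) ^ 2 := by
    refine le_of_forall_pos_le_add fun η hη => ?_
    have h2 : Tendsto (fun ε : ℝ => ∑ x ∈ S, max (-size (w + wg (ψ x.1)) (B x) x.2 ε) 0 ^ 2)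
        (𝓝[>] 0) (𝓝 (∑ x ∈ S, (max (-(-(r x : ℝ))) 0) ^ 2)) :=
      tendsto_finsetSum _ fun x hx => ((line_order (hr x hx)).neg.max tendsto_const_nhds).pow 2
    refine le_of_tendsto h2 ?_
    exact (one_mean hψ hδ S hB hη).mono fun ε h3 => h3.2.2
  have h1' : ∑ x ∈ S, (max (-(r x : ℝ)) 0) ^ 2 ≤ (N : ℝ) ^ 2 := by
    refine le_of_forall_pos_le_add fun η hη => ?_
    have h2 : Tendsto (fun ε : ℝ => ∑ x ∈ S, max (size (w + wg (ψ x.1)) (B x) x.2 ε) 0 ^ 2)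
        (𝓝[>] 0) (𝓝 (∑ x ∈ S, (max (-(r x : ℝ)) 0) ^ 2)) :=
      tendsto_finsetSum _ fun x hx => ((line_order (hr x hx)).max tendsto_const_nhds).pow 2
    refine le_of_tendsto h2 ?_
    exact (one_mean hψ hδ S hB hη).mono fun ε h3 => h3.2.1
  simp only [neg_neg] at h1
  exact ⟨by exact_mod_cast h1, by exact_mod_cast h1'⟩

/-- tensor products are pure -/
theorem tensL_pure' (hδ : ∀ᶠ p in cofinite, Pure w N p (δ p)) (l : List ι) :
    ∀ᶠ p : Nat.Primes in cofinite, Pure (w + ((l.map fun e => wg (ψ e)).sum : ℕ))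
      (N * 2 ^ l.length) p (tensL (δ p) (fun e => frob (ψ e) p) l) := by
  induction l with
  | nil => simpa [tensL] using hδ
  | cons e l ih =>
    filter_upwards [ih, good (ψ e)] with p h1 h2
    have h3 := tens_pure h1 (frob_pure (ψ e) p h2)
    rw [tensL, List.length_cons, pow_succ, ← mul_assoc]
    have e1 : w + (((e :: l).map fun e => wg (ψ e)).sum : ℕ) =
        w + ((l.map fun e => wg (ψ e)).sum : ℕ) + wg (ψ e) := by
      rw [List.map_cons, List.sum_cons]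
      push_cast
      ring
    rw [e1]
    exact h3

end

end

end Run7.h186.NT
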