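import Mathlib.Analysis.Complex.Basic
import Mathlib.Algebra.QuadraticDiscriminant
import Mathlib.Topology.Algebra.InfiniteSum.Real
import Mathlib.Topology.Algebra.InfiniteSum.Order
import Mathlib.Analysis.Normed.Group.InfiniteSum
import Mathlib.Analysis.Complex.Order
import Mathlib.Algebra.Order.Chebyshev

/-! Bessel's inequality for families which are orthogonal from one side, in a weighted space. -/

set_option autoImplicit false

namespace Run7.h186.NU

open Finset Filter Topology Complex ComplexConjugate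

noncomputable section

section
variable {A : Type*} {W : A → ℝ} {u v : A → ℂ}

/-- the real part of the inner product -/
def ip (W : A → ℝ) (u v : A → ℂ) : ℝ := ∑' a, W a * (u a * conj (v a)).re

/-- square summability -/
def L2 (W : A → ℝ) (u : A → ℂ) : Prop := Summable fun a => W a * ‖u a‖ ^ 2

theorem re_le (x y : ℂ) : |(x * conj y).re| ≤ ‖x‖ ^ 2 + ‖y‖ ^ 2 := by
  refine (Complex.abs_re_le_norm _).trans ?_
  rw [norm_mul, Complex.norm_conj]
  nlinarith [sq_nonneg (‖x‖ - ‖y‖), sq_nonneg ‖x‖, sq_nonneg ‖y‖, norm_nonneg x, norm_nonneg y]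

theorem L2.summable (hW : ∀ a, 0 ≤ W a) (hu : L2 W u) (hv : L2 W v) :
    Summable fun a => W a * (u a * conj (v a)).re := by
  refine Summable.of_norm_bounded (Summable.add hu hv) fun a => ?_
  rw [Real.norm_eq_abs, abs_mul, abs_of_nonneg (hW a), ← mul_add]
  exact mul_le_mul_of_nonneg_left (re_le _ _) (hW a)

theorem ip_abs_le (hW : ∀ a, 0 ≤ W a) (hu : L2 W u) (hv : L2 W v) :
    |ip W u v| ≤ ip W u u + ip W v v := by
  have e : ∀ w : A → ℂ, ip W w w = ∑' a, W a * ‖w a‖ ^ 2 := by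
    intro w
    unfold ip
    refine tsum_congr fun a => ?_
    rw [Complex.mul_conj, Complex.normSq_eq_norm_sq, Complex.ofReal_re]
  rw [e, e, ← Summable.tsum_add hu hv, ← Real.norm_eq_abs]
  refine tsum_of_norm_bounded (Summable.add hu hv).hasSum fun a => ?_
  rw [Real.norm_eq_abs, abs_mul, abs_of_nonneg (hW a), ← mul_add]
  exact mul_le_mul_of_nonneg_left (re_le _ _) (hW a)

theorem ip_self (u : A → ℂ) : ip W u u = ∑' a, W a * ‖u a‖ ^ 2 := by
  unfold ip
  refine tsum_congr fun a => ?_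
  rw [Complex.mul_conj, Complex.normSq_eq_norm_sq, Complex.ofReal_re]

theorem ip_self_nonneg (hW : ∀ a, 0 ≤ W a) (u : A → ℂ) : 0 ≤ ip W u u := by
  rw [ip_self]
  exact tsum_nonneg fun a => mul_nonneg (hW a) (sq_nonneg _)

/-- **Cauchy-Schwarz** -/
theorem ip_cs (hW : ∀ a, 0 ≤ W a) (hu : L2 W u) (hv : L2 W v) :
    ip W u v ^ 2 ≤ ip W u u * ip W v v := by
  have key : ∀ x : ℝ, 0 ≤ ip W u u * (x * x) + (2 * ip W u v) * x + ip W v v := by
    intro x
    have e : ip W u u * (x * x) + (2 * ip W u v) * x + ip W v v =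
        ∑' a, W a * ‖(x : ℂ) * u a + v a‖ ^ 2 := by
      have h1 := L2.summable hW hu hu
      have h2 := L2.summable hW hu hv
      have h3 := L2.summable hW hv hv
      unfold ip
      rw [← tsum_mul_right, ← tsum_mul_left, ← tsum_mul_right,
        ← (h1.mul_right (x * x)).tsum_add ((h2.mul_left 2).mul_right x),
        ← ((h1.mul_right (x * x)).add ((h2.mul_left 2).mul_right x)).tsum_add h3]
      refine tsum_congr fun a => ?_
      have e1 : ‖(x : ℂ) * u a + v a‖ ^ 2 =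
          (u a * conj (u a)).re * (x * x) + 2 * (u a * conj (v a)).re * x +
          (v a * conj (v a)).re := by
        rw [← Complex.normSq_eq_norm_sq, Complex.normSq_add]
        simp only [Complex.normSq_apply, Complex.mul_re, Complex.mul_im, Complex.ofReal_re,
          Complex.ofReal_im, Complex.conj_re, Complex.conj_im]
        ring
      rw [e1]
      ring
    rw [e]
    exact tsum_nonneg fun a => mul_nonneg (hW a) (sq_nonneg _)
  have h := discrim_le_zero key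
  unfold discrim at h
  nlinarith

theorem L2.sum {κ : Type*} (hW : ∀ a, 0 ≤ W a) (S : Finset κ) (t : κ → ℝ) {U : κ → A → ℂ}
    (hU : ∀ x ∈ S, L2 W (U x)) : L2 W (fun a => ∑ x ∈ S, (t x : ℂ) * U x a) := by
  classical
  induction S using Finset.induction_on with
  | empty =>
    unfold L2
    simp only [Finset.sum_empty, norm_zero]
    norm_num
  | insert x S hx ih =>
    have h1 := ih fun y hy => hU y (Finset.mem_insert_of_mem hy)
    have h2 := hU x (Finset.mem_insert_self _ _)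
    unfold L2 at *
    refine Summable.of_nonneg_of_le (fun a => mul_nonneg (hW a) (sq_nonneg _)) (fun a => ?_)
      ((h2.mul_left (2 * t x ^ 2)).add (h1.mul_left 2))
    simp only []
    rw [Finset.sum_insert hx]
    have h3 := norm_add_le ((t x : ℂ) * U x a) (∑ y ∈ S, (t y : ℂ) * U y a)
    have h4 := pow_le_pow_left₀ (norm_nonneg _) h3 2
    have h5 : ‖(t x : ℂ) * U x a‖ ^ 2 = t x ^ 2 * ‖U x a‖ ^ 2 := by
      rw [norm_mul, mul_pow, Complex.norm_real, Real.norm_eq_abs, sq_abs]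
    have h6 : ‖(t x : ℂ) * U x a + ∑ y ∈ S, (t y : ℂ) * U y a‖ ^ 2 ≤
        2 * (t x ^ 2 * ‖U x a‖ ^ 2) + 2 * ‖∑ y ∈ S, (t y : ℂ) * U y a‖ ^ 2 := by
      rw [← h5]
      nlinarith [sq_nonneg (‖(t x : ℂ) * U x a‖ - ‖∑ y ∈ S, (t y : ℂ) * U y a‖)]
    have h7 := mul_le_mul_of_nonneg_left h6 (hW a)
    linarith

theorem ip_sum_right {κ : Type*} (hW : ∀ a, 0 ≤ W a) (S : Finset κ) (t : κ → ℝ)
    {U : κ → A → ℂ} (hu : L2 W u) (hU : ∀ x ∈ S, L2 W (U x)) :
    ip W u (fun a => ∑ x ∈ S, (t x : ℂ) * U x a) = ∑ x ∈ S, t x * ip W u (U x) := by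
  unfold ip
  have h1 : ∀ x ∈ S, Summable fun a => t x * (W a * (u a * conj (U x a)).re) := fun x hx =>
    (L2.summable hW hu (hU x hx)).mul_left _
  simp_rw [← tsum_mul_left]
  rw [← Summable.tsum_finsetSum h1]
  refine tsum_congr fun a => ?_
  rw [map_sum, Finset.mul_sum, Complex.re_sum, Finset.mul_sum]
  refine Finset.sum_congr rfl fun x _ => ?_
  rw [map_mul, Complex.conj_ofReal]
  have e : u a * ((t x : ℂ) * conj (U x a)) = (t x : ℂ) * (u a * conj (U x a)) := by ring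
  rw [e, Complex.re_ofReal_mul]
  ring

theorem ip_symm (u v : A → ℂ) : ip W u v = ip W v u := by
  unfold ip
  refine tsum_congr fun a => ?_
  congr 1
  simp only [Complex.mul_re, Complex.conj_re, Complex.conj_im]
  ring

theorem ip_sum_sum {κ : Type*} (hW : ∀ a, 0 ≤ W a) (S : Finset κ) (t : κ → ℝ)
    {U : κ → A → ℂ} (hU : ∀ x ∈ S, L2 W (U x)) :
    ip W (fun a => ∑ x ∈ S, (t x : ℂ) * U x a) (fun a => ∑ x ∈ S, (t x : ℂ) * U x a) =
      ∑ x ∈ S, ∑ y ∈ S, t x * t y * ip W (U x) (U y) := by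
  rw [ip_sum_right hW S t (L2.sum hW S t hU) hU]
  refine Finset.sum_congr rfl fun x hx => ?_
  rw [ip_symm, ip_sum_right hW S t (hU x hx) hU, Finset.mul_sum]
  refine Finset.sum_congr rfl fun y _ => ?_
  ring

end

section
variable {A κ : Type*} {W : ℝ → A → ℝ} {L : ℝ → ℝ} {U : κ → A → ℂ} {Q : A → ℂ}

/-- the family is square summable, normalised and orthogonal from one side -/
structure Fam (W : ℝ → A → ℝ) (L : ℝ → ℝ) (U : κ → A → ℂ) : Prop where
  l2 : ∀ x, ∀ᶠ ε : ℝ in 𝓝[>] 0, L2 (W ε) (U x)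
  diag : ∀ x, ∃ C : ℝ, ∀ᶠ ε : ℝ in 𝓝[>] 0, ip (W ε) (U x) (U x) ≤ L ε + C
  cross : ∀ x y, x ≠ y → ∃ C : ℝ, ∀ᶠ ε : ℝ in 𝓝[>] 0, ip (W ε) (U x) (U y) ≤ C

/-- **Bessel's inequality.** -/
theorem Fam.bes (h : Fam W L U) (hW : ∀ ε a, 0 ≤ W ε a) (hL : Tendsto L (𝓝[>] 0) atTop)
    (hQ : ∀ᶠ ε : ℝ in 𝓝[>] 0, L2 (W ε) Q) {κ₀ : ℝ} (hκ : 0 ≤ κ₀)
    (hQ2 : ∀ η : ℝ, 0 < η → ∀ᶠ ε : ℝ in 𝓝[>] 0, ip (W ε) Q Q ≤ (κ₀ + η) * L ε)
    (S : Finset κ) {η : ℝ} (hη : 0 < η) {s : ℝ} (hs : s = 1 ∨ s = -1) :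
    ∀ᶠ ε : ℝ in 𝓝[>] 0, ∑ x ∈ S, (max (s * (ip (W ε) Q (U x) / L ε)) 0) ^ 2 ≤ κ₀ + η := by
  classical
  -- a common constant
  have hC : ∃ C : ℝ, 0 ≤ C ∧ ∀ᶠ ε : ℝ in 𝓝[>] 0, ∀ x ∈ S, ∀ y ∈ S,
      ip (W ε) (U x) (U y) ≤ (if x = y then L ε else 0) + C := by
    have h1 : ∀ x y, ∃ C : ℝ, ∀ᶠ ε : ℝ in 𝓝[>] 0,
        ip (W ε) (U x) (U y) ≤ (if x = y then L ε else 0) + C := by
      intro x y
      by_cases hxy : x = y
      · subst hxy
        obtain ⟨C, hC⟩ := h.diag x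
        exact ⟨C, hC.mono fun ε h2 => by rw [if_pos rfl]; exact h2⟩
      · obtain ⟨C, hC⟩ := h.cross x y hxy
        exact ⟨C, hC.mono fun ε h2 => by rw [if_neg hxy, zero_add]; exact h2⟩
    choose C hC using h1
    refine ⟨∑ x ∈ S, ∑ y ∈ S, |C x y|, Finset.sum_nonneg fun _ _ =>
      Finset.sum_nonneg fun _ _ => abs_nonneg _, ?_⟩
    rw [Filter.eventually_all_finset]
    intro x hx
    rw [Filter.eventually_all_finset]
    intro y hy
    refine (hC x y).mono fun ε h2 => h2.trans ?_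
    have h3 : |C x y| ≤ ∑ x ∈ S, ∑ y ∈ S, |C x y| :=
      (Finset.single_le_sum (f := fun y => |C x y|) (fun _ _ => abs_nonneg _) hy).trans
        (Finset.single_le_sum (f := fun x => ∑ y ∈ S, |C x y|)
          (fun _ _ => Finset.sum_nonneg fun _ _ => abs_nonneg _) hx)
    linarith [le_abs_self (C x y)]
  obtain ⟨C, hC0, hC⟩ := hC
  have hl2 : ∀ᶠ ε : ℝ in 𝓝[>] 0, ∀ x ∈ S, L2 (W ε) (U x) := by
    rw [Filter.eventually_all_finset]
    exact fun x _ => h.l2 x
  set D : ℝ := (κ₀ + η / 2) * (C * S.card) with hD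
  have hlim : ∀ᶠ ε : ℝ in 𝓝[>] 0, D ≤ η / 2 * L ε := by
    have h1 : Tendsto (fun ε => η / 2 * L ε) (𝓝[>] 0) atTop :=
      Tendsto.const_mul_atTop (half_pos hη) hL
    exact h1.eventually_ge_atTop D
  filter_upwards [hC, hl2, hQ, hQ2 (η / 2) (half_pos hη), hL.eventually_gt_atTop 0, hlim]
    with ε g1 g2 g3 g4 g5 g6
  set t : κ → ℝ := fun x => max (s * (ip (W ε) Q (U x) / L ε)) 0 with ht
  have ht0 : ∀ x, 0 ≤ t x := fun x => le_max_right _ _
  set T : ℝ := ∑ x ∈ S, t x ^ 2 with hT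
  have hT0 : 0 ≤ T := Finset.sum_nonneg fun _ _ => sq_nonneg _
  set V : A → ℂ := fun a => ∑ x ∈ S, (t x : ℂ) * U x a with hV
  have hs2 : s * s = 1 := by rcases hs with rfl | rfl <;> norm_num
  have k1 : s * ip (W ε) Q V = L ε * T := by
    rw [hV, ip_sum_right (hW ε) S t g3 g2, Finset.mul_sum, hT, Finset.mul_sum]
    refine Finset.sum_congr rfl fun x _ => ?_
    have h1 : t x * (s * (ip (W ε) Q (U x) / L ε)) = t x ^ 2 := by
      rw [ht]
      simp only
      rcases le_total (s * (ip (W ε) Q (U x) / L ε)) 0 with h2 | h2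
      · rw [max_eq_right h2]
        ring
      · rw [max_eq_left h2]
        ring
    rw [← h1]
    field_simp
  have k2 : ip (W ε) V V ≤ T * (L ε + C * S.card) := by
    rw [hV, ip_sum_sum (hW ε) S t g2]
    have h1 : ∑ x ∈ S, ∑ y ∈ S, t x * t y * ip (W ε) (U x) (U y) ≤
        ∑ x ∈ S, ∑ y ∈ S, ((if x = y then t x ^ 2 * L ε else 0) + t x * t y * C) := by
      refine Finset.sum_le_sum fun x hx => Finset.sum_le_sum fun y hy => ?_
      have h2 := mul_le_mul_of_nonneg_left (g1 x hx y hy) (mul_nonneg (ht0 x) (ht0 y))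
      refine h2.trans (le_of_eq ?_)
      by_cases hxy : x = y
      · subst hxy
        rw [if_pos rfl, if_pos rfl]
        ring
      · rw [if_neg hxy, if_neg hxy]
        ring
    refine h1.trans ?_
    have h3 : ∑ x ∈ S, ∑ y ∈ S, ((if x = y then t x ^ 2 * L ε else 0) + t x * t y * C) =
        T * L ε + (∑ x ∈ S, t x) ^ 2 * C := by
      have h4 : ∀ x ∈ S, ∑ y ∈ S, ((if x = y then t x ^ 2 * L ε else 0) + t x * t y * C) =
          t x ^ 2 * L ε + t x * ((∑ y ∈ S, t y) * C) := by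
        intro x hx
        rw [Finset.sum_add_distrib, Finset.sum_ite_eq, if_pos hx, ← Finset.sum_mul,
          ← Finset.mul_sum]
        ring
      rw [Finset.sum_congr rfl h4, Finset.sum_add_distrib, ← Finset.sum_mul, ← Finset.sum_mul]
      ring
    rw [h3]
    have h5 : (∑ x ∈ S, t x) ^ 2 ≤ S.card * T := by
      have := sq_sum_le_card_mul_sum_sq (s := S) (f := t)
      exact this
    have h6 := mul_le_mul_of_nonneg_right h5 hC0
    nlinarith
  have k3 := ip_cs (hW ε) g3 (L2.sum (hW ε) S t g2)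
  have k4 : (L ε * T) ^ 2 ≤ ((κ₀ + η / 2) * L ε) * (T * (L ε + C * S.card)) := by
    rw [← k1, mul_pow, sq s, hs2, one_mul]
    refine k3.trans ?_
    have h7 := ip_self_nonneg (hW ε) V
    exact mul_le_mul g4 k2 h7 (by positivity)
  rcases eq_or_lt_of_le hT0 with h8 | h8
  · rw [← h8]
    linarith
  · have h9 : L ε * T ≤ (κ₀ + η / 2) * (L ε + C * S.card) := by
      have h10 : (L ε * T) * (L ε * T) ≤ (L ε * T) * ((κ₀ + η / 2) * (L ε + C * S.card)) := by
        nlinarith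
      exact le_of_mul_le_mul_left h10 (mul_pos g5 h8)
    have h11 : L ε * T ≤ L ε * (κ₀ + η) := by
      rw [hD] at g6
      nlinarith
    exact le_of_mul_le_mul_left h11 g5

end

end

end Run7.h186.NU
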