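import Pool.Agent.Run7.h186.BF1
import Pool.Agent.Run7.h186.NU1
import Pool.Agent.Run7.h186.NT15
import Pool.Agent.X288.L2.Base

/-! Bessel's inequality for the modular elliptic curves over the rationals at all heights. -/

set_option autoImplicit false

namespace Run7.h186.BF

open Complex Filter Topology ComplexConjugate NumberField IsDedekindDomain Asymptotics
open UpperHalfPlane CongruenceSubgroup
open scoped MatrixGroups
open Run7.h186.NT (S1 aq Neb Hk tn lm Eigenform Differ fam fam_CFam norm_pI max_perturb)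
open Run7.h186.NU (ip L2 Fam)
open Pool.Agent.W165.RS (ac)
open Pool.Agent.H341R2 (E lam lam_tendsto lam_bounded sysK)
open Pool.Agent.Y722.EP (IsNewformOf IsModular NotIsogenous points finite_dvd)
open Pool.Agent.Y722.RS (rc tt)
open Pool.Agent.W353.TP (HX sysH LL LL_tendsto E_H EH_eq bdd_isLittleO lam0_sub)
open Pool.Agent.W353.NF (SzH vx nm_vx cz abs_cz TT EP_eq)
open Pool.Agent.W353.L1 (zz avR)
open Pool.Agent.X288.L2 (PP QQ TT_newform abs_TT_le Cls gen_mean mH)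
open Pool.Agent.W353.AB (syE)
open Pool.Agent.H921R2.TatePole (nm kerPrime C0)
open Pool.Agent.W401.Cheb
open Pool.Agent.W540.BE (EP)

noncomputable section

/-- a modular elliptic curve over the rationals -/
structure Cv where
  a : ℤ
  b : ℤ
  hab : 4 * a ^ 3 + 27 * b ^ 2 ≠ 0
  N : ℕ
  hN : NeZero N
  f : CuspForm (Gamma0 N : Subgroup (GL (Fin 2) ℝ)) 2
  hf : IsNewformOf f a b

attribute [instance] Cv.hN

theorem Cv.hk (c : Cv) : Hk (toS1 c.f) (1 : DirichletCharacter ℂ c.N) := hk_toS1 c.hf.1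

/-- the newform -/
def Cv.ev (c : Cv) : Eigenform where
  level := c.N
  weight := 2
  chi := 1
  form := toS1 c.f
  level_pos := Nat.pos_of_ne_zero c.hN.out
  weight_pos := two_pos
  nebentypus := c.hk.neb
  one := c.hk.one
  mul := c.hk.mul
  pow := c.hk.pow
  deligne := c.hk.deligne

theorem Cv.a_ev (c : Cv) (n : ℕ) : c.ev.a n = ac c.f n := rfl

theorem differ {c c' : Cv} (h : NotIsogenous c.a c.b c'.a c'.b) : Differ c.ev c'.ev := by
  obtain ⟨p, hp, h1, h2, h3⟩ := h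
  obtain ⟨g1, g2⟩ := c.hf.2 p hp h1
  obtain ⟨g3, g4⟩ := c'.hf.2 p hp h2
  refine Or.inr ⟨p, hp, g1, g3, Or.inl fun h4 => h3 ?_⟩
  rw [c.a_ev, c'.a_ev, g2, g4] at h4
  have h5 := sub_right_inj.1 h4
  exact_mod_cast h5

/-- the functions of the curves on the prime numbers -/
def Uf {ι : Type} (c : ι → Cv) (x : ι × ℝ) (p : Nat.Primes) : ℂ := fam (fun e => (c e).ev) x p

theorem ip_eq (ε : ℝ) (u v : Nat.Primes → ℂ) :
    ip (fun p : Nat.Primes => ((p : ℕ) : ℝ) ^ (-(1 + ε))) u v = E ε fun p => (u p * conj (v p)).re := by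
  unfold ip E
  exact tsum_congr fun p => mul_comm _ _

theorem l2_bdd {ε : ℝ} (hε : 0 < ε) {u : Nat.Primes → ℂ} {B : ℝ} (hu : ∀ p, ‖u p‖ ≤ B) :
    L2 (fun p : Nat.Primes => ((p : ℕ) : ℝ) ^ (-(1 + ε))) u := by
  unfold L2
  refine Summable.of_nonneg_of_le (fun p => by positivity) (fun p => ?_)
    ((Nat.Primes.summable_rpow.2 (by linarith : -(1 + ε) < -1)).mul_right (B ^ 2))
  exact mul_le_mul_of_nonneg_left (pow_le_pow_left₀ (norm_nonneg _) (hu p) 2) (by positivity)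

/-- the family -/
theorem fam_Uf {ι : Type} {c : ι → Cv}
    (h : ∀ e e', e ≠ e' → NotIsogenous (c e).a (c e).b (c e').a (c e').b) :
    Fam (fun ε (p : Nat.Primes) => ((p : ℕ) : ℝ) ^ (-(1 + ε))) lam (Uf c) := by
  have h1 : Run7.h186.ML.CFam (fam fun e => (c e).ev) 2 := fam_CFam fun e e' he => differ (h e e' he)
  refine ⟨fun x => ?_, fun x => ?_, fun x y hxy => ?_⟩
  · filter_upwards [self_mem_nhdsWithin] with ε hε
    exact l2_bdd hε fun p => h1.bd x p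
  · obtain ⟨C, hC⟩ := h1.diag x
    refine ⟨C, hC.mono fun ε h2 => ?_⟩
    rw [ip_eq]
    exact h2
  · obtain ⟨C, hC⟩ := h1.cross x y hxy
    refine ⟨C, hC.mono fun ε h2 => ?_⟩
    rw [ip_eq]
    exact h2

/-- the homomorphism to the prime field -/
def hq (p : Nat.Primes) : 𝓞 ℚ →+* ZMod (p : ℕ) :=
  (Int.castRingHom (ZMod (p : ℕ))).comp (Rat.ringOfIntegersEquiv : 𝓞 ℚ ≃+* ℤ).toRingHom

theorem hq_unique (p : Nat.Primes) (u : 𝓞 ℚ →+* ZMod (p : ℕ)) : u = hq p := by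
  have h1 : u.comp (Rat.ringOfIntegersEquiv : 𝓞 ℚ ≃+* ℤ).symm.toRingHom =
      (hq p).comp (Rat.ringOfIntegersEquiv : 𝓞 ℚ ≃+* ℤ).symm.toRingHom := RingHom.ext_int _ _
  ext x
  have h2 : u (Rat.ringOfIntegersEquiv.symm (Rat.ringOfIntegersEquiv x)) =
      hq p (Rat.ringOfIntegersEquiv.symm (Rat.ringOfIntegersEquiv x)) :=
    RingHom.congr_fun h1 (Rat.ringOfIntegersEquiv x)
  rwa [RingEquiv.symm_apply_apply] at h2

/-- the prime ideal of a prime number -/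
def vq (p : Nat.Primes) : HeightOneSpectrum (𝓞 ℚ) := vx ⟨p, hq p⟩

theorem EH_q {ε : ℝ} (hε : 0 < ε) {φ : HX ℚ → ℝ} {B : ℝ} (hφ : ∀ x, |φ x| ≤ B) :
    (sysH ℚ).E ε φ = E ε fun p => φ ⟨p, hq p⟩ := by
  classical
  rw [EH_eq hε hφ]
  congr 1
  funext p
  have h1 : (Finset.univ : Finset (𝓞 ℚ →+* ZMod (p : ℕ))) = {hq p} := by
    ext u
    simp only [Finset.mem_univ, Finset.mem_singleton, true_iff]
    exact hq_unique p u
  rw [h1, Finset.sum_singleton]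

theorem sum_bdd {ε : ℝ} (hε : 0 < ε) {φ : Nat.Primes → ℝ} {B : ℝ} (hφ : ∀ p, |φ p| ≤ B) :
    Summable fun p : Nat.Primes => φ p * ((p : ℕ) : ℝ) ^ (-(1 + ε)) :=
  Pool.Agent.Y722.EP.summable_E hφ hε

/-- changes at finitely many primes -/
theorem E_fin {φ ψ : Nat.Primes → ℝ} {B : ℝ} (hφ : ∀ p, |φ p| ≤ B) (hψ : ∀ p, |ψ p| ≤ B)
    (h : ∀ᶠ p in cofinite, φ p = ψ p) :
    ∃ C : ℝ, ∀ ε : ℝ, 0 < ε → |E ε φ - E ε ψ| ≤ C := by
  classical
  rw [eventually_cofinite] at h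
  refine ⟨∑ p ∈ h.toFinset, (B + B), fun ε hε => ?_⟩
  unfold E
  rw [← (sum_bdd hε hφ).tsum_sub (sum_bdd hε hψ), tsum_eq_sum (s := h.toFinset) (fun p hp => by
    rw [Set.Finite.mem_toFinset, Set.mem_ofPred_eq, not_not] at hp
    rw [hp, sub_self])]
  refine (Finset.abs_sum_le_sum_abs _ _).trans (Finset.sum_le_sum fun p _ => ?_)
  rw [← sub_mul, abs_mul]
  have hw0 : 0 ≤ ((p : ℕ) : ℝ) ^ (-(1 + ε)) := by positivity
  have hw1 : ((p : ℕ) : ℝ) ^ (-(1 + ε)) ≤ 1 :=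
    Real.rpow_le_one_of_one_le_of_nonpos (by exact_mod_cast p.2.one_le) (by linarith)
  have hB : 0 ≤ B := (abs_nonneg _).trans (hφ p)
  calc |φ p - ψ p| * |((p : ℕ) : ℝ) ^ (-(1 + ε))| ≤ (B + B) * 1 := by
        refine mul_le_mul ((abs_sub _ _).trans (add_le_add (hφ p) (hψ p))) ?_ (abs_nonneg _)
          (by positivity)
        rw [abs_of_nonneg hw0]
        exact hw1
    _ = B + B := mul_one _

theorem abs_E_le {ε : ℝ} (hε : 0 < ε) {φ : Nat.Primes → ℝ} {B : ℝ} (hφ : ∀ p, |φ p| ≤ B) :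
    |E ε φ| ≤ B * lam ε := by
  rw [abs_le]
  constructor
  · have h1 := Pool.Agent.H341R2.E_le hε (φ := fun p => -φ p) (B := B) (fun p => by
      rw [abs_neg]; exact hφ p) (b := B) (fun p => by
      have := (abs_le.1 (hφ p)).1
      linarith)
    have e : E ε (fun p => -φ p) = -E ε φ := by
      unfold E
      rw [← tsum_neg]
      exact tsum_congr fun p => by ring
    rw [e] at h1
    linarith
  · exact Pool.Agent.H341R2.E_le hε hφ fun p => (le_abs_self _).trans (hφ p)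

/-- the coefficients are real -/
theorem tn_real (c : Cv) (p : ℕ) : tn (M := c.N) (k := 2) (toS1 c.f) p =
    (((tn (M := c.N) (k := 2) (toS1 c.f) p).re : ℝ) : ℂ) := by
  apply Complex.ext
  · simp
  · rw [Complex.ofReal_im]
    unfold tn lm
    split_ifs with h
    · rfl
    · rw [Complex.im_mul_ofReal, aq_toS1, c.hf.1.real, zero_mul]

theorem TT_eq (c : Cv) (p : Nat.Primes)
    (hp : ¬ (((p : ℕ) : ℤ)) ∣ 6 * (4 * c.a ^ 3 + 27 * c.b ^ 2)) :
    TT (syE (PP ℚ c.a) (QQ ℚ c.b)) ⟨p, hq p⟩ = (tn (M := c.N) (k := 2) (toS1 c.f) p).re := by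
  have hp2 : ¬ ((p : ℕ) : ℤ) ∣ 2 * (4 * c.a ^ 3 + 27 * c.b ^ 2) :=
    fun h => hp (h.trans ⟨3, by ring⟩)
  have hN := (c.hf.2 p p.2 hp2).1
  rw [TT_newform c.hf (⟨p, hq p⟩ : HX ℚ) hp]
  unfold tn lm tt rc
  rw [if_neg hN, Complex.re_mul_ofReal, aq_toS1]
  have e1 : -((((2 : ℕ) : ℝ) - 1) / 2) = -(1 / 2 : ℝ) := by norm_num
  rw [e1, Real.rpow_neg (by positivity), ← Real.sqrt_eq_rpow]
  rfl

theorem ev_good (c : Cv) : ∀ᶠ p : Nat.Primes in cofinite,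
    ¬ (((p : ℕ) : ℤ)) ∣ 6 * (4 * c.a ^ 3 + 27 * c.b ^ 2) := by
  rw [eventually_cofinite]
  refine (finite_dvd (mul_ne_zero (by norm_num : (6 : ℤ) ≠ 0) c.hab)).subset fun p hp => ?_
  rw [Set.mem_ofPred_eq, not_not] at hp
  exact hp

theorem Uf_re {ι : Type} (c : ι → Cv) (x : ι × ℝ) (q : ℝ) (p : Nat.Primes) :
    ((q : ℂ) * conj (Uf c x p)).re =
      (tn (M := (c x.1).N) (k := 2) (toS1 (c x.1).f) p).re *
        (q * (((p : ℕ) : ℂ) ^ (-((x.2 : ℂ) * Complex.I))).re) := by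
  have e1 : Uf c x p = tn (M := (c x.1).N) (k := 2) (toS1 (c x.1).f) p *
      ((p : ℕ) : ℂ) ^ (-((x.2 : ℂ) * Complex.I)) := rfl
  rw [e1, Complex.re_ofReal_mul, Complex.conj_re, tn_real, Complex.re_ofReal_mul,
    Complex.ofReal_re]
  ring

theorem cz_vq (τ : ℝ) (p : Nat.Primes) : cz τ (vq p) =
    (((p : ℕ) : ℂ) ^ (-((τ : ℂ) * Complex.I))).re := by
  unfold cz zz vq
  rw [nm_vx]

section
variable {ι : Type} {c : ι → Cv} {φ : HeightOneSpectrum (𝓞 ℚ) → ℝ} {M : ℝ}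

/-- **The sizes and the inner products.** -/
theorem link (hM : 0 ≤ M) (hφ : ∀ v, |φ v| ≤ M) (x : ι × ℝ) {X : ℝ → ℝ}
    (hX : SzH (TT (syE (PP ℚ (c x.1).a) (QQ ℚ (c x.1).b))) (fun v => φ v * cz x.2 v) X) :
    Tendsto (fun ε : ℝ => X ε - ip (fun p : Nat.Primes => ((p : ℕ) : ℝ) ^ (-(1 + ε)))
      (fun p => ((φ (vq p) : ℝ) : ℂ)) (Uf c x) / lam ε) (𝓝[>] 0) (𝓝 0) := by
  set e := x.1 with he
  set τ := x.2 with hτ
  set T := TT (syE (PP ℚ (c e).a) (QQ ℚ (c e).b)) with hT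
  have hT2 : ∀ y, |T y| ≤ 2 := abs_TT_le _ _
  set F1 : Nat.Primes → ℝ := fun p => T ⟨p, hq p⟩ * (φ (vq p) * cz τ (vq p)) with hF1
  set F2 : Nat.Primes → ℝ := fun p => ((((φ (vq p) : ℝ) : ℂ)) * conj (Uf c x p)).re with hF2
  have hb1 : ∀ y : HX ℚ, |T y * (φ (vx y) * cz τ (vx y))| ≤ 2 * M := by
    intro y
    rw [abs_mul, abs_mul]
    refine mul_le_mul (hT2 y) ?_ (by positivity) (by norm_num)
    calc _ ≤ M * 1 := mul_le_mul (hφ _) (abs_cz _ _) (abs_nonneg _) hM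
      _ = M := mul_one _
  have hF1b : ∀ p, |F1 p| ≤ 2 * M := fun p => hb1 ⟨p, hq p⟩
  have hF2b : ∀ p, |F2 p| ≤ 2 * M := by
    intro p
    rw [hF2]
    refine (Complex.abs_re_le_norm _).trans ?_
    rw [norm_mul, Complex.norm_real, Complex.norm_conj, mul_comm]
    refine mul_le_mul ?_ (hφ _) (norm_nonneg _) (by norm_num)
    have e1 : Uf c x p = tn (M := (c x.1).N) (k := 2) (toS1 (c x.1).f) p *
      ((p : ℕ) : ℂ) ^ (-((x.2 : ℂ) * Complex.I)) := rfl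
    rw [e1, norm_mul, norm_pI, mul_one]
    exact (c x.1).hk.tn_le p.2
  obtain ⟨C, hC⟩ := E_fin hF1b hF2b ((ev_good (c e)).mono fun p hp => by
    rw [hF1, hF2]
    simp only
    rw [Uf_re, cz_vq, hT, TT_eq _ _ hp])
  -- the size
  have h1 : (fun ε => X ε * LL ε - E ε F2) =o[𝓝[>] 0] LL := by
    have h2 : (fun ε => E ε F1 - E ε F2) =o[𝓝[>] 0] LL := by
      refine bdd_isLittleO ⟨C, ?_⟩
      filter_upwards [self_mem_nhdsWithin] with ε hε
      exact hC ε hε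
    unfold SzH at hX
    refine (hX.add h2).congr' ?_ (EventuallyEq.refl _ _)
    filter_upwards [self_mem_nhdsWithin] with ε hε
    have hε' : (0 : ℝ) < ε := hε
    have e2 : (sysH ℚ).E ε (fun x : HX ℚ => T x * (φ (vx x) * cz τ (vx x))) = E ε F1 :=
      EH_q hε' hb1
    change (X ε * LL ε - (sysH ℚ).E ε (fun x : HX ℚ => T x * (φ (vx x) * cz τ (vx x)))) +
      (E ε F1 - E ε F2) = X ε * LL ε - E ε F2
    rw [e2]
    ring
  have h3 : Tendsto (fun ε => (X ε * LL ε - E ε F2) / LL ε) (𝓝[>] 0) (𝓝 0) :=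
    h1.tendsto_div_nhds_zero
  have h4 : Tendsto (fun ε => (lam ε - LL ε) / LL ε) (𝓝[>] 0) (𝓝 0) :=
    lam0_sub.tendsto_div_nhds_zero
  have h5 : Tendsto (fun ε => E ε F2 / lam ε * ((lam ε - LL ε) / LL ε)) (𝓝[>] 0) (𝓝 0) := by
    refine bdd_le_mul_tendsto_zero (b := -(2 * M)) (B := 2 * M) ?_ ?_ h4
    · filter_upwards [self_mem_nhdsWithin, lam_tendsto.eventually_gt_atTop 0] with ε hε hl
      rw [le_div_iff₀ hl]
      have := (abs_le.1 (abs_E_le hε hF2b)).1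
      linarith
    · filter_upwards [self_mem_nhdsWithin, lam_tendsto.eventually_gt_atTop 0] with ε hε hl
      rw [div_le_iff₀ hl]
      exact (abs_le.1 (abs_E_le hε hF2b)).2
  have h6 := h3.add h5
  rw [add_zero] at h6
  refine h6.congr' ?_
  filter_upwards [LL_tendsto.eventually_gt_atTop 0, lam_tendsto.eventually_gt_atTop 0]
    with ε g1 g2
  rw [ip_eq]
  have g1' := g1.ne'
  have g2' := g2.ne'
  change (X ε * LL ε - E ε F2) / LL ε + E ε F2 / lam ε * ((lam ε - LL ε) / LL ε) =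
    X ε - E ε F2 / lam ε
  field_simp
  ring

end

section
variable {ι : Type} {c : ι → Cv} {U : Subgroup (GK ℚ)} [U.Normal] [Finite (GK ℚ ⧸ U)]
  {ψ : GK ℚ → ℝ} {σ : HeightOneSpectrum (𝓞 ℚ) → GK ℚ}

/-- the mean of the square -/
theorem mean_sq (hU : IsOpen (U : Set (GK ℚ))) (hσ : ∀ v, IsFrob v (σ v)) (hψ : Cls U ψ) {η : ℝ}
    (hη : 0 < η) : ∀ᶠ ε : ℝ in 𝓝[>] 0,
      ip (fun p : Nat.Primes => ((p : ℕ) : ℝ) ^ (-(1 + ε))) (fun p => ((ψ (σ (vq p)) : ℝ) : ℂ))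
        (fun p => ((ψ (σ (vq p)) : ℝ) : ℂ)) ≤ (avR U (fun q => ψ q.out ^ 2) + η) * lam ε := by
  have h1 := gen_mean hU σ hσ hψ 0 (H := fun y => y ^ 2) (by fun_prop)
  have e1 : mH U 0 (fun y => y ^ 2) ψ = avR U fun q => ψ q.out ^ 2 := by
    unfold mH
    simp only [if_true]
  rw [e1] at h1
  obtain ⟨M, hM0, hM⟩ := hψ.bdd
  have hb : ∀ v, |(ψ (σ v)) ^ 2| ≤ M ^ 2 := by
    intro v
    rw [abs_pow]
    exact pow_le_pow_left₀ (abs_nonneg _) (hM _) 2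
  have h2 := h1.eventually_lt_const (lt_add_of_pos_right _ (half_pos hη))
  filter_upwards [h2, self_mem_nhdsWithin, lam_tendsto.eventually_gt_atTop 0,
    lam_tendsto.eventually_ge_atTop (2 / η * (M ^ 2 * Module.finrank ℚ ℚ * C0))]
    with ε g1 g2 g3 g4
  have hε : (0 : ℝ) < ε := g2
  rw [div_lt_iff₀ g3] at g1
  obtain ⟨A, hA⟩ : ∃ A : ℝ, A = EP (Pool.Agent.W540.BE.nm ℚ) ε fun v => ψ (σ v) ^ 2 := ⟨_, rfl⟩
  obtain ⟨A', hA'⟩ : ∃ A' : ℝ, A' = E ε fun p => ψ (σ (vq p)) ^ 2 := ⟨_, rfl⟩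
  have e2 : (EP (Pool.Agent.W540.BE.nm ℚ) ε fun v => (ψ (σ v) * cz 0 v) ^ 2) = A := by
    rw [hA]
    congr 1
    funext v
    have e3 : cz 0 v = 1 := by
      unfold cz zz
      simp
    rw [e3, mul_one]
  have g5 : |A - A'| ≤ M ^ 2 * Module.finrank ℚ ℚ * C0 := by
    have g5 := E_H (K := ℚ) hb hε
    have e4 : (sysH ℚ).E ε (fun x : HX ℚ => ψ (σ (kerPrime x.1 x.2).1.1) ^ 2) = A' := by
      rw [hA']
      exact EH_q hε fun x => hb _
    rw [e4] at g5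
    rw [hA]
    exact g5
  have e5 : ip (fun p : Nat.Primes => ((p : ℕ) : ℝ) ^ (-(1 + ε)))
      (fun p => ((ψ (σ (vq p)) : ℝ) : ℂ)) (fun p => ((ψ (σ (vq p)) : ℝ) : ℂ)) = A' := by
    rw [ip_eq, hA']
    congr 1
    funext p
    rw [Complex.conj_ofReal, ← Complex.ofReal_mul, Complex.ofReal_re, sq]
  rw [e5]
  have g6 := (abs_le.1 g5).1
  have e6 : A < (avR U (fun q => ψ q.out ^ 2) + η / 2) * lam ε := by
    rw [← e2]
    exact g1
  have g7 : M ^ 2 * Module.finrank ℚ ℚ * C0 ≤ η / 2 * lam ε := by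
    have := mul_le_mul_of_nonneg_left g4 (half_pos hη).le
    have e7 : η / 2 * (2 / η * (M ^ 2 * Module.finrank ℚ ℚ * C0)) =
        M ^ 2 * Module.finrank ℚ ℚ * C0 := by
      field_simp
    rwa [e7] at this
  have g8 : (avR U (fun q => ψ q.out ^ 2) + η) * lam ε =
      (avR U (fun q => ψ q.out ^ 2) + η / 2) * lam ε + η / 2 * lam ε := by ring
  rw [g8]
  linarith

/-- **Bessel's inequality** -/
theorem bes (h : ∀ e e', e ≠ e' → NotIsogenous (c e).a (c e).b (c e').a (c e').b)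
    (hU : IsOpen (U : Set (GK ℚ))) (hσ : ∀ v, IsFrob v (σ v)) (hψ : Cls U ψ)
    (S : Finset (ι × ℝ)) {X : ι × ℝ → ℝ → ℝ}
    (hX : ∀ x ∈ S, SzH (TT (syE (PP ℚ (c x.1).a) (QQ ℚ (c x.1).b)))
      (fun v => ψ (σ v) * cz x.2 v) (X x)) {η : ℝ} (hη : 0 < η) :
    ∀ᶠ ε : ℝ in 𝓝[>] 0, ∑ x ∈ S, (max (X x ε) 0) ^ 2 ≤ avR U (fun q => ψ q.out ^ 2) + η ∧
      ∑ x ∈ S, (max (-X x ε) 0) ^ 2 ≤ avR U (fun q => ψ q.out ^ 2) + η := by
  have hfam := fam_Uf h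
  obtain ⟨M, hM0, hM⟩ := hψ.bdd
  have hK : 0 ≤ avR U (fun q => ψ q.out ^ 2) :=
    Pool.Agent.W353.L1.avR_nonneg U fun q => sq_nonneg _
  have hQ : ∀ᶠ ε : ℝ in 𝓝[>] 0, L2 (fun p : Nat.Primes => ((p : ℕ) : ℝ) ^ (-(1 + ε)))
      (fun p => ((ψ (σ (vq p)) : ℝ) : ℂ)) := by
    filter_upwards [self_mem_nhdsWithin] with ε hε
    refine l2_bdd hε (B := M) fun p => ?_
    rw [Complex.norm_real]
    exact hM _
  have hl : ∀ x ∈ S, Tendsto (fun ε : ℝ => X x ε -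
      ip (fun p : Nat.Primes => ((p : ℕ) : ℝ) ^ (-(1 + ε)))
      (fun p => ((ψ (σ (vq p)) : ℝ) : ℂ)) (Uf c x) / lam ε) (𝓝[>] 0) (𝓝 0) := fun x hx =>
    link (φ := fun v => ψ (σ v)) hM0.le (fun v => hM _) x (hX x hx)
  have hb := fun (s : ℝ) (hs : s = 1 ∨ s = -1) (η' : ℝ) (hη' : 0 < η') =>
    hfam.bes (fun ε p => by positivity) lam_tendsto hQ hK
      (fun η hη => mean_sq hU hσ hψ hη) S hη' hs
  refine (max_perturb S _ X _ hK (fun η' hη' => hb 1 (Or.inl rfl) η' hη') (fun x hx => ?_) hη).and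
    (max_perturb S _ (fun x ε => -X x ε) _ hK (fun η' hη' => hb (-1) (Or.inr rfl) η' hη')
      (fun x hx => ?_) hη)
  · simpa only [one_mul] using hl x hx
  · have := (hl x hx).neg
    rw [neg_zero] at this
    refine this.congr fun ε => ?_
    ring

end

end

end Run7.h186.BF
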