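import Pool.Agent.Run7.h186.BF2

/-! The strict form of Bessel's inequality, from the bound of Hasse. -/

set_option autoImplicit false

namespace Run7.h186.NU

open Finset Filter Topology Complex ComplexConjugate

section
variable {A : Type*} {W : A → ℝ} {u v : A → ℂ}

theorem ip_sub (hW : ∀ a, 0 ≤ W a) (hu : L2 W u) (hv : L2 W v) (s : ℝ) :
    ∑' a, W a * ‖u a - (s : ℂ) * v a‖ ^ 2 =
      ip W u u - 2 * s * ip W u v + s ^ 2 * ip W v v := by
  have h1 := L2.summable hW hu hu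
  have h2 := L2.summable hW hu hv
  have h3 := L2.summable hW hv hv
  unfold ip
  rw [← tsum_mul_left (a := 2 * s), ← tsum_mul_left (a := s ^ 2), ← h1.tsum_sub (h2.mul_left _),
    ← (h1.sub (h2.mul_left _)).tsum_add (h3.mul_left _)]
  refine tsum_congr fun a => ?_
  have e1 : ‖u a - (s : ℂ) * v a‖ ^ 2 = (u a * conj (u a)).re - 2 * s * (u a * conj (v a)).re +
      s ^ 2 * (v a * conj (v a)).re := by
    rw [← Complex.normSq_eq_norm_sq]
    simp only [Complex.normSq_apply, Complex.mul_re, Complex.mul_im, Complex.ofReal_re,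
      Complex.ofReal_im, Complex.conj_re, Complex.conj_im, Complex.sub_re, Complex.sub_im]
    ring
  rw [e1]
  ring

end

section
variable {A κ : Type*} {W : ℝ → A → ℝ} {L : ℝ → ℝ} {U : κ → A → ℂ} {Q : A → ℂ}

/-- **The linear form of Bessel's inequality.** -/
theorem Fam.lin (h : Fam W L U) (hW : ∀ ε a, 0 ≤ W ε a)
    (hQ : ∀ᶠ ε : ℝ in 𝓝[>] 0, L2 (W ε) Q) (S : Finset κ) {t : κ → ℝ} (ht : ∀ x, 0 ≤ t x) {s : ℝ}
    (hs : s = 1 ∨ s = -1) : ∃ C : ℝ, ∀ᶠ ε : ℝ in 𝓝[>] 0,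
      (Summable fun a => W ε a * ‖Q a - (s : ℂ) * ∑ x ∈ S, (t x : ℂ) * U x a‖ ^ 2) ∧
      ∑' a, W ε a * ‖Q a - (s : ℂ) * ∑ x ∈ S, (t x : ℂ) * U x a‖ ^ 2 ≤
        ip (W ε) Q Q - 2 * ∑ x ∈ S, t x * (s * ip (W ε) Q (U x)) + (∑ x ∈ S, t x ^ 2) * L ε + C := by
  classical
  have h1 : ∀ x y, ∃ C : ℝ, ∀ᶠ ε : ℝ in 𝓝[>] 0,
      ip (W ε) (U x) (U y) ≤ (if x = y then L ε else 0) + C := by
    intro x y
    by_cases hxy : x = y
    · subst hxy
      obtain ⟨C, hC⟩ := h.diag x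
      exact ⟨C, hC.mono fun ε h2 => by rw [if_pos rfl]; exact h2⟩
    · obtain ⟨C, hC⟩ := h.cross x y hxy
      exact ⟨C, hC.mono fun ε h2 => by rw [if_neg hxy, zero_add]; exact h2⟩
  choose C hC using h1
  have hC' : ∀ᶠ ε : ℝ in 𝓝[>] 0, ∀ x ∈ S, ∀ y ∈ S,
      ip (W ε) (U x) (U y) ≤ (if x = y then L ε else 0) + C x y := by
    rw [Filter.eventually_all_finset]
    intro x _
    rw [Filter.eventually_all_finset]
    exact fun y _ => hC x y
  have hl2 : ∀ᶠ ε : ℝ in 𝓝[>] 0, ∀ x ∈ S, L2 (W ε) (U x) := by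
    rw [Filter.eventually_all_finset]
    exact fun x _ => h.l2 x
  have hs2 : s ^ 2 = 1 := by rcases hs with rfl | rfl <;> norm_num
  refine ⟨∑ x ∈ S, ∑ y ∈ S, t x * t y * C x y, ?_⟩
  filter_upwards [hC', hl2, hQ] with ε g1 g2 g3
  have hV := L2.sum (hW ε) S t g2
  have hsV : L2 (W ε) fun a => Q a - (s : ℂ) * ∑ x ∈ S, (t x : ℂ) * U x a := by
    have h4 := (g3.mul_left 2).add (hV.mul_left (2 * s ^ 2))
    unfold L2
    refine Summable.of_nonneg_of_le (fun a => mul_nonneg (hW ε a) (sq_nonneg _)) (fun a => ?_) h4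
    have h5 := norm_sub_le (Q a) ((s : ℂ) * ∑ x ∈ S, (t x : ℂ) * U x a)
    have h6 := pow_le_pow_left₀ (norm_nonneg _) h5 2
    rw [norm_mul, Complex.norm_real, Real.norm_eq_abs] at h6
    have h7 : (‖Q a‖ + |s| * ‖∑ x ∈ S, (t x : ℂ) * U x a‖) ^ 2 ≤
        2 * ‖Q a‖ ^ 2 + 2 * s ^ 2 * ‖∑ x ∈ S, (t x : ℂ) * U x a‖ ^ 2 := by
      have h8 : (|s| * ‖∑ x ∈ S, (t x : ℂ) * U x a‖) ^ 2 =
          s ^ 2 * ‖∑ x ∈ S, (t x : ℂ) * U x a‖ ^ 2 := by rw [mul_pow, sq_abs]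
      rw [mul_assoc 2, ← h8]
      nlinarith [sq_nonneg (‖Q a‖ - |s| * ‖∑ x ∈ S, (t x : ℂ) * U x a‖)]
    have h9 := mul_le_mul_of_nonneg_left (h6.trans h7) (hW ε a)
    linarith
  refine ⟨hsV, ?_⟩
  rw [ip_sub (hW ε) g3 hV s, ip_sum_right (hW ε) S t g3 g2, ip_sum_sum (hW ε) S t g2, hs2, one_mul]
  have h2 : ∑ x ∈ S, ∑ y ∈ S, t x * t y * ip (W ε) (U x) (U y) ≤
      (∑ x ∈ S, t x ^ 2) * L ε + ∑ x ∈ S, ∑ y ∈ S, t x * t y * C x y := by
    rw [Finset.sum_mul, ← Finset.sum_add_distrib]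
    refine Finset.sum_le_sum fun x hx => ?_
    have e1 : t x ^ 2 * L ε = ∑ y ∈ S, if x = y then t x ^ 2 * L ε else 0 := by
      rw [Finset.sum_ite_eq, if_pos hx]
    rw [e1, ← Finset.sum_add_distrib]
    refine Finset.sum_le_sum fun y hy => ?_
    have h3 := mul_le_mul_of_nonneg_left (g1 x hx y hy) (mul_nonneg (ht x) (ht y))
    refine h3.trans (le_of_eq ?_)
    by_cases hxy : x = y
    · subst hxy
      rw [if_pos rfl, if_pos rfl]
      ring
    · rw [if_neg hxy, if_neg hxy]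
      ring
  have h3 : 2 * s * ∑ x ∈ S, t x * ip (W ε) Q (U x) =
      2 * ∑ x ∈ S, t x * (s * ip (W ε) Q (U x)) := by
    rw [Finset.mul_sum, Finset.mul_sum]
    exact Finset.sum_congr rfl fun x _ => by ring
  rw [h3]
  linarith

end

end Run7.h186.NU

namespace Run7.h186.BF

open Complex Filter Topology ComplexConjugate NumberField IsDedekindDomain Asymptotics
open UpperHalfPlane CongruenceSubgroup
open scoped MatrixGroups
open Run7.h186.NT (S1 aq Neb Hk tn lm Eigenform Differ fam fam_CFam norm_pI max_perturb)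
open Run7.h186.NU (ip L2 Fam)
open Pool.Agent.H341R2 (E lam lam_tendsto lam_bounded sysK)
open Pool.Agent.Y722.EP (NotIsogenous)
open Pool.Agent.W353.TP (HX sysH LL LL_tendsto E_H EH_eq bdd_isLittleO lam0_sub)
open Pool.Agent.W353.NF (SzH vx nm_vx cz abs_cz TT EP_eq)
open Pool.Agent.W353.L1 (zz avR)
open Pool.Agent.X288.L2 (PP QQ TT_newform abs_TT_le Cls gen_mean mH avR_lt)
open Pool.Agent.W353.AB (syE)
open Pool.Agent.H921R2.TatePole (kerPrime C0)
open Pool.Agent.W401.Cheb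
open Pool.Agent.W540.BE (EP)

noncomputable section

section
variable {ι : Type} {c : ι → Cv} {U : Subgroup (GK ℚ)} [U.Normal] [Finite (GK ℚ ⧸ U)]
  {ψ : GK ℚ → ℝ} {σ : HeightOneSpectrum (𝓞 ℚ) → GK ℚ}

/-- mean values over the prime numbers -/
theorem mean_H (hU : IsOpen (U : Set (GK ℚ))) (hσ : ∀ v, IsFrob v (σ v)) (hψ : Cls U ψ)
    {H : ℝ → ℝ} (hH : Continuous H) :
    Tendsto (fun ε : ℝ => (E ε fun p => H (ψ (σ (vq p)))) / lam ε) (𝓝[>] 0)
      (𝓝 (avR U fun q => H (ψ q.out))) := by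
  have h1 := gen_mean hU σ hσ hψ 0 hH
  have e1 : mH U 0 H ψ = avR U fun q => H (ψ q.out) := by
    unfold mH
    simp only [if_true]
  rw [e1] at h1
  obtain ⟨M, hM0, hM⟩ := hψ.bdd
  obtain ⟨B, hB⟩ := (isCompact_Icc (a := -M) (b := M)).exists_bound_of_continuousOn
        (f := H) hH.continuousOn
  have hb : ∀ v, |H (ψ (σ v))| ≤ B := fun v => hB _ (abs_le.1 (hM _))
  have h2 : Tendsto (fun ε : ℝ => (B * Module.finrank ℚ ℚ * C0) / lam ε) (𝓝[>] 0) (𝓝 0) :=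
    tendsto_const_nhds.div_atTop lam_tendsto
  have h3 : Tendsto (fun ε : ℝ => (E ε fun p => H (ψ (σ (vq p)))) / lam ε -
      (EP (Pool.Agent.W540.BE.nm ℚ) ε fun v => H (ψ (σ v) * cz 0 v)) / lam ε) (𝓝[>] 0) (𝓝 0) := by
    refine squeeze_zero_norm' ?_ h2
    filter_upwards [self_mem_nhdsWithin, lam_tendsto.eventually_gt_atTop 0] with ε g1 g2
    have hε : (0 : ℝ) < ε := g1
    obtain ⟨A, hA⟩ : ∃ A : ℝ, A = EP (Pool.Agent.W540.BE.nm ℚ) ε fun v => H (ψ (σ v)) := ⟨_, rfl⟩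
    obtain ⟨A', hA'⟩ : ∃ A' : ℝ, A' = E ε fun p => H (ψ (σ (vq p))) := ⟨_, rfl⟩
    have e2 : (EP (Pool.Agent.W540.BE.nm ℚ) ε fun v => H (ψ (σ v) * cz 0 v)) = A := by
      rw [hA]
      congr 1
      funext v
      have e3 : cz 0 v = 1 := by
        unfold cz zz
        simp
      rw [e3, mul_one]
    have g5 : |A - A'| ≤ B * Module.finrank ℚ ℚ * C0 := by
      have g5 := E_H (K := ℚ) hb hε
      have e4 : (sysH ℚ).E ε (fun x : HX ℚ => H (ψ (σ (kerPrime x.1 x.2).1.1))) = A' := by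
        rw [hA']
        exact EH_q hε fun x => hb _
      rw [e4] at g5
      rw [hA]
      exact g5
    rw [e2, ← hA', ← sub_div, Real.norm_eq_abs, abs_div, abs_of_pos g2, abs_sub_comm]
    exact div_le_div_of_nonneg_right g5 g2.le
  have h4 := h3.add h1
  rw [zero_add] at h4
  refine h4.congr fun ε => ?_
  ring

/-- **The strict form.** -/
theorem strict (h : ∀ e e', e ≠ e' → NotIsogenous (c e).a (c e).b (c e').a (c e').b)
    (hU : IsOpen (U : Set (GK ℚ))) (hσ : ∀ v, IsFrob v (σ v)) (hψ : Cls U ψ)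
    (S : Finset (ι × ℝ)) {X : ι × ℝ → ℝ → ℝ}
    (hX : ∀ x ∈ S, SzH (TT (syE (PP ℚ (c x.1).a) (QQ ℚ (c x.1).b)))
      (fun v => ψ (σ v) * cz x.2 v) (X x)) {s : ℝ} (hs : s = 1 ∨ s = -1)
    {t : ι × ℝ → ℝ} (ht : ∀ x, 0 ≤ t x)
    (hlim : ∀ x ∈ S, Tendsto (X x) (𝓝[>] 0) (𝓝 (s * t x))) :
    ∑ x ∈ S, t x ^ 2 + avR U (fun q => (max (|ψ q.out| - 2 * ∑ x ∈ S, t x) 0) ^ 2) ≤
      avR U (fun q => ψ q.out ^ 2) := by
  classical
  have hfam := fam_Uf h
  obtain ⟨M, hM0, hM⟩ := hψ.bdd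
  set Q : Nat.Primes → ℂ := fun p => ((ψ (σ (vq p)) : ℝ) : ℂ) with hQd
  have hQ : ∀ᶠ ε : ℝ in 𝓝[>] 0, L2 (fun p : Nat.Primes => ((p : ℕ) : ℝ) ^ (-(1 + ε))) Q := by
    filter_upwards [self_mem_nhdsWithin] with ε hε
    refine l2_bdd hε (B := M) fun p => ?_
    rw [hQd, Complex.norm_real]
    exact hM _
  obtain ⟨C, hC⟩ := hfam.lin (fun ε p => by positivity) hQ S ht hs
  set T : ℝ := ∑ x ∈ S, t x with hT
  have hT0 : 0 ≤ T := Finset.sum_nonneg fun x _ => ht x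
  have hs2 : s * s = 1 := by rcases hs with rfl | rfl <;> norm_num
  -- the limits
  have hl : ∀ x ∈ S, Tendsto (fun ε : ℝ =>
      ip (fun p : Nat.Primes => ((p : ℕ) : ℝ) ^ (-(1 + ε))) Q (Uf c x) / lam ε) (𝓝[>] 0)
      (𝓝 (s * t x)) := by
    intro x hx
    have h1 := link (c := c) (φ := fun v => ψ (σ v)) hM0.le (fun v => hM _) x (hX x hx)
    have h2 := (hlim x hx).sub h1
    rw [sub_zero] at h2
    refine h2.congr fun ε => ?_
    rw [sub_sub_cancel]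
  have hq : Tendsto (fun ε : ℝ =>
      ip (fun p : Nat.Primes => ((p : ℕ) : ℝ) ^ (-(1 + ε))) Q Q / lam ε) (𝓝[>] 0)
      (𝓝 (avR U fun q => ψ q.out ^ 2)) := by
    refine (mean_H hU hσ hψ (H := fun y => y ^ 2) (by fun_prop)).congr fun ε => ?_
    rw [ip_eq]
    congr 2
    funext p
    rw [hQd]
    simp only
    rw [Complex.conj_ofReal, ← Complex.ofReal_mul, Complex.ofReal_re, sq]
  have hlow := mean_H hU hσ hψ (H := fun y => (max (|y| - 2 * T) 0) ^ 2) (by fun_prop)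
  have hup : Tendsto (fun ε : ℝ =>
      ip (fun p : Nat.Primes => ((p : ℕ) : ℝ) ^ (-(1 + ε))) Q Q / lam ε -
      2 * ∑ x ∈ S, t x * (s * (ip (fun p : Nat.Primes => ((p : ℕ) : ℝ) ^ (-(1 + ε))) Q
        (Uf c x) / lam ε)) + ∑ x ∈ S, t x ^ 2 + C / lam ε) (𝓝[>] 0)
      (𝓝 ((avR U fun q => ψ q.out ^ 2) - 2 * ∑ x ∈ S, t x * (s * (s * t x)) +
        ∑ x ∈ S, t x ^ 2 + 0)) := by
    refine ((hq.sub ((tendsto_finsetSum _ fun x hx => ((hl x hx).const_mul s).const_mul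
      (t x)).const_mul 2)).add_const _).add (tendsto_const_nhds.div_atTop lam_tendsto)
  have hle := le_of_tendsto_of_tendsto hlow hup ?_
  · have e1 : ∑ x ∈ S, t x * (s * (s * t x)) = ∑ x ∈ S, t x ^ 2 := by
      refine Finset.sum_congr rfl fun x _ => ?_
      rw [← mul_assoc s, hs2]
      ring
    rw [e1] at hle
    linarith
  · filter_upwards [hC, self_mem_nhdsWithin, lam_tendsto.eventually_gt_atTop 0] with ε g1 g2 g3
    have hε : (0 : ℝ) < ε := g2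
    obtain ⟨g4, g5⟩ := g1
    have k1 : (E ε fun p => (max (|ψ (σ (vq p))| - 2 * T) 0) ^ 2) ≤
        ∑' p : Nat.Primes, ((p : ℕ) : ℝ) ^ (-(1 + ε)) *
          ‖Q p - (s : ℂ) * ∑ x ∈ S, (t x : ℂ) * Uf c x p‖ ^ 2 := by
      unfold E
      have hbd : ∀ p, |(max (|ψ (σ (vq p))| - 2 * T) 0) ^ 2| ≤ M ^ 2 := by
        intro p
        rw [abs_pow]
        refine pow_le_pow_left₀ (abs_nonneg _) ?_ 2
        rw [abs_of_nonneg (le_max_right _ _)]
        refine max_le ?_ hM0.le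
        have := hM (σ (vq p))
        linarith
      refine Summable.tsum_le_tsum (fun p => ?_) (sum_bdd hε hbd) g4
      rw [mul_comm]
      refine mul_le_mul_of_nonneg_left ?_ (by positivity)
      refine pow_le_pow_left₀ (le_max_right _ _) (max_le ?_ (norm_nonneg _)) 2
      have k2 : ‖Q p‖ = |ψ (σ (vq p))| := by rw [hQd, Complex.norm_real, Real.norm_eq_abs]
      have k3 : ‖(s : ℂ) * ∑ x ∈ S, (t x : ℂ) * Uf c x p‖ ≤ 2 * T := by
        rw [norm_mul]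
        have k4 : ‖(s : ℂ)‖ = 1 := by
          rw [Complex.norm_real, Real.norm_eq_abs]
          rcases hs with rfl | rfl <;> norm_num
        rw [k4, one_mul, hT, Finset.mul_sum]
        refine (norm_sum_le _ _).trans (Finset.sum_le_sum fun x _ => ?_)
        rw [norm_mul, Complex.norm_real, Real.norm_eq_abs, abs_of_nonneg (ht x), mul_comm]
        refine mul_le_mul_of_nonneg_right ?_ (ht x)
        have e1 : Uf c x p = tn (M := (c x.1).N) (k := 2) (toS1 (c x.1).f) p *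
          ((p : ℕ) : ℂ) ^ (-((x.2 : ℂ) * Complex.I)) := rfl
        rw [e1, norm_mul, norm_pI, mul_one]
        exact (c x.1).hk.tn_le p.2
      have k5 := norm_sub_norm_le (Q p) ((s : ℂ) * ∑ x ∈ S, (t x : ℂ) * Uf c x p)
      rw [k2] at k5
      linarith
    have k6 := k1.trans g5
    rw [div_le_iff₀ g3]
    refine k6.trans (le_of_eq ?_)
    have g3' := g3.ne'
    have k7 : (∑ x ∈ S, t x * (s * (ip (fun p : Nat.Primes => ((p : ℕ) : ℝ) ^ (-(1 + ε))) Q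
        (Uf c x) / lam ε))) * lam ε = ∑ x ∈ S, t x * (s * ip (fun p : Nat.Primes =>
          ((p : ℕ) : ℝ) ^ (-(1 + ε))) Q (Uf c x)) := by
      rw [Finset.sum_mul]
      refine Finset.sum_congr rfl fun x _ => ?_
      rw [mul_assoc, mul_assoc, div_mul_cancel₀ _ g3']
    have k8 := div_mul_cancel₀ (ip (fun p : Nat.Primes => ((p : ℕ) : ℝ) ^ (-(1 + ε))) Q Q) g3'
    have k9 := div_mul_cancel₀ C g3'
    linear_combination -k8 + 2 * k7 - k9

end

end

end Run7.h186.BF
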