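import Pool.Agent.X288.L2.Defs

/-!
# All modular elliptic curves over a system of number fields: definitions

The Euler products `L(E/K, s)` (computed from minimal models), `size` (which is
`log |L(3/2 + iτ + ε)| / log(1/ε)`) and `HasOrder` (the order at `3/2 + iτ` of a meromorphic continuation to
a neighbourhood of this point) are defined in `Pool.Agent.TH322.BC.Defs`, `IsModular` and
`NotIsogenous` in `Pool.Agent.Y722.EP.Defs`.
-/

set_option autoImplicit false

namespace Run7.h186.BF

open NumberField IsDedekindDomain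
open Pool.Agent.W353.EF (perm)
open Pool.Agent.X288.L2 (EC)
open Pool.Agent.TH322.BC.Edge (MinimalModels)
open Pool.Agent.Y722.EP (IsModular NotIsogenous)

section
variable (k K K' : Type) [Field k] [Field K] [Field K'] [Algebra k K] [Algebra k K']

/-- Two pairs, each of a `k`-embedding of `K` and a `k`-embedding of `K'` in the algebraic closure of
`k`, are equivalent if an element of the Galois group maps one to the other. -/
def pairRel : Setoid ((K →ₐ[k] AlgebraicClosure k) × (K' →ₐ[k] AlgebraicClosure k)) where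
  r z w := ∃ σ : Gal(AlgebraicClosure k/k), perm k K σ z.1 = w.1 ∧ perm k K' σ z.2 = w.2
  iseqv :=
    { refl := fun z => ⟨1, by rw [map_one, map_one]; exact ⟨rfl, rfl⟩⟩
      symm := fun {z w} ⟨σ, h1, h2⟩ => ⟨σ⁻¹, by
        rw [map_inv, map_inv, ← h1, ← h2]
        exact ⟨(perm k K σ).symm_apply_apply _, (perm k K' σ).symm_apply_apply _⟩⟩
      trans := fun {x y z} ⟨σ, h1, h2⟩ ⟨ρ, h3, h4⟩ => ⟨ρ * σ, by
        rw [map_mul, map_mul, Equiv.Perm.mul_apply, Equiv.Perm.mul_apply, h1, h2, h3, h4]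
        exact ⟨rfl, rfl⟩⟩ }

/-- The number of the orbits of the Galois group of `k` on the pairs of an embedding of `K` and an
embedding of `K'`: the number of the double cosets `H \ G / H'`, and of the factors of `K ⊗ K'`. -/
noncomputable def orbits : ℕ := Nat.card (Quotient (pairRel k K K'))

end

section
variable (k : Type) [Field k] {J : Type} [Fintype J] (K : J → Type) [∀ j, Field (K j)]
  [∀ j, Algebra k (K j)]

/-- The form `∑ d_j d_l (r_jl - 1)`, `r_jl` the number of orbits for `K_j` and `K_l`; it is `r - 1` for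
one field and `d = 1`. -/
noncomputable def form (d : J → ℤ) : ℤ := ∑ j, ∑ l, d j * d l * ((orbits k (K j) (K l) : ℤ) - 1)

/-- The permutations of the embeddings of all the fields given by the Galois group. -/
noncomputable def jointPerm :
    Gal(AlgebraicClosure k/k) →* ∀ j, Equiv.Perm (K j →ₐ[k] AlgebraicClosure k) :=
  MonoidHom.pi fun j => perm k (K j)

/-- The number `∑ d_j (f_j - 1)`, where `f_j` is the number of the fixed embeddings of `K_j`. -/
noncomputable def value (d : J → ℤ) (g : ∀ j, Equiv.Perm (K j →ₐ[k] AlgebraicClosure k)) : ℤ :=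
  ∑ j, d j * ((Nat.card {i : K j →ₐ[k] AlgebraicClosure k // g j i = i} : ℤ) - 1)

/-- The mean value of `max(|∑ d_j (f_j - 1)| - 2T, 0)²` over the (finite) Galois group. -/
noncomputable def excess (d : J → ℤ) (T : ℝ) : ℝ :=
  (Nat.card (jointPerm k K).range : ℝ)⁻¹ *
    ∑ᶠ g : (jointPerm k K).range, (max (|(value k K d g.1 : ℝ)| - 2 * T) 0) ^ 2

end

open Classical in
/-- The number `∑ d_j d_l (r_jl - 1)`, diminished by one if it is less than `|∑ d_j (n_j - 1)| / 2`, where
`n_j` is the degree of `K_j`.  For one field of degree `n` and `d = 1` it is `r - 1`, and `r - 2` if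
`n ≥ 2r`. -/
noncomputable def bound (k : Type) [Field k] {J : Type} [Fintype J] (K : J → Type)
    [∀ j, Field (K j)] [∀ j, Algebra k (K j)] (d : J → ℤ) : ℤ :=
  if 2 * form k K d < |∑ j, d j * ((Module.finrank k (K j) : ℤ) - 1)| then form k K d - 1
  else form k K d

/-- Modular elliptic curves `E_e : y² = x³ + a_e x + b_e` over `ℚ`, pairwise not isogenous, with minimal
models over `ℚ` and over the fields `K_j`. -/
structure Family (ι : Type) {J : Type} (K : J → Type) [∀ j, Field (K j)] [∀ j, NumberField (K j)]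
    [∀ j, Algebra ℚ (K j)] where
  a : ι → ℤ
  b : ι → ℤ
  disc : ∀ e, 4 * a e ^ 3 + 27 * b e ^ 2 ≠ 0
  modular : ∀ e, IsModular (a e) (b e)
  not_isogenous : ∀ e e', e ≠ e' → NotIsogenous (a e) (b e) (a e') (b e')
  V₀ : ι → HeightOneSpectrum (𝓞 ℚ) → WeierstrassCurve (𝓞 ℚ)
  V : ι → ∀ j, HeightOneSpectrum (𝓞 (K j)) → WeierstrassCurve (𝓞 (K j))
  minimal₀ : ∀ e, MinimalModels (EC ℚ (a e) (b e)) (V₀ e)
  minimal : ∀ e j, MinimalModels ((EC ℚ (a e) (b e)).map (algebraMap ℚ (K j))) (V e j)

section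
variable {ι J : Type} [Fintype J] {K : J → Type} [∀ j, Field (K j)] [∀ j, NumberField (K j)]
  [∀ j, Algebra ℚ (K j)] (X : Family ι K)

/-- `log |∏_j (L(E_e/K_j, s) / L(E_e/ℚ, s))^{d_j}| / log(1/ε)` at `s = 3/2 + iτ + ε`, for `x = (e, τ)`. -/
noncomputable def Family.size (d : J → ℤ) (x : ι × ℝ) (ε : ℝ) : ℝ :=
  ∑ j, (d j : ℝ) * (Pool.Agent.TH322.BC.Edge.size (X.V x.1 j) x.2 ε -
    Pool.Agent.TH322.BC.Edge.size (X.V₀ x.1) x.2 ε)

/-- The functions `L(E_e/ℚ, s)` and `L(E_e/K_j, s)` have meromorphic continuations to a neighbourhood of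
`3/2 + iτ`, and the order of `∏_j (L(E_e/K_j, s) / L(E_e/ℚ, s))^{d_j}` at this point is `r`; `x = (e, τ)`. -/
def Family.HasOrder (d : J → ℤ) (x : ι × ℝ) (r : ℤ) : Prop :=
  ∃ (m₀ : ℤ) (m : J → ℤ), Pool.Agent.TH322.BC.Edge.HasOrder (X.V₀ x.1) x.2 m₀ ∧
    (∀ j, Pool.Agent.TH322.BC.Edge.HasOrder (X.V x.1 j) x.2 (m j)) ∧ r = ∑ j, d j * (m j - m₀)

end

end Run7.h186.BF
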