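import Pool.Agent.Run7.h186.BF3
import Pool.Agent.Run7.h186.BFDefs

/-! Mean values of the permutation characters of several fields. -/

set_option autoImplicit false

namespace Run7.h186.BF

open Complex Filter Topology ComplexConjugate NumberField IsDedekindDomain Asymptotics
open Pool.Agent.W353.EF (perm)
open Pool.Agent.W353.NF (act fixn fixn_conj fixn_inv fixn_mul_ker ker_act_open avR_ker)
open Pool.Agent.W353.L1 (avR avR_const_mul)
open Pool.Agent.X288.L2 (Cls mean_fix burnside_orbits avR_lt fixn_one)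
open Pool.Agent.TH322.BC (avR_mono avR_add avR_one avR_sum)
open Pool.Agent.W401.Cheb

noncomputable section

section
set_option linter.unusedSectionVars false
variable {k : Type} [Field k] [NumberField k] {J : Type} [Fintype J] {K : J → Type}
  [∀ j, Field (K j)] [∀ j, NumberField (K j)] [∀ j, Algebra k (K j)]

theorem mem_ker {u : GK k} (hu : u ∈ (jointPerm k K).ker) (j : J) : act k (K j) u = 1 :=
  congrFun hu j

theorem jker_open : IsOpen ((jointPerm k K).ker : Set (GK k)) := by
  have h1 : ((jointPerm k K).ker : Set (GK k)) = ⋂ j, ((act k (K j)).ker : Set (GK k)) := by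
    ext u
    rw [Set.mem_iInter]
    constructor
    · intro hu j
      exact mem_ker hu j
    · intro hu
      exact funext fun j => hu j
  rw [h1]
  exact isOpen_iInter_of_finite fun j => ker_act_open k (K j)

instance jquot : Finite (GK k ⧸ (jointPerm k K).ker) :=
  Subgroup.quotient_finite_of_isOpen _ jker_open

theorem cls_fix (j : J) : Cls (jointPerm k K).ker (fun g => (fixn k (K j) g : ℝ) - 1) :=
  ⟨fun g u hu => by
    have : fixn k (K j) (g * u) = fixn k (K j) g := fixn_mul_ker k (K j) g u (mem_ker hu j)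
    rw [this], fun g ρ => by rw [fixn_conj], fun g => by rw [fixn_inv]⟩

theorem value_eq (d : J → ℤ) (g : GK k) : ((value k K d (jointPerm k K g) : ℤ) : ℝ) =
    ∑ j, (d j : ℝ) * ((fixn k (K j) g : ℝ) - 1) := by
  unfold value
  push_cast
  rfl

theorem cls_value (d : J → ℤ) : Cls (jointPerm k K).ker
    (fun g => ((value k K d (jointPerm k K g) : ℤ) : ℝ)) := by
  have h : (fun g => ((value k K d (jointPerm k K g) : ℤ) : ℝ)) =
      fun g => ∑ j, (d j : ℝ) * ((fixn k (K j) g : ℝ) - 1) := funext fun g => value_eq d g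
  rw [h]
  exact Cls.sum Finset.univ fun j _ => (cls_fix j).const_mul _

theorem mean_fixj (j : J) : avR (jointPerm k K).ker (fun q => (fixn k (K j) q.out : ℝ)) = 1 := by
  have hfin : Finite (GK k ⧸ (act k (K j)).ker) :=
    Subgroup.quotient_finite_of_isOpen _ (ker_act_open k (K j))
  have h := avR_mono (U := (jointPerm k K).ker) (V := (act k (K j)).ker) (fun u hu => mem_ker hu j)
    (f := fun g => (fixn k (K j) g : ℝ)) (fun g u hu => by
      have : fixn k (K j) (g * u) = fixn k (K j) g := fixn_mul_ker k (K j) g u hu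
      rw [this])
  exact h.trans mean_fix

theorem prod_card {Y Z : Type*} [Finite Y] [Finite Z] (π : Equiv.Perm Y) (ρ : Equiv.Perm Z) :
    Nat.card {z // Equiv.prodCongr π ρ z = z} =
      Nat.card {y // π y = y} * Nat.card {y // ρ y = y} := by
  rw [← Nat.card_prod]
  refine Nat.card_congr
    { toFun := fun z => (⟨z.1.1, congrArg Prod.fst z.2⟩, ⟨z.1.2, congrArg Prod.snd z.2⟩)
      invFun := fun p => ⟨(p.1.1, p.2.1), Prod.ext p.1.2 p.2.2⟩
      left_inv := fun z => rfl
      right_inv := fun p => rfl }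

/-- the action on the pairs -/
def pairHom (j l : J) : (jointPerm k K).range →*
    Equiv.Perm ((K j →ₐ[k] AlgebraicClosure k) × (K l →ₐ[k] AlgebraicClosure k)) where
  toFun g := Equiv.prodCongr (g.1 j) (g.1 l)
  map_one' := rfl
  map_mul' _ _ := rfl

theorem mean_pair (j l : J) : avR (jointPerm k K).ker (fun q =>
    (fixn k (K j) q.out : ℝ) * (fixn k (K l) q.out : ℝ)) = orbits k (K j) (K l) := by
  have g1 := avR_ker (jointPerm k K) (fun π : ∀ j, Equiv.Perm (K j →ₐ[k] AlgebraicClosure k) =>
    ((Nat.card {z // Equiv.prodCongr (π j) (π l) z = z} : ℕ) : ℝ))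
  have g0 : (fun q : GK k ⧸ (jointPerm k K).ker => (fixn k (K j) q.out : ℝ) *
      (fixn k (K l) q.out : ℝ)) = fun q => ((Nat.card {z // Equiv.prodCongr
        (jointPerm k K q.out j) (jointPerm k K q.out l) z = z} : ℕ) : ℝ) := by
    funext q
    rw [prod_card, Nat.cast_mul]
    rfl
  rw [g0, g1]
  have g3 := burnside_orbits (G := (jointPerm k K).range) (pairHom (k := k) (K := K) j l)
    (pairRel k (K j) (K l)) (fun z w => by
      constructor
      · rintro ⟨σ, h1, h2⟩
        exact ⟨⟨jointPerm k K σ, ⟨σ, rfl⟩⟩, Prod.ext h1 h2⟩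
      · rintro ⟨⟨_, ⟨σ, rfl⟩⟩, h⟩
        exact ⟨σ, congrArg Prod.fst h, congrArg Prod.snd h⟩)
  have g4 : ∑ᶠ (h : (jointPerm k K).range), ((Nat.card {z // Equiv.prodCongr (h.1 j) (h.1 l) z = z}
      : ℕ) : ℝ) = orbits k (K j) (K l) * Nat.card (jointPerm k K).range := g3
  rw [g4]
  have : (Nat.card (jointPerm k K).range : ℝ) ≠ 0 := by exact_mod_cast Nat.card_pos.ne'
  field_simp

/-- the mean of the square -/
theorem mean_value_sq (d : J → ℤ) : avR (jointPerm k K).ker (fun q =>
    ((value k K d (jointPerm k K q.out) : ℤ) : ℝ) ^ 2) = ((form k K d : ℤ) : ℝ) := by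
  have e : (fun q : GK k ⧸ (jointPerm k K).ker =>
      ((value k K d (jointPerm k K q.out) : ℤ) : ℝ) ^ 2) = fun q => ∑ j, ∑ l,
        (((d j : ℝ) * (d l : ℝ)) * (((fixn k (K j) q.out : ℝ) * (fixn k (K l) q.out : ℝ)) +
          (((-1) * (fixn k (K j) q.out : ℝ) + (-1) * (fixn k (K l) q.out : ℝ)) + 1))) := by
    funext q
    rw [value_eq, sq, Finset.sum_mul_sum]
    refine Finset.sum_congr rfl fun j _ => Finset.sum_congr rfl fun l _ => ?_
    ring
  rw [e, avR_sum]
  unfold form
  push_cast
  refine Finset.sum_congr rfl fun j _ => ?_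
  rw [avR_sum]
  refine Finset.sum_congr rfl fun l _ => ?_
  rw [avR_const_mul, avR_add, avR_add, avR_add, avR_const_mul, avR_const_mul, avR_one, mean_pair,
    mean_fixj, mean_fixj]
  ring

theorem excess_eq (d : J → ℤ) (T : ℝ) : avR (jointPerm k K).ker (fun q =>
    (max (|((value k K d (jointPerm k K q.out) : ℤ) : ℝ)| - 2 * T) 0) ^ 2) = excess k K d T :=
  avR_ker (jointPerm k K) (fun π => (max (|((value k K d π : ℤ) : ℝ)| - 2 * T) 0) ^ 2)

theorem excess_nonneg (d : J → ℤ) (T : ℝ) : 0 ≤ excess k K d T := by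
  rw [← excess_eq]
  exact Pool.Agent.W353.L1.avR_nonneg _ fun q => sq_nonneg _

theorem value_one (d : J → ℤ) : value k K d (jointPerm k K 1) =
    ∑ j, d j * ((Module.finrank k (K j) : ℤ) - 1) := by
  unfold value
  refine Finset.sum_congr rfl fun j _ => ?_
  have : Nat.card {i : K j →ₐ[k] AlgebraicClosure k // jointPerm k K 1 j i = i} =
      Module.finrank k (K j) := fixn_one
  rw [this]

theorem excess_pos (d : J → ℤ) {T : ℝ}
    (h : 2 * T < |((∑ j, d j * ((Module.finrank k (K j) : ℤ) - 1) : ℤ) : ℝ)|) :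
    0 < excess k K d T := by
  rw [← value_one (k := k) (K := K) d] at h
  rw [← excess_eq]
  have h2 : avR (jointPerm k K).ker (fun _ => (0 : ℝ)) < avR (jointPerm k K).ker (fun q =>
      (max (|((value k K d (jointPerm k K q.out) : ℤ) : ℝ)| - 2 * T) 0) ^ 2) := by
    refine avR_lt (fun q => sq_nonneg _) (q₀ := QuotientGroup.mk 1) ?_
    have h3 := ((cls_value (k := k) (K := K) d).comp
      fun y => (max (|y| - 2 * T) 0) ^ 2).out (1 : GK k)
    refine lt_of_lt_of_eq ?_ h3.symm
    have h4 : 0 < max (|((value k K d (jointPerm k K 1) : ℤ) : ℝ)| - 2 * T) 0 :=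
      lt_max_of_lt_left (by linarith)
    positivity
  rwa [avR_one] at h2

end

end

end Run7.h186.BF
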