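import Pool.Agent.Run7.h186.BF4
import Pool.Agent.Run7.h186.NT16

/-! The theorem for families of modular elliptic curves and systems of fields. -/

set_option autoImplicit false

namespace Run7.h186.BF

open Complex Filter Topology ComplexConjugate NumberField IsDedekindDomain Asymptotics
open Pool.Agent.W353.NF (act fixn SzH cz abs_cz TT)
open Pool.Agent.W353.L1 (avR)
open Pool.Agent.W353.AB (syE)
open Pool.Agent.X288.L2 (EC Cls PP QQ P_eq Q_eq PQ_ne abs_TT_le chi_one' fixn_self)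
open Pool.Agent.TH322.BC (chi size_chi abs_chi_le)
open Pool.Agent.TH322.BC.Edge (MinimalModels LSeries size_base orders)
open Pool.Agent.Y722.EP (IsModular NotIsogenous)
open Pool.Agent.W401.Cheb
open Run7.h186.NT (exists_finset)
open Pool.Agent.W353.NF Pool.Agent.W353.L1 Pool.Agent.W353.AB Pool.Agent.X288.L2 Pool.Agent.W540.BE

noncomputable section

section
variable {a b : ℤ} (hab : 4 * a ^ 3 + 27 * b ^ 2 ≠ 0)

include hab in
/-- the sizes of the base change -/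
theorem szH_base {F : Type} [Field F] [NumberField F] [Algebra ℚ F]
    {V₀ : HeightOneSpectrum (𝓞 ℚ) → WeierstrassCurve (𝓞 ℚ)}
    (hV₀ : MinimalModels (EC ℚ a b) V₀)
    {V : HeightOneSpectrum (𝓞 F) → WeierstrassCurve (𝓞 F)}
    (hV : MinimalModels ((EC ℚ a b).map (algebraMap ℚ F)) V) (τ : ℝ)
    {σ : HeightOneSpectrum (𝓞 ℚ) → GK ℚ} (hσ : ∀ v, IsFrob v (σ v)) :
    SzH (Pool.Agent.W353.NF.TT (syE (PP ℚ a) (QQ ℚ b)))
      (fun v => ((fixn ℚ F (σ v) : ℝ) - 1) * cz τ v)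
      (fun ε => Pool.Agent.TH322.BC.Edge.size V τ ε - Pool.Agent.TH322.BC.Edge.size V₀ τ ε) ∧
    (∀ m₀ m : ℤ, Pool.Agent.TH322.BC.Edge.HasOrder V₀ τ m₀ →
      Pool.Agent.TH322.BC.Edge.HasOrder V τ m →
      Tendsto (fun ε => Pool.Agent.TH322.BC.Edge.size V τ ε -
        Pool.Agent.TH322.BC.Edge.size V₀ τ ε) (𝓝[>] 0) (𝓝 (-((m : ℝ) - m₀)))) := by
  have hV₀' : MinimalModels ((EC ℚ a b).map (algebraMap ℚ ℚ)) V₀ := by
    have : (EC ℚ a b).map (algebraMap ℚ ℚ) = EC ℚ a b := (EC ℚ a b).map_id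
    rwa [this]
  have s0 := size_base (F := ℚ) one_ne_zero (P_eq a b) (Q_eq a b) (PQ_ne hab) hV₀' τ
  have s1 := size_base one_ne_zero (P_eq a b) (Q_eq a b) (PQ_ne hab) hV τ
  have z1 : SzH (Pool.Agent.W353.NF.TT (syE (PP ℚ a) (QQ ℚ b)))
      (fun v => (chi ℚ (((1 : 𝓞 F) : F)) (σ v) : ℝ) * cz τ v)
      (Pool.Agent.TH322.BC.Edge.size V τ) :=
    size_chi _ (syE_real _ _) one_ne_zero (Pool.Agent.TH322.BC.Edge.syE_D _ _ _) σ hσ s1.2
  have z0 : SzH (Pool.Agent.W353.NF.TT (syE (PP ℚ a) (QQ ℚ b)))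
      (fun v => (chi ℚ (((1 : 𝓞 ℚ) : ℚ)) (σ v) : ℝ) * cz τ v)
      (Pool.Agent.TH322.BC.Edge.size V₀ τ) :=
    size_chi _ (syE_real _ _) one_ne_zero (Pool.Agent.TH322.BC.Edge.syE_D _ _ _) σ hσ s0.2
  obtain ⟨M₁, hM₁, hM₁'⟩ : ∃ M : ℝ, 0 ≤ M ∧ ∀ g : GK ℚ, |(chi ℚ (((1 : 𝓞 F) : F)) g : ℝ)| ≤ M :=
    ⟨_, Nat.cast_nonneg _, fun g => abs_chi_le _ _⟩
  obtain ⟨M₀, hM₀, hM₀'⟩ : ∃ M : ℝ, 0 ≤ M ∧ ∀ g : GK ℚ, |(chi ℚ (((1 : 𝓞 ℚ) : ℚ)) g : ℝ)| ≤ M :=
    ⟨_, Nat.cast_nonneg _, fun g => abs_chi_le _ _⟩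
  have hb1 : ∀ v, |(chi ℚ (((1 : 𝓞 F) : F)) (σ v) : ℝ) * cz τ v| ≤ M₁ := by
    intro v
    rw [abs_mul]
    calc _ ≤ M₁ * 1 := mul_le_mul (hM₁' _) (abs_cz _ _) (abs_nonneg _) hM₁
      _ = _ := mul_one _
  have hb0 : ∀ v, |(-1 : ℝ) * ((chi ℚ (((1 : 𝓞 ℚ) : ℚ)) (σ v) : ℝ) * cz τ v)| ≤ M₀ := by
    intro v
    rw [abs_mul, abs_mul, abs_neg, abs_one, one_mul]
    calc _ ≤ M₀ * 1 := mul_le_mul (hM₀' _) (abs_cz _ _) (abs_nonneg _) hM₀
      _ = _ := mul_one _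
  have z := (z1.add (z0.const_mul (-1)) (abs_TT_le a b) hb1 hb0).congr
    (Ψ' := fun v => ((fixn ℚ F (σ v) : ℝ) - 1) * cz τ v)
    (X' := fun ε => Pool.Agent.TH322.BC.Edge.size V τ ε - Pool.Agent.TH322.BC.Edge.size V₀ τ ε)
    (fun v => by
      rw [chi_one', chi_one', fixn_self]
      push_cast
      ring) (fun ε => by ring)
  refine ⟨z, fun m₀ m hm₀ hm => ?_⟩
  have h6 := (orders s1.1 hm).sub (orders s0.1 hm₀)
  have e : -(m : ℝ) - -(m₀ : ℝ) = -((m : ℝ) - m₀) := by ring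
  rw [e] at h6
  exact h6

end

section
variable {ι J : Type} [Fintype J] {K : J → Type} [∀ j, Field (K j)] [∀ j, NumberField (K j)]
  [∀ j, Algebra ℚ (K j)] (X : Family ι K)

/-- the curves with their newforms -/
def Family.cv (e : ι) : Cv where
  a := X.a e
  b := X.b e
  hab := X.disc e
  N := (X.modular e).choose
  hN := (X.modular e).choose_spec.choose
  f := (X.modular e).choose_spec.choose_spec.choose
  hf := (X.modular e).choose_spec.choose_spec.choose_spec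

theorem Family.szH (d : J → ℤ) (x : ι × ℝ) {σ : HeightOneSpectrum (𝓞 ℚ) → GK ℚ}
    (hσ : ∀ v, IsFrob v (σ v)) :
    SzH (Pool.Agent.W353.NF.TT (syE (PP ℚ (X.cv x.1).a) (QQ ℚ (X.cv x.1).b)))
      (fun v => ((value ℚ K d (jointPerm ℚ K (σ v)) : ℤ) : ℝ) * cz x.2 v) (X.size d x) := by
  have h1 : ∀ j, ∃ B : ℝ, ∀ v, |((fixn ℚ (K j) (σ v) : ℝ) - 1) * cz x.2 v| ≤ B := by
    intro j
    obtain ⟨M, hM0, hM⟩ := (cls_fix (k := ℚ) (K := K) j).bdd
    refine ⟨M, fun v => ?_⟩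
    rw [abs_mul]
    calc _ ≤ M * 1 := mul_le_mul (hM _) (abs_cz _ _) (abs_nonneg _) hM0.le
      _ = M := mul_one _
  choose B hB using h1
  have h2 := SzH.sum (Finset.univ : Finset J)
    (Ψ := fun j v => ((fixn ℚ (K j) (σ v) : ℝ) - 1) * cz x.2 v)
    (X := fun j ε => Pool.Agent.TH322.BC.Edge.size (X.V x.1 j) x.2 ε -
      Pool.Agent.TH322.BC.Edge.size (X.V₀ x.1) x.2 ε) (B := B)
    (fun j _ => (szH_base (X.disc x.1) (X.minimal₀ x.1) (X.minimal x.1 j) x.2 hσ).1)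
    (abs_TT_le (X.a x.1) (X.b x.1)) (fun j _ => hB j) (fun j => (d j : ℝ))
  refine h2.congr (fun v => ?_) fun ε => rfl
  rw [value_eq, Finset.sum_mul]
  exact Finset.sum_congr rfl fun j _ => by ring

theorem Family.tendsto {d : J → ℤ} {x : ι × ℝ} {r : ℤ} (h : X.HasOrder d x r) :
    Tendsto (X.size d x) (𝓝[>] 0) (𝓝 (-(r : ℝ))) := by
  obtain ⟨m₀, m, h0, h1, rfl⟩ := h
  obtain ⟨σ, hσ⟩ : ∃ σ : HeightOneSpectrum (𝓞 ℚ) → GK ℚ, ∀ v, IsFrob v (σ v) := by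
    choose σ hσ using exists_isFrob (F := ℚ)
    exact ⟨σ, hσ⟩
  have h2 : Tendsto (X.size d x) (𝓝[>] 0) (𝓝 (∑ j, (d j : ℝ) * (-((m j : ℝ) - m₀)))) := by
    refine tendsto_finsetSum _ fun j _ => ?_
    exact ((szH_base (X.disc x.1) (X.minimal₀ x.1) (X.minimal x.1 j) x.2 hσ).2 m₀ (m j) h0
      (h1 j)).const_mul _
  have e : ∑ j, (d j : ℝ) * (-((m j : ℝ) - m₀)) = -((∑ j, d j * (m j - m₀) : ℤ) : ℝ) := by
    push_cast
    rw [← Finset.sum_neg_distrib]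
    exact Finset.sum_congr rfl fun j _ => by ring
  rw [← e]
  exact h2

/-- **The mean square.** -/
theorem Family.mean (d : J → ℤ) (S : Finset (ι × ℝ)) {η : ℝ} (hη : 0 < η) :
    ∀ᶠ ε : ℝ in 𝓝[>] 0, ∑ x ∈ S, (max (X.size d x ε) 0) ^ 2 ≤ (form ℚ K d : ℝ) + η ∧
      ∑ x ∈ S, (max (-X.size d x ε) 0) ^ 2 ≤ (form ℚ K d : ℝ) + η := by
  obtain ⟨σ, hσ⟩ : ∃ σ : HeightOneSpectrum (𝓞 ℚ) → GK ℚ, ∀ v, IsFrob v (σ v) := by
    choose σ hσ using exists_isFrob (F := ℚ)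
    exact ⟨σ, hσ⟩
  have h := bes (c := X.cv) X.not_isogenous jker_open hσ (cls_value (k := ℚ) (K := K) d) S
    (fun x _ => X.szH d x hσ) hη
  rw [mean_value_sq] at h
  exact h

/-- **The orders.** -/
theorem Family.strict {d : J → ℤ} {S : Finset (ι × ℝ)} {r : ι × ℝ → ℤ}
    (hr : ∀ x ∈ S, X.HasOrder d x (r x)) {s : ℤ} (hs : s = 1 ∨ s = -1) :
    ((∑ x ∈ S, (max (s * r x) 0) ^ 2 : ℤ) : ℝ) +
      excess ℚ K d ((∑ x ∈ S, max (s * r x) 0 : ℤ) : ℝ) ≤ (form ℚ K d : ℝ) := by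
  classical
  obtain ⟨σ, hσ⟩ : ∃ σ : HeightOneSpectrum (𝓞 ℚ) → GK ℚ, ∀ v, IsFrob v (σ v) := by
    choose σ hσ using exists_isFrob (F := ℚ)
    exact ⟨σ, hσ⟩
  have h := BF.strict (c := X.cv) X.not_isogenous jker_open hσ (cls_value (k := ℚ) (K := K) d)
    (S.filter fun x => 0 < s * r x) (fun x _ => X.szH d x hσ) (s := -(s : ℝ)) (by
      rcases hs with rfl | rfl
      · right; norm_num
      · left; norm_num) (t := fun x => ((max (s * r x) 0 : ℤ) : ℝ))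
    (fun x => by exact_mod_cast le_max_right _ _) (fun x hx => by
      obtain ⟨h1, h2⟩ := Finset.mem_filter.1 hx
      have h3 := X.tendsto (hr x h1)
      have e : -(s : ℝ) * ((max (s * r x) 0 : ℤ) : ℝ) = -(r x : ℝ) := by
        rw [max_eq_left h2.le]
        rcases hs with rfl | rfl
        · push_cast
          ring
        · push_cast
          ring
      rw [e]
      exact h3)
  rw [mean_value_sq, excess_eq] at h
  have e1 : ∑ x ∈ S.filter (fun x => 0 < s * r x), ((max (s * r x) 0 : ℤ) : ℝ) ^ 2 =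
      ((∑ x ∈ S, (max (s * r x) 0) ^ 2 : ℤ) : ℝ) := by
    rw [Finset.sum_filter]
    push_cast
    refine Finset.sum_congr rfl fun x _ => ?_
    split_ifs with h1
    · rfl
    · rw [not_lt] at h1
      have h2 : max ((s : ℝ) * (r x : ℝ)) 0 = 0 := max_eq_right (by exact_mod_cast h1)
      rw [h2]
      norm_num
  have e2 : ∑ x ∈ S.filter (fun x => 0 < s * r x), ((max (s * r x) 0 : ℤ) : ℝ) =
      ((∑ x ∈ S, max (s * r x) 0 : ℤ) : ℝ) := by
    rw [Finset.sum_filter]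
    push_cast
    refine Finset.sum_congr rfl fun x _ => ?_
    split_ifs with h1
    · rfl
    · rw [not_lt] at h1
      have h2 : max ((s : ℝ) * (r x : ℝ)) 0 = 0 := max_eq_right (by exact_mod_cast h1)
      rw [h2]
  rw [e1, e2] at h
  exact h

theorem Family.order {d : J → ℤ} {S : Finset (ι × ℝ)} {r : ι × ℝ → ℤ}
    (hr : ∀ x ∈ S, X.HasOrder d x (r x)) {s : ℤ} (hs : s = 1 ∨ s = -1) :
    ∑ x ∈ S, (max (s * r x) 0) ^ 2 ≤ bound ℚ K d := by
  classical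
  have h := X.strict hr hs
  have h0 := excess_nonneg (k := ℚ) (K := K) d ((∑ x ∈ S, max (s * r x) 0 : ℤ) : ℝ)
  have h1 : ∑ x ∈ S, (max (s * r x) 0) ^ 2 ≤ form ℚ K d := by
    have : ((∑ x ∈ S, (max (s * r x) 0) ^ 2 : ℤ) : ℝ) ≤ (form ℚ K d : ℝ) := by linarith
    exact_mod_cast this
  unfold bound
  split_ifs with hb
  · by_contra hlt
    have h2 : ∑ x ∈ S, (max (s * r x) 0) ^ 2 = form ℚ K d := by omega
    have h3 : ∑ x ∈ S, max (s * r x) 0 ≤ ∑ x ∈ S, (max (s * r x) 0) ^ 2 := by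
      refine Finset.sum_le_sum fun x _ => ?_
      have h4 : 0 ≤ max (s * r x) 0 := le_max_right _ _
      nlinarith
    have h5 : 2 * ((∑ x ∈ S, max (s * r x) 0 : ℤ) : ℝ) <
        |((∑ j, d j * ((Module.finrank ℚ (K j) : ℤ) - 1) : ℤ) : ℝ)| := by
      have : 2 * (∑ x ∈ S, max (s * r x) 0) <
        |∑ j, d j * ((Module.finrank ℚ (K j) : ℤ) - 1)| := by omega
      exact_mod_cast this
    have h6 := excess_pos (k := ℚ) (K := K) d h5
    rw [h2] at h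
    linarith
  · exact h1

/-- the curves with an order of a given sign -/
def Family.Bad (d : J → ℤ) (s : ℤ) (e : ι) : Prop :=
  ∃ (τ : ℝ) (r : ℤ), 0 < s * r ∧ X.HasOrder d (e, τ) r

include X in
theorem Family.bound_nonneg (d : J → ℤ) : 0 ≤ bound ℚ K d := by
  have h := X.order (d := d) (S := ∅) (r := fun _ => 0) (by simp) (s := 1) (Or.inl rfl)
  simpa using h

theorem Family.bad_card (d : J → ℤ) {s : ℤ} (hs : s = 1 ∨ s = -1) (S : Finset ι)
    (hS : ∀ e ∈ S, X.Bad d s e) : S.card ≤ (bound ℚ K d).toNat := by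
  classical
  have hch : ∀ e : ι, ∃ (τ : ℝ) (r : ℤ), e ∈ S → 0 < s * r ∧ X.HasOrder d (e, τ) r := by
    intro e
    by_cases he : e ∈ S
    · obtain ⟨τ, r, h1⟩ := hS e he
      exact ⟨τ, r, fun _ => h1⟩
    · exact ⟨0, 0, fun h' => absurd h' he⟩
  choose τ r hr using hch
  have h2 := X.order (d := d) (S := S.image fun e => (e, τ e)) (r := fun x => r x.1)
    (fun x hx => by
      obtain ⟨e, he, rfl⟩ := Finset.mem_image.1 hx
      exact (hr e he).2) hs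
  have hinj : ∀ x ∈ S, ∀ y ∈ S, (fun e => (e, τ e)) x = (fun e => (e, τ e)) y → x = y :=
    fun x _ y _ hxy => congrArg Prod.fst hxy
  rw [Finset.sum_image hinj] at h2
  have h4 : (S.card : ℤ) ≤ ∑ e ∈ S, max (s * r e) 0 ^ 2 := by
    rw [Finset.card_eq_sum_ones, Nat.cast_sum]
    refine Finset.sum_le_sum fun e he => ?_
    have h5 := (hr e he).1
    rw [max_eq_left h5.le]
    have h6 : (1 : ℤ) ≤ s * r e := h5
    push_cast
    nlinarith
  have h5 := X.bound_nonneg d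
  have h6 := h4.trans h2
  omega

/-- **The exceptional curves.** -/
theorem Family.exceptional (d : J → ℤ) :
    ∃ F G : Finset ι, (F.card : ℤ) ≤ bound ℚ K d ∧ (G.card : ℤ) ≤ bound ℚ K d ∧
      ∀ (e : ι) (τ : ℝ) (r : ℤ), X.HasOrder d (e, τ) r → (e ∉ F → 0 ≤ r) ∧ (e ∉ G → r ≤ 0) := by
  obtain ⟨F, hF, hF'⟩ := exists_finset (X.bad_card d (s := -1) (Or.inr rfl))
  obtain ⟨G, hG, hG'⟩ := exists_finset (X.bad_card d (s := 1) (Or.inl rfl))
  have h5 := X.bound_nonneg d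
  refine ⟨F, G, by omega, by omega, fun e τ r hr => ⟨fun he => ?_, fun he => ?_⟩⟩
  · by_contra h
    exact he (hF' e ⟨τ, r, by omega, hr⟩)
  · by_contra h
    exact he (hG' e ⟨τ, r, by omega, hr⟩)

end

theorem bound_single (K : Type) [Field K] [NumberField K] [Algebra ℚ K] :
    bound ℚ (fun _ : Unit => K) (fun _ => 1) =
      if 2 * orbits ℚ K K ≤ Module.finrank ℚ K then (orbits ℚ K K : ℤ) - 2
      else (orbits ℚ K K : ℤ) - 1 := by
  have h1 : form ℚ (fun _ : Unit => K) (fun _ => 1) = (orbits ℚ K K : ℤ) - 1 := by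
    unfold form
    rw [Fintype.sum_unique, Fintype.sum_unique]
    ring
  have h2 : ∑ _j : Unit, (1 : ℤ) * ((Module.finrank ℚ K : ℤ) - 1) =
      (Module.finrank ℚ K : ℤ) - 1 := by
    rw [Fintype.sum_unique, one_mul]
  have h3 : 0 < Module.finrank ℚ K := Module.finrank_pos
  unfold bound
  rw [h1, h2, abs_of_nonneg (by omega)]
  split_ifs with g1 g2 g2
  · ring
  · omega
  · omega
  · rfl

end

end Run7.h186.BF
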