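import Pool.Agent.Y149.TL.Defs
import Pool.Agent.H304R3.HK.Defs

/-!
# Tensor products with the CM motives of `ℚ(i)` on the edge line: definitions
-/

set_option autoImplicit false

namespace Run7.h186.CM

open Filter Topology Polynomial
open Pool.Agent.H304R3.HK (bb)
open Pool.Agent.Y149.TL (Motive IsEuler tensL)

/-- An algebraic Hecke character `ψ` of the field `ℚ(i)` of infinity type `(m, 0)`, `m = type ≥ 0`,
modulo the natural number `modulus`: the number `val a` is the value of `ψ` at the ideal `(a)` of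
`ℤ[i]`, it is `0` if `a` is not prime to the modulus, and `ψ((a)) = a^m` if `a` is congruent to `1`
modulo the modulus.  (The modulus need not be the conductor, and every Hecke character has a modulus
in `ℕ`.  An algebraic Hecke character of type `(m₁, m₂)`, `m₁ ≥ m₂`, is a power of the norm times one
of type `(m₁ - m₂, 0)`, and for `m₁ < m₂` the complex conjugation of `ℚ(i)` exchanges `m₁` and
`m₂`.) -/
structure HeckeChar where
  modulus : ℕ
  type : ℕ
  val : GaussianInt →* ℂ
  modulus_pos : 0 < modulus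
  zero : val 0 = 0
  unit : val ⟨0, 1⟩ = 1
  supp : ∀ a : GaussianInt, a ≠ 0 → (val a ≠ 0 ↔ IsCoprime a (modulus : GaussianInt))
  inf : ∀ a : GaussianInt, (modulus : GaussianInt) ∣ a - 1 → val a = GaussianInt.toComplex a ^ type

/-- The representation `Ind ψ` of the Galois group of `ℚ` induced from `ψ` is irreducible: `ψ` differs
from its conjugate.  (For positive type this is always the case.) -/
def Irr (ψ : HeckeChar) : Prop :=
  0 < ψ.type ∨ ∃ a : GaussianInt, a ≠ 0 ∧ IsCoprime a (ψ.modulus : GaussianInt) ∧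
    ψ.val a ≠ ψ.val (star a)

/-- The representations `Ind ψ` and `Ind ψ'` are not isomorphic: `ψ` differs from `ψ'` and from the
conjugate of `ψ'`, in both cases at an ideal prime to both moduli.  (The second condition holds
always, unless both types are `0`.) -/
def Differ (ψ ψ' : HeckeChar) : Prop :=
  (∃ a : GaussianInt, a ≠ 0 ∧ IsCoprime a ((ψ.modulus * ψ'.modulus : ℕ) : GaussianInt) ∧
    ψ.val a ≠ ψ'.val a) ∧
  (0 < ψ.type + ψ'.type ∨ ∃ a : GaussianInt, a ≠ 0 ∧
    IsCoprime a ((ψ.modulus * ψ'.modulus : ℕ) : GaussianInt) ∧ ψ.val a ≠ ψ'.val (star a))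

/-- The eigenvalues of Frobenius at `p` on the two-dimensional representation `Ind ψ` induced from
`ψ`, `p` prime to twice the modulus: the roots of `X² - a_p X + χ(p) ψ((p))`.  Here
`a_p = bb ψ.val p` is the sum of `ψ` over the ideals of norm `p` (a quarter of the sum over the
`x + iy` with `x² + y² = p`) and `χ` is the character modulo `4`.  If `p = π π'` with `π'` conjugate
to `π` they are `ψ(π)` and `ψ(π')`, if `p` is inert they are the square roots of `ψ((p))`. -/
noncomputable def frobInd (ψ : HeckeChar) (p : ℕ) : Multiset ℂ :=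
  (X ^ 2 - C (bb ψ.val p) * X + C ((ZMod.χ₄ (p : ZMod 4) : ℂ) * ψ.val (p : GaussianInt))).roots

/-- The weight of `M ⊗ Ind ψ_{l_1} ⊗ ⋯ ⊗ Ind ψ_{l_k}`: the weight of `M` plus the types of the
characters. -/
def wt {ι : Type} (M : Motive) (ψ : ι → HeckeChar) (l : List ι) : ℤ :=
  M.weight + ((l.map fun e => (ψ e).type).sum : ℕ)

/-- `B` are the Euler factors of `L(M ⊗ Ind ψ_{l_1} ⊗ ⋯ ⊗ Ind ψ_{l_k}, s)`. -/
def IsTwist {ι : Type} (M : Motive) (ψ : ι → HeckeChar) (l : List ι) (B : Nat.Primes → ℂ[X]) : Prop :=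
  IsEuler (wt M ψ l) (fun p => tensL (M.frob p) (fun e => frobInd (ψ e) p) l) B

end Run7.h186.CM
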