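import Pool.Agent.Y72.Un.EE

/-!
# Classes outside an exceptional set: vanishing with finitely divisible coefficients
-/

set_option autoImplicit false
set_option linter.unusedSectionVars false

namespace Run7.h186

open Finset H219.Wh Pool.Agent.Y72.Log Pool.Agent.Y72.Dt Pool.Agent.Y72.Un
open Pool.Agent.H23R2 (InvPair IsCoc DsumZ cf supp invPair_units rootF rootF_pos rootF_neg
  rootF_coc rootF_zero rootF_succ_pow)
open scoped Classical

/-- the conditions on roots, and on centralisers of the elements outside the set `U` -/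
structure Cu (Γ : Type*) [Group Γ] (U : Set Γ) : Prop where
  tf : ∀ g : Γ, ∀ m : ℕ, 0 < m → g ^ m = 1 → g = 1
  ur : UR Γ
  fd : ∀ c : Γ, c ≠ 1 → {l : ℕ | l.Prime ∧ ∃ x : Γ, x ^ l = c}.Finite
  cl : ∀ c : Γ, c ≠ 1 → c ∉ U → Ca c ∨ Cb c

lemma Cu.subgroup {Γ : Type*} [Group Γ] {U : Set Γ} (hn : Cu Γ U) (H : Subgroup Γ) :
    Cu H {x : H | (x : Γ) ∈ U} where
  tf := by
    intro g m hm hg
    apply Subtype.ext
    apply hn.tf g.1 m hm
    have := congrArg Subtype.val hg
    simpa using this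
  ur := by
    apply hn.ur.mono
    rintro l ⟨hl, h⟩
    refine ⟨hl, fun x y hxy => Subtype.ext (h _ _ ?_)⟩
    have := congrArg Subtype.val hxy
    simpa using this
  fd := by
    intro c hc
    apply (hn.fd c.1 (fun h => hc (Subtype.ext h))).subset
    rintro l ⟨hl, x, hx⟩
    refine ⟨hl, x.1, ?_⟩
    have := congrArg Subtype.val hx
    simpa using this
  cl := by
    intro c hc hcU
    rcases hn.cl c.1 (fun h => hc (Subtype.ext h)) hcU with ⟨f, hf, hfc⟩ | h
    · left
      refine ⟨fun x => f x, ?_, hfc⟩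
      intro x y hx hy
      exact hf _ _ (congrArg Subtype.val hx) (congrArg Subtype.val hy)
    · right
      intro x y hx hy
      exact Subtype.ext (h _ _ (congrArg Subtype.val hx) (congrArg Subtype.val hy))

section trick

variable {I S : Type*} [Fintype I] [Fintype S] {Γ : Type*} [Group Γ] {gr : S → Γ}
  {A B : I → I → S → ℤ}

/-- **finitely divisible coefficients** -/
theorem trick {U : Set Γ} (h : IP gr A B) (hn : Cu Γ U)
    (hA : ∀ l : ℕ, Odd l → ∀ i j a, A i j a ^ l = A i j a)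
    (hB : ∀ l : ℕ, Odd l → ∀ i j a, B i j a ^ l = B i j a) {M : Type*} [AddCommGroup M]
    (hM : ∀ x : M, x ≠ 0 → {l : ℕ | l.Prime ∧ ∃ y : M, l • y = x}.Finite)
    {c : Γ} (hc : c ≠ 1) {F : Γ → Γ → M} (hF : IsCoc F)
    (hs : ∀ w x, ¬ IsConj c w → F w x = 0) : Dsum gr A B F = 0 := by
  by_contra hne
  -- the exceptional primes
  let bad : Set ℕ := {l : ℕ | l.Prime ∧ ∃ y : M, l • y = Dsum gr A B F} ∪
    ((⋃ z ∈ (Finset.univ : Finset (S × S)), {l : ℕ | gr z.1 * gr z.2 ≠ 1 ∧ l.Prime ∧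
      ∃ x : Γ, x ^ l = gr z.1 * gr z.2}) ∪ {2})
  have hbad : bad.Finite := by
    apply (hM _ hne).union
    apply Set.Finite.union _ (Set.finite_singleton 2)
    apply Set.Finite.biUnion (Finset.finite_toSet _)
    intro z _
    by_cases hz : gr z.1 * gr z.2 = 1
    · apply Set.finite_empty.subset
      rintro l ⟨h1, _⟩
      exact h1 hz
    · apply (hn.fd _ hz).subset
      rintro l ⟨_, h1⟩
      exact h1
  obtain ⟨l, ⟨hl, hroot⟩, hlb⟩ := (hn.ur.sdiff hbad).nonempty
  simp only [bad, Set.mem_union, Set.mem_iUnion, not_or, Set.mem_singleton_iff] at hlb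
  obtain ⟨hl1, hl2, hl3⟩ := hlb
  haveI : Fact l.Prime := ⟨hl⟩
  have hodd : Odd l := hl.odd_of_ne_two hl3
  apply hl1
  refine ⟨hl, ?_⟩
  let φ : M →+ M := nsmulAddMonoidHom l
  let q : M →+ M ⧸ φ.range := QuotientAddGroup.mk' φ.range
  have hMq : ∀ x : M ⧸ φ.range, l • x = 0 := by
    intro x
    obtain ⟨x, rfl⟩ := QuotientAddGroup.mk'_surjective φ.range x
    rw [← map_nsmul]
    exact (QuotientAddGroup.eq_zero_iff _).2 ⟨x, rfl⟩
  suffices h0 : q (Dsum gr A B F) = 0 by
    obtain ⟨y, hy⟩ := (QuotientAddGroup.eq_zero_iff _).1 h0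
    exact ⟨y, hy⟩
  set F' : Γ → Γ → M ⧸ φ.range := fun w x => q (F w x) with hF'
  have hF'c : IsCoc F' := by
    intro w x y
    show q _ = q _ + q _
    rw [← map_add, hF]
  have hR : IsCoc (rootF l F' 1) := rootF_coc hroot hF'c 1
  have hdiag : ∀ w, rootF l F' 1 w w = 0 := by
    intro w
    by_cases hw : ∃ z : Γ, z ^ (l ^ 1) = w
    · obtain ⟨z, hz⟩ := hw
      rw [rootF_pos hroot F' 1 z w _ hz, ← hz]
      have h1 := coc_pow_pow hF'c z 1 (l ^ 1)
      rw [pow_one z] at h1
      rw [h1, pow_one, hMq]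
    · exact rootF_neg F' 1 _ _ hw
  have h1 := frobenius_relation (p := l) (i := 0) (M := M ⧸ φ.range) h (hA l hodd) (hB l hodd)
    (by
      intro x
      rw [zero_add, pow_one]
      exact hMq x) hR hdiag
  have h2 : (fun w x => rootF l F' 1 (w ^ l) x) = F' := by
    funext w x
    have h3 := rootF_succ_pow (p := l) hroot F' 0 w x
    rw [zero_add] at h3
    rw [h3, rootF_zero F' hroot]
  have h3 : Dsum gr A B (rootF l F' 1) = 0 := by
    unfold Dsum
    apply Finset.sum_eq_zero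
    intro y _
    have h4 : rootF l F' 1 (gr y.2.2.1 * gr y.2.2.2) (gr y.2.2.1) = 0 := by
      by_cases hw : ∃ z : Γ, z ^ (l ^ 1) = gr y.2.2.1 * gr y.2.2.2
      · obtain ⟨z, hz⟩ := hw
        rw [rootF_pos hroot F' 1 z _ _ hz]
        by_cases hcz : IsConj c z
        · exfalso
          apply hl2
          refine ⟨(y.2.2.1, y.2.2.2), Finset.mem_univ _, ?_, hl, z, by rw [← hz, pow_one]⟩
          intro h5
          rw [h5, pow_one] at hz
          have h6 := hn.tf z l hl.pos hz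
          rw [h6] at hcz
          exact hc (isConj_one_left.1 hcz)
        · show q (F z _) = 0
          rw [hs z _ hcz, map_zero]
      · exact rootF_neg F' 1 _ _ hw
    rw [h4, smul_zero]
  rw [h3, h2] at h1
  rw [map_Dsum]
  exact h1.symm

end trick


section trickb

variable {I S : Type*} [Fintype I] [Fintype S] {Γ : Type*} [Group Γ] {gr : S → Γ}
  {A B : I → I → S → ℤ} {M : Type*} [AddCommGroup M]

/-- **classes with commutative centraliser** -/
theorem trick_b {U : Set Γ} (h : IP gr A B) (hn : Cu Γ U)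
    (hA : ∀ l : ℕ, Odd l → ∀ i j a, A i j a ^ l = A i j a)
    (hB : ∀ l : ℕ, Odd l → ∀ i j a, B i j a ^ l = B i j a)
    {c : Γ} (hc : c ≠ 1) (hcb : Cb c) {F : Γ → Γ → M} (hF : IsCoc F)
    (hs : ∀ w x, ¬ IsConj c w → F w x = 0) : Dsum gr A B F = 0 := by
  letI := zcGroup hcb
  have hadd : AddOn c (zin c) := fun x y hx hy => zin_add hcb hx hy
  have h0 : Dsum gr A B (cocF c (zin c)) = 0 := by
    apply trick h hn hA hB _ hc (cocF_coc hadd) (fun w x hw => cocF_neg _ hw x)
    intro x hx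
    have hx1 : (x.toMul : Γ) ≠ 1 := by
      intro hc1
      apply hx
      have h1 : (x.toMul : Subgroup.centralizer ({c} : Set Γ)) = 1 := Subtype.ext hc1
      exact congrArg Additive.ofMul h1
    apply (hn.fd _ hx1).subset
    rintro l ⟨hl, y, hy⟩
    refine ⟨hl, (y.toMul : Γ), ?_⟩
    have h1 : (Additive.toMul (l • y) : Subgroup.centralizer ({c} : Set Γ)) = y.toMul ^ l := rfl
    rw [hy] at h1
    have h2 := congrArg Subtype.val h1
    rw [h2]
    rfl
  have hθc : ∀ x : Zc c, (x.toMul : Γ) * c = c * (x.toMul : Γ) := fun x => mem_Zc.1 x.toMul.2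
  let θ : Zc c →+ M :=
    { toFun := fun x => F c (x.toMul : Γ)
      map_zero' := hF.one c
      map_add' := fun x y => by
        show F c ((x.toMul : Γ) * (y.toMul : Γ)) = _
        have h1 : (x.toMul : Γ)⁻¹ * c * (x.toMul : Γ) = c := by
          rw [mul_assoc, ← hθc x, inv_mul_cancel_left]
        rw [hF, h1] }
  have h1 : cocF c (F c) = fun w x => θ (cocF c (zin c) w x) := by
    funext w x
    by_cases hw : IsConj c w
    · unfold cocF
      rw [if_pos hw, if_pos hw]
      show F c _ = F c ((zin c _).toMul : Γ)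
      rw [zin_val (tc_comm hw x)]
    · rw [cocF_neg _ hw, cocF_neg _ hw, map_zero]
  obtain ⟨g, hg⟩ := coc_cohom hF hs
  rw [hg, Dsum_add, Dsum_cob h, add_zero, h1, ← map_Dsum, h0, map_zero]

end trickb


section main

open Pool.Agent.H23R2


variable {I S : Type*} [Fintype I] [Fintype S] {Γ : Type*} [Group Γ] {U : Set Γ} {gr : S → Γ}
  {A B : I → I → S → ℤ} {p : ℕ}

/-- the slice sum, commutative centralisers -/
lemma ee_b (hp : p.Prime) (h : IP gr A B) (hn : Cu Γ U)
    (hA : ∀ l : ℕ, Odd l → ∀ i j a, A i j a ^ l = A i j a)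
    (hB : ∀ l : ℕ, Odd l → ∀ i j a, B i j a ^ l = B i j a)
    {c : Γ} (hc1 : c ≠ 1) (hcb : Cb c) (hc : ∀ x, ¬ IsConj c (x ^ p)) {i : ℕ}
    {m : ℕ} [NeZero m] (hm : m = p ^ (i + 1)) {κ : (ZMod m → Γ) → ZMod m}
    (hκ : IsPh (fun w => IsConj c w) κ) :
    (p : ℤ) ^ (i + 1) ∣ EE gr A B (fun w => IsConj c w) κ := by
  letI := zcGroup hcb
  have hadd : AddOn c (zin c) := fun x y hx hy => zin_add hcb hx hy
  let φ : Zc c →+ Zc c := nsmulAddMonoidHom m
  let q : Zc c →+ Zc c ⧸ φ.range := QuotientAddGroup.mk' φ.range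
  have hMq : ∀ x : Zc c ⧸ φ.range, m • x = 0 := by
    intro x
    obtain ⟨x, rfl⟩ := QuotientAddGroup.mk'_surjective φ.range x
    rw [← map_nsmul]
    exact (QuotientAddGroup.eq_zero_iff _).2 ⟨x, rfl⟩
  set F : Γ → Γ → Zc c := cocF c (zin c) with hF
  have hFc : IsCoc F := cocF_coc hadd
  have hqF : IsCoc (fun w x => q (F w x)) := by
    intro w x y
    show q _ = q _ + q _
    rw [← map_add, hFc]
  have h1 := eval (gr := gr) (A := A) (B := B) (M := Zc c ⧸ φ.range) hp h (isCls_conj hc) hm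
    (r := 1) (v := 0) (pow_zero p).symm hκ (by
      intro x
      rw [mul_one]
      exact hMq x) hqF (f := q (zin c c)) (by
      intro w hw
      show q (cocF c (zin c) w w) = _
      rw [cocF_diag _ hw]) (by
      intro w x hw
      show q (cocF c (zin c) w x) = _
      rw [cocF_neg _ hw, map_zero]) (hMq _)
  have h2 : Dsum gr A B (fun w x => q (F w x)) = 0 := by
    rw [← map_Dsum, trick_b h hn hA hB hc1 hcb hFc (fun w x hw => cocF_neg _ hw x), map_zero]
  rw [h2, ← map_zsmul] at h1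
  obtain ⟨y, hy⟩ := (QuotientAddGroup.eq_zero_iff _).1 h1
  have hy' : m • y = EE gr A B (fun w => IsConj c w) κ • zin c c := hy
  have hy2 : EE gr A B (fun w => IsConj c w) κ • zin c c = (p ^ (i + 1)) • y := by
    rw [← hy', ← hm]
  refine div_lem ?_ hp ?_ (i + 1) _ y hy2
  · intro n hn0 x hx
    have h3 : (x.toMul : Subgroup.centralizer ({c} : Set Γ)) ^ n = 1 := congrArg Additive.toMul hx
    have h4 : (x.toMul : Γ) ^ n = 1 := by
      have := congrArg Subtype.val h3
      simpa using this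
    have h5 := hn.tf _ n hn0 h4
    have h6 : (x.toMul : Subgroup.centralizer ({c} : Set Γ)) = 1 := Subtype.ext h5
    exact congrArg Additive.ofMul h6
  · intro y hy
    apply hc (y.toMul : Γ)
    have h3 : (y.toMul : Subgroup.centralizer ({c} : Set Γ)) ^ p = (zin c c).toMul :=
      congrArg Additive.toMul hy
    have h4 : (y.toMul : Γ) ^ p = c := by
      have := congrArg Subtype.val h3
      rw [zin_val rfl] at this
      simpa using this
    rw [h4]

/-- the slice sum, additive functions -/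
lemma ee_a (hp : p.Prime) (h : IP gr A B) (hn : Cu Γ U)
    (hA : ∀ l : ℕ, Odd l → ∀ i j a, A i j a ^ l = A i j a)
    (hB : ∀ l : ℕ, Odd l → ∀ i j a, B i j a ^ l = B i j a)
    {c : Γ} (hc1 : c ≠ 1) (hca : Ca c) (hc : ∀ x, ¬ IsConj c (x ^ p)) {i : ℕ}
    {m : ℕ} [NeZero m] (hm : m = p ^ (i + 1)) {κ : (ZMod m → Γ) → ZMod m}
    (hκ : IsPh (fun w => IsConj c w) κ) :
    (p : ℤ) ^ (i + 1) ∣ EE gr A B (fun w => IsConj c w) κ := by
  haveI : Fact p.Prime := ⟨hp⟩
  obtain ⟨f, hf, hfc⟩ := hca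
  have h1 := eval_int (gr := gr) (A := A) (B := B) hp h hc hm hκ
    (LC.of_addOn hf) (v := padicValInt p (f c)) (padicValInt_dvd _)
  have h2 : Dsum gr A B (cocF c f) = 0 :=
    trick h hn hA hB int_fin hc1 (cocF_coc hf) (fun w x hw => cocF_neg _ hw x)
  rw [h2, sub_zero] at h1
  by_cases ha : EE gr A B (fun w => IsConj c w) κ = 0
  · rw [ha]
    exact dvd_zero _
  have h3 : i + 1 + padicValInt p (f c) ≤
      padicValInt p (EE gr A B (fun w => IsConj c w) κ * f c) :=
    ((padicValInt_dvd_iff _ _).1 h1).resolve_left (mul_ne_zero ha hfc)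
  rw [padicValInt.mul ha hfc] at h3
  exact (padicValInt_dvd_iff _ _).2 (Or.inr (by omega))

/-- the slice sum of a class -/
lemma ee_c (hp : p.Prime) (h : IP gr A B) (hn : Cu Γ U)
    (hA : ∀ l : ℕ, Odd l → ∀ i j a, A i j a ^ l = A i j a)
    (hB : ∀ l : ℕ, Odd l → ∀ i j a, B i j a ^ l = B i j a)
    {c : Γ} (hc1 : c ≠ 1) (hcU : c ∉ U) (hc : ∀ x, ¬ IsConj c (x ^ p)) {i : ℕ}
    {m : ℕ} [NeZero m] (hm : m = p ^ (i + 1)) {κ : (ZMod m → Γ) → ZMod m}
    (hκ : IsPh (fun w => IsConj c w) κ) :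
    (p : ℤ) ^ (i + 1) ∣ EE gr A B (fun w => IsConj c w) κ := by
  rcases hn.cl c hc1 hcU with h1 | h1
  · exact ee_a hp h hn hA hB hc1 h1 hc hm hκ
  · exact ee_b hp h hn hA hB hc1 h1 hc hm hκ

/-- **vanishing of the slice sum** -/
theorem EE_van {Q : Type*} [Group Q] [Finite Q] (hp : p.Prime) (h : IP gr A B)
    (hn : Cu Γ U)
    (hA : ∀ l : ℕ, Odd l → ∀ i j a, A i j a ^ l = A i j a)
    (hB : ∀ l : ℕ, Odd l → ∀ i j a, B i j a ^ l = B i j a)
    (φ : Γ →* Q) {P : Q → Prop} (hP : IsCls p P) (hPU : ∀ w ∈ U, ¬ P (φ w)) {i m : ℕ} [NeZero m]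
    (hm : m = p ^ (i + 1)) {κ : (ZMod m → Q) → ZMod m} (hκ : IsPh P κ) :
    (p : ℤ) ^ (i + 1) ∣ EE (fun s => φ (gr s)) A B P κ := by
  rw [← EE_comp]
  set R : Γ → Prop := fun g => P (φ g) with hRdef
  set κ' : (ZMod m → Γ) → ZMod m := fun g => κ (fun l => φ (g l)) with hκdef
  have hRcls : IsCls p R := by
    refine ⟨?_, ?_⟩
    · intro w x hw
      show P (φ (x⁻¹ * w * x))
      rw [map_mul, map_mul, map_inv]
      exact hP.conj _ _ hw
    · intro x hx
      apply hP.npow (φ x)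
      rw [← map_pow]
      exact hx
  have hRconj : ∀ x y, IsConj x y → (R x ↔ R y) := by
    intro x y hxy
    obtain ⟨t, ht⟩ := isConj_iff.1 hxy
    rw [← ht]
    have := hRcls.conj_iff x t⁻¹
    rw [inv_inv] at this
    exact this.symm
  have hκ' : IsPh R κ' := by
    intro g hg c
    show κ (fun l => φ (shift c g l)) = κ (fun l => φ (g l)) + c
    have h1 := hκ (fun l => φ (g l)) (by rw [W_map]; exact hg) c
    rw [← h1]
    rfl
  set T : Finset (ConjClasses Γ) :=
    (Finset.univ : Finset (ZMod m → Yy I S)).image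
      (fun o => ConjClasses.mk (W (UU gr o) 0)) with hT
  -- the decomposition into classes
  have hdec : EE gr A B R κ' = ∑ C ∈ T with R (rep C),
      EE gr A B (fun w => IsConj (rep C) w) κ' := by
    unfold EE
    rw [Finset.sum_filter]
    simp_rw [Finset.sum_filter (s := (Finset.univ : Finset (ZMod m → Yy I S)))]
    rw [Finset.sum_comm]
    apply Finset.sum_congr rfl
    intro o _
    by_cases ho : κ' (UU gr o) = 0
    · have h1 : ∀ C : ConjClasses Γ, (if RR gr (fun w => IsConj (rep C) w) o ∧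
          κ' (UU gr o) = 0 then wt A B o * ((κ' (VV gr o)).val : ℤ) else 0) =
          if ConjClasses.mk (W (UU gr o) 0) = C then
            wt A B o * ((κ' (VV gr o)).val : ℤ) else 0 := by
        intro C
        have h2 : (RR gr (fun w => IsConj (rep C) w) o ∧ κ' (UU gr o) = 0) ↔
            ConjClasses.mk (W (UU gr o) 0) = C := by
          rw [← isConj_out_iff]
          exact ⟨fun h3 => h3.1, fun h3 => ⟨h3, ho⟩⟩
        simp only [h2]
      simp_rw [h1]
      rw [Finset.sum_ite_eq]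
      by_cases hR' : RR gr R o
      · rw [if_pos ⟨hR', ho⟩, if_pos]
        rw [Finset.mem_filter]
        refine ⟨Finset.mem_image_of_mem _ (Finset.mem_univ o), ?_⟩
        exact (hRconj _ _ (isConj_out _)).2 hR'
      · rw [if_neg (fun hc => hR' hc.1), if_neg]
        rw [Finset.mem_filter]
        rintro ⟨_, h2⟩
        exact hR' ((hRconj _ _ (isConj_out _)).1 h2)
    · rw [if_neg (fun hc => ho hc.2)]
      symm
      apply Finset.sum_eq_zero
      intro C _
      rw [if_neg (fun hc => ho hc.2)]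
  rw [hdec]
  apply Finset.dvd_sum
  intro C hC
  rw [Finset.mem_filter] at hC
  refine ee_c hp h hn hA hB ?_ ?_ ?_ hm ?_
  · intro hc
    rw [hc] at hC
    exact hRcls.not_one hC.2
  · intro hc
    exact hPU _ hc hC.2
  · intro x hx
    exact hRcls.npow x ((hRconj _ _ hx).1 hC.2)
  · exact hκ'.mono (fun g hg => (hRconj _ _ hg).1 hC.2)

end main


end Run7.h186
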