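import Pool.Agent.Run7.h186.Stage

/-!
# The conditions for finitely generated subgroups of linear groups in characteristic zero
-/

set_option autoImplicit false
set_option linter.unusedSectionVars false

namespace Run7.h186

open Pool.Agent.Y72.Dt Pool.Agent.Y72.Log Pool.Agent.Y72.Un Pool.Agent.H23R2 H219.Wh

/-- the conditions on a finitely generated subgroup `H` outside the set `U` -/
theorem cu_of {Γ k : Type*} [Group Γ] [Field k] [CharZero k] {N : ℕ} (φ : Γ →* GL (Fin N) k)
    (hφ : Function.Injective φ) (htf : ∀ g : Γ, ∀ m : ℕ, 0 < m → g ^ m = 1 → g = 1) (U : Set Γ)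
    (h : ∀ H : Subgroup Γ, H.FG → ∀ g ∈ H, g ≠ 1 → g ∉ U → ∀ m : ℕ, 0 < m →
      IsNilpotent ((φ (g ^ m)).val - 1) →
        (∀ x ∈ H, ∀ y ∈ H, x * g = g * x → y * g = g * y → x * y = y * x) ∨
        ∃ f : Γ → ℤ, (∀ x ∈ H, ∀ y ∈ H, x * g = g * x → y * g = g * y →
          f (x * y) = f x + f y) ∧ f g ≠ 0) (H : Subgroup Γ) (hH : H.FG) :
    Cu H {x : H | (x : Γ) ∈ U} := by
  haveI : Group.FG H := (Group.fg_iff_subgroup_fg H).2 hH
  have htfH : ∀ g : H, ∀ m : ℕ, 0 < m → g ^ m = 1 → g = 1 := by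
    intro g m hm hg
    apply Subtype.ext
    apply htf g.1 m hm
    have := congrArg Subtype.val hg
    simpa using this
  have hinj : Function.Injective (φ.comp H.subtype) := hφ.comp H.subtype_injective
  refine ⟨htfH, ur_linear (φ.comp H.subtype) hinj, ?_, ?_⟩
  · intro c hc
    rcases cen_pt (φ.comp H.subtype) c with ⟨n, hn, h1⟩ | h1
    · exact fd_unip htfH (φ.comp H.subtype) hinj c hc hn h1
    · exact fd_ca h1
  · intro c hc hcU
    rcases cen_pt (φ.comp H.subtype) c with ⟨n, hn, h1⟩ | h1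
    · rcases h H hH c.1 c.2 (fun h0 => hc (Subtype.ext h0)) hcU n hn h1 with h2 | ⟨f, hf, hfg⟩
      · right
        intro x y hx hy
        exact Subtype.ext (h2 x.1 x.2 y.1 y.2 (congrArg Subtype.val hx) (congrArg Subtype.val hy))
      · left
        refine ⟨fun x => f x, ?_, hfg⟩
        intro x y hx hy
        exact hf x.1 x.2 y.1 y.2 (congrArg Subtype.val hx) (congrArg Subtype.val hy)
    · exact Or.inl h1

/-- elements of which no power is unipotent in some representation may be left out of `U` -/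
theorem Cu.shrink {H L : Type*} [Group H] [Group.FG H] [Field L] {d : ℕ} (ρ : H →* GL (Fin d) L)
    {U : Set H} (hn : Cu H U)
    (hρ : ∀ w ∈ U, ∀ m : ℕ, 0 < m → IsNilpotent ((ρ (w ^ m)).val - 1) →
      IsNilpotent ((ρ w).val - 1)) : Cu H {w ∈ U | IsNilpotent ((ρ w).val - 1)} where
  tf := hn.tf
  ur := hn.ur
  fd := hn.fd
  cl := by
    intro c hc hcU
    by_cases h : c ∈ U
    · rcases cen_pt ρ c with ⟨m, hm, h1⟩ | h1
      · exact absurd ⟨h, hρ c h m hm h1⟩ hcU
      · exact Or.inl h1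
    · exact hn.cl c hc h

end Run7.h186
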