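import Pool.Agent.Run7.h186.Aff3

/-!
# All representations of a finite group over algebraically closed fields of characteristic `l`
-/

set_option autoImplicit false
set_option linter.unusedSectionVars false

namespace Run7.h186

open MulAction Pool.Agent.Y72.Dt Pool.Agent.Y72.Log

universe u v

section orbits

variable {G : Type u} [Group G] {L : Type v} [Field L] {n : Type}
  [Fintype n] [DecidableEq n] {A : Matrix n n (MonoidAlgebra ℤ G)} {l : ℕ}

open scoped Classical in
/-- reduction to orbits -/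
theorem QX_orbits {X : Type u} [Finite X] [MulAction G X] (h : ∀ x : X, QX A L (orbit G x)) :
    QX A L X := by
  intro κ _ _ σ β hσ
  let e := Finite.equivFin (orbitRel.Quotient G X)
  let β' : κ → ℕ := fun k => e (Quotient.mk _ (β k))
  have hβ1 : ∀ g k j, σ g k j ≠ 0 → β' k = β' j := by
    intro g k j h0
    have h1 : (Quotient.mk (orbitRel G X) (β k)) = Quotient.mk (orbitRel G X) (β j) :=
      Quotient.sound ⟨g, (hσ g k j h0).symm⟩
    show ((e (Quotient.mk _ (β k)) : Fin _) : ℕ) = ((e (Quotient.mk _ (β j)) : Fin _) : ℕ)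
    rw [h1]
  have hβ : ∀ g, (σ g).BlockTriangular β' := by
    intro g k j hkj
    by_contra h0
    exact (lt_irrefl _) ((hβ1 g k j h0) ▸ hkj)
  rw [DD_tri σ β' hβ A, ← Finset.prod_pow]
  apply Finset.prod_eq_one
  intro k hk
  rw [Finset.mem_image] at hk
  obtain ⟨⟨a0, i0⟩, _, rfl⟩ := hk
  show DD (dgb σ β' hβ (β' i0)) A ^ 2 = 1
  have hmem : ∀ i, β' i = β' i0 → β i ∈ orbit G (β i0) := by
    intro i hi
    have h1 : e (Quotient.mk _ (β i)) = e (Quotient.mk _ (β i0)) := Fin.ext hi
    have h2 := e.injective h1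
    exact Quotient.exact h2
  refine h (β i0) {i // β' i = β' i0} (dgb σ β' hβ (β' i0)) (fun i => ⟨β i.1, hmem i.1 i.2⟩) ?_
  intro g i j h0
  apply Subtype.ext
  exact hσ g i.1 j.1 h0

end orbits

section trans

variable {G : Type u} [Group G] {X : Type u} [MulAction G X] [IsPretransitive G X] (x0 : X)
  {l : ℕ}

/-- a section of the orbit map -/
noncomputable def sct (x : X) : G := (exists_smul_eq G x0 x).choose

lemma sct_spec (x : X) : (sct x0 x : G) • x0 = x := (exists_smul_eq G x0 x).choose_spec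

/-- the cocycle of a section -/
noncomputable def ccl (g : G) (x : X) : stabilizer G x0 :=
  ⟨(sct x0 (g • x))⁻¹ * g * sct x0 x, by
    rw [mem_stabilizer_iff, mul_smul, sct_spec, mul_smul, inv_smul_eq_iff, sct_spec]⟩

lemma ccl_one (x : X) : ccl x0 (1 : G) x = 1 := by
  apply Subtype.ext
  show (sct x0 ((1 : G) • x))⁻¹ * 1 * sct x0 x = (1 : G)
  rw [one_smul, mul_one, inv_mul_cancel]

lemma ccl_mul (g h : G) (x : X) : ccl x0 (g * h) x = ccl x0 g (h • x) * ccl x0 h x := by
  apply Subtype.ext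
  show (sct x0 ((g * h) • x))⁻¹ * (g * h) * sct x0 x =
    ((sct x0 (g • h • x))⁻¹ * g * sct x0 (h • x)) * ((sct x0 (h • x))⁻¹ * h * sct x0 x)
  rw [mul_smul]
  group

/-- the affine bundle of an affine action of a stabiliser -/
noncomputable def bun (u b : stabilizer G x0 → ZMod l) (h1 : u 1 = 1)
    (h2 : ∀ g h, u (g * h) = u g * u h) (h3 : ∀ g h, b (g * h) = u g * b h + b g) :
    AffD l G X where
  u g x := u (ccl x0 g x)
  b g x := b (ccl x0 g x)
  u_one x := by rw [ccl_one, h1]
  u_mul g h x := by rw [ccl_mul, h2]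
  b_mul g h x := by rw [ccl_mul, h3]

/-- the stabilisers of the points of the total space -/
lemma bun_stab (u b : stabilizer G x0 → ZMod l) (h1 : u 1 = 1)
    (h2 : ∀ g h, u (g * h) = u g * u h) (h3 : ∀ g h, b (g * h) = u g * b h + b g)
    (h4 : ∀ a, ∃ g, u g * a + b g ≠ a) (z : ZZ (bun x0 u b h1 h2 h3)) :
    stabilizer G z < stabilizer G (z.1 : X) := by
  rw [lt_iff_le_and_ne]
  constructor
  · intro g hg
    rw [mem_stabilizer_iff] at hg ⊢
    exact congrArg Prod.fst hg
  · intro h
    obtain ⟨k, hk⟩ := h4 z.2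
    have h5 : (sct x0 z.1 * k.1 * (sct x0 z.1)⁻¹ : G) • (z.1 : X) = z.1 := by
      have h6 : (sct x0 z.1 : G)⁻¹ • (z.1 : X) = x0 := by
        rw [inv_smul_eq_iff, sct_spec]
      rw [mul_smul, mul_smul, h6, k.2, sct_spec]
    have h6 : (sct x0 z.1 * k.1 * (sct x0 z.1)⁻¹ : G) ∈ stabilizer G z := by
      rw [h]
      exact h5
    have h7 : ccl x0 (sct x0 z.1 * k.1 * (sct x0 z.1)⁻¹ : G) z.1 = k := by
      apply Subtype.ext
      show (sct x0 ((sct x0 z.1 * k.1 * (sct x0 z.1)⁻¹ : G) • (z.1 : X)))⁻¹ *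
        (sct x0 z.1 * k.1 * (sct x0 z.1)⁻¹ : G) * sct x0 z.1 = k.1
      rw [h5]
      group
    have h8 : (((sct x0 z.1 * k.1 * (sct x0 z.1)⁻¹ : G) • z).2 : ZMod l) = z.2 :=
      congrArg Prod.snd h6
    have h9 : u (ccl x0 (sct x0 z.1 * k.1 * (sct x0 z.1)⁻¹ : G) z.1) * z.2 +
      b (ccl x0 (sct x0 z.1 * k.1 * (sct x0 z.1)⁻¹ : G) z.1) = z.2 := h8
    rw [h7] at h9
    exact hk h9

end trans

section main

variable {G : Type u} [Group G] [Finite G] {L : Type v} [Field L] [IsAlgClosed L] {n : Type}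
  [Fintype n] [DecidableEq n] {A : Matrix n n (MonoidAlgebra ℤ G)} {l : ℕ} [hl : Fact l.Prime]
  [CharP L l]

/-- **sets with stabilisers in the class `Ec`** -/
theorem QX_ec (hA : TorOKl.{u, v} l A) {p : ℕ} [Fact p.Prime] (hpl : p ≠ l) :
    ∀ (N : ℕ) (X : Type u) [Finite X] [MulAction G X], (∀ x : X, Ec p (stabilizer G x)) →
      (∀ x : X, Nat.card (stabilizer G x) < N) → QX A L X := by
  intro N
  induction N with
  | zero =>
    intro X _ _ _ h
    apply QX_orbits
    intro x
    exact absurd (h x) (Nat.not_lt_zero _)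
  | succ N ih =>
    intro X _ _ hX hN
    apply QX_orbits
    intro x
    have hst : ∀ y : orbit G x, stabilizer G y = stabilizer G (y : X) := by
      intro y
      ext g
      rw [mem_stabilizer_iff, mem_stabilizer_iff]
      exact ⟨fun h => congrArg Subtype.val h, fun h => Subtype.ext h⟩
    have hX' : ∀ y : orbit G x, Ec p (stabilizer G y) := by
      intro y
      rw [hst]
      exact hX y
    have hN' : ∀ y : orbit G x, Nat.card (stabilizer G y) < N + 1 := by
      intro y
      rw [hst]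
      exact hN y
    by_cases h : ∃ y : orbit G x, l ∣ Nat.card (stabilizer G y)
    · obtain ⟨x0, hx0⟩ := h
      obtain ⟨u, b, h1, h2, h3, h4⟩ := exists_aff hpl (hX' x0) hx0
      let D : AffD l G (orbit G x) := bun x0 u b h1 h2 h3
      have hfin : Finite (ZZ D) := inferInstanceAs (Finite (orbit G x × ZMod l))
      apply QX_step D
      refine ih (ZZ D) ?_ ?_
      · intro z
        exact (hX' z.1).le (bun_stab x0 u b h1 h2 h3 h4 z).le
      · intro z
        have h5 := hN' z.1
        have h6 : Nat.card (stabilizer G z) < Nat.card (stabilizer G z.1) :=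
          Set.ncard_lt_ncard (bun_stab x0 u b h1 h2 h3 h4 z) (Set.toFinite _)
        omega
    · push Not at h
      apply QX_base hA (p := p) (fun y => (hX' y).ep)
      intro y g hg hlg
      apply h y
      refine dvd_trans hlg ?_
      have h1 : orderOf (⟨g, hg⟩ : stabilizer G y) = orderOf g :=
        (Subgroup.orderOf_coe (⟨g, hg⟩ : stabilizer G y)).symm
      rw [← h1]
      exact orderOf_dvd_natCard _

open scoped Classical in
/-- **all representations over algebraically closed fields of characteristic `l`** -/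
theorem fin_l (hA : TorOKl.{u, v} l A) {ι : Type} [Fintype ι] [DecidableEq ι]
    (ρ : G →* Matrix ι ι L) : DD ρ A ^ 2 = 1 := by
  have hq : ∀ (p : ℕ) (_ : Fact p.Prime) (_ : p ≠ l) (X : Type u) (_ : Fintype X)
      (_ : MulAction G X), (∀ x : X, Ec p (stabilizer G x)) → DD (tns X ρ) A ^ 2 = 1 := by
    intro p hp hpl X _ _ hX
    let e := Fintype.equivFin X
    let e' : ι × X ≃ ι × Fin (Fintype.card X) := Equiv.prodCongr (Equiv.refl ι) e
    have h1 := QX_ec (L := L) hA hpl (Nat.card G + 1) X hX (fun x =>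
      Nat.lt_succ_of_le (Nat.le_of_dvd Nat.card_pos (Subgroup.card_subgroup_dvd_card _)))
      (ι × Fin (Fintype.card X)) (rei e' (tns X ρ)) (fun y => e.symm y.2) (by
        rintro g ⟨i, x⟩ ⟨j, y⟩ h0
        rw [rei_apply] at h0
        have h2 : tns X ρ g (i, e.symm x) (j, e.symm y) ≠ 0 := h0
        rw [tns_apply] at h2
        by_contra hne
        apply h2
        have h3 : ¬ ((i, e.symm x) : ι × X).2 = g • ((j, e.symm y) : ι × X).2 := hne
        rw [if_neg h3, mul_zero])
    rwa [DD_rei] at h1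
  have key : ∀ p : ℕ, p.Prime → p ≠ l → ∃ m : ℕ, ¬ p ∣ m ∧ (DD ρ A ^ 2) ^ m = 1 := by
    intro p hp hpl
    have : Fact p.Prime := ⟨hp⟩
    obtain ⟨m, X, Y, i1, i2, i3, i4, hm, hX, hY, h⟩ := solomon_cyc (G := G) (p := p)
    cases nonempty_fintype X
    cases nonempty_fintype Y
    have h1 := DD_tns_shift ρ A m X Y h
    have h4 := hq p this hpl X inferInstance inferInstance hX
    have h5 := hq p this hpl Y inferInstance inferInstance hY
    refine ⟨m, hm, ?_⟩
    rw [h1, mul_pow, h5, mul_one, ← pow_mul, mul_comm, pow_mul] at h4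
    exact h4
  set y := DD ρ A ^ 2 with hy
  obtain ⟨p0, hp0, hp0l⟩ : ∃ p0 : ℕ, p0.Prime ∧ p0 ≠ l := by
    obtain ⟨q, hq, hq2⟩ := Nat.exists_infinite_primes (l + 1)
    exact ⟨q, hq2, by omega⟩
  obtain ⟨m0, hm0, hm01⟩ := key p0 hp0 hp0l
  have hm0' : m0 ≠ 0 := by
    rintro rfl
    exact hm0 (dvd_zero _)
  have hord : orderOf y ≠ 0 := by
    intro h
    have := orderOf_dvd_of_pow_eq_one hm01
    rw [h, zero_dvd_iff] at this
    exact hm0' this
  have h1 : ∀ {q : ℕ}, q.Prime → q ∣ orderOf y → q = l := by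
    intro q hq hqo
    by_contra hne
    obtain ⟨m, hm, h2⟩ := key q hq hne
    exact hm (hqo.trans (orderOf_dvd_of_pow_eq_one h2))
  have h2 := Nat.eq_prime_pow_of_unique_prime_dvd hord h1
  have h3 : y ^ l ^ (orderOf y).primeFactorsList.length = 1 := by
    rw [← h2, pow_orderOf_eq_one]
  have h4 : y ^ l ^ (orderOf y).primeFactorsList.length =
      1 ^ l ^ (orderOf y).primeFactorsList.length := by rw [h3, one_pow]
  exact iterateFrobenius_inj L l _ h4

end main

end Run7.h186
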