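import Pool.Agent.Run7.h186.Nf
import Mathlib.RingTheory.Algebraic.Basic

/-!
# Real parts of characters and roots of unity: arbitrary fields of characteristic zero
-/

set_option autoImplicit false
set_option linter.unusedSectionVars false
set_option synthInstance.maxHeartbeats 400000
set_option maxHeartbeats 1000000

namespace Run7.h186

open Finset Pool.Agent.Y72.Dt Pool.Agent.Y72.Log MulAction

universe u

/-- a representation with entries in a subalgebra -/
lemma exists_lift_alg {G : Type*} [Group G] {k F : Type*} [Field k] [Field F] [Algebra k F]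
    (A : Subalgebra k F) {d : ℕ} (σ : G →* Matrix (Fin d) (Fin d) F) (h : ∀ g i j, σ g i j ∈ A) :
    ∃ σA : G →* Matrix (Fin d) (Fin d) A, chg (A.val : A →+* F) σA = σ := by
  have hinj : Function.Injective ((A.val : A →+* F).mapMatrix :
      Matrix (Fin d) (Fin d) A →+* Matrix (Fin d) (Fin d) F) := by
    intro X Y hXY
    ext i j
    exact congrFun (congrFun hXY i) j
  let f : G → Matrix (Fin d) (Fin d) A := fun g => Matrix.of fun i j => ⟨σ g i j, h g i j⟩
  have hf : ∀ g, (A.val : A →+* F).mapMatrix (f g) = σ g := fun g => rfl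
  refine ⟨{ toFun := f, map_one' := ?_, map_mul' := ?_ }, ?_⟩
  · apply hinj
    rw [hf, map_one, map_one]
  · intro x y
    apply hinj
    rw [map_mul, hf, hf, hf, map_mul]
  · ext g i j
    rfl

/-- **arbitrary fields of characteristic zero** -/
theorem gf_part {G : Type u} {n : Type*} [Group G] [Fintype G] [Fintype n] [DecidableEq n]
    {F : Type*} [Field F] [CharZero F] (X : (Matrix n n (MonoidAlgebra ℤ G))ˣ)
    (V : Set G) (hV : ∀ v ∈ V, ∀ h, Into h v → h ∈ V) (hX : MCV V X) {d d' : ℕ}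
    (σ : G →* Matrix (Fin d) (Fin d) F) (τ : G →* Matrix (Fin d') (Fin d') F)
    (h : ∀ v ∈ V, ∃ q : ℚ, (σ v).trace + (σ v⁻¹).trace - ((τ v).trace + (τ v⁻¹).trace) = (q : F)) :
    ∃ N : ℕ, 0 < N ∧ DD σ X.val ^ N = DD τ X.val ^ N := by
  classical
  let s : Set F := Set.range (fun y : G × Fin d × Fin d => σ y.1 y.2.1 y.2.2) ∪
    Set.range (fun y : G × Fin d' × Fin d' => τ y.1 y.2.1 y.2.2)
  have hs : s.Finite := (Set.finite_range _).union (Set.finite_range _)
  let A : Subalgebra ℚ F := Algebra.adjoin ℚ s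
  have hAfg : A.FG := ⟨hs.toFinset, by rw [Set.Finite.coe_toFinset]⟩
  have hft : Algebra.FiniteType ℚ A := (Subalgebra.fg_iff_finiteType A).1 hAfg
  obtain ⟨σA, hσA⟩ := exists_lift_alg A σ (fun g i j => Algebra.subset_adjoin
    (Or.inl ⟨(g, i, j), rfl⟩))
  obtain ⟨τA, hτA⟩ := exists_lift_alg A τ (fun g i j => Algebra.subset_adjoin
    (Or.inr ⟨(g, i, j), rfl⟩))
  obtain ⟨m, hm⟩ := Ideal.exists_maximal A
  letI iA : Algebra ℚ (A ⧸ m) := Ideal.Quotient.algebra ℚ
  letI : Field (A ⧸ m) := Ideal.Quotient.field m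
  have hchar : CharZero (A ⧸ m) := algebraRat.charZero (A ⧸ m)
  have hft2 : Algebra.FiniteType ℚ (A ⧸ m) :=
    Algebra.FiniteType.of_surjective (Ideal.Quotient.mkₐ ℚ m)
      (Ideal.Quotient.mkₐ_surjective ℚ m)
  have hfin := finite_of_finite_type_of_isJacobsonRing ℚ (A ⧸ m)
  have hnf : NumberField (A ⧸ m) := by
    refine @NumberField.mk (A ⧸ m) _ hchar ?_
    have e : iA = DivisionRing.toRatAlgebra := Subsingleton.elim _ _
    rw [← e]
    exact hfin
  let π : A →+* A ⧸ m := Ideal.Quotient.mk m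
  have hval : ∀ z : A, (A.val : A →+* F) z = (z : F) := fun z => rfl
  obtain ⟨N, hN, h1⟩ := nf_part X V hV hX (chg π σA) (chg π τA) (by
    intro v hv
    obtain ⟨q, hq⟩ := h v hv
    refine ⟨q, ?_⟩
    have h2 : (σA v).trace + (σA v⁻¹).trace - ((τA v).trace + (τA v⁻¹).trace) =
        algebraMap ℚ A q := by
      apply Subtype.ext
      rw [← hσA, ← hτA] at hq
      simp only [chg_trace] at hq
      have h3 : ((algebraMap ℚ A q : A) : F) = (q : F) := by
        rw [Subalgebra.coe_algebraMap]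
        rfl
      rw [h3, ← hq]
      rfl
    simp only [chg_trace]
    rw [← map_add, ← map_add, ← map_sub, h2]
    have h4 : (q : A ⧸ m) = algebraMap ℚ (A ⧸ m) q := (eq_ratCast (algebraMap ℚ (A ⧸ m)) q).symm
    rw [h4]
    rfl)
  refine ⟨N, hN, ?_⟩
  rw [DD_chg, DD_chg, ← map_pow, ← map_pow, ← sub_eq_zero, ← map_sub] at h1
  rw [← hσA, ← hτA, DD_chg, DD_chg, ← map_pow, ← map_pow, ← sub_eq_zero, ← map_sub]
  by_contra hne
  set z : A := DD σA X.val ^ N - DD τA X.val ^ N with hz
  have hzint : IsIntegral ℤ (z : F) := by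
    have e1 : (z : F) = DD σ X.val ^ N - DD τ X.val ^ N := by
      rw [← hσA, ← hτA, DD_chg, DD_chg, ← map_pow, ← map_pow, ← map_sub]
      rfl
    rw [e1]
    exact ((DD_integral X.val σ).pow N).sub ((DD_integral X.val τ).pow N)
  have hzalg : IsAlgebraic ℚ (z : F) := (hzint.tower_top (A := ℚ)).isAlgebraic
  have hzinv := A.inv_mem_of_algebraic hzalg
  have h5 : z * ⟨(z : F)⁻¹, hzinv⟩ = 1 := by
    apply Subtype.ext
    show (z : F) * (z : F)⁻¹ = 1
    exact mul_inv_cancel₀ hne
  have h6 := congrArg π h5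
  rw [map_mul, h1, zero_mul, map_one] at h6
  exact zero_ne_one h6

end Run7.h186
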