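import Pool.Agent.Y149.CR.Lat

/-! Row sums with an angular factor. -/

set_option autoImplicit false

namespace Run7.h186.ML

open MeasureTheory Filter Topology
open Pool.Agent.Y149.CR (EM2 gc gc' hasDerivAt_gc norm_gc one_add_sq_pos continuous_gc continuous_gc')
open Pool.Agent.W165.RS (gs gs_le gs_nonneg)

noncomputable section

/-- `(t + i)^m (1 + t²)^{-(s + m/2)}` -/
def gm (m : ℕ) (s : ℂ) (t : ℝ) : ℂ := ((t : ℂ) + Complex.I) ^ m * gc (s + m / 2) t

/-- its derivative -/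
def gm' (m : ℕ) (s : ℂ) (t : ℝ) : ℂ :=
  (m : ℂ) * ((t : ℂ) + Complex.I) ^ (m - 1) * gc (s + m / 2) t +
    ((t : ℂ) + Complex.I) ^ m * gc' (s + m / 2) t

theorem norm_tI (t : ℝ) : ‖(t : ℂ) + Complex.I‖ = (1 + t ^ 2) ^ (1 / 2 : ℝ) := by
  rw [← Real.sqrt_eq_rpow, Complex.norm_def]
  congr 1
  simp [Complex.normSq_apply]
  ring

theorem norm_tI_pow (t : ℝ) (m : ℕ) : ‖((t : ℂ) + Complex.I) ^ m‖ = (1 + t ^ 2) ^ ((m : ℝ) / 2) := by
  rw [norm_pow, norm_tI, ← Real.rpow_natCast, ← Real.rpow_mul (one_add_sq_pos t).le]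
  congr 1
  ring

theorem hasDerivAt_gm (m : ℕ) (s : ℂ) (t : ℝ) : HasDerivAt (gm m s) (gm' m s t) t := by
  have h1 : HasDerivAt (fun t : ℝ => (t : ℂ) + Complex.I) 1 t := by
    simpa using (Complex.ofRealCLM.hasDerivAt (x := t)).add_const Complex.I
  have h2 := (h1.pow m).mul (hasDerivAt_gc (s + m / 2) t)
  refine h2.congr_deriv ?_
  unfold gm'
  simp

theorem re_add (m : ℕ) (s : ℂ) : (s + (m : ℂ) / 2).re = s.re + (m : ℝ) / 2 := by
  have : ((m : ℂ) / 2) = (((m : ℝ) / 2 : ℝ) : ℂ) := by push_cast; rfl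
  rw [Complex.add_re, this, Complex.ofReal_re]

theorem norm_gm (m : ℕ) (s : ℂ) (t : ℝ) : ‖gm m s t‖ = gs s.re t := by
  unfold gm
  rw [norm_mul, norm_tI_pow, norm_gc, re_add]
  unfold gs
  rw [← Real.rpow_add (one_add_sq_pos t)]
  congr 1
  ring

theorem norm_gm'_le (m : ℕ) {s : ℂ} (hs : 1 ≤ s.re) (t : ℝ) :
    ‖gm' m s t‖ ≤ (m + 2 * ‖s + m / 2‖) * (1 + t ^ 2)⁻¹ := by
  have h0 := one_add_sq_pos t
  have h1 : (1 : ℝ) ≤ 1 + t ^ 2 := by nlinarith [sq_nonneg t]
  unfold gm'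
  refine (norm_add_le _ _).trans ?_
  rw [add_mul]
  refine add_le_add ?_ ?_
  · rcases Nat.eq_zero_or_pos m with rfl | hm
    · simp
    rw [norm_mul, norm_mul, norm_tI_pow, norm_gc, re_add, Complex.norm_natCast, mul_assoc]
    refine mul_le_mul_of_nonneg_left ?_ (Nat.cast_nonneg _)
    unfold gs
    rw [← Real.rpow_add h0, ← Real.rpow_neg_one]
    refine Real.rpow_le_rpow_of_exponent_le h1 ?_
    rw [Nat.cast_sub hm, Nat.cast_one]
    linarith
  · unfold gc'
    rw [norm_mul, norm_mul, norm_mul, norm_neg, norm_tI_pow, Complex.norm_cpow_eq_rpow_re_of_pos h0,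
      Complex.norm_real, Real.norm_eq_abs, abs_mul, abs_of_pos (by norm_num : (0 : ℝ) < 2)]
    have h2 : |t| ≤ 1 + t ^ 2 := by
      rcases abs_cases t with ⟨h, _⟩ | ⟨h, _⟩ <;> rw [h] <;>
        nlinarith [sq_nonneg (t - 1), sq_nonneg (t + 1)]
    have e : (-(s + (m : ℂ) / 2) - 1).re = -(s.re + (m : ℝ) / 2) - 1 := by
      rw [Complex.sub_re, Complex.neg_re, re_add, Complex.one_re]
    rw [e]
    calc (1 + t ^ 2) ^ ((m : ℝ) / 2) * (‖s + (m : ℂ) / 2‖ * (2 * |t|) *
          (1 + t ^ 2) ^ (-(s.re + (m : ℝ) / 2) - 1))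
        = 2 * ‖s + (m : ℂ) / 2‖ * (|t| * ((1 + t ^ 2) ^ ((m : ℝ) / 2) *
          (1 + t ^ 2) ^ (-(s.re + (m : ℝ) / 2) - 1))) := by ring
      _ ≤ 2 * ‖s + (m : ℂ) / 2‖ * ((1 + t ^ 2) * (1 + t ^ 2) ^ (-2 : ℝ)) := by
          refine mul_le_mul_of_nonneg_left ?_ (by positivity)
          refine mul_le_mul h2 ?_ (by positivity) h0.le
          rw [← Real.rpow_add h0]
          exact Real.rpow_le_rpow_of_exponent_le h1 (by linarith)
      _ = 2 * ‖s + (m : ℂ) / 2‖ * (1 + t ^ 2)⁻¹ := by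
          rw [Real.rpow_neg h0.le, Real.rpow_two]
          field_simp

theorem continuous_gm (m : ℕ) (s : ℂ) : Continuous (gm m s) :=
  continuous_iff_continuousAt.2 fun x => (hasDerivAt_gm m s x).continuousAt

theorem continuous_gm' (m : ℕ) (s : ℂ) : Continuous (gm' m s) := by
  unfold gm'
  have h1 := continuous_gc (s + m / 2)
  have h2 := continuous_gc' (s + m / 2)
  exact ((by fun_prop : Continuous fun t : ℝ => (m : ℂ) * ((t : ℂ) + Complex.I) ^ (m - 1)).mul h1).add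
    ((by fun_prop : Continuous fun t : ℝ => ((t : ℂ) + Complex.I) ^ m).mul h2)

theorem integrable_gm (m : ℕ) {s : ℂ} (hs : 1 ≤ s.re) : Integrable (gm m s) := by
  refine integrable_inv_one_add_sq.mono' (continuous_gm m s).aestronglyMeasurable ?_
  exact Eventually.of_forall fun t => by
    rw [norm_gm]; exact gs_le hs t

theorem integrable_gm' (m : ℕ) {s : ℂ} (hs : 1 ≤ s.re) : Integrable (gm' m s) := by
  refine (integrable_inv_one_add_sq.const_mul (m + 2 * ‖s + m / 2‖)).mono'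
    (continuous_gm' m s).aestronglyMeasurable ?_
  exact Eventually.of_forall fun t => norm_gm'_le m hs t

/-- the integral -/
def Gm (m : ℕ) (s : ℂ) : ℂ := ∫ t, gm m s t

theorem norm_Gm_le (m : ℕ) {s : ℂ} (hs : 1 ≤ s.re) : ‖Gm m s‖ ≤ Real.pi := by
  rw [← integral_univ_inv_one_add_sq]
  refine (norm_integral_le_integral_norm _).trans ?_
  refine integral_mono (integrable_gm m hs).norm integrable_inv_one_add_sq fun t => ?_
  simp only
  rw [norm_gm]
  exact gs_le hs t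

theorem int_gm'_le (m : ℕ) {s : ℂ} (hs : 1 ≤ s.re) :
    ∫ t, ‖gm' m s t‖ ≤ (m + 2 * ‖s + m / 2‖) * Real.pi := by
  rw [← integral_univ_inv_one_add_sq, ← integral_const_mul]
  exact integral_mono (integrable_gm' m hs).norm (integrable_inv_one_add_sq.const_mul _)
    (norm_gm'_le m hs)

/-- **A row**, weighted by a periodic function. -/
theorem row {q : ℕ} [NeZero q] (m : ℕ) {s : ℂ} (hs : 1 ≤ s.re) (c : ZMod q → ℂ)
    (hc : ∀ r, ‖c r‖ ≤ 1) {y : ℝ} (hy : 0 < y) :
    Summable (fun x : ℤ => c x * gm m s (x / y)) ∧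
    ‖∑' x : ℤ, c x * gm m s (x / y) - (∑ r, c r) * ((y / q : ℝ) : ℂ) * Gm m s‖ ≤
      q * ((m + 2 * ‖s + m / 2‖) * Real.pi) := by
  classical
  have hq : (0 : ℝ) < q := by exact_mod_cast Nat.pos_of_ne_zero (NeZero.ne q)
  have hqz : (q : ℤ) ≠ 0 := by exact_mod_cast NeZero.ne q
  have hβ : 0 < (q : ℝ) / y := by positivity
  have key : ∀ r : ZMod q, ∃ Sr : ℂ,
      HasSum (fun x : ℤ => if (x : ZMod q) = r then gm m s (x / y) else 0) Sr ∧
      ‖Sr - ((y / q : ℝ) : ℂ) * Gm m s‖ ≤ (m + 2 * ‖s + m / 2‖) * Real.pi := by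
    intro r
    obtain ⟨h1, h2⟩ := EM2 (hasDerivAt_gm m s) (integrable_gm m hs) (integrable_gm' m hs) hβ
      ((r.val : ℝ) / y)
    refine ⟨∑' j : ℤ, gm m s ((q : ℝ) / y * j + (r.val : ℝ) / y), ?_, ?_⟩
    · have hinj : Function.Injective (fun j : ℤ => (r.val : ℤ) + q * j) := by
        intro j j' h
        simp only at h
        exact mul_left_cancel₀ hqz (by linarith)
      rw [← hinj.hasSum_iff]
      · refine h1.hasSum.congr_fun ?_ |> fun h => h
        intro j
        simp only [Function.comp_apply]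
        have e1 : ((((r.val : ℤ) + q * j : ℤ)) : ZMod q) = r := by
          push_cast
          simp
        rw [if_pos e1]
        congr 1
        push_cast
        field_simp
        ring
      · intro x hx
        rw [if_neg]
        intro hxr
        apply hx
        have h1 : ((x : ℤ) : ZMod q) = ((r.val : ℤ) : ZMod q) := by
          rw [hxr, Int.cast_natCast, ZMod.natCast_zmod_val]
        rw [ZMod.intCast_eq_intCast_iff] at h1
        obtain ⟨k, hk⟩ := h1.symm.dvd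
        exact ⟨k, by simp only; linarith⟩
    · refine le_trans (le_of_eq ?_) (h2.trans (int_gm'_le m hs))
      congr 2
      unfold Gm
      rw [inv_div]
  choose Sr h1 h2 using key
  have h3 : HasSum (fun x : ℤ => ∑ r, c r * (if (x : ZMod q) = r then gm m s (x / y) else 0))
      (∑ r, c r * Sr r) := hasSum_sum fun r _ => (h1 r).mul_left (c r)
  have e1 : (fun x : ℤ => ∑ r, c r * (if (x : ZMod q) = r then gm m s (x / y) else 0)) =
      fun x : ℤ => c x * gm m s (x / y) := by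
    funext x
    rw [Finset.sum_eq_single (x : ZMod q)]
    · rw [if_pos rfl]
    · intro r _ hr
      rw [if_neg (Ne.symm hr), mul_zero]
    · intro h
      exact absurd (Finset.mem_univ _) h
  rw [e1] at h3
  refine ⟨h3.summable, ?_⟩
  rw [h3.tsum_eq, mul_assoc, Finset.sum_mul, ← Finset.sum_sub_distrib]
  have h4 : ∀ r ∈ (Finset.univ : Finset (ZMod q)),
      ‖c r * Sr r - c r * (((y / q : ℝ) : ℂ) * Gm m s)‖ ≤ (m + 2 * ‖s + m / 2‖) * Real.pi := by
    intro r _
    rw [← mul_sub, norm_mul]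
    calc ‖c r‖ * ‖Sr r - ((y / q : ℝ) : ℂ) * Gm m s‖ ≤ 1 * ((m + 2 * ‖s + m / 2‖) * Real.pi) := by
          exact mul_le_mul (hc r) (h2 r) (norm_nonneg _) zero_le_one
      _ = _ := one_mul _
  refine (norm_sum_le _ _).trans ((Finset.sum_le_sum h4).trans (le_of_eq ?_))
  rw [Finset.sum_const, Finset.card_univ, ZMod.card, nsmul_eq_mul]

end

end Run7.h186.ML
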