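import Pool.Agent.Run7.h186.ML9
import Pool.Agent.Run7.h186.CMDefs

/-! Hecke characters of `ℚ(i)`. -/

set_option autoImplicit false

namespace Run7.h186.CM

open Filter Topology Complex ComplexConjugate
open Pool.Agent.H304R3.HK (tc CS bb UH ee)
open Pool.Agent.H304R3.HK.M3 (h_neg roots)
open Pool.Agent.H341R2 (E lam lam_bounded)
open Run7.h186.ML

noncomputable section

theorem toC_eq (a : GaussianInt) : GaussianInt.toComplex a = tc a := by
  rw [GaussianInt.toComplex_def]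
  rfl

/-- a power of an element prime to the modulus is congruent to one -/
theorem exists_pow {q : ℕ} (hq : 0 < q) {a : GaussianInt} (ha : IsCoprime a (q : GaussianInt)) :
    ∃ k : ℕ, 0 < k ∧ (q : GaussianInt) ∣ a ^ k - 1 := by
  haveI : NeZero q := ⟨hq.ne'⟩
  obtain ⟨i, j, hij, h⟩ := Finite.exists_ne_map_eq_of_infinite
    (fun k : ℕ => ((((a ^ k).re : ℤ) : ZMod q), (((a ^ k).im : ℤ) : ZMod q)))
  have key : ∀ i j : ℕ, i < j → (q : GaussianInt) ∣ a ^ j - a ^ i →
      ∃ k : ℕ, 0 < k ∧ (q : GaussianInt) ∣ a ^ k - 1 := by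
    intro i j hij h
    refine ⟨j - i, by omega, ?_⟩
    have e : a ^ j - a ^ i = a ^ i * (a ^ (j - i) - 1) := by
      rw [mul_sub, mul_one, ← pow_add]
      congr 2
      omega
    rw [e] at h
    exact (ha.symm.pow_right (n := i)).dvd_of_dvd_mul_left h
  simp only [Prod.mk.injEq] at h
  rcases lt_or_gt_of_ne hij with h1 | h1
  · exact key i j h1 (dvd_iff.2 ⟨h.1.symm, h.2.symm⟩)
  · exact key j i h1 (dvd_iff.2 ⟨h.1, h.2⟩)

theorem tc_pow (a : GaussianInt) (k : ℕ) : tc (a ^ k) = tc a ^ k := by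
  induction k with
  | zero => rw [pow_zero, pow_zero, tc_one]
  | succ k ih => rw [pow_succ, pow_succ, tc_mul, ih]

variable (ψ : HeckeChar)

theorem HeckeChar.norm_val {a : GaussianInt} (ha : IsCoprime a (ψ.modulus : GaussianInt)) :
    ‖ψ.val a‖ = ‖tc a‖ ^ ψ.type := by
  obtain ⟨k, hk, h1⟩ := exists_pow ψ.modulus_pos ha
  have h2 := ψ.inf _ h1
  rw [toC_eq, map_pow, tc_pow] at h2
  have h3 := congrArg norm h2
  rw [norm_pow, norm_pow, norm_pow, ← pow_mul, mul_comm k, pow_mul] at h3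
  exact (pow_left_inj₀ (norm_nonneg _) (by positivity) hk.ne').1 h3

theorem HeckeChar.val_zero' {a : GaussianInt} (ha : ¬ IsCoprime a (ψ.modulus : GaussianInt)) :
    ψ.val a = 0 := by
  rcases eq_or_ne a 0 with rfl | h0
  · exact ψ.zero
  · by_contra h
    exact ha ((ψ.supp a h0).1 h)

/-- the normalised character -/
def nh : GaussianInt →* ℂ where
  toFun a := ψ.val a / ((‖tc a‖ : ℝ) : ℂ) ^ ψ.type
  map_one' := by simp [tc_one]
  map_mul' := by
    intro a b
    rw [map_mul, tc_mul, norm_mul]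
    push_cast
    rw [mul_pow, mul_div_mul_comm]

theorem nh_apply (a : GaussianInt) : nh ψ a = ψ.val a / ((‖tc a‖ : ℝ) : ℂ) ^ ψ.type := rfl

theorem nh_UH : UH (nh ψ) := by
  refine ⟨?_, fun a => ?_, ?_⟩
  · rw [nh_apply, ψ.zero, zero_div]
  · rw [nh_apply]
    by_cases ha : IsCoprime a (ψ.modulus : GaussianInt)
    · rw [norm_div, norm_pow, Complex.norm_real, norm_norm, ψ.norm_val ha]
      exact div_self_le_one _
    · rw [ψ.val_zero' ha, zero_div, norm_zero]
      exact zero_le_one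
  · have e : tc ⟨0, 1⟩ = I := by simp [tc]
    rw [nh_apply, ψ.unit, e, Complex.norm_I]
    simp

theorem nh_norm {a : GaussianInt} (h0 : a ≠ 0) (ha : IsCoprime a (ψ.modulus : GaussianInt)) :
    ‖nh ψ a‖ = 1 := by
  rw [nh_apply, norm_div, norm_pow, Complex.norm_real, norm_norm, ψ.norm_val ha]
  exact div_self (pow_ne_zero _ (norm_ne_zero_iff.2 (tc_ne h0)))

theorem coprime_congr {q : ℕ} {a b : GaussianInt} (h : (q : GaussianInt) ∣ a - b)
    (ha : IsCoprime a (q : GaussianInt)) : IsCoprime b (q : GaussianInt) := by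
  obtain ⟨c, hc⟩ := h
  obtain ⟨u, v, huv⟩ := ha
  refine ⟨u, v + u * c, ?_⟩
  linear_combination huv - u * hc

theorem nh_PT : PT (nh ψ) ψ.type ψ.modulus := by
  intro a b ha hb hab
  rw [zpow_natCast, zpow_natCast]
  by_cases hc : IsCoprime a (ψ.modulus : GaussianInt)
  · obtain ⟨k, hk, h1⟩ := exists_pow ψ.modulus_pos hc
    obtain ⟨j, rfl⟩ : ∃ j, k = j + 1 := ⟨k - 1, by omega⟩
    have h2 : (ψ.modulus : GaussianInt) ∣ a ^ j * a - 1 := by rwa [← pow_succ]
    have h3 : (ψ.modulus : GaussianInt) ∣ a ^ j * b - 1 := by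
      have e : a ^ j * b - 1 = (a ^ j * a - 1) - a ^ j * (a - b) := by ring
      rw [e]
      exact dvd_sub h2 (Dvd.dvd.mul_left hab _)
    have h4 := ψ.inf _ h2
    have h5 := ψ.inf _ h3
    rw [toC_eq, map_mul, tc_mul, mul_pow] at h4 h5
    have hpc : IsCoprime (a ^ j) (ψ.modulus : GaussianInt) := hc.pow_left
    have h6 : ψ.val (a ^ j) ≠ 0 := (ψ.supp _ (pow_ne_zero _ ha)).2 hpc
    have h7 : ψ.val a * tc b ^ ψ.type = ψ.val b * tc a ^ ψ.type := by
      refine mul_left_cancel₀ h6 ?_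
      linear_combination tc b ^ ψ.type * h4 - tc a ^ ψ.type * h5
    rw [nh_apply, nh_apply]
    unfold phs
    rw [div_pow, div_pow, div_mul_div_comm, div_mul_div_comm, h7]
    congr 1
    ring
  · have hc' : ¬ IsCoprime b (ψ.modulus : GaussianInt) := by
      intro h
      refine hc (coprime_congr ?_ h)
      rw [← neg_sub]
      exact (dvd_neg).2 hab
    rw [nh_apply, nh_apply, ψ.val_zero' hc, ψ.val_zero' hc']
    simp

/-- the family of functions on the primes -/
def fam {ι : Type} (ψ : ι → HeckeChar) (x : ι × ℝ) : Nat.Primes → ℂ := uu (nh (ψ x.1)) x.2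

theorem isCoprime_left {q q' : ℕ} {a : GaussianInt} (h : IsCoprime a ((q * q' : ℕ) : GaussianInt)) :
    IsCoprime a (q : GaussianInt) ∧ IsCoprime a (q' : GaussianInt) := by
  push_cast at h
  exact ⟨h.of_mul_right_left, h.of_mul_right_right⟩

theorem star_coprime {q : ℕ} {a : GaussianInt} (h : IsCoprime a (q : GaussianInt)) :
    IsCoprime (star a) (q : GaussianInt) := by
  obtain ⟨u, v, huv⟩ := h
  refine ⟨star u, star v, ?_⟩
  have := congrArg star huv
  rw [star_add, star_mul, star_mul, star_natCast, star_one] at this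
  rw [← this]
  ring

/-- values which differ give a nontrivial quotient -/
theorem ne_one_of {ψ ψ' : HeckeChar} {a a' : GaussianInt} (ht : ψ.type = ψ'.type)
    (hn : ‖tc a‖ = ‖tc a'‖) (h0 : a ≠ 0) (h0' : a' ≠ 0)
    (ha' : IsCoprime a' (ψ'.modulus : GaussianInt)) (hne : ψ.val a ≠ ψ'.val a') :
    nh ψ a * conj (nh ψ' a') ≠ 1 := by
  intro h4
  apply hne
  have h5 : nh ψ a = nh ψ' a' := by
    have h6 : nh ψ' a' * conj (nh ψ' a') = 1 := by
      rw [Complex.mul_conj, Complex.normSq_eq_norm_sq, nh_norm _ h0' ha']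
      norm_num
    have h7 : conj (nh ψ' a') ≠ 0 := by
      intro h
      rw [h, mul_zero] at h6
      exact zero_ne_one h6
    exact mul_right_cancel₀ h7 (h4.trans h6.symm)
  rw [nh_apply, nh_apply, ht, hn] at h5
  have h8 : ((‖tc a'‖ : ℝ) : ℂ) ^ ψ'.type ≠ 0 := by
    refine pow_ne_zero _ ?_
    exact_mod_cast norm_ne_zero_iff.2 (tc_ne h0')
  exact (div_left_inj' h8).1 h5

/-- **The family of the Hecke characters.** -/
theorem fam_CFam {ι : Type} {ψ : ι → HeckeChar} (hI : ∀ e, Irr (ψ e))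
    (hψ : ∀ e e', e ≠ e' → Differ (ψ e) (ψ e')) : CFam (fam ψ) 2 := by
  refine ⟨fun x p => norm_uu (nh_UH _) _ _, fun x => ?_, fun x y hxy => ?_⟩
  · have H := nh_UH (ψ x.1)
    have P := nh_PT (ψ x.1)
    have hq : (ψ x.1).modulus * (ψ x.1).modulus ≠ 0 := by
      have := (ψ x.1).modulus_pos
      positivity
    have P1 := PT.mul' P (PT.cj P)
    rw [add_neg_cancel] at P1
    obtain ⟨C, hC⟩ := E_char0 (UH.mul H (UH.cj H)) hq P1
    have hcase : (0 : ℝ) ≠ 0 ∨ ((ψ x.1).type : ℤ) + ((ψ x.1).type : ℤ) ≠ 0 ∨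
        ∃ a : GaussianInt, a ≠ 0 ∧
          IsCoprime a (((ψ x.1).modulus * (ψ x.1).modulus : ℕ) : GaussianInt) ∧
          (nh (ψ x.1) * sj (nh (ψ x.1)) : GaussianInt →* ℂ) a ≠ 1 := by
      rcases hI x.1 with h1 | ⟨a, ha0, ha, hne⟩
      · exact Or.inr (Or.inl (by omega))
      · refine Or.inr (Or.inr ⟨a, ha0, ?_, ?_⟩)
        · push_cast
          exact ha.mul_right ha
        · rw [MonoidHom.mul_apply, sj_apply]
          exact ne_one_of rfl (by rw [tc_star, Complex.norm_conj]) ha0 (star_ne_zero.2 ha0)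
            (star_coprime ha) hne
    obtain ⟨D, hD⟩ := E_char (UH.mul H (UH.sj H)) hq (PT.mul' P (PT.sj P)) hcase
    have h1 := E_corr H H x.2 x.2 (A := fun ε => lam ε + C) (B := fun _ => D)
      (by rw [sub_self]; exact hC) (by rw [sub_self]; exact hD)
    exact ⟨C + D + 2, h1.mono fun ε h2 => by
      have e : (fun p => (fam ψ x p * conj (fam ψ x p)).re) =
        fun p => (uu (nh (ψ x.1)) x.2 p * conj (uu (nh (ψ x.1)) x.2 p)).re := rfl
      rw [e]
      linarith⟩
  · have H := nh_UH (ψ x.1)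
    have P := nh_PT (ψ x.1)
    have H' := nh_UH (ψ y.1)
    have P' := nh_PT (ψ y.1)
    have hq : (ψ x.1).modulus * (ψ y.1).modulus ≠ 0 := by
      have h1 := (ψ x.1).modulus_pos
      have h2 := (ψ y.1).modulus_pos
      positivity
    have hcase : x.2 - y.2 ≠ 0 ∨ ((ψ x.1).type : ℤ) + -((ψ y.1).type : ℤ) ≠ 0 ∨
        ∃ a : GaussianInt, a ≠ 0 ∧
          IsCoprime a (((ψ x.1).modulus * (ψ y.1).modulus : ℕ) : GaussianInt) ∧
          (nh (ψ x.1) * cj (nh (ψ y.1)) : GaussianInt →* ℂ) a ≠ 1 := by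
      by_cases h2 : x.2 = y.2
      · have h1 : x.1 ≠ y.1 := fun h1 => hxy (Prod.ext h1 h2)
        by_cases h3 : (ψ x.1).type = (ψ y.1).type
        · obtain ⟨⟨a, ha0, ha, hne⟩, -⟩ := hψ _ _ h1
          refine Or.inr (Or.inr ⟨a, ha0, ha, ?_⟩)
          rw [MonoidHom.mul_apply, cj_apply]
          exact ne_one_of h3 rfl ha0 ha0 (isCoprime_left ha).2 hne
        · exact Or.inr (Or.inl (by omega))
      · exact Or.inl (sub_ne_zero.2 h2)
    have hcase' : x.2 - y.2 ≠ 0 ∨ ((ψ x.1).type : ℤ) + ((ψ y.1).type : ℤ) ≠ 0 ∨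
        ∃ a : GaussianInt, a ≠ 0 ∧
          IsCoprime a (((ψ x.1).modulus * (ψ y.1).modulus : ℕ) : GaussianInt) ∧
          (nh (ψ x.1) * sj (nh (ψ y.1)) : GaussianInt →* ℂ) a ≠ 1 := by
      by_cases h2 : x.2 = y.2
      · have h1 : x.1 ≠ y.1 := fun h1 => hxy (Prod.ext h1 h2)
        by_cases h3 : ((ψ x.1).type : ℤ) + ((ψ y.1).type : ℤ) = 0
        · rcases (hψ _ _ h1).2 with h4 | ⟨a, ha0, ha, hne⟩
          · exact absurd h3 (by omega)
          · refine Or.inr (Or.inr ⟨a, ha0, ha, ?_⟩)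
            rw [MonoidHom.mul_apply, sj_apply]
            exact ne_one_of (by omega) (by rw [tc_star, Complex.norm_conj]) ha0
              (star_ne_zero.2 ha0) (star_coprime (isCoprime_left ha).2) hne
        · exact Or.inr (Or.inl h3)
      · exact Or.inl (sub_ne_zero.2 h2)
    obtain ⟨C, hC⟩ := E_char (UH.mul H (UH.cj H')) hq (PT.mul' P (PT.cj P')) hcase
    obtain ⟨D, hD⟩ := E_char (UH.mul H (UH.sj H')) hq (PT.mul' P (PT.sj P')) hcase'
    have h1 := E_corr H H' x.2 y.2 (A := fun _ => C) (B := fun _ => D) hC hD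
    exact ⟨C + D + 2, h1⟩

end

end Run7.h186.CM
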