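import Pool.Agent.Run7.h186.ML10
import Pool.Agent.Y149.TL.Core

/-! The mean square for an arbitrary pure system twisted by the Hecke characters. -/

set_option autoImplicit false

namespace Run7.h186.CM

open Finset Filter Topology Complex ComplexConjugate Polynomial
open Pool.Agent.H304R3.HK (tc CS bb UH ee)
open Pool.Agent.H304R3.HK.M3 (h_neg roots)
open Pool.Agent.H341R2 (E lam lam_bounded)
open Pool.Agent.Y149.CM (LFun)
open Pool.Agent.Y149.PK (tens sq_perturb)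
open Pool.Agent.Y149.TL
open Run7.h186.ML

noncomputable section

theorem norm_tc_CS {n : ℕ} {z : ℤ × ℤ} (hz : z ∈ CS n) : ‖tc ⟨z.1, z.2⟩‖ = Real.sqrt n := by
  have h1 := normSq_tc z.1 z.2
  have h2 := nm_cast z
  rw [mem_CS.1 hz] at h2
  rw [← h2] at h1
  rw [← h1, Real.sqrt_sq (norm_nonneg _)]

theorem bb_val (ψ : HeckeChar) {n : ℕ} (hn : 0 < n) :
    bb ψ.val n = ((Real.sqrt n ^ ψ.type : ℝ) : ℂ) * bb (nh ψ) n := by
  have hs : (0 : ℝ) < Real.sqrt n := Real.sqrt_pos.2 (by exact_mod_cast hn)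
  have hsc : ((Real.sqrt n : ℝ) : ℂ) ^ ψ.type ≠ 0 := pow_ne_zero _ (by exact_mod_cast hs.ne')
  have e : ∀ z ∈ CS n, ψ.val ⟨z.1, z.2⟩ =
      ((Real.sqrt n ^ ψ.type : ℝ) : ℂ) * nh ψ ⟨z.1, z.2⟩ := by
    intro z hz
    rw [nh_apply, norm_tc_CS hz, Complex.ofReal_pow]
    field_simp
  unfold bb
  rw [Finset.sum_congr rfl e, ← Finset.mul_sum]
  ring

/-- the good primes -/
theorem good (ψ : HeckeChar) : ∀ᶠ p : Nat.Primes in cofinite, ¬ (p : ℕ) ∣ 2 * ψ.modulus := by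
  have hne : 2 * ψ.modulus ≠ 0 := by
    have := ψ.modulus_pos
    positivity
  rw [eventually_cofinite]
  have h1 : Set.Finite {p : Nat.Primes | (p : ℕ) ∈ (2 * ψ.modulus).divisors} :=
    Set.Finite.preimage Subtype.val_injective.injOn (Finset.finite_toSet _)
  refine h1.subset fun p hp => ?_
  rw [Set.mem_ofPred_eq, not_not] at hp
  exact Nat.mem_divisors.2 ⟨hp, hne⟩

theorem coprime_p {f p : ℕ} (hp : p.Prime) (h : ¬ p ∣ f) :
    IsCoprime (p : GaussianInt) (f : GaussianInt) := by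
  have h1 : Nat.Coprime p f := (Nat.Prime.coprime_iff_not_dvd hp).2 h
  have h2 := (Nat.isCoprime_iff_coprime.2 h1).map (Int.castRingHom GaussianInt)
  simpa using h2

theorem frob_eq (ψ : HeckeChar) (p : Nat.Primes) (hp : ¬ (p : ℕ) ∣ 2 * ψ.modulus) :
    ∃ u v : ℂ, ‖u‖ = 1 ∧ ‖v‖ = 1 ∧ u + v = bb (nh ψ) p ∧
      frobInd ψ p = {((Real.sqrt (p : ℕ) ^ ψ.type : ℝ) : ℂ) * u,
        ((Real.sqrt (p : ℕ) ^ ψ.type : ℝ) : ℂ) * v} := by
  have hp2 : (p : ℕ) ≠ 2 := by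
    intro h
    exact hp (h ▸ Dvd.intro _ rfl)
  have hpf : ¬ (p : ℕ) ∣ ψ.modulus := fun h => hp (Dvd.dvd.mul_left h _)
  obtain ⟨u, v, hu, hv, hs, he⟩ := roots (nh_UH ψ) (UH.In (nh_UH ψ)) p p.2
  have hp0 : ((p : ℕ) : GaussianInt) ≠ 0 := by exact_mod_cast p.2.ne_zero
  have hn1 : ‖nh ψ ((p : ℕ) : GaussianInt)‖ = 1 := nh_norm ψ hp0 (coprime_p p.2 hpf)
  have hmod : (p : ℕ) % 4 = 1 ∨ (p : ℕ) % 4 = 3 := by
    rcases Pool.Agent.H304R3.HK.M3.p_cases p.2 with h | ⟨_, h⟩ | ⟨_, h⟩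
    · exact absurd h hp2
    · exact Or.inr h
    · exact Or.inl h
  have hee : ee (nh ψ) p = (ZMod.χ₄ (((p : ℕ)) : ZMod 4) : ℂ) * nh ψ ((p : ℕ) : GaussianInt) := by
    unfold ee
    rw [if_neg hp2, ZMod.χ₄_nat_eq_if_mod_four]
    rcases hmod with h | h
    · rw [if_neg (by omega), if_neg (by omega), if_pos h]
      simp
    · rw [if_pos h, if_neg (by omega), if_neg (by omega)]
      simp
  have hen : ‖ee (nh ψ) p‖ = 1 := by
    unfold ee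
    rw [if_neg hp2]
    split_ifs
    · rw [norm_neg]; exact hn1
    · exact hn1
  have huv : ‖u‖ * ‖v‖ = 1 := by rw [← norm_mul, he, hen]
  have hu1 : ‖u‖ = 1 := by nlinarith [norm_nonneg u, norm_nonneg v]
  have hv1 : ‖v‖ = 1 := by rw [hu1, one_mul] at huv; exact huv
  refine ⟨u, v, hu1, hv1, hs, ?_⟩
  set P : ℂ := ((Real.sqrt (p : ℕ) ^ ψ.type : ℝ) : ℂ) with hP
  have hval : ψ.val ((p : ℕ) : GaussianInt) = P ^ 2 * nh ψ ((p : ℕ) : GaussianInt) := by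
    have e1 : tc ((p : ℕ) : GaussianInt) = ((p : ℕ) : ℂ) := by
      unfold tc
      rw [Zsqrtd.re_natCast, Zsqrtd.im_natCast]
      simp
    have hpp : (0 : ℝ) < ((p : ℕ) : ℝ) := by exact_mod_cast p.2.pos
    rw [nh_apply, e1, Complex.norm_natCast]
    have e2 : P ^ 2 = (((p : ℕ) : ℝ) : ℂ) ^ ψ.type := by
      rw [hP, ← Complex.ofReal_pow, ← pow_mul, mul_comm, pow_mul, Real.sq_sqrt hpp.le,
        Complex.ofReal_pow]
    rw [e2, mul_div_cancel₀]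
    exact pow_ne_zero _ (by exact_mod_cast hpp.ne')
  unfold frobInd
  rw [bb_val ψ p.2.pos, hval, ← hs]
  have e3 : (ZMod.χ₄ (((p : ℕ)) : ZMod 4) : ℂ) * (P ^ 2 * nh ψ ((p : ℕ) : GaussianInt)) =
      (P * u) * (P * v) := by
    linear_combination (-(P ^ 2)) * hee + P ^ 2 * (-he)
  have e4 : (X ^ 2 - C (P * (u + v)) * X +
      C ((ZMod.χ₄ (((p : ℕ)) : ZMod 4) : ℂ) * (P ^ 2 * nh ψ ((p : ℕ) : GaussianInt))) : ℂ[X]) =
      (X - C (P * u)) * (X - C (P * v)) := by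
    rw [e3]
    simp only [map_mul, map_add]
    ring
  rw [e4, Polynomial.roots_mul (mul_ne_zero (X_sub_C_ne_zero _) (X_sub_C_ne_zero _)),
    roots_X_sub_C, roots_X_sub_C]
  rfl

theorem sqrt_pow_eq (m : ℕ) (p : Nat.Primes) :
    Real.sqrt (p : ℕ) ^ m = ((p : ℕ) : ℝ) ^ (((m : ℤ) : ℝ) / 2) := by
  have hpp : (0 : ℝ) < ((p : ℕ) : ℝ) := by exact_mod_cast p.2.pos
  rw [Real.sqrt_eq_rpow, ← Real.rpow_natCast, ← Real.rpow_mul hpp.le]
  congr 1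
  push_cast
  ring

theorem frobInd_pure (ψ : HeckeChar) (p : Nat.Primes) (hp : ¬ (p : ℕ) ∣ 2 * ψ.modulus) :
    Pure ψ.type 2 p (frobInd ψ p) := by
  obtain ⟨u, v, hu, hv, -, hf⟩ := frob_eq ψ p hp
  have hs : 0 ≤ Real.sqrt (p : ℕ) ^ ψ.type := by positivity
  have key : ∀ w : ℂ, ‖w‖ = 1 → ‖((Real.sqrt (p : ℕ) ^ ψ.type : ℝ) : ℂ) * w‖ =
      ((p : ℕ) : ℝ) ^ (((ψ.type : ℤ) : ℝ) / 2) := by
    intro w hw
    rw [norm_mul, hw, mul_one, Complex.norm_real, Real.norm_of_nonneg hs, sqrt_pow_eq]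
  rw [hf]
  refine ⟨fun z hz => ?_, by simp⟩
  simp only [Multiset.insert_eq_cons, Multiset.mem_cons, Multiset.mem_singleton] at hz
  rcases hz with rfl | rfl
  · exact key u hu
  · exact key v hv

theorem frobInd_sum (ψ : HeckeChar) (p : Nat.Primes) (hp : ¬ (p : ℕ) ∣ 2 * ψ.modulus) :
    (frobInd ψ p).sum = ((((p : ℕ) : ℝ) ^ (((ψ.type : ℤ) : ℝ) / 2) : ℝ) : ℂ) * bb (nh ψ) p := by
  obtain ⟨u, v, -, -, hs, hf⟩ := frob_eq ψ p hp
  rw [hf, ← hs, ← sqrt_pow_eq]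
  simp only [Multiset.insert_eq_cons, Multiset.sum_cons, Multiset.sum_singleton]
  ring

/-- positive parts -/
theorem max_perturb {α : Type} (S : Finset α) (x y : α → ℝ → ℝ) (K : ℝ) (hK : 0 ≤ K)
    (h : ∀ η : ℝ, 0 < η → ∀ᶠ ε : ℝ in 𝓝[>] 0, ∑ l ∈ S, (max (x l ε) 0) ^ 2 ≤ K + η)
    (hy : ∀ l ∈ S, Tendsto (fun ε => y l ε - x l ε) (𝓝[>] 0) (𝓝 0)) {η : ℝ} (hη : 0 < η) :
    ∀ᶠ ε : ℝ in 𝓝[>] 0, ∑ l ∈ S, (max (y l ε) 0) ^ 2 ≤ K + η := by
  refine sq_perturb S (fun l ε => max (x l ε) 0) (fun l ε => max (y l ε) 0) K hK h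
    (fun l hl => ?_) hη
  have h1 := (tendsto_zero_iff_abs_tendsto_zero _).1 (hy l hl)
  refine squeeze_zero_norm (fun ε => ?_) h1
  rw [Real.norm_eq_abs]
  exact abs_max_sub_max_le_abs _ _ _

section
variable {ι : Type} {ψ : ι → HeckeChar} {w : ℤ} {N : ℕ} {δ : Nat.Primes → Multiset ℂ}

/-- **The mean square.** -/
theorem one_mean (hI : ∀ e, Irr (ψ e)) (hψ : ∀ e e', e ≠ e' → Differ (ψ e) (ψ e'))
    (hδ : ∀ᶠ p in cofinite, Pure w N p (δ p))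
    (S : Finset (ι × ℝ)) {B : ι × ℝ → Nat.Primes → ℂ[X]} (hB : ∀ x ∈ S,
      IsEuler (w + (ψ x.1).type) (fun p => tens (δ p) (frobInd (ψ x.1) p)) (B x))
    {η : ℝ} (hη : 0 < η) : ∀ᶠ ε : ℝ in 𝓝[>] 0,
      (∀ x ∈ S, LFun (B x) (edge (w + (ψ x.1).type) x.2 + ε) ≠ 0) ∧
      ∑ x ∈ S, max (size (w + (ψ x.1).type) (B x) x.2 ε) 0 ^ 2 ≤ (N : ℝ) ^ 2 + η ∧
      ∑ x ∈ S, max (-size (w + (ψ x.1).type) (B x) x.2 ε) 0 ^ 2 ≤ (N : ℝ) ^ 2 + η := by
  classical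
  have hfam := fam_CFam hI hψ
  set Q : Nat.Primes → ℂ := Pool.Agent.Y149.TL.mt w N δ with hQ
  have hlink : ∀ x ∈ S, (∀ᶠ ε : ℝ in 𝓝[>] 0, LFun (B x) (edge (w + (ψ x.1).type) x.2 + ε) ≠ 0) ∧
      Tendsto (fun ε : ℝ => size (w + (ψ x.1).type) (B x) x.2 ε -
        E ε (fun p => (Q p * fam ψ x p).re) / lam ε) (𝓝[>] 0) (𝓝 0) := by
    intro x hx
    have hg := good (ψ x.1)
    refine line_log (hB x hx) (N := N * 2) ((hδ.and hg).mono fun p hp =>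
      tens_pure hp.1 (frobInd_pure (ψ x.1) p hp.2)) x.2 (C0 := N * 2) (fun p => ?_)
      ((hδ.and hg).mono fun p hp => ?_)
    · refine (Complex.abs_re_le_norm _).trans ?_
      rw [norm_mul]
      exact mul_le_mul (norm_mt w N δ p) (hfam.bd x p) (norm_nonneg _) (Nat.cast_nonneg _)
    · have hp0 : (0 : ℝ) < (p : ℕ) := by exact_mod_cast p.2.pos
      congr 1
      rw [tens_sum, frobInd_sum (ψ x.1) p hp.2]
      have e1 : Q p = (δ p).sum / ((((p : ℕ) : ℝ) ^ ((w : ℝ) / 2) : ℝ) : ℂ) := by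
        rw [hQ]
        unfold Pool.Agent.Y149.TL.mt
        rw [if_pos hp.1]
      have e2 : ((((p : ℕ) : ℝ) ^ (((w + (ψ x.1).type : ℤ) : ℝ) / 2) : ℝ) : ℂ) =
          ((((p : ℕ) : ℝ) ^ ((w : ℝ) / 2) : ℝ) : ℂ) *
            ((((p : ℕ) : ℝ) ^ ((((ψ x.1).type : ℤ) : ℝ) / 2) : ℝ) : ℂ) := by
        rw [← Complex.ofReal_mul, ← Real.rpow_add hp0]
        congr 2
        push_cast
        ring
      have e4 := cpow_half w p
      have e5 := cpow_half ((ψ x.1).type : ℤ) p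
      rw [e1, e2]
      unfold fam uu
      field_simp
  have h1 : ∀ᶠ ε : ℝ in 𝓝[>] 0, ∀ x ∈ S, LFun (B x) (edge (w + (ψ x.1).type) x.2 + ε) ≠ 0 := by
    rw [Filter.eventually_all_finset]
    exact fun x hx => (hlink x hx).1
  have h2 := max_perturb S (fun x ε => 1 * (E ε (fun p => (Q p * fam ψ x p).re) / lam ε))
    (fun x ε => size (w + (ψ x.1).type) (B x) x.2 ε) _ (by positivity)
    (fun η' hη' => hfam.bes S Q (norm_mt w N δ) hη' (Or.inl rfl))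
    (fun x hx => by simpa only [one_mul] using (hlink x hx).2) hη
  have h3 := max_perturb S (fun x ε => (-1) * (E ε (fun p => (Q p * fam ψ x p).re) / lam ε))
    (fun x ε => -size (w + (ψ x.1).type) (B x) x.2 ε) _ (by positivity)
    (fun η' hη' => hfam.bes S Q (norm_mt w N δ) hη' (Or.inr rfl))
    (fun x hx => by
      have := (hlink x hx).2.neg
      rw [neg_zero] at this
      refine this.congr fun ε => ?_
      ring) hη
  exact h1.and (h2.and h3)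

/-- **The orders.** -/
theorem one_order (hI : ∀ e, Irr (ψ e)) (hψ : ∀ e e', e ≠ e' → Differ (ψ e) (ψ e'))
    (hδ : ∀ᶠ p in cofinite, Pure w N p (δ p))
    (S : Finset (ι × ℝ)) {B : ι × ℝ → Nat.Primes → ℂ[X]} (hB : ∀ x ∈ S,
      IsEuler (w + (ψ x.1).type) (fun p => tens (δ p) (frobInd (ψ x.1) p)) (B x))
    {r : ι × ℝ → ℤ} (hr : ∀ x ∈ S, HasOrder (w + (ψ x.1).type) (B x) x.2 (r x)) :
    ∑ x ∈ S, max (r x) 0 ^ 2 ≤ (N : ℤ) ^ 2 ∧ ∑ x ∈ S, max (-r x) 0 ^ 2 ≤ (N : ℤ) ^ 2 := by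
  have h1 : ∑ x ∈ S, (max (-(-(r x : ℝ))) 0) ^ 2 ≤ (N : ℝ) ^ 2 := by
    refine le_of_forall_pos_le_add fun η hη => ?_
    have h2 : Tendsto (fun ε : ℝ => ∑ x ∈ S, max (-size (w + (ψ x.1).type) (B x) x.2 ε) 0 ^ 2)
        (𝓝[>] 0) (𝓝 (∑ x ∈ S, (max (-(-(r x : ℝ))) 0) ^ 2)) :=
      tendsto_finsetSum _ fun x hx => ((line_order (hr x hx)).neg.max tendsto_const_nhds).pow 2
    refine le_of_tendsto h2 ?_
    exact (one_mean hI hψ hδ S hB hη).mono fun ε h3 => h3.2.2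
  have h1' : ∑ x ∈ S, (max (-(r x : ℝ)) 0) ^ 2 ≤ (N : ℝ) ^ 2 := by
    refine le_of_forall_pos_le_add fun η hη => ?_
    have h2 : Tendsto (fun ε : ℝ => ∑ x ∈ S, max (size (w + (ψ x.1).type) (B x) x.2 ε) 0 ^ 2)
        (𝓝[>] 0) (𝓝 (∑ x ∈ S, (max (-(r x : ℝ)) 0) ^ 2)) :=
      tendsto_finsetSum _ fun x hx => ((line_order (hr x hx)).max tendsto_const_nhds).pow 2
    refine le_of_tendsto h2 ?_
    exact (one_mean hI hψ hδ S hB hη).mono fun ε h3 => h3.2.1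
  simp only [neg_neg] at h1
  exact ⟨by exact_mod_cast h1, by exact_mod_cast h1'⟩

/-- tensor products are pure -/
theorem tensL_pure' (hδ : ∀ᶠ p in cofinite, Pure w N p (δ p)) (l : List ι) :
    ∀ᶠ p : Nat.Primes in cofinite, Pure (w + ((l.map fun e => (ψ e).type).sum : ℕ))
      (N * 2 ^ l.length) p (tensL (δ p) (fun e => frobInd (ψ e) p) l) := by
  induction l with
  | nil => simpa [tensL] using hδ
  | cons e l ih =>
    filter_upwards [ih, good (ψ e)] with p h1 h2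
    have h3 := tens_pure h1 (frobInd_pure (ψ e) p h2)
    rw [tensL, List.length_cons, pow_succ, ← mul_assoc]
    have e1 : w + (((e :: l).map fun e => (ψ e).type).sum : ℕ) =
        w + ((l.map fun e => (ψ e).type).sum : ℕ) + (ψ e).type := by
      rw [List.map_cons, List.sum_cons]
      push_cast
      ring
    rw [e1]
    exact h3

end

end

end Run7.h186.CM
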