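import Pool.Agent.Run7.h186.ML11
import Pool.Agent.Y149.TL.Sub

/-! The exceptional characters, and one infinite family for countably many motives. -/

set_option autoImplicit false

namespace Run7.h186.CM

open Finset Filter Topology Complex Polynomial
open Pool.Agent.Y149.CM (LFun)
open Pool.Agent.Y149.PK (tens)
open Pool.Agent.Y149.TL

section
variable {ι : Type} {ψ : ι → HeckeChar}

theorem wt_cons (M : Motive) (ψ : ι → HeckeChar) (e : ι) (l : List ι) :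
    wt M ψ (e :: l) = wt M ψ l + (ψ e).type := by
  unfold wt
  rw [List.map_cons, List.sum_cons]
  push_cast
  ring

/-- the bound -/
def bnd (M : Motive) (l : List ι) : ℕ := M.rank ^ 2 * 4 ^ l.length

theorem bnd_eq (M : Motive) (l : List ι) : bnd M l = (M.rank * 2 ^ l.length) ^ 2 := by
  unfold bnd
  rw [mul_pow, ← pow_mul, mul_comm l.length 2, pow_mul]
  norm_num

theorem twist_cons {M : Motive} {e : ι} {l : List ι} {B : Nat.Primes → ℂ[X]}
    (h : IsTwist M ψ (e :: l) B) : IsEuler (wt M ψ l + (ψ e).type) (fun p =>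
      tens (tensL (M.frob p) (fun e => frobInd (ψ e) p) l) (frobInd (ψ e) p)) B := by
  unfold IsTwist at h
  rw [wt_cons] at h
  exact h

/-- **The mean square.** -/
theorem mean (hI : ∀ e, Irr (ψ e)) (hψ : ∀ e e', e ≠ e' → Differ (ψ e) (ψ e')) (M : Motive)
    (l : List ι) (S : Finset (ι × ℝ)) {B : ι × ℝ → Nat.Primes → ℂ[X]}
    (hB : ∀ x ∈ S, IsTwist M ψ (x.1 :: l) (B x)) {η : ℝ} (hη : 0 < η) : ∀ᶠ ε : ℝ in 𝓝[>] 0,
      (∀ x ∈ S, LFun (B x) (edge (wt M ψ (x.1 :: l)) x.2 + ε) ≠ 0) ∧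
      ∑ x ∈ S, max (size (wt M ψ (x.1 :: l)) (B x) x.2 ε) 0 ^ 2 ≤ (bnd M l : ℝ) + η ∧
      ∑ x ∈ S, max (-size (wt M ψ (x.1 :: l)) (B x) x.2 ε) 0 ^ 2 ≤ (bnd M l : ℝ) + η := by
  have h1 := one_mean hI hψ (tensL_pure' (ψ := ψ) M.Pure l) S (fun x hx => twist_cons (hB x hx)) hη
  simp only [wt_cons, bnd_eq]
  rw [Nat.cast_pow]
  exact h1

/-- **The orders.** -/
theorem order (hI : ∀ e, Irr (ψ e)) (hψ : ∀ e e', e ≠ e' → Differ (ψ e) (ψ e')) (M : Motive)
    (l : List ι) (S : Finset (ι × ℝ)) {B : ι × ℝ → Nat.Primes → ℂ[X]}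
    (hB : ∀ x ∈ S, IsTwist M ψ (x.1 :: l) (B x)) {r : ι × ℝ → ℤ}
    (hr : ∀ x ∈ S, HasOrder (wt M ψ (x.1 :: l)) (B x) x.2 (r x)) :
    ∑ x ∈ S, max (r x) 0 ^ 2 ≤ (bnd M l : ℤ) ∧ ∑ x ∈ S, max (-r x) 0 ^ 2 ≤ (bnd M l : ℤ) := by
  simp only [wt_cons] at hr
  have h1 := one_order hI hψ (tensL_pure' (ψ := ψ) M.Pure l) S
    (fun x hx => twist_cons (hB x hx)) hr
  rw [bnd_eq, Nat.cast_pow]
  exact h1

/-- finite sets of bounded cardinality -/
theorem exists_finset {P : ι → Prop} {K : ℕ} (h : ∀ S : Finset ι, (∀ e ∈ S, P e) → S.card ≤ K) :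
    ∃ F : Finset ι, F.card ≤ K ∧ ∀ e, P e → e ∈ F := by
  classical
  have hfin : {e | P e}.Finite := by
    by_contra hinf
    obtain ⟨S, hS1, hS2⟩ := Set.Infinite.exists_subset_card_eq hinf (K + 1)
    have := h S fun e he => hS1 he
    omega
  refine ⟨hfin.toFinset, h _ fun e he => ?_, fun e he => ?_⟩
  · exact (Set.Finite.mem_toFinset hfin).1 he
  · exact (Set.Finite.mem_toFinset hfin).2 he

/-- the characters with an order of a given sign -/
def BadS (M : Motive) (ψ : ι → HeckeChar) (l : List ι) (s : ℤ) (e : ι) : Prop :=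
  ∃ (B : Nat.Primes → ℂ[X]) (τ : ℝ) (r : ℤ), 0 < s * r ∧ IsTwist M ψ (e :: l) B ∧
    HasOrder (wt M ψ (e :: l)) B τ r

theorem badS_card (hI : ∀ e, Irr (ψ e)) (hψ : ∀ e e', e ≠ e' → Differ (ψ e) (ψ e')) (M : Motive)
    (l : List ι) {s : ℤ} (hs : s = 1 ∨ s = -1) (S : Finset ι) (hS : ∀ e ∈ S, BadS M ψ l s e) :
    S.card ≤ bnd M l := by
  classical
  have hch : ∀ e : ι, ∃ (B : Nat.Primes → ℂ[X]) (τ : ℝ) (r : ℤ), e ∈ S → 0 < s * r ∧
      IsTwist M ψ (e :: l) B ∧ HasOrder (wt M ψ (e :: l)) B τ r := by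
    intro e
    by_cases he : e ∈ S
    · obtain ⟨B, τ, r, h1⟩ := hS e he
      exact ⟨B, τ, r, fun _ => h1⟩
    · exact ⟨fun _ => 0, 0, 0, fun h' => absurd h' he⟩
  choose B τ r hB using hch
  have h2 := order hI hψ M l (S.image fun e => (e, τ e)) (B := fun x => B x.1) (fun x hx => by
      obtain ⟨e, he, rfl⟩ := Finset.mem_image.1 hx
      exact (hB e he).2.1) (r := fun x => r x.1) (fun x hx => by
      obtain ⟨e, he, rfl⟩ := Finset.mem_image.1 hx
      exact (hB e he).2.2)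
  have hinj : ∀ x ∈ S, ∀ y ∈ S, (fun e => (e, τ e)) x = (fun e => (e, τ e)) y → x = y :=
    fun x _ y _ hxy => congrArg Prod.fst hxy
  rw [Finset.sum_image hinj, Finset.sum_image hinj] at h2
  have h3 : ∑ e ∈ S, max (s * r e) 0 ^ 2 ≤ (bnd M l : ℤ) := by
    rcases hs with rfl | rfl
    · simpa only [one_mul] using h2.1
    · simpa only [neg_mul, one_mul] using h2.2
  have h4 : (S.card : ℤ) ≤ ∑ e ∈ S, max (s * r e) 0 ^ 2 := by
    rw [Finset.card_eq_sum_ones, Nat.cast_sum]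
    refine Finset.sum_le_sum fun e he => ?_
    have h5 := (hB e he).1
    rw [max_eq_left h5.le]
    have h6 : (1 : ℤ) ≤ s * r e := h5
    push_cast
    nlinarith
  exact_mod_cast h4.trans h3

/-- **The exceptional characters.** -/
theorem exceptional (hI : ∀ e, Irr (ψ e)) (hψ : ∀ e e', e ≠ e' → Differ (ψ e) (ψ e'))
    (M : Motive) (l : List ι) : ∃ F G : Finset ι, F.card ≤ bnd M l ∧ G.card ≤ bnd M l ∧
      ∀ (e : ι) (B : Nat.Primes → ℂ[X]), IsTwist M ψ (e :: l) B → ∀ (τ : ℝ) (r : ℤ),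
        HasOrder (wt M ψ (e :: l)) B τ r → (e ∉ F → 0 ≤ r) ∧ (e ∉ G → r ≤ 0) := by
  obtain ⟨F, hF, hF'⟩ := exists_finset (badS_card hI hψ M l (Or.inr rfl))
  obtain ⟨G, hG, hG'⟩ := exists_finset (badS_card hI hψ M l (Or.inl rfl))
  refine ⟨F, G, hF, hG, fun e B hB τ r hr => ⟨fun he => ?_, fun he => ?_⟩⟩
  · by_contra h
    exact he (hF' e ⟨B, τ, r, by omega, hB, hr⟩)
  · by_contra h
    exact he (hG' e ⟨B, τ, r, by omega, hB, hr⟩)

theorem twist_perm {M : Motive} {l l' : List ι} (h : l.Perm l') {B : Nat.Primes → ℂ[X]}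
    (hB : IsTwist M ψ l B) : IsTwist M ψ l' B := by
  unfold IsTwist wt at *
  rw [← (h.map fun e => (ψ e).type).sum_eq]
  have e : (fun p : Nat.Primes => tensL (M.frob p) (fun e => frobInd (ψ e) p) l') =
      fun p : Nat.Primes => tensL (M.frob p) (fun e => frobInd (ψ e) p) l := by
    funext p
    rw [tensL_perm _ _ h]
  rw [e]
  exact hB

theorem wt_perm {M : Motive} {l l' : List ι} (h : l.Perm l') : wt M ψ l = wt M ψ l' := by
  unfold wt
  rw [(h.map fun e => (ψ e).type).sum_eq]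

/-- **One infinite family for countably many motives.** -/
theorem universal [Infinite ι] (hI : ∀ e, Irr (ψ e))
    (hψ : ∀ e e', e ≠ e' → Differ (ψ e) (ψ e')) (M : ℕ → Motive) :
    ∃ 𝒥 : Set ι, 𝒥.Infinite ∧ ∀ j, ∃ F : Finset ι, (∀ x ∈ F, x ∈ 𝒥) ∧
      ∀ l : List ι, l.Nodup → (∀ e ∈ l, e ∈ 𝒥) → (∃ e ∈ l, e ∉ F) →
      ∀ B : Nat.Primes → ℂ[X], IsTwist (M j) ψ l B →
      ∀ (τ : ℝ) (r : ℤ), HasOrder (wt (M j) ψ l) B τ r → r = 0 := by
  classical
  obtain ⟨𝒥, hinf, h1⟩ := greedy (Bad := fun j A => {e | BadS (M j) ψ A.toList 1 e} ∪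
    {e | BadS (M j) ψ A.toList (-1) e}) fun j A => by
      obtain ⟨F, -, hF⟩ := exists_finset (badS_card hI hψ (M j) A.toList (Or.inl rfl))
      obtain ⟨G, -, hG⟩ := exists_finset (badS_card hI hψ (M j) A.toList (Or.inr rfl))
      exact (F ∪ G).finite_toSet.subset fun e he => by
        rw [Finset.coe_union]
        exact he.imp (hF e) (hG e)
  refine ⟨𝒥, hinf, fun j => ?_⟩
  obtain ⟨F, hF, h2⟩ := h1 j
  refine ⟨F, hF, fun l hl hmem hex B hB τ r hr => ?_⟩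
  set A : Finset ι := l.toFinset with hA
  obtain ⟨e, he, hbad⟩ := h2 A (fun x hx => hmem x (List.mem_toFinset.1 hx)) (by
    obtain ⟨e, he, heF⟩ := hex
    exact ⟨e, List.mem_toFinset.2 he, heF⟩)
  have hperm : l.Perm (e :: (A.erase e).toList) := by
    have g1 : A.toList.Perm (e :: (A.erase e).toList) := by
      conv_lhs => rw [← Finset.insert_erase he]
      exact Finset.toList_insert (Finset.notMem_erase e A)
    refine List.Perm.trans ?_ g1
    exact (List.toFinset_toList hl).symm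
  rw [wt_perm hperm] at hr
  by_contra hr0
  refine hbad ?_
  rcases lt_or_gt_of_ne hr0 with h3 | h3
  · exact Or.inr ⟨B, τ, r, by omega, twist_perm hperm hB, hr⟩
  · exact Or.inl ⟨B, τ, r, by omega, twist_perm hperm hB, hr⟩

end

end Run7.h186.CM
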