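import Pool.Agent.Run7.h186.ML1

/-! The integral `∫ (t + i)^{2k} (1 + t²)^{-(s + k)} dt` near `s = 1` for `k ≥ 1`. -/

set_option autoImplicit false

namespace Run7.h186.ML

open MeasureTheory Filter Topology
open Pool.Agent.Y149.CR (gc norm_gc one_add_sq_pos)
open Pool.Agent.W165.RS (gs gs_le gs_nonneg)

noncomputable section

theorem tI_ne (t : ℝ) : (t : ℂ) + Complex.I ≠ 0 := by
  intro h
  have := congrArg Complex.im h
  simp at this

theorem tI_ne' (t : ℝ) : (t : ℂ) - Complex.I ≠ 0 := by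
  intro h
  have := congrArg Complex.im h
  simp at this

theorem tI_mul (t : ℝ) : ((t : ℂ) + Complex.I) * ((t : ℂ) - Complex.I) = ((1 + t ^ 2 : ℝ) : ℂ) := by
  push_cast
  linear_combination -Complex.I_sq

/-- the ratio -/
def rt (t : ℝ) : ℂ := ((t : ℂ) + Complex.I) / ((t : ℂ) - Complex.I)

theorem hasDerivAt_rt (t : ℝ) : HasDerivAt rt (-(2 * Complex.I) / ((t : ℂ) - Complex.I) ^ 2) t := by
  have h1 : HasDerivAt (fun t : ℝ => (t : ℂ) + Complex.I) 1 t := by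
    simpa using (Complex.ofRealCLM.hasDerivAt (x := t)).add_const Complex.I
  have h2 : HasDerivAt (fun t : ℝ => (t : ℂ) - Complex.I) 1 t := by
    simpa using (Complex.ofRealCLM.hasDerivAt (x := t)).sub_const Complex.I
  refine (h1.div h2 (tI_ne' t)).congr_deriv ?_
  congr 1
  ring

theorem gm_one (k : ℕ) (t : ℝ) : gm (2 * (k + 1)) 1 t =
    ((t : ℂ) + Complex.I) ^ k / ((t : ℂ) - Complex.I) ^ (k + 2) := by
  unfold gm gc
  have e1 : -((1 : ℂ) + ((2 * (k + 1) : ℕ) : ℂ) / 2) = -((k + 2 : ℕ) : ℂ) := by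
    push_cast
    ring
  rw [e1, Complex.cpow_neg, Complex.cpow_natCast, ← tI_mul, mul_pow, div_eq_mul_inv, mul_inv]
  have h1 := tI_ne t
  have h2 := tI_ne' t
  field_simp
  ring

theorem tendsto_rt_top : Tendsto rt atTop (𝓝 1) ∧ Tendsto rt atBot (𝓝 1) := by
  have e : rt = fun t : ℝ => 1 + 2 * Complex.I / ((t : ℂ) - Complex.I) := by
    funext t
    unfold rt
    have h := tI_ne' t
    field_simp
    ring
  have h0 : ∀ l : Filter ℝ, Tendsto (fun t : ℝ => ‖(t : ℂ) - Complex.I‖) l atTop →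
      Tendsto rt l (𝓝 1) := by
    intro l hl
    rw [e]
    have h1 : Tendsto (fun t : ℝ => 2 * Complex.I / ((t : ℂ) - Complex.I)) l (𝓝 0) := by
      rw [tendsto_zero_iff_norm_tendsto_zero]
      have h2 : Tendsto (fun t : ℝ => ‖2 * Complex.I‖ / ‖(t : ℂ) - Complex.I‖) l (𝓝 0) :=
        Tendsto.div_atTop tendsto_const_nhds hl
      exact h2.congr fun t => (norm_div _ _).symm
    simpa using h1.const_add 1
  have h1 : ∀ t : ℝ, |t| ≤ ‖(t : ℂ) - Complex.I‖ := by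
    intro t
    have := Complex.abs_re_le_norm ((t : ℂ) - Complex.I)
    simpa using this
  exact ⟨h0 _ (tendsto_atTop_mono h1 tendsto_abs_atTop_atTop),
    h0 _ (tendsto_atTop_mono h1 tendsto_abs_atBot_atTop)⟩

theorem Gm_one (k : ℕ) : Gm (2 * (k + 1)) 1 = 0 := by
  unfold Gm
  have hd : ∀ t : ℝ, HasDerivAt (fun t : ℝ => Complex.I / (2 * ((k : ℂ) + 1)) * rt t ^ (k + 1))
      (gm (2 * (k + 1)) 1 t) t := by
    intro t
    refine (((hasDerivAt_rt t).pow (k + 1)).const_mul (Complex.I / (2 * ((k : ℂ) + 1)))).congr_deriv ?_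
    rw [gm_one]
    unfold rt
    have h1 := tI_ne t
    have h2 := tI_ne' t
    have h3 : ((k : ℂ) + 1) ≠ 0 := by exact_mod_cast Nat.succ_ne_zero k
    simp only [Nat.add_sub_cancel]
    rw [div_pow]
    field_simp
    push_cast
    linear_combination (((k : ℂ) + 1) * ((t : ℂ) - Complex.I) ^ k *
      (2 * Complex.I * t - t ^ 2 - Complex.I ^ 2)) * Complex.I_sq
  have h := integral_of_hasDerivAt_of_tendsto hd (integrable_gm _ (by simp))
    ((tendsto_rt_top.2.pow (k + 1)).const_mul (Complex.I / (2 * ((k : ℂ) + 1))))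
    ((tendsto_rt_top.1.pow (k + 1)).const_mul (Complex.I / (2 * ((k : ℂ) + 1))))
  rw [h, sub_self]

theorem gm_sub (m : ℕ) {ε : ℝ} (hε : 0 ≤ ε) (t : ℝ) :
    ‖gm m (1 + ε) t - gm m 1 t‖ ≤ ε * (4 * (1 + t ^ 2) ^ (-(3 / 2 : ℝ) / 2)) := by
  have h0 := one_add_sq_pos t
  have h1 : (1 : ℝ) ≤ 1 + t ^ 2 := by nlinarith [sq_nonneg t]
  have hc : ((1 + t ^ 2 : ℝ) : ℂ) ≠ 0 := by exact_mod_cast h0.ne'
  have e1 : gm m (1 + ε) t = gm m 1 t * (((1 + t ^ 2) ^ (-ε) : ℝ) : ℂ) := by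
    unfold gm gc
    rw [mul_assoc, Complex.ofReal_cpow h0.le]
    congr 1
    rw [← Complex.cpow_add _ _ hc]
    congr 1
    push_cast
    ring
  rw [e1]
  have e2 : gm m 1 t * (((1 + t ^ 2) ^ (-ε) : ℝ) : ℂ) - gm m 1 t =
      gm m 1 t * (((1 + t ^ 2) ^ (-ε) - 1 : ℝ) : ℂ) := by push_cast; ring
  rw [e2, norm_mul, norm_gm, Complex.norm_real, Real.norm_eq_abs, Complex.one_re]
  have h2 : (1 + t ^ 2) ^ (-ε) ≤ 1 := Real.rpow_le_one_of_one_le_of_nonpos h1 (by linarith)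
  rw [abs_of_nonpos (by linarith)]
  have h3 : 1 - ε * Real.log (1 + t ^ 2) ≤ (1 + t ^ 2) ^ (-ε) := by
    rw [Real.rpow_def_of_pos h0]
    have := Real.add_one_le_exp (Real.log (1 + t ^ 2) * -ε)
    linarith
  have h4 : Real.log (1 + t ^ 2) ≤ 4 * (1 + t ^ 2) ^ (1 / 4 : ℝ) := by
    have := Real.log_le_rpow_div h0.le (show (0 : ℝ) < 1 / 4 by norm_num)
    linarith
  unfold gs
  calc (1 + t ^ 2) ^ (-(1 : ℝ)) * -((1 + t ^ 2) ^ (-ε) - 1)
      ≤ (1 + t ^ 2) ^ (-(1 : ℝ)) * (ε * (4 * (1 + t ^ 2) ^ (1 / 4 : ℝ))) := by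
        refine mul_le_mul_of_nonneg_left ?_ (by positivity)
        nlinarith
    _ = ε * (4 * ((1 + t ^ 2) ^ (-(1 : ℝ)) * (1 + t ^ 2) ^ (1 / 4 : ℝ))) := by ring
    _ = _ := by
        rw [← Real.rpow_add h0]
        norm_num

/-- **The integral is small.** -/
theorem Gm_small (k : ℕ) : ∃ C : ℝ, 0 ≤ C ∧ ∀ ε : ℝ, 0 ≤ ε → ‖Gm (2 * (k + 1)) (1 + ε)‖ ≤ C * ε := by
  have hi : Integrable fun t : ℝ => (1 + t ^ 2) ^ (-(3 / 2 : ℝ) / 2) := by
    have := integrable_rpow_neg_one_add_norm_sq (E := ℝ) (μ := volume) (r := 3 / 2) (by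
      rw [Module.finrank_self]; norm_num)
    simpa using this
  refine ⟨∫ t : ℝ, 4 * (1 + t ^ 2) ^ (-(3 / 2 : ℝ) / 2), integral_nonneg fun t => by positivity,
    fun ε hε => ?_⟩
  have e1 : Gm (2 * (k + 1)) (1 + ε) = ∫ t, (gm (2 * (k + 1)) (1 + ε) t - gm (2 * (k + 1)) 1 t) := by
    rw [integral_sub (integrable_gm _ (by simpa using hε)) (integrable_gm _ (by simp))]
    have := Gm_one k
    unfold Gm at this
    rw [this, sub_zero]
    rfl
  rw [e1]
  refine (norm_integral_le_integral_norm _).trans ?_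
  rw [mul_comm (∫ t : ℝ, 4 * (1 + t ^ 2) ^ (-(3 / 2 : ℝ) / 2)) ε, ← integral_const_mul]
  refine integral_mono_of_nonneg (Eventually.of_forall fun t => norm_nonneg _)
    ((hi.const_mul 4).const_mul ε) (Eventually.of_forall fun t => ?_)
  exact gm_sub _ hε t

end

end Run7.h186.ML
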