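import Pool.Agent.Run7.h186.ML2
import Pool.Agent.H304R3.HK.Defs

/-! The lattice sum with an angular factor. -/

set_option autoImplicit false

namespace Run7.h186.ML

open MeasureTheory Filter Topology
open Pool.Agent.Y149.CR (gc norm_gc one_add_sq_pos zc summable_zc im2 im2_nonneg summable_im2 c2
  rpow_le_im2 c2_nonneg)
open Pool.Agent.W165.RS (qf qf_eq)
open Pool.Agent.H304R3.HK (tc CS bb)

noncomputable section

/-- `h` is a function of a residue modulo `q` times `(a/|a|)^m` -/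
structure HT (q : ℕ) (m : ℕ) (χ : ZMod q → ZMod q → ℂ) (h : GaussianInt → ℂ) : Prop where
  h0 : h 0 = 0
  even : ∀ a, h (-a) = h a
  bd : ∀ x y, ‖χ x y‖ ≤ 1
  eq : ∀ a : GaussianInt, a ≠ 0 → h a = χ a.re a.im * (tc a / (‖tc a‖ : ℂ)) ^ m

theorem tc_eq (x y : ℤ) : tc ⟨x, y⟩ = (x : ℂ) + (y : ℂ) * Complex.I := rfl

theorem tc_ne {a : GaussianInt} (ha : a ≠ 0) : tc a ≠ 0 := by
  intro h
  apply ha
  have h1 := congrArg Complex.re h
  have h2 := congrArg Complex.im h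
  simp only [tc, Complex.add_re, Complex.mul_re, Complex.I_re, mul_zero, Complex.I_im, mul_one,
    Complex.intCast_re, Complex.intCast_im, Complex.add_im, Complex.mul_im, Complex.zero_re,
    Complex.zero_im, sub_self, add_zero, zero_add] at h1 h2
  ext
  · exact_mod_cast h1
  · exact_mod_cast h2

theorem normSq_tc (x y : ℤ) : ‖tc ⟨x, y⟩‖ ^ 2 = (x : ℝ) ^ 2 + (y : ℝ) ^ 2 := by
  rw [tc_eq, ← Complex.normSq_eq_norm_sq, Complex.normSq_apply]
  simp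
  ring

theorem norm_phase (a : GaussianInt) (ha : a ≠ 0) : ‖tc a / (‖tc a‖ : ℂ)‖ = 1 := by
  rw [norm_div, Complex.norm_real, norm_norm, div_self (norm_ne_zero_iff.2 (tc_ne ha))]

variable {q m : ℕ} [NeZero q] {χ : ZMod q → ZMod q → ℂ} {h : GaussianInt → ℂ}

theorem HT.le (H : HT q m χ h) (a : GaussianInt) : ‖h a‖ ≤ 1 := by
  rcases eq_or_ne a 0 with rfl | ha
  · rw [H.h0, norm_zero]; exact zero_le_one
  · rw [H.eq a ha, norm_mul, norm_pow, norm_phase a ha, one_pow, mul_one]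
    exact H.bd _ _

/-- one term -/
def ft (h : GaussianInt → ℂ) (s : ℂ) (p : ℤ × ℤ) : ℂ :=
  h ⟨p.1, p.2⟩ * (((p.1 : ℝ) ^ 2 + (p.2 : ℝ) ^ 2 : ℝ) : ℂ) ^ (-s)

theorem sq_pos' {p : ℤ × ℤ} (hp : p ≠ (0, 0)) : (0 : ℝ) < (p.1 : ℝ) ^ 2 + (p.2 : ℝ) ^ 2 := by
  obtain ⟨x, y⟩ := p
  by_cases hx : x = 0
  · have hy : y ≠ 0 := by
      rintro rfl
      exact hp (by rw [hx])
    have : (0 : ℝ) < (y : ℝ) ^ 2 := by positivity
    simp only
    nlinarith [sq_nonneg (x : ℝ)]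
  · have : (0 : ℝ) < (x : ℝ) ^ 2 := by positivity
    simp only
    nlinarith [sq_nonneg (y : ℝ)]

theorem norm_ft_le (H : HT q m χ h) (s : ℂ) {p : ℤ × ℤ} (hp : p ≠ (0, 0)) :
    ‖ft h s p‖ ≤ ((p.1 : ℝ) ^ 2 + (p.2 : ℝ) ^ 2) ^ (-s.re) := by
  unfold ft
  rw [norm_mul, Complex.norm_cpow_eq_rpow_re_of_pos (sq_pos' hp), Complex.neg_re]
  exact mul_le_of_le_one_left (Real.rpow_nonneg (sq_pos' hp).le _) (H.le _)

theorem ft_zero (H : HT q m χ h) (s : ℂ) : ft h s (0, 0) = 0 := by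
  unfold ft
  have : (⟨0, 0⟩ : GaussianInt) = 0 := rfl
  simp only [this, H.h0, zero_mul]

theorem summable_ft (H : HT q m χ h) {s : ℂ} (h1 : 1 < s.re) (h2 : s.re ≤ 2) :
    Summable (fun p => ‖ft h s p‖) := by
  have h3 := summable_zc (N := 1) 0 0 UpperHalfPlane.I h1 h2
  refine Summable.of_nonneg_of_le (fun p => norm_nonneg _) (fun p => ?_) h3
  by_cases hp : p = (0, 0)
  · rw [hp, ft_zero H, norm_zero]
    exact norm_nonneg _
  · refine (norm_ft_le H s hp).trans (le_of_eq ?_)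
    have hs := sq_pos' hp
    unfold zc
    rw [if_pos ⟨hp, Subsingleton.elim _ _, Subsingleton.elim _ _⟩]
    have e1 : UpperHalfPlane.I.im / qf UpperHalfPlane.I p.1 p.2 =
        ((p.1 : ℝ) ^ 2 + (p.2 : ℝ) ^ 2)⁻¹ := by
      rw [qf_eq]
      simp only [UpperHalfPlane.I_im, UpperHalfPlane.I_re, mul_zero, mul_one, zero_add, sq_abs]
      rw [one_div, add_comm]
    rw [e1, Complex.norm_cpow_eq_rpow_re_of_pos (inv_pos.2 hs), Real.inv_rpow hs.le,
      Real.rpow_neg hs.le]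

/-- the square norm -/
def nm (p : ℤ × ℤ) : ℕ := (p.1 ^ 2 + p.2 ^ 2).toNat

theorem nm_cast (p : ℤ × ℤ) : ((nm p : ℕ) : ℝ) = (p.1 : ℝ) ^ 2 + (p.2 : ℝ) ^ 2 := by
  have h : ((nm p : ℕ) : ℤ) = p.1 ^ 2 + p.2 ^ 2 := Int.toNat_of_nonneg (by positivity)
  have h2 : (((nm p : ℕ) : ℤ) : ℝ) = ((p.1 ^ 2 + p.2 ^ 2 : ℤ) : ℝ) := by rw [h]
  push_cast at h2
  exact h2

theorem mem_CS {n : ℕ} {p : ℤ × ℤ} : p ∈ CS n ↔ nm p = n := by
  unfold CS nm
  rw [Finset.mem_filter, Finset.mem_product, Finset.mem_Icc, Finset.mem_Icc]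
  constructor
  · rintro ⟨_, h⟩
    rw [h]
    simp
  · intro h
    have h1 : p.1 ^ 2 + p.2 ^ 2 = (n : ℤ) := by
      rw [← h]
      exact (Int.toNat_of_nonneg (by positivity)).symm
    have h0 : ∀ x : ℤ, |x| ≤ x ^ 2 := by
      intro x
      rw [← sq_abs]
      rcases eq_or_ne x 0 with rfl | hx
      · simp
      · have := Int.one_le_abs hx
        nlinarith
    have h2 : |p.1| ≤ n := by
      have := h0 p.1
      nlinarith [sq_nonneg p.2]
    have h3 : |p.2| ≤ n := by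
      have := h0 p.2
      nlinarith [sq_nonneg p.1]
    exact ⟨⟨abs_le.1 h2, abs_le.1 h3⟩, h1⟩

/-- the Dirichlet series -/
def Fs (h : GaussianInt → ℂ) (s : ℂ) : ℂ := ∑' n : ℕ, bb h n * (n : ℂ) ^ (-s)

theorem hasSum_bb (H : HT q m χ h) {s : ℂ} (h1 : 1 < s.re) (h2 : s.re ≤ 2) :
    HasSum (fun n : ℕ => bb h n * (n : ℂ) ^ (-s)) ((1 / 4 : ℂ) * ∑' p, ft h s p) := by
  have h3 := (summable_ft H h1 h2).of_norm.hasSum
  have h4 := (h3.tsum_fiberwise nm).mul_left (1 / 4 : ℂ)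
  refine h4.congr_fun ?_ |> fun h => h
  intro n
  have e1 : ∑' b : nm ⁻¹' {n}, ft h s b = ∑ p ∈ CS n, ft h s p := by
    rw [← Finset.tsum_subtype]
    have hset : (nm ⁻¹' {n} : Set (ℤ × ℤ)) = {p | p ∈ CS n} := by
      ext p
      rw [Set.mem_preimage, Set.mem_singleton_iff, Set.mem_ofPred_eq, mem_CS]
    rw [hset]
    rfl
  rw [e1]
  unfold bb
  rw [mul_assoc, Finset.sum_mul]
  congr 1
  refine Finset.sum_congr rfl fun p hp => ?_
  unfold ft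
  rw [← nm_cast, mem_CS.1 hp, Complex.ofReal_natCast]

end

end Run7.h186.ML
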