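import Pool.Agent.Run7.h186.ML3

/-! The lattice sum, row by row. -/

set_option autoImplicit false

namespace Run7.h186.ML

open MeasureTheory Filter Topology
open Pool.Agent.Y149.CR (gc norm_gc one_add_sq_pos im2 im2_nonneg summable_im2 c2
  rpow_le_im2 c2_nonneg)
open Pool.Agent.H304R3.HK (tc CS bb)

noncomputable section

variable {q m : ℕ} [NeZero q] {χ : ZMod q → ZMod q → ℂ} {h : GaussianInt → ℂ}

/-- the row sum of the residue function -/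
def Ph (χ : ZMod q → ZMod q → ℂ) (y : ZMod q) : ℂ := ∑ x, χ x y

theorem ft_row (H : HT q m χ h) (s : ℂ) (x : ℤ) {y : ℤ} (hy : 0 < y) :
    ft h s (x, y) = ((y : ℝ) : ℂ) ^ (-(2 * s)) * (χ x y * gm m s (x / y)) := by
  have hyr : (0 : ℝ) < (y : ℝ) := by exact_mod_cast hy
  have hyc : ((y : ℝ) : ℂ) ≠ 0 := by exact_mod_cast hyr.ne'
  have ha : (⟨x, y⟩ : GaussianInt) ≠ 0 := by
    intro h0
    have := congrArg Zsqrtd.im h0
    simp only [Zsqrtd.im_zero] at this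
    omega
  set t : ℝ := (x : ℝ) / y with ht
  have h0 := one_add_sq_pos t
  have hxt : (x : ℝ) = y * t := by rw [ht]; field_simp
  have hN : (x : ℝ) ^ 2 + (y : ℝ) ^ 2 = (y : ℝ) ^ 2 * (1 + t ^ 2) := by rw [hxt]; ring
  unfold ft gm gc
  rw [H.eq _ ha]
  simp only
  have hn : ‖tc ⟨x, y⟩‖ = y * (1 + t ^ 2) ^ (1 / 2 : ℝ) := by
    have h1 : ‖tc ⟨x, y⟩‖ ^ 2 = (y * (1 + t ^ 2) ^ (1 / 2 : ℝ)) ^ 2 := by
      rw [normSq_tc, hN, mul_pow, ← Real.rpow_natCast ((1 + t ^ 2) ^ (1 / 2 : ℝ)),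
        ← Real.rpow_mul h0.le]
      norm_num
    exact (pow_left_inj₀ (norm_nonneg _) (by positivity) two_ne_zero).1 h1
  have e1 : tc ⟨x, y⟩ = ((y : ℝ) : ℂ) * ((t : ℂ) + Complex.I) := by
    rw [tc_eq, mul_add, ← Complex.ofReal_mul, ← hxt]
    push_cast
    rfl
  have e2 : tc ⟨x, y⟩ / (‖tc ⟨x, y⟩‖ : ℂ) =
      ((t : ℂ) + Complex.I) / (((1 + t ^ 2) ^ (1 / 2 : ℝ) : ℝ) : ℂ) := by
    rw [hn, e1, Complex.ofReal_mul, mul_div_mul_left _ _ hyc]
  have e3 : ((((1 + t ^ 2) ^ (1 / 2 : ℝ) : ℝ) : ℂ)) ^ m = ((1 + t ^ 2 : ℝ) : ℂ) ^ ((m : ℂ) / 2) := by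
    rw [← Complex.ofReal_pow, ← Real.rpow_natCast, ← Real.rpow_mul h0.le,
      Complex.ofReal_cpow h0.le]
    congr 1
    push_cast
    ring
  have e4 : (((x : ℝ) ^ 2 + (y : ℝ) ^ 2 : ℝ) : ℂ) ^ (-s) =
      ((y : ℝ) : ℂ) ^ (-(2 * s)) * ((1 + t ^ 2 : ℝ) : ℂ) ^ (-s) := by
    rw [hN, Complex.ofReal_mul, Complex.mul_cpow_ofReal_nonneg (by positivity) h0.le, sq,
      Complex.ofReal_mul, Complex.mul_cpow_ofReal_nonneg hyr.le hyr.le, ← Complex.cpow_add _ _ hyc]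
    congr 2
    ring
  have hc : ((1 + t ^ 2 : ℝ) : ℂ) ≠ 0 := by exact_mod_cast h0.ne'
  have e5 : ((1 + t ^ 2 : ℝ) : ℂ) ^ (-(s + (m : ℂ) / 2)) =
      ((1 + t ^ 2 : ℝ) : ℂ) ^ (-s) * (((1 + t ^ 2 : ℝ) : ℂ) ^ ((m : ℂ) / 2))⁻¹ := by
    rw [← Complex.cpow_neg, ← Complex.cpow_add _ _ hc]
    congr 1
    ring
  rw [e2, div_pow, e3, e4, e5]
  ring

theorem ft_neg (H : HT q m χ h) (s : ℂ) (x y : ℤ) : ft h s (-x, -y) = ft h s (x, y) := by
  unfold ft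
  have e : (⟨-x, -y⟩ : GaussianInt) = -⟨x, y⟩ := by
    ext <;> simp
  simp only [e, H.even]
  push_cast
  simp only [neg_sq]

/-- the row sum -/
def Rw (h : GaussianInt → ℂ) (s : ℂ) (y : ℤ) : ℂ := ∑' x : ℤ, ft h s (x, y)

theorem Rw_neg (H : HT q m χ h) (s : ℂ) (y : ℤ) : Rw h s (-y) = Rw h s y := by
  unfold Rw
  rw [← (Equiv.neg ℤ).tsum_eq]
  exact tsum_congr fun x => by
    rw [Equiv.neg_apply, ft_neg H]

/-- the main term of a row -/
def mt (χ : ZMod q → ZMod q → ℂ) (m : ℕ) (s : ℂ) (y : ℤ) : ℂ :=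
  Gm m s / q * LSeries.term (fun n : ℕ => Ph χ (n : ZMod q)) (2 * s - 1) y.natAbs

theorem Rw_pos (H : HT q m χ h) {s : ℂ} (hs : 1 ≤ s.re) {y : ℤ} (hy : 0 < y) :
    ‖Rw h s y - mt χ m s y‖ ≤ q * ((m + 2 * ‖s + m / 2‖) * Real.pi) * im2 y := by
  have hyr : (0 : ℝ) < (y : ℝ) := by exact_mod_cast hy
  have hyc : ((y : ℝ) : ℂ) ≠ 0 := by exact_mod_cast hyr.ne'
  obtain ⟨h1, h2⟩ := row m hs (fun r => χ r y) (fun r => H.bd r y) hyr
  have e1 : Rw h s y = ((y : ℝ) : ℂ) ^ (-(2 * s)) * ∑' x : ℤ, χ x y * gm m s (x / y) := by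
    unfold Rw
    rw [← tsum_mul_left]
    exact tsum_congr fun x => ft_row H s x hy
  have hn : y.natAbs ≠ 0 := by omega
  have hya : ((y.natAbs : ℕ) : ℤ) = y := Int.natAbs_of_nonneg hy.le
  have hyz : ((y.natAbs : ℕ) : ZMod q) = (y : ZMod q) := by
    rw [← Int.cast_natCast, hya]
  have hyC : ((y.natAbs : ℕ) : ℂ) = ((y : ℝ) : ℂ) := by
    rw [← Int.cast_natCast, hya]
    push_cast
    rfl
  have e2 : mt χ m s y = ((y : ℝ) : ℂ) ^ (-(2 * s)) *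
      ((∑ r, χ r y) * (((y : ℝ) / q : ℝ) : ℂ) * Gm m s) := by
    unfold mt
    rw [LSeries.term_of_ne_zero hn, hyz, hyC]
    have e3 : ((y : ℝ) : ℂ) ^ (2 * s - 1) = (((y : ℝ) : ℂ) ^ (-(2 * s)))⁻¹ * (((y : ℝ) : ℂ))⁻¹ := by
      rw [← Complex.cpow_neg, neg_neg, Complex.cpow_sub _ _ hyc, Complex.cpow_one, div_eq_mul_inv]
    rw [e3]
    unfold Ph
    rw [Complex.ofReal_div, Complex.ofReal_natCast]
    simp only [mul_inv, inv_inv, div_eq_mul_inv]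
    ring
  rw [e1, e2, ← mul_sub, norm_mul, Complex.norm_cpow_eq_rpow_re_of_pos hyr, mul_comm]
  have e3 : (-(2 * s)).re = -(2 * s.re) := by simp
  rw [e3]
  have h3 := rpow_le_im2 hy.ne' hs
  rw [abs_of_pos hyr] at h3
  exact mul_le_mul h2 h3 (by positivity) (by positivity)

theorem mt_neg (s : ℂ) (y : ℤ) : mt χ m s (-y) = mt χ m s y := by
  unfold mt
  rw [Int.natAbs_neg]

theorem im2_neg (y : ℤ) : im2 (-y) = im2 y := by
  unfold im2
  simp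

theorem Rw_ne (H : HT q m χ h) {s : ℂ} (hs : 1 ≤ s.re) {y : ℤ} (hy : y ≠ 0) :
    ‖Rw h s y - mt χ m s y‖ ≤ q * ((m + 2 * ‖s + m / 2‖) * Real.pi) * im2 y := by
  rcases lt_or_gt_of_ne hy with h1 | h1
  · have := Rw_pos H hs (show 0 < -y by omega)
    rwa [Rw_neg H, mt_neg, im2_neg] at this
  · exact Rw_pos H hs h1

theorem Rw_zero (H : HT q m χ h) {s : ℂ} (hs : 1 ≤ s.re) : ‖Rw h s 0‖ ≤ c2 := by
  have hb : ∀ x : ℤ, ‖ft h s (x, 0)‖ ≤ im2 x := by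
    intro x
    rcases eq_or_ne x 0 with rfl | hx
    · rw [ft_zero H, norm_zero]
      exact im2_nonneg _
    · have hp : ((x, 0) : ℤ × ℤ) ≠ (0, 0) := fun h0 => hx (congrArg Prod.fst h0)
      refine (norm_ft_le H s hp).trans (le_trans (le_of_eq ?_) (rpow_le_im2 hx hs))
      simp only [Int.cast_zero, ne_eq, OfNat.ofNat_ne_zero, not_false_eq_true, zero_pow, add_zero]
      rw [← sq_abs, ← Real.rpow_natCast, ← Real.rpow_mul (abs_nonneg _)]
      congr 1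
      push_cast
      ring
  exact tsum_of_norm_bounded summable_im2.hasSum hb

theorem hasSum_mt {s : ℂ} (hs : 1 < s.re) : HasSum (mt χ m s)
    (Gm m s / q * (2 * LSeries (fun n : ℕ => Ph χ (n : ZMod q)) (2 * s - 1))) := by
  have hre : 1 < (2 * s - 1).re := by simp; linarith
  have h0 := (ZMod.LSeriesSummable_of_one_lt_re (Ph χ) hre).hasSum
  generalize hT : LSeries.term (fun n : ℕ => Ph χ (n : ZMod q)) (2 * s - 1) = T at h0
  have hL : LSeries (fun n : ℕ => Ph χ (n : ZMod q)) (2 * s - 1) = ∑' n, T n := by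
    rw [← hT]
    rfl
  have hT0 : T 0 = 0 := by rw [← hT]; exact LSeries.term_zero _ _
  rw [hL]
  have h1 : HasSum (fun n : ℕ => T ((n : ℤ)).natAbs) (∑' n, T n) := by
    simp only [Int.natAbs_natCast]
    exact h0
  have h2 : HasSum (fun n : ℕ => T (-((n : ℤ) + 1)).natAbs) (∑' n, T n) := by
    have e : ∀ n : ℕ, (-((n : ℤ) + 1)).natAbs = n + 1 := fun n => by omega
    simp_rw [e]
    have h4 := (hasSum_nat_add_iff' 1).2 h0
    rw [Finset.sum_range_one, hT0, sub_zero] at h4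
    exact h4
  have h3 := HasSum.of_nat_of_neg_add_one (f := fun y : ℤ => T y.natAbs) h1 h2
  rw [← two_mul] at h3
  have h4 := h3.mul_left (Gm m s / q)
  have e5 : mt χ m s = fun y : ℤ => Gm m s / q * T y.natAbs := by
    funext y
    unfold mt
    rw [hT]
  rw [e5]
  exact h4

/-- **The lattice sum.** -/
theorem lat (H : HT q m χ h) {s : ℂ} (h1 : 1 < s.re) (h2 : s.re ≤ 2) :
    ‖∑' p, ft h s p - Gm m s / q * (2 * LSeries (fun n : ℕ => Ph χ (n : ZMod q)) (2 * s - 1))‖ ≤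
      (1 + q * ((m + 2 * ‖s + m / 2‖) * Real.pi)) * c2 := by
  have hs := (summable_ft H h1 h2).of_norm
  have hs' : Summable fun p : ℤ × ℤ => ft h s (p.2, p.1) := by
    have := (Equiv.prodComm ℤ ℤ).summable_iff.2 hs
    exact this
  have e1 : ∑' p, ft h s p = ∑' y : ℤ, Rw h s y := by
    rw [← (Equiv.prodComm ℤ ℤ).tsum_eq]
    have : (fun p : ℤ × ℤ => ft h s ((Equiv.prodComm ℤ ℤ) p)) = fun p => ft h s (p.2, p.1) := rfl
    rw [this, hs'.tsum_prod]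
    rfl
  have hsR : Summable (Rw h s) := hs'.prod
  have hm := hasSum_mt (χ := χ) (m := m) h1
  rw [e1, ← hm.tsum_eq, ← hsR.tsum_sub hm.summable]
  set K : ℝ := q * ((m + 2 * ‖s + m / 2‖) * Real.pi) with hK
  have hK0 : 0 ≤ K := by positivity
  have hb : ∀ y : ℤ, ‖Rw h s y - mt χ m s y‖ ≤ (if y = 0 then c2 else 0) + K * im2 y := by
    intro y
    by_cases hy : y = 0
    · subst hy
      have e2 : mt χ m s 0 = 0 := by
        unfold mt
        simp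
      rw [if_pos rfl, e2, sub_zero]
      have h3 := Rw_zero H h1.le
      have h4 := im2_nonneg 0
      nlinarith [mul_nonneg hK0 h4]
    · rw [if_neg hy, zero_add]
      exact Rw_ne H h1.le hy
  have hsum : HasSum (fun y : ℤ => (if y = 0 then c2 else 0) + K * im2 y) (c2 + K * c2) :=
    (hasSum_ite_eq 0 c2).add (summable_im2.hasSum.mul_left _)
  refine (tsum_of_norm_bounded hsum hb).trans (le_of_eq ?_)
  ring

end

end Run7.h186.ML
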