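import Pool.Agent.Run7.h186.ML4

/-! The Dirichlet series near the line `Re s = 1`. -/

set_option autoImplicit false

namespace Run7.h186.ML

open MeasureTheory Filter Topology
open Pool.Agent.Y149.CR (c2 c2_nonneg)
open Pool.Agent.H304R3.HK (tc CS bb)

noncomputable section

variable {q m : ℕ} [NeZero q] {χ : ZMod q → ZMod q → ℂ} {h : GaussianInt → ℂ}

/-- the point -/
def pt (τ ε : ℝ) : ℂ := 1 + ε + τ * Complex.I

theorem pt_re (τ ε : ℝ) : (pt τ ε).re = 1 + ε := by simp [pt]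

theorem two_pt (τ ε : ℝ) : 2 * pt τ ε - 1 = pt (2 * τ) (2 * ε) := by
  unfold pt
  push_cast
  ring

theorem pt_tendsto (τ : ℝ) : Tendsto (fun ε : ℝ => pt τ (2 * ε)) (𝓝[>] 0) (𝓝 (1 + τ * Complex.I)) := by
  have h : Continuous fun ε : ℝ => pt τ (2 * ε) := by unfold pt; fun_prop
  have := h.tendsto 0
  unfold pt at this
  simp only [mul_zero, Complex.ofReal_zero, add_zero] at this
  exact this.mono_left nhdsWithin_le_nhds

theorem small : ∀ᶠ ε : ℝ in 𝓝[>] 0, 0 < ε ∧ ε < 1 := by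
  filter_upwards [Ioo_mem_nhdsGT (show (0 : ℝ) < 1 by norm_num)] with ε h using h

theorem LF_eq (Φ : ZMod q → ℂ) (τ : ℝ) {ε : ℝ} (hε : 0 < ε) :
    LSeries (fun n : ℕ => Φ (n : ZMod q)) (2 * pt τ ε - 1) = ZMod.LFunction Φ (pt (2 * τ) (2 * ε)) := by
  rw [ZMod.LFunction_eq_LSeries _ (by rw [pt_re]; linarith), two_pt]

/-- the bound of the lattice sum in terms of the one-dimensional `L`-function -/
theorem F_le (H : HT q m χ h) (τ : ℝ) : ∃ C : ℝ, 0 ≤ C ∧ ∀ ε : ℝ, 0 < ε → ε < 1 →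
    ‖Fs h (pt τ ε)‖ ≤ C + ‖Gm m (pt τ ε)‖ * ‖ZMod.LFunction (Ph χ) (pt (2 * τ) (2 * ε))‖ := by
  have hc := c2_nonneg
  have hπ := Real.pi_pos
  have hq1 : (1 : ℝ) ≤ q := by exact_mod_cast Nat.pos_of_ne_zero (NeZero.ne q)
  refine ⟨(1 + q * ((m + 2 * (2 + |τ| + m)) * Real.pi)) * c2, by positivity, fun ε h1 h2 => ?_⟩
  have hre := pt_re τ ε
  have g1 : 1 < (pt τ ε).re := by rw [hre]; linarith
  have g2 : (pt τ ε).re ≤ 2 := by rw [hre]; linarith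
  have e1 : Fs h (pt τ ε) = (1 / 4 : ℂ) * ∑' p, ft h (pt τ ε) p := (hasSum_bb H g1 g2).tsum_eq
  have h3 := lat H g1 g2
  rw [LF_eq _ _ h1] at h3
  set L := ZMod.LFunction (Ph χ) (pt (2 * τ) (2 * ε))
  have h4 : ‖∑' p, ft h (pt τ ε) p‖ ≤
      (1 + q * ((m + 2 * ‖pt τ ε + m / 2‖) * Real.pi)) * c2 + ‖Gm m (pt τ ε) / q * (2 * L)‖ := by
    have := norm_le_norm_sub_add (∑' p, ft h (pt τ ε) p) (Gm m (pt τ ε) / q * (2 * L))
    linarith
  have h5 : ‖pt τ ε + m / 2‖ ≤ 2 + |τ| + m := by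
    unfold pt
    have a1 : ‖(1 : ℂ) + ε‖ ≤ 2 := by
      refine (norm_add_le _ _).trans ?_
      rw [norm_one, Complex.norm_real, Real.norm_eq_abs, abs_of_pos h1]
      linarith
    have a2 : ‖(τ : ℂ) * Complex.I‖ = |τ| := by
      rw [norm_mul, Complex.norm_I, mul_one, Complex.norm_real, Real.norm_eq_abs]
    have a3 : ‖(m : ℂ) / 2‖ ≤ m := by
      rw [norm_div, Complex.norm_natCast]
      simp only [Complex.norm_ofNat]
      have : (0 : ℝ) ≤ m := Nat.cast_nonneg _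
      linarith
    refine (norm_add_le _ _).trans (add_le_add ((norm_add_le _ _).trans ?_) a3)
    rw [a2]
    linarith
  have h6 : ‖Gm m (pt τ ε) / q * (2 * L)‖ ≤ 2 * (‖Gm m (pt τ ε)‖ * ‖L‖) := by
    rw [norm_mul, norm_div, norm_mul, Complex.norm_natCast]
    simp only [Complex.norm_ofNat]
    have a1 : ‖Gm m (pt τ ε)‖ / q ≤ ‖Gm m (pt τ ε)‖ := div_le_self (norm_nonneg _) hq1
    have a2 : 0 ≤ ‖L‖ := norm_nonneg _
    nlinarith
  rw [e1, norm_mul]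
  have e2 : ‖(1 / 4 : ℂ)‖ = 1 / 4 := by norm_num
  rw [e2]
  have h7 : (1 + q * ((m + 2 * ‖pt τ ε + m / 2‖) * Real.pi)) * c2 ≤
      (1 + q * ((m + 2 * (2 + |τ| + m)) * Real.pi)) * c2 := by gcongr
  have h8 : 0 ≤ (1 + q * ((m + 2 * (2 + |τ| + m)) * Real.pi)) * c2 := by positivity
  have h9 : 0 ≤ ‖Gm m (pt τ ε)‖ * ‖L‖ := by positivity
  linarith

theorem bdd_L {Φ : ZMod q → ℂ} {τ : ℝ} (hτ : τ ≠ 0 ∨ ∑ y, Φ y = 0) : ∃ C : ℝ, 0 ≤ C ∧
    ∀ᶠ ε : ℝ in 𝓝[>] 0, ‖ZMod.LFunction Φ (pt τ (2 * ε))‖ ≤ C := by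
  have hne : (1 + τ * Complex.I : ℂ) ≠ 1 ∨ ∑ y, Φ y = 0 := by
    refine hτ.imp_left fun h0 h => h0 ?_
    have := congrArg Complex.im h
    simpa using this
  have hd := (ZMod.differentiableAt_LFunction Φ (1 + τ * Complex.I : ℂ) hne).continuousAt
  have h1 := hd.tendsto.comp (pt_tendsto τ)
  exact ⟨‖ZMod.LFunction Φ (1 + τ * Complex.I)‖ + 1, by positivity,
    Pool.Agent.Y149.CR.bdd_of_tendsto h1⟩

theorem pole_L (Φ : ZMod q → ℂ) : ∃ C : ℝ, 0 ≤ C ∧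
    ∀ᶠ ε : ℝ in 𝓝[>] 0, ‖ZMod.LFunction Φ (pt 0 (2 * ε))‖ ≤ C / ε := by
  have h0 : Tendsto (fun ε : ℝ => pt 0 (2 * ε)) (𝓝[>] 0) (𝓝[≠] 1) := by
    have h1 := pt_tendsto 0
    simp only [Complex.ofReal_zero, zero_mul, add_zero] at h1
    refine tendsto_nhdsWithin_iff.2 ⟨h1, ?_⟩
    filter_upwards [self_mem_nhdsWithin] with ε hε h2
    have h3 : (0 : ℝ) < ε := hε
    have h4 := congrArg Complex.re h2
    rw [pt_re] at h4
    simp at h4
    linarith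
  have h1 := (ZMod.LFunction_residue_one Φ).comp h0
  have h2 := Pool.Agent.Y149.CR.bdd_of_tendsto h1
  refine ⟨‖∑ j, Φ j / (q : ℂ)‖ + 1, by positivity, ?_⟩
  filter_upwards [h2, self_mem_nhdsWithin] with ε h3 h4
  have hε : (0 : ℝ) < ε := h4
  rw [Function.comp_apply, norm_mul] at h3
  have e1 : pt 0 (2 * ε) - 1 = ((2 * ε : ℝ) : ℂ) := by
    unfold pt
    push_cast
    ring
  rw [e1, Complex.norm_real, Real.norm_of_nonneg (by positivity)] at h3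
  rw [le_div_iff₀ hε]
  have := norm_nonneg (ZMod.LFunction Φ (pt 0 (2 * ε)))
  nlinarith [mul_nonneg hε.le this]

theorem F_bdd1 (H : HT q m χ h) {τ : ℝ} (hτ : τ ≠ 0 ∨ ∑ y, Ph χ y = 0) : ∃ C : ℝ,
    ∀ᶠ ε : ℝ in 𝓝[>] 0, ‖Fs h (pt τ ε)‖ ≤ C := by
  obtain ⟨C, hC, h1⟩ := F_le H τ
  have hτ' : 2 * τ ≠ 0 ∨ ∑ y, Ph χ y = 0 := hτ.imp_left fun h0 => mul_ne_zero two_ne_zero h0
  obtain ⟨D, hD, h2⟩ := bdd_L hτ'
  refine ⟨C + Real.pi * D, ?_⟩
  filter_upwards [h2, small] with ε h3 h4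
  refine (h1 ε h4.1 h4.2).trans (add_le_add le_rfl ?_)
  exact mul_le_mul (norm_Gm_le m (by rw [pt_re]; linarith [h4.1])) h3 (norm_nonneg _) Real.pi_pos.le

theorem F_bdd2 (H : HT q m χ h) {k : ℕ} (hm : m = 2 * (k + 1)) : ∃ C : ℝ,
    ∀ᶠ ε : ℝ in 𝓝[>] 0, ‖Fs h (pt 0 ε)‖ ≤ C := by
  obtain ⟨C, hC, h1⟩ := F_le H 0
  obtain ⟨D, hD, h2⟩ := pole_L (Ph χ)
  obtain ⟨A, hA, h5⟩ := Gm_small k
  refine ⟨C + A * D, ?_⟩
  filter_upwards [h2, small] with ε h3 h4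
  refine (h1 ε h4.1 h4.2).trans (add_le_add le_rfl ?_)
  have e1 : pt 0 ε = 1 + ε := by unfold pt; simp
  have h6 : ‖Gm m (pt 0 ε)‖ ≤ A * ε := by
    rw [e1, hm]
    exact h5 ε h4.1.le
  rw [mul_zero]
  have h7 := mul_le_mul h6 h3 (norm_nonneg _) (by have := h4.1; positivity)
  refine h7.trans (le_of_eq ?_)
  have := h4.1.ne'
  field_simp

theorem F_pole (H : HT q m χ h) : ∃ C : ℝ, 0 < C ∧
    ∀ᶠ ε : ℝ in 𝓝[>] 0, ‖Fs h (pt 0 ε)‖ ≤ C / ε := by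
  obtain ⟨C, hC, h1⟩ := F_le H 0
  obtain ⟨D, hD, h2⟩ := pole_L (Ph χ)
  refine ⟨C + Real.pi * D + 1, by positivity, ?_⟩
  filter_upwards [h2, small] with ε h3 h4
  have h5 := h1 ε h4.1 h4.2
  rw [mul_zero] at h5
  have h6 := mul_le_mul (norm_Gm_le m (s := pt 0 ε) (by rw [pt_re]; linarith [h4.1])) h3
    (norm_nonneg _) Real.pi_pos.le
  have h7 : C ≤ C / ε := by
    rw [le_div_iff₀ h4.1]
    nlinarith [h4.1, h4.2]
  have h8 : 0 ≤ 1 / ε := by have := h4.1; positivity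
  calc ‖Fs h (pt 0 ε)‖ ≤ C / ε + Real.pi * (D / ε) + 1 / ε := by linarith
    _ = _ := by ring

/-- for odd `m` the mean of the residue function vanishes -/
theorem sum_odd (H : HT q m χ h) (hm : Odd m) : ∑ y, Ph χ y = 0 := by
  have hq : (0 : ℤ) < q := by exact_mod_cast Nat.pos_of_ne_zero (NeZero.ne q)
  have h1 : ∀ x y : ZMod q, χ (-x) (-y) = -χ x y := by
    intro x y
    set a : GaussianInt := ⟨(x.val : ℤ) + q, (y.val : ℤ)⟩ with ha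
    have ha0 : a ≠ 0 := by
      intro h0
      have := congrArg Zsqrtd.re h0
      simp only [ha, Zsqrtd.re_zero] at this
      omega
    have h2 := H.eq a ha0
    have h3 := H.eq (-a) (neg_ne_zero.2 ha0)
    rw [H.even] at h3
    have e1 : ((a.re : ℤ) : ZMod q) = x := by
      rw [ha]
      push_cast
      simp
    have e2 : ((a.im : ℤ) : ZMod q) = y := by
      rw [ha]
      push_cast
      simp
    have e3 : (((-a).re : ℤ) : ZMod q) = -x := by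
      rw [Zsqrtd.re_neg, Int.cast_neg, e1]
    have e4 : (((-a).im : ℤ) : ZMod q) = -y := by
      rw [Zsqrtd.im_neg, Int.cast_neg, e2]
    have e5 : tc (-a) = -tc a := by
      unfold tc
      rw [Zsqrtd.re_neg, Zsqrtd.im_neg]
      push_cast
      ring
    rw [e1, e2] at h2
    rw [e3, e4, e5, norm_neg, neg_div, hm.neg_pow, h2] at h3
    have h4 : (tc a / (‖tc a‖ : ℂ)) ^ m ≠ 0 := by
      rw [← norm_ne_zero_iff, norm_pow, norm_phase a ha0, one_pow]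
      exact one_ne_zero
    have h5 : χ x y * (tc a / (‖tc a‖ : ℂ)) ^ m = (-χ (-x) (-y)) * (tc a / (‖tc a‖ : ℂ)) ^ m := by
      rw [h3]
      ring
    have h6 := mul_right_cancel₀ h4 h5
    rw [h6]
    ring
  have h2 : ∑ y, Ph χ y = -∑ y, Ph χ y := by
    rw [← Finset.sum_neg_distrib]
    refine Eq.trans (Equiv.sum_comp (Equiv.neg (ZMod q)) (Ph χ)).symm ?_
    refine Finset.sum_congr rfl fun y _ => ?_
    unfold Ph
    rw [← Finset.sum_neg_distrib]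
    refine Eq.trans (Equiv.sum_comp (Equiv.neg (ZMod q)) fun x => χ x ((Equiv.neg (ZMod q)) y)).symm ?_
    exact Finset.sum_congr rfl fun x _ => h1 x y
  have h3 : (2 : ℂ) * ∑ y, Ph χ y = 0 := by linear_combination h2
  exact (mul_eq_zero.1 h3).resolve_left two_ne_zero

/-- **The Dirichlet series is bounded near the line.** -/
theorem F_bdd (H : HT q m χ h) {τ : ℝ} (hτ : τ ≠ 0 ∨ ∑ y, Ph χ y = 0 ∨ m ≠ 0) : ∃ C : ℝ,
    ∀ᶠ ε : ℝ in 𝓝[>] 0, ‖Fs h (pt τ ε)‖ ≤ C := by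
  by_cases h1 : τ ≠ 0 ∨ ∑ y, Ph χ y = 0
  · exact F_bdd1 H h1
  · obtain ⟨h2, h3⟩ := not_or.1 h1
    have h4 : m ≠ 0 := by tauto
    have h5 : ¬ Odd m := fun h => h3 (sum_odd H h)
    rw [Nat.not_odd_iff_even] at h5
    obtain ⟨j, hj⟩ := h5
    obtain ⟨k, rfl⟩ : ∃ k, j = k + 1 := ⟨j - 1, by omega⟩
    rw [not_not] at h2
    subst h2
    exact F_bdd2 H (k := k) (by omega)

end

end Run7.h186.ML
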