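import Pool.Agent.Run7.h186.ML5
import Pool.Agent.H304R3.HK.LgB
import Pool.Agent.H304R3.HK.LogDerH
import Pool.Agent.H341R2.Bessel

/-! The sum over the primes is bounded above by the logarithm of the Dirichlet series. -/

set_option autoImplicit false

namespace Run7.h186.ML

open MeasureTheory Filter Topology Complex
open Pool.Agent.H304R3.HK (tc CS bb UH Lg lg_bb ccf ts)
open Pool.Agent.H304R3.HK.LogDerH (lco lco_summable F_exp term_b lco_norm_le bco)
open Pool.Agent.H341R2 (E lam lam_bounded)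

noncomputable section

variable {q m : ℕ} [NeZero q] {χ : ZMod q → ZMod q → ℂ} {h : GaussianInt →* ℂ}

theorem hasSum_Fs (H : HT q m χ h) (hh : UH h) (s : ℂ) (hs : 1 < s.re) :
    HasSum (fun n : ℕ => bb h n * (n : ℂ) ^ (-s)) (Fs h s) := by
  have hL := lg_bb h hh
  have h1 : ∀ s : ℂ, LSeries.term (bb h) s = fun n : ℕ => bb h n * (n : ℂ) ^ (-s) := fun s =>
    funext fun n => term_b (bb h) hL.b0 s n
  set s₀ : ℂ := ((min s.re 2 : ℝ) : ℂ) with hs0
  have hre : s₀.re = min s.re 2 := by rw [hs0, Complex.ofReal_re]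
  have h2 := hasSum_bb H (s := s₀) (by rw [hre]; exact lt_min hs (by norm_num))
    (by rw [hre]; exact min_le_right _ _)
  have h3 : LSeriesSummable (bb h) s₀ := by
    unfold LSeriesSummable
    rw [h1]
    exact h2.summable
  have h4 : LSeriesSummable (bb h) s := h3.of_re_le_re (by rw [hre]; exact min_le_left _ _)
  unfold LSeriesSummable at h4
  rw [h1] at h4
  exact h4.hasSum

/-- the real part on the primes -/
def pr (h : GaussianInt → ℂ) (τ : ℝ) (p : Nat.Primes) : ℝ :=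
  (bb h p * ((p : ℕ) : ℂ) ^ (-((τ : ℂ) * I))).re

theorem ccf_prime (h : GaussianInt → ℂ) {p : ℕ} (hp : p.Prime) : ccf h p = bb h p := by
  unfold ccf
  rw [if_pos hp.isPrimePow, hp.minFac_eq, hp.factorization_self]
  rfl

/-- the constant for the prime powers -/
def KP : ℝ := ∑' n : ℕ, (2 / Real.log 2) * ((if n.Prime then 0 else
  ArithmeticFunction.vonMangoldt.residueClass (1 : ZMod 1) n) / n)

theorem E_eq_log (H : HT q m χ h) (hh : UH h) (τ : ℝ) {ε : ℝ} (hε : 0 < ε) :
    Fs h (pt τ ε) ≠ 0 ∧ |E ε (pr h τ) - Real.log ‖Fs h (pt τ ε)‖| ≤ KP := by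
  classical
  have hL := lg_bb h hh
  have hs : 1 < (pt τ ε).re := by rw [pt_re]; linarith
  have hF := F_exp (bb h) (ccf h) hL (Fs h) (fun s hs => hasSum_Fs H hh s hs) (pt τ ε) hs
  refine ⟨by rw [hF]; exact Complex.exp_ne_zero _, ?_⟩
  have hlog : Real.log ‖Fs h (pt τ ε)‖ = (LSeries (lco (ccf h)) (pt τ ε)).re := by
    rw [hF, Complex.norm_exp, Real.log_exp]
  have hsum := lco_summable (bb h) (ccf h) hL (pt τ ε) hs
  set A : ℕ → ℝ := fun n => (LSeries.term (lco (ccf h)) (pt τ ε) n).re with hA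
  have hAs : Summable A := Complex.reCLM.summable hsum
  have hAt : (LSeries (lco (ccf h)) (pt τ ε)).re = ∑' n, A n := by
    unfold LSeries
    exact Complex.re_tsum hsum
  have hsplit := hAs.tsum_subtype_add_tsum_subtype_compl {n : ℕ | n.Prime}
  have hpr : ∑' p : ↥{n : ℕ | n.Prime}, A p = E ε (pr h τ) := by
    unfold E
    show ∑' p : Nat.Primes, A p = _
    refine tsum_congr fun p => ?_
    have hp0 : (p : ℕ) ≠ 0 := p.2.ne_zero
    have hpc : ((p : ℕ) : ℂ) ≠ 0 := by exact_mod_cast hp0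
    have hppos : (0 : ℝ) < ((p : ℕ) : ℝ) := by exact_mod_cast p.2.pos
    rw [hA]
    simp only
    rw [LSeries.term_of_ne_zero hp0]
    have e1 : lco (ccf h) p = bb h p := by
      unfold lco bco
      rw [ccf_prime h p.2, ArithmeticFunction.vonMangoldt_apply_prime p.2]
      have hl : (Real.log ((p : ℕ) : ℝ) : ℂ) ≠ 0 := by
        have := Real.log_pos (show (1 : ℝ) < ((p : ℕ) : ℝ) by exact_mod_cast p.2.one_lt)
        exact_mod_cast this.ne'
      field_simp
    have e2 : bb h p / ((p : ℕ) : ℂ) ^ (pt τ ε) =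
        bb h p * ((p : ℕ) : ℂ) ^ (-((τ : ℂ) * I)) * (((((p : ℕ) : ℝ) ^ (-(1 + ε)) : ℝ)) : ℂ) := by
      rw [Complex.ofReal_cpow hppos.le, Complex.ofReal_natCast, mul_assoc, ← Complex.cpow_add _ _ hpc,
        div_eq_mul_inv, ← Complex.cpow_neg]
      congr 2
      unfold pt
      push_cast
      ring
    rw [e1, e2, Complex.re_mul_ofReal]
    rfl
  have hbd : |∑' n : ↥({n : ℕ | n.Prime}ᶜ), A n| ≤ KP := by
    have g0 := ArithmeticFunction.vonMangoldt.summable_residueClass_non_primes_div (1 : ZMod 1)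
    set B : ℕ → ℝ := fun n => (2 / Real.log 2) * ((if n.Prime then 0 else
      ArithmeticFunction.vonMangoldt.residueClass (1 : ZMod 1) n) / n) with hB
    have g1 : Summable B := g0.mul_left (2 / Real.log 2)
    have hlog2 : 0 < Real.log 2 := Real.log_pos (by norm_num)
    have g2 : ∀ n, 0 ≤ B n := by
      intro n
      rw [hB]
      have := ArithmeticFunction.vonMangoldt.residueClass_nonneg (1 : ZMod 1) n
      simp only
      split_ifs <;> positivity
    have g3 : ∀ n : ↥({n : ℕ | n.Prime}ᶜ), ‖A n‖ ≤ B n := by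
      rintro ⟨n, hn⟩
      have hn' : ¬ n.Prime := hn
      simp only [hA, hB, if_neg hn']
      have hres : ArithmeticFunction.vonMangoldt.residueClass (1 : ZMod 1) n =
          ArithmeticFunction.vonMangoldt n := by
        rw [ArithmeticFunction.vonMangoldt.residueClass, Set.indicator_of_mem]
        exact Subsingleton.elim _ _
      rw [hres, Real.norm_eq_abs]
      refine (Complex.abs_re_le_norm _).trans ?_
      rcases eq_or_ne n 0 with rfl | hn0
      · rw [LSeries.term_zero, norm_zero]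
        simp
      · have hn1 : (1 : ℝ) ≤ n := by exact_mod_cast Nat.pos_of_ne_zero hn0
        rw [LSeries.term_of_ne_zero hn0, norm_div, Complex.norm_natCast_cpow_of_pos
          (Nat.pos_of_ne_zero hn0), ← mul_div_assoc]
        have k1 := lco_norm_le (bb h) (ccf h) hL n
        have k2 : (n : ℝ) ≤ (n : ℝ) ^ (pt τ ε).re := by
          conv_lhs => rw [← Real.rpow_one (n : ℝ)]
          exact Real.rpow_le_rpow_of_exponent_le hn1 hs.le
        have k3 : (0 : ℝ) ≤ (2 / Real.log 2) * ArithmeticFunction.vonMangoldt n :=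
          (norm_nonneg _).trans k1
        exact div_le_div₀ k3 k1 (by linarith) k2
    have g4 : HasSum (fun n : ↥({n : ℕ | n.Prime}ᶜ) => B n)
        (∑' n : ↥({n : ℕ | n.Prime}ᶜ), B n) := (g1.subtype _).hasSum
    have g5 := tsum_of_norm_bounded g4 g3
    refine g5.trans ?_
    exact Summable.tsum_subtype_le B _ g2 g1
  rw [hlog, hAt, ← hsplit, hpr, sub_add_cancel_left, abs_neg]
  exact hbd

/-- **The sum over the primes.** -/
theorem E_bdd (H : HT q m χ h) (hh : UH h) {τ : ℝ} (hτ : τ ≠ 0 ∨ ∑ y, Ph χ y = 0 ∨ m ≠ 0) :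
    ∃ C : ℝ, ∀ᶠ ε : ℝ in 𝓝[>] 0, E ε (pr h τ) ≤ C := by
  obtain ⟨C, hC⟩ := F_bdd H hτ
  refine ⟨Real.log (max C 1) + KP, ?_⟩
  filter_upwards [hC, small] with ε h1 h2
  obtain ⟨h3, h4⟩ := E_eq_log H hh τ h2.1
  have h5 := (abs_le.1 h4).2
  have h6 : Real.log ‖Fs h (pt τ ε)‖ ≤ Real.log (max C 1) :=
    Real.log_le_log (norm_pos_iff.2 h3) (h1.trans (le_max_left _ _))
  linarith

theorem E_pole (H : HT q m χ h) (hh : UH h) :
    ∃ C : ℝ, ∀ᶠ ε : ℝ in 𝓝[>] 0, E ε (pr h 0) ≤ lam ε + C := by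
  obtain ⟨C, hC0, hC⟩ := F_pole H
  obtain ⟨D, hD⟩ := lam_bounded
  refine ⟨Real.log C + D + KP, ?_⟩
  filter_upwards [hC, hD, small] with ε h1 h7 h2
  obtain ⟨h3, h4⟩ := E_eq_log H hh 0 h2.1
  have h5 := (abs_le.1 h4).2
  have h6 : Real.log ‖Fs h (pt 0 ε)‖ ≤ Real.log (C / ε) :=
    Real.log_le_log (norm_pos_iff.2 h3) h1
  rw [Real.log_div hC0.ne' h2.1.ne'] at h6
  have h8 := (abs_le.1 h7).1
  linarith

end

end Run7.h186.ML
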