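import Pool.Agent.Run7.h186.ML6

/-! Functions which are periodic up to a power of the phase. -/

set_option autoImplicit false

namespace Run7.h186.ML

open MeasureTheory Filter Topology Complex ComplexConjugate
open Pool.Agent.H304R3.HK (tc CS bb UH)
open Pool.Agent.H304R3.HK.M3 (h_neg)
open Pool.Agent.H341R2 (E lam lam_bounded)

noncomputable section

/-- the phase -/
def phs (a : GaussianInt) : ℂ := tc a / (‖tc a‖ : ℂ)

theorem tc_mul (a b : GaussianInt) : tc (a * b) = tc a * tc b := by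
  simp only [tc, Zsqrtd.re_mul, Zsqrtd.im_mul]
  push_cast
  linear_combination (-(a.im : ℂ) * b.im) * Complex.I_sq

theorem tc_one : tc 1 = 1 := by simp [tc]

theorem tc_star (a : GaussianInt) : tc (star a) = conj (tc a) := by
  unfold tc
  rw [Zsqrtd.re_star, Zsqrtd.im_star]
  simp only [map_add, map_mul, Complex.conj_I, Int.cast_neg]
  have e : ∀ n : ℤ, conj (n : ℂ) = (n : ℂ) := fun n => by
    rw [← Complex.ofReal_intCast, Complex.conj_ofReal]
  rw [e, e]
  ring

theorem phs_ne {a : GaussianInt} (ha : a ≠ 0) : phs a ≠ 0 := by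
  rw [← norm_ne_zero_iff]
  unfold phs
  rw [norm_phase a ha]
  exact one_ne_zero

theorem conj_phs {a : GaussianInt} (ha : a ≠ 0) : conj (phs a) = (phs a)⁻¹ := by
  have h1 : phs a * conj (phs a) = 1 := by
    rw [Complex.mul_conj, Complex.normSq_eq_norm_sq]
    unfold phs
    rw [norm_phase a ha]
    norm_num
  exact (eq_inv_of_mul_eq_one_right h1)

theorem phs_star {a : GaussianInt} (ha : a ≠ 0) : phs (star a) = (phs a)⁻¹ := by
  rw [← conj_phs ha]
  unfold phs
  rw [tc_star, Complex.norm_conj, map_div₀, Complex.conj_ofReal]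

/-- `h` is a function of the residue modulo `q` times the `n`-th power of the phase -/
def PT (h : GaussianInt → ℂ) (n : ℤ) (q : ℕ) : Prop :=
  ∀ a b : GaussianInt, a ≠ 0 → b ≠ 0 → (q : GaussianInt) ∣ a - b →
    h a * phs b ^ n = h b * phs a ^ n

theorem PT.mul {h1 h2 : GaussianInt → ℂ} {n1 n2 : ℤ} {q1 q2 : ℕ} (H1 : PT h1 n1 q1)
    (H2 : PT h2 n2 q2) : PT (fun a => h1 a * h2 a) (n1 + n2) (q1 * q2) := by
  intro a b ha hb hab
  have h3 := H1 a b ha hb (dvd_trans ⟨(q2 : GaussianInt), by push_cast; ring⟩ hab)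
  have h4 := H2 a b ha hb (dvd_trans ⟨(q1 : GaussianInt), by push_cast; ring⟩ hab)
  simp only
  rw [zpow_add₀ (phs_ne hb), zpow_add₀ (phs_ne ha)]
  linear_combination (h2 a * phs b ^ n2) * h3 + (h1 b * phs a ^ n1) * h4

theorem PT.conj {h : GaussianInt → ℂ} {n : ℤ} {q : ℕ} (H : PT h n q) :
    PT (fun a => conj (h a)) (-n) q := by
  intro a b ha hb hab
  have h1 := congrArg conj (H a b ha hb hab)
  rw [map_mul, map_mul, map_zpow₀, map_zpow₀, conj_phs ha, conj_phs hb, inv_zpow', inv_zpow'] at h1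
  exact h1

theorem star_dvd {q : ℕ} {a b : GaussianInt} (h : (q : GaussianInt) ∣ a - b) :
    (q : GaussianInt) ∣ star a - star b := by
  obtain ⟨c, hc⟩ := h
  refine ⟨star c, ?_⟩
  rw [← star_sub, hc, star_mul, star_natCast]
  ring

theorem PT.star {h : GaussianInt → ℂ} {n : ℤ} {q : ℕ} (H : PT h n q) :
    PT (fun a => h (star a)) (-n) q := by
  intro a b ha hb hab
  have h1 := H (Star.star a) (Star.star b) (star_ne_zero.2 ha) (star_ne_zero.2 hb) (star_dvd hab)
  rw [phs_star ha, phs_star hb, inv_zpow', inv_zpow'] at h1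
  exact h1

section
variable {q : ℕ} [NeZero q]

/-- the nonzero representative -/
def rep (x y : ZMod q) : GaussianInt := ⟨(x.val : ℤ) + q, (y.val : ℤ)⟩

theorem rep_ne (x y : ZMod q) : rep x y ≠ 0 := by
  have hq : (0 : ℤ) < q := by exact_mod_cast Nat.pos_of_ne_zero (NeZero.ne q)
  intro h0
  have := congrArg Zsqrtd.re h0
  simp only [rep, Zsqrtd.re_zero] at this
  omega

theorem rep_re (x y : ZMod q) : (((rep x y).re : ℤ) : ZMod q) = x := by
  unfold rep
  push_cast
  simp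

theorem rep_im (x y : ZMod q) : (((rep x y).im : ℤ) : ZMod q) = y := by
  unfold rep
  push_cast
  simp

theorem dvd_iff {a b : GaussianInt} : (q : GaussianInt) ∣ a - b ↔
    ((a.re : ℤ) : ZMod q) = b.re ∧ ((a.im : ℤ) : ZMod q) = b.im := by
  have e : ((q : ℕ) : GaussianInt) = ((q : ℤ) : GaussianInt) := by push_cast; rfl
  rw [e, Zsqrtd.intCast_dvd, Zsqrtd.re_sub, Zsqrtd.im_sub]
  rw [← Int.cast_natCast (R := ℤ)] at *
  constructor
  · rintro ⟨h1, h2⟩
    constructor
    · have := (ZMod.intCast_eq_intCast_iff_dvd_sub b.re a.re q).2 h1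
      exact this.symm
    · have := (ZMod.intCast_eq_intCast_iff_dvd_sub b.im a.im q).2 h2
      exact this.symm
  · rintro ⟨h1, h2⟩
    exact ⟨(ZMod.intCast_eq_intCast_iff_dvd_sub b.re a.re q).1 h1.symm,
      (ZMod.intCast_eq_intCast_iff_dvd_sub b.im a.im q).1 h2.symm⟩

/-- the residue function -/
def rf (h : GaussianInt → ℂ) (m : ℕ) (x y : ZMod q) : ℂ := h (rep x y) / phs (rep x y) ^ m

theorem PT.HT {h : GaussianInt → ℂ} {m : ℕ} (H : PT h m q) (h0 : h 0 = 0)
    (he : ∀ a, h (-a) = h a) (hb : ∀ a, ‖h a‖ ≤ 1) : HT q m (rf h m) h := by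
  refine ⟨h0, he, fun x y => ?_, fun a ha => ?_⟩
  · unfold rf
    rw [norm_div, norm_pow]
    have e : ‖phs (rep x y)‖ = 1 := norm_phase _ (rep_ne x y)
    rw [e, one_pow, div_one]
    exact hb _
  · have h1 := H a (rep (a.re : ZMod q) (a.im : ZMod q)) ha (rep_ne _ _)
      (dvd_iff.2 ⟨(rep_re _ _).symm, (rep_im _ _).symm⟩)
    rw [zpow_natCast, zpow_natCast] at h1
    unfold rf
    have h2 : phs (rep (a.re : ZMod q) (a.im : ZMod q)) ^ m ≠ 0 := pow_ne_zero _ (phs_ne (rep_ne _ _))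
    rw [div_mul_eq_mul_div, eq_div_iff h2, h1]
    rfl

/-- a nontrivial character has mean zero -/
theorem sum_char {h : GaussianInt →* ℂ} (H : PT h 0 q) {a : GaussianInt}
    (ha : IsCoprime a (q : GaussianInt)) (ha0 : a ≠ 0) (h1 : h a ≠ 1) :
    ∑ y, Ph (rf (q := q) h 0) y = 0 := by
  classical
  have hper : ∀ b c : GaussianInt, b ≠ 0 → c ≠ 0 → (q : GaussianInt) ∣ b - c → h b = h c := by
    intro b c hb hc hbc
    have := H b c hb hc hbc
    simpa using this
  have e1 : ∑ y, Ph (rf (q := q) h 0) y = ∑ z : ZMod q × ZMod q, h (rep z.1 z.2) := by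
    unfold Ph rf
    rw [Fintype.sum_prod_type_right]
    simp
  obtain ⟨u, v, huv⟩ := ha
  set μ : GaussianInt → ZMod q × ZMod q → ZMod q × ZMod q := fun c z =>
    (((c * rep z.1 z.2).re : ℤ), ((c * rep z.1 z.2).im : ℤ)) with hμ
  have hcomp : ∀ (c d : GaussianInt) (z : ZMod q × ZMod q), (q : GaussianInt) ∣ c * d - 1 →
      μ c (μ d z) = z := by
    intro c d z hcd
    have k1 : (q : GaussianInt) ∣ rep (μ d z).1 (μ d z).2 - d * rep z.1 z.2 :=
      dvd_iff.2 ⟨by rw [rep_re], by rw [rep_im]⟩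
    have k2 : (q : GaussianInt) ∣ c * rep (μ d z).1 (μ d z).2 - rep z.1 z.2 := by
      have : c * rep (μ d z).1 (μ d z).2 - rep z.1 z.2 =
          c * (rep (μ d z).1 (μ d z).2 - d * rep z.1 z.2) + (c * d - 1) * rep z.1 z.2 := by ring
      rw [this]
      exact dvd_add (Dvd.dvd.mul_left k1 _) (Dvd.dvd.mul_right hcd _)
    obtain ⟨k3, k4⟩ := dvd_iff.1 k2
    refine Prod.ext ?_ ?_
    · show (((c * rep (μ d z).1 (μ d z).2).re : ℤ) : ZMod q) = z.1
      rw [k3, rep_re]
    · show (((c * rep (μ d z).1 (μ d z).2).im : ℤ) : ZMod q) = z.2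
      rw [k4, rep_im]
  have hd1 : (q : GaussianInt) ∣ u * a - 1 := ⟨-v, by linear_combination huv⟩
  have hd2 : (q : GaussianInt) ∣ a * u - 1 := by rw [mul_comm]; exact hd1
  let σ : ZMod q × ZMod q ≃ ZMod q × ZMod q :=
    ⟨μ a, μ u, fun z => hcomp u a z hd1, fun z => hcomp a u z hd2⟩
  have e2 : ∑ z : ZMod q × ZMod q, h (rep z.1 z.2) =
      h a * ∑ z : ZMod q × ZMod q, h (rep z.1 z.2) := by
    conv_lhs => rw [← Equiv.sum_comp σ]
    rw [Finset.mul_sum]
    refine Finset.sum_congr rfl fun z _ => ?_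
    rw [← map_mul]
    refine hper _ _ (rep_ne _ _) (mul_ne_zero ha0 (rep_ne _ _)) (dvd_iff.2 ⟨?_, ?_⟩)
    · rw [rep_re]
      rfl
    · rw [rep_im]
      rfl
  rw [e1]
  have h2 : (1 - h a) * ∑ z : ZMod q × ZMod q, h (rep z.1 z.2) = 0 := by linear_combination e2
  exact (mul_eq_zero.1 h2).resolve_left (sub_ne_zero.2 (Ne.symm h1))

end

end

end Run7.h186.ML
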