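import Pool.Agent.Run7.h186.ML7

/-! The sums over the primes of the coefficients and of their products. -/

set_option autoImplicit false

namespace Run7.h186.ML

open MeasureTheory Filter Topology Complex ComplexConjugate
open Pool.Agent.H304R3.HK (tc CS bb UH bb_zero bb_two_odd ee)
open Pool.Agent.H304R3.HK.M3 (h_neg In b_odd b_two)
open Pool.Agent.H304R2.EC (PS Sh Sh_one Sh_mul Sh_inert Sh_split PS_split)
open Pool.Agent.H341R2 (E lam lam_bounded)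

noncomputable section

/-- the complex conjugate character -/
def cj (h : GaussianInt →* ℂ) : GaussianInt →* ℂ := (starRingEnd ℂ : ℂ →* ℂ).comp h

theorem cj_apply (h : GaussianInt →* ℂ) (a : GaussianInt) : cj h a = conj (h a) := rfl

/-- the conjugate of a character composed with the conjugation of `ℤ[i]` -/
def sj (h : GaussianInt →* ℂ) : GaussianInt →* ℂ :=
  (cj h).comp (starRingEnd GaussianInt : GaussianInt →* GaussianInt)

theorem sj_apply (h : GaussianInt →* ℂ) (a : GaussianInt) : sj h a = conj (h (star a)) := rfl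

theorem UH.cj {h : GaussianInt →* ℂ} (H : UH h) : UH (cj h) := by
  refine ⟨?_, fun a => ?_, ?_⟩
  · rw [cj_apply, H.h0, map_zero]
  · rw [cj_apply, Complex.norm_conj]; exact H.hb a
  · rw [cj_apply, H.hi, map_one]

theorem UH.neg_i {h : GaussianInt →* ℂ} (H : UH h) : h ⟨0, -1⟩ = 1 := by
  have e : (⟨0, -1⟩ : GaussianInt) = -⟨0, 1⟩ := by ext <;> simp
  rw [e, h_neg H, H.hi]

theorem UH.sj {h : GaussianInt →* ℂ} (H : UH h) : UH (sj h) := by
  refine ⟨?_, fun a => ?_, ?_⟩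
  · rw [sj_apply, star_zero, H.h0, map_zero]
  · rw [sj_apply, Complex.norm_conj]; exact H.hb _
  · have e : star (⟨0, 1⟩ : GaussianInt) = ⟨0, -1⟩ := by ext <;> simp
    rw [sj_apply, e, UH.neg_i H, map_one]

theorem UH.mul {h h' : GaussianInt →* ℂ} (H : UH h) (H' : UH h') : UH (h * h') := by
  refine ⟨?_, fun a => ?_, ?_⟩
  · rw [MonoidHom.mul_apply, H.h0, zero_mul]
  · rw [MonoidHom.mul_apply, norm_mul]
    exact mul_le_one₀ (H.hb a) (norm_nonneg _) (H'.hb a)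
  · rw [MonoidHom.mul_apply, H.hi, H'.hi, one_mul]

theorem PT.cj {h : GaussianInt →* ℂ} {n : ℤ} {q : ℕ} (H : PT h n q) : PT (cj h) (-n) q := H.conj

theorem PT.sj {h : GaussianInt →* ℂ} {n : ℤ} {q : ℕ} (H : PT h n q) : PT (sj h) n q := by
  have := H.star.conj
  rw [neg_neg] at this
  exact this

theorem PT.mul' {h h' : GaussianInt →* ℂ} {n n' : ℤ} {q q' : ℕ} (H : PT h n q) (H' : PT h' n' q') :
    PT (h * h' : GaussianInt →* ℂ) (n + n') (q * q') := H.mul H'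

/-- the coefficients are bounded -/
theorem bb_prime_le {h : GaussianInt →* ℂ} (H : UH h) (p : Nat.Primes) : ‖bb h p‖ ≤ 2 := by
  have := (Pool.Agent.H304R3.HK.lg_bb h H).bd p
  rw [p.2.divisors, Finset.card_pair (Ne.symm p.2.ne_one)] at this
  exact_mod_cast this

theorem norm_pIτ (τ : ℝ) (p : Nat.Primes) : ‖((p : ℕ) : ℂ) ^ (-((τ : ℂ) * I))‖ = 1 := by
  rw [Complex.norm_natCast_cpow_of_pos p.2.pos]
  simp

theorem pr_le {h : GaussianInt →* ℂ} (H : UH h) (τ : ℝ) (p : Nat.Primes) : |pr h τ p| ≤ 2 := by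
  unfold pr
  refine (Complex.abs_re_le_norm _).trans ?_
  rw [norm_mul, norm_pIτ, mul_one]
  exact bb_prime_le H p

theorem bb_cj (h : GaussianInt →* ℂ) (n : ℕ) : bb (cj h) n = conj (bb h n) := by
  unfold bb
  rw [map_mul, map_sum]
  have e : conj (1 / 4 : ℂ) = 1 / 4 := by
    rw [map_div₀, map_one]
    congr 1
    exact Complex.conj_ofNat 4
  rw [e]
  rfl

theorem conj_pIτ (τ : ℝ) (p : Nat.Primes) :
    conj (((p : ℕ) : ℂ) ^ (-((τ : ℂ) * I))) = ((p : ℕ) : ℂ) ^ (-(((-τ : ℝ) : ℂ) * I)) := by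
  have harg : ((p : ℕ) : ℂ).arg ≠ Real.pi := by
    rw [Complex.natCast_arg]
    exact Real.pi_pos.ne
  have h1 := Complex.cpow_conj ((p : ℕ) : ℂ) (-((τ : ℂ) * I)) harg
  rw [Complex.conj_natCast] at h1
  rw [← h1]
  congr 1
  simp

theorem pr_cj (h : GaussianInt →* ℂ) (τ : ℝ) : pr (cj h) (-τ) = pr h τ := by
  funext p
  unfold pr
  rw [bb_cj, ← conj_pIτ, ← map_mul, Complex.conj_re]

/-- **The sum of the coefficients over the primes is bounded above.** -/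
theorem E_char {h : GaussianInt →* ℂ} (H : UH h) {n : ℤ} {q : ℕ} (hq : q ≠ 0) (hP : PT h n q)
    {τ : ℝ} (hτ : τ ≠ 0 ∨ n ≠ 0 ∨ ∃ a : GaussianInt, a ≠ 0 ∧ IsCoprime a (q : GaussianInt) ∧ h a ≠ 1) :
    ∃ C : ℝ, ∀ᶠ ε : ℝ in 𝓝[>] 0, E ε (pr h τ) ≤ C := by
  haveI : NeZero q := ⟨hq⟩
  rcases le_or_gt 0 n with hn | hn
  · obtain ⟨m, rfl⟩ := Int.eq_ofNat_of_zero_le hn
    refine E_bdd (hP.HT H.h0 (fun a => h_neg H a) H.hb) H ?_
    rcases hτ with h1 | h1 | ⟨a, ha0, ha, h1⟩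
    · exact Or.inl h1
    · exact Or.inr (Or.inr (by omega))
    · rcases eq_or_ne m 0 with rfl | hm
      · exact Or.inr (Or.inl (sum_char hP ha ha0 h1))
      · exact Or.inr (Or.inr hm)
  · obtain ⟨m, hm⟩ := Int.eq_ofNat_of_zero_le (show 0 ≤ -n by omega)
    have hP' := hP.cj
    rw [hm] at hP'
    have h2 := E_bdd (τ := -τ) (hP'.HT (UH.cj H).h0 (fun a => h_neg (UH.cj H) a) (UH.cj H).hb)
      (UH.cj H) (Or.inr (Or.inr (by omega)))
    rw [pr_cj] at h2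
    exact h2

/-- the principal case -/
theorem E_char0 {h : GaussianInt →* ℂ} (H : UH h) {q : ℕ} (hq : q ≠ 0) (hP : PT h 0 q) :
    ∃ C : ℝ, ∀ᶠ ε : ℝ in 𝓝[>] 0, E ε (pr h 0) ≤ lam ε + C := by
  haveI : NeZero q := ⟨hq⟩
  exact E_pole (PT.HT (m := 0) hP H.h0 (fun a => h_neg H a) H.hb) H

/-! ### Products -/

theorem UH.In {h : GaussianInt →* ℂ} (H : UH h) : In h :=
  ⟨bb_zero h H.h0, fun k m hm => bb_two_odd h H.hi k m hm⟩

theorem bb_inert {h : GaussianInt →* ℂ} (H : UH h) {p : ℕ} (hp : p.Prime) (h3 : p % 4 = 3) :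
    bb h p = 0 := by
  rw [b_odd (UH.In H) p (by omega)]
  exact (Sh_inert h p hp h3 0).1

theorem bb_two {h : GaussianInt →* ℂ} (H : UH h) : bb h 2 = h ⟨1, 1⟩ := by
  have := b_two (UH.In H) 1
  rwa [pow_one, pow_one] at this

theorem bb_split {p : ℕ} (hp : p.Prime) (h1 : p % 4 = 1) : ∃ z : GaussianInt, z * star z = p ∧
    ∀ h : GaussianInt →* ℂ, UH h → bb h p = h z + h (star z) := by
  obtain ⟨a, b, hb0, hb, hab, hn, hPS⟩ := PS_split p hp h1
  refine ⟨⟨a, b⟩, ?_, fun h H => ?_⟩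
  · ext
    · rw [Zsqrtd.re_mul]
      simp only [Zsqrtd.re_natCast, Zsqrtd.re_star, Zsqrtd.im_star]
      rw [← hn]
      ring
    · rw [Zsqrtd.im_mul]
      simp only [Zsqrtd.im_natCast, Zsqrtd.re_star, Zsqrtd.im_star]
      ring
  · rw [b_odd (UH.In H) p (by omega)]
    unfold Sh
    rw [hPS, Finset.sum_pair]
    · rfl
    · intro heq
      rw [Prod.mk.injEq] at heq
      omega

/-- the product of the coefficients -/
theorem bb_prod {h h' : GaussianInt →* ℂ} (H : UH h) (H' : UH h') (p : Nat.Primes) :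
    bb h p * conj (bb h' p) = bb (h * cj h' : GaussianInt →* ℂ) p +
      bb (h * sj h' : GaussianInt →* ℂ) p -
      if (p : ℕ) = 2 then bb (h * cj h' : GaussianInt →* ℂ) 2 else 0 := by
  have H1 := UH.mul H (UH.cj H')
  have H2 := UH.mul H (UH.sj H')
  rcases Pool.Agent.H304R3.HK.M3.p_cases p.2 with h2 | ⟨_, h3⟩ | ⟨_, h1⟩
  · rw [if_pos h2, h2, bb_two H, bb_two H', bb_two H1, bb_two H2]
    simp only [MonoidHom.mul_apply, cj_apply, sj_apply]
    have e : (star (⟨1, 1⟩ : GaussianInt)) = ⟨0, -1⟩ * ⟨1, 1⟩ := by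
      ext <;> simp
    rw [e, map_mul, UH.neg_i H', one_mul]
    ring
  · rw [bb_inert H p.2 h3, bb_inert H1 p.2 h3, bb_inert H2 p.2 h3, if_neg]
    · ring
    · intro h4
      rw [h4] at h3
      norm_num at h3
  · obtain ⟨z, -, hz⟩ := bb_split p.2 h1
    rw [hz h H, hz h' H', hz _ H1, hz _ H2, if_neg]
    · simp only [MonoidHom.mul_apply, cj_apply, sj_apply, map_add, star_star]
      ring
    · intro h4
      rw [h4] at h1
      norm_num at h1

/-- the family of functions -/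
def uu (h : GaussianInt → ℂ) (τ : ℝ) (p : Nat.Primes) : ℂ :=
  bb h p * ((p : ℕ) : ℂ) ^ (-((τ : ℂ) * I))

theorem norm_uu {h : GaussianInt →* ℂ} (H : UH h) (τ : ℝ) (p : Nat.Primes) : ‖uu h τ p‖ ≤ 2 := by
  unfold uu
  rw [norm_mul, norm_pIτ, mul_one]
  exact bb_prime_le H p

/-- the correction at the prime `2` -/
def c2c (h : GaussianInt → ℂ) (τ : ℝ) (p : Nat.Primes) : ℝ :=
  if (p : ℕ) = 2 then -pr h τ p else 0

theorem uu_re {h h' : GaussianInt →* ℂ} (H : UH h) (H' : UH h') (τ τ' : ℝ) (p : Nat.Primes) :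
    (uu h τ p * conj (uu h' τ' p)).re = pr (h * cj h' : GaussianInt →* ℂ) (τ - τ') p +
      pr (h * sj h' : GaussianInt →* ℂ) (τ - τ') p +
      c2c (h * cj h' : GaussianInt →* ℂ) (τ - τ') p := by
  have hpc : ((p : ℕ) : ℂ) ≠ 0 := by exact_mod_cast p.2.ne_zero
  have e1 : ((p : ℕ) : ℂ) ^ (-((τ : ℂ) * I)) * conj (((p : ℕ) : ℂ) ^ (-((τ' : ℂ) * I))) =
      ((p : ℕ) : ℂ) ^ (-(((τ - τ' : ℝ) : ℂ) * I)) := by
    rw [conj_pIτ, ← Complex.cpow_add _ _ hpc]
    congr 1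
    push_cast
    ring
  have e2 : uu h τ p * conj (uu h' τ' p) =
      (bb h p * conj (bb h' p)) * ((p : ℕ) : ℂ) ^ (-(((τ - τ' : ℝ) : ℂ) * I)) := by
    rw [← e1]
    unfold uu
    rw [map_mul]
    ring
  rw [e2, bb_prod H H']
  unfold c2c pr
  split_ifs with h2
  · rw [h2]
    rw [sub_mul, add_mul, Complex.sub_re, Complex.add_re]
    ring
  · rw [sub_zero, add_mul, Complex.add_re, add_zero]

theorem c2c_le {h : GaussianInt →* ℂ} (H : UH h) (τ : ℝ) (p : Nat.Primes) : |c2c h τ p| ≤ 2 := by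
  unfold c2c
  split_ifs
  · rw [abs_neg]; exact pr_le H τ p
  · simp

theorem E_c2c {h : GaussianInt →* ℂ} (H : UH h) (τ : ℝ) {ε : ℝ} (hε : 0 < ε) :
    E ε (c2c h τ) ≤ 2 := by
  unfold E
  obtain ⟨p₂, hp2⟩ : ∃ p₂ : Nat.Primes, (p₂ : ℕ) = 2 := ⟨⟨2, Nat.prime_two⟩, rfl⟩
  rw [tsum_eq_single p₂]
  · have h3 := (abs_le.1 (c2c_le H τ p₂)).2
    have h4 : ((p₂ : ℕ) : ℝ) ^ (-(1 + ε)) ≤ 1 :=
      Real.rpow_le_one_of_one_le_of_nonpos (by rw [hp2]; norm_num) (by linarith)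
    have h5 : 0 ≤ ((p₂ : ℕ) : ℝ) ^ (-(1 + ε)) := by positivity
    nlinarith
  · intro p hp
    have : (p : ℕ) ≠ 2 := fun h => hp (Subtype.ext (h.trans hp2.symm))
    unfold c2c
    rw [if_neg this, zero_mul]

/-- **The correlation of two characters.** -/
theorem E_corr {h h' : GaussianInt →* ℂ} (H : UH h) (H' : UH h') (τ τ' : ℝ) {A B : ℝ → ℝ}
    (hA : ∀ᶠ ε : ℝ in 𝓝[>] 0, E ε (pr (h * cj h' : GaussianInt →* ℂ) (τ - τ')) ≤ A ε)
    (hB : ∀ᶠ ε : ℝ in 𝓝[>] 0, E ε (pr (h * sj h' : GaussianInt →* ℂ) (τ - τ')) ≤ B ε) :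
    ∀ᶠ ε : ℝ in 𝓝[>] 0, E ε (fun p => (uu h τ p * conj (uu h' τ' p)).re) ≤ A ε + B ε + 2 := by
  have H1 := UH.mul H (UH.cj H')
  have H2 := UH.mul H (UH.sj H')
  filter_upwards [hA, hB, self_mem_nhdsWithin] with ε h1 h2 h3
  have hε : (0 : ℝ) < ε := h3
  have e : (fun p => (uu h τ p * conj (uu h' τ' p)).re) = fun p =>
      (pr (h * cj h' : GaussianInt →* ℂ) (τ - τ') p + pr (h * sj h' : GaussianInt →* ℂ) (τ - τ') p) +
      c2c (h * cj h' : GaussianInt →* ℂ) (τ - τ') p := funext fun p => uu_re H H' τ τ' p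
  rw [e, Pool.Agent.H341R2.E_add hε (B := 4) (B' := 2) (fun p => (abs_add_le _ _).trans
    (by linarith [pr_le H1 (τ - τ') p, pr_le H2 (τ - τ') p])) (c2c_le H1 _),
    Pool.Agent.H341R2.E_add hε (pr_le H1 _) (pr_le H2 _)]
  have := E_c2c H1 (τ - τ') hε
  linarith

end

end Run7.h186.ML
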