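import Pool.Agent.Run7.h186.ML8
import Pool.Agent.Y149.TL.Fam

/-! Bessel's inequality for complex functions on the primes which are orthogonal from one side. -/

set_option autoImplicit false

namespace Run7.h186.ML

open Finset Filter Topology Complex ComplexConjugate
open Pool.Agent.W540.BE (EP NormSys)
open Pool.Agent.H341R2 (E lam lam_tendsto lam_bounded)
open Pool.Agent.Y149.LN (normSysP E_eq_EP bessel_D)
open Pool.Agent.Y149.CR (norm_sum_sq EP_sum2)
open Pool.Agent.Y149.PK (E_smul abs_E_le lam_pos E_one)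
open Pool.Agent.Y149.TL (ph norm_ph mul_ph)

section
variable {κ : Type*}

/-- complex functions on the primes, bounded by `b`, with mean square at most one and one-sided
bounds for the correlations of different members -/
structure CFam (u : κ → Nat.Primes → ℂ) (b : ℝ) : Prop where
  bd : ∀ x p, ‖u x p‖ ≤ b
  diag : ∀ x, ∃ C : ℝ, ∀ᶠ ε : ℝ in 𝓝[>] 0, E ε (fun p => (u x p * conj (u x p)).re) ≤ lam ε + C
  cross : ∀ x y, x ≠ y → ∃ C : ℝ, ∀ᶠ ε : ℝ in 𝓝[>] 0,
    E ε (fun p => (u x p * conj (u y p)).re) ≤ C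

variable {u : κ → Nat.Primes → ℂ} {b : ℝ}

theorem CFam.corr (h : CFam u b) (x y : κ) : ∃ C : ℝ, 0 ≤ C ∧
    ∀ᶠ ε : ℝ in 𝓝[>] 0, (E ε fun p => (u x p * conj (u y p)).re) ≤
      (open Classical in if x = y then lam ε else 0) + C := by
  classical
  by_cases hxy : x = y
  · subst hxy
    obtain ⟨C, hC⟩ := h.diag x
    refine ⟨|C|, abs_nonneg _, hC.mono fun ε h1 => ?_⟩
    rw [if_pos rfl]
    linarith [le_abs_self C]
  · obtain ⟨C, hC⟩ := h.cross x y hxy
    refine ⟨|C|, abs_nonneg _, hC.mono fun ε h1 => ?_⟩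
    rw [if_neg hxy, zero_add]
    exact h1.trans (le_abs_self C)

theorem CFam.var_le (h : CFam u b) (S : Finset κ) (B : ℝ) :
    ∃ C : ℝ, ∀ᶠ ε : ℝ in 𝓝[>] 0, ∀ w : κ → ℝ, (∀ a ∈ S, 0 ≤ w a ∧ w a ≤ B) →
      (E ε fun p => ‖∑ a ∈ S, (w a : ℂ) * u a p‖ ^ 2) ≤ (∑ a ∈ S, w a ^ 2) * lam ε + C := by
  classical
  choose C hC0 hC using fun x y => h.corr x y
  refine ⟨∑ x ∈ S, ∑ y ∈ S, B ^ 2 * C x y, ?_⟩
  have hev : ∀ᶠ ε : ℝ in 𝓝[>] 0, ∀ x ∈ S, ∀ y ∈ S,
      (E ε fun p => (u x p * conj (u y p)).re) ≤ (if x = y then lam ε else 0) + C x y := by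
    rw [Filter.eventually_all_finset]
    intro x _
    rw [Filter.eventually_all_finset]
    exact fun y _ => hC x y
  filter_upwards [hev, lam_pos, self_mem_nhdsWithin] with ε h1 hlam h2 w hw
  have hε : (0 : ℝ) < ε := h2
  have e1 : (E ε fun p => ‖∑ a ∈ S, (w a : ℂ) * u a p‖ ^ 2) =
      ∑ x ∈ S, ∑ y ∈ S, (w x * w y) * E ε fun p => (u x p * conj (u y p)).re := by
    have e2 : (E ε fun p => ‖∑ a ∈ S, (w a : ℂ) * u a p‖ ^ 2) =
        EP (fun p : Nat.Primes => (p : ℕ)) ε fun p =>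
          ∑ x ∈ S, ∑ y ∈ S, (w x * w y) * (u x p * conj (u y p)).re := by
      rw [E_eq_EP]
      congr 1
      funext p
      exact norm_sum_sq S w fun a => u a p
    rw [e2, EP_sum2 normSysP hε S S (fun x y => w x * w y)
      (fun x y p => (u x p * conj (u y p)).re) (fun _ _ => b * b) (fun x hx y hy p => by
        refine (Complex.abs_re_le_norm _).trans ?_
        rw [norm_mul, Complex.norm_conj]
        exact mul_le_mul (h.bd x p) (h.bd y p) (norm_nonneg _) ((norm_nonneg _).trans (h.bd x p)))]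
    rfl
  rw [e1]
  have h3 : ∑ x ∈ S, ∑ y ∈ S, (w x * w y) * (E ε fun p => (u x p * conj (u y p)).re) ≤
      ∑ x ∈ S, ∑ y ∈ S, ((if x = y then w x ^ 2 * lam ε else 0) + B ^ 2 * C x y) := by
    refine Finset.sum_le_sum fun x hx => Finset.sum_le_sum fun y hy => ?_
    have hcx := hw x hx
    have hcy := hw y hy
    have hcc0 : 0 ≤ w x * w y := mul_nonneg hcx.1 hcy.1
    have hcc1 : w x * w y ≤ B ^ 2 := by
      rw [sq]
      exact mul_le_mul hcx.2 hcy.2 hcy.1 (hcx.1.trans hcx.2)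
    refine (mul_le_mul_of_nonneg_left (h1 x hx y hy) hcc0).trans ?_
    rw [mul_add]
    refine add_le_add ?_ (mul_le_mul_of_nonneg_right hcc1 (hC0 x y))
    by_cases hxy : x = y
    · subst hxy
      rw [if_pos rfl, if_pos rfl]
      exact le_of_eq (by ring)
    · rw [if_neg hxy, if_neg hxy, mul_zero]
  refine h3.trans (le_of_eq ?_)
  have h4 : ∑ x ∈ S, ∑ y ∈ S, ((if x = y then w x ^ 2 * lam ε else 0) + B ^ 2 * C x y) =
      (∑ x ∈ S, ∑ y ∈ S, if x = y then w x ^ 2 * lam ε else 0) +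
      ∑ x ∈ S, ∑ y ∈ S, B ^ 2 * C x y := by
    rw [← Finset.sum_add_distrib]
    exact Finset.sum_congr rfl fun x _ => Finset.sum_add_distrib
  rw [h4]
  congr 1
  rw [Finset.sum_mul]
  refine Finset.sum_congr rfl fun x hx => ?_
  rw [Finset.sum_ite_eq, if_pos hx]

/-- **Bessel's inequality**, for one sign. -/
theorem CFam.bes (h : CFam u b) (S : Finset κ) (Q : Nat.Primes → ℂ) {c : ℝ}
    (hQ : ∀ p, ‖Q p‖ ≤ c) {η : ℝ} (hη : 0 < η) {s : ℝ} (hs : s = 1 ∨ s = -1) :
    ∀ᶠ ε : ℝ in 𝓝[>] 0, ∑ a ∈ S, (max (s * ((E ε fun p => (Q p * u a p).re) / lam ε)) 0) ^ 2 ≤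
      c ^ 2 + η := by
  classical
  have hc0 : 0 ≤ c := (norm_nonneg _).trans (hQ ⟨2, Nat.prime_two⟩)
  have hlam1 : Tendsto (fun ε : ℝ => EP (fun p : Nat.Primes => (p : ℕ)) ε (fun _ => 1) / lam ε)
      (𝓝[>] 0) (𝓝 1) := by
    refine tendsto_const_nhds.congr' ?_
    filter_upwards [lam_pos] with ε hε
    have e : EP (fun p : Nat.Primes => (p : ℕ)) ε (fun _ => 1) = lam ε := E_one ε
    rw [e, div_self hε.ne']
  have hsa : |s| = 1 := by rcases hs with rfl | rfl <;> norm_num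
  have h1 := bessel_D normSysP lam_tendsto hlam1 S (fun a p => ph (Q p) * u a p)
    (fun p => s * ‖Q p‖) (bu := b) (bT := c) (D := 1) zero_lt_one
    (fun a p => by rw [norm_mul, norm_ph, one_mul]; exact h.bd a p)
    (fun p => by
      rw [abs_mul, hsa, one_mul, abs_of_nonneg (norm_nonneg _)]
      exact hQ p) (fun B => by
      obtain ⟨C, hC⟩ := h.var_le S B
      refine ⟨C, ?_⟩
      filter_upwards [hC] with ε h1 w hw
      have e1 : (EP (fun p : Nat.Primes => (p : ℕ)) ε fun p =>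
          ‖∑ a ∈ S, (w a : ℂ) * (ph (Q p) * u a p)‖ ^ 2) =
          E ε fun p => ‖∑ a ∈ S, (w a : ℂ) * u a p‖ ^ 2 := by
        rw [E_eq_EP]
        congr 1
        funext p
        have e2 : ∑ a ∈ S, (w a : ℂ) * (ph (Q p) * u a p) =
            ph (Q p) * ∑ a ∈ S, (w a : ℂ) * u a p := by
          rw [Finset.mul_sum]
          exact Finset.sum_congr rfl fun a _ => by ring
        rw [e2, norm_mul, norm_ph, one_mul]
      rw [e1, one_mul]
      exact h1 w hw)
    (fun a ε => s * ((E ε fun p => (Q p * u a p).re) / lam ε)) (fun a _ => by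
      refine tendsto_const_nhds.congr fun ε => ?_
      have e2 : (EP (fun p : Nat.Primes => (p : ℕ)) ε
          fun p => s * ‖Q p‖ * (ph (Q p) * u a p).re) =
          s * E ε fun p => (Q p * u a p).re := by
        rw [← E_smul, E_eq_EP]
        congr 1
        funext p
        have e3 : (Q p * u a p).re = ‖Q p‖ * (ph (Q p) * u a p).re := by
          conv_lhs => rw [← mul_ph (Q p)]
          rw [mul_assoc, Complex.re_ofReal_mul]
        rw [e3]
        ring
      rw [e2]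
      ring) hη
  filter_upwards [h1, lam_pos, self_mem_nhdsWithin] with ε h2 h3 h4
  have hε : (0 : ℝ) < ε := h4
  refine h2.trans ?_
  rw [one_mul]
  refine add_le_add_left ?_ _
  rw [div_le_iff₀ h3]
  refine (le_abs_self _).trans (abs_E_le hε fun p => ?_)
  rw [abs_pow, abs_mul, hsa, one_mul, abs_of_nonneg (norm_nonneg _)]
  exact pow_le_pow_left₀ (norm_nonneg _) (hQ p) 2

end

end Run7.h186.ML
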