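import Pool.Agent.Run7.h186.Gf

/-!
# The congruences outside the image of the exceptional set, and the theorem
-/

set_option autoImplicit false
set_option linter.unusedSectionVars false

namespace Run7.h186

open Finset Pool.Agent.H23R2 H219.Wh
open Pool.Agent.Y72.Log Pool.Agent.Y72.Dt
open scoped Classical

universe u

section cong

variable {I S : Type*} [Fintype I] [Fintype S] {Γ G : Type*} [Group Γ] [Group G] [Fintype G]
  {gr : S → Γ} {A B : I → I → S → ℤ}

/-- **the main congruence** outside the image of the exceptional set -/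
theorem main_cong_v {p : ℕ} (hp : p.Prime) (h : IP gr A B)
    {U : Set Γ} (hb : Cu Γ U)
    (hA : ∀ l : ℕ, Odd l → ∀ i j a, A i j a ^ l = A i j a)
    (hB : ∀ l : ℕ, Odd l → ∀ i j a, B i j a ^ l = B i j a)
    (π : Γ →* G) (hπ : Function.Surjective π) {a : ℕ} (ha : 1 ≤ a)
    (hnA : NearOne ((p : ℤ) ^ a) (tot (fun s => π (gr s)) A))
    (hnB : NearOne ((p : ℤ) ^ a) (tot (fun s => π (gr s)) B)) {g : G} (hg : p ∣ orderOf g)
    (hgU : ∀ w ∈ U, π w ≠ g) :
    (p : ℤ) ^ (2 * a) ∣ ∑ x : G, ∑ i, tot (fun s => π (gr s)) A i i (x * g * x⁻¹) := by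
  have h1 := trace_van_single hp (ip_res π hπ (Subgroup.zpowers g) h) (hb.subgroup _)
    (fun l hl => matR_pow π _ (by rintro rfl; exact absurd hl (by decide)) (hA l hl))
    (fun l hl => matR_pow π _ (by rintro rfl; exact absurd hl (by decide)) (hB l hl))
    (toQ π (Subgroup.zpowers g)) (isCls_zpowers hp hg) (by
      rintro w hw hwg
      exact hgU w.1 hw (congrArg Subtype.val hwg)) ha
    (near_res π hπ (Subgroup.zpowers g) hnA) (near_res π hπ (Subgroup.zpowers g) hnB)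
  rw [sum_conj_eq g (fun y => ∑ i, tot (fun s => π (gr s)) A i i y)]
  apply Dvd.dvd.mul_left
  rw [Fintype.sum_prod_type, Finset.sum_comm] at h1
  have h2 : ∑ t : G ⧸ Subgroup.zpowers g, ∑ i : I,
      tot (fun s => π (gr s)) A i i (Quotient.out t * g * (Quotient.out t)⁻¹) =
      ∑ t : G ⧸ Subgroup.zpowers g, ∑ i : I,
      tot (fun s => toQ π (Subgroup.zpowers g) (grR π hπ (Subgroup.zpowers g) gr s))
        (matR π (Subgroup.zpowers g) gr A) (i, t) (i, t) ⟨g, Subgroup.mem_zpowers g⟩ := by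
    apply Finset.sum_congr rfl
    intro t _
    apply Finset.sum_congr rfl
    intro i _
    rw [tot_res]
  rw [h2]
  exact h1

end cong

section mc

variable {Γ : Type*} {G : Type u} [Group Γ] [Group G] [Fintype G] {n : ℕ}

/-- **the congruences for the images of an invertible matrix** -/
theorem mcv_of_cu {U : Set Γ} (hb : Cu Γ U) (π : Γ →* G) (hπ : Function.Surjective π)
    (A : (Matrix (Fin n) (Fin n) (MonoidAlgebra ℤ Γ))ˣ) (W : Set G) (hW : ∀ w ∈ U, π w ∈ W) :
    MCV W (mpU π A) := by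
  intro p hp a ha k hk g hg hgl
  obtain ⟨Z, hZ⟩ := hk
  set V := A ^ k with hV
  have hXV : (mpU π A).val ^ k = (mpU π V).val := by
    rw [hV, mpU, mpU, map_pow, Units.val_pow_eq_pow_val]
  rw [hXV] at hZ ⊢
  have hinv : (mpU π V⁻¹).val = 1 + ((p : ℤ) ^ a) • (-(Z * (mpU π V⁻¹).val)) := by
    have h1 : (mpU π V).val * (mpU π V⁻¹).val = 1 := by
      have h2 : mpU π V⁻¹ = (mpU π V)⁻¹ := map_inv _ _
      rw [h2, Units.mul_inv]
    rw [hZ, add_mul, one_mul, smul_mul_assoc] at h1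
    rw [smul_neg, ← sub_eq_add_neg, eq_sub_iff_add_eq]
    exact h1
  set T := supp V.val ∪ supp (V⁻¹).val with hT
  have hTA : ∀ i j g, (V.val i j).coeff g ≠ 0 → g ∈ T :=
    fun i j g hg => Finset.mem_union_left _ (mem_supp _ i j g hg)
  have hTB : ∀ i j g, ((V⁻¹).val i j).coeff g ≠ 0 → g ∈ T :=
    fun i j g hg => Finset.mem_union_right _ (mem_supp _ i j g hg)
  have hKA : ∀ i j g, (cf V.val i j g).natAbs ≤ Kb V :=
    fun i j g => ((exists_bound V.val).choose_spec i j g).trans (le_max_left _ _)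
  have hKB : ∀ i j g, (cf (V⁻¹).val i j g).natAbs ≤ Kb V :=
    fun i j g => ((exists_bound (V⁻¹).val).choose_spec i j g).trans (le_max_right _ _)
  have htA : tot (fun s => π (grl T (Kb V) s)) (lett (cf V.val) T (Kb V)) =
      fun i j g => ((mpU π V).val i j).coeff g := by
    funext i j g
    exact tot_lett π V.val T (Kb V) hTA hKA i j g
  have htB : tot (fun s => π (grl T (Kb V) s)) (lett (cf (V⁻¹).val) T (Kb V)) =
      fun i j g => ((mpU π V⁻¹).val i j).coeff g := by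
    funext i j g
    exact tot_lett π (V⁻¹).val T (Kb V) hTB hKB i j g
  have h1 := main_cong_v hp (ip_of_invPair (invPair_units V) (Kb V) hKA hKB) hb
    (fun l hl => lett_pow hl _ _ _) (fun l hl => lett_pow hl _ _ _) π hπ ha
    (by rw [htA]; exact nearOne_of hZ) (by rw [htB]; exact nearOne_of hinv) hg
    (fun w hw hwg => hgl (hwg ▸ hW w hw))
  rw [htA] at h1
  exact h1

end mc

section fin

variable {Γ : Type*} [Group Γ] {n : ℕ}

lemma Cu.mono {U U' : Set Γ} (hn : Cu Γ U) (h : U ⊆ U') : Cu Γ U' where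
  tf := hn.tf
  ur := hn.ur
  fd := hn.fd
  cl := fun c hc hcU => hn.cl c hc (fun hcU' => hcU (h hcU'))

/-- **representations with finite image** -/
theorem fin_image {U : Set Γ} (hb : Cu Γ U)
    (A : (Matrix (Fin n) (Fin n) (MonoidAlgebra ℤ Γ))ˣ) {F : Type u} [Field F] [CharZero F]
    {d d' : ℕ} (σ : Γ →* Matrix (Fin d) (Fin d) F) (τ : Γ →* Matrix (Fin d') (Fin d') F)
    (hσ : (Set.range σ).Finite) (hτ : (Set.range τ).Finite)
    (h : ∀ w ∈ U, ∀ k : ℕ, ∃ q : ℚ, (σ (w ^ k)).trace + (σ (w ^ k)⁻¹).trace -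
      ((τ (w ^ k)).trace + (τ (w ^ k)⁻¹).trace) = (q : F)) :
    ∃ N : ℕ, 0 < N ∧ DD σ A.val ^ N = DD τ A.val ^ N := by
  let P : Γ →* (Matrix (Fin d) (Fin d) F)ˣ × (Matrix (Fin d') (Fin d') F)ˣ :=
    σ.toHomUnits.prod τ.toHomUnits
  let G := P.range
  have hfin : Finite G := by
    have h1 : (Set.range P).Finite := by
      have h2 : ((fun y : (Matrix (Fin d) (Fin d) F)ˣ × (Matrix (Fin d') (Fin d') F)ˣ =>
          (y.1.val, y.2.val)) '' Set.range P).Finite := by
        apply (hσ.prod hτ).subset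
        rintro _ ⟨_, ⟨g, rfl⟩, rfl⟩
        exact ⟨⟨g, rfl⟩, ⟨g, rfl⟩⟩
      apply Set.Finite.of_finite_image h2
      rintro ⟨x, y⟩ _ ⟨x', y'⟩ _ hxy
      have h3 := congrArg Prod.fst hxy
      have h4 := congrArg Prod.snd hxy
      exact Prod.ext (Units.ext h3) (Units.ext h4)
    exact h1.to_subtype
  let _ : Fintype G := Fintype.ofFinite G
  let π : Γ →* G := P.rangeRestrict
  have hπ : Function.Surjective π := P.rangeRestrict_surjective
  let σG : G →* Matrix (Fin d) (Fin d) F :=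
    ((Units.coeHom _).comp (MonoidHom.fst _ _)).comp G.subtype
  let τG : G →* Matrix (Fin d') (Fin d') F :=
    ((Units.coeHom _).comp (MonoidHom.snd _ _)).comp G.subtype
  have hσG : σG.comp π = σ := by
    ext1 g
    rfl
  have hτG : τG.comp π = τ := by
    ext1 g
    rfl
  -- the closed set
  let V : Set G := {g | g = 1 ∨ ∃ w ∈ U, ∃ (k : ℕ) (t : G), g = t * π (w ^ k) * t⁻¹}
  have hpow : ∀ (g : G) (z : ℤ), ∃ k : ℕ, g ^ z = g ^ k := by
    intro g z
    have h1 := (isOfFinOrder_of_finite g).mem_powers_iff_mem_zpowers (y := g ^ z)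
    obtain ⟨k, hk⟩ := h1.2 ⟨z, rfl⟩
    exact ⟨k, hk.symm⟩
  have hV : ∀ v ∈ V, ∀ h, Into h v → h ∈ V := by
    rintro v hv h ⟨t, z, hz⟩
    have hz' : (t * v * t⁻¹) ^ z = h := hz
    rcases hv with hv | ⟨w, hw, k, s, hv⟩
    · left
      rw [← hz', hv, mul_one, mul_inv_cancel, one_zpow]
    · right
      obtain ⟨j, hj⟩ := hpow (t * v * t⁻¹) z
      refine ⟨w, hw, k * j, t * s, ?_⟩
      rw [← hz', hj, hv, pow_mul, map_pow π (w ^ k) j]
      have e : t * (s * π (w ^ k) * s⁻¹) * t⁻¹ = (t * s) * π (w ^ k) * (t * s)⁻¹ := by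
        group
      rw [e, conj_pow]
  have hX : MCV V (mpU π A) := mcv_of_cu hb π hπ A V (fun w hw =>
    Or.inr ⟨w, hw, 1, 1, by rw [pow_one, one_mul, inv_one, mul_one]⟩)
  obtain ⟨N, hN, h1⟩ := gf_part (mpU π A) V hV hX σG τG (by
    rintro v (hv | ⟨w, hw, k, t, hv⟩)
    · refine ⟨2 * d - 2 * d', ?_⟩
      rw [hv, inv_one, map_one, map_one, Matrix.trace_one, Matrix.trace_one, Fintype.card_fin,
        Fintype.card_fin]
      push_cast
      ring
    · obtain ⟨q, hq⟩ := h w hw k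
      refine ⟨q, ?_⟩
      rw [← hq, hv]
      have e : (t * π (w ^ k) * t⁻¹)⁻¹ = t * (π (w ^ k))⁻¹ * t⁻¹ := by group
      rw [e, trace_conj, trace_conj, trace_conj, trace_conj]
      rfl)
  refine ⟨N, hN, ?_⟩
  have e1 : DD σG (mpU π A).val = DD σ A.val := by
    unfold DD
    rw [blkR_mpU, hσG]
  have e2 : DD τG (mpU π A).val = DD τ A.val := by
    unfold DD
    rw [blkR_mpU, hτG]
  rw [e1, e2] at h1
  exact h1

end fin

end Run7.h186
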