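import Pool.Agent.Run7.h186.Tors2
import Pool.Agent.Y72.Dt.Fin

/-!
# Representations lying over a set with `l`-regular stabilisers
-/

set_option autoImplicit false
set_option linter.unusedSectionVars false

namespace Run7.h186

open Module Pool.Agent.Y72.Dt Pool.Agent.Y72.Log

section defs

variable {L : Type*} [Field L] {K : Type*} [Group K] {V : Type*} [AddCommGroup V] [Module L V]

/-- the group acts triangularly, with monomial diagonal blocks whose entries are `M`-th roots of
unity, and the elements in `Sg` fix no basis line of a diagonal block -/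
def Mts (M : ℕ) (Sg : K → Prop) (ρ : K →* End L V) : Prop :=
  ∃ (m : ℕ) (b : Basis (Fin m) L V) (β : Fin m → ℕ), ∀ g j, ∃ i, β i = β j ∧ (Sg g → i ≠ j) ∧
    ∃ c : L, c ^ M = 1 ∧ ρ g (b j) - c • b i ∈ Submodule.span L (b '' {k | β k < β j})

lemma Mts.of_basis {M : ℕ} {Sg : K → Prop} {ρ : K →* End L V} {ι : Type*} [Finite ι]
    (b : Basis ι L V) (β : ι → ℕ)
    (h : ∀ g j, ∃ i, β i = β j ∧ (Sg g → i ≠ j) ∧ ∃ c : L, c ^ M = 1 ∧
      ρ g (b j) - c • b i ∈ Submodule.span L (b '' {k | β k < β j})) : Mts M Sg ρ := by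
  let e := Finite.equivFin ι
  refine ⟨Nat.card ι, b.reindex e, β ∘ e.symm, fun g j => ?_⟩
  obtain ⟨i, hi, hs, c, hc, h1⟩ := h g (e.symm j)
  refine ⟨e i, ?_, ?_, c, hc, ?_⟩
  · rw [Function.comp_apply, Equiv.symm_apply_apply, hi, Function.comp_apply]
  · intro hg he
    apply hs hg
    rw [← he, Equiv.symm_apply_apply]
  · rw [Basis.reindex_apply, Basis.reindex_apply, Equiv.symm_apply_apply]
    refine Submodule.span_mono ?_ h1
    rintro _ ⟨k, hk, rfl⟩
    refine ⟨e k, ?_, ?_⟩
    · show β (e.symm (e k)) < β (e.symm j)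
      rw [Equiv.symm_apply_apply]
      exact hk
    · rw [Basis.reindex_apply, Equiv.symm_apply_apply]

open scoped Classical in
/-- **imprimitive decompositions** -/
theorem Mts.ind {M : ℕ} {Sg : K → Prop} {X : Type*} [Finite X] [MulAction K X] (ρ : K →* End L V)
    (A : X → Submodule L V) (hI : DirectSum.IsInternal A)
    (hA : ∀ g x, ∀ v ∈ A x, ρ g v ∈ A (g • x))
    (hM : ∀ x, Mt M (resr ρ (MulAction.stabilizer K x) (A x)
      (fun g hg v hv => (MulAction.mem_stabilizer_iff.1 hg) ▸ hA g x v hv)))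
    (hSg : ∀ g (x : X), g • x = x → ¬ Sg g) : Mts M Sg ρ := by
  choose m b β hb using hM
  let r : X → X := fun x => (Quotient.mk (MulAction.orbitRel K X) x).out
  have hr : ∀ x, ∃ t : K, t • r x = x := by
    intro x
    have h1 : (MulAction.orbitRel K X) (r x) x := Quotient.mk_out x
    obtain ⟨t, ht⟩ := (MulAction.orbitRel K X).symm h1
    exact ⟨t, ht⟩
  have hrg : ∀ (g : K) x, r (g • x) = r x := by
    intro g x
    have h1 : (Quotient.mk (MulAction.orbitRel K X) (g • x)) = Quotient.mk _ x :=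
      Quotient.sound ⟨g, rfl⟩
    show (Quotient.mk (MulAction.orbitRel K X) (g • x)).out = _
    rw [h1]
  choose t ht using hr
  have ht' : ∀ x, (t x)⁻¹ • x = r x := fun x => by
    rw [inv_smul_eq_iff]
    exact (ht x).symm
  have hA1 : ∀ x, ∀ v ∈ A (r x), ρ (t x) v ∈ A x := by
    intro x v hv
    have h1 := hA (t x) (r x) v hv
    rwa [ht x] at h1
  have hA2 : ∀ x, ∀ v ∈ A x, ρ (t x)⁻¹ v ∈ A (r x) := by
    intro x v hv
    have h1 := hA (t x)⁻¹ x v hv
    rwa [ht' x] at h1
  let e : ∀ x, A (r x) ≃ₗ[L] A x := fun x => transEquiv ρ (t x) (A (r x)) (A x) (hA1 x) (hA2 x)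
  let B : ∀ x, Basis (Fin (m (r x))) L (A x) := fun x => (b (r x)).map (e x)
  have hB : ∀ x i, ((B x i : A x) : V) = ρ (t x) (b (r x) i : V) := fun x i => rfl
  let C := hI.collectedBasis B
  have hC : ∀ x i, C ⟨x, i⟩ = ρ (t x) (b (r x) i : V) := by
    intro x i
    show hI.collectedBasis B ⟨x, i⟩ = _
    rw [hI.collectedBasis_coe]
    rfl
  apply Mts.of_basis C (fun y => β (r y.1) y.2)
  rintro g ⟨x, j⟩
  have hk : (t (g • x))⁻¹ * g * t x ∈ MulAction.stabilizer K (r x) := by
    rw [MulAction.mem_stabilizer_iff, mul_smul, ht x, mul_smul, ht', hrg]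
  have aux : ∀ z (hz : z = r x), ∃ i : Fin (m z), β z i = β (r x) j ∧ ∃ c : L, c ^ M = 1 ∧
      ρ ((t (g • x))⁻¹ * g * t x) (b (r x) j : V) - c • (b z i : V) ∈
        Submodule.span L ((fun i => (b z i : V)) '' {i | β z i < β (r x) j}) := by
    rintro _ rfl
    obtain ⟨i, hi, c, hc, h3⟩ := hb (r x) ⟨_, hk⟩ j
    refine ⟨i, hi, c, hc, ?_⟩
    have h4 := Submodule.mem_map_of_mem (f := (A (r x)).subtype) h3
    rw [Submodule.map_span, map_sub, map_smul, Set.image_image] at h4
    exact h4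
  obtain ⟨i, hi, c, hc, h3⟩ := aux (r (g • x)) (hrg g x)
  refine ⟨⟨g • x, i⟩, hi, fun hs hne => hSg g x (congrArg Sigma.fst hne) hs, c, hc, ?_⟩
  have h4 := Submodule.mem_map_of_mem (f := ρ (t (g • x))) h3
  rw [Submodule.map_span, map_sub, map_smul, Set.image_image, ← Module.End.mul_apply,
    ← map_mul, ← mul_assoc, ← mul_assoc, mul_inv_cancel, one_mul, map_mul,
    Module.End.mul_apply] at h4
  rw [hC, hC]
  refine Submodule.span_mono ?_ h4
  rintro _ ⟨k, hk, rfl⟩
  exact ⟨⟨g • x, k⟩, hk, hC _ _⟩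

end defs

section tomat

variable {G : Type*} [Group G] {L : Type*} [Field L] {ι : Type*} [Fintype ι] [DecidableEq ι]

/-- passing to a basis, with the dimension -/
theorem exists_tri {M : ℕ} {Sg : G → Prop} (ρ : G →* Matrix ι ι L) (h : Mts M Sg (toEnd ρ)) :
    ∃ (m : ℕ) (σ : G →* Matrix (Fin m) (Fin m) L) (β : Fin m → ℕ), m = Fintype.card ι ∧
      (∀ (n : Type) [Fintype n] [DecidableEq n] (A : Matrix n n (MonoidAlgebra ℤ G)),
        DD σ A = DD ρ A) ∧
      ∀ g j, ∃ i, β i = β j ∧ (Sg g → i ≠ j) ∧ ∃ c : L, c ^ M = 1 ∧ ∀ k, ¬ (β k < β j) →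
        σ g k j = if k = i then c else 0 := by
  obtain ⟨m, b, β, hb⟩ := h
  have hm : m = Fintype.card ι := by
    have h1 := Module.finrank_eq_card_basis b
    rw [Module.finrank_fintype_fun_eq_card, Fintype.card_fin] at h1
    exact h1.symm
  let σ : G →* Matrix (Fin m) (Fin m) L :=
    { toFun := fun g => LinearMap.toMatrix b b (toEnd ρ g)
      map_one' := by rw [map_one]; exact LinearMap.toMatrix_one b
      map_mul' := fun g h => by rw [map_mul]; exact LinearMap.toMatrix_mul b _ _ }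
  have hσ : ∀ g, σ g = b.toMatrix (Pi.basisFun L ι) * ρ g * (Pi.basisFun L ι).toMatrix b := by
    intro g
    show LinearMap.toMatrix b b (toEnd ρ g) = _
    rw [← basis_toMatrix_mul_linearMap_toMatrix_mul_basis_toMatrix (b := b)
      (b' := Pi.basisFun L ι) (c := b) (c' := Pi.basisFun L ι)]
    congr 2
    rw [toEnd_apply, LinearMap.toMatrix_eq_toMatrix', LinearMap.toMatrix'_toLin']
  refine ⟨m, σ, β, hm, ?_, ?_⟩
  · intro n _ _ A
    exact DD_conj ρ σ _ _ (Basis.toMatrix_mul_toMatrix_flip _ _)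
      (Basis.toMatrix_mul_toMatrix_flip _ _) hσ A
  · intro g j
    obtain ⟨i, hi, hs, c, hc, h1⟩ := hb g j
    refine ⟨i, hi, hs, c, hc, fun k hk => ?_⟩
    rw [Basis.mem_span_image] at h1
    have h2 : b.repr (toEnd ρ g (b j) - c • b i) k = 0 := by
      by_contra hne
      exact hk (h1 (Finsupp.mem_support_iff.2 hne))
    rw [map_sub, map_smul, Finsupp.sub_apply, Finsupp.smul_apply, Basis.repr_self, sub_eq_zero,
      Finsupp.single_apply] at h2
    have h3 : σ g k j = b.repr (toEnd ρ g (b j)) k := LinearMap.toMatrix_apply _ _ _ _ _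
    rw [h3, h2, smul_eq_mul]
    by_cases hki : k = i
    · rw [if_pos hki, if_pos hki.symm, mul_one]
    · rw [if_neg hki, if_neg (fun hc => hki hc.symm), mul_zero]

end tomat

section triv

universe u v

/-- the determinants in the monomial representations over integral group rings of finite
commutative groups without fixed lines for the `l`-singular elements are trivial -/
def TorOKl (l : ℕ) {G : Type u} [Group G] {n : Type} [Fintype n] [DecidableEq n]
    (A : Matrix n n (MonoidAlgebra ℤ G)) : Prop :=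
  ∀ (T : Type v) [CommGroup T] [Finite T] (d : ℕ)
    (ρ : G →* Matrix (Fin d) (Fin d) (MonoidAlgebra ℤ T)), Monl l ρ → DD ρ A = 1 ∨ DD ρ A = -1

variable {G : Type u} [Group G] {L : Type v} [Field L] {n : Type} [Fintype n] [DecidableEq n]
  {A : Matrix n n (MonoidAlgebra ℤ G)} {M : ℕ} [NeZero M] {l : ℕ}

/-- monomial representations -/
lemma DD_mono (hA : TorOKl.{u, v} l A) {κ : Type*} [Fintype κ] [DecidableEq κ]
    (σ : G →* Matrix κ κ L)
    (hm : ∀ g j, ∃ i, ∃ c : L, c ^ M = 1 ∧ (∀ k, σ g k j = if k = i then c else 0) ∧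
      (l ∣ orderOf g → i ≠ j)) :
    DD σ A = 1 ∨ DD σ A = -1 := by
  let e := Fintype.equivFin κ
  have hm' : ∀ g j, ∃ i, ∃ c : L, c ^ M = 1 ∧ ∀ k, σ g k j = if k = i then c else 0 := by
    intro g j
    obtain ⟨i, c, hc, h1, _⟩ := hm g j
    exact ⟨i, c, hc, h1⟩
  have h1 := hA (rootsOfUnity M L) (Fintype.card κ) (rei e (mlift σ hm')) (by
    intro g j
    obtain ⟨i, c, hc, h1, h2⟩ := hm g (e.symm j)
    refine ⟨e i, rootsOfUnity.mkOfPowEq c hc, ?_, ?_⟩
    · intro k
      rw [rei_apply]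
      show lam M (σ g (e.symm k) (e.symm j)) = _
      rw [h1]
      by_cases hk : k = e i
      · rw [if_pos hk, if_pos (by rw [hk, Equiv.symm_apply_apply]), lam_root hc]
      · rw [if_neg hk, if_neg (fun hc => hk (by rw [← hc, Equiv.apply_symm_apply])), lam_zero]
    · intro hg he
      apply h2 hg
      rw [← he, Equiv.symm_apply_apply])
  rw [DD_rei] at h1
  rw [← chg_mlift σ hm', DD_chg]
  rcases h1 with h | h
  · left
    rw [h, map_one]
  · right
    rw [h, map_neg, map_one]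

/-- representations which are triangular with monomial blocks -/
theorem DD_Mts (hA : TorOKl.{u, v} l A) {ι : Type*} [Fintype ι] [DecidableEq ι]
    (ρ : G →* Matrix ι ι L)
    (h : Mts M (fun g => l ∣ orderOf g) (toEnd ρ)) : DD ρ A = 1 ∨ DD ρ A = -1 := by
  obtain ⟨m, σ, β, _, h1, h2⟩ := exists_tri ρ h
  rw [← h1]
  have hβ : ∀ g, (σ g).BlockTriangular β := by
    intro g k j hkj
    obtain ⟨i, hi, _, c, hc, h3⟩ := h2 g j
    rw [h3 k (not_lt.2 hkj.le), if_neg]
    rintro rfl
    omega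
  rw [DD_tri σ β hβ A]
  apply Finset.prod_induction (fun k => DD (dgb σ β hβ k) A) (fun x => x = 1 ∨ x = -1)
  · rintro a b (ha | ha) (hb | hb) <;> simp [ha, hb]
  · exact Or.inl rfl
  · intro k _
    apply DD_mono (M := M) hA
    rintro g ⟨j, hj⟩
    obtain ⟨i, hi, hs, c, hc, h3⟩ := h2 g j
    refine ⟨⟨i, hi.trans hj⟩, c, hc, ?_, fun hg he => hs hg (congrArg Subtype.val he)⟩
    rintro ⟨k', hk'⟩
    rw [dgb_apply, h3 k' (by rw [hk', hj]; exact lt_irrefl k)]
    by_cases h4 : k' = i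
    · rw [if_pos h4, if_pos (Subtype.ext h4)]
    · rw [if_neg h4, if_neg (fun hc => h4 (congrArg Subtype.val hc))]

end triv

end Run7.h186
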