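import Pool.Agent.Run7.h186.ML5

/-! Lattice sums with a power of the phase, for arbitrary points of the upper half plane. -/

set_option autoImplicit false
set_option linter.unusedSectionVars false

namespace Run7.h186.NT

open MeasureTheory Filter Topology UpperHalfPlane
open scoped ENNReal
open Run7.h186.ML
open Pool.Agent.Y149.CR (EM2 gc one_add_sq_pos zc summable_zc im2 im2_nonneg summable_im2 c2
  rpow_le_im2 c2_nonneg qf_pos div_cpow_real norm_cpow_real inner_zero)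
open Pool.Agent.W165.RS (qf qf_eq)

noncomputable section

variable {N : ℕ} [NeZero N]

/-- the phase of `m w + n` -/
def ph (w : ℍ) (p : ℤ × ℤ) : ℂ :=
  ((p.1 : ℂ) * w + p.2) / (‖(p.1 : ℂ) * w + p.2‖ : ℂ)

theorem norm_ph (w : ℍ) {p : ℤ × ℤ} (hp : p ≠ (0, 0)) : ‖ph w p‖ = 1 := by
  have h := qf_pos w (m := p.1) (n := p.2) hp
  have h1 : ‖(p.1 : ℂ) * w + p.2‖ ≠ 0 := by
    intro h0
    unfold qf at h
    rw [h0] at h
    norm_num at h
  unfold ph
  rw [norm_div, Complex.norm_real, norm_norm, div_self h1]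

/-- one term -/
def zk (m : ℕ) (a b : ZMod N) (w : ℍ) (s : ℂ) (p : ℤ × ℤ) : ℂ := ph w p ^ m * zc a b w s p

theorem zc_zero (a b : ZMod N) (w : ℍ) (s : ℂ) : zc a b w s (0, 0) = 0 := by
  unfold zc
  rw [if_neg (fun h => h.1 rfl)]

theorem norm_zk (m : ℕ) (a b : ZMod N) (w : ℍ) (s : ℂ) (p : ℤ × ℤ) :
    ‖zk m a b w s p‖ = ‖zc a b w s p‖ := by
  unfold zk
  by_cases hp : p = (0, 0)
  · rw [hp, zc_zero, mul_zero]
  · rw [norm_mul, norm_pow, norm_ph w hp, one_pow, one_mul]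

theorem summable_zk (m : ℕ) (a b : ZMod N) (w : ℍ) {s : ℂ} (h1 : 1 < s.re) (h2 : s.re ≤ 2) :
    Summable fun p => ‖zk m a b w s p‖ :=
  (summable_zc a b w h1 h2).congr fun p => (norm_zk m a b w s p).symm

theorem zk_neg (m : ℕ) (a b : ZMod N) (w : ℍ) (s : ℂ) (p : ℤ × ℤ) :
    zk m a b w s (-p) = (-1) ^ m * zk m (-a) (-b) w s p := by
  obtain ⟨c, d⟩ := p
  have e1 : ph w (-(c, d)) = -ph w (c, d) := by
    unfold ph
    simp only [Prod.neg_mk]
    have : (((-c : ℤ)) : ℂ) * w + ((-d : ℤ) : ℂ) = -((c : ℂ) * w + d) := by push_cast; ring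
    rw [this, norm_neg, neg_div]
  have e2 : zc a b w s (-(c, d)) = zc (-a) (-b) w s (c, d) := by
    unfold zc
    simp only [Prod.neg_mk]
    have e3 : qf w (-c) (-d) = qf w c d := by
      unfold qf
      have : (((-c : ℤ)) : ℂ) * w + ((-d : ℤ) : ℂ) = -((c : ℂ) * w + d) := by push_cast; ring
      rw [this, norm_neg]
    have e4 : (((-c, -d) : ℤ × ℤ) ≠ (0, 0) ∧ (((-c : ℤ)) : ZMod N) = a ∧ (((-d : ℤ)) : ZMod N) = b) ↔
        (((c, d) : ℤ × ℤ) ≠ (0, 0) ∧ ((c : ℤ) : ZMod N) = -a ∧ ((d : ℤ) : ZMod N) = -b) := by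
      push_cast
      rw [neg_eq_iff_eq_neg, neg_eq_iff_eq_neg]
      simp only [ne_eq, Prod.mk.injEq, neg_eq_zero]
    by_cases h : ((c, d) : ℤ × ℤ) ≠ (0, 0) ∧ ((c : ℤ) : ZMod N) = -a ∧ ((d : ℤ) : ZMod N) = -b
    · rw [if_pos h, if_pos (e4.2 h), e3]
    · rw [if_neg h, if_neg (fun h' => h (e4.1 h'))]
  unfold zk
  rw [e1, e2, neg_pow]
  ring

/-- the constant of the rows -/
def KM (m : ℕ) (s : ℂ) : ℝ := (m + 2 * ‖s + m / 2‖) * Real.pi

theorem KM_nonneg (m : ℕ) (s : ℂ) : 0 ≤ KM m s := by unfold KM; positivity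

theorem zk_pos (m : ℕ) (w : ℍ) (s : ℂ) {c : ℤ} (hc : 0 < c) (d : ℤ) :
    ph w (c, d) ^ m * ((w.im / qf w c d : ℝ) : ℂ) ^ s =
      (w.im : ℂ) ^ s * (((c : ℝ) * w.im : ℝ) : ℂ) ^ (-(2 * s)) *
        gm m s ((c * w.re + d) / (c * w.im)) := by
  have hcr : (0 : ℝ) < (c : ℝ) := by exact_mod_cast hc
  have hy := w.im_pos
  have hα : 0 < (c : ℝ) * w.im := mul_pos hcr hy
  have hαc : (((c : ℝ) * w.im : ℝ) : ℂ) ≠ 0 := by exact_mod_cast hα.ne'
  set α : ℝ := (c : ℝ) * w.im with hαdef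
  set t : ℝ := (c * w.re + d) / α with ht
  have h0 := one_add_sq_pos t
  have hxt : (c : ℝ) * w.re + d = α * t := by rw [ht]; field_simp
  clear_value t
  clear_value α
  have hq : qf w c d = α ^ 2 * (1 + t ^ 2) := by
    rw [qf_eq, hxt, abs_of_pos hcr, ← hαdef]; ring
  have hqp : 0 < qf w c d := by rw [hq]; positivity
  have hn : ‖(c : ℂ) * w + d‖ = α * (1 + t ^ 2) ^ (1 / 2 : ℝ) := by
    have h1 : ‖(c : ℂ) * w + d‖ ^ 2 = (α * (1 + t ^ 2) ^ (1 / 2 : ℝ)) ^ 2 := by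
      have : ‖(c : ℂ) * w + d‖ ^ 2 = qf w c d := rfl
      rw [this, hq, mul_pow, ← Real.rpow_natCast ((1 + t ^ 2) ^ (1 / 2 : ℝ)), ← Real.rpow_mul h0.le]
      norm_num
    exact (pow_left_inj₀ (norm_nonneg _) (by positivity) two_ne_zero).1 h1
  have e1 : (c : ℂ) * w + d = (α : ℂ) * ((t : ℂ) + Complex.I) := by
    have hw : (w : ℂ) = (w.re : ℂ) + (w.im : ℂ) * Complex.I := by
      conv_lhs => rw [← Complex.re_add_im (w : ℂ)]
      rfl
    rw [hw, mul_add (α : ℂ), ← Complex.ofReal_mul, ← hxt, hαdef]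
    push_cast
    ring
  have e2 : ph w (c, d) = ((t : ℂ) + Complex.I) / (((1 + t ^ 2) ^ (1 / 2 : ℝ) : ℝ) : ℂ) := by
    unfold ph
    simp only
    rw [hn, e1, Complex.ofReal_mul, mul_div_mul_left _ _ hαc]
  have e3 : ((((1 + t ^ 2) ^ (1 / 2 : ℝ) : ℝ) : ℂ)) ^ m = ((1 + t ^ 2 : ℝ) : ℂ) ^ ((m : ℂ) / 2) := by
    rw [← Complex.ofReal_pow, ← Real.rpow_natCast, ← Real.rpow_mul h0.le,
      Complex.ofReal_cpow h0.le]
    congr 1
    push_cast
    ring
  have e4 : ((w.im / qf w c d : ℝ) : ℂ) ^ s =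
      (w.im : ℂ) ^ s * (α : ℂ) ^ (-(2 * s)) * ((1 + t ^ 2 : ℝ) : ℂ) ^ (-s) := by
    rw [div_cpow_real hy hqp, hq, Complex.ofReal_mul (α ^ 2),
      Complex.mul_cpow_ofReal_nonneg (by positivity) h0.le, sq,
      Complex.ofReal_mul α α, Complex.mul_cpow_ofReal_nonneg hα.le hα.le, ← Complex.cpow_add _ _ hαc,
      mul_assoc]
    congr 3
    ring
  have hc' : ((1 + t ^ 2 : ℝ) : ℂ) ≠ 0 := by exact_mod_cast h0.ne'
  have e5 : ((1 + t ^ 2 : ℝ) : ℂ) ^ (-(s + (m : ℂ) / 2)) =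
      ((1 + t ^ 2 : ℝ) : ℂ) ^ (-s) * (((1 + t ^ 2 : ℝ) : ℂ) ^ ((m : ℂ) / 2))⁻¹ := by
    rw [← Complex.cpow_neg, ← Complex.cpow_add _ _ hc']
    congr 1
    ring
  unfold gm gc
  rw [e2, div_pow, e3, e4, e5]
  ring

/-- the row sum -/
def Rk (m : ℕ) (a b : ZMod N) (w : ℍ) (s : ℂ) (c : ℤ) : ℂ := ∑' n : ℤ, zk m a b w s (c, n)

theorem Rk_ne (m : ℕ) (a b : ZMod N) (w : ℍ) (s : ℂ) {c : ℤ} (hc : (c : ZMod N) ≠ a) :
    Rk m a b w s c = 0 := by
  unfold Rk zk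
  have : ∀ n : ℤ, ph w (c, n) ^ m * zc a b w s (c, n) = 0 := by
    intro n
    unfold zc
    rw [if_neg (by tauto), mul_zero]
  simp [this]

/-- the factor of the main term -/
def kk (N : ℕ) (m : ℕ) (w : ℍ) (s : ℂ) : ℂ :=
  (w.im : ℂ) ^ s * (((N : ℝ)⁻¹ : ℝ) : ℂ) * (w.im : ℂ) ^ (1 - 2 * s) * Gm m s

theorem norm_kk (m : ℕ) (w : ℍ) (s : ℂ) : ‖kk N m w s‖ ≤ w.im ^ (1 - s.re) * ‖Gm m s‖ := by
  have hy := w.im_pos
  have hN1 : (1:ℝ) ≤ N := by exact_mod_cast Nat.pos_of_ne_zero (NeZero.ne N)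
  have hNi : (N : ℝ)⁻¹ ≤ 1 := inv_le_one_of_one_le₀ hN1
  unfold kk
  rw [norm_mul, norm_mul, norm_mul, norm_cpow_real hy, norm_cpow_real hy, Complex.norm_real,
    Real.norm_of_nonneg (by positivity : 0 ≤ (N : ℝ)⁻¹)]
  have e : (1 - 2 * s).re = 1 - 2 * s.re := by simp
  rw [e]
  have e2 : w.im ^ s.re * w.im ^ (1 - 2 * s.re) = w.im ^ (1 - s.re) := by
    rw [← Real.rpow_add hy]; congr 1; ring
  calc w.im ^ s.re * (N : ℝ)⁻¹ * w.im ^ (1 - 2 * s.re) * ‖Gm m s‖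
      ≤ w.im ^ s.re * 1 * w.im ^ (1 - 2 * s.re) * ‖Gm m s‖ := by gcongr
    _ = _ := by rw [mul_one, e2]

theorem Rk_pos (m : ℕ) (a b : ZMod N) (w : ℍ) {s : ℂ} (hs : 1 ≤ s.re) {c : ℤ} (hc : 0 < c)
    (hca : (c : ZMod N) = a) :
    ‖Rk m a b w s c - kk N m w s * ((c : ℝ) : ℂ) ^ (1 - 2 * s)‖ ≤
      KM m s * w.im ^ (-s.re) * im2 c := by
  have hcr : (0 : ℝ) < (c : ℝ) := by exact_mod_cast hc
  have hy := w.im_pos
  have hα : 0 < (c : ℝ) * w.im := mul_pos hcr hy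
  have hN : (0 : ℝ) < N := by exact_mod_cast Nat.pos_of_ne_zero (NeZero.ne N)
  have hNz : (N : ℤ) ≠ 0 := by exact_mod_cast NeZero.ne N
  have hβ : 0 < (N : ℝ) / (c * w.im) := by positivity
  obtain ⟨h1, h2⟩ := EM2 (hasDerivAt_gm m s) (integrable_gm m hs) (integrable_gm' m hs) hβ
    ((c * w.re + (b.val : ℝ)) / (c * w.im))
  have hinj : Function.Injective (fun j : ℤ => (b.val : ℤ) + N * j) := by
    intro j j' h
    simp only at h
    exact mul_left_cancel₀ hNz (by linarith)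
  have hsupp : Function.support (fun n : ℤ => zk m a b w s (c, n)) ⊆
      Set.range (fun j : ℤ => (b.val : ℤ) + N * j) := by
    intro n hn
    rw [Function.mem_support] at hn
    have hnb : (n : ZMod N) = b := by
      by_contra hnb
      apply hn
      unfold zk zc
      rw [if_neg (by tauto), mul_zero]
    have h1 : ((n : ℤ) : ZMod N) = ((b.val : ℤ) : ZMod N) := by
      rw [hnb, Int.cast_natCast, ZMod.natCast_zmod_val]
    rw [ZMod.intCast_eq_intCast_iff] at h1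
    obtain ⟨k, hk⟩ := h1.symm.dvd
    exact ⟨k, by simp only; linarith⟩
  have e0 : Rk m a b w s c = (w.im : ℂ) ^ s * (((c : ℝ) * w.im : ℝ) : ℂ) ^ (-(2 * s)) *
      ∑' j : ℤ, gm m s ((N : ℝ) / (c * w.im) * j + (c * w.re + (b.val : ℝ)) / (c * w.im)) := by
    unfold Rk
    rw [← hinj.tsum_eq hsupp, ← tsum_mul_left]
    refine tsum_congr fun j => ?_
    have hp : ((c, (b.val : ℤ) + N * j) : ℤ × ℤ) ≠ (0, 0) := by
      intro h
      exact hc.ne' (congrArg Prod.fst h)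
    have e1 : zk m a b w s (c, (b.val : ℤ) + N * j) =
        ph w (c, (b.val : ℤ) + N * j) ^ m * ((w.im / qf w c ((b.val : ℤ) + N * j) : ℝ) : ℂ) ^ s := by
      unfold zk zc
      rw [if_pos]
      refine ⟨hp, hca, ?_⟩
      push_cast
      simp
    rw [e1, zk_pos m w s hc]
    congr 2
    push_cast
    field_simp
    ring
  have hαc : (((c : ℝ) * w.im : ℝ) : ℂ) ≠ 0 := by exact_mod_cast hα.ne'
  have e1 : kk N m w s * ((c : ℝ) : ℂ) ^ (1 - 2 * s) =
      (w.im : ℂ) ^ s * (((c : ℝ) * w.im : ℝ) : ℂ) ^ (-(2 * s)) *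
        ((((N : ℝ) / (c * w.im))⁻¹ : ℝ) * Gm m s) := by
    have e2 : (((c : ℝ) * w.im : ℝ) : ℂ) ^ (-(2 * s)) * ((((N : ℝ) / (c * w.im))⁻¹ : ℝ) : ℂ) =
        (((N : ℝ)⁻¹ : ℝ) : ℂ) * (((c : ℝ) * w.im : ℝ) : ℂ) ^ (1 - 2 * s) := by
      rw [sub_eq_add_neg, Complex.cpow_add _ _ hαc, Complex.cpow_one, inv_div, div_eq_mul_inv]
      push_cast
      ring
    have e3 : (((c : ℝ) * w.im : ℝ) : ℂ) ^ (1 - 2 * s) =
        ((c : ℝ) : ℂ) ^ (1 - 2 * s) * (w.im : ℂ) ^ (1 - 2 * s) := by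
      rw [Complex.ofReal_mul, Complex.mul_cpow_ofReal_nonneg hcr.le hy.le]
    unfold kk
    rw [← mul_assoc, mul_assoc ((w.im : ℂ) ^ s) _ ((((N : ℝ) / (c * w.im))⁻¹ : ℝ) : ℂ), e2, e3]
    ring
  have hG : Gm m s = ∫ t, gm m s t := rfl
  rw [e0, e1, ← mul_sub, norm_mul, norm_mul, norm_cpow_real hy, norm_cpow_real hα, hG]
  have e4 : (-(2 * s)).re = -(2 * s.re) := by simp
  rw [e4]
  have h3 : ‖∑' j : ℤ, gm m s ((N : ℝ) / (c * w.im) * j + (c * w.re + (b.val : ℝ)) / (c * w.im)) -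
      ((((N : ℝ) / (c * w.im))⁻¹ : ℝ) : ℂ) * ∫ t, gm m s t‖ ≤ KM m s := by
    refine le_trans (le_of_eq ?_) (h2.trans (int_gm'_le m hs))
    rfl
  have h4 := rpow_le_im2 hc.ne' hs
  rw [abs_of_pos hcr] at h4
  have hK := KM_nonneg m s
  calc w.im ^ s.re * ((c : ℝ) * w.im) ^ (-(2 * s.re)) * _
      ≤ w.im ^ s.re * ((c : ℝ) * w.im) ^ (-(2 * s.re)) * KM m s := by gcongr
    _ = KM m s * (w.im ^ s.re * w.im ^ (-(2 * s.re))) * (c : ℝ) ^ (-(2 * s.re)) := by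
        rw [Real.mul_rpow hcr.le hy.le]; ring
    _ = KM m s * w.im ^ (-s.re) * (c : ℝ) ^ (-(2 * s.re)) := by
        rw [← Real.rpow_add hy]
        congr 3
        ring
    _ ≤ _ := mul_le_mul_of_nonneg_left h4 (by positivity)

/-- the main terms -/
def mk (m : ℕ) (a : ZMod N) (s : ℂ) (c : ℤ) : ℂ :=
  if c ≠ 0 ∧ (c : ZMod N) = a then (if 0 < c then 1 else (-1) ^ m) * ((|(c : ℝ)| : ℝ) : ℂ) ^ (1 - 2 * s)
    else 0

theorem Rk_neg (m : ℕ) (a b : ZMod N) (w : ℍ) (s : ℂ) (c : ℤ) :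
    Rk m a b w s (-c) = (-1) ^ m * Rk m (-a) (-b) w s c := by
  unfold Rk
  rw [← (Equiv.neg ℤ).tsum_eq, ← tsum_mul_left]
  refine tsum_congr fun n => ?_
  have := zk_neg m a b w s (c, n)
  rw [Prod.neg_mk] at this
  exact this

theorem Rk_bound (m : ℕ) (a b : ZMod N) (w : ℍ) {s : ℂ} (hs : 1 ≤ s.re) {c : ℤ} (hc : c ≠ 0) :
    ‖Rk m a b w s c - kk N m w s * mk m a s c‖ ≤ KM m s * w.im ^ (-s.re) * im2 c := by
  have hy := w.im_pos
  have hK := KM_nonneg m s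
  by_cases hca : (c : ZMod N) = a
  · rcases lt_or_gt_of_ne hc with h1 | h1
    · have h2 : 0 < -c := by omega
      have h3 := Rk_pos m (-a) (-b) w hs h2 (by push_cast; rw [hca])
      have h4 := Rk_neg m a b w s (-c)
      rw [neg_neg] at h4
      have e1 : mk m a s c = (-1) ^ m * (((-c : ℤ) : ℝ) : ℂ) ^ (1 - 2 * s) := by
        unfold mk
        rw [if_pos ⟨hc, hca⟩, if_neg (by omega), abs_of_neg (by exact_mod_cast h1)]
        push_cast
        rfl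
      rw [h4, e1]
      have e2 : (-1 : ℂ) ^ m * Rk m (-a) (-b) w s (-c) -
          kk N m w s * ((-1) ^ m * (((-c : ℤ) : ℝ) : ℂ) ^ (1 - 2 * s)) =
          (-1) ^ m * (Rk m (-a) (-b) w s (-c) - kk N m w s * (((-c : ℤ) : ℝ) : ℂ) ^ (1 - 2 * s)) := by
        ring
      rw [e2, norm_mul, norm_pow, norm_neg, norm_one, one_pow, one_mul]
      have e3 : im2 (-c) = im2 c := im2_neg c
      rwa [e3] at h3
    · have h3 := Rk_pos m a b w hs h1 hca
      have e1 : mk m a s c = ((c : ℝ) : ℂ) ^ (1 - 2 * s) := by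
        unfold mk
        rw [if_pos ⟨hc, hca⟩, if_pos h1, abs_of_pos (by exact_mod_cast h1), one_mul]
      rwa [e1]
  · have e1 : mk m a s c = 0 := by unfold mk; rw [if_neg (by tauto)]
    rw [Rk_ne m a b w s hca, e1, mul_zero, sub_zero, norm_zero]
    have h3 := im2_nonneg c
    positivity

/-- the residue function -/
def Pa (m : ℕ) (a : ZMod N) (n : ZMod N) : ℂ :=
  (if n = a then 1 else 0) + (-1) ^ m * (if n = -a then 1 else 0)

/-- one progression -/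
def pr1 (c : ZMod N) (w : ℂ) (n : ℕ) : ℂ := if n ≠ 0 ∧ (n : ZMod N) = c then (n : ℂ) ^ (-w) else 0

theorem hasSum_pr1 (c : ZMod N) {w : ℂ} (hw : 1 < w.re) : HasSum (pr1 c w)
    (LSeries (fun n : ℕ => (if (n : ZMod N) = c then (1 : ℂ) else 0)) w) := by
  have h0 := (ZMod.LSeriesSummable_of_one_lt_re (fun j : ZMod N => if j = c then (1 : ℂ) else 0)
    hw).hasSum
  refine h0.congr_fun fun n => ?_
  unfold pr1
  rcases Nat.eq_zero_or_pos n with rfl | hn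
  · simp
  · rw [LSeries.term_of_ne_zero hn.ne']
    by_cases h : (n : ZMod N) = c
    · rw [if_pos ⟨hn.ne', h⟩]
      simp only [h, if_true]
      rw [Complex.cpow_neg, one_div]
    · rw [if_neg (fun h' => h h'.2)]
      simp only [h, if_false, zero_div]

theorem LSeries_Pa (m : ℕ) (a : ZMod N) {w : ℂ} (hw : 1 < w.re) :
    LSeries (fun n : ℕ => Pa m a (n : ZMod N)) w =
      LSeries (fun n : ℕ => (if (n : ZMod N) = a then (1 : ℂ) else 0)) w +
      (-1) ^ m * LSeries (fun n : ℕ => (if (n : ZMod N) = -a then (1 : ℂ) else 0)) w := by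
  have h1 : LSeriesSummable (fun n : ℕ => (if (n : ZMod N) = a then (1 : ℂ) else 0)) w :=
    ZMod.LSeriesSummable_of_one_lt_re (fun j : ZMod N => if j = a then (1 : ℂ) else 0) hw
  have h2 : LSeriesSummable (fun n : ℕ => (if (n : ZMod N) = -a then (1 : ℂ) else 0)) w :=
    ZMod.LSeriesSummable_of_one_lt_re (fun j : ZMod N => if j = -a then (1 : ℂ) else 0) hw
  have e : (fun n : ℕ => Pa m a (n : ZMod N)) =
      (fun n : ℕ => (if (n : ZMod N) = a then (1 : ℂ) else 0)) +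
      ((-1 : ℂ) ^ m) • (fun n : ℕ => (if (n : ZMod N) = -a then (1 : ℂ) else 0)) := by
    funext n
    simp [Pa]
  rw [e, LSeries_add h1 (h2.smul _), LSeries_smul]

theorem mk_nat (m : ℕ) (a : ZMod N) (s : ℂ) (n : ℕ) :
    mk m a s (n : ℤ) = pr1 a (2 * s - 1) n := by
  unfold mk pr1
  by_cases h : n ≠ 0 ∧ (n : ZMod N) = a
  · rw [if_pos h, if_pos ⟨by exact_mod_cast h.1, by rw [Int.cast_natCast]; exact h.2⟩,
      if_pos (by have := Nat.pos_of_ne_zero h.1; exact_mod_cast this), one_mul, Int.cast_natCast,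
      Nat.abs_cast, Complex.ofReal_natCast]
    congr 1
    ring
  · rw [if_neg h, if_neg]
    rintro ⟨h1, h2⟩
    exact h ⟨by exact_mod_cast h1, by rwa [Int.cast_natCast] at h2⟩

theorem mk_neg (m : ℕ) (a : ZMod N) (s : ℂ) (n : ℕ) :
    mk m a s (-((n : ℤ) + 1)) = (-1) ^ m * pr1 (-a) (2 * s - 1) (n + 1) := by
  unfold mk pr1
  have e1 : ((-((n:ℤ) + 1) : ℤ) : ZMod N) = a ↔ ((n + 1 : ℕ) : ZMod N) = -a := by
    push_cast
    rw [neg_eq_iff_eq_neg]
  by_cases h : ((n + 1 : ℕ) : ZMod N) = -a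
  · rw [if_pos (show n + 1 ≠ 0 ∧ ((n + 1 : ℕ) : ZMod N) = -a from ⟨by omega, h⟩),
      if_pos (show (-((n:ℤ) + 1)) ≠ 0 ∧ ((-((n:ℤ) + 1) : ℤ) : ZMod N) = a from
      ⟨by omega, e1.2 h⟩), if_neg (by omega)]
    have e2 : |((-((n:ℤ) + 1) : ℤ) : ℝ)| = ((n + 1 : ℕ) : ℝ) := by
      push_cast
      rw [abs_of_neg (by have : (0 : ℝ) ≤ n := Nat.cast_nonneg n; linarith)]
      ring
    rw [e2, Complex.ofReal_natCast]
    congr 2
    ring
  · rw [if_neg (show ¬ (n + 1 ≠ 0 ∧ ((n + 1 : ℕ) : ZMod N) = -a) from fun h' => h h'.2),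
      if_neg (show ¬ ((-((n:ℤ) + 1)) ≠ 0 ∧ ((-((n:ℤ) + 1) : ℤ) : ZMod N) = a) from
      fun h' => h (e1.1 h'.2)), mul_zero]

theorem hasSum_mk (m : ℕ) (a : ZMod N) {s : ℂ} (hs : 1 < s.re) : HasSum (mk m a s)
    (LSeries (fun n : ℕ => Pa m a (n : ZMod N)) (2 * s - 1)) := by
  have hre : 1 < (2 * s - 1).re := by simp; linarith
  rw [LSeries_Pa m a hre]
  have hp := hasSum_pr1 a hre
  have hm := hasSum_pr1 (-a) hre
  generalize LSeries (fun n : ℕ => (if (n : ZMod N) = a then (1 : ℂ) else 0)) (2 * s - 1) = A at hp ⊢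
  generalize LSeries (fun n : ℕ => (if (n : ZMod N) = -a then (1 : ℂ) else 0)) (2 * s - 1) = B at hm ⊢
  have g1 : HasSum (fun n : ℕ => mk m a s (n : ℤ)) A := hp.congr_fun fun n => mk_nat m a s n
  have h4 : HasSum (fun n : ℕ => pr1 (-a) (2 * s - 1) (n + 1)) B := by
    have h5 := (hasSum_nat_add_iff' 1).2 hm
    have e0 : pr1 (-a) (2 * s - 1) 0 = 0 := by unfold pr1; rw [if_neg (by tauto)]
    rw [Finset.sum_range_one, e0, sub_zero] at h5
    exact h5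
  have g2 : HasSum (fun n : ℕ => mk m a s (-((n : ℤ) + 1))) ((-1) ^ m * B) :=
    (h4.mul_left ((-1) ^ m)).congr_fun fun n => mk_neg m a s n
  exact HasSum.of_nat_of_neg_add_one g1 g2

/-- **The lattice sum.** -/
theorem latk (m : ℕ) (a b : ZMod N) (w : ℍ) {s : ℂ} (h1 : 1 < s.re) (h2 : s.re ≤ 2) :
    ‖∑' p, zk m a b w s p - kk N m w s * LSeries (fun n : ℕ => Pa m a (n : ZMod N)) (2 * s - 1)‖ ≤
      w.im ^ s.re * c2 + KM m s * w.im ^ (-s.re) * c2 := by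
  have hy := w.im_pos
  have hK := KM_nonneg m s
  have hs := (summable_zk m a b w h1 h2).of_norm
  have hsi := hs.prod
  have hmk := hasSum_mk m a h1
  have e : ∑' p, zk m a b w s p - kk N m w s * LSeries (fun n : ℕ => Pa m a (n : ZMod N)) (2 * s - 1) =
      ∑' c, (Rk m a b w s c - kk N m w s * mk m a s c) := by
    have hsR : Summable (Rk m a b w s) := hsi
    rw [hs.tsum_prod, hsR.tsum_sub (hmk.summable.mul_left (kk N m w s)), tsum_mul_left,
      hmk.tsum_eq]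
    rfl
  rw [e]
  have hb : ∀ c : ℤ, ‖Rk m a b w s c - kk N m w s * mk m a s c‖ ≤
      (if c = 0 then w.im ^ s.re * c2 else 0) + KM m s * w.im ^ (-s.re) * im2 c := by
    intro c
    by_cases hc : c = 0
    · subst hc
      have e2 : mk m a s 0 = 0 := by unfold mk; rw [if_neg (by tauto)]
      rw [if_pos rfl, e2, mul_zero, sub_zero]
      have h3 := im2_nonneg 0
      have h4 : 0 ≤ KM m s * w.im ^ (-s.re) * im2 0 := by positivity
      have h5 : ‖Rk m a b w s 0‖ ≤ w.im ^ s.re * c2 := by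
        have hb : ∀ n : ℤ, ‖zk m a b w s (0, n)‖ ≤ w.im ^ s.re * im2 n := by
          intro n
          rw [norm_zk]
          unfold zc
          split_ifs with h
          · have hn : n ≠ 0 := by
              rintro rfl
              exact h.1 rfl
            have hq := qf_pos w h.1
            rw [norm_cpow_real (div_pos hy hq), Real.div_rpow hy.le hq.le, div_eq_mul_inv]
            refine mul_le_mul_of_nonneg_left ?_ (by positivity)
            refine le_trans (le_of_eq ?_) (rpow_le_im2 hn h1.le)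
            rw [qf_eq]
            simp only [Int.cast_zero, zero_mul, abs_zero, zero_add, ne_eq, OfNat.ofNat_ne_zero,
              not_false_eq_true, zero_pow, add_zero]
            rw [← sq_abs, ← Real.rpow_natCast, ← Real.rpow_mul (abs_nonneg _), ← Real.rpow_neg
              (abs_nonneg _)]
            congr 1
          · rw [norm_zero]
            exact mul_nonneg (by positivity) (im2_nonneg n)
        exact tsum_of_norm_bounded (summable_im2.hasSum.mul_left _) hb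
      linarith
    · rw [if_neg hc, zero_add]
      exact Rk_bound m a b w h1.le hc
  have hsum : HasSum (fun c : ℤ => (if c = 0 then w.im ^ s.re * c2 else 0) +
      KM m s * w.im ^ (-s.re) * im2 c) (w.im ^ s.re * c2 + KM m s * w.im ^ (-s.re) * c2) :=
    (hasSum_ite_eq 0 (w.im ^ s.re * c2)).add (summable_im2.hasSum.mul_left _)
  exact tsum_of_norm_bounded hsum hb

end

end Run7.h186.NT
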