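import Pool.Agent.Run7.h186.NT1
import Pool.Agent.Y722.RS.ZfB

/-! The lattice sums near the edge. -/

set_option autoImplicit false
set_option linter.unusedSectionVars false

namespace Run7.h186.NT

open MeasureTheory Filter Topology UpperHalfPlane
open scoped ENNReal
open Run7.h186.ML
open Pool.Agent.Y149.CR (zc c2 c2_nonneg ofReal_norm_zc Zf_ne_top summable_zc)
open Pool.Agent.W165.RS (qf qf_eq Zf zt BB BB_nonneg)
open Pool.Agent.Y722.RS (kap Zf_bdd)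

noncomputable section

variable {N : ℕ} [NeZero N]

theorem norm_pt_add_le (τ : ℝ) {ε : ℝ} (h0 : 0 < ε) (h1 : ε < 1) (m : ℕ) :
    ‖pt τ ε + m / 2‖ ≤ 2 + |τ| + m := by
  unfold pt
  have a1 : ‖(1 : ℂ) + ε‖ ≤ 2 := by
    refine (norm_add_le _ _).trans ?_
    rw [norm_one, Complex.norm_real, Real.norm_eq_abs, abs_of_pos h0]
    linarith
  have a2 : ‖(τ : ℂ) * Complex.I‖ = |τ| := by
    rw [norm_mul, Complex.norm_I, mul_one, Complex.norm_real, Real.norm_eq_abs]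
  have a3 : ‖(m : ℂ) / 2‖ ≤ m := by
    rw [norm_div, Complex.norm_natCast]
    simp only [Complex.norm_ofNat]
    have : (0 : ℝ) ≤ m := Nat.cast_nonneg _
    linarith
  refine (norm_add_le _ _).trans (add_le_add ((norm_add_le _ _).trans ?_) a3)
  rw [a2]
  linarith

theorem sum_Pa_odd {m : ℕ} (hm : Odd m) (a : ZMod N) : ∑ n, Pa m a n = 0 := by
  unfold Pa
  rw [Finset.sum_add_distrib, ← Finset.mul_sum, Finset.sum_ite_eq', Finset.sum_ite_eq',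
    if_pos (Finset.mem_univ _), if_pos (Finset.mem_univ _), hm.neg_one_pow]
  ring

/-- the product of the archimedean factor and the `L`-function is bounded -/
theorem main_bdd {m : ℕ} {τ : ℝ} (h : τ ≠ 0 ∨ m ≠ 0) (a : ZMod N) : ∃ D : ℝ, 0 ≤ D ∧
    ∀ᶠ ε : ℝ in 𝓝[>] 0,
      ‖Gm m (pt τ ε)‖ * ‖ZMod.LFunction (Pa m a) (pt (2 * τ) (2 * ε))‖ ≤ D := by
  by_cases hτ : τ ≠ 0 ∨ Odd m
  · have h1 : 2 * τ ≠ 0 ∨ ∑ n, Pa m a n = 0 :=
      hτ.imp (fun h0 => mul_ne_zero two_ne_zero h0) (fun h0 => sum_Pa_odd h0 a)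
    obtain ⟨D, hD, h2⟩ := bdd_L h1
    refine ⟨Real.pi * D, by have := Real.pi_pos; positivity, ?_⟩
    filter_upwards [h2, small] with ε h3 h4
    exact mul_le_mul (norm_Gm_le m (by rw [pt_re]; linarith [h4.1])) h3 (norm_nonneg _)
      Real.pi_pos.le
  · push Not at hτ
    obtain ⟨h0, h1⟩ := hτ
    have hm : m ≠ 0 := h.resolve_left (fun h' => h' h0)
    obtain ⟨j, hj⟩ : ∃ j, m = 2 * (j + 1) := by
      obtain ⟨i, hi⟩ := (Nat.not_odd_iff_even.1 h1)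
      exact ⟨i - 1, by omega⟩
    subst h0
    obtain ⟨D, hD, h2⟩ := pole_L (Pa m a)
    obtain ⟨A, hA, h5⟩ := Gm_small j
    refine ⟨A * D, by positivity, ?_⟩
    filter_upwards [h2, small] with ε h3 h4
    have e1 : pt 0 ε = 1 + ε := by unfold pt; simp
    have h6 : ‖Gm m (pt 0 ε)‖ ≤ A * ε := by
      rw [e1, hj]
      exact h5 ε h4.1.le
    rw [mul_zero]
    have h7 := mul_le_mul h6 h3 (norm_nonneg _) (by have := h4.1; positivity)
    refine h7.trans (le_of_eq ?_)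
    have := h4.1.ne'
    field_simp

theorem rpow_1s {y σ : ℝ} (hy : 1 / 2 ≤ y) (h1 : 1 < σ) (h2 : σ ≤ 2) : y ^ (1 - σ) ≤ 8 * y ^ 2 := by
  have p3 := Pool.Agent.Y722.RS.rpow_up hy h1 h2
  nlinarith [h2]

/-- **The lattice sums are `O(y²)`.** -/
theorem latk_bdd {m : ℕ} {τ : ℝ} (h : τ ≠ 0 ∨ m ≠ 0) : ∃ C : ℝ, 0 ≤ C ∧
    ∀ᶠ ε : ℝ in 𝓝[>] 0, ∀ (a b : ZMod N) (w : ℍ), 1 / 2 ≤ w.im →
      ‖∑' p, zk m a b w (pt τ ε) p‖ ≤ C * w.im ^ 2 := by
  have h1 := main_bdd (N := N) h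
  choose D hD hev using h1
  have hall : ∀ᶠ ε : ℝ in 𝓝[>] 0, ∀ a : ZMod N,
      ‖Gm m (pt τ ε)‖ * ‖ZMod.LFunction (Pa m a) (pt (2 * τ) (2 * ε))‖ ≤ D a :=
    eventually_all.2 hev
  have hc := c2_nonneg
  have hπ := Real.pi_pos
  have hDs : 0 ≤ ∑ a, D a := Finset.sum_nonneg fun a _ => hD a
  refine ⟨4 * c2 + ((m + 2 * (2 + |τ| + m)) * Real.pi) * 16 * c2 + 8 * ∑ a, D a, by positivity, ?_⟩
  filter_upwards [hall, small] with ε h2 h3 a b w hw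
  obtain ⟨hε0, hε1⟩ := h3
  have hre := pt_re τ ε
  have g1 : 1 < (pt τ ε).re := by rw [hre]; linarith
  have g2 : (pt τ ε).re ≤ 2 := by rw [hre]; linarith
  have hb := latk m a b w g1 g2
  rw [LF_eq _ _ hε0, hre] at hb
  have hy := w.im_pos
  have p1 := Pool.Agent.Y722.RS.rpow_s_le hw (show 1 < 1 + ε by linarith) (by linarith)
  have p2 := Pool.Agent.Y722.RS.rpow_neg_s_le hw (show 1 < 1 + ε by linarith) (by linarith)
  have p4 := rpow_1s hw (show 1 < 1 + ε by linarith) (by linarith)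
  set L := ZMod.LFunction (Pa m a) (pt (2 * τ) (2 * ε)) with hL
  have h4 : ‖kk N m w (pt τ ε) * L‖ ≤ 8 * w.im ^ 2 * ∑ a, D a := by
    rw [norm_mul]
    have h5 := norm_kk (N := N) m w (pt τ ε)
    rw [hre] at h5
    calc ‖kk N m w (pt τ ε)‖ * ‖L‖ ≤ (w.im ^ (1 - (1 + ε)) * ‖Gm m (pt τ ε)‖) * ‖L‖ :=
          mul_le_mul_of_nonneg_right h5 (norm_nonneg _)
      _ = w.im ^ (1 - (1 + ε)) * (‖Gm m (pt τ ε)‖ * ‖L‖) := mul_assoc _ _ _
      _ ≤ (8 * w.im ^ 2) * ∑ a, D a := by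
          refine mul_le_mul p4 ?_ (by positivity) (by positivity)
          exact (h2 a).trans (Finset.single_le_sum (f := D) (fun c _ => hD c) (Finset.mem_univ a))
  have h6 : KM m (pt τ ε) ≤ (m + 2 * (2 + |τ| + m)) * Real.pi := by
    unfold KM
    have := norm_pt_add_le τ hε0 hε1 m
    gcongr
  have hK := KM_nonneg m (pt τ ε)
  have h7 : w.im ^ (1 + ε) * c2 + KM m (pt τ ε) * w.im ^ (-(1 + ε)) * c2 ≤
      (4 * w.im ^ 2) * c2 + ((m + 2 * (2 + |τ| + m)) * Real.pi) * (16 * w.im ^ 2) * c2 := by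
    gcongr
  have h8 : ‖∑' p, zk m a b w (pt τ ε) p‖ ≤
      ‖∑' p, zk m a b w (pt τ ε) p - kk N m w (pt τ ε) * L‖ + ‖kk N m w (pt τ ε) * L‖ :=
    norm_le_norm_sub_add _ _
  linarith

theorem tsum_zk_zero (a b : ZMod N) (w : ℍ) {σ : ℝ} (h1 : 1 < σ) (h2 : σ ≤ 2) :
    ∃ Z : ℝ, 0 ≤ Z ∧ ∑' p, zk 0 a b w (σ : ℂ) p = (Z : ℂ) ∧
      ENNReal.ofReal Z = ENNReal.ofReal (w.im ^ σ) * Zf a b w σ := by
  have hs := summable_zc a b w (s := (σ : ℂ)) (by simpa using h1) (by simpa using h2)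
  refine ⟨∑' p, ‖zc a b w (σ : ℂ) p‖, tsum_nonneg fun p => norm_nonneg _, ?_, ?_⟩
  · rw [Complex.ofReal_tsum]
    refine tsum_congr fun p => ?_
    unfold zk zc
    rw [pow_zero, one_mul]
    split_ifs with h
    · have hq := Pool.Agent.Y149.CR.qf_pos w (m := p.1) (n := p.2) h.1
      have h3 := div_pos w.im_pos hq
      rw [Complex.norm_cpow_eq_rpow_re_of_pos h3, Complex.ofReal_re, Complex.ofReal_cpow h3.le]
    · simp
  · rw [ENNReal.ofReal_tsum_of_nonneg (fun p => norm_nonneg _) hs]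
    have e1 : ∀ p : ℤ × ℤ, ENNReal.ofReal ‖zc a b w (σ : ℂ) p‖ =
        ENNReal.ofReal (w.im ^ σ) * zt a b w σ p.1 p.2 := fun p => by
      have := ofReal_norm_zc a b w (σ : ℂ) p.1 p.2
      rwa [Complex.ofReal_re] at this
    simp_rw [e1]
    rw [ENNReal.tsum_mul_left, ENNReal.tsum_prod']
    rfl

/-- **The lattice sums at the pole.** -/
theorem latk_zero : ∃ (C : ℝ) (A : ℝ → ℝ), 0 ≤ C ∧
    ∀ᶠ ε : ℝ in 𝓝[>] 0, ∀ (a b : ZMod N) (w : ℍ), 1 / 2 ≤ w.im →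
      ‖∑' p, zk 0 a b w (pt 0 ε) p - (A ε : ℂ)‖ ≤ C * w.im ^ 2 := by
  obtain ⟨C, hC, hev⟩ := Zf_bdd (N := N)
  have h0 : Tendsto (fun ε : ℝ => 1 + ε) (𝓝[>] 0) (𝓝[>] 1) := by
    rw [tendsto_nhdsWithin_iff]
    constructor
    · have : Continuous fun w : ℝ => 1 + w := by fun_prop
      have := this.tendsto 0
      rw [add_zero] at this
      exact this.mono_left nhdsWithin_le_nhds
    · filter_upwards [self_mem_nhdsWithin] with w hw
      have hw0 : (0 : ℝ) < w := hw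
      show (1 : ℝ) < 1 + w
      linarith
  refine ⟨C.toReal, fun ε => BB (1 + ε) / ((N : ℝ) ^ 2 * ((1 + ε) - 1)), ENNReal.toReal_nonneg, ?_⟩
  filter_upwards [h0.eventually hev, small] with ε h1 h2 a b w hw
  obtain ⟨hε0, hε1⟩ := h2
  have e1 : pt 0 ε = ((1 + ε : ℝ) : ℂ) := by unfold pt; push_cast; ring
  obtain ⟨Z, hZ0, hZ1, hZ2⟩ := tsum_zk_zero a b w (σ := 1 + ε) (by linarith) (by linarith)
  obtain ⟨h3, h4⟩ := h1 a b w hw
  rw [← hZ2] at h3 h4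
  rw [e1, hZ1, ← Complex.ofReal_sub, Complex.norm_real, Real.norm_eq_abs]
  have hk0 : 0 ≤ BB (1 + ε) / ((N : ℝ) ^ 2 * ((1 + ε) - 1)) := by
    have := BB_nonneg (1 + ε)
    have h5 : 0 ≤ (1 + ε) - 1 := by linarith
    positivity
  have hkap : kap N (1 + ε) = ENNReal.ofReal (BB (1 + ε) / ((N : ℝ) ^ 2 * ((1 + ε) - 1))) := rfl
  rw [hkap, ← ENNReal.ofReal_toReal hC, ← ENNReal.ofReal_mul ENNReal.toReal_nonneg] at h3 h4
  have hCy : 0 ≤ C.toReal * w.im ^ 2 := by positivity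
  rw [← ENNReal.ofReal_add hk0 hCy, ENNReal.ofReal_le_ofReal_iff (by positivity)] at h3
  rw [← ENNReal.ofReal_add hZ0 hCy, ENNReal.ofReal_le_ofReal_iff (by positivity)] at h4
  rw [abs_le]
  constructor <;> linarith

end

end Run7.h186.NT
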