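import Pool.Agent.W165.RS.Cosets
import Pool.Agent.Y722.RS.Inv

/-! Unfolding of complex valued functions. -/

set_option autoImplicit false
set_option linter.unusedSectionVars false

namespace Run7.h186.NT

open MeasureTheory Filter Topology UpperHalfPlane
open scoped ENNReal MatrixGroups Modular
open Pool.Agent.W165.RS (phi measurable_phi tsum_phi measurable_smul_SL measurePreserving_SL unfold
  RR gam eqv eqv_apply SS measurableSet_SS instCountableSL phi_le)
open Pool.Agent.Y722.RS (phi_zero phi_le_one)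

noncomputable section

/-- the weight as a real number -/
def phr (z : ℍ) : ℝ := (phi z).toReal

theorem phi_ne_top (z : ℍ) : phi z ≠ ∞ := ne_top_of_le_ne_top ENNReal.one_ne_top (phi_le_one z)

theorem ofReal_phr (z : ℍ) : ENNReal.ofReal (phr z) = phi z := ENNReal.ofReal_toReal (phi_ne_top z)

theorem phr_nonneg (z : ℍ) : 0 ≤ phr z := ENNReal.toReal_nonneg

theorem measurable_phr : Measurable phr := measurable_phi.ennreal_toReal

theorem enorm_phr (z : ℍ) : ‖(phr z : ℂ)‖ₑ = phi z := by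
  rw [← ofReal_norm, Complex.norm_real, Real.norm_of_nonneg (phr_nonneg z), ofReal_phr]

theorem hasSum_phr (z : ℍ) : HasSum (fun g : SL(2, ℤ) => (phr (g • z) : ℂ)) 1 := by
  have h1 := ENNReal.hasSum_toReal (f := fun g : SL(2, ℤ) => phi (g • z)) (by
    rw [tsum_phi]; exact ENNReal.one_ne_top)
  rw [← ENNReal.tsum_toReal_eq (fun g => phi_ne_top _), tsum_phi, ENNReal.toReal_one] at h1
  have h2 := Complex.hasSum_ofReal.2 h1
  rw [Complex.ofReal_one] at h2
  exact h2

theorem lintegral_unfold {K : ℍ → ℂ} (hm : Measurable K) :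
    ∑' g : SL(2, ℤ), ∫⁻ z, ‖(phr z : ℂ) * K (g • z)‖ₑ = ∫⁻ z, ‖K z‖ₑ := by
  have hKm : Measurable fun z => ‖K z‖ₑ := hm.enorm
  rw [unfold (fun z => ‖K z‖ₑ) hKm, ← lintegral_tsum]
  · refine lintegral_congr fun z => ?_
    rw [← ENNReal.tsum_mul_left]
    refine tsum_congr fun g => ?_
    rw [enorm_mul, enorm_phr]
  · intro g
    exact ((Complex.measurable_ofReal.comp measurable_phr).mul
      (hm.comp (measurable_smul_SL g))).enorm.aemeasurable

/-- **Unfolding.** -/
theorem unfoldC {K : ℍ → ℂ} (hm : Measurable K) (hi : ∫⁻ z, ‖K z‖ₑ ≠ ∞) :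
    ∫ z, K z = ∫ z, ∑' g : SL(2, ℤ), (phr z : ℂ) * K (g • z) := by
  have hpm : Measurable fun z : ℍ => (phr z : ℂ) := Complex.measurable_ofReal.comp measurable_phr
  have e1 : ∫ z, K z = ∫ z, ∑' g : SL(2, ℤ), (phr (g • z) : ℂ) * K z := by
    refine integral_congr_ae (Eventually.of_forall fun z => ?_)
    simp only
    rw [((hasSum_phr z).mul_right (K z)).tsum_eq, one_mul]
  have h1 : ∀ g : SL(2, ℤ), Measurable fun z : ℍ => (phr (g • z) : ℂ) * K z := fun g =>
    (hpm.comp (measurable_smul_SL g)).mul hm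
  have h2 : ∀ g : SL(2, ℤ), Measurable fun z : ℍ => (phr z : ℂ) * K (g • z) := fun g =>
    hpm.mul (hm.comp (measurable_smul_SL g))
  have hswap : ∀ g : SL(2, ℤ), ∫⁻ z, ‖(phr (g • z) : ℂ) * K z‖ₑ =
      ∫⁻ z, ‖(phr z : ℂ) * K (g⁻¹ • z)‖ₑ := by
    intro g
    rw [← Pool.Agent.W165.RS.lintegral_SL g _ (h2 g⁻¹).enorm]
    refine lintegral_congr fun z => ?_
    rw [inv_smul_smul]
  have hfin : ∑' g : SL(2, ℤ), ∫⁻ z, ‖(phr (g • z) : ℂ) * K z‖ₑ ≠ ∞ := by
    simp_rw [hswap]
    have := (Equiv.inv SL(2, ℤ)).tsum_eq (fun g : SL(2, ℤ) => ∫⁻ z, ‖(phr z : ℂ) * K (g • z)‖ₑ)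
    simp only [Equiv.inv_apply] at this
    rw [this, lintegral_unfold hm]
    exact hi
  rw [e1, integral_tsum (fun g => (h1 g).aestronglyMeasurable) hfin]
  have hswap2 : ∀ g : SL(2, ℤ), ∫ z, (phr (g • z) : ℂ) * K z = ∫ z, (phr z : ℂ) * K (g⁻¹ • z) := by
    intro g
    have hmp := measurePreserving_SL g
    have h3 := integral_map (μ := (volume : Measure ℍ)) hmp.measurable.aemeasurable
      (f := fun z : ℍ => (phr z : ℂ) * K (g⁻¹ • z)) (h2 g⁻¹).aestronglyMeasurable
    rw [hmp.map_eq] at h3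
    rw [h3]
    refine integral_congr_ae (Eventually.of_forall fun z => ?_)
    simp only
    rw [inv_smul_smul]
  simp_rw [hswap2]
  have := (Equiv.inv SL(2, ℤ)).tsum_eq (fun g : SL(2, ℤ) => ∫ z, (phr z : ℂ) * K (g • z))
  simp only [Equiv.inv_apply] at this
  rw [this, ← integral_tsum (fun g => (h2 g).aestronglyMeasurable) (by
    rw [lintegral_unfold hm]; exact hi)]

/-- the sum over `SL(2,ℤ)` of a function on the strip -/
theorem tsum_stripC (H : ℍ → ℂ) (hT : ∀ (n : ℤ) z, H (ModularGroup.T ^ n • z) = H z) (z : ℍ)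
    (hs : Summable fun g : SL(2, ℤ) => SS.indicator H (g • z)) :
    ∑' g : SL(2, ℤ), SS.indicator H (g • z) = ∑' r : RR, H (gam r • z) := by
  have h1 : ∀ w : ℍ, ∑' n : ℤ, SS.indicator H (ModularGroup.T ^ n • w) = H w := by
    intro w
    rw [tsum_eq_single (-⌊w.re⌋)]
    · rw [Set.indicator_of_mem, hT]
      constructor
      · rw [ModularGroup.re_T_zpow_smul]; push_cast; linarith [Int.floor_le w.re]
      · rw [ModularGroup.re_T_zpow_smul]; push_cast; linarith [Int.lt_floor_add_one w.re]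
    · intro n hn
      rw [Set.indicator_of_notMem]
      rintro ⟨h1, h2⟩
      rw [ModularGroup.re_T_zpow_smul] at h1 h2
      apply hn
      have : ⌊w.re⌋ = -n := by
        rw [Int.floor_eq_iff]; push_cast; constructor <;> linarith
      omega
  rw [← eqv.tsum_eq]
  have hs2 : Summable fun x : RR × ℤ => SS.indicator H (eqv x • z) := eqv.summable_iff.2 hs
  rw [hs2.tsum_prod]
  refine tsum_congr fun r => ?_
  rw [← h1 (gam r • z)]
  refine tsum_congr fun n => ?_
  rw [eqv_apply, mul_smul]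

/-- the absolute sum over the coprime pairs -/
theorem summable_strip (H : ℍ → ℂ) (hT : ∀ (n : ℤ) z, H (ModularGroup.T ^ n • z) = H z) (z : ℍ)
    (hs : ∑' g : SL(2, ℤ), ‖SS.indicator H (g • z)‖ₑ ≠ ∞) :
    Summable (fun g : SL(2, ℤ) => SS.indicator H (g • z)) ∧
      Summable fun r : RR => ‖H (gam r • z)‖ := by
  have h1 : Summable fun g : SL(2, ℤ) => ‖SS.indicator H (g • z)‖ := by
    have h2 := ENNReal.summable_toReal hs
    exact h2.congr fun g => toReal_enorm _
  refine ⟨h1.of_norm, ?_⟩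
  have hN : ∀ (n : ℤ) w, ‖H (ModularGroup.T ^ n • w)‖ₑ = ‖H w‖ₑ := fun n w => by rw [hT]
  have h3 : ∑' r : RR, ‖H (gam r • z)‖ₑ = ∑' g : SL(2, ℤ), ‖SS.indicator H (g • z)‖ₑ := by
    rw [← eqv.tsum_eq, ENNReal.tsum_prod']
    refine tsum_congr fun r => ?_
    rw [← Pool.Agent.W165.RS.tsum_strip (fun w => ‖H w‖ₑ) hN (gam r • z)]
    refine tsum_congr fun n => ?_
    rw [eqv_apply, mul_smul, enorm_indicator_eq_indicator_enorm]
  have h4 := ENNReal.summable_toReal (f := fun r : RR => ‖H (gam r • z)‖ₑ) (by rw [h3]; exact hs)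
  exact h4.congr fun g => toReal_enorm _

/-- **The strip integral is bounded by the integral over the fundamental domain.** -/
theorem strip_le {H : ℍ → ℂ} (hm : Measurable H)
    (hT : ∀ (n : ℤ) z, H (ModularGroup.T ^ n • z) = H z) (hi : ∫⁻ z in SS, ‖H z‖ₑ ≠ ∞)
    {B : ℍ → ℝ≥0∞} (L : ℂ) (hB : ∀ z ∈ (𝒟 : Set ℍ), (Summable fun r : RR => ‖H (gam r • z)‖) →
      ‖L * ∑' r : RR, H (gam r • z)‖ₑ ≤ B z) :
    ‖L * ∫ z in SS, H z‖ₑ ≤ ∫⁻ z in 𝒟, B z := by
  set K : ℍ → ℂ := SS.indicator H with hK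
  have hKm : Measurable K := hm.indicator measurableSet_SS
  have hKi : ∫⁻ z, ‖K z‖ₑ ≠ ∞ := by
    have : (fun z => ‖K z‖ₑ) = SS.indicator fun z => ‖H z‖ₑ := by
      funext z
      exact enorm_indicator_eq_indicator_enorm _ _
    rw [this, lintegral_indicator measurableSet_SS]
    exact hi
  have h1 : ∫ z in SS, H z = ∫ z, ∑' g : SL(2, ℤ), (phr z : ℂ) * K (g • z) := by
    rw [← unfoldC hKm hKi, hK, integral_indicator measurableSet_SS]
  have hfd : MeasurableSet (𝒟 : Set ℍ) := Pool.Agent.W165.RS.measurableSet_fd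
  -- finiteness almost everywhere
  have hae : ∀ᵐ z : ℍ, phi z * ∑' g : SL(2, ℤ), ‖K (g • z)‖ₑ < ∞ := by
    refine ae_lt_top (measurable_phi.mul (Measurable.tsum fun g =>
      (hKm.comp (measurable_smul_SL g)).enorm)) ?_
    have := unfold (fun z => ‖K z‖ₑ) hKm.enorm
    rw [← this]
    exact hKi
  rw [h1, ← integral_const_mul]
  refine (enorm_integral_le_lintegral_enorm _).trans ?_
  rw [← lintegral_indicator hfd]
  refine lintegral_mono_ae ?_
  filter_upwards [hae] with z hz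
  by_cases hzD : z ∈ (𝒟 : Set ℍ)
  · rw [Set.indicator_of_mem hzD]
    have hφ := Pool.Agent.W165.RS.phi_pos hzD
    have hfin : ∑' g : SL(2, ℤ), ‖K (g • z)‖ₑ ≠ ∞ := by
      intro h
      rw [h, ENNReal.mul_top hφ] at hz
      exact lt_irrefl _ hz
    obtain ⟨hs1, hs2⟩ := summable_strip H hT z hfin
    have e1 : L * ∑' g : SL(2, ℤ), (phr z : ℂ) * K (g • z) =
        (phr z : ℂ) * (L * ∑' r : RR, H (gam r • z)) := by
      rw [tsum_mul_left, ← tsum_stripC H hT z hs1]
      ring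
    rw [e1, enorm_mul, enorm_phr]
    calc phi z * ‖L * ∑' r : RR, H (gam r • z)‖ₑ ≤ 1 * B z :=
          mul_le_mul' (phi_le_one z) (hB z hzD hs2)
      _ = B z := one_mul _
  · rw [Set.indicator_of_notMem hzD]
    have e0 : (phr z : ℂ) = 0 := by
      unfold phr
      rw [phi_zero hzD]
      simp
    simp only [e0, zero_mul, tsum_zero, mul_zero, enorm_zero, le_refl]

end

end Run7.h186.NT
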