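import Pool.Agent.Run7.h186.NT9b
import Pool.Agent.Run7.h186.NT3
import Pool.Agent.Run7.h186.NT2

/-! Sums over the classes, for two forms of different weights and characters. -/

set_option autoImplicit false
set_option linter.unusedSectionVars false

namespace Run7.h186.NT

open MeasureTheory Filter Topology UpperHalfPlane CongruenceSubgroup Complex
open scoped ENNReal MatrixGroups ModularForm Pointwise ComplexConjugate Modular
open Pool.Agent.W165.RS (SS measurableSet_SS qf EE RR iot gcd_iot iot_inj iot_ne cls mem_range_iot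
  gam gam_10 gam_11 im_gam GG GG_eq GG_dec im_fd)
open Pool.Agent.Y149.CR (cpow_exp qf_pos zc)
open Run7.h186.ML (pt pt_re)

noncomputable section

variable {N k l : ℕ} [NeZero N] (f : S1 N k) (g : S1 N l)

/-- `(f|γ)(z) conj (g|γ)(z) y^{(k+l)/2}` -/
def hg (γ : SL(2, ℤ)) (z : ℍ) : ℂ :=
  ((f : ℍ → ℂ) ∣[(k : ℤ)] γ) z * conj (((g : ℍ → ℂ) ∣[(l : ℤ)] γ) z) *
    ((z.im : ℝ) : ℂ) ^ (((k : ℂ) + l) / 2)

theorem val_slash (F : ℍ → ℂ) (m : ℕ) (γ : SL(2, ℤ)) (z : ℍ) :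
    F (γ • z) = (F ∣[(m : ℤ)] γ) z * denom γ z ^ m := by
  rw [ModularForm.SL_slash_apply, mul_assoc, ← zpow_natCast (denom γ z) m,
    ← zpow_add₀ (denom_ne_zero γ z), neg_add_cancel, zpow_zero, mul_one]

theorem lin_ne (z : ℍ) (r : RR) : (r.1.1 : ℂ) * z + r.1.2 ≠ 0 := by
  have h1 : denom (gam r) z = (r.1.1 : ℂ) * z + r.1.2 := by
    rw [ModularGroup.denom_apply, gam_10, gam_11]
  rw [← h1]
  exact denom_ne_zero _ z

theorem Hs_gam {κ : ℕ} (hkl : k = l + κ) (s : ℂ) (r : RR) (z : ℍ) :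
    Hs f g s (gam r • z) = hg f g (gam r) z *
      (ph z r.1 ^ κ * ((z.im / qf z r.1.1 r.1.2 : ℝ) : ℂ) ^ s) := by
  have hy := z.im_pos
  have h1 : denom (gam r) z = (r.1.1 : ℂ) * z + r.1.2 := by
    rw [ModularGroup.denom_apply, gam_10, gam_11]
  have hj : (r.1.1 : ℂ) * z + r.1.2 ≠ 0 := lin_ne z r
  have hR : 0 < ‖(r.1.1 : ℂ) * z + r.1.2‖ := norm_pos_iff.2 hj
  unfold Hs hg
  rw [val_slash f k, val_slash g l, h1, im_gam]
  set j : ℂ := (r.1.1 : ℂ) * z + r.1.2 with hjd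
  set R : ℝ := ‖j‖ with hRd
  have hq : qf z r.1.1 r.1.2 = R ^ 2 := rfl
  have hph : ph z r.1 = j / (R : ℂ) := rfl
  have hRc : (R : ℂ) ≠ 0 := by exact_mod_cast hR.ne'
  have hq0 : 0 < z.im / R ^ 2 := by positivity
  have hqc : (((z.im / R ^ 2 : ℝ)) : ℂ) ≠ 0 := by exact_mod_cast hq0.ne'
  have e1 : ((z.im / R ^ 2 : ℝ) : ℂ) ^ (s + ((k : ℂ) + l) / 2) =
      ((z.im / R ^ 2 : ℝ) : ℂ) ^ s * (((z.im : ℝ) : ℂ) ^ (((k : ℂ) + l) / 2) *
        ((R : ℂ) ^ (k + l))⁻¹) := by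
    rw [Complex.cpow_add _ _ hqc]
    congr 1
    rw [Pool.Agent.Y149.CR.div_cpow_real hy (by positivity)]
    congr 1
    rw [Complex.cpow_neg]
    congr 1
    rw [Complex.ofReal_pow, ← Complex.cpow_natCast (R : ℂ) (k + l), cpow_exp hR,
      ← Complex.ofReal_pow, cpow_exp (by positivity), Real.log_pow]
    congr 1
    push_cast
    ring
  have e2 : j * conj j = (R : ℂ) ^ 2 := by
    rw [Complex.mul_conj, Complex.normSq_eq_norm_sq]
    push_cast
    rfl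
  rw [hq, hph, e1, map_mul, map_pow]
  have e3 : j ^ k * conj j ^ l * ((R : ℂ) ^ (k + l))⁻¹ = (j / R) ^ κ := by
    rw [hkl, div_pow]
    have e4 : j ^ (l + κ) * conj j ^ l = j ^ κ * (j * conj j) ^ l := by ring
    rw [e4, e2]
    field_simp
    ring
  calc _ = ((f : ℍ → ℂ) ∣[(k : ℤ)] gam r) z * conj (((g : ℍ → ℂ) ∣[(l : ℤ)] gam r) z) *
        ((z.im : ℝ) : ℂ) ^ (((k : ℂ) + l) / 2) * ((j ^ k * conj j ^ l * ((R : ℂ) ^ (k + l))⁻¹) *
        ((z.im / R ^ 2 : ℝ) : ℂ) ^ s) := by ring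
    _ = _ := by rw [e3]

theorem norm_hg (r : RR) (z : ℍ) :
    ‖hg f g (gam r) z‖ₑ ≤ FF f (gam r • z) + FF g (gam r • z) := by
  have h1 := enorm_Hs f g 0 (gam r • z)
  have hw := (gam r • z).im_pos
  simp only [Complex.zero_re, Real.rpow_zero, ENNReal.ofReal_one, mul_one] at h1
  refine le_trans (le_of_eq ?_) h1
  -- both sides have the same norm
  have hj : (r.1.1 : ℂ) * z + r.1.2 ≠ 0 := lin_ne z r
  have hR : 0 < ‖(r.1.1 : ℂ) * z + r.1.2‖ := norm_pos_iff.2 hj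
  have hd : denom (gam r) z = (r.1.1 : ℂ) * z + r.1.2 := by
    rw [ModularGroup.denom_apply, gam_10, gam_11]
  have hy := z.im_pos
  rw [← ofReal_norm, ← ofReal_norm]
  congr 1
  unfold Hs hg
  rw [val_slash f k, val_slash g l, hd, norm_mul, norm_mul, norm_mul, norm_mul, norm_mul,
    Complex.norm_conj, Complex.norm_conj, norm_mul, norm_pow, norm_pow,
    Complex.norm_cpow_eq_rpow_re_of_pos hy, Complex.norm_cpow_eq_rpow_re_of_pos hw, im_gam]
  set R : ℝ := ‖(r.1.1 : ℂ) * z + r.1.2‖ with hRd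
  have e0 : (0 + ((k : ℂ) + l) / 2).re = ((k : ℝ) + l) / 2 := by simp
  have e0' : (((k : ℂ) + l) / 2).re = ((k : ℝ) + l) / 2 := by simp
  have e1 : (z.im / R ^ 2) ^ (((k : ℝ) + l) / 2) = z.im ^ (((k : ℝ) + l) / 2) * (R ^ (k + l))⁻¹ := by
    rw [Real.div_rpow hy.le (by positivity), div_eq_mul_inv]
    congr 2
    rw [← Real.rpow_natCast R 2, ← Real.rpow_mul hR.le, ← Real.rpow_natCast R (k + l)]
    congr 1
    push_cast
    ring
  rw [e0, e0', e1, pow_add]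
  field_simp

/-- the product of the characters -/
def om (χ ξ : DirichletCharacter ℂ N) (e : ZMod N) : ℂ := χ e * conj (ξ e)

theorem om_mul (χ ξ : DirichletCharacter ℂ N) (a b : ZMod N) :
    om χ ξ (a * b) = om χ ξ a * om χ ξ b := by
  unfold om
  rw [map_mul, map_mul, map_mul]
  ring

theorem om_one (χ ξ : DirichletCharacter ℂ N) : om χ ξ 1 = 1 := by
  unfold om
  simp

theorem norm_om (χ ξ : DirichletCharacter ℂ N) (a : ZMod N) : ‖om χ ξ a‖ ≤ 1 := by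
  unfold om
  rw [norm_mul, Complex.norm_conj]
  exact mul_le_one₀ (χ.norm_le_one a) (norm_nonneg _) (ξ.norm_le_one a)

variable {f g} in
theorem hg_mul {χ ξ : DirichletCharacter ℂ N} (hf : Neb χ f) (hg' : Neb ξ g) {δ : SL(2, ℤ)}
    (hδ : δ ∈ Gamma0 N) (γ : SL(2, ℤ)) (z : ℍ) :
    hg f g (δ * γ) z = om χ ξ ((δ 1 1 : ℤ) : ZMod N) * hg f g γ z := by
  unfold hg om
  rw [SlashAction.slash_mul, SlashAction.slash_mul, hf δ hδ, hg' δ hδ, ModularForm.SL_smul_slash,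
    ModularForm.SL_smul_slash, Pi.smul_apply, Pi.smul_apply, smul_eq_mul, smul_eq_mul, map_mul]
  ring

variable {f g} in
/-- the value does not depend on the choice of the representative -/
theorem hg_cls {χ ξ : DirichletCharacter ℂ N} (hf : Neb χ f) (hg' : Neb ξ g) {x y : EE N × RR}
    (h : cls (N := N) (iot x) = cls (iot y)) (z : ℍ) :
    om χ ξ ((x.1.1 : ℕ) : ZMod N) * hg f g (gam x.2) z =
      om χ ξ ((y.1.1 : ℕ) : ZMod N) * hg f g (gam y.2) z := by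
  set δ := gam x.2 * (gam y.2)⁻¹ with hδ
  have h10 : δ 1 0 = (gam x.2) 1 0 * (gam y.2) 1 1 - (gam x.2) 1 1 * (gam y.2) 1 0 := by
    rw [hδ, Matrix.SpecialLinearGroup.coe_mul, Matrix.SpecialLinearGroup.coe_inv,
      Matrix.adjugate_fin_two]
    simp [Matrix.mul_apply, Fin.sum_univ_two]
    ring
  have h11 : δ 1 1 = (gam x.2) 1 1 * (gam y.2) 0 0 - (gam x.2) 1 0 * (gam y.2) 0 1 := by
    rw [hδ, Matrix.SpecialLinearGroup.coe_mul, Matrix.SpecialLinearGroup.coe_inv,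
      Matrix.adjugate_fin_two]
    simp [Matrix.mul_apply, Fin.sum_univ_two]
    ring
  have hdet := (gam y.2).det_coe
  rw [Matrix.det_fin_two] at hdet
  rw [gam_10, gam_11, gam_10, gam_11] at h10
  rw [gam_10, gam_11] at h11
  rw [gam_10, gam_11] at hdet
  have hx := x.1.2.2
  have hy := y.1.2.2
  have ue : IsUnit ((x.1.1 : ℕ) : ZMod N) := (ZMod.isUnit_iff_coprime _ N).2 hx
  have uf : IsUnit ((y.1.1 : ℕ) : ZMod N) := (ZMod.isUnit_iff_coprime _ N).2 hy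
  have hc : cls (N := N) (iot x) = cls (iot y) := h
  simp only [cls, iot, Prod.mk.injEq] at hc
  obtain ⟨h1, h2⟩ := hc
  push_cast at h1 h2
  have hmem : δ ∈ Gamma0 N := by
    rw [Gamma0_mem, h10]
    push_cast
    have h3 : (((x.1.1 : ℕ) : ZMod N) * ((y.1.1 : ℕ) : ZMod N)) *
        ((x.2.1.1 : ZMod N) * y.2.1.2 - x.2.1.2 * y.2.1.1) = 0 := by
      linear_combination ((y.1.1 : ℕ) : ZMod N) * (y.2.1.2 : ZMod N) * h1 -
        ((y.1.1 : ℕ) : ZMod N) * (y.2.1.1 : ZMod N) * h2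
    exact (ue.mul uf).mul_right_eq_zero.1 h3
  have e1 : gam x.2 = δ * gam y.2 := by rw [hδ]; simp
  have hdet' : (((gam y.2) 0 0 : ℤ) : ZMod N) * (y.2.1.2 : ZMod N) -
      (((gam y.2) 0 1 : ℤ) : ZMod N) * (y.2.1.1 : ZMod N) = 1 := by
    have := congrArg (fun t : ℤ => (t : ZMod N)) hdet
    push_cast at this
    exact this
  have e2 : ((x.1.1 : ℕ) : ZMod N) * ((δ 1 1 : ℤ) : ZMod N) = ((y.1.1 : ℕ) : ZMod N) := by
    rw [h11]
    push_cast
    linear_combination (((gam y.2) 0 0 : ℤ) : ZMod N) * h2 - (((gam y.2) 0 1 : ℤ) : ZMod N) * h1 +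
      ((y.1.1 : ℕ) : ZMod N) * hdet'
  rw [e1, hg_mul hf hg' hmem, ← mul_assoc, ← om_mul, e2]

open Classical in
/-- the value on a class -/
def GC (χ ξ : DirichletCharacter ℂ N) (ab : ZMod N × ZMod N) (z : ℍ) : ℂ :=
  if h : ∃ x : EE N × RR, cls (N := N) (iot x) = ab then
    om χ ξ ((h.choose.1.1 : ℕ) : ZMod N) * hg f g (gam h.choose.2) z else 0

variable {f g} in
theorem GC_eq {χ ξ : DirichletCharacter ℂ N} (hf : Neb χ f) (hg' : Neb ξ g) (x : EE N × RR)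
    (z : ℍ) : GC f g χ ξ (cls (N := N) (iot x)) z =
      om χ ξ ((x.1.1 : ℕ) : ZMod N) * hg f g (gam x.2) z := by
  unfold GC
  have h : ∃ y : EE N × RR, cls (N := N) (iot y) = cls (iot x) := ⟨x, rfl⟩
  rw [dif_pos h]
  exact hg_cls hf hg' h.choose_spec z

theorem GC_zero (χ ξ : DirichletCharacter ℂ N) {ab : ZMod N × ZMod N}
    (h : ¬ ∃ x : EE N × RR, cls (N := N) (iot x) = ab) (z : ℍ) : GC f g χ ξ ab z = 0 := by
  unfold GC
  rw [dif_neg h]

variable {f g} in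
theorem enorm_GC {χ ξ : DirichletCharacter ℂ N} (hf : Neb χ f) (hg' : Neb ξ g)
    (ab : ZMod N × ZMod N) (z : ℍ) : ‖GC f g χ ξ ab z‖ₑ ≤ GG (FF f) ab z + GG (FF g) ab z := by
  by_cases h : ∃ x : EE N × RR, cls (N := N) (iot x) = ab
  · obtain ⟨x, rfl⟩ := h
    rw [GC_eq hf hg', GG_eq (FF_inv hf), GG_eq (FF_inv hg'), enorm_mul]
    calc _ ≤ 1 * ‖hg f g (gam x.2) z‖ₑ := by
          refine mul_le_mul' ?_ le_rfl
          rw [← ofReal_norm, ← ENNReal.ofReal_one]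
          exact ENNReal.ofReal_le_ofReal (norm_om χ ξ _)
      _ ≤ _ := by
          rw [one_mul]
          exact norm_hg f g x.2 z
  · rw [GC_zero f g χ ξ h, enorm_zero]
    exact zero_le

variable {f g} in
/-- multiplication of the class by a unit -/
theorem GC_smul {χ ξ : DirichletCharacter ℂ N} (hf : Neb χ f) (hg' : Neb ξ g) (u : (ZMod N)ˣ)
    (ab : ZMod N × ZMod N) (z : ℍ) :
    GC f g χ ξ ((u : ZMod N) * ab.1, (u : ZMod N) * ab.2) z = om χ ξ u * GC f g χ ξ ab z := by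
  -- a class and a representative
  have key : ∀ (v : (ZMod N)ˣ) (x : EE N × RR), ∃ y : EE N × RR,
      cls (N := N) (iot y) = ((v : ZMod N) * (cls (N := N) (iot x)).1,
        (v : ZMod N) * (cls (N := N) (iot x)).2) ∧ y.2 = x.2 ∧
        ((y.1.1 : ℕ) : ZMod N) = v * ((x.1.1 : ℕ) : ZMod N) := by
    intro v x
    have hN : 0 < N := NeZero.pos N
    have hx : IsUnit ((x.1.1 : ℕ) : ZMod N) := (ZMod.isUnit_iff_coprime _ N).2 x.1.2.2
    set m : ℕ := ((v : ZMod N) * ((x.1.1 : ℕ) : ZMod N)).val + N with hm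
    have hmc : (m : ZMod N) = v * ((x.1.1 : ℕ) : ZMod N) := by
      rw [hm]
      push_cast
      rw [ZMod.natCast_zmod_val, ZMod.natCast_self, add_zero]
    have hcop : m.Coprime N := by
      rw [← ZMod.isUnit_iff_coprime, hmc]
      exact v.isUnit.mul hx
    refine ⟨(⟨m, by omega, hcop⟩, x.2), ?_, rfl, hmc⟩
    simp only [cls, iot]
    push_cast
    rw [hmc]
    refine Prod.ext ?_ ?_
    · ring
    · ring
  by_cases h : ∃ x : EE N × RR, cls (N := N) (iot x) = ab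
  · obtain ⟨x, rfl⟩ := h
    obtain ⟨y, hy1, hy2, hy3⟩ := key u x
    rw [← hy1, GC_eq hf hg', GC_eq hf hg', hy2, hy3, om_mul]
    ring
  · rw [GC_zero f g χ ξ h, mul_zero, GC_zero]
    rintro ⟨x, hx⟩
    obtain ⟨y, hy1, -, -⟩ := key u⁻¹ x
    refine h ⟨y, ?_⟩
    rw [hy1, hx]
    refine Prod.ext ?_ ?_
    · simp
    · simp

variable {f g} in
/-- the sum over the classes vanishes if the characters are different -/
theorem sum_GC {χ ξ : DirichletCharacter ℂ N} (hf : Neb χ f) (hg' : Neb ξ g) {u : (ZMod N)ˣ}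
    (hu : om χ ξ u ≠ 1) (z : ℍ) : ∑ ab : ZMod N × ZMod N, GC f g χ ξ ab z = 0 := by
  set S := ∑ ab : ZMod N × ZMod N, GC f g χ ξ ab z with hS
  have h1 : S = om χ ξ u * S := by
    rw [hS, Finset.mul_sum]
    rw [← Equiv.sum_comp ((Units.mulLeft u).prodCongr (Units.mulLeft u))]
    refine Finset.sum_congr rfl fun ab _ => ?_
    rw [← GC_smul hf hg' u ab z]
    rfl
  have h2 : (1 - om χ ξ u) * S = 0 := by linear_combination h1
  rcases mul_eq_zero.1 h2 with h3 | h3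
  · exact absurd (sub_eq_zero.1 h3).symm hu
  · exact h3

end

end Run7.h186.NT
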