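import Pool.Agent.Run7.h186.NT10

/-! The Rankin-Selberg series of two forms of different weights, characters or heights is bounded. -/

set_option autoImplicit false
set_option linter.unusedSectionVars false

namespace Run7.h186.NT

open MeasureTheory Filter Topology UpperHalfPlane CongruenceSubgroup Complex
open scoped ENNReal MatrixGroups ModularForm Pointwise ComplexConjugate Modular
open Pool.Agent.W165.RS (SS measurableSet_SS qf EE RR iot gcd_iot iot_inj iot_ne cls mem_range_iot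
  gam gam_10 gam_11 im_gam GG GG_eq GG_dec im_fd volume_fd_ne_top measurableSet_fd)
open Pool.Agent.Y149.CR (cpow_exp qf_pos zc div_cpow_real)
open Run7.h186.ML (pt pt_re)

noncomputable section

variable {N k l : ℕ} [NeZero N] {f : S1 N k} {g : S1 N l}

/-- the Dirichlet series -/
def LL (χ ξ : DirichletCharacter ℂ N) (s : ℂ) : ℂ :=
  ∑' e : EE N, om χ ξ ((e.1 : ℕ) : ZMod N) * ((e.1 : ℕ) : ℂ) ^ (-(2 * s))

theorem norm_LL_term (χ ξ : DirichletCharacter ℂ N) {s : ℂ} (hs : 1 ≤ s.re) (e : EE N) :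
    ‖om χ ξ ((e.1 : ℕ) : ZMod N) * ((e.1 : ℕ) : ℂ) ^ (-(2 * s))‖ ≤ 1 / ((e.1 : ℕ) : ℝ) ^ 2 := by
  have he : (1 : ℝ) ≤ (e.1 : ℕ) := by exact_mod_cast e.2.1
  rw [norm_mul, Complex.norm_natCast_cpow_of_pos e.2.1]
  calc _ ≤ 1 * ((e.1 : ℕ) : ℝ) ^ (-(2 : ℝ)) := by
        refine mul_le_mul (norm_om χ ξ _) ?_ (by positivity) zero_le_one
        refine Real.rpow_le_rpow_of_exponent_le he ?_
        simp
        linarith
    _ = _ := by
        rw [one_mul, Real.rpow_neg (by positivity), one_div]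
        congr 1
        rw [← Real.rpow_natCast]
        norm_num

theorem summable_EE : Summable fun e : EE N => 1 / ((e.1 : ℕ) : ℝ) ^ 2 :=
  hasSum_zeta_two.summable.comp_injective Subtype.val_injective

theorem summable_LL (χ ξ : DirichletCharacter ℂ N) {s : ℂ} (hs : 1 ≤ s.re) :
    Summable fun e : EE N => ‖om χ ξ ((e.1 : ℕ) : ZMod N) * ((e.1 : ℕ) : ℂ) ^ (-(2 * s))‖ :=
  Summable.of_nonneg_of_le (fun _ => norm_nonneg _) (norm_LL_term χ ξ hs) summable_EE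

theorem LL_lower (χ ξ : DirichletCharacter ℂ N) {s : ℂ} (hs : 1 ≤ s.re) : 1 / 4 ≤ ‖LL χ ξ s‖ := by
  classical
  set e1 : EE N := ⟨1, one_pos, Nat.coprime_one_left N⟩ with he1
  have hsum := (summable_LL χ ξ hs).of_norm
  have h1 := hsum.tsum_eq_add_tsum_ite e1
  have h2 := (summable_EE (N := N)).tsum_eq_add_tsum_ite e1
  have t1 : om χ ξ ((e1.1 : ℕ) : ZMod N) * ((e1.1 : ℕ) : ℂ) ^ (-(2 * s)) = 1 := by
    rw [he1]
    simp [om_one]
  have t2 : 1 / ((e1.1 : ℕ) : ℝ) ^ 2 = 1 := by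
    rw [he1]
    simp
  rw [t1] at h1
  rw [t2] at h2
  have h3 : ∑' e : EE N, 1 / ((e.1 : ℕ) : ℝ) ^ 2 ≤ Real.pi ^ 2 / 6 := by
    rw [← hasSum_zeta_two.tsum_eq]
    exact Summable.tsum_le_tsum_of_inj (fun e : EE N => (e.1 : ℕ)) Subtype.val_injective
      (fun n _ => by positivity) (fun e => le_rfl) summable_EE hasSum_zeta_two.summable
  have hpi : Real.pi ^ 2 / 6 < 7 / 4 := by
    have h4 := Real.pi_lt_d2
    have h5 := Real.pi_pos
    nlinarith
  have h4 : ‖∑' e : EE N, (if e = e1 then 0 else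
      om χ ξ ((e.1 : ℕ) : ZMod N) * ((e.1 : ℕ) : ℂ) ^ (-(2 * s)))‖ ≤
      ∑' e : EE N, (if e = e1 then 0 else 1 / ((e.1 : ℕ) : ℝ) ^ 2) := by
    refine tsum_of_norm_bounded (Summable.hasSum ?_) fun e => ?_
    · refine Summable.of_nonneg_of_le (fun e => ?_) (fun e => ?_) (summable_EE (N := N))
      · split_ifs
        · exact le_rfl
        · positivity
      · split_ifs
        · positivity
        · exact le_rfl
    · split_ifs
      · simp
      · exact norm_LL_term χ ξ hs e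
  have h5 : LL χ ξ s = 1 + ∑' e : EE N, (if e = e1 then 0 else
      om χ ξ ((e.1 : ℕ) : ZMod N) * ((e.1 : ℕ) : ℂ) ^ (-(2 * s))) := h1
  set T := ∑' e : EE N, (if e = e1 then 0 else
      om χ ξ ((e.1 : ℕ) : ZMod N) * ((e.1 : ℕ) : ℂ) ^ (-(2 * s)))
  have h6 : 1 - ‖T‖ ≤ ‖1 + T‖ := by
    have := norm_sub_norm_le (1 : ℂ) (-T)
    rw [sub_neg_eq_add, norm_neg, norm_one] at this
    exact this
  rw [h5]
  linarith

set_option maxHeartbeats 2000000 in
/-- **The sum over the coprime pairs.** -/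
theorem LL_mul {χ ξ : DirichletCharacter ℂ N} (hf : Neb χ f) (hg' : Neb ξ g) {κ : ℕ}
    (hkl : k = l + κ) {s : ℂ} (h1 : 1 < s.re) (h2 : s.re ≤ 2) (z : ℍ)
    (hs : Summable fun r : RR => ‖Hs f g s (gam r • z)‖) :
    LL χ ξ s * ∑' r : RR, Hs f g s (gam r • z) =
      ∑ ab : ZMod N × ZMod N, GC f g χ ξ ab z * ∑' p, zk κ ab.1 ab.2 z s p := by
  have hy := z.im_pos
  -- one term
  have hterm : ∀ x : EE N × RR, (om χ ξ ((x.1.1 : ℕ) : ZMod N) * ((x.1.1 : ℕ) : ℂ) ^ (-(2 * s))) *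
      Hs f g s (gam x.2 • z) = GC f g χ ξ (cls (N := N) (iot x)) z *
        (ph z (iot x) ^ κ * ((z.im / qf z (iot x).1 (iot x).2 : ℝ) : ℂ) ^ s) := by
    rintro ⟨e, r⟩
    have he : (0 : ℝ) < (e.1 : ℕ) := by exact_mod_cast e.2.1
    have hec : ((e.1 : ℕ) : ℂ) ≠ 0 := by exact_mod_cast he.ne'
    have hj : (r.1.1 : ℂ) * z + r.1.2 ≠ 0 := lin_ne z r
    have hR : 0 < ‖(r.1.1 : ℂ) * z + r.1.2‖ := norm_pos_iff.2 hj
    rw [GC_eq hf hg', Hs_gam f g hkl]
    have e0 : (((((e.1 : ℕ) : ℤ) * r.1.1 : ℤ)) : ℂ) * z + ((((e.1 : ℕ) : ℤ) * r.1.2 : ℤ) : ℂ) =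
        ((e.1 : ℕ) : ℂ) * ((r.1.1 : ℂ) * z + r.1.2) := by
      push_cast
      ring
    have e1 : ph z (iot (e, r)) = ph z r.1 := by
      unfold ph iot
      simp only
      rw [e0, norm_mul, Complex.norm_natCast]
      push_cast
      rw [mul_div_mul_left _ _ hec]
    have e2 : qf z (iot (e, r)).1 (iot (e, r)).2 = ((e.1 : ℕ) : ℝ) ^ 2 * qf z r.1.1 r.1.2 := by
      unfold qf iot
      simp only
      rw [e0, norm_mul, Complex.norm_natCast, mul_pow]
    have hq0 : 0 < qf z r.1.1 r.1.2 := by unfold qf; positivity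
    have e3 : ((z.im / (((e.1 : ℕ) : ℝ) ^ 2 * qf z r.1.1 r.1.2) : ℝ) : ℂ) ^ s =
        ((e.1 : ℕ) : ℂ) ^ (-(2 * s)) * ((z.im / qf z r.1.1 r.1.2 : ℝ) : ℂ) ^ s := by
      have e4 : z.im / (((e.1 : ℕ) : ℝ) ^ 2 * qf z r.1.1 r.1.2) =
          z.im / qf z r.1.1 r.1.2 / ((e.1 : ℕ) : ℝ) ^ 2 := by
        field_simp
      rw [e4, div_cpow_real (by positivity) (by positivity), mul_comm]
      congr 1
      rw [cpow_exp (by positivity), Real.log_pow]
      have e5 : ((e.1 : ℕ) : ℂ) = ((((e.1 : ℕ) : ℝ)) : ℂ) := by push_cast; rfl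
      rw [e5, cpow_exp he]
      congr 1
      push_cast
      ring
    rw [e1, e2, e3]
    ring
  set Φ : ℤ × ℤ → ℂ := fun p => if p ≠ (0, 0) then GC f g χ ξ (cls (N := N) p) z *
      (ph z p ^ κ * ((z.im / qf z p.1 p.2 : ℝ) : ℂ) ^ s) else 0 with hΦ
  have step1 : LL χ ξ s * ∑' r : RR, Hs f g s (gam r • z) = ∑' x : EE N × RR, Φ (iot x) := by
    unfold LL
    rw [tsum_mul_tsum_of_summable_norm (summable_LL χ ξ h1.le) hs]
    refine tsum_congr fun x => ?_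
    rw [hterm x, hΦ]
    simp only
    rw [if_pos (iot_ne x)]
  have hsupp : Function.support Φ ⊆ Set.range (iot (N := N)) := by
    intro p hp
    rw [Function.mem_support, hΦ] at hp
    simp only at hp
    by_cases h0 : p ≠ (0, 0)
    · rw [if_pos h0] at hp
      by_cases h : ∃ x : EE N × RR, cls (N := N) (iot x) = cls p
      · obtain ⟨x, hx⟩ := h
        exact mem_range_iot h0 hx
      · exact absurd (by rw [GC_zero f g χ ξ h, zero_mul]) hp
    · rw [if_neg h0] at hp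
      exact absurd rfl hp
  have step2 := iot_inj.tsum_eq hsupp
  have e3 : ∀ p : ℤ × ℤ, Φ p =
      ∑ ab : ZMod N × ZMod N, GC f g χ ξ ab z * zk κ ab.1 ab.2 z s p := by
    intro p
    rw [hΦ]
    simp only
    by_cases h0 : p ≠ (0, 0)
    · rw [if_pos h0, Finset.sum_eq_single (cls (N := N) p)]
      · unfold zk zc
        rw [if_pos ⟨h0, rfl, rfl⟩]
      · intro ab _ hab
        unfold zk zc
        rw [if_neg, mul_zero, mul_zero]
        rintro ⟨-, h1, h2⟩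
        exact hab (Prod.ext h1.symm h2.symm)
      · intro h; exact absurd (Finset.mem_univ _) h
    · rw [if_neg h0]
      symm
      apply Finset.sum_eq_zero
      intro ab _
      unfold zk zc
      rw [if_neg (fun h => h0 h.1), mul_zero, mul_zero]
  rw [step1, step2]
  simp_rw [e3]
  rw [Summable.tsum_finsetSum (fun ab _ => (summable_zk κ ab.1 ab.2 z h1 h2).of_norm.mul_left _)]
  refine Finset.sum_congr rfl fun ab _ => ?_
  rw [tsum_mul_left]

/-- **The bound, from a bound for the lattice sums.** -/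
theorem strip_bdd {χ ξ : DirichletCharacter ℂ N} (hf : Neb χ f) (hg' : Neb ξ g) (hk : 0 < k)
    (hl : 0 < l) (sf : Sm f) (sg : Sm g) {κ : ℕ} (hkl : k = l + κ) (τ : ℝ) (A : ℝ → ℂ) {C : ℝ}
    (hC : 0 ≤ C) (hlat : ∀ᶠ ε : ℝ in 𝓝[>] 0, ∀ (a b : ZMod N) (w : ℍ), 1 / 2 ≤ w.im →
      ‖∑' p, zk κ a b w (pt τ ε) p - A ε‖ ≤ C * w.im ^ 2)
    (hA : ∀ ε z, A ε * ∑ ab : ZMod N × ZMod N, GC f g χ ξ ab z = 0) :
    ∃ D : ℝ≥0∞, D ≠ ∞ ∧ ∀ᶠ ε : ℝ in 𝓝[>] 0,
      ‖LL χ ξ (pt τ ε) * ∫ z in SS, Hs f g (pt τ ε) z‖ₑ ≤ D := by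
  obtain ⟨K₁, hK₁, hb₁⟩ := GG_dec (N := N) (FF_dec f)
  obtain ⟨K₂, hK₂, hb₂⟩ := GG_dec (N := N) (FF_dec g)
  set B : ℝ≥0∞ := ∑ _ab : ZMod N × ZMod N, ENNReal.ofReal C * (K₁ + K₂) with hB
  have hBtop : B ≠ ∞ := ENNReal.sum_ne_top.2 fun _ _ =>
    ENNReal.mul_ne_top ENNReal.ofReal_ne_top (ENNReal.add_ne_top.2 ⟨hK₁, hK₂⟩)
  have hlt : ∀ᶠ s : ℝ in 𝓝[>] 0, s ≤ 1 :=
    Filter.Eventually.filter_mono nhdsWithin_le_nhds (Iic_mem_nhds one_pos)
  refine ⟨∫⁻ _ in (𝒟 : Set ℍ), B, ?_, ?_⟩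
  · rw [setLIntegral_const]
    exact ENNReal.mul_ne_top hBtop volume_fd_ne_top
  filter_upwards [hlat, self_mem_nhdsWithin, hlt] with ε h1 h2 h3
  have hε : (0 : ℝ) < ε := h2
  have hre1 : 1 < (pt τ ε).re := by rw [pt_re]; linarith
  have hre2 : (pt τ ε).re ≤ 2 := by rw [pt_re]; linarith
  refine strip_le (Hs_meas f g _) ?_ (lint_Hs f g hk hl sf sg hre1) _ ?_
  · intro n z
    have hmem : ModularGroup.T ^ n ∈ Gamma0 N := by
      rw [Gamma0_mem, ModularGroup.coe_T_zpow]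
      simp
    have h11 : (ModularGroup.T ^ n : SL(2, ℤ)) 1 1 = 1 := by
      rw [ModularGroup.coe_T_zpow]
      simp
    have hd : denom (ModularGroup.T ^ n : SL(2, ℤ)) z = 1 := by
      rw [ModularGroup.denom_apply, ModularGroup.coe_T_zpow]
      simp
    have hfT : f (ModularGroup.T ^ n • z) = f z := by
      have := val_slash f k (ModularGroup.T ^ n) z
      rw [hf _ hmem, h11, hd] at this
      simpa using this
    have hgT : g (ModularGroup.T ^ n • z) = g z := by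
      have := val_slash g l (ModularGroup.T ^ n) z
      rw [hg' _ hmem, h11, hd] at this
      simpa using this
    unfold Hs
    rw [hfT, hgT, ModularGroup.im_T_zpow_smul]
  · intro z hz hsum
    have hv := im_fd hz
    rw [LL_mul hf hg' hkl hre1 hre2 z hsum]
    have e1 : ∑ ab : ZMod N × ZMod N, GC f g χ ξ ab z * ∑' p, zk κ ab.1 ab.2 z (pt τ ε) p =
        ∑ ab : ZMod N × ZMod N, GC f g χ ξ ab z *
          (∑' p, zk κ ab.1 ab.2 z (pt τ ε) p - A ε) := by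
      have e2 : ∑ ab : ZMod N × ZMod N, GC f g χ ξ ab z *
          (∑' p, zk κ ab.1 ab.2 z (pt τ ε) p - A ε) =
          ∑ ab : ZMod N × ZMod N, GC f g χ ξ ab z * ∑' p, zk κ ab.1 ab.2 z (pt τ ε) p -
          A ε * ∑ ab : ZMod N × ZMod N, GC f g χ ξ ab z := by
        rw [Finset.mul_sum, ← Finset.sum_sub_distrib]
        exact Finset.sum_congr rfl fun ab _ => by ring
      rw [e2, hA, sub_zero]
    rw [e1]
    refine (enorm_sum_le _ _).trans ?_
    rw [hB]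
    refine Finset.sum_le_sum fun ab _ => ?_
    rw [enorm_mul]
    have e3 : ‖∑' p, zk κ ab.1 ab.2 z (pt τ ε) p - A ε‖ₑ ≤
        ENNReal.ofReal C * ENNReal.ofReal (z.im ^ 2) := by
      rw [← ofReal_norm, ← ENNReal.ofReal_mul hC]
      exact ENNReal.ofReal_le_ofReal (h1 ab.1 ab.2 z hv)
    calc ‖GC f g χ ξ ab z‖ₑ * ‖∑' p, zk κ ab.1 ab.2 z (pt τ ε) p - A ε‖ₑ
        ≤ (GG (FF f) ab z + GG (FF g) ab z) * (ENNReal.ofReal C * ENNReal.ofReal (z.im ^ 2)) :=
          mul_le_mul' (enorm_GC hf hg' ab z) e3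
      _ = ENNReal.ofReal C * (GG (FF f) ab z * ENNReal.ofReal (z.im ^ 2) +
          GG (FF g) ab z * ENNReal.ofReal (z.im ^ 2)) := by ring
      _ ≤ _ := by
          gcongr
          · exact hb₁ ab z hv
          · exact hb₂ ab z hv

theorem pt_lim (τ : ℝ) : Tendsto (fun ε : ℝ => pt τ ε) (𝓝[>] 0) (𝓝 (1 + τ * Complex.I)) := by
  have h1 : Continuous fun ε : ℝ => pt τ ε := by
    unfold pt
    fun_prop
  have h2 := h1.tendsto 0
  have e : pt τ 0 = 1 + τ * Complex.I := by simp [pt]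
  rw [e] at h2
  exact h2.mono_left nhdsWithin_le_nhds

/-- the archimedean factor is bounded below -/
theorem arch_lower (k l : ℕ) (hk : 0 < k) (hl : 0 < l) (τ : ℝ) : ∃ c : ℝ, 0 < c ∧
    ∀ᶠ ε : ℝ in 𝓝[>] 0, c ≤ ‖((4 * Real.pi : ℝ) : ℂ) ^ (-(sp k l (pt τ ε))) *
      Complex.Gamma (sp k l (pt τ ε))‖ := by
  have hk' : (1 : ℝ) ≤ k := by exact_mod_cast hk
  have hl' : (1 : ℝ) ≤ l := by exact_mod_cast hl
  have hpi := Real.pi_pos
  have hpc : ((4 * Real.pi : ℝ) : ℂ) ≠ 0 := by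
    have : (4 * Real.pi : ℝ) ≠ 0 := by positivity
    exact_mod_cast this
  set s0 : ℂ := 1 + τ * Complex.I with hs0
  have hre : 0 < (sp k l s0).re := by
    rw [sp_re, hs0]
    simp
    linarith
  have hsp : Continuous fun s : ℂ => sp k l s := by
    unfold sp
    fun_prop
  have h1 : ContinuousAt (fun s : ℂ => ‖((4 * Real.pi : ℝ) : ℂ) ^ (-(sp k l s)) *
      Complex.Gamma (sp k l s)‖) s0 := by
    refine ContinuousAt.norm (ContinuousAt.mul ?_ ?_)
    · refine ContinuousAt.const_cpow hsp.neg.continuousAt (Or.inl hpc)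
    · have hG : ContinuousAt Complex.Gamma (sp k l s0) := by
        refine (Complex.differentiableAt_Gamma _ fun m hm => ?_).continuousAt
        rw [hm] at hre
        simp at hre
        have : (0 : ℝ) ≤ m := Nat.cast_nonneg m
        linarith
      exact ContinuousAt.comp (f := fun s : ℂ => sp k l s) hG hsp.continuousAt
  have hpos : 0 < ‖((4 * Real.pi : ℝ) : ℂ) ^ (-(sp k l s0)) * Complex.Gamma (sp k l s0)‖ := by
    refine norm_pos_iff.2 (mul_ne_zero ?_ (Complex.Gamma_ne_zero_of_re_pos hre))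
    rw [Ne, Complex.cpow_eq_zero_iff]
    intro h
    exact hpc h.1
  refine ⟨_, half_pos hpos, ?_⟩
  have h2 := (h1.tendsto.comp (pt_lim τ)).eventually (lt_mem_nhds (half_lt_self hpos))
  exact h2.mono fun ε h => h.le

/-- **The Rankin-Selberg series is bounded.** -/
theorem CR_bdd' {χ ξ : DirichletCharacter ℂ N} (hf : Neb χ f) (hg' : Neb ξ g) (hk : 0 < k)
    (hl : 0 < l) (sf : Sm f) (sg : Sm g) {κ : ℕ} (hkl : k = l + κ) {τ : ℝ}
    (h : τ ≠ 0 ∨ κ ≠ 0 ∨ ∃ u : (ZMod N)ˣ, χ u ≠ ξ u) :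
    ∃ C : ℝ, ∀ᶠ ε : ℝ in 𝓝[>] 0, ‖CR (lm f) (lm g) (pt τ ε)‖ ≤ C := by
  have main : ∃ D : ℝ≥0∞, D ≠ ∞ ∧ ∀ᶠ ε : ℝ in 𝓝[>] 0,
      ‖LL χ ξ (pt τ ε) * ∫ z in SS, Hs f g (pt τ ε) z‖ₑ ≤ D := by
    by_cases h1 : τ ≠ 0 ∨ κ ≠ 0
    · obtain ⟨C, hC, hev⟩ := latk_bdd (N := N) h1
      refine strip_bdd hf hg' hk hl sf sg hkl τ (fun _ => 0) hC ?_ (fun ε z => by rw [zero_mul])
      filter_upwards [hev] with ε h2 a b w hw
      rw [sub_zero]
      exact h2 a b w hw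
    · push Not at h1
      obtain ⟨rfl, rfl⟩ := h1
      rcases h with h | h | ⟨u, hu⟩
      · exact absurd rfl h
      · exact absurd rfl h
      · obtain ⟨C, A, hC, hev⟩ := latk_zero (N := N)
        have hom : om χ ξ u ≠ 1 := by
          intro h2
          unfold om at h2
          have h3 : ξ u * conj (ξ u) = 1 := by
            rw [Complex.mul_conj, Complex.normSq_eq_norm_sq, ξ.unit_norm_eq_one u]
            norm_num
          have h4 : conj (ξ u) ≠ 0 := by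
            intro h5
            rw [h5, mul_zero] at h3
            exact zero_ne_one h3
          exact hu (mul_right_cancel₀ h4 (h2.trans h3.symm))
        refine strip_bdd hf hg' hk hl sf sg hkl 0 (fun ε => (A ε : ℂ)) hC hev (fun ε z => ?_)
        rw [sum_GC hf hg' hom, mul_zero]
  obtain ⟨D, hD, hev⟩ := main
  obtain ⟨c, hc, hcev⟩ := arch_lower k l hk hl τ
  refine ⟨D.toReal * (4 / c), ?_⟩
  filter_upwards [hev, hcev, self_mem_nhdsWithin] with ε h1 h2 h3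
  have hε : (0 : ℝ) < ε := h3
  have hre1 : 1 < (pt τ ε).re := by rw [pt_re]; linarith
  rw [strip2 f g hk hl sf sg hre1] at h1
  have h4 : ‖LL χ ξ (pt τ ε) * (((4 * Real.pi : ℝ) : ℂ) ^ (-(sp k l (pt τ ε))) *
      Complex.Gamma (sp k l (pt τ ε)) * CR (lm f) (lm g) (pt τ ε))‖ ≤ D.toReal := by
    rw [← ofReal_norm] at h1
    exact (ENNReal.ofReal_le_iff_le_toReal hD).1 h1
  rw [norm_mul, norm_mul] at h4
  have h5 := LL_lower χ ξ hre1.le
  have hx := norm_nonneg (CR (lm f) (lm g) (pt τ ε))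
  have h6 : 1 / 4 * (c * ‖CR (lm f) (lm g) (pt τ ε)‖) ≤ D.toReal := by
    refine le_trans ?_ h4
    refine mul_le_mul h5 ?_ (by positivity) (norm_nonneg _)
    exact mul_le_mul_of_nonneg_right h2 hx
  rw [← mul_div_assoc, le_div_iff₀ hc]
  linarith

end

end Run7.h186.NT
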