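import Pool.Agent.Y149.TL.Defs
import Mathlib.NumberTheory.ModularForms.QExpansion
import Mathlib.NumberTheory.DirichletCharacter.Basic

/-!
# Tensor products with newforms of any weight, level and character on the edge line: definitions
-/

set_option autoImplicit false

namespace Run7.h186.NT

open Filter Topology Polynomial UpperHalfPlane CongruenceSubgroup
open scoped MatrixGroups ModularForm
open Pool.Agent.Y149.TL (Motive IsEuler tensL)

/-- A holomorphic cusp form `f = ∑ a_n q^n` of weight `k ≥ 1` on `Γ₁(N)` with nebentypus `χ`, `k = weight`,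
`N = level`, `χ = chi`, which is a normalised eigenform of all Hecke operators `T_n`.  By the theorems
of Deligne and, for weight one, of Deligne and Serre, the last condition (on the Frobenius eigenvalues
at the primes not dividing the level) holds for every such `f`; all newforms are of this kind. -/
structure Eigenform where
  level : ℕ
  weight : ℕ
  chi : DirichletCharacter ℂ level
  form : CuspForm (Gamma1 level : Subgroup (GL (Fin 2) ℝ)) (weight : ℤ)
  level_pos : 0 < level
  weight_pos : 0 < weight
  nebentypus : ∀ γ : SL(2, ℤ), γ ∈ Gamma0 level →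
    (form : ℍ → ℂ) ∣[(weight : ℤ)] γ = chi ((γ 1 1 : ℤ) : ZMod level) • (form : ℍ → ℂ)
  one : (qExpansion 1 form).coeff 1 = 1
  mul : ∀ m n : ℕ, m.Coprime n →
    (qExpansion 1 form).coeff (m * n) = (qExpansion 1 form).coeff m * (qExpansion 1 form).coeff n
  pow : ∀ p : ℕ, p.Prime → ∀ j : ℕ, (qExpansion 1 form).coeff (p ^ (j + 2)) =
    (qExpansion 1 form).coeff p * (qExpansion 1 form).coeff (p ^ (j + 1)) -
      chi (p : ZMod level) * (p : ℂ) ^ (weight - 1) * (qExpansion 1 form).coeff (p ^ j)
  deligne : ∀ p : ℕ, p.Prime → ¬ p ∣ level → ∀ z : ℂ,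
    z ^ 2 - (qExpansion 1 form).coeff p * z + chi (p : ZMod level) * (p : ℂ) ^ (weight - 1) = 0 →
    ‖z‖ = (p : ℝ) ^ (((weight : ℝ) - 1) / 2)

/-- the Fourier coefficient `a_n` -/
noncomputable def Eigenform.a (f : Eigenform) (n : ℕ) : ℂ := (qExpansion 1 f.form).coeff n

/-- `f` and `f'` have different weights, or different `a_p` or `χ(p)` for some prime `p` which divides
neither level.  Different newforms satisfy this, by multiplicity one. -/
def Differ (f f' : Eigenform) : Prop :=
  f.weight ≠ f'.weight ∨ ∃ p : ℕ, p.Prime ∧ ¬ p ∣ f.level ∧ ¬ p ∣ f'.level ∧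
    (f.a p ≠ f'.a p ∨ f.chi (p : ZMod f.level) ≠ f'.chi (p : ZMod f'.level))

/-- The eigenvalues of Frobenius at `p` on the two-dimensional Galois representation (of weight `k - 1`)
of `f`, `p` a prime not dividing the level: the roots of `X² - a_p X + χ(p) p^{k-1}`. -/
noncomputable def frob (f : Eigenform) (p : ℕ) : Multiset ℂ :=
  (X ^ 2 - C (f.a p) * X + C (f.chi (p : ZMod f.level) * (p : ℂ) ^ (f.weight - 1))).roots

/-- The weight of `M ⊗ f_{l_1} ⊗ ⋯ ⊗ f_{l_k}`: the weight of `M` plus the `k_e - 1`, `k_e` the weight of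
the form `f_e`. -/
def wt {ι : Type} (M : Motive) (f : ι → Eigenform) (l : List ι) : ℤ :=
  M.weight + ((l.map fun e => (f e).weight - 1).sum : ℕ)

/-- `B` are the Euler factors of `L(M ⊗ f_{l_1} ⊗ ⋯ ⊗ f_{l_k}, s)`. -/
def IsTensor {ι : Type} (M : Motive) (f : ι → Eigenform) (l : List ι) (B : Nat.Primes → ℂ[X]) :
    Prop :=
  IsEuler (wt M f l) (fun p => tensL (M.frob p) (fun e => frob (f e) p) l) B

end Run7.h186.NT
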