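import Pool.Agent.Run7.h186.NT7
import Pool.Agent.Run7.h186.NTDefs

/-! Eigenforms; two eigenforms of the same weight and character. -/

set_option autoImplicit false
set_option linter.unusedSectionVars false

namespace Run7.h186.NT

open MeasureTheory Filter Topology UpperHalfPlane CongruenceSubgroup Complex
open scoped ENNReal MatrixGroups ModularForm Pointwise ComplexConjugate

noncomputable section

variable {N k : ℕ}

/-- the properties of an eigenform which are used -/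
structure Hk [NeZero N] (f : S1 N k) (χ : DirichletCharacter ℂ N) : Prop where
  pos : 0 < k
  neb : Neb χ f
  one : aq f 1 = 1
  mul : ∀ m n : ℕ, m.Coprime n → aq f (m * n) = aq f m * aq f n
  pow : ∀ p : ℕ, p.Prime → ∀ j : ℕ, aq f (p ^ (j + 2)) = aq f p * aq f (p ^ (j + 1)) -
      χ (p : ZMod N) * (p : ℂ) ^ (k - 1) * aq f (p ^ j)
  deligne : ∀ p : ℕ, p.Prime → ¬ p ∣ N → ∀ z : ℂ,
    z ^ 2 - aq f p * z + χ (p : ZMod N) * (p : ℂ) ^ (k - 1) = 0 →
    ‖z‖ = (p : ℝ) ^ (((k : ℝ) - 1) / 2)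

instance (f : Eigenform) : NeZero f.level := ⟨f.level_pos.ne'⟩

theorem Eigenform.hk (f : Eigenform) : Hk (N := f.level) (k := f.weight) f.form f.chi :=
  ⟨f.weight_pos, f.nebentypus, f.one, f.mul, f.pow, f.deligne⟩

section
variable [NeZero N] {f : S1 N k} {χ : DirichletCharacter ℂ N}

theorem Hk.sm (h : Hk f χ) : Sm f := (rs_form f h.neb h.pos h.one).1

theorem Hk.lm_one (h : Hk f χ) : lm f 1 = 1 := by
  unfold lm
  rw [h.one]
  simp

theorem Hk.lm_mul (h : Hk f χ) {m n : ℕ} (hmn : m.Coprime n) : lm f (m * n) = lm f m * lm f n := by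
  unfold lm
  rw [h.mul m n hmn, Nat.cast_mul, Real.mul_rpow (Nat.cast_nonneg _) (Nat.cast_nonneg _)]
  push_cast
  ring

theorem half_pow {p : ℕ} (hp : 0 < p) (hk : 0 < k) :
    (((p : ℝ) ^ (-(((k : ℝ) - 1) / 2)) : ℝ) : ℂ) ^ 2 * (p : ℂ) ^ (k - 1) = 1 := by
  have hp0 : (0 : ℝ) < p := by exact_mod_cast hp
  have e1 : (p : ℂ) ^ (k - 1) = (((p : ℝ) ^ (k - 1) : ℝ) : ℂ) := by push_cast; rfl
  rw [e1, ← Complex.ofReal_pow, ← Complex.ofReal_mul, ← Real.rpow_natCast, ← Real.rpow_mul hp0.le,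
    ← Real.rpow_natCast (p : ℝ) (k - 1), ← Real.rpow_add hp0, Nat.cast_sub hk]
  have e2 : -(((k : ℝ) - 1) / 2) * ((2 : ℕ) : ℝ) + ((k : ℝ) - ((1 : ℕ) : ℝ)) = 0 := by
    push_cast
    ring
  rw [e2, Real.rpow_zero]
  simp

theorem lm_ppow (f : S1 N k) (p j : ℕ) : lm f (p ^ j) =
    aq f (p ^ j) * (((p : ℝ) ^ (-(((k : ℝ) - 1) / 2)) : ℝ) : ℂ) ^ j := by
  unfold lm
  congr 1
  push_cast
  rw [← Complex.ofReal_pow]
  congr 1
  rw [← Real.rpow_natCast, ← Real.rpow_mul (Nat.cast_nonneg _), ← Real.rpow_natCast _ j,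
    ← Real.rpow_mul (Nat.cast_nonneg _)]
  congr 1
  ring

theorem Hk.lm_pow (h : Hk f χ) {p : ℕ} (hp : p.Prime) (j : ℕ) :
    lm f (p ^ (j + 2)) = lm f p * lm f (p ^ (j + 1)) - χ (p : ZMod N) * lm f (p ^ j) := by
  have e1 := lm_ppow f p 1
  rw [pow_one, pow_one] at e1
  rw [lm_ppow, lm_ppow, lm_ppow, e1, h.pow p hp j]
  have h2 := half_pow (k := k) hp.pos h.pos
  linear_combination (-(χ (p : ZMod N) * aq f (p ^ j) *
    (((p : ℝ) ^ (-(((k : ℝ) - 1) / 2)) : ℝ) : ℂ) ^ j)) * h2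

theorem exists_roots (a c : ℂ) : ∃ z w : ℂ, z + w = a ∧ z * w = c := by
  obtain ⟨r, hr⟩ := IsAlgClosed.exists_pow_nat_eq (a ^ 2 - 4 * c) (n := 2) (by norm_num)
  refine ⟨(a + r) / 2, (a - r) / 2, by ring, ?_⟩
  linear_combination (-1 / 4 : ℂ) * hr

/-- the Satake parameters -/
theorem Hk.sat (h : Hk f χ) {p : ℕ} (hp : p.Prime) (hN : ¬ p ∣ N) : ∃ α β : ℂ, ‖α‖ = 1 ∧ ‖β‖ = 1 ∧
    α + β = lm f p ∧ α * β = χ (p : ZMod N) := by
  obtain ⟨z, w, hs, hm⟩ := exists_roots (aq f p) (χ (p : ZMod N) * (p : ℂ) ^ (k - 1))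
  have hp0 : (0 : ℝ) < p := by exact_mod_cast hp.pos
  have hz := h.deligne p hp hN z (by rw [← hs, ← hm]; ring)
  have hw := h.deligne p hp hN w (by rw [← hs, ← hm]; ring)
  set q : ℝ := (p : ℝ) ^ (-(((k : ℝ) - 1) / 2)) with hq
  have hq0 : 0 < q := by rw [hq]; positivity
  have key : (p : ℝ) ^ (((k : ℝ) - 1) / 2) * q = 1 := by
    rw [hq, ← Real.rpow_add hp0, add_neg_cancel, Real.rpow_zero]
  refine ⟨z * (q : ℂ), w * (q : ℂ), ?_, ?_, ?_, ?_⟩
  · rw [norm_mul, hz, Complex.norm_real, Real.norm_of_nonneg hq0.le, key]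
  · rw [norm_mul, hw, Complex.norm_real, Real.norm_of_nonneg hq0.le, key]
  · rw [← add_mul, hs]
    rfl
  · have h2 := half_pow (k := k) hp.pos h.pos
    rw [← hq] at h2
    linear_combination (q : ℂ) ^ 2 * hm + χ (p : ZMod N) * h2

theorem Hk.norm_chi' (h : Hk f χ) {p : ℕ} (hp : p.Prime) (hN : ¬ p ∣ N) :
    ‖χ (p : ZMod N)‖ = 1 := by
  obtain ⟨α, β, ha, hb, -, hm⟩ := h.sat hp hN
  rw [← hm, norm_mul, ha, hb, one_mul]

theorem Hk.conj_lm (h : Hk f χ) {p : ℕ} (hp : p.Prime) (hN : ¬ p ∣ N) :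
    conj (lm f p) = conj (χ (p : ZMod N)) * lm f p := by
  obtain ⟨α, β, ha, hb, hs, hm⟩ := h.sat hp hN
  have h1 : conj α * α = 1 := by
    rw [mul_comm, Complex.mul_conj, Complex.normSq_eq_norm_sq, ha]
    norm_num
  have h2 : conj β * β = 1 := by
    rw [mul_comm, Complex.mul_conj, Complex.normSq_eq_norm_sq, hb]
    norm_num
  rw [← hs, ← hm, map_add, map_mul]
  linear_combination (-conj β) * h1 - conj α * h2

theorem Hk.chi_zero {p : ℕ} (hp : p.Prime) (h : p ∣ N) : χ (p : ZMod N) = 0 := by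
  refine χ.map_nonunit fun hu => ?_
  rw [ZMod.isUnit_iff_coprime] at hu
  exact (Nat.Prime.coprime_iff_not_dvd hp).1 hu h

/-- the Hecke relation -/
theorem Hk.rel (h : Hk f χ) {p : ℕ} (hp : p.Prime) (m : ℕ) :
    lm f (p * m) = lm f p * lm f m - if p ∣ m then χ (p : ZMod N) * lm f (m / p) else 0 := by
  rcases Nat.eq_zero_or_pos m with rfl | hm
  · simp [lm_zero]
  obtain ⟨j, m', hm', rfl⟩ := Nat.exists_eq_pow_mul_and_not_dvd hm.ne' p hp.ne_one
  have hc : ∀ i : ℕ, Nat.Coprime (p ^ i) m' := fun i =>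
    Nat.Coprime.pow_left i ((Nat.Prime.coprime_iff_not_dvd hp).2 hm')
  rcases Nat.eq_zero_or_pos j with rfl | hj
  · rw [pow_zero, one_mul, if_neg hm', sub_zero]
    have := hc 1
    rw [pow_one] at this
    exact h.lm_mul this
  · obtain ⟨i, rfl⟩ : ∃ i, j = i + 1 := ⟨j - 1, by omega⟩
    have e1 : p * (p ^ (i + 1) * m') = p ^ (i + 2) * m' := by ring
    have e2 : p ^ (i + 1) * m' / p = p ^ i * m' := by
      rw [show p ^ (i + 1) * m' = p * (p ^ i * m') by ring, Nat.mul_div_cancel_left _ hp.pos]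
    rw [e1, if_pos (Dvd.intro (p ^ i * m') (by ring)), e2, h.lm_mul (hc _), h.lm_mul (hc _),
      h.lm_mul (hc _), h.lm_pow hp]
    ring

end

theorem Sq_shift {b : ℕ → ℂ} {p : ℕ} [NeZero p] {s : ℝ} (h : Sq b s) :
    Sq (fun n => b (p * n)) s := by
  have hinj : Function.Injective (fun n : ℕ => p * n) := fun x y hxy =>
    Nat.eq_of_mul_eq_mul_left (NeZero.pos p) hxy
  have h1 := (h.comp_injective hinj).mul_left ((p : ℝ) ^ s)
  refine h1.congr fun m => ?_
  simp only [Function.comp_apply]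
  push_cast
  have hp : (0 : ℝ) < p := by exact_mod_cast NeZero.pos p
  rw [Real.mul_rpow (Nat.cast_nonneg _) (Nat.cast_nonneg _), Real.rpow_neg hp.le]
  have hps : (p : ℝ) ^ s ≠ 0 := (Real.rpow_pos_of_pos hp s).ne'
  field_simp

/-- the relation between the cross terms -/
theorem CR_rel_right {a b : ℕ → ℂ} {p : ℕ} [NeZero p] {s e : ℂ}
    (hb : ∀ m, b (p * m) = b p * b m - if p ∣ m then e * b (m / p) else 0)
    (hs : Summable fun n : ℕ => ‖a n * conj (b n) * (n : ℂ) ^ (-s)‖)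
    (hs2 : Summable fun n : ℕ => ‖a n * conj (b (p * n)) * (n : ℂ) ^ (-s)‖) :
    CR a (fun n => b (p * n)) s = conj (b p) * CR a b s -
      conj e * (p : ℂ) ^ (-s) * CR (fun n => a (p * n)) b s := by
  have hs' := hs.of_norm
  have hs2' := hs2.of_norm
  set F : ℕ → ℂ := fun n => a n * conj (if p ∣ n then e * b (n / p) else 0) * (n : ℂ) ^ (-s) with hF
  have hFe : ∀ n, F n = conj (b p) * (a n * conj (b n) * (n : ℂ) ^ (-s)) -
      a n * conj (b (p * n)) * (n : ℂ) ^ (-s) := by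
    intro n
    rw [hF]
    simp only
    rw [hb n, map_sub, map_mul]
    ring
  have hFs : Summable F := by
    refine ((hs'.mul_left (conj (b p))).sub hs2').congr fun n => ?_
    rw [hFe]
  have h1 : ∑' n, F n = conj e * (p : ℂ) ^ (-s) * CR (fun n => a (p * n)) b s := by
    rw [tsum_upf p F]
    · unfold CR
      rw [← tsum_mul_left]
      refine tsum_congr fun m => ?_
      rw [hF]
      simp only
      rw [if_pos (dvd_mul_right p m), Nat.mul_div_cancel_left _ (NeZero.pos p), map_mul]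
      push_cast
      rw [Complex.natCast_mul_natCast_cpow]
      ring
    · intro n hn
      rw [hF]
      simp only
      rw [if_neg hn]
      simp
  rw [← h1]
  unfold CR
  rw [← tsum_mul_left, ← (hs'.mul_left (conj (b p))).tsum_sub hFs]
  refine tsum_congr fun n => ?_
  rw [hFe]
  ring

/-- the relation between the cross terms -/
theorem CR_rel_left {a b : ℕ → ℂ} {p : ℕ} [NeZero p] {s e : ℂ}
    (hb : ∀ m, a (p * m) = a p * a m - if p ∣ m then e * a (m / p) else 0)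
    (hs : Summable fun n : ℕ => ‖a n * conj (b n) * (n : ℂ) ^ (-s)‖)
    (hs2 : Summable fun n : ℕ => ‖a (p * n) * conj (b n) * (n : ℂ) ^ (-s)‖) :
    CR (fun n => a (p * n)) b s = a p * CR a b s -
      e * (p : ℂ) ^ (-s) * CR a (fun n => b (p * n)) s := by
  have hs' := hs.of_norm
  have hs2' := hs2.of_norm
  set F : ℕ → ℂ := fun n => (if p ∣ n then e * a (n / p) else 0) * conj (b n) * (n : ℂ) ^ (-s) with hF
  have hFe : ∀ n, F n = a p * (a n * conj (b n) * (n : ℂ) ^ (-s)) -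
      a (p * n) * conj (b n) * (n : ℂ) ^ (-s) := by
    intro n
    rw [hF]
    simp only
    rw [hb n]
    ring
  have hFs : Summable F := by
    refine ((hs'.mul_left (a p)).sub hs2').congr fun n => ?_
    rw [hFe]
  have h1 : ∑' n, F n = e * (p : ℂ) ^ (-s) * CR a (fun n => b (p * n)) s := by
    rw [tsum_upf p F]
    · unfold CR
      rw [← tsum_mul_left]
      refine tsum_congr fun m => ?_
      rw [hF]
      simp only
      rw [if_pos (dvd_mul_right p m), Nat.mul_div_cancel_left _ (NeZero.pos p)]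
      push_cast
      rw [Complex.natCast_mul_natCast_cpow]
      ring
    · intro n hn
      rw [hF]
      simp only
      rw [if_neg hn]
      simp
  rw [← h1]
  unfold CR
  rw [← tsum_mul_left, ← (hs'.mul_left (a p)).tsum_sub hFs]
  refine tsum_congr fun n => ?_
  rw [hFe]
  ring

/-- **Same weight and character: the Rankin-Selberg series is bounded at the edge.** -/
theorem D_bdd {M₁ M₂ : ℕ} [NeZero M₁] [NeZero M₂] {f : S1 M₁ k} {g : S1 M₂ k}
    {χ : DirichletCharacter ℂ M₁} {ξ : DirichletCharacter ℂ M₂} (hf : Hk f χ) (hg : Hk g ξ)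
    (hc : DirichletCharacter.changeLevel (dvd_mul_right M₁ M₂) χ =
      DirichletCharacter.changeLevel (dvd_mul_left M₂ M₁) ξ)
    {p : ℕ} (hp : p.Prime) (h1 : ¬ p ∣ M₁) (h2 : ¬ p ∣ M₂) (hne : lm f p ≠ lm g p) :
    ∃ C : ℝ, ∀ᶠ s : ℝ in 𝓝[>] 1, ‖CR (lm f) (lm g) (s : ℂ)‖ ≤ C := by
  have : NeZero p := ⟨hp.ne_zero⟩
  have hco : Nat.Coprime p (M₁ * M₂) := (Nat.Prime.coprime_iff_not_dvd hp).2 fun h =>
    ((Nat.Prime.dvd_mul hp).1 h).elim h1 h2
  have hu : IsUnit (((p : ℤ)) : ZMod (M₁ * M₂)) := by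
    rw [Int.cast_natCast, ZMod.isUnit_iff_coprime]
    exact hco
  have n1 := Neb_restr (M₁ * M₂) (dvd_mul_right _ _) hf.neb
  have n2 := Neb_restr (M₁ * M₂) (dvd_mul_left _ _) hg.neb
  rw [← hc] at n2
  obtain ⟨C, hC0, hC⟩ := cross_bdd hf.pos hco n1 n2 (Sm_restr _ _ hf.sm) (Sm_restr _ _ hg.sm)
  have q1 : lm (restr (M₁ * M₂) (dvd_mul_right _ _) f) = lm f := rfl
  have q2 : lm (restr (M₁ * M₂) (dvd_mul_left _ _) g) = lm g := rfl
  have q3 : DirichletCharacter.changeLevel (dvd_mul_right M₁ M₂) χ (p : ZMod (M₁ * M₂)) =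
      χ (p : ZMod M₁) := by
    have := changeLevel_int (dvd_mul_right M₁ M₂) χ hu
    simpa using this
  have q4 : χ (p : ZMod M₁) = ξ (p : ZMod M₂) := by
    have := changeLevel_int (dvd_mul_left M₂ M₁) ξ hu
    rw [← hc] at this
    rw [← q3]
    simpa using this
  rw [q1, q2, q3] at hC
  have hd : 0 < ‖lm g p - lm f p‖ := norm_pos_iff.2 (sub_ne_zero.2 hne.symm)
  refine ⟨2 * C / ‖lm g p - lm f p‖, ?_⟩
  filter_upwards [hC, self_mem_nhdsWithin] with s hs hs1
  have hs1' : (1 : ℝ) < s := hs1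
  have hre : ((s : ℂ)).re ≠ 0 := by rw [Complex.ofReal_re]; linarith
  have sf : Sq (lm f) ((s : ℂ)).re := by rw [Complex.ofReal_re]; exact Sq_of hf.sm hs1'
  have sg : Sq (lm g) ((s : ℂ)).re := by rw [Complex.ofReal_re]; exact Sq_of hg.sm hs1'
  have e1 := CR_rel_right (a := lm f) (b := lm g) (s := (s : ℂ)) (hg.rel hp)
    (CR_summable hre sf sg) (CR_summable hre sf (Sq_shift sg))
  have e2 := CR_rel_left (a := lm f) (b := lm g) (s := (s : ℂ)) (hf.rel hp)
    (CR_summable hre sf sg) (CR_summable hre (Sq_shift sf) sg)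
  have e3 := hg.conj_lm hp h2
  rw [← q4] at e1 e3
  have e4 : conj (χ (p : ZMod M₁)) * χ (p : ZMod M₁) = 1 := by
    rw [mul_comm, Complex.mul_conj, Complex.normSq_eq_norm_sq, hf.norm_chi' hp h1]
    norm_num
  set A := CR (lm f) (fun n => lm g (p * n)) (s : ℂ)
  set B := CR (fun n => lm f (p * n)) (lm g) (s : ℂ)
  set D := CR (lm f) (lm g) (s : ℂ)
  set c := χ (p : ZMod M₁)
  set x := (p : ℂ) ^ (-(s : ℂ)) with hx
  have hxn : ‖x‖ ≤ 1 := by
    have hp1 : (1 : ℝ) ≤ p := by exact_mod_cast hp.one_le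
    rw [hx, norm_ncpow p hre, Complex.ofReal_re]
    exact Real.rpow_le_one_of_one_le_of_nonpos hp1 (by linarith)
  have h3 : conj c * (lm g p - lm f p) * D = (1 - x) * (A - conj c * B) := by
    linear_combination (-1) * e1 + conj c * e2 - D * e3 - x * A * e4
  have h4 := congrArg norm h3
  rw [norm_mul, norm_mul, norm_mul, Complex.norm_conj, hf.norm_chi' hp h1, one_mul] at h4
  have h5 : ‖1 - x‖ ≤ 2 := by
    refine (norm_sub_le _ _).trans ?_
    rw [norm_one]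
    linarith
  rw [le_div_iff₀ hd, mul_comm, h4]
  exact mul_le_mul h5 hs (norm_nonneg _) (by norm_num)

end

end Run7.h186.NT
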