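import Pool.Agent.Run7.h186.NT11
import Pool.Agent.Run7.h186.NT8

/-! Two different eigenforms of arbitrary levels: the series is bounded at the edge. -/

set_option autoImplicit false
set_option linter.unusedSectionVars false

namespace Run7.h186.NT

open MeasureTheory Filter Topology UpperHalfPlane CongruenceSubgroup Complex
open scoped ENNReal MatrixGroups ModularForm Pointwise ComplexConjugate
open Run7.h186.ML (pt pt_re)

noncomputable section

theorem CR_symm (a b : ℕ → ℂ) (s : ℂ) : CR a b s = conj (CR b a (conj s)) := by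
  unfold CR
  rw [Complex.conj_tsum]
  refine tsum_congr fun n => ?_
  rw [map_mul, map_mul, Complex.conj_conj]
  have e : conj ((n : ℂ) ^ (-(conj s))) = (n : ℂ) ^ (-s) := by
    have h1 : ((n : ℂ)).arg ≠ Real.pi := by
      rw [Complex.natCast_arg]
      exact Real.pi_pos.ne
    have h2 := Complex.cpow_conj (n : ℂ) (-s) h1
    rw [Complex.conj_natCast, map_neg] at h2
    rw [h2, Complex.conj_conj]
  rw [e]
  ring

theorem conj_pt (τ ε : ℝ) : conj (pt τ ε) = pt (-τ) ε := by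
  unfold pt
  simp

section
variable {M₁ M₂ k l : ℕ} [NeZero M₁] [NeZero M₂] {f : S1 M₁ k} {g : S1 M₂ l}
  {χ : DirichletCharacter ℂ M₁} {ξ : DirichletCharacter ℂ M₂}

theorem bdd_ge (hf : Hk f χ) (hg : Hk g ξ) {κ : ℕ} (hkl : k = l + κ) {τ : ℝ}
    (h : τ ≠ 0 ∨ κ ≠ 0 ∨ ∃ u : (ZMod (M₁ * M₂))ˣ,
      DirichletCharacter.changeLevel (dvd_mul_right M₁ M₂) χ u ≠
      DirichletCharacter.changeLevel (dvd_mul_left M₂ M₁) ξ u) :
    ∃ C : ℝ, ∀ᶠ ε : ℝ in 𝓝[>] 0, ‖CR (lm f) (lm g) (pt τ ε)‖ ≤ C := by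
  have n1 := Neb_restr (M₁ * M₂) (dvd_mul_right _ _) hf.neb
  have n2 := Neb_restr (M₁ * M₂) (dvd_mul_left _ _) hg.neb
  exact CR_bdd' n1 n2 hf.pos hg.pos (Sm_restr _ _ hf.sm) (Sm_restr _ _ hg.sm) hkl h

theorem shift0 : Tendsto (fun ε : ℝ => 1 + ε) (𝓝[>] 0) (𝓝[>] 1) := by
  rw [tendsto_nhdsWithin_iff]
  constructor
  · have : Continuous fun w : ℝ => 1 + w := by fun_prop
    have := this.tendsto 0
    rw [add_zero] at this
    exact this.mono_left nhdsWithin_le_nhds
  · filter_upwards [self_mem_nhdsWithin] with w hw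
    have hw0 : (0 : ℝ) < w := hw
    show (1 : ℝ) < 1 + w
    linarith

theorem lm_ne {f : S1 M₁ k} {g : S1 M₂ k} {p : ℕ} (hp : 0 < p) (h : aq f p ≠ aq g p) :
    lm f p ≠ lm g p := by
  have hp0 : (0 : ℝ) < p := by exact_mod_cast hp
  intro h1
  apply h
  unfold lm at h1
  refine mul_right_cancel₀ ?_ h1
  have : (p : ℝ) ^ (-(((k : ℝ) - 1) / 2)) ≠ 0 := (Real.rpow_pos_of_pos hp0 _).ne'
  exact_mod_cast this

/-- **Different eigenforms.** -/
theorem bdd_all (hf : Hk f χ) (hg : Hk g ξ) {τ : ℝ}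
    (h : τ ≠ 0 ∨ k ≠ l ∨ ∃ p : ℕ, p.Prime ∧ ¬ p ∣ M₁ ∧ ¬ p ∣ M₂ ∧
      (aq f p ≠ aq g p ∨ χ (p : ZMod M₁) ≠ ξ (p : ZMod M₂))) :
    ∃ C : ℝ, ∀ᶠ ε : ℝ in 𝓝[>] 0, ‖CR (lm f) (lm g) (pt τ ε)‖ ≤ C := by
  rcases lt_trichotomy k l with hlt | heq | hgt
  · -- the other order
    obtain ⟨κ, hκ⟩ : ∃ κ, l = k + κ := ⟨l - k, by omega⟩
    obtain ⟨C, hC⟩ := bdd_ge (τ := -τ) hg hf hκ (Or.inr (Or.inl (by omega)))
    refine ⟨C, hC.mono fun ε h1 => ?_⟩
    rw [CR_symm, Complex.norm_conj, conj_pt]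
    exact h1
  · subst heq
    by_cases hτ : τ ≠ 0
    · exact bdd_ge hf hg (κ := 0) (by omega) (Or.inl hτ)
    · push Not at hτ
      subst hτ
      by_cases hc : DirichletCharacter.changeLevel (dvd_mul_right M₁ M₂) χ =
          DirichletCharacter.changeLevel (dvd_mul_left M₂ M₁) ξ
      · rcases h with h | h | ⟨p, hp, h1, h2, h3⟩
        · exact absurd rfl h
        · exact absurd rfl h
        · have hco : Nat.Coprime p (M₁ * M₂) := (Nat.Prime.coprime_iff_not_dvd hp).2 fun h =>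
            ((Nat.Prime.dvd_mul hp).1 h).elim h1 h2
          have hu : IsUnit (((p : ℤ)) : ZMod (M₁ * M₂)) := by
            rw [Int.cast_natCast, ZMod.isUnit_iff_coprime]
            exact hco
          have q4 : χ (p : ZMod M₁) = ξ (p : ZMod M₂) := by
            have g1 := changeLevel_int (dvd_mul_right M₁ M₂) χ hu
            have g2 := changeLevel_int (dvd_mul_left M₂ M₁) ξ hu
            rw [← hc, g1] at g2
            simpa using g2
          have h4 : aq f p ≠ aq g p := by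
            rcases h3 with h3 | h3
            · exact h3
            · exact absurd q4 h3
          obtain ⟨C, hC⟩ := D_bdd hf hg hc hp h1 h2 (lm_ne hp.pos h4)
          refine ⟨C, ?_⟩
          filter_upwards [shift0.eventually hC] with ε h5
          have e : pt 0 ε = ((1 + ε : ℝ) : ℂ) := by
            unfold pt
            push_cast
            ring
          rw [e]
          exact h5
      · refine bdd_ge hf hg (κ := 0) (by omega) (Or.inr (Or.inr ?_))
        by_contra hcon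
        push Not at hcon
        exact hc (MulChar.ext hcon)
  · obtain ⟨κ, hκ⟩ : ∃ κ, k = l + κ := ⟨k - l, by omega⟩
    exact bdd_ge hf hg hκ (Or.inr (Or.inl (by omega)))

end

end

end Run7.h186.NT
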