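import Pool.Agent.Y149.CR.Loc

/-! The local factors of the Rankin-Selberg series of two eigenforms, complex coefficients. -/

set_option autoImplicit false

namespace Run7.h186.NT

open Filter Topology Complex
open scoped ComplexConjugate
open Pool.Agent.TH941 (KK summable_aux KK_nonneg)
open Pool.Agent.Y722.RS (log20)
open Pool.Agent.Y149.CR (KD KD_nonneg log_one_add)

noncomputable section

/-- a sequence with a recursion of order two -/
structure Rc (c : ℕ → ℂ) (t e : ℂ) : Prop where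
  zero : c 0 = 1
  one : c 1 = t
  step : ∀ k, c (k + 2) = t * c (k + 1) - e * c k
  e1 : ‖e‖ ≤ 1

/-- the shifted sum -/
def SC (c d : ℕ → ℂ) (x : ℂ) (j : ℕ) : ℂ := ∑' k : ℕ, c (k + j) * conj (d (k + j)) * x ^ k

variable {c d : ℕ → ℂ} {t e t' e' x : ℂ}

theorem SC_summable (hx : x ≠ 0) (h : Summable fun k : ℕ => c k * conj (d k) * x ^ k) (j : ℕ) :
    Summable fun k : ℕ => c (k + j) * conj (d (k + j)) * x ^ k := by
  have h1 := (summable_nat_add_iff j).2 h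
  refine (h1.mul_left (x ^ j)⁻¹).congr fun k => ?_
  have := pow_ne_zero j hx
  rw [pow_add]
  field_simp

theorem SC_step (hx : x ≠ 0) (h : Summable fun k : ℕ => c k * conj (d k) * x ^ k) (j : ℕ) :
    SC c d x j = c j * conj (d j) + x * SC c d x (j + 1) := by
  unfold SC
  rw [(SC_summable hx h j).tsum_eq_zero_add, ← tsum_mul_left]
  congr 1
  · simp
  · refine tsum_congr fun k => ?_
    rw [show k + 1 + j = k + (j + 1) by ring]
    ring

theorem SC_rec (hc : Rc c t e) (hd : Rc d t' e') (hx : x ≠ 0)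
    (h : Summable fun k : ℕ => c k * conj (d k) * x ^ k) :
    SC c d x 4 = t * conj t' * SC c d x 3 -
      (conj e' * t ^ 2 + e * conj t' ^ 2 - 2 * e * conj e') * SC c d x 2 +
      e * conj e' * t * conj t' * SC c d x 1 - e ^ 2 * conj e' ^ 2 * SC c d x 0 := by
  have hs := SC_summable hx h
  unfold SC
  rw [← tsum_mul_left, ← tsum_mul_left, ← tsum_mul_left, ← tsum_mul_left,
    ← ((hs 3).mul_left _).tsum_sub ((hs 2).mul_left _),
    ← (((hs 3).mul_left _).sub ((hs 2).mul_left _)).tsum_add ((hs 1).mul_left _),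
    ← ((((hs 3).mul_left _).sub ((hs 2).mul_left _)).add ((hs 1).mul_left _)).tsum_sub
      ((hs 0).mul_left _)]
  refine tsum_congr fun k => ?_
  have a2 := hc.step k
  have a3 := hc.step (k + 1)
  have a4 := hc.step (k + 2)
  have b2 := hd.step k
  have b3 := hd.step (k + 1)
  have b4 := hd.step (k + 2)
  rw [show k + 1 + 2 = k + 3 by ring, show k + 1 + 1 = k + 2 by ring] at a3 b3
  rw [show k + 2 + 2 = k + 4 by ring, show k + 2 + 1 = k + 3 by ring] at a4 b4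
  rw [a4, a3, a2, b4, b3, b2, add_zero]
  simp only [map_sub, map_mul]
  ring

/-- **Closed form.** -/
theorem SC_closed (hc : Rc c t e) (hd : Rc d t' e') (hx : x ≠ 0)
    (h : Summable fun k : ℕ => c k * conj (d k) * x ^ k) :
    (1 - t * conj t' * x + (conj e' * t ^ 2 + e * conj t' ^ 2 - 2 * e * conj e') * x ^ 2 -
      e * conj e' * t * conj t' * x ^ 3 + e ^ 2 * conj e' ^ 2 * x ^ 4) * SC c d x 0 =
      1 - e * conj e' * x ^ 2 := by
  have h0 := SC_step hx h 0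
  have h1 := SC_step hx h 1
  have h2 := SC_step hx h 2
  have h3 := SC_step hx h 3
  have h4 := SC_rec hc hd hx h
  have c2 := hc.step 0
  have c3 := hc.step 1
  have d2 := hd.step 0
  have d3 := hd.step 1
  norm_num at h0 h1 h2 h3 c2 c3 d2 d3
  rw [hc.zero, hd.zero] at h0
  rw [hc.one, hd.one] at h1
  rw [hc.zero, hc.one] at c2
  rw [hd.zero, hd.one] at d2
  rw [c2, hc.one] at c3
  rw [d2, hd.one] at d3
  rw [c2, d2] at h2
  rw [c3, d3] at h3
  rw [h4] at h3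
  simp only [map_sub, map_mul, map_one] at h0 h1 h2 h3
  set A := SC c d x 0
  set B := SC c d x 1
  set C := SC c d x 2
  set D := SC c d x 3
  linear_combination (1 - t * conj t' * x + (conj e' * t ^ 2 + e * conj t' ^ 2 -
      2 * e * conj e') * x ^ 2 - e * conj e' * t * conj t' * x ^ 3) * h0 +
      (x - t * conj t' * x ^ 2 + (conj e' * t ^ 2 + e * conj t' ^ 2 - 2 * e * conj e') * x ^ 3) *
      h1 + (x ^ 2 - t * conj t' * x ^ 3) * h2 + x ^ 3 * h3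

theorem SC_lower (hc : Rc c t e) (hd : Rc d t' e') (hx : x ≠ 0)
    (h : Summable fun k : ℕ => c k * conj (d k) * x ^ k) (hx2 : ‖x‖ ≤ 1 / 2)
    (ht : ‖t‖ ^ 2 * ‖x‖ ≤ 2) (ht' : ‖t'‖ ^ 2 * ‖x‖ ≤ 2) : 1 / 20 ≤ ‖SC c d x 0‖ := by
  have h1 := SC_closed hc hd hx h
  have he := hc.e1
  have he' := hd.e1
  have hx0 := norm_nonneg x
  have t0 := norm_nonneg t
  have t0' := norm_nonneg t'
  have e0 := norm_nonneg e
  have e0' := norm_nonneg e'
  have htt : ‖t‖ * ‖t'‖ * ‖x‖ ≤ 2 := by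
    nlinarith [sq_nonneg (‖t‖ - ‖t'‖), mul_nonneg hx0 (sq_nonneg (‖t‖ - ‖t'‖))]
  have hee : ‖e‖ * ‖e'‖ ≤ 1 := mul_le_one₀ he e0' he'
  have hee0 : 0 ≤ ‖e‖ * ‖e'‖ := mul_nonneg e0 e0'
  have hx4 : ‖x‖ ^ 2 ≤ 1 / 4 := by nlinarith
  have hx44 : ‖x‖ ^ 4 ≤ 1 / 16 := by nlinarith [sq_nonneg ‖x‖]
  have hr : 3 / 4 ≤ ‖1 - e * conj e' * x ^ 2‖ := by
    have h3 := norm_sub_norm_le (1 : ℂ) (e * conj e' * x ^ 2)
    rw [norm_one, norm_mul, norm_pow, norm_mul, Complex.norm_conj] at h3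
    have h4 : ‖e‖ * ‖e'‖ * ‖x‖ ^ 2 ≤ 1 * (1 / 4) :=
      mul_le_mul hee hx4 (by positivity) zero_le_one
    linarith
  have a1 : ‖t * conj t' * x‖ ≤ 2 := by
    rw [norm_mul, norm_mul, Complex.norm_conj]
    exact htt
  have a2 : ‖(conj e' * t ^ 2 + e * conj t' ^ 2 - 2 * e * conj e') * x ^ 2‖ ≤ 5 / 2 := by
    have e3 : (conj e' * t ^ 2 + e * conj t' ^ 2 - 2 * e * conj e') * x ^ 2 =
        conj e' * (t ^ 2 * x ^ 2) + e * (conj t' ^ 2 * x ^ 2) - 2 * (e * conj e') * x ^ 2 := by ring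
    rw [e3]
    refine (norm_sub_le _ _).trans ?_
    have b1 := norm_add_le (conj e' * (t ^ 2 * x ^ 2)) (e * (conj t' ^ 2 * x ^ 2))
    have b2 : ‖conj e' * (t ^ 2 * x ^ 2)‖ ≤ 1 := by
      rw [norm_mul, norm_mul, norm_pow, norm_pow, Complex.norm_conj]
      have q1 : ‖t‖ ^ 2 * ‖x‖ ^ 2 ≤ 1 := by nlinarith
      have q2 : 0 ≤ ‖t‖ ^ 2 * ‖x‖ ^ 2 := by positivity
      exact mul_le_one₀ he' q2 q1
    have b3 : ‖e * (conj t' ^ 2 * x ^ 2)‖ ≤ 1 := by
      rw [norm_mul, norm_mul, norm_pow, norm_pow, Complex.norm_conj]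
      have q1 : ‖t'‖ ^ 2 * ‖x‖ ^ 2 ≤ 1 := by nlinarith
      have q2 : 0 ≤ ‖t'‖ ^ 2 * ‖x‖ ^ 2 := by positivity
      exact mul_le_one₀ he q2 q1
    have b4 : ‖2 * (e * conj e') * x ^ 2‖ ≤ 1 / 2 := by
      rw [norm_mul, norm_mul, norm_mul, norm_pow, Complex.norm_conj]
      have q0 : ‖(2 : ℂ)‖ = 2 := by norm_num
      rw [q0]
      have q1 : ‖e‖ * ‖e'‖ * ‖x‖ ^ 2 ≤ 1 * (1 / 4) :=
        mul_le_mul hee hx4 (by positivity) zero_le_one
      nlinarith
    linarith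
  have a3 : ‖e * conj e' * t * conj t' * x ^ 3‖ ≤ 1 / 2 := by
    have e3 : e * conj e' * t * conj t' * x ^ 3 = (e * conj e') * ((t * conj t' * x) * x ^ 2) := by
      ring
    rw [e3, norm_mul, norm_mul, norm_mul, Complex.norm_conj, norm_pow]
    have q1 : ‖t * conj t' * x‖ * ‖x‖ ^ 2 ≤ 2 * (1 / 4) :=
      mul_le_mul a1 hx4 (by positivity) (by norm_num)
    have q2 : 0 ≤ ‖t * conj t' * x‖ * ‖x‖ ^ 2 := by positivity
    nlinarith
  have a4 : ‖e ^ 2 * conj e' ^ 2 * x ^ 4‖ ≤ 1 := by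
    have e3 : e ^ 2 * conj e' ^ 2 * x ^ 4 = (e * conj e') ^ 2 * x ^ 4 := by ring
    rw [e3, norm_mul, norm_pow, norm_pow, norm_mul, Complex.norm_conj]
    have q2 : (‖e‖ * ‖e'‖) ^ 2 ≤ 1 := by nlinarith
    have q3 : 0 ≤ ‖x‖ ^ 4 := by positivity
    have q4 : 0 ≤ (‖e‖ * ‖e'‖) ^ 2 := by positivity
    nlinarith
  have hP : ‖1 - t * conj t' * x + (conj e' * t ^ 2 + e * conj t' ^ 2 - 2 * e * conj e') * x ^ 2 -
      e * conj e' * t * conj t' * x ^ 3 + e ^ 2 * conj e' ^ 2 * x ^ 4‖ ≤ 15 := by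
    have b1 := norm_add_le (1 - t * conj t' * x + (conj e' * t ^ 2 + e * conj t' ^ 2 -
      2 * e * conj e') * x ^ 2 - e * conj e' * t * conj t' * x ^ 3) (e ^ 2 * conj e' ^ 2 * x ^ 4)
    have b2 := norm_sub_le (1 - t * conj t' * x + (conj e' * t ^ 2 + e * conj t' ^ 2 -
      2 * e * conj e') * x ^ 2) (e * conj e' * t * conj t' * x ^ 3)
    have b3 := norm_add_le (1 - t * conj t' * x) ((conj e' * t ^ 2 + e * conj t' ^ 2 -
      2 * e * conj e') * x ^ 2)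
    have b4 := norm_sub_le (1 : ℂ) (t * conj t' * x)
    rw [norm_one] at b4
    linarith
  have h2 := congrArg norm h1
  rw [norm_mul] at h2
  have h3 : 3 / 4 ≤ 15 * ‖SC c d x 0‖ := by
    calc 3 / 4 ≤ ‖1 - e * conj e' * x ^ 2‖ := hr
      _ = _ := h2.symm
      _ ≤ 15 * ‖SC c d x 0‖ := mul_le_mul_of_nonneg_right hP (norm_nonneg _)
  linarith

theorem SC_bound (hc : ∀ k : ℕ, ‖c k‖ ≤ k + 1) (hd : ∀ k : ℕ, ‖d k‖ ≤ k + 1) (hx2 : ‖x‖ ≤ 1 / 2)
    (j k : ℕ) :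
    ‖c (k + j) * conj (d (k + j)) * x ^ k‖ ≤ ((k : ℝ) + (j + 1 : ℕ)) ^ 2 * (1 / 2 : ℝ) ^ k := by
  rw [norm_mul, norm_mul, Complex.norm_conj, norm_pow]
  have h1 := hc (k + j)
  have h2 := hd (k + j)
  push_cast at h1 h2 ⊢
  have h3 : ‖c (k + j)‖ * ‖d (k + j)‖ ≤ ((k : ℝ) + (j + 1)) ^ 2 := by
    rw [sq, ← add_assoc]
    exact mul_le_mul h1 h2 (norm_nonneg _) (by positivity)
  exact mul_le_mul h3 (pow_le_pow_left₀ (norm_nonneg _) hx2 k) (by positivity) (by positivity)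

/-- **Lower bound for the logarithm of a local factor.** -/
theorem SC_log (hc : Rc c t e) (hd : Rc d t' e') (hx : x ≠ 0) (hcb : ∀ k : ℕ, ‖c k‖ ≤ k + 1)
    (hdb : ∀ k : ℕ, ‖d k‖ ≤ k + 1)
    (h : Summable fun k : ℕ => c k * conj (d k) * x ^ k) (hx2 : ‖x‖ ≤ 1 / 2) :
    (t * conj t' * x).re - KD * ‖x‖ ^ 2 ≤ Real.log ‖SC c d x 0‖ := by
  have hK := KK_nonneg
  have hL := log20
  have hx' := norm_nonneg x
  have h0 := SC_step hx h 0
  have h1 := SC_step hx h 1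
  norm_num at h0 h1
  rw [hc.zero, hd.zero] at h0
  rw [hc.one, hd.one] at h1
  simp only [map_one, mul_one] at h0
  have ht : ‖t‖ ≤ 2 := by
    have := hcb 1
    rw [hc.one] at this
    norm_num at this
    exact this
  have ht' : ‖t'‖ ≤ 2 := by
    have := hdb 1
    rw [hd.one] at this
    norm_num at this
    exact this
  have h2 : ‖SC c d x 2‖ ≤ KK := by
    have hb := tsum_of_norm_bounded (summable_aux 3).hasSum (SC_bound hcb hdb hx2 2)
    refine hb.trans (le_of_eq ?_)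
    unfold KK
    norm_num
  have htt : ‖t * conj t'‖ ≤ 4 := by
    rw [norm_mul, Complex.norm_conj]
    calc ‖t‖ * ‖t'‖ ≤ 2 * 2 := mul_le_mul ht ht' (norm_nonneg _) (by norm_num)
      _ = 4 := by norm_num
  set y : ℂ := t * conj t' * x + x ^ 2 * SC c d x 2 with hy
  have hS : SC c d x 0 = 1 + y := by rw [h0, h1, hy]; ring
  have hx2' : ‖x‖ ^ 2 ≤ ‖x‖ / 2 := by nlinarith
  have hyb : ‖y‖ ≤ (4 + KK) * ‖x‖ := by
    rw [hy]
    refine (norm_add_le _ _).trans ?_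
    rw [norm_mul (t * conj t'), norm_mul (x ^ 2), norm_pow]
    have q1 : ‖t * conj t'‖ * ‖x‖ ≤ 4 * ‖x‖ := mul_le_mul_of_nonneg_right htt hx'
    have q2 : ‖x‖ ^ 2 * ‖SC c d x 2‖ ≤ ‖x‖ * KK :=
      mul_le_mul (by linarith) h2 (norm_nonneg _) hx'
    linarith
  have hx20 : 0 ≤ ‖x‖ ^ 2 := sq_nonneg _
  by_cases hcase : ‖y‖ ≤ 1 / 2
  · have h3 := log_one_add hcase
    rw [hS]
    have h5 : ‖y‖ ^ 2 ≤ ((4 + KK) * ‖x‖) ^ 2 := pow_le_pow_left₀ (norm_nonneg _) hyb 2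
    have h6 : (t * conj t' * x).re - KK * ‖x‖ ^ 2 ≤ y.re := by
      rw [hy, Complex.add_re]
      have h7 : -(‖x‖ ^ 2 * KK) ≤ (x ^ 2 * SC c d x 2).re := by
        have h8 := (abs_le.1 (Complex.abs_re_le_norm (x ^ 2 * SC c d x 2))).1
        rw [norm_mul, norm_pow] at h8
        have h9 := mul_le_mul_of_nonneg_left h2 hx20
        linarith
      linarith
    have h7 : 0 ≤ (2 + Real.log 20) * (8 + 2 * KK) ^ 2 * ‖x‖ ^ 2 := by positivity
    unfold KD
    nlinarith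
  · push Not at hcase
    have h3 : 1 ≤ (8 + 2 * KK) * ‖x‖ := by linarith
    have h4 : 1 ≤ (8 + 2 * KK) ^ 2 * ‖x‖ ^ 2 := by
      rw [← mul_pow]
      exact one_le_pow₀ h3
    have h5 := SC_lower hc hd hx h hx2 (by nlinarith [norm_nonneg t, norm_nonneg t'])
      (by nlinarith [norm_nonneg t, norm_nonneg t'])
    have h6 : -Real.log 20 ≤ Real.log ‖SC c d x 0‖ := by
      rw [← Real.log_inv]
      refine Real.log_le_log (by norm_num) ?_
      norm_num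
      linarith
    have h7 : (t * conj t' * x).re ≤ 2 := by
      refine (Complex.re_le_norm _).trans ?_
      rw [norm_mul]
      calc ‖t * conj t'‖ * ‖x‖ ≤ 4 * (1 / 2) := mul_le_mul htt hx2 hx' (by norm_num)
        _ = 2 := by norm_num
    have h8 : 2 + Real.log 20 ≤ (2 + Real.log 20) * ((8 + 2 * KK) ^ 2 * ‖x‖ ^ 2) :=
      le_mul_of_one_le_right (by linarith) h4
    have h9 : 0 ≤ (KK + 13 * (4 + KK) ^ 2) * ‖x‖ ^ 2 := by positivity
    unfold KD
    nlinarith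

/-- bound for the coefficients from the roots -/
theorem Rc.le {α β : ℂ} (hc : Rc c (α + β) (α * β)) (ha : ‖α‖ ≤ 1) (hb : ‖β‖ ≤ 1) (k : ℕ) :
    ‖c k‖ ≤ k + 1 := by
  have h1 : ∀ k, c (k + 1) - α * c k = β ^ (k + 1) := by
    intro k
    induction k with
    | zero =>
      rw [hc.zero, zero_add, hc.one]
      ring
    | succ k ih =>
      rw [show k + 1 + 1 = k + 2 by ring, hc.step, pow_succ, ← ih]
      ring
  induction k with
  | zero => rw [hc.zero]; simp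
  | succ k ih =>
    have h2 : c (k + 1) = α * c k + β ^ (k + 1) := by rw [← h1 k]; ring
    rw [h2]
    refine (norm_add_le _ _).trans ?_
    rw [norm_mul, norm_pow]
    have h3 : ‖α‖ * ‖c k‖ ≤ 1 * ‖c k‖ := mul_le_mul_of_nonneg_right ha (norm_nonneg _)
    have h4 : ‖β‖ ^ (k + 1) ≤ 1 := pow_le_one₀ (norm_nonneg _) hb
    push_cast
    linarith

end

end Run7.h186.NT
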