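import Pool.Agent.Run7.h186.NT12
import Pool.Agent.Run7.h186.NT13
import Pool.Agent.Run7.h186.ML9
import Pool.Agent.Y149.CR.Eul

/-! The Euler product, and the family of the eigenforms. -/

set_option autoImplicit false
set_option linter.unusedSectionVars false

namespace Run7.h186.NT

open MeasureTheory Filter Topology UpperHalfPlane CongruenceSubgroup Complex
open scoped ENNReal MatrixGroups ModularForm Pointwise ComplexConjugate
open Run7.h186.ML (pt pt_re CFam)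
open Pool.Agent.Y149.CR (KD KD_nonneg pow_cpow norm_p)
open Pool.Agent.TH941 (rpow_half)
open Pool.Agent.Y722.RS (log20)
open Pool.Agent.H341R2 (E lam lam_bounded)

noncomputable section

/-- the coefficient at a good prime -/
def tn {M k : ℕ} (f : S1 M k) (p : ℕ) : ℂ := if p ∣ M then 0 else lm f p

section
variable {M k : ℕ} [NeZero M] {f : S1 M k} {χ : DirichletCharacter ℂ M}

theorem Hk.rc (hf : Hk f χ) {p : ℕ} (hp : p.Prime) :
    Rc (fun j => lm f (p ^ j)) (lm f p) (χ (p : ZMod M)) := by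
  refine ⟨?_, ?_, fun j => ?_, χ.norm_le_one _⟩
  · simp only [pow_zero]
    exact hf.lm_one
  · simp only [pow_one]
  · exact hf.lm_pow hp j

theorem Hk.lm_le (hf : Hk f χ) {p : ℕ} (hp : p.Prime) (h : ¬ p ∣ M) : ‖lm f p‖ ≤ 2 := by
  obtain ⟨α, β, ha, hb, hs, -⟩ := hf.sat hp h
  rw [← hs]
  refine (norm_add_le _ _).trans ?_
  rw [ha, hb]
  norm_num

theorem Hk.lm_pow_le (hf : Hk f χ) {p : ℕ} (hp : p.Prime) (h : ¬ p ∣ M) (j : ℕ) :
    ‖lm f (p ^ j)‖ ≤ j + 1 := by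
  obtain ⟨α, β, ha, hb, hs, hm⟩ := hf.sat hp h
  have h1 := hf.rc hp
  rw [← hs, ← hm] at h1
  exact h1.le ha.le hb.le j

theorem Hk.bad_le (hf : Hk f χ) {p : ℕ} (hp : p.Prime) (h : p ∣ M) : ‖lm f p‖ ^ 2 ≤ p := by
  have hp0 : (0 : ℝ) < p := by exact_mod_cast hp.pos
  have hr := hf.rc hp
  rw [Hk.chi_zero (χ := χ) hp h] at hr
  have h1 : ∀ j : ℕ, lm f (p ^ (j + 1)) = lm f p ^ (j + 1) := by
    intro j
    induction j with
    | zero => simp
    | succ j ih =>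
      have := hr.step j
      simp only [zero_mul, sub_zero] at this
      rw [show j + 1 + 1 = j + 2 by ring, this, ih]
      ring
  have hinj : Function.Injective fun j : ℕ => p ^ (j + 1) := by
    intro a b hab
    have := Nat.pow_right_injective hp.two_le hab
    omega
  have h2 : ∀ s : ℝ, 1 < s → ‖lm f p‖ ^ 2 ≤ (p : ℝ) ^ s := by
    intro s hs
    have h3 := (hf.sm s hs).comp_injective hinj
    have e : ∀ j : ℕ, ((fun n : ℕ => gg f n * (n : ℝ) ^ (-s)) ∘ fun j : ℕ => p ^ (j + 1)) j =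
        (‖lm f p‖ ^ 2 * (p : ℝ) ^ (-s)) * (‖lm f p‖ ^ 2 * (p : ℝ) ^ (-s)) ^ j := by
      intro j
      simp only [Function.comp_apply]
      rw [gg_eq, h1, norm_pow, mul_pow (‖lm f p‖ ^ 2), ← pow_mul, ← pow_mul]
      push_cast
      rw [← Real.rpow_natCast (p : ℝ) (j + 1), ← Real.rpow_mul hp0.le,
        ← Real.rpow_natCast ((p : ℝ) ^ (-s)) j, ← Real.rpow_mul hp0.le]
      have e2 : (p : ℝ) ^ (((j + 1 : ℕ) : ℝ) * -s) = (p : ℝ) ^ (-s) * (p : ℝ) ^ (-s * (j : ℝ)) := by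
        rw [← Real.rpow_add hp0]
        congr 1
        push_cast
        ring
      rw [e2]
      ring
    by_contra hcon
    push Not at hcon
    have h5 : 1 ≤ ‖lm f p‖ ^ 2 * (p : ℝ) ^ (-s) := by
      rw [Real.rpow_neg hp0.le]
      rw [← div_eq_mul_inv, one_le_div (by positivity)]
      exact hcon.le
    have h6 : Summable fun j : ℕ => (‖lm f p‖ ^ 2 * (p : ℝ) ^ (-s)) ^ j := by
      have h7 := h3.congr e
      have h8 : ‖lm f p‖ ^ 2 * (p : ℝ) ^ (-s) ≠ 0 := by linarith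
      exact (summable_mul_left_iff h8).1 h7
    rw [summable_geometric_iff_norm_lt_one] at h6
    rw [Real.norm_of_nonneg (by positivity)] at h6
    linarith
  have h3 : Tendsto (fun s : ℝ => (p : ℝ) ^ s) (𝓝[>] 1) (𝓝 ((p : ℝ) ^ (1 : ℝ))) :=
    ((Real.continuous_const_rpow hp0.ne').tendsto 1).mono_left nhdsWithin_le_nhds
  rw [Real.rpow_one] at h3
  refine ge_of_tendsto h3 ?_
  filter_upwards [self_mem_nhdsWithin] with s hs
  exact h2 s hs

theorem Hk.t_le (hf : Hk f χ) (p : Nat.Primes) {s : ℂ} (hs : 1 ≤ s.re) :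
    ‖lm f p‖ ^ 2 * ‖((p : ℕ) : ℂ) ^ (-s)‖ ≤ 2 := by
  have hp0 : (0 : ℝ) < (p : ℕ) := by exact_mod_cast p.2.pos
  have hp1 : (1 : ℝ) ≤ (p : ℕ) := by exact_mod_cast p.2.one_le
  obtain ⟨h0, h1, -⟩ := rpow_half p.2 hs
  rw [norm_p]
  by_cases h : (p : ℕ) ∣ M
  · have h2 := hf.bad_le p.2 h
    have h3 : ((p : ℕ) : ℝ) ^ (-s.re) ≤ ((p : ℕ) : ℝ) ^ (-1 : ℝ) :=
      Real.rpow_le_rpow_of_exponent_le hp1 (by linarith)
    calc _ ≤ ((p : ℕ) : ℝ) * ((p : ℕ) : ℝ) ^ (-1 : ℝ) := mul_le_mul h2 h3 h0 hp0.le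
      _ = 1 := by
          rw [Real.rpow_neg_one, mul_inv_cancel₀ hp0.ne']
      _ ≤ 2 := by norm_num
  · have h2 := hf.lm_le p.2 h
    have h3 : ‖lm f p‖ ^ 2 ≤ 4 := by nlinarith [norm_nonneg (lm f p)]
    nlinarith [norm_nonneg (lm f p), sq_nonneg ‖lm f p‖]

theorem Hk.tn_le (hf : Hk f χ) {p : ℕ} (hp : p.Prime) : ‖tn f p‖ ≤ 2 := by
  unfold tn
  split_ifs with h
  · simp
  · exact hf.lm_le hp h

end

section
variable {M₁ M₂ k l : ℕ} [NeZero M₁] [NeZero M₂] {f : S1 M₁ k} {g : S1 M₂ l}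
  {χ : DirichletCharacter ℂ M₁} {ξ : DirichletCharacter ℂ M₂}

/-- the local factor -/
def LF (f : S1 M₁ k) (g : S1 M₂ l) (s : ℂ) (p : ℕ) : ℂ :=
  SC (fun j => lm f (p ^ j)) (fun j => lm g (p ^ j)) ((p : ℂ) ^ (-s)) 0

theorem sum_norm (hf : Hk f χ) (hg : Hk g ξ) {s : ℂ} (hs : 1 < s.re) :
    Summable fun n : ℕ => ‖lm f n * conj (lm g n) * (n : ℂ) ^ (-s)‖ :=
  CR_summable (by linarith) (Sq_of hf.sm hs) (Sq_of hg.sm hs)

theorem loc_summable (hf : Hk f χ) (hg : Hk g ξ) {s : ℂ} (hs : 1 < s.re) (p : Nat.Primes) :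
    Summable fun j : ℕ => lm f ((p : ℕ) ^ j) * conj (lm g ((p : ℕ) ^ j)) *
      (((p : ℕ) : ℂ) ^ (-s)) ^ j := by
  have h1 := (sum_norm hf hg hs).comp_injective (Nat.pow_right_injective p.2.two_le)
  refine (h1.of_norm).congr fun j => ?_
  rw [pow_cpow p.2.pos]

theorem hasProd_CR (hf : Hk f χ) (hg : Hk g ξ) {s : ℂ} (hs : 1 < s.re) :
    HasProd (fun p : Nat.Primes => LF f g s p) (CR (lm f) (lm g) s) := by
  have h1 : lm f 1 * conj (lm g 1) * ((1 : ℕ) : ℂ) ^ (-s) = 1 := by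
    rw [hf.lm_one, hg.lm_one]; simp
  have hmul : ∀ {m n : ℕ}, Nat.Coprime m n →
      lm f (m * n) * conj (lm g (m * n)) * ((m * n : ℕ) : ℂ) ^ (-s) =
      lm f m * conj (lm g m) * (m : ℂ) ^ (-s) * (lm f n * conj (lm g n) * (n : ℂ) ^ (-s)) := by
    intro m n h
    rw [hf.lm_mul h, hg.lm_mul h, Nat.cast_mul, Complex.natCast_mul_natCast_cpow, map_mul]
    ring
  have h := EulerProduct.eulerProduct_hasProd
    (f := fun n : ℕ => lm f n * conj (lm g n) * (n : ℂ) ^ (-s)) h1 hmul (sum_norm hf hg hs) (by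
      rw [lm_zero]; simp)
  refine h.congr_fun fun p => ?_
  unfold LF SC
  refine tsum_congr fun j => ?_
  simp only [add_zero]
  rw [pow_cpow p.2.pos]

/-- the correction at the bad primes -/
def bd (M : ℕ) (p : Nat.Primes) : ℝ := if (p : ℕ) ∣ M then Real.log 20 else 0

theorem bd_nonneg (M : ℕ) (p : Nat.Primes) : 0 ≤ bd M p := by
  unfold bd
  split_ifs
  · exact log20
  · exact le_rfl

theorem finite_dvd {M : ℕ} (hM : M ≠ 0) : Set.Finite {p : Nat.Primes | (p : ℕ) ∣ M} := by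
  have h1 : Set.Finite {p : Nat.Primes | (p : ℕ) ∈ M.divisors} :=
    Set.Finite.preimage Subtype.val_injective.injOn (Finset.finite_toSet _)
  exact h1.subset fun p hp => Nat.mem_divisors.2 ⟨hp, hM⟩

theorem bd_summable {M : ℕ} (hM : M ≠ 0) : Summable (bd M) := by
  refine summable_of_finite_support ((finite_dvd hM).subset fun p hp => ?_)
  by_contra h
  refine hp ?_
  unfold bd
  exact if_neg h

theorem LF_lower (hf : Hk f χ) (hg : Hk g ξ) {s : ℂ} (hs : 1 < s.re) (p : Nat.Primes) :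
    0 < ‖LF f g s p‖ ∧ (tn f p * conj (tn g p) * ((p : ℕ) : ℂ) ^ (-s)).re -
      KD * (((p : ℕ) : ℝ) ^ (-s.re)) ^ 2 - bd (M₁ * M₂) p ≤ Real.log ‖LF f g s p‖ := by
  obtain ⟨h0, h1, -⟩ := rpow_half p.2 hs.le
  have a := hf.rc p.2
  have b := hg.rc p.2
  have hsum := loc_summable hf hg hs p
  have hpc : ((p : ℕ) : ℂ) ≠ 0 := by exact_mod_cast p.2.ne_zero
  have hx0 : ((p : ℕ) : ℂ) ^ (-s) ≠ 0 := by
    rw [Ne, Complex.cpow_eq_zero_iff]
    intro h
    exact hpc h.1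
  have hx : ‖((p : ℕ) : ℂ) ^ (-s)‖ ≤ 1 / 2 := by rw [norm_p]; exact h1
  have h2 := SC_lower a b hx0 hsum hx (hf.t_le p hs.le) (hg.t_le p hs.le)
  refine ⟨lt_of_lt_of_le (by norm_num) h2, ?_⟩
  by_cases h : (p : ℕ) ∣ M₁ * M₂
  · have h3 : tn f p * conj (tn g p) = 0 := by
      rcases (Nat.Prime.dvd_mul p.2).1 h with h | h
      · unfold tn
        rw [if_pos h, zero_mul]
      · unfold tn
        rw [if_pos h, map_zero, mul_zero]
    unfold bd
    rw [h3, zero_mul, Complex.zero_re, if_pos h]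
    have h4 : -Real.log 20 ≤ Real.log ‖LF f g s p‖ := by
      rw [← Real.log_inv]
      refine Real.log_le_log (by norm_num) ?_
      norm_num
      unfold LF
      linarith
    have h5 : 0 ≤ KD * (((p : ℕ) : ℝ) ^ (-s.re)) ^ 2 := mul_nonneg KD_nonneg (by positivity)
    linarith
  · have hf' : ¬ (p : ℕ) ∣ M₁ := fun h' => h (Dvd.dvd.mul_right h' _)
    have hg' : ¬ (p : ℕ) ∣ M₂ := fun h' => h (Dvd.dvd.mul_left h' _)
    have h3 := SC_log a b hx0 (hf.lm_pow_le p.2 hf') (hg.lm_pow_le p.2 hg') hsum hx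
    rw [norm_p] at h3
    unfold bd tn
    rw [if_neg hf', if_neg hg', if_neg h, sub_zero]
    exact h3

/-- the constant from the prime powers and the bad primes -/
def K3 (M : ℕ) : ℝ := KD * ∑' p : Nat.Primes, ((p : ℕ) : ℝ) ^ (-2 : ℝ) + ∑' p, bd M p

theorem cpow_pt (τ ε : ℝ) (p : Nat.Primes) : ((p : ℕ) : ℂ) ^ (-(pt τ ε)) =
    ((((p : ℕ) : ℝ) ^ (-(1 + ε)) : ℝ) : ℂ) * ((p : ℕ) : ℂ) ^ (-((τ : ℂ) * Complex.I)) := by
  have hpp : (0 : ℝ) < (p : ℕ) := by exact_mod_cast p.2.pos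
  have hpc : ((p : ℕ) : ℂ) ≠ 0 := by exact_mod_cast p.2.ne_zero
  unfold pt
  rw [neg_add, Complex.cpow_add _ _ hpc, Complex.ofReal_cpow hpp.le]
  push_cast
  ring

/-- **Lower bound for the Rankin-Selberg series.** -/
theorem E_le_log (hf : Hk f χ) (hg : Hk g ξ) (τ : ℝ) {ε : ℝ} (hε : 0 < ε) :
    (E ε fun p : Nat.Primes =>
      (tn f p * conj (tn g p) * ((p : ℕ) : ℂ) ^ (-((τ : ℂ) * Complex.I))).re) ≤
      Real.log ‖CR (lm f) (lm g) (pt τ ε)‖ + K3 (M₁ * M₂) := by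
  set s : ℂ := pt τ ε with hs'
  have hre : s.re = 1 + ε := pt_re τ ε
  have hs : 1 < s.re := by rw [hre]; linarith
  have hP := hasProd_CR hf hg hs
  have hM : M₁ * M₂ ≠ 0 := mul_ne_zero (NeZero.ne M₁) (NeZero.ne M₂)
  have hsum1 : Summable fun p : Nat.Primes =>
      (tn f p * conj (tn g p) * ((p : ℕ) : ℂ) ^ (-s)).re := by
    refine Summable.of_norm_bounded ((Nat.Primes.summable_rpow.2
      (by linarith : -(1 + ε) < -1)).mul_left 4) fun p => ?_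
    rw [Real.norm_eq_abs]
    refine (Complex.abs_re_le_norm _).trans ?_
    rw [norm_mul, norm_mul, Complex.norm_conj, norm_p, hre]
    refine mul_le_mul_of_nonneg_right ?_ (by positivity)
    calc ‖tn f p‖ * ‖tn g p‖ ≤ 2 * 2 :=
          mul_le_mul (hf.tn_le p.2) (hg.tn_le p.2) (norm_nonneg _) (by norm_num)
      _ = 4 := by norm_num
  have hs2 : Summable fun p : Nat.Primes => ((p : ℕ) : ℝ) ^ (-2 : ℝ) :=
    Nat.Primes.summable_rpow.2 (by norm_num)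
  have hle2 : ∀ p : Nat.Primes, (((p : ℕ) : ℝ) ^ (-s.re)) ^ 2 ≤ ((p : ℕ) : ℝ) ^ (-2 : ℝ) := by
    intro p
    have hp1 : (1 : ℝ) ≤ (p : ℕ) := by exact_mod_cast p.2.one_le
    rw [← Real.rpow_natCast, ← Real.rpow_mul (by positivity)]
    refine Real.rpow_le_rpow_of_exponent_le hp1 ?_
    push_cast
    linarith
  have hsum2 : Summable fun p : Nat.Primes => (((p : ℕ) : ℝ) ^ (-s.re)) ^ 2 :=
    Summable.of_nonneg_of_le (fun p => by positivity) hle2 hs2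
  have hsumb := bd_summable hM
  have hsum3 := (hsum1.sub (hsum2.mul_left KD)).sub hsumb
  have hfin : ∀ T : Finset Nat.Primes, Real.exp (∑ p ∈ T, ((tn f p * conj (tn g p) *
      ((p : ℕ) : ℂ) ^ (-s)).re - KD * (((p : ℕ) : ℝ) ^ (-s.re)) ^ 2 - bd (M₁ * M₂) p)) ≤
      ‖∏ p ∈ T, LF f g s p‖ := by
    intro T
    rw [norm_prod, Real.exp_sum]
    refine Finset.prod_le_prod (fun p _ => (Real.exp_pos _).le) fun p _ => ?_
    obtain ⟨h1, h2⟩ := LF_lower hf hg hs p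
    rw [← Real.exp_log h1]
    exact Real.exp_le_exp.2 h2
  have hlim1 : Tendsto (fun T : Finset Nat.Primes => Real.exp (∑ p ∈ T, ((tn f p *
      conj (tn g p) * ((p : ℕ) : ℂ) ^ (-s)).re - KD * (((p : ℕ) : ℝ) ^ (-s.re)) ^ 2 -
      bd (M₁ * M₂) p))) atTop
      (𝓝 (Real.exp (∑' p : Nat.Primes, ((tn f p *
      conj (tn g p) * ((p : ℕ) : ℂ) ^ (-s)).re - KD * (((p : ℕ) : ℝ) ^ (-s.re)) ^ 2 -
      bd (M₁ * M₂) p)))) :=
    (Real.continuous_exp.tendsto _).comp hsum3.hasSum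
  have hlim2 : Tendsto (fun T : Finset Nat.Primes => ‖∏ p ∈ T, LF f g s p‖) atTop
      (𝓝 ‖CR (lm f) (lm g) s‖) := Tendsto.norm hP
  have h3 := le_of_tendsto_of_tendsto' hlim1 hlim2 hfin
  have h4 := Real.log_le_log (Real.exp_pos _) h3
  rw [Real.log_exp, (hsum1.sub (hsum2.mul_left KD)).tsum_sub hsumb,
    hsum1.tsum_sub (hsum2.mul_left KD), tsum_mul_left] at h4
  have h5 : ∑' p : Nat.Primes, (((p : ℕ) : ℝ) ^ (-s.re)) ^ 2 ≤
      ∑' p : Nat.Primes, ((p : ℕ) : ℝ) ^ (-2 : ℝ) := hsum2.tsum_le_tsum hle2 hs2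
  have h6 := mul_le_mul_of_nonneg_left h5 KD_nonneg
  unfold K3
  have h7 : (E ε fun p : Nat.Primes =>
      (tn f p * conj (tn g p) * ((p : ℕ) : ℂ) ^ (-((τ : ℂ) * Complex.I))).re) =
      ∑' p : Nat.Primes, (tn f p * conj (tn g p) * ((p : ℕ) : ℂ) ^ (-s)).re := by
    unfold E
    refine tsum_congr fun p => ?_
    have e : tn f p * conj (tn g p) * ((p : ℕ) : ℂ) ^ (-s) =
        ((((p : ℕ) : ℝ) ^ (-(1 + ε)) : ℝ) : ℂ) *
        (tn f p * conj (tn g p) * ((p : ℕ) : ℂ) ^ (-((τ : ℂ) * Complex.I))) := by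
      rw [hs', cpow_pt]
      ring
    rw [e, Complex.re_ofReal_mul]
    ring
  rw [h7]
  linarith

/-- **One-sided orthogonality.** -/
theorem cross_le (hf : Hk f χ) (hg : Hk g ξ) {τ : ℝ}
    (h : τ ≠ 0 ∨ k ≠ l ∨ ∃ p : ℕ, p.Prime ∧ ¬ p ∣ M₁ ∧ ¬ p ∣ M₂ ∧
      (aq f p ≠ aq g p ∨ χ (p : ZMod M₁) ≠ ξ (p : ZMod M₂))) :
    ∃ C : ℝ, ∀ᶠ ε : ℝ in 𝓝[>] 0, (E ε fun p : Nat.Primes =>
      (tn f p * conj (tn g p) * ((p : ℕ) : ℂ) ^ (-((τ : ℂ) * Complex.I))).re) ≤ C := by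
  obtain ⟨C, hC⟩ := bdd_all hf hg h
  refine ⟨Real.log (|C| + 1) + K3 (M₁ * M₂), ?_⟩
  filter_upwards [hC, self_mem_nhdsWithin] with ε h3 h4
  have hε : (0 : ℝ) < ε := h4
  refine (E_le_log hf hg τ hε).trans ?_
  have h5 : Real.log ‖CR (lm f) (lm g) (pt τ ε)‖ ≤ Real.log (|C| + 1) := by
    rcases eq_or_lt_of_le (norm_nonneg (CR (lm f) (lm g) (pt τ ε))) with h6 | h6
    · rw [← h6, Real.log_zero]
      exact Real.log_nonneg (by have := abs_nonneg C; linarith)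
    · refine Real.log_le_log h6 ?_
      have := le_abs_self C
      linarith
  linarith

/-- **The norm of an eigenform.** -/
theorem self_le (hf : Hk f χ) : ∃ C : ℝ, ∀ᶠ ε : ℝ in 𝓝[>] 0,
    (E ε fun p : Nat.Primes =>
      (tn f p * conj (tn f p) * ((p : ℕ) : ℂ) ^ (-(((0 : ℝ) : ℂ) * Complex.I))).re) ≤
      lam ε + C := by
  obtain ⟨-, c, hc, hlim⟩ := rs_form f hf.neb hf.pos hf.one
  have h1 := hlim.comp shift0
  have h2 := h1.eventually (gt_mem_nhds (lt_add_one c))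
  obtain ⟨B, hB⟩ := lam_bounded
  refine ⟨Real.log (c + 1) + K3 (M₁ * M₁) + B, ?_⟩
  filter_upwards [h2, hB, self_mem_nhdsWithin] with ε h3 hB' h4
  have hε : (0 : ℝ) < ε := h4
  refine (E_le_log hf hf 0 hε).trans ?_
  have e0 : pt 0 ε = ((1 + ε : ℝ) : ℂ) := by
    unfold pt
    push_cast
    ring
  have e1 : CR (lm f) (lm f) (pt 0 ε) = ((SD f (1 + ε) : ℝ) : ℂ) := by
    rw [e0]
    unfold CR SD
    rw [Complex.ofReal_tsum]
    refine tsum_congr fun n => ?_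
    rw [gg_eq, Complex.mul_conj, Complex.normSq_eq_norm_sq, Complex.ofReal_mul,
      Complex.ofReal_cpow (Nat.cast_nonneg n)]
    push_cast
    rfl
  simp only [Function.comp_apply] at h3
  rw [add_sub_cancel_left] at h3
  have h0 : 0 ≤ SD f (1 + ε) := tsum_nonneg (term_nonneg f _)
  have h5 : Real.log ‖CR (lm f) (lm f) (pt 0 ε)‖ ≤ Real.log (1 / ε) + Real.log (c + 1) := by
    rw [e1, Complex.norm_real, Real.norm_of_nonneg h0,
      ← Real.log_mul (by positivity) (by positivity)]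
    rcases eq_or_lt_of_le h0 with h6 | h6
    · exfalso
      have h8 := (hf.sm (1 + ε) (by linarith)).le_tsum 1 (fun n _ => term_nonneg f _ n)
      have h9 : SD f (1 + ε) = ∑' n : ℕ, gg f n * (n : ℝ) ^ (-(1 + ε)) := rfl
      rw [← h9, ← h6] at h8
      simp only [Nat.cast_one, Real.one_rpow, mul_one] at h8
      rw [gg_eq, hf.lm_one] at h8
      norm_num at h8
    · refine Real.log_le_log h6 ?_
      rw [one_div, inv_mul_eq_div, le_div_iff₀ hε, mul_comm]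
      exact h3.le
  have h6 : Real.log (1 / ε) = -Real.log ε := by rw [one_div, Real.log_inv]
  have h7 := (abs_le.1 hB').1
  rw [h6] at h5
  linarith

end

/-- the family of functions on the primes -/
def fam {ι : Type} (f : ι → Eigenform) (x : ι × ℝ) (p : Nat.Primes) : ℂ :=
  tn (M := (f x.1).level) (k := (f x.1).weight) (f x.1).form p *
    ((p : ℕ) : ℂ) ^ (-((x.2 : ℂ) * Complex.I))

theorem norm_pI (τ : ℝ) (p : Nat.Primes) : ‖((p : ℕ) : ℂ) ^ (-((τ : ℂ) * Complex.I))‖ = 1 := by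
  rw [Complex.norm_natCast_cpow_of_pos p.2.pos]
  simp

theorem fam_mul {ι : Type} (f : ι → Eigenform) (x y : ι × ℝ) (p : Nat.Primes) :
    fam f x p * conj (fam f y p) =
      tn (M := (f x.1).level) (k := (f x.1).weight) (f x.1).form p *
      conj (tn (M := (f y.1).level) (k := (f y.1).weight) (f y.1).form p) *
        ((p : ℕ) : ℂ) ^ (-(((x.2 - y.2 : ℝ) : ℂ) * Complex.I)) := by
  have hpc : ((p : ℕ) : ℂ) ≠ 0 := by exact_mod_cast p.2.ne_zero
  unfold fam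
  rw [map_mul]
  have e : conj (((p : ℕ) : ℂ) ^ (-((y.2 : ℂ) * Complex.I))) =
      ((p : ℕ) : ℂ) ^ ((y.2 : ℂ) * Complex.I) := by
    have h1 : (((p : ℕ) : ℂ)).arg ≠ Real.pi := by
      rw [Complex.natCast_arg]
      exact Real.pi_pos.ne
    have h2 := Complex.cpow_conj ((p : ℕ) : ℂ) ((y.2 : ℂ) * Complex.I) h1
    rw [Complex.conj_natCast, map_mul, Complex.conj_ofReal, Complex.conj_I, mul_neg] at h2
    rw [h2, Complex.conj_conj]
  have e2 : ((p : ℕ) : ℂ) ^ (-(((x.2 - y.2 : ℝ) : ℂ) * Complex.I)) =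
      ((p : ℕ) : ℂ) ^ (-((x.2 : ℂ) * Complex.I)) * ((p : ℕ) : ℂ) ^ ((y.2 : ℂ) * Complex.I) := by
    rw [← Complex.cpow_add _ _ hpc]
    congr 1
    push_cast
    ring
  rw [e, e2]
  ring

/-- **The family of the eigenforms.** -/
theorem fam_CFam {ι : Type} {f : ι → Eigenform} (hψ : ∀ e e', e ≠ e' → Differ (f e) (f e')) :
    CFam (fam f) 2 := by
  refine ⟨fun x p => ?_, fun x => ?_, fun x y hxy => ?_⟩
  · unfold fam
    rw [norm_mul, norm_pI, mul_one]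
    exact (f x.1).hk.tn_le p.2
  · obtain ⟨C, hC⟩ := self_le (f x.1).hk
    refine ⟨C, hC.mono fun ε h => ?_⟩
    simp_rw [fam_mul, sub_self]
    exact h
  · obtain ⟨C, hC⟩ := cross_le (f x.1).hk (f y.1).hk (τ := x.2 - y.2) (by
      by_cases h2 : x.2 = y.2
      · have h1 : x.1 ≠ y.1 := fun h1 => hxy (Prod.ext h1 h2)
        rcases hψ _ _ h1 with h | ⟨p, hp, g1, g2, g3⟩
        · exact Or.inr (Or.inl h)
        · exact Or.inr (Or.inr ⟨p, hp, g1, g2, g3⟩)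
      · exact Or.inl (sub_ne_zero.2 h2))
    refine ⟨C, hC.mono fun ε h => ?_⟩
    simp_rw [fam_mul]
    exact h

end

end Run7.h186.NT
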