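import Pool.Agent.W165.RS.Strip
import Pool.Agent.TH941.RS

/-! Cusp forms of any weight on `Γ₁(N)`. -/

set_option autoImplicit false
set_option linter.unusedSectionVars false

namespace Run7.h186.NT

open MeasureTheory Filter Topology UpperHalfPlane CongruenceSubgroup ConjAct Pointwise
open scoped ENNReal MatrixGroups Modular ModularForm
open Pool.Agent.W165.RS (Inv Dec SS measurableSet_SS ee norm_ee continuous_ee parseval lintegral_H
  extend_apply')

noncomputable section

/-- cusp forms of weight `k` on `Γ₁(N)` -/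
abbrev S1 (N k : ℕ) : Type := CuspForm (Gamma1 N : Subgroup (GL (Fin 2) ℝ)) (k : ℤ)

variable {N k : ℕ} [NeZero N] (f : S1 N k)

/-- `f` has the nebentypus `χ` -/
def Neb (χ : DirichletCharacter ℂ N) (f : S1 N k) : Prop :=
  ∀ γ : SL(2, ℤ), γ ∈ Gamma0 N →
    (f : ℍ → ℂ) ∣[(k : ℤ)] γ = χ ((γ 1 1 : ℤ) : ZMod N) • (f : ℍ → ℂ)

/-- `|f|² y^k` -/
def FF (z : ℍ) : ℝ≥0∞ := ENNReal.ofReal (‖f z‖ ^ 2 * z.im ^ k)

lemma FF_eq (z : ℍ) : FF f z = ENNReal.ofReal ‖petersson (k : ℤ) f f z‖ := by
  unfold FF petersson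
  congr 1
  rw [norm_mul, norm_mul, Complex.norm_conj, norm_zpow, Complex.norm_real,
    Real.norm_of_nonneg z.im_pos.le, sq, zpow_natCast]

lemma FF_meas : Measurable (FF f) := by
  have h : Continuous (fun z : ℍ => ‖petersson (k : ℤ) f f z‖) := by
    have := petersson_continuous (k : ℤ) (ModularFormClass.continuous f) (ModularFormClass.continuous f)
    exact this.norm
  have h2 : FF f = fun z => ENNReal.ofReal ‖petersson (k : ℤ) f f z‖ := funext (FF_eq f)
  rw [h2]
  exact ENNReal.measurable_ofReal.comp h.measurable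

lemma isUnit_of_mem {γ : SL(2, ℤ)} (h : γ ∈ Gamma0 N) : IsUnit ((γ 1 1 : ℤ) : ZMod N) := by
  have h1 := Gamma0_mem.1 h
  have h2 := γ.det_coe
  rw [Matrix.det_fin_two] at h2
  have h3 : ((γ 0 0 : ℤ) : ZMod N) * ((γ 1 1 : ℤ) : ZMod N) = 1 := by
    have h4 := congrArg (fun x : ℤ => (x : ZMod N)) h2
    push_cast at h4
    rw [h1, mul_zero, sub_zero] at h4
    exact h4
  exact IsUnit.of_mul_eq_one _ (by rw [mul_comm]; exact h3)

lemma norm_chi (χ : DirichletCharacter ℂ N) {a : ZMod N} (ha : IsUnit a) : ‖χ a‖ = 1 := by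
  obtain ⟨u, rfl⟩ := ha
  exact χ.unit_norm_eq_one u

lemma FF_inv {χ : DirichletCharacter ℂ N} {f : S1 N k} (hf : Neb χ f) : Inv N (FF f) := by
  intro γ hγ z
  rw [FF_eq, FF_eq, ← petersson_slash_SL, hf γ hγ]
  congr 1
  unfold petersson
  simp only [Pi.smul_apply, smul_eq_mul, map_mul]
  rw [norm_mul, norm_mul, norm_mul, norm_mul, Complex.norm_conj, norm_chi χ (isUnit_of_mem hγ),
    norm_mul, norm_mul]
  simp

lemma FF_dec : Dec (FF f) := by
  intro g
  obtain ⟨B, hB⟩ := CuspFormClass.petersson_bounded_left (k : ℤ)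
    (Gamma1 N : Subgroup (GL (Fin 2) ℝ)) f f
  have hArith : ((toConjAct (g : GL (Fin 2) ℝ)⁻¹) •
      (Gamma1 N : Subgroup (GL (Fin 2) ℝ))).IsArithmetic := by
    simpa [(show Rat.castHom ℝ = algebraMap ℚ ℝ by rfl), map_inv, Matrix.SpecialLinearGroup.map_mapGL]
      using! Subgroup.IsArithmetic.conj (Gamma1 N : Subgroup (GL (Fin 2) ℝ))
        (Matrix.SpecialLinearGroup.mapGL ℚ g)⁻¹
  obtain ⟨a, ha, hO⟩ := (CuspFormClass.zero_at_infty
    (CuspForm.translate f g)).petersson_exp_decay_left (k : ℤ) _ (CuspForm.translate f g)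
  obtain ⟨C, hC⟩ := hO.bound
  rw [atImInfty, eventually_comap, eventually_atTop] at hC
  obtain ⟨A, hA⟩ := hC
  -- `t² e^{-at}` is bounded
  have hexp : ∀ t : ℝ, 0 ≤ t → t ^ 2 * Real.exp (-a * t) ≤ 2 / a ^ 2 := by
    intro t ht
    have h1 : (a * t) ^ 2 / 2 ≤ Real.exp (a * t) := by
      have := Real.quadratic_le_exp_of_nonneg (mul_nonneg ha.le ht)
      nlinarith [mul_nonneg ha.le ht]
    rw [show -a * t = -(a * t) by ring, Real.exp_neg, ← div_eq_mul_inv, div_le_div_iff₀
      (Real.exp_pos _) (by positivity)]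
    nlinarith
  refine ⟨ENNReal.ofReal (|C| * (2 / a ^ 2) + |B| * |A| ^ 2), ENNReal.ofReal_ne_top, ?_⟩
  intro w hw
  rw [FF_eq, ← ENNReal.ofReal_mul (norm_nonneg _)]
  apply ENNReal.ofReal_le_ofReal
  have hv := w.im_pos
  rcases le_total A w.im with h | h
  · have h1 := hA w.im h w rfl
    rw [CuspForm.coe_translate, petersson_slash_SL, Real.norm_of_nonneg (Real.exp_pos _).le] at h1
    have h2 := hexp w.im hv.le
    calc ‖petersson (k : ℤ) f f (g • w)‖ * w.im ^ 2 ≤ (|C| * Real.exp (-a * w.im)) * w.im ^ 2 := by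
          gcongr
          refine h1.trans ?_
          gcongr
          exact le_abs_self C
      _ = |C| * (w.im ^ 2 * Real.exp (-a * w.im)) := by ring
      _ ≤ |C| * (2 / a ^ 2) := by gcongr
      _ ≤ _ := by have : 0 ≤ |B| * |A| ^ 2 := by positivity
                  linarith
  · have h1 := hB (g • w)
    have h3 : 0 ≤ |C| * (2 / a ^ 2) := by positivity
    have h2 : ‖petersson (k : ℤ) f f (g • w)‖ * w.im ^ 2 ≤ |B| * |A| ^ 2 := by
      have hA' : w.im ≤ |A| := h.trans (le_abs_self A)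
      have hB' : ‖petersson (k : ℤ) f f (g • w)‖ ≤ |B| := h1.trans (le_abs_self B)
      gcongr
    linarith

/-! ### Fourier coefficients -/

/-- Fourier coefficients -/
def aq (n : ℕ) : ℂ := (qExpansion 1 f).coeff n

theorem one_mem1 : (1 : ℝ) ∈ (Gamma1 N : Subgroup (GL (Fin 2) ℝ)).strictPeriods := by
  rw [strictPeriods_Gamma1]
  exact AddSubgroup.mem_zmultiples 1

lemma hasSum_f (x : ℝ) {y : ℝ} (hy : 0 < y) :
    HasSum (fun n : ℕ => (aq f n * ((Real.exp (-(2 * Real.pi * n * y)) : ℝ) : ℂ)) * ee n x)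
      (f ⟨x + y * Complex.I, by simpa using hy⟩) := by
  have h := ModularForm.hasSum_qExpansion (Γ := (Gamma1 N : Subgroup (GL (Fin 2) ℝ)))
    (k := (k : ℤ)) f one_pos one_mem1 ⟨x + y * Complex.I, by simpa using hy⟩
  convert h using 2 with n
  unfold Function.Periodic.qParam ee aq
  rw [mul_assoc]
  congr 1
  rw [← Complex.exp_nat_mul]
  push_cast
  rw [← Complex.exp_add]
  congr 1
  have hI : Complex.I ^ 2 = -1 := Complex.I_sq
  linear_combination (-(2 * Real.pi * n * y) : ℂ) * hI

lemma summable_f {y : ℝ} (hy : 0 < y) :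
    Summable (fun n : ℕ => ‖aq f n * ((Real.exp (-(2 * Real.pi * n * y)) : ℝ) : ℂ)‖) := by
  have h := (hasSum_f f 0 hy).summable.norm
  refine h.congr fun n => ?_
  rw [norm_mul, norm_ee, mul_one]

lemma aq_zero : aq f 0 = 0 := by
  unfold aq
  rw [CuspFormClass.qExpansion_coeff_zero (Γ := (Gamma1 N : Subgroup (GL (Fin 2) ℝ)))
    (k := (k : ℤ)) f one_pos one_mem1]

lemma horocycle {y : ℝ} (hy : 0 < y) :
    ∫⁻ x in Set.Ico (0:ℝ) 1, ENNReal.ofReal (‖f ⟨x + y * Complex.I, by simpa using hy⟩‖ ^ 2) =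
      ∑' n : ℕ, ENNReal.ofReal (‖aq f n‖ ^ 2 * Real.exp (-(4 * Real.pi * n * y))) := by
  have hp := parseval (summable_f f hy)
  have hgc : Continuous fun x : ℝ => ‖∑' n : ℕ, (aq f n * ((Real.exp (-(2 * Real.pi * n * y)) : ℝ) : ℂ)) *
      ee n x‖ ^ 2 := by
    refine (Continuous.norm ?_).pow 2
    refine continuous_tsum (fun n => (continuous_const.mul (continuous_ee n))) (summable_f f hy) ?_
    intro n x
    rw [norm_mul (_ * _) (ee _ _), norm_ee, mul_one]
  have e1 : ∀ x : ℝ, f ⟨x + y * Complex.I, by simpa using hy⟩ =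
      ∑' n : ℕ, (aq f n * ((Real.exp (-(2 * Real.pi * n * y)) : ℝ) : ℂ)) * ee n x :=
    fun x => (hasSum_f f x hy).tsum_eq.symm
  simp_rw [e1]
  rw [← ofReal_integral_eq_lintegral_ofReal (hgc.integrableOn_Icc.mono_set Set.Ico_subset_Icc_self)
    (Eventually.of_forall fun x => by positivity)]
  rw [integral_Ico_eq_integral_Ioc, ← intervalIntegral.integral_of_le zero_le_one, ← hp.tsum_eq,
    ENNReal.ofReal_tsum_of_nonneg (fun n => by positivity) hp.summable]
  refine tsum_congr fun n => ?_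
  congr 1
  rw [norm_mul, mul_pow, Complex.norm_real, Real.norm_of_nonneg (Real.exp_pos _).le,
    ← Real.exp_nat_mul]
  congr 2
  push_cast; ring

/-- the strip integral -/
lemma strip_eq {s : ℝ} (hs : 0 < s + k - 1) :
    ∫⁻ z in SS, FF f z * ENNReal.ofReal (z.im ^ s) =
      ∑' n : ℕ, ENNReal.ofReal (‖aq f n‖ ^ 2 *
        ((1 / (4 * Real.pi * n)) ^ (s + k - 1) * Real.Gamma (s + k - 1))) := by
  have him : Measurable (fun z : ℍ => z.im) := continuous_im.measurable
  have hmH : Measurable (SS.indicator fun z : ℍ => FF f z * ENNReal.ofReal (z.im ^ s)) :=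
    ((FF_meas f).mul (ENNReal.measurable_ofReal.comp (him.pow_const s))).indicator measurableSet_SS
  rw [← lintegral_indicator measurableSet_SS, lintegral_H _ hmH]
  have h1 : ∀ y ∈ Set.Ioi (0:ℝ), (∫⁻ x : ℝ, Function.extend UpperHalfPlane.coe
      (SS.indicator fun z : ℍ => FF f z * ENNReal.ofReal (z.im ^ s)) 0 (x + y * Complex.I) *
        ENNReal.ofReal ((1 / y) ^ 2)) =
      ∑' n : ℕ, ENNReal.ofReal (‖aq f n‖ ^ 2 * (y ^ (s + k - 1 - 1) *
        Real.exp (-(4 * Real.pi * n * y)))) := by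
    intro y hy
    have hy' : 0 < y := hy
    have e1 : ∀ x : ℝ, Function.extend UpperHalfPlane.coe
      (SS.indicator fun z : ℍ => FF f z * ENNReal.ofReal (z.im ^ s)) 0 (x + y * Complex.I) *
        ENNReal.ofReal ((1 / y) ^ 2) = (Set.Ico (0:ℝ) 1).indicator (fun x : ℝ =>
        ENNReal.ofReal (‖f ⟨x + y * Complex.I, by simpa using hy'⟩‖ ^ 2) *
          ENNReal.ofReal (y ^ (s + k - 1 - 1))) x := by
      intro x
      rw [extend_apply' _ x hy']
      by_cases hx : x ∈ Set.Ico (0:ℝ) 1
      · rw [Set.indicator_of_mem hx, Set.indicator_of_mem]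
        · unfold FF
          have e2 : (⟨x + y * Complex.I, by simpa using hy'⟩ : ℍ).im = y := by
            simp [UpperHalfPlane.im]
          rw [e2, ENNReal.ofReal_mul (by positivity), mul_assoc, mul_assoc,
            ← ENNReal.ofReal_mul (by positivity), ← ENNReal.ofReal_mul (by positivity)]
          congr 2
          rw [← Real.rpow_natCast y k, one_div, inv_pow, ← Real.rpow_natCast y 2,
            ← Real.rpow_neg hy'.le, ← Real.rpow_add hy', ← Real.rpow_add hy']
          congr 1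
          push_cast; ring
        · have e3 : (⟨x + y * Complex.I, by simpa using hy'⟩ : ℍ).re = x := by
            simp [UpperHalfPlane.re]
          show 0 ≤ _ ∧ _ < 1
          rw [e3]; exact hx
      · rw [Set.indicator_of_notMem hx, Set.indicator_of_notMem, zero_mul]
        intro h
        have e3 : (⟨x + y * Complex.I, by simpa using hy'⟩ : ℍ).re = x := by
            simp [UpperHalfPlane.re]
        have h' : 0 ≤ (⟨x + y * Complex.I, by simpa using hy'⟩ : ℍ).re ∧
          (⟨x + y * Complex.I, by simpa using hy'⟩ : ℍ).re < 1 := h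
        rw [e3] at h'
        exact hx h'
    simp_rw [e1]
    rw [lintegral_indicator measurableSet_Ico, lintegral_mul_const', horocycle f hy',
      ← ENNReal.tsum_mul_right]
    · refine tsum_congr fun n => ?_
      rw [← ENNReal.ofReal_mul (by positivity)]
      congr 1; ring
    · exact ENNReal.ofReal_ne_top
  rw [setLIntegral_congr_fun measurableSet_Ioi h1, lintegral_tsum]
  · refine tsum_congr fun n => ?_
    rcases Nat.eq_zero_or_pos n with hn | hn
    · subst hn
      simp [aq_zero]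
    · have hn' : (0:ℝ) < n := by exact_mod_cast hn
      have hr : 0 < 4 * Real.pi * n := by positivity
      have h2 := Real.integral_rpow_mul_exp_neg_mul_Ioi hs hr
      have hG := Real.Gamma_pos_of_pos hs
      have hint : IntegrableOn (fun t : ℝ => t ^ (s + k - 1 - 1) * Real.exp (-(4 * Real.pi * n * t)))
          (Set.Ioi 0) := by
        by_contra hcon
        rw [integral_undef hcon] at h2
        have : 0 < (1 / (4 * Real.pi * n)) ^ (s + k - 1) * Real.Gamma (s + k - 1) := by positivity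
        linarith
      rw [← h2, ← integral_const_mul, ofReal_integral_eq_lintegral_ofReal (hint.const_mul _)]
      filter_upwards [ae_restrict_mem measurableSet_Ioi] with t ht
      have : (0:ℝ) < t := ht
      simp only [Pi.zero_apply]
      positivity
  · intro n
    refine (ENNReal.measurable_ofReal.comp ?_).aemeasurable
    refine measurable_const.mul ?_
    exact (measurable_id.pow_const _).mul (by fun_prop)

end

end Run7.h186.NT
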