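import Pool.Agent.Run7.h186.NT4
import Pool.Agent.Y722.RS.Conj

/-! Rankin-Selberg for the squares of the coefficients. -/

set_option autoImplicit false
set_option linter.unusedSectionVars false

namespace Run7.h186.NT

open MeasureTheory Filter Topology UpperHalfPlane CongruenceSubgroup
open scoped ENNReal MatrixGroups
open Pool.Agent.W165.RS (rs_limit SS Inv Dec LN LN_ne_zero LN_ne_top)
open Pool.Agent.Y722.RS (TT rs_bdd)

noncomputable section

variable {N k : ℕ} [NeZero N] (f : S1 N k)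

/-- `|a(n)|² / n^{k-1}` -/
def gg (n : ℕ) : ℝ := ‖aq f n‖ ^ 2 * (n : ℝ) ^ (-((k : ℝ) - 1))

theorem gg_nonneg (n : ℕ) : 0 ≤ gg f n := by unfold gg; positivity

theorem gg_zero : gg f 0 = 0 := by unfold gg; rw [aq_zero]; simp

/-- the archimedean factor -/
def cc (k : ℕ) (s : ℝ) : ℝ := (4 * Real.pi) ^ (-(s + k - 1)) * Real.Gamma (s + k - 1)

theorem cc_pos {s : ℝ} (hs : 0 < s + k - 1) : 0 < cc k s := by
  have := Real.Gamma_pos_of_pos hs
  have := Real.pi_pos
  unfold cc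
  positivity

/-- the term of the strip integral -/
theorem term_eq {s : ℝ} (n : ℕ) :
    ‖aq f n‖ ^ 2 * ((1 / (4 * Real.pi * n)) ^ (s + k - 1) * Real.Gamma (s + k - 1)) =
    cc k s * (gg f n * (n : ℝ) ^ (-s)) := by
  rcases Nat.eq_zero_or_pos n with rfl | hn
  · rw [gg_zero, aq_zero]
    simp
  · have hn' : (0 : ℝ) < n := by exact_mod_cast hn
    have hpi := Real.pi_pos
    have h1 : (1 / (4 * Real.pi * n)) ^ (s + k - 1) =
        (4 * Real.pi) ^ (-(s + k - 1)) * ((n : ℝ) ^ (-s) * (n : ℝ) ^ (-((k : ℝ) - 1))) := by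
      rw [one_div, Real.inv_rpow (by positivity), ← Real.rpow_neg (by positivity),
        Real.mul_rpow (by positivity) (by positivity), ← Real.rpow_add hn']
      congr 2
      ring
    rw [h1]
    unfold gg cc
    ring

theorem strip3 {s : ℝ} (hs : 0 < s + k - 1) :
    ∫⁻ z in SS, FF f z * ENNReal.ofReal (z.im ^ s) =
      ENNReal.ofReal (cc k s) * ∑' n : ℕ, ENNReal.ofReal (gg f n * (n : ℝ) ^ (-s)) := by
  rw [strip_eq f hs, ← ENNReal.tsum_mul_left]
  exact tsum_congr fun n => by rw [term_eq f n, ENNReal.ofReal_mul (cc_pos hs).le]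

theorem lint_ne_zero (hk : 0 < k) (h1 : aq f 1 = 1) : ∫⁻ z, FF f z ≠ 0 := by
  have hk' : (1 : ℝ) ≤ k := by exact_mod_cast hk
  intro h0
  rw [lintegral_eq_zero_iff (FF_meas f)] at h0
  have h2 : ∫⁻ z in SS, FF f z * ENNReal.ofReal (z.im ^ (2 : ℝ)) = 0 := by
    refine le_antisymm ?_ zero_le
    refine (setLIntegral_le_lintegral _ _).trans (le_of_eq ?_)
    have hme : Measurable fun z : ℍ => FF f z * ENNReal.ofReal (z.im ^ (2 : ℝ)) :=
      (FF_meas f).mul (ENNReal.measurable_ofReal.comp (continuous_im.measurable.pow_const _))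
    rw [lintegral_eq_zero_iff hme]
    filter_upwards [h0] with z hz
    simp only [Pi.zero_apply] at hz ⊢
    rw [hz, zero_mul]
  rw [strip3 f (by linarith)] at h2
  rcases mul_eq_zero.1 h2 with h3 | h3
  · rw [ENNReal.ofReal_eq_zero] at h3
    have := cc_pos (k := k) (s := 2) (by linarith)
    linarith
  · rw [ENNReal.tsum_eq_zero] at h3
    have h4 := h3 1
    rw [ENNReal.ofReal_eq_zero] at h4
    unfold gg at h4
    rw [h1] at h4
    norm_num at h4

/-- summability of the Dirichlet series -/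
def Sm (h : S1 N k) : Prop := ∀ s : ℝ, 1 < s → Summable fun n : ℕ => gg h n * (n : ℝ) ^ (-s)

/-- the Dirichlet series -/
def SD (h : S1 N k) (s : ℝ) : ℝ := ∑' n : ℕ, gg h n * (n : ℝ) ^ (-s)

theorem term_nonneg (h : S1 N k) (s : ℝ) (n : ℕ) : 0 ≤ gg h n * (n : ℝ) ^ (-s) :=
  mul_nonneg (gg_nonneg h n) (by positivity)

theorem cc_tendsto (hk : 0 < k) : Tendsto (cc k) (𝓝[>] 1) (𝓝 (cc k 1)) := by
  have hk' : (1 : ℝ) ≤ k := by exact_mod_cast hk
  have hpi := Real.pi_pos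
  have c1 : ContinuousAt (fun s : ℝ => (4 * Real.pi) ^ (-(s + k - 1))) 1 := by
    refine ContinuousAt.rpow continuousAt_const (by fun_prop) (Or.inl (by positivity))
  have c2 : ContinuousAt (fun s : ℝ => Real.Gamma (s + k - 1)) 1 := by
    have : ContinuousAt Real.Gamma (1 + k - 1) := by
      refine (Real.differentiableAt_Gamma fun m => ?_).continuousAt
      have : (0 : ℝ) ≤ m := Nat.cast_nonneg m
      intro h
      linarith
    exact ContinuousAt.comp (f := fun s : ℝ => s + k - 1) this (by fun_prop)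
  exact ((c1.mul c2).tendsto).mono_left nhdsWithin_le_nhds

/-- **Rankin-Selberg.** -/
theorem rs_form {χ : DirichletCharacter ℂ N} (hχ : Neb χ f) (hk : 0 < k) (h1 : aq f 1 = 1) :
    Sm f ∧ ∃ c : ℝ, 0 < c ∧ Tendsto (fun s : ℝ => (s - 1) * SD f s) (𝓝[>] 1) (𝓝 c) := by
  have hk' : (1 : ℝ) ≤ k := by exact_mod_cast hk
  obtain ⟨c, hc0, hctop, hc⟩ := rs_limit (FF_meas f) (FF_inv hχ) (FF_dec f) (lint_ne_zero f hk h1)
  have hterm := term_nonneg f
  -- finiteness near `1`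
  have hfin : ∀ᶠ s : ℝ in 𝓝[>] 1, ENNReal.ofReal (s - 1) *
      ∫⁻ z in SS, FF f z * ENNReal.ofReal (z.im ^ s) < ⊤ :=
    hc.eventually (gt_mem_nhds hctop.lt_top)
  have hsum : Sm f := by
    intro s hs
    obtain ⟨t, ht1, ht2, ht3⟩ := (hfin.and ((eventually_mem_nhdsWithin (a := (1 : ℝ)) (s := Set.Ioi 1)).and
      (Filter.Eventually.filter_mono nhdsWithin_le_nhds (gt_mem_nhds hs)))).exists
    have ht2' : (1 : ℝ) < t := ht2
    have h2 : ∑' n : ℕ, ENNReal.ofReal (gg f n * (n : ℝ) ^ (-t)) ≠ ⊤ := by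
      intro htop
      rw [strip3 f (by linarith), htop] at ht1
      rw [ENNReal.mul_top, ENNReal.mul_top] at ht1
      · exact lt_irrefl _ ht1
      · rw [Ne, ENNReal.ofReal_eq_zero, not_le]
        linarith
      · rw [Ne, ENNReal.ofReal_eq_zero, not_le]
        exact cc_pos (by linarith)
    have h3 : Summable fun n : ℕ => gg f n * (n : ℝ) ^ (-t) :=
      (ENNReal.summable_toReal h2).congr fun n => ENNReal.toReal_ofReal (hterm t n)
    refine Summable.of_nonneg_of_le (hterm s) (fun n => ?_) h3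
    rcases Nat.eq_zero_or_pos n with rfl | hn
    · rw [gg_zero, zero_mul, zero_mul]
    · refine mul_le_mul_of_nonneg_left ?_ (gg_nonneg f n)
      exact Real.rpow_le_rpow_of_exponent_le (by exact_mod_cast hn) (by linarith)
  refine ⟨hsum, ?_⟩
  -- the real limit
  have hcr : Tendsto (fun s : ℝ => (ENNReal.ofReal (s - 1) *
      ∫⁻ z in SS, FF f z * ENNReal.ofReal (z.im ^ s)).toReal) (𝓝[>] 1) (𝓝 c.toReal) :=
    (ENNReal.tendsto_toReal hctop).comp hc
  have hfac := cc_tendsto hk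
  have hpos := cc_pos (k := k) (s := 1) (by linarith)
  refine ⟨c.toReal / cc k 1, div_pos (ENNReal.toReal_pos hc0 hctop) hpos, ?_⟩
  refine (hcr.div hfac hpos.ne').congr' ?_
  filter_upwards [self_mem_nhdsWithin] with s hs
  have hs1 : (1 : ℝ) < s := hs
  have hp := cc_pos (k := k) (s := s) (by linarith)
  simp only [Pi.div_apply]
  rw [strip3 f (by linarith), ENNReal.toReal_mul, ENNReal.toReal_mul,
    ENNReal.toReal_ofReal (by linarith), ENNReal.toReal_ofReal hp.le,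
    ← ENNReal.ofReal_tsum_of_nonneg (hterm s) (hsum s hs1),
    ENNReal.toReal_ofReal (tsum_nonneg (hterm s))]
  unfold SD
  field_simp

/-! ### forms with the same mean value -/

/-- forms with the same mean value have nearly the same Dirichlet series -/
theorem I_le (h₁ h₂ : S1 N k) (i₁ : Inv N (FF h₁)) (i₂ : Inv N (FF h₂))
    (hT : TT N (FF h₁) = TT N (FF h₂)) :
    ∃ C : ℝ≥0∞, C ≠ ∞ ∧ ∀ᶠ s : ℝ in 𝓝[>] 1,
      ∫⁻ z in SS, FF h₁ z * ENNReal.ofReal (z.im ^ s) ≤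
        (∫⁻ z in SS, FF h₂ z * ENNReal.ofReal (z.im ^ s)) + C := by
  obtain ⟨C₁, hC₁, h1⟩ := rs_bdd (FF_meas h₁) i₁ (FF_dec h₁)
  obtain ⟨C₂, hC₂, h2⟩ := rs_bdd (FF_meas h₂) i₂ (FF_dec h₂)
  have one_le : ∀ s : ℝ, 1 ≤ LN N s := by
    intro s
    unfold LN
    refine le_trans ?_ (ENNReal.le_tsum ⟨1, one_pos, Nat.coprime_one_left N⟩)
    simp
  refine ⟨C₂ + C₁, ENNReal.add_ne_top.2 ⟨hC₂, hC₁⟩, ?_⟩
  filter_upwards [h1, h2, self_mem_nhdsWithin] with s hs1 hs2 hs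
  have hs' : (1 : ℝ) < s := hs
  have h3 : LN N s * ∫⁻ z in SS, FF h₁ z * ENNReal.ofReal (z.im ^ s) ≤
      LN N s * (∫⁻ z in SS, FF h₂ z * ENNReal.ofReal (z.im ^ s)) + (C₂ + C₁) := by
    refine hs1.1.trans ?_
    rw [hT, ← add_assoc]
    exact add_le_add_left hs2.2 C₁
  have hne := LN_ne_zero N s
  have hnt := LN_ne_top N hs'.le
  have h4 : (C₂ + C₁) ≤ LN N s * (C₂ + C₁) := by
    calc (C₂ + C₁) = 1 * (C₂ + C₁) := (one_mul _).symm
      _ ≤ _ := mul_le_mul_left (one_le s) _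
  have h5 := h3.trans (add_le_add_right h4 _)
  rw [← mul_add] at h5
  exact (ENNReal.mul_le_mul_iff_right hne hnt).1 h5

theorem strip_SD {h : S1 N k} (hs : Sm h) (hk : 0 < k) {s : ℝ} (h1 : 1 < s) :
    ∫⁻ z in SS, FF h z * ENNReal.ofReal (z.im ^ s) = ENNReal.ofReal (cc k s * SD h s) := by
  have hk' : (1 : ℝ) ≤ k := by exact_mod_cast hk
  rw [strip3 h (by linarith), ENNReal.ofReal_mul (cc_pos (by linarith)).le]
  congr 1
  unfold SD
  rw [ENNReal.ofReal_tsum_of_nonneg (term_nonneg h s) (hs s h1)]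

/-- the archimedean factor is bounded below -/
theorem cc_lower (hk : 0 < k) : ∃ c : ℝ, 0 < c ∧ ∀ᶠ s : ℝ in 𝓝[>] 1, c ≤ cc k s := by
  have hk' : (1 : ℝ) ≤ k := by exact_mod_cast hk
  have hpos := cc_pos (k := k) (s := 1) (by linarith)
  refine ⟨_, half_pos hpos, ?_⟩
  filter_upwards [(cc_tendsto hk).eventually (lt_mem_nhds (half_lt_self hpos))] with s hs
  exact hs.le

theorem SD_le (hk : 0 < k) (h₁ h₂ : S1 N k) (i₁ : Inv N (FF h₁)) (i₂ : Inv N (FF h₂))
    (hs₁ : Sm h₁) (hs₂ : Sm h₂) (hT : TT N (FF h₁) = TT N (FF h₂)) :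
    ∃ C : ℝ, ∀ᶠ s : ℝ in 𝓝[>] 1, SD h₁ s ≤ SD h₂ s + C := by
  obtain ⟨C, hC, hev⟩ := I_le h₁ h₂ i₁ i₂ hT
  obtain ⟨c, hc, hcev⟩ := cc_lower hk
  refine ⟨C.toReal / c, ?_⟩
  filter_upwards [hev, hcev, self_mem_nhdsWithin] with s h1 h2 h3
  have h3' : (1 : ℝ) < s := h3
  rw [strip_SD hs₁ hk h3', strip_SD hs₂ hk h3'] at h1
  have hk0 : 0 < cc k s := lt_of_lt_of_le hc h2
  have hD2 : 0 ≤ SD h₂ s := tsum_nonneg (term_nonneg h₂ s)
  rw [← ENNReal.ofReal_toReal hC, ← ENNReal.ofReal_add (by positivity) ENNReal.toReal_nonneg,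
    ENNReal.ofReal_le_ofReal_iff (by positivity)] at h1
  have h4 : C.toReal ≤ cc k s * (C.toReal / c) := by
    rw [mul_div_assoc']
    rw [le_div_iff₀ hc]
    rw [mul_comm]
    exact mul_le_mul_of_nonneg_right h2 ENNReal.toReal_nonneg
  have h5 : cc k s * SD h₁ s ≤ cc k s * (SD h₂ s + C.toReal / c) := by linarith
  exact le_of_mul_le_mul_left h5 hk0

end

end Run7.h186.NT
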