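import Pool.Agent.Run7.h186.NT5

/-! Change of level, and the element of determinant `p`, for forms of any weight with character. -/

set_option autoImplicit false
set_option linter.unusedSectionVars false

namespace Run7.h186.NT

open MeasureTheory Filter Topology UpperHalfPlane CongruenceSubgroup Complex
open scoped ENNReal MatrixGroups ModularForm Pointwise
open Pool.Agent.W97.TW (al al_GL slash_al alQ al_eq mkSL mkSL_coe mkSL_mem exists_mkSL
  mkSL_GL al_mul al_det)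
open Pool.Agent.W165.RS (Inv)
open Pool.Agent.Y722.RS (al_pos al_al mk_al W W_pos TT TT_W exists_hab im_pos_mul qp)

noncomputable section

variable {N k : ℕ}

theorem isCusp_iff1 (N M : ℕ) [NeZero N] [NeZero M] {c : OnePoint ℝ}
    (hc : IsCusp c (Gamma1 M : Subgroup (GL (Fin 2) ℝ))) :
    IsCusp c (Gamma1 N : Subgroup (GL (Fin 2) ℝ)) := by
  rw [Subgroup.IsArithmetic.isCusp_iff_isCusp_SL2Z] at hc ⊢
  exact hc

theorem slash_mem (f : S1 N k) {γ : SL(2, ℤ)} (h : γ ∈ Gamma1 N) :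
    (f : ℍ → ℂ) ∣[(k : ℤ)] (γ : GL (Fin 2) ℝ) = f :=
  SlashInvariantForm.slash_action_eqn f.toSlashInvariantForm _ ⟨γ, h, rfl⟩

theorem mkSL_mem1 (a b c d : ℤ) (h : a * d - b * c = 1) (N : ℕ) :
    mkSL a b c d h ∈ Gamma1 N ↔ (a : ZMod N) = 1 ∧ (d : ZMod N) = 1 ∧ (c : ZMod N) = 0 := by
  rw [Gamma1_mem]
  rfl

theorem gamma1_le {N M : ℕ} (hNM : N ∣ M) {γ : SL(2, ℤ)} (h : γ ∈ Gamma1 M) : γ ∈ Gamma1 N := by
  rw [Gamma1_mem] at h ⊢
  have key : ∀ x y : ℤ, (x : ZMod M) = (y : ZMod M) → (x : ZMod N) = (y : ZMod N) := by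
    intro x y hxy
    rw [ZMod.intCast_eq_intCast_iff_dvd_sub] at hxy ⊢
    exact (Int.natCast_dvd_natCast.2 hNM).trans hxy
  have h1 := key (γ 0 0) 1 (by rw [h.1]; simp)
  have h2 := key (γ 1 1) 1 (by rw [h.2.1]; simp)
  have h3 := key (γ 1 0) 0 (by rw [h.2.2]; simp)
  simp only [Int.cast_one, Int.cast_zero] at h1 h2 h3
  exact ⟨h1, h2, h3⟩

/-- a form of level `N` as a form of level `M`, `N ∣ M` -/
def restr [NeZero N] (M : ℕ) [NeZero M] (hNM : N ∣ M) (f : S1 N k) : S1 M k where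
  toFun := f
  slash_action_eq' := by
    intro γ hγ
    obtain ⟨γ', hγ', rfl⟩ := hγ
    exact slash_mem f (gamma1_le hNM hγ')
  holo' := f.holo'
  zero_at_cusps' := fun hc => f.zero_at_cusps' (isCusp_iff1 N M hc)

theorem restr_coe [NeZero N] (M : ℕ) [NeZero M] (hNM : N ∣ M) (f : S1 N k) :
    (restr M hNM f : ℍ → ℂ) = f := rfl

theorem aq_restr [NeZero N] (M : ℕ) [NeZero M] (hNM : N ∣ M) (f : S1 N k) (n : ℕ) :
    aq (restr M hNM f) n = aq f n := rfl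

theorem changeLevel_int {N M : ℕ} (hNM : N ∣ M) (χ : DirichletCharacter ℂ N) {d : ℤ}
    (hd : IsUnit (d : ZMod M)) :
    (DirichletCharacter.changeLevel hNM χ) (d : ZMod M) = χ (d : ZMod N) := by
  obtain ⟨u, hu⟩ := hd
  rw [← hu, DirichletCharacter.changeLevel_eq_cast_of_dvd, hu]
  congr 1
  exact ZMod.cast_intCast hNM d

theorem Neb_restr [NeZero N] (M : ℕ) [NeZero M] (hNM : N ∣ M) {f : S1 N k}
    {χ : DirichletCharacter ℂ N} (hf : Neb χ f) :
    Neb (DirichletCharacter.changeLevel hNM χ) (restr M hNM f) := by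
  intro γ hγ
  rw [changeLevel_int hNM χ (isUnit_of_mem hγ)]
  have h1 : γ ∈ Gamma0 N := by
    rw [Gamma0_mem] at hγ ⊢
    rw [ZMod.intCast_zmod_eq_zero_iff_dvd] at hγ ⊢
    exact (Int.natCast_dvd_natCast.2 hNM).trans hγ
  exact hf γ h1

theorem isCusp_conj1 [NeZero N] (g : GL (Fin 2) ℚ) {c : OnePoint ℝ}
    (hc : IsCusp c (Gamma1 N : Subgroup (GL (Fin 2) ℝ))) :
    IsCusp c (ConjAct.toConjAct (g.map (Rat.castHom ℝ))⁻¹ • (Gamma1 N : Subgroup (GL (Fin 2) ℝ))) := by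
  have h1 : (ConjAct.toConjAct ((g⁻¹).map (Rat.castHom ℝ)) •
      (Gamma1 N : Subgroup (GL (Fin 2) ℝ))).IsArithmetic := Subgroup.IsArithmetic.conj _ _
  rw [map_inv] at h1
  rw [Subgroup.IsArithmetic.isCusp_iff_isCusp_SL2Z] at hc ⊢
  exact hc

theorem zero_slash1 [NeZero N] (f : S1 N k) (a b c d : ℤ) (h : 0 < a * d - b * c) {x : OnePoint ℝ}
    (hx : IsCusp x (Gamma1 N : Subgroup (GL (Fin 2) ℝ))) :
    OnePoint.IsZeroAt x ((f : ℍ → ℂ) ∣[(k : ℤ)] al a b c d h) (k : ℤ) := by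
  have h1 := isCusp_conj1 (alQ a b c d h) hx
  rw [← al_eq] at h1
  exact (CuspForm.translate f (al a b c d h)).zero_at_cusps' h1

theorem holo_slash1 (f : S1 N k) (a b c d : ℤ) (h : 0 < a * d - b * c) :
    MDifferentiable (modelWithCornersSelf ℂ ℂ) (modelWithCornersSelf ℂ ℂ)
      ((f : ℍ → ℂ) ∣[(k : ℤ)] al a b c d h) :=
  (CuspForm.translate f (al a b c d h)).holo'

/-- `p^{k-1} f(pz)` -/
def upf [NeZero N] (p : ℕ) [NeZero p] (f : S1 N k) : S1 (N * p) k where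
  toFun := (f : ℍ → ℂ) ∣[(k : ℤ)] al p 0 0 1 (al_pos p)
  slash_action_eq' := by
    intro γ hγ
    obtain ⟨γ', hγ', rfl⟩ := hγ
    obtain ⟨a, b, c, d, hdet, rfl⟩ := exists_mkSL γ'
    obtain ⟨ha, hd, hc⟩ := (mkSL_mem1 a b c d hdet (N * p)).1 hγ'
    rw [ZMod.intCast_zmod_eq_zero_iff_dvd] at hc
    obtain ⟨c', rfl⟩ := hc
    have hdet' : a * d - ((p : ℤ) * b) * (N * c') = 1 := by
      push_cast at hdet
      linear_combination hdet
    have hmul := al_mul (al_pos p) (al_pos p) (mkSL a b ((N * p : ℕ) * c') d hdet)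
      (mkSL a (p * b) (N * c') d hdet') (by
        rw [mkSL_coe, mkSL_coe, Matrix.mul_fin_two, Matrix.mul_fin_two]
        ext i j
        fin_cases i <;> fin_cases j <;> simp <;> ring)
    have key : ∀ x : ℤ, (x : ZMod (N * p)) = 1 → (x : ZMod N) = 1 := by
      intro x hx
      have h1 : (x : ZMod (N * p)) = ((1 : ℤ) : ZMod (N * p)) := by rw [hx]; simp
      rw [ZMod.intCast_eq_intCast_iff_dvd_sub] at h1
      have h2 : ((N : ℕ) : ℤ) ∣ 1 - x := (Int.natCast_dvd_natCast.2 (dvd_mul_right N p)).trans h1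
      have h3 := (ZMod.intCast_eq_intCast_iff_dvd_sub x 1 N).2 h2
      rw [h3]; simp
    change ((f : ℍ → ℂ) ∣[(k : ℤ)] al p 0 0 1 (al_pos p)) ∣[(k : ℤ)]
      ((mkSL a b ((N * p : ℕ) * c') d hdet : SL(2, ℤ)) : GL (Fin 2) ℝ) = _
    rw [← SlashAction.slash_mul, hmul, SlashAction.slash_mul,
      slash_mem f ((mkSL_mem1 a (p * b) (N * c') d hdet' N).2 ⟨key a ha, key d hd, by simp⟩)]
  holo' := holo_slash1 f p 0 0 1 (al_pos p)
  zero_at_cusps' := fun hc => zero_slash1 f p 0 0 1 (al_pos p) (isCusp_iff1 N (N * p) hc)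

theorem upf_coe [NeZero N] (p : ℕ) [NeZero p] (f : S1 N k) :
    (upf p f : ℍ → ℂ) = (f : ℍ → ℂ) ∣[(k : ℤ)] al p 0 0 1 (al_pos p) := rfl

theorem Neb_upf [NeZero N] (p : ℕ) [NeZero p] {f : S1 N k} {χ : DirichletCharacter ℂ N}
    (hf : Neb χ f) : Neb (DirichletCharacter.changeLevel (dvd_mul_right N p) χ) (upf p f) := by
  intro γ hγ
  rw [changeLevel_int (dvd_mul_right N p) χ (isUnit_of_mem hγ)]
  obtain ⟨a, b, c, d, hdet, rfl⟩ := exists_mkSL γ
  have hdvd : ((N * p : ℕ) : ℤ) ∣ c := (mkSL_mem a b c d hdet (N * p)).1 hγ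
  obtain ⟨c', rfl⟩ := hdvd
  have hdet' : a * d - ((p : ℤ) * b) * (N * c') = 1 := by
    push_cast at hdet
    linear_combination hdet
  have hmul := al_mul (al_pos p) (al_pos p) (mkSL a b ((N * p : ℕ) * c') d hdet)
    (mkSL a (p * b) (N * c') d hdet') (by
      rw [mkSL_coe, mkSL_coe, Matrix.mul_fin_two, Matrix.mul_fin_two]
      ext i j
      fin_cases i <;> fin_cases j <;> simp <;> ring)
  have h1 := hf (mkSL a (p * b) (N * c') d hdet')
    ((mkSL_mem a (p * b) (N * c') d hdet' N).2 (dvd_mul_right _ _))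
  change ((f : ℍ → ℂ) ∣[(k : ℤ)] al p 0 0 1 (al_pos p)) ∣[(k : ℤ)]
      ((mkSL a b ((N * p : ℕ) * c') d hdet : SL(2, ℤ)) : GL (Fin 2) ℝ) =
      χ (d : ZMod N) • ((f : ℍ → ℂ) ∣[(k : ℤ)] al p 0 0 1 (al_pos p))
  have h2 : (f : ℍ → ℂ) ∣[(k : ℤ)] ((mkSL a (p * b) (N * c') d hdet' : SL(2, ℤ)) : GL (Fin 2) ℝ) =
      χ (d : ZMod N) • (f : ℍ → ℂ) := h1
  have hσ : σ (al p 0 0 1 (al_pos p)) (χ (d : ZMod N)) = χ (d : ZMod N) := by
    have hdet2 : 0 < (al p 0 0 1 (al_pos p)).det.val := by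
      rw [al_det]
      exact_mod_cast al_pos p
    unfold σ
    rw [if_pos hdet2]
    rfl
  rw [← SlashAction.slash_mul, hmul, SlashAction.slash_mul, h2, ModularForm.smul_slash, hσ]

/-- the normalising factor -/
def rr (k p : ℕ) : ℝ := (p : ℝ) ^ (((k : ℝ) - 2) / 2)

theorem rr_pos (k p : ℕ) [NeZero p] : 0 < rr k p := by
  have : (0 : ℝ) < p := by exact_mod_cast NeZero.pos p
  unfold rr
  positivity

theorem rr_sq (k p : ℕ) [NeZero p] : rr k p ^ 2 = (p : ℝ) ^ ((k : ℤ) - 2) := by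
  have hp : (0 : ℝ) < p := by exact_mod_cast NeZero.pos p
  unfold rr
  rw [← Real.rpow_natCast, ← Real.rpow_mul hp.le, ← Real.rpow_intCast]
  congr 1
  push_cast
  ring

/-- the normalised form `p^{k/2} f(pz)` -/
def upn [NeZero N] (p : ℕ) [NeZero p] (f : S1 N k) : S1 (N * p) k :=
  (((rr k p)⁻¹ : ℝ) : ℂ) • upf p f

theorem upn_coe [NeZero N] (p : ℕ) [NeZero p] (f : S1 N k) :
    (upn p f : ℍ → ℂ) = (((rr k p)⁻¹ : ℝ) : ℂ) • (upf p f : ℍ → ℂ) := rfl

theorem Neb_smul [NeZero N] {f : S1 N k} {χ : DirichletCharacter ℂ N} (hf : Neb χ f) (u : ℂ) :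
    Neb χ (u • f) := by
  intro γ hγ
  have e : ((u • f : S1 N k) : ℍ → ℂ) = u • (f : ℍ → ℂ) := rfl
  rw [e, ModularForm.SL_smul_slash, hf γ hγ, smul_comm]

theorem Neb_add [NeZero N] {f g : S1 N k} {χ : DirichletCharacter ℂ N} (hf : Neb χ f)
    (hg : Neb χ g) : Neb χ (f + g) := by
  intro γ hγ
  have e : ((f + g : S1 N k) : ℍ → ℂ) = (f : ℍ → ℂ) + (g : ℍ → ℂ) := rfl
  rw [e, SlashAction.add_slash, hf γ hγ, hg γ hγ, smul_add]

theorem Neb_upn [NeZero N] (p : ℕ) [NeZero p] {f : S1 N k} {χ : DirichletCharacter ℂ N}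
    (hf : Neb χ f) : Neb (DirichletCharacter.changeLevel (dvd_mul_right N p) χ) (upn p f) :=
  Neb_smul (Neb_upf p hf) _

theorem upf_apply [NeZero N] (p : ℕ) [NeZero p] (f : S1 N k) (z : ℍ) :
    upf p f z = (p : ℂ) ^ ((k : ℤ) - 1) * f (ofComplex ((p : ℂ) * z)) := by
  change ((f : ℍ → ℂ) ∣[(k : ℤ)] al p 0 0 1 (al_pos p)) z = _
  rw [slash_al]
  simp
  ring

theorem hasSum_aq [NeZero N] (f : S1 N k) (z : ℍ) :
    HasSum (fun n : ℕ => aq f n * cexp (2 * Real.pi * Complex.I * n * z)) (f z) := by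
  have h := ModularForm.hasSum_qExpansion (Γ := (Gamma1 N : Subgroup (GL (Fin 2) ℝ)))
    (k := (k : ℤ)) f one_pos one_mem1 z
  refine h.congr_fun fun n => ?_
  rw [qp]
  rfl

theorem aq_unique [NeZero N] (f : S1 N k) (c : ℕ → ℂ)
    (h : ∀ z : ℍ, HasSum (fun n : ℕ => c n * cexp (2 * Real.pi * Complex.I * n * z)) (f z))
    (n : ℕ) : aq f n = c n := by
  have h1 := ModularFormClass.qExpansion_coeff_unique (Γ := (Gamma1 N : Subgroup (GL (Fin 2) ℝ)))
    (k := (k : ℤ)) (c := c) one_pos one_mem1 (f := f) (fun τ => by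
      refine (h τ).congr_fun fun m => ?_
      rw [qp, smul_eq_mul]) n
  exact h1.symm

theorem aq_upf [NeZero N] (p : ℕ) [NeZero p] (f : S1 N k) (n : ℕ) :
    aq (upf p f) n = if p ∣ n then (p : ℂ) ^ ((k : ℤ) - 1) * aq f (n / p) else 0 := by
  refine aq_unique _ (fun n => if p ∣ n then (p : ℂ) ^ ((k : ℤ) - 1) * aq f (n / p) else 0)
    (fun z => ?_) n
  rw [upf_apply]
  have h1 := (hasSum_aq f (ofComplex ((p : ℂ) * z))).mul_left ((p : ℂ) ^ ((k : ℤ) - 1))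
  have hinj : Function.Injective (fun n : ℕ => p * n) := fun a b hab =>
    Nat.eq_of_mul_eq_mul_left (NeZero.pos p) hab
  refine (Function.Injective.hasSum_iff hinj ?_).1 ?_
  · intro m hm
    rw [if_neg, zero_mul]
    rintro ⟨n, rfl⟩
    exact hm ⟨n, rfl⟩
  · refine h1.congr_fun fun m => ?_
    simp only [Function.comp_apply]
    rw [if_pos (dvd_mul_right p m), Nat.mul_div_cancel_left _ (NeZero.pos p),
      ofComplex_apply_of_im_pos (im_pos_mul p z), mul_assoc]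
    congr 3
    push_cast
    ring

theorem aq_smul [NeZero N] (u : ℂ) (f : S1 N k) (n : ℕ) : aq (u • f) n = u * aq f n := by
  refine aq_unique (u • f) (fun n => u * aq f n) (fun z => ?_) n
  have h := (hasSum_aq f z).mul_left u
  have e : (u • f : S1 N k) z = u * f z := rfl
  rw [e]
  refine h.congr_fun fun m => ?_
  ring

theorem aq_add [NeZero N] (f g : S1 N k) (n : ℕ) : aq (f + g) n = aq f n + aq g n := by
  refine aq_unique (f + g) (fun n => aq f n + aq g n) (fun z => ?_) n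
  have h := (hasSum_aq f z).add (hasSum_aq g z)
  have e : (f + g : S1 N k) z = f z + g z := rfl
  rw [e]
  refine h.congr_fun fun m => ?_
  ring

theorem aq_upn [NeZero N] (p : ℕ) [NeZero p] (f : S1 N k) (n : ℕ) :
    aq (upn p f) n = if p ∣ n then (((p : ℝ) ^ ((k : ℝ) / 2) : ℝ) : ℂ) * aq f (n / p) else 0 := by
  have hp : (0 : ℝ) < p := by exact_mod_cast NeZero.pos p
  unfold upn
  rw [aq_smul, aq_upf]
  split_ifs
  · rw [← mul_assoc]
    congr 1
    have e : (p : ℂ) ^ ((k : ℤ) - 1) = (((p : ℝ) ^ ((k : ℤ) - 1) : ℝ) : ℂ) := by push_cast; rfl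
    rw [e, ← Complex.ofReal_mul]
    congr 1
    unfold rr
    rw [← Real.rpow_neg hp.le, ← Real.rpow_intCast, ← Real.rpow_add hp]
    congr 1
    push_cast
    ring
  · rw [mul_zero]

/-! ### the element `W` -/

theorem slash_scalar (f : ℍ → ℂ) (p : ℕ) [NeZero p] (h : (0:ℤ) < (p:ℤ) * p - 0 * 0) :
    f ∣[(k : ℤ)] al p 0 0 p h = ((p : ℂ) ^ ((k : ℤ) - 2)) • f := by
  funext z
  rw [slash_al]
  have hp : (p : ℂ) ≠ 0 := by exact_mod_cast NeZero.ne p
  have e1 : (((p : ℤ) : ℂ) * (z : ℂ) + ((0 : ℤ) : ℂ)) / (((0 : ℤ) : ℂ) * z + ((p : ℤ) : ℂ)) = z := by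
    push_cast
    rw [zero_mul, zero_add, add_zero, mul_div_cancel_left₀ _ hp]
  rw [e1, ofComplex_apply]
  have e2 : ((((p : ℤ) * p - 0 * 0 : ℤ) : ℂ)) ^ ((k : ℤ) - 1) *
      (((0 : ℤ) : ℂ) * z + ((p : ℤ) : ℂ)) ^ (-(k : ℤ)) = (p : ℂ) ^ ((k : ℤ) - 2) := by
    have e3 : (((p : ℤ) * p - 0 * 0 : ℤ) : ℂ) = (p : ℂ) ^ (2 : ℤ) := by
      push_cast
      rw [zpow_ofNat]
      ring
    have e4 : ((0 : ℤ) : ℂ) * z + ((p : ℤ) : ℂ) = (p : ℂ) := by push_cast; ring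
    rw [e3, e4, ← zpow_mul, ← zpow_add₀ hp]
    congr 1
    ring
  rw [Pi.smul_apply, smul_eq_mul, ← e2]
  ring

section
variable [NeZero N] {p : ℕ} [NeZero p] {a b : ℤ} (hab : (p : ℤ) * a * 1 - N * b * 1 = 1)

include hab in
theorem sigma_W (u : ℂ) : σ (W hab) u = u := by
  have hdet : 0 < (W hab).det.val := by
    unfold W
    rw [al_det]
    exact_mod_cast W_pos hab
  unfold σ
  rw [if_pos hdet]
  rfl

theorem det_W : ((W hab).det.val : ℝ) = p := by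
  unfold W
  rw [al_det]
  have e : ((p : ℤ) * a) * (p * 1) - b * (N * p * 1) = p := by linear_combination (p : ℤ) * hab
  rw [e]
  simp

include hab in
theorem upn_W {f : S1 N k} {χ : DirichletCharacter ℂ N} (hf : Neb χ f) :
    (upn p f : ℍ → ℂ) ∣[(k : ℤ)] W hab = ((rr k p : ℝ) : ℂ) • (f : ℍ → ℂ) := by
  have hp0 : (0:ℤ) < (p:ℤ) * p - 0 * 0 := by
    have : (0:ℤ) < p := by exact_mod_cast NeZero.pos p
    rw [mul_zero, sub_zero]
    exact mul_pos this this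
  have hdet : ((p : ℤ) * a) * 1 - b * (N * 1) = 1 := by linear_combination hab
  have e1 : al p 0 0 1 (al_pos p) * W hab =
      (mkSL (p * a) b (N * 1) 1 hdet : GL (Fin 2) ℝ) * al p 0 0 p hp0 := by
    rw [mk_al]
    refine al_al _ _ _ _ ?_
    rw [Matrix.mul_fin_two, Matrix.mul_fin_two]
    ext i j
    fin_cases i <;> fin_cases j <;> simp <;> ring
  have h1 : (f : ℍ → ℂ) ∣[(k : ℤ)] ((mkSL (p * a) b (N * 1) 1 hdet : SL(2, ℤ)) : GL (Fin 2) ℝ) =
      (f : ℍ → ℂ) := by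
    have h2 := hf (mkSL (p * a) b (N * 1) 1 hdet)
      ((mkSL_mem (p * a) b (N * 1) 1 hdet N).2 (dvd_mul_right _ _))
    have e3 : ((mkSL (p * a) b (N * 1) 1 hdet : SL(2, ℤ)) 1 1 : ℤ) = 1 := rfl
    rw [e3, Int.cast_one, map_one, one_smul] at h2
    exact h2
  rw [upn_coe, ModularForm.smul_slash, sigma_W, upf_coe, ← SlashAction.slash_mul, e1,
    SlashAction.slash_mul, h1, slash_scalar, smul_smul]
  congr 1
  have hr := rr_pos k p
  have h3 := rr_sq k p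
  have e4 : (p : ℂ) ^ ((k : ℤ) - 2) = (((p : ℝ) ^ ((k : ℤ) - 2) : ℝ) : ℂ) := by push_cast; rfl
  rw [e4, ← h3, ← Complex.ofReal_mul]
  congr 1
  field_simp

include hab in
theorem g_W {g : S1 N k} {χ : DirichletCharacter ℂ N} (hg : Neb χ g) :
    (g : ℍ → ℂ) ∣[(k : ℤ)] W hab =
      (((rr k p : ℝ) : ℂ) * χ (p : ZMod N)) • (upn p g : ℍ → ℂ) := by
  have hdet : a * (p * 1) - b * (N * 1) = 1 := by linear_combination hab
  have e1 : W hab = (mkSL a b (N * 1) (p * 1) hdet : GL (Fin 2) ℝ) * al p 0 0 1 (al_pos p) := by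
    rw [mk_al]
    apply Units.ext
    rw [Units.val_mul]
    unfold W
    rw [al_GL, al_GL, al_GL, Matrix.mul_fin_two]
    ext i j
    fin_cases i <;> fin_cases j <;> simp <;> ring
  have h1 : (g : ℍ → ℂ) ∣[(k : ℤ)] ((mkSL a b (N * 1) (p * 1) hdet : SL(2, ℤ)) : GL (Fin 2) ℝ) =
      χ (p : ZMod N) • (g : ℍ → ℂ) := by
    have h2 := hg (mkSL a b (N * 1) (p * 1) hdet)
      ((mkSL_mem a b (N * 1) (p * 1) hdet N).2 (dvd_mul_right _ _))
    have e3 : ((mkSL a b (N * 1) (p * 1) hdet : SL(2, ℤ)) 1 1 : ℤ) = (p : ℤ) * 1 := rfl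
    have e4 : (((p : ℤ) * 1 : ℤ) : ZMod N) = (p : ZMod N) := by push_cast; ring
    rw [e3, e4] at h2
    exact h2
  have hσ : σ (al p 0 0 1 (al_pos p)) (χ (p : ZMod N)) = χ (p : ZMod N) := by
    have hdet2 : 0 < (al p 0 0 1 (al_pos p)).det.val := by
      rw [al_det]
      exact_mod_cast al_pos p
    unfold σ
    rw [if_pos hdet2]
    rfl
  rw [e1, SlashAction.slash_mul, h1, ModularForm.smul_slash, hσ, ← upf_coe, upn_coe, smul_smul]
  congr 1
  have hr := rr_pos k p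
  have hr' : ((rr k p : ℝ) : ℂ) ≠ 0 := by exact_mod_cast hr.ne'
  push_cast
  field_simp

theorem FF_W {M : ℕ} [NeZero M] (h : S1 M k) {M' : ℕ} [NeZero M'] (h' : S1 M' k)
    (e : (h : ℍ → ℂ) ∣[(k : ℤ)] W hab = ((rr k p : ℝ) : ℂ) • (h' : ℍ → ℂ)) (z : ℍ) :
    FF h (W hab • z) = FF h' z := by
  rw [FF_eq, FF_eq]
  congr 1
  have h1 := UpperHalfPlane.petersson_slash (k : ℤ) (h : ℍ → ℂ) (h : ℍ → ℂ) (W hab) z
  rw [e, sigma_W, det_W, Nat.abs_cast] at h1
  have h2 := congrArg norm h1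
  have e2 : petersson (k : ℤ) (((rr k p : ℝ) : ℂ) • (h' : ℍ → ℂ)) (((rr k p : ℝ) : ℂ) • (h' : ℍ → ℂ)) z =
      ((rr k p ^ 2 : ℝ) : ℂ) * petersson (k : ℤ) h' h' z := by
    unfold petersson
    simp only [Pi.smul_apply, smul_eq_mul, map_mul, Complex.conj_ofReal]
    push_cast
    ring
  have hp : (0 : ℝ) < p := by exact_mod_cast NeZero.pos p
  have hpz : (0 : ℝ) < (p : ℝ) ^ ((k : ℤ) - 2) := by positivity
  rw [e2, norm_mul, norm_mul, rr_sq, Complex.norm_real, Real.norm_of_nonneg hpz.le, norm_zpow,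
    Complex.norm_real, Real.norm_of_nonneg hp.le] at h2
  exact (mul_left_cancel₀ hpz.ne' h2).symm

end

/-- **Equality of mean values.** -/
theorem TT_cross [NeZero N] {p : ℕ} [NeZero p] (h : Nat.Coprime p N) {f g : S1 N k}
    {χ : DirichletCharacter ℂ N} (hf : Neb χ f) (hg : Neb χ g) (u : ℂ) :
    TT (N * p) (FF (upn p f + u • restr (N * p) (dvd_mul_right N p) g)) =
      TT (N * p) (FF (restr (N * p) (dvd_mul_right N p) f + (u * χ (p : ZMod N)) • upn p g)) := by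
  obtain ⟨a, b, hab⟩ := exists_hab h
  have hf1 := Neb_upn p hf
  have hg1 := Neb_restr (N * p) (dvd_mul_right N p) hg
  have hi : Inv (N * p) (FF (upn p f + u • restr (N * p) (dvd_mul_right N p) g)) :=
    FF_inv (Neb_add hf1 (Neb_smul hg1 u))
  have h1 := TT_W hab (FF_meas (upn p f + u • restr (N * p) (dvd_mul_right N p) g)) hi
  rw [← h1]
  congr 1
  funext z
  refine FF_W hab _ _ ?_ z
  have e1 : ((upn p f + u • restr (N * p) (dvd_mul_right N p) g : S1 (N * p) k) : ℍ → ℂ) =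
      (upn p f : ℍ → ℂ) + u • (g : ℍ → ℂ) := rfl
  have e2 : ((restr (N * p) (dvd_mul_right N p) f + (u * χ (p : ZMod N)) • upn p g :
      S1 (N * p) k) : ℍ → ℂ) = (f : ℍ → ℂ) + (u * χ (p : ZMod N)) • (upn p g : ℍ → ℂ) := rfl
  rw [e1, e2, SlashAction.add_slash, ModularForm.smul_slash, upn_W hab hf, g_W hab hg, sigma_W,
    smul_add, smul_smul, smul_smul]
  congr 2
  ring

end

end Run7.h186.NT
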