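import Pool.Agent.Run7.h186.NT6

/-! The cross terms at a prime. -/

set_option autoImplicit false
set_option linter.unusedSectionVars false

namespace Run7.h186.NT

open MeasureTheory Filter Topology UpperHalfPlane CongruenceSubgroup Complex
open scoped ENNReal MatrixGroups ModularForm Pointwise ComplexConjugate
open Pool.Agent.W165.RS (Inv)
open Pool.Agent.Y722.RS (TT)

noncomputable section

variable {N k : ℕ}

/-- normalised coefficients -/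
def lm (f : S1 N k) (n : ℕ) : ℂ := aq f n * (((n : ℝ) ^ (-(((k : ℝ) - 1) / 2)) : ℝ) : ℂ)

theorem lm_zero [NeZero N] (f : S1 N k) : lm f 0 = 0 := by unfold lm; rw [aq_zero, zero_mul]

theorem gg_eq [NeZero N] (f : S1 N k) (n : ℕ) : gg f n = ‖lm f n‖ ^ 2 := by
  rcases Nat.eq_zero_or_pos n with rfl | hn
  · rw [gg_zero, lm_zero]; simp
  · have hn' : (0 : ℝ) < n := by exact_mod_cast hn
    unfold gg lm
    rw [norm_mul, mul_pow, Complex.norm_real, Real.norm_of_nonneg (by positivity),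
      ← Real.rpow_natCast ((n : ℝ) ^ (-(((k : ℝ) - 1) / 2))), ← Real.rpow_mul hn'.le]
    congr 2
    push_cast
    ring

theorem lm_restr [NeZero N] (M : ℕ) [NeZero M] (hNM : N ∣ M) (f : S1 N k) :
    lm (restr M hNM f) = lm f := rfl

theorem lm_add_smul [NeZero N] (f g : S1 N k) (u : ℂ) (n : ℕ) :
    lm (f + u • g) n = lm f n + u * lm g n := by
  unfold lm
  rw [aq_add, aq_smul]
  ring

theorem lm_upn [NeZero N] (p : ℕ) [NeZero p] (f : S1 N k) (n : ℕ) :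
    lm (upn p f) n = if p ∣ n then ((Real.sqrt p : ℝ) : ℂ) * lm f (n / p) else 0 := by
  have hp : (0 : ℝ) < p := by exact_mod_cast NeZero.pos p
  unfold lm
  rw [aq_upn]
  split_ifs with h
  · obtain ⟨m, rfl⟩ := h
    rw [Nat.mul_div_cancel_left _ (NeZero.pos p)]
    have e : (((p : ℝ) ^ ((k : ℝ) / 2) : ℝ) : ℂ) *
        ((((p * m : ℕ) : ℝ) ^ (-(((k : ℝ) - 1) / 2)) : ℝ) : ℂ) =
        ((Real.sqrt p : ℝ) : ℂ) * (((m : ℝ) ^ (-(((k : ℝ) - 1) / 2)) : ℝ) : ℂ) := by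
      rw [← Complex.ofReal_mul, ← Complex.ofReal_mul]
      congr 1
      push_cast
      rw [Real.mul_rpow hp.le (Nat.cast_nonneg m), ← mul_assoc, ← Real.rpow_add hp,
        Real.sqrt_eq_rpow]
      congr 2
      ring
    calc (((p : ℝ) ^ ((k : ℝ) / 2) : ℝ) : ℂ) * aq f m *
        ((((p * m : ℕ) : ℝ) ^ (-(((k : ℝ) - 1) / 2)) : ℝ) : ℂ)
        = aq f m * ((((p : ℝ) ^ ((k : ℝ) / 2) : ℝ) : ℂ) *
          ((((p * m : ℕ) : ℝ) ^ (-(((k : ℝ) - 1) / 2)) : ℝ) : ℂ)) := by ring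
      _ = _ := by rw [e]; ring
  · rw [zero_mul]

/-- the Dirichlet series of the products -/
def CR (a b : ℕ → ℂ) (s : ℂ) : ℂ := ∑' n : ℕ, a n * conj (b n) * (n : ℂ) ^ (-s)

/-- square summability -/
def Sq (a : ℕ → ℂ) (s : ℝ) : Prop := Summable fun n : ℕ => ‖a n‖ ^ 2 * (n : ℝ) ^ (-s)

theorem Sq_of [NeZero N] {f : S1 N k} (hf : Sm f) {s : ℝ} (hs : 1 < s) : Sq (lm f) s :=
  (hf s hs).congr fun n => by rw [gg_eq]

theorem norm_ncpow (n : ℕ) {s : ℂ} (hs : s.re ≠ 0) : ‖(n : ℂ) ^ (-s)‖ = (n : ℝ) ^ (-s.re) := by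
  rcases Nat.eq_zero_or_pos n with rfl | hn
  · rw [Nat.cast_zero, Nat.cast_zero, Complex.zero_cpow, norm_zero, Real.zero_rpow]
    · exact neg_ne_zero.2 hs
    · intro h
      have := congrArg Complex.re h
      simp only [Complex.neg_re, Complex.zero_re, neg_eq_zero] at this
      exact hs this
  · rw [Complex.norm_natCast_cpow_of_pos hn, Complex.neg_re]

theorem CR_summable {a b : ℕ → ℂ} {s : ℂ} (hs : s.re ≠ 0) (ha : Sq a s.re) (hb : Sq b s.re) :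
    Summable fun n : ℕ => ‖a n * conj (b n) * (n : ℂ) ^ (-s)‖ := by
  refine Summable.of_nonneg_of_le (fun n => norm_nonneg _) (fun n => ?_) (ha.add hb)
  rw [norm_mul, norm_mul, norm_ncpow n hs, Complex.norm_conj, ← add_mul]
  refine mul_le_mul_of_nonneg_right ?_ (by positivity)
  nlinarith [sq_nonneg (‖a n‖ - ‖b n‖), norm_nonneg (a n), norm_nonneg (b n),
    sq_nonneg (‖a n‖ + ‖b n‖)]

theorem Sm_restr [NeZero N] (M : ℕ) [NeZero M] (hNM : N ∣ M) {f : S1 N k} (hf : Sm f) :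
    Sm (restr M hNM f) := hf

theorem tsum_upf {E : Type*} [AddCommMonoid E] [TopologicalSpace E] (p : ℕ) [NeZero p]
    (F : ℕ → E) (hF : ∀ n, ¬ p ∣ n → F n = 0) :
    ∑' n, F n = ∑' m, F (p * m) := by
  have hinj : Function.Injective (fun n : ℕ => p * n) := fun a b hab =>
    Nat.eq_of_mul_eq_mul_left (NeZero.pos p) hab
  refine (hinj.tsum_eq ?_).symm
  intro n hn
  by_contra hcon
  refine hn (hF n ?_)
  rintro ⟨m, rfl⟩
  exact hcon ⟨m, rfl⟩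

theorem summable_upf (p : ℕ) [NeZero p] (F : ℕ → ℝ) (hF : ∀ n, ¬ p ∣ n → F n = 0) :
    (Summable F) ↔ Summable fun m => F (p * m) := by
  have hinj : Function.Injective (fun n : ℕ => p * n) := fun a b hab =>
    Nat.eq_of_mul_eq_mul_left (NeZero.pos p) hab
  refine (hinj.summable_iff ?_).symm
  intro n hn
  refine hF n ?_
  rintro ⟨m, rfl⟩
  exact hn ⟨m, rfl⟩

theorem Sm_upn [NeZero N] (p : ℕ) [NeZero p] {f : S1 N k} (hf : Sm f) : Sm (upn p f) := by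
  intro s hs
  have hp : (0 : ℝ) < p := by exact_mod_cast NeZero.pos p
  rw [summable_upf p]
  · refine ((hf s hs).mul_left ((p : ℝ) * (p : ℝ) ^ (-s))).congr fun m => ?_
    rw [gg_eq, gg_eq, lm_upn, if_pos (dvd_mul_right p m),
      Nat.mul_div_cancel_left _ (NeZero.pos p), norm_mul, Complex.norm_real,
      Real.norm_of_nonneg (Real.sqrt_nonneg _), mul_pow, Real.sq_sqrt hp.le]
    push_cast
    rw [Real.mul_rpow (Nat.cast_nonneg _) (Nat.cast_nonneg _)]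
    ring
  · intro n hn
    rw [gg_eq, lm_upn, if_neg hn]
    simp

theorem Sm_add [NeZero N] {h₁ h₂ : S1 N k} (hs₁ : Sm h₁) (hs₂ : Sm h₂) (u : ℂ) :
    Sm (h₁ + u • h₂) := by
  intro s hs
  have h := ((hs₁ s hs).mul_left 2).add ((hs₂ s hs).mul_left (2 * ‖u‖ ^ 2))
  refine Summable.of_nonneg_of_le (term_nonneg _ s) (fun n => ?_) h
  rw [← mul_assoc, ← mul_assoc, ← add_mul]
  refine mul_le_mul_of_nonneg_right ?_ (by positivity)
  rw [gg_eq, gg_eq, gg_eq, lm_add_smul]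
  have h1 : ‖lm h₁ n + u * lm h₂ n‖ ≤ ‖lm h₁ n‖ + ‖u‖ * ‖lm h₂ n‖ := by
    refine (norm_add_le _ _).trans ?_
    rw [norm_mul]
  have h2 := pow_le_pow_left₀ (norm_nonneg _) h1 2
  nlinarith [sq_nonneg (‖lm h₁ n‖ - ‖u‖ * ‖lm h₂ n‖)]

theorem normSq_sub_eq (x y : ℂ) : ‖x + y‖ ^ 2 - ‖x - y‖ ^ 2 = 4 * (x * conj y).re := by
  rw [← Complex.normSq_eq_norm_sq, ← Complex.normSq_eq_norm_sq, Complex.normSq_add,
    Complex.normSq_sub]
  ring

/-- polarisation -/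
theorem polar [NeZero N] {h₁ h₂ : S1 N k} (hs₁ : Sm h₁) (hs₂ : Sm h₂) (u : ℂ) {s : ℝ}
    (hs : 1 < s) :
    SD (h₁ + u • h₂) s - SD (h₁ + (-u) • h₂) s = 4 * (conj u * CR (lm h₁) (lm h₂) (s : ℂ)).re := by
  have hre : ((s : ℂ)).re ≠ 0 := by rw [Complex.ofReal_re]; linarith
  have hsum := CR_summable (s := (s : ℂ)) hre (by rw [Complex.ofReal_re]; exact Sq_of hs₁ hs)
    (by rw [Complex.ofReal_re]; exact Sq_of hs₂ hs)
  unfold SD CR
  rw [← ((Sm_add hs₁ hs₂ u) s hs).tsum_sub ((Sm_add hs₁ hs₂ (-u)) s hs), ← tsum_mul_left,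
    Complex.re_tsum (hsum.of_norm.mul_left _), ← tsum_mul_left]
  refine tsum_congr fun n => ?_
  rw [gg_eq, gg_eq, lm_add_smul, lm_add_smul, ← sub_mul]
  have e1 : ‖lm h₁ n + u * lm h₂ n‖ ^ 2 - ‖lm h₁ n + -u * lm h₂ n‖ ^ 2 =
      4 * (lm h₁ n * conj (u * lm h₂ n)).re := by
    rw [neg_mul, ← sub_eq_add_neg]
    exact normSq_sub_eq _ _
  have e2 : (n : ℂ) ^ (-(s : ℂ)) = (((n : ℝ) ^ (-s) : ℝ) : ℂ) := by
    rw [Complex.ofReal_cpow (Nat.cast_nonneg n)]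
    push_cast
    rfl
  rw [e1, e2, map_mul]
  have e3 : conj u * (lm h₁ n * conj (lm h₂ n) * (((n : ℝ) ^ (-s) : ℝ) : ℂ)) =
      (((n : ℝ) ^ (-s) : ℝ) : ℂ) * (lm h₁ n * (conj u * conj (lm h₂ n))) := by ring
  rw [e3, Complex.re_ofReal_mul]
  ring

theorem CR_upn_left [NeZero N] (p : ℕ) [NeZero p] (f : S1 N k) (b : ℕ → ℂ) (s : ℂ) :
    CR (lm (upn p f)) b s = ((Real.sqrt p : ℝ) : ℂ) * (p : ℂ) ^ (-s) *
      CR (lm f) (fun n => b (p * n)) s := by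
  unfold CR
  rw [tsum_upf p, ← tsum_mul_left]
  · refine tsum_congr fun m => ?_
    rw [lm_upn, if_pos (dvd_mul_right p m), Nat.mul_div_cancel_left _ (NeZero.pos p)]
    push_cast
    rw [Complex.natCast_mul_natCast_cpow]
    ring
  · intro n hn
    rw [lm_upn, if_neg hn]
    simp

theorem CR_upn_right [NeZero N] (p : ℕ) [NeZero p] (g : S1 N k) (a : ℕ → ℂ) (s : ℂ) :
    CR a (lm (upn p g)) s = ((Real.sqrt p : ℝ) : ℂ) * (p : ℂ) ^ (-s) *
      CR (fun n => a (p * n)) (lm g) s := by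
  unfold CR
  rw [tsum_upf p, ← tsum_mul_left]
  · refine tsum_congr fun m => ?_
    rw [lm_upn, if_pos (dvd_mul_right p m), Nat.mul_div_cancel_left _ (NeZero.pos p), map_mul,
      Complex.conj_ofReal]
    push_cast
    rw [Complex.natCast_mul_natCast_cpow]
    ring
  · intro n hn
    rw [lm_upn, if_neg hn]
    simp

/-- **The cross terms at `p` differ by a bounded function.** -/
theorem cross_bdd [NeZero N] (hk : 0 < k) {p : ℕ} [NeZero p] (h : Nat.Coprime p N) {f g : S1 N k}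
    {χ : DirichletCharacter ℂ N} (hf : Neb χ f) (hg : Neb χ g) (sf : Sm f) (sg : Sm g) :
    ∃ C : ℝ, 0 ≤ C ∧ ∀ᶠ s : ℝ in 𝓝[>] 1,
      ‖CR (lm f) (fun n => lm g (p * n)) (s : ℂ) -
        conj (χ (p : ZMod N)) * CR (fun n => lm f (p * n)) (lm g) (s : ℂ)‖ ≤ C := by
  have hNM := dvd_mul_right N p
  have nf := Neb_restr (N * p) hNM hf
  have ng := Neb_restr (N * p) hNM hg
  have nfu := Neb_upn p hf
  have ngu := Neb_upn p hg
  have sf' := Sm_restr (N * p) hNM sf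
  have sg' := Sm_restr (N * p) hNM sg
  have sfu := Sm_upn p sf
  have sgu := Sm_upn p sg
  have key : ∀ u : ℂ, ∃ C : ℝ, ∀ᶠ s : ℝ in 𝓝[>] 1,
      |(conj u * (CR (lm (upn p f)) (lm g) (s : ℂ) -
        conj (χ (p : ZMod N)) * CR (lm f) (lm (upn p g)) (s : ℂ))).re| ≤ C := by
    intro u
    have i1 : ∀ v : ℂ, Inv (N * p) (FF (upn p f + v • restr (N * p) hNM g)) := fun v =>
      FF_inv (Neb_add nfu (Neb_smul ng v))
    have i2 : ∀ v : ℂ, Inv (N * p) (FF (restr (N * p) hNM f + v • upn p g)) := fun v =>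
      FF_inv (Neb_add nf (Neb_smul ngu v))
    have hT1 := TT_cross h hf hg u
    have hT2 := TT_cross h hf hg (-u)
    rw [neg_mul] at hT2
    obtain ⟨C1, h1⟩ := SD_le hk _ _ (i1 u) (i2 _) (Sm_add sfu sg' u) (Sm_add sf' sgu _) hT1
    obtain ⟨C2, h2⟩ := SD_le hk _ _ (i2 _) (i1 u) (Sm_add sf' sgu _) (Sm_add sfu sg' u) hT1.symm
    obtain ⟨C3, h3⟩ := SD_le hk _ _ (i1 (-u)) (i2 _) (Sm_add sfu sg' (-u)) (Sm_add sf' sgu _) hT2
    obtain ⟨C4, h4⟩ := SD_le hk _ _ (i2 _) (i1 (-u)) (Sm_add sf' sgu _) (Sm_add sfu sg' (-u))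
      hT2.symm
    refine ⟨(|C1| + |C2| + |C3| + |C4|) / 4, ?_⟩
    filter_upwards [h1, h2, h3, h4, self_mem_nhdsWithin] with s e1 e2 e3 e4 hs
    have hs' : (1 : ℝ) < s := hs
    have p1 := polar sfu sg' u hs'
    have p2 := polar sf' sgu (u * χ (p : ZMod N)) hs'
    rw [lm_restr] at p1 p2
    rw [map_mul] at p2
    have e5 : (conj u * (CR (lm (upn p f)) (lm g) (s : ℂ) -
        conj (χ (p : ZMod N)) * CR (lm f) (lm (upn p g)) (s : ℂ))).re =
        (conj u * CR (lm (upn p f)) (lm g) (s : ℂ)).re -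
        (conj u * conj (χ (p : ZMod N)) * CR (lm f) (lm (upn p g)) (s : ℂ)).re := by
      rw [← Complex.sub_re]
      congr 1
      ring
    rw [e5, abs_le]
    have := le_abs_self C1
    have := le_abs_self C2
    have := le_abs_self C3
    have := le_abs_self C4
    have := abs_nonneg C1
    have := abs_nonneg C2
    have := abs_nonneg C3
    have := abs_nonneg C4
    constructor <;> linarith
  obtain ⟨C1, h1⟩ := key 1
  obtain ⟨C2, h2⟩ := key Complex.I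
  have hp0 : (0 : ℝ) < p := by exact_mod_cast NeZero.pos p
  have hp1 : (1 : ℝ) ≤ p := by exact_mod_cast NeZero.pos p
  have hlt : ∀ᶠ s : ℝ in 𝓝[>] 1, s < 2 :=
    Filter.Eventually.filter_mono nhdsWithin_le_nhds (gt_mem_nhds one_lt_two)
  refine ⟨(|C1| + |C2|) * (p : ℝ) ^ (2 : ℝ), by positivity, ?_⟩
  filter_upwards [h1, h2, self_mem_nhdsWithin, hlt] with s e1 e2 hs hs2
  have hs' : (1 : ℝ) < s := hs
  set X := CR (lm f) (fun n => lm g (p * n)) (s : ℂ) -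
        conj (χ (p : ZMod N)) * CR (fun n => lm f (p * n)) (lm g) (s : ℂ) with hX
  have e3 : CR (lm (upn p f)) (lm g) (s : ℂ) -
        conj (χ (p : ZMod N)) * CR (lm f) (lm (upn p g)) (s : ℂ) =
      ((Real.sqrt p : ℝ) : ℂ) * (p : ℂ) ^ (-(s : ℂ)) * X := by
    rw [CR_upn_left, CR_upn_right, hX]
    ring
  rw [e3] at e1 e2
  set Y := ((Real.sqrt p : ℝ) : ℂ) * (p : ℂ) ^ (-(s : ℂ)) * X with hY
  rw [map_one, one_mul] at e1
  have e4 : (conj Complex.I * Y).re = Y.im := by simp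
  rw [e4] at e2
  have hYn : ‖Y‖ ≤ |C1| + |C2| := by
    refine (Complex.norm_le_abs_re_add_abs_im Y).trans ?_
    linarith [le_abs_self C1, le_abs_self C2]
  have hsq : (1 : ℝ) ≤ Real.sqrt p := Real.one_le_sqrt.2 hp1
  have hYX : ‖Y‖ = Real.sqrt p * (p : ℝ) ^ (-s) * ‖X‖ := by
    rw [hY, norm_mul, norm_mul, Complex.norm_real, Real.norm_of_nonneg (Real.sqrt_nonneg _),
      Complex.norm_natCast_cpow_of_pos (NeZero.pos p)]
    simp
  have h6 : (1 : ℝ) ≤ (p : ℝ) ^ (-s) * (p : ℝ) ^ (2 : ℝ) := by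
    rw [← Real.rpow_add hp0]
    exact Real.one_le_rpow hp1 (by linarith)
  have hx0 := norm_nonneg X
  have h7 : ‖X‖ ≤ ‖Y‖ * (p : ℝ) ^ (2 : ℝ) := by
    rw [hYX]
    have h8 : ‖X‖ * 1 ≤ ‖X‖ * ((p : ℝ) ^ (-s) * (p : ℝ) ^ (2 : ℝ)) :=
      mul_le_mul_of_nonneg_left h6 hx0
    have h9 : 0 ≤ ‖X‖ * ((p : ℝ) ^ (-s) * (p : ℝ) ^ (2 : ℝ)) := by positivity
    have h10 : ‖X‖ * ((p : ℝ) ^ (-s) * (p : ℝ) ^ (2 : ℝ)) * 1 ≤
        ‖X‖ * ((p : ℝ) ^ (-s) * (p : ℝ) ^ (2 : ℝ)) * Real.sqrt p :=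
      mul_le_mul_of_nonneg_left hsq h9
    calc ‖X‖ = ‖X‖ * 1 := (mul_one _).symm
      _ ≤ ‖X‖ * ((p : ℝ) ^ (-s) * (p : ℝ) ^ (2 : ℝ)) := h8
      _ ≤ ‖X‖ * ((p : ℝ) ^ (-s) * (p : ℝ) ^ (2 : ℝ)) * Real.sqrt p := by linarith
      _ = _ := by ring
  exact h7.trans (mul_le_mul_of_nonneg_right hYn (by positivity))

end

end Run7.h186.NT
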