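import Pool.Agent.Run7.h186.NT7

/-! The strip integral of a product of two different forms. -/

set_option autoImplicit false
set_option linter.unusedSectionVars false

namespace Run7.h186.NT

open MeasureTheory Filter Topology UpperHalfPlane CongruenceSubgroup Complex
open scoped ENNReal MatrixGroups ModularForm Pointwise ComplexConjugate
open Pool.Agent.W165.RS (ee norm_ee ee_mul conj_ee continuous_ee integral_ee SS measurableSet_SS
  lintegral_coords extend_apply')

noncomputable section

/-- Parseval for two series -/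
theorem parseval2 {c d : ℕ → ℂ} (hc : Summable fun n => ‖c n‖) (hd : Summable fun n => ‖d n‖) :
    HasSum (fun n => c n * conj (d n))
      (∫ x in (0:ℝ)..1, (∑' n, c n * ee n x) * conj (∑' n, d n * ee n x)) := by
  set g : ℝ → ℂ := fun x => ∑' n, d n * ee n x with hg
  have hcont : ∀ {c : ℕ → ℂ}, (Summable fun n => ‖c n‖) →
      Continuous fun x : ℝ => ∑' n : ℕ, c n * ee n x := by
    intro c hc
    refine continuous_tsum (fun n => (continuous_const.mul (continuous_ee n))) hc ?_
    intro n x
    rw [norm_mul, norm_ee, mul_one]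
  have hsum : ∀ {c : ℕ → ℂ}, (Summable fun n => ‖c n‖) → ∀ x, Summable (fun n : ℕ => c n * ee n x) := by
    intro c hc x
    refine Summable.of_norm ?_
    simpa [norm_mul, norm_ee] using hc
  have hterm : ∀ (c : ℕ → ℂ), (Summable fun n => ‖c n‖) → ∀ (h : ℝ → ℂ) (M : ℝ), Continuous h →
      (∀ x, ‖h x‖ ≤ M) → HasSum (fun n : ℕ => ∫ x in (0:ℝ)..1, (c n * ee n x) * h x)
        (∫ x in (0:ℝ)..1, (∑' n : ℕ, c n * ee n x) * h x) := by
    intro c hc h M hh hb
    refine intervalIntegral.hasSum_integral_of_dominated_convergence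
      (fun n _ => ‖c n‖ * M) ?_ ?_ ?_ ?_ ?_
    · intro n
      exact ((continuous_const.mul (continuous_ee n)).mul hh).aestronglyMeasurable
    · intro n
      refine Eventually.of_forall fun x _ => ?_
      rw [norm_mul, norm_mul, norm_ee, mul_one]
      gcongr
      exact hb x
    · exact Eventually.of_forall fun x _ => hc.mul_right _
    · exact intervalIntegrable_const
    · refine Eventually.of_forall fun x _ => ?_
      exact (hsum hc x).hasSum.mul_right (h x)
  have hgc : Continuous g := hcont hd
  have hgb : ∀ x, ‖g x‖ ≤ ∑' n, ‖d n‖ := by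
    intro x
    refine (norm_tsum_le_tsum_norm ?_).trans (le_of_eq ?_)
    · simpa [norm_mul, norm_ee] using hd
    · refine tsum_congr fun n => ?_
      rw [norm_mul, norm_ee, mul_one]
  have hcoef : ∀ m : ℕ, ∫ x in (0:ℝ)..1, g x * ee (-m) x = d m := by
    intro m
    have h1 := hterm d hd (ee (-m)) 1 (continuous_ee _) (fun x => (norm_ee _ x).le)
    have h2 : ∀ n : ℕ, ∫ x in (0:ℝ)..1, (d n * ee n x) * ee (-m) x =
        if n = m then d m else 0 := by
      intro n
      simp_rw [mul_assoc, ee_mul]
      rw [intervalIntegral.integral_const_mul, integral_ee]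
      by_cases h : n = m
      · subst h; simp
      · rw [if_neg h, if_neg (by omega), mul_zero]
    simp_rw [h2] at h1
    rw [← h1.tsum_eq, tsum_ite_eq]
  have h3 := hterm c hc (fun x => conj (g x)) _ (Complex.continuous_conj.comp hgc)
    (fun x => by rw [Complex.norm_conj]; exact hgb x)
  have h4 : ∀ n : ℕ, ∫ x in (0:ℝ)..1, (c n * ee n x) * conj (g x) = c n * conj (d n) := by
    intro n
    simp_rw [mul_assoc]
    rw [intervalIntegral.integral_const_mul]
    have h5 : ∫ x in (0:ℝ)..1, ee n x * conj (g x) = conj (d n) := by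
      rw [← hcoef n, ← intervalIntegral.intervalIntegral_conj]
      refine intervalIntegral.integral_congr fun x _ => ?_
      beta_reduce
      rw [map_mul, conj_ee, mul_comm]
      simp
    rw [h5]
  simp_rw [h4] at h3
  exact h3

section
variable {N M k l : ℕ} [NeZero N] [NeZero M] (f : S1 N k) (g : S1 M l)

/-- the integral over a horocycle -/
theorem horo2 {y : ℝ} (hy : 0 < y) :
    HasSum (fun n : ℕ => aq f n * conj (aq g n) * ((Real.exp (-(4 * Real.pi * n * y)) : ℝ) : ℂ))
      (∫ x in Set.Ico (0:ℝ) 1, f ⟨x + y * Complex.I, by simpa using hy⟩ *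
        conj (g ⟨x + y * Complex.I, by simpa using hy⟩)) := by
  have hp := parseval2 (summable_f f hy) (summable_f g hy)
  have e1 : ∀ x : ℝ, f ⟨x + y * Complex.I, by simpa using hy⟩ =
      ∑' n : ℕ, (aq f n * ((Real.exp (-(2 * Real.pi * n * y)) : ℝ) : ℂ)) * ee n x :=
    fun x => (hasSum_f f x hy).tsum_eq.symm
  have e2 : ∀ x : ℝ, g ⟨x + y * Complex.I, by simpa using hy⟩ =
      ∑' n : ℕ, (aq g n * ((Real.exp (-(2 * Real.pi * n * y)) : ℝ) : ℂ)) * ee n x :=
    fun x => (hasSum_f g x hy).tsum_eq.symm
  simp_rw [e1, e2]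
  rw [integral_Ico_eq_integral_Ioc, ← intervalIntegral.integral_of_le zero_le_one]
  refine hp.congr_fun fun n => ?_
  rw [map_mul, Complex.conj_ofReal]
  have e3 : ((Real.exp (-(4 * Real.pi * n * y)) : ℝ) : ℂ) =
      ((Real.exp (-(2 * Real.pi * n * y)) : ℝ) : ℂ) * ((Real.exp (-(2 * Real.pi * n * y)) : ℝ) : ℂ) := by
    rw [← Complex.ofReal_mul, ← Real.exp_add]
    congr 2
    ring
  rw [e3]
  ring

end

/-- the measure in coordinates -/
theorem map_coords : (volume : Measure ℍ).map (fun z : ℍ => (z.im, z.re)) =
    ((volume.restrict (Set.Ioi (0:ℝ))).prod (volume : Measure ℝ)).withDensity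
      fun q : ℝ × ℝ => ENNReal.ofReal ((1 / q.1) ^ 2) := by
  have him : Measurable (fun z : ℍ => z.im) := continuous_im.measurable
  have hre : Measurable (fun z : ℍ => z.re) := continuous_re.measurable
  have hd : Measurable fun q : ℝ × ℝ => ENNReal.ofReal ((1 / q.1) ^ 2) :=
    ENNReal.measurable_ofReal.comp ((measurable_const.div measurable_fst).pow_const 2)
  refine Measure.ext_of_lintegral _ fun F hF => ?_
  rw [lintegral_map hF (him.prodMk hre), lintegral_withDensity_eq_lintegral_mul _ hd hF,
    lintegral_prod _ (hd.mul hF).aemeasurable]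
  have h1 := lintegral_coords (fun w : ℂ => F (w.im, w.re))
    (hF.comp (Complex.measurable_im.prodMk Complex.measurable_re))
  have e1 : ∫⁻ z : ℍ, F (z.im, z.re) = ∫⁻ z : ℍ, (fun w : ℂ => F (w.im, w.re)) z := by
    refine lintegral_congr fun z => ?_
    rfl
  rw [e1, h1]
  refine lintegral_congr fun y => lintegral_congr fun x => ?_
  simp only [Pi.mul_apply]
  rw [mul_comm]
  congr 2
  simp

theorem coe_eq (z : ℍ) : ((z.re : ℂ) + z.im * Complex.I) = z := by
  apply Complex.ext <;> simp

/-- integrals in coordinates -/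
theorem integral_coords {K : ℍ → ℂ} (hm : Measurable K) (hi : Integrable K) :
    ∫ z, K z = ∫ y in Set.Ioi (0:ℝ), ∫ x : ℝ, (((1 / y) ^ 2 : ℝ) : ℂ) *
      Function.extend UpperHalfPlane.coe K 0 (x + y * Complex.I) := by
  have him : Measurable (fun z : ℍ => z.im) := continuous_im.measurable
  have hre : Measurable (fun z : ℍ => z.re) := continuous_re.measurable
  have hd : Measurable fun q : ℝ × ℝ => ENNReal.ofReal ((1 / q.1) ^ 2) :=
    ENNReal.measurable_ofReal.comp ((measurable_const.div measurable_fst).pow_const 2)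
  set κ : ℝ × ℝ → ℂ := fun q => Function.extend UpperHalfPlane.coe K 0 (q.2 + q.1 * Complex.I)
    with hκ
  have hκm : Measurable κ := by
    have h1 : Measurable (Function.extend UpperHalfPlane.coe K (0 : ℂ → ℂ)) :=
      measurableEmbedding_coe.measurable_extend hm measurable_const
    refine h1.comp ?_
    exact (Complex.measurable_ofReal.comp measurable_snd).add
      ((Complex.measurable_ofReal.comp measurable_fst).mul_const _)
  have hK : ∀ z : ℍ, κ (z.im, z.re) = K z := by
    intro z
    rw [hκ]
    simp only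
    rw [coe_eq, measurableEmbedding_coe.injective.extend_apply]
  have h1 : ∫ z, K z = ∫ q, κ q ∂((volume : Measure ℍ).map (fun z : ℍ => (z.im, z.re))) := by
    rw [integral_map (him.prodMk hre).aemeasurable hκm.aestronglyMeasurable]
    exact integral_congr_ae (Eventually.of_forall fun z => (hK z).symm)
  have hi2 : Integrable κ ((volume : Measure ℍ).map (fun z : ℍ => (z.im, z.re))) := by
    rw [integrable_map_measure hκm.aestronglyMeasurable (him.prodMk hre).aemeasurable]
    exact hi.congr (Eventually.of_forall fun z => (hK z).symm)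
  rw [map_coords] at h1 hi2
  have hfin : ∀ᵐ q : ℝ × ℝ ∂((volume.restrict (Set.Ioi (0:ℝ))).prod (volume : Measure ℝ)),
      ENNReal.ofReal ((1 / q.1) ^ 2) < ∞ := Eventually.of_forall fun q => ENNReal.ofReal_lt_top
  rw [integrable_withDensity_iff_integrable_smul' hd hfin] at hi2
  rw [h1, integral_withDensity_eq_integral_toReal_smul hd hfin, integral_prod _ hi2]
  refine integral_congr_ae (Eventually.of_forall fun y => ?_)
  refine integral_congr_ae (Eventually.of_forall fun x => ?_)
  simp only
  rw [ENNReal.toReal_ofReal (by positivity), Complex.real_smul]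

end

end Run7.h186.NT
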