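import Pool.Agent.Run7.h186.NT9
import Pool.Agent.Y149.CR.Dir

/-! The strip integral of a product of two different forms: evaluation. -/

set_option autoImplicit false
set_option linter.unusedSectionVars false

namespace Run7.h186.NT

open MeasureTheory Filter Topology UpperHalfPlane CongruenceSubgroup Complex
open scoped ENNReal MatrixGroups ModularForm Pointwise ComplexConjugate
open Pool.Agent.W165.RS (ee norm_ee ee_mul conj_ee continuous_ee integral_ee SS measurableSet_SS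
  lintegral_coords extend_apply')
open Pool.Agent.Y149.CR (cpow_exp)

noncomputable section

variable {N M k l : ℕ} [NeZero N] [NeZero M] (f : S1 N k) (g : S1 M l)

/-- the function on the strip -/
def Hs (s : ℂ) (z : ℍ) : ℂ := f z * conj (g z) * ((z.im : ℝ) : ℂ) ^ (s + ((k : ℂ) + l) / 2)

/-- the exponent -/
def sp (k l : ℕ) (s : ℂ) : ℂ := s + ((k : ℂ) + l) / 2 - 1

theorem sp_re (k l : ℕ) (s : ℂ) : (sp k l s).re = s.re + ((k : ℝ) + l) / 2 - 1 := by
  unfold sp
  simp

theorem Hs_meas (s : ℂ) : Measurable (Hs f g s) := by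
  have hf : Measurable (f : ℍ → ℂ) := (ModularFormClass.continuous f).measurable
  have hg : Measurable (g : ℍ → ℂ) := (ModularFormClass.continuous g).measurable
  have him : Measurable (fun z : ℍ => z.im) := continuous_im.measurable
  exact (hf.mul (Complex.continuous_conj.measurable.comp hg)).mul
    ((Complex.measurable_ofReal.comp him).pow_const _)

theorem norm_Hs (s : ℂ) (z : ℍ) : ‖Hs f g s z‖ ≤ ‖f z‖ ^ 2 * z.im ^ k * z.im ^ s.re +
    ‖g z‖ ^ 2 * z.im ^ l * z.im ^ s.re := by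
  have hy := z.im_pos
  unfold Hs
  rw [norm_mul, norm_mul, Complex.norm_conj, Complex.norm_cpow_eq_rpow_re_of_pos hy]
  have e1 : (s + ((k : ℂ) + l) / 2).re = s.re + ((k : ℝ) / 2 + (l : ℝ) / 2) := by
    simp
    ring
  have e2 : ∀ j : ℕ, (z.im ^ ((j : ℝ) / 2)) ^ 2 = z.im ^ j := by
    intro j
    rw [← Real.rpow_natCast, ← Real.rpow_mul hy.le, ← Real.rpow_natCast z.im j]
    congr 1
    push_cast
    ring
  rw [e1, Real.rpow_add hy, Real.rpow_add hy, ← e2 k, ← e2 l]
  have h1 : 0 ≤ z.im ^ s.re := by positivity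
  have h2 : 0 ≤ z.im ^ ((k : ℝ) / 2) := by positivity
  have h3 : 0 ≤ z.im ^ ((l : ℝ) / 2) := by positivity
  have h4 := norm_nonneg (f z)
  have h5 := norm_nonneg (g z)
  have h6 : ‖f z‖ * z.im ^ ((k : ℝ) / 2) * (‖g z‖ * z.im ^ ((l : ℝ) / 2)) ≤
      (‖f z‖ * z.im ^ ((k : ℝ) / 2)) ^ 2 + (‖g z‖ * z.im ^ ((l : ℝ) / 2)) ^ 2 := by
    nlinarith [sq_nonneg (‖f z‖ * z.im ^ ((k : ℝ) / 2) - ‖g z‖ * z.im ^ ((l : ℝ) / 2)),
      sq_nonneg (‖f z‖ * z.im ^ ((k : ℝ) / 2)), sq_nonneg (‖g z‖ * z.im ^ ((l : ℝ) / 2))]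
  have h7 := mul_le_mul_of_nonneg_right h6 h1
  calc _ = ‖f z‖ * z.im ^ ((k : ℝ) / 2) * (‖g z‖ * z.im ^ ((l : ℝ) / 2)) * z.im ^ s.re := by ring
    _ ≤ _ := h7
    _ = _ := by ring

theorem enorm_Hs (s : ℂ) (z : ℍ) : ‖Hs f g s z‖ₑ ≤ FF f z * ENNReal.ofReal (z.im ^ s.re) +
    FF g z * ENNReal.ofReal (z.im ^ s.re) := by
  have hy := z.im_pos
  unfold FF
  rw [← ENNReal.ofReal_mul (by positivity), ← ENNReal.ofReal_mul (by positivity),
    ← ENNReal.ofReal_add (by positivity) (by positivity), ← ofReal_norm]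
  exact ENNReal.ofReal_le_ofReal (norm_Hs f g s z)

theorem lint_Hs (hk : 0 < k) (hl : 0 < l) (sf : Sm f) (sg : Sm g) {s : ℂ} (hs : 1 < s.re) :
    ∫⁻ z in SS, ‖Hs f g s z‖ₑ ≠ ∞ := by
  have him : Measurable (fun z : ℍ => z.im) := continuous_im.measurable
  refine ne_top_of_le_ne_top ?_ (lintegral_mono fun z => enorm_Hs f g s z)
  have hm : Measurable fun z : ℍ => FF f z * ENNReal.ofReal (z.im ^ s.re) :=
    (FF_meas f).mul (ENNReal.measurable_ofReal.comp (him.pow_const _))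
  rw [lintegral_add_left hm, strip_SD sf hk hs, strip_SD sg hl hs]
  exact ENNReal.add_ne_top.2 ⟨ENNReal.ofReal_ne_top, ENNReal.ofReal_ne_top⟩

/-- one term of the series under the integral -/
def pt2 (s : ℂ) (n : ℕ) (y : ℝ) : ℂ :=
  aq f n * conj (aq g n) * ((Real.exp (-(4 * Real.pi * n * y)) : ℝ) : ℂ) *
    (y : ℂ) ^ (sp k l s - 1)

theorem inner_eq (s : ℂ) {y : ℝ} (hy : 0 < y) :
    ∫ x : ℝ, (((1 / y) ^ 2 : ℝ) : ℂ) *
      Function.extend UpperHalfPlane.coe (SS.indicator (Hs f g s)) 0 (x + y * Complex.I) =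
    ∑' n : ℕ, pt2 f g s n y := by
  have e1 : ∀ x : ℝ, (((1 / y) ^ 2 : ℝ) : ℂ) *
      Function.extend UpperHalfPlane.coe (SS.indicator (Hs f g s)) 0 (x + y * Complex.I) =
      (Set.Ico (0:ℝ) 1).indicator (fun x : ℝ =>
        f ⟨x + y * Complex.I, by simpa using hy⟩ * conj (g ⟨x + y * Complex.I, by simpa using hy⟩) *
          (y : ℂ) ^ (sp k l s - 1)) x := by
    intro x
    have e0 : Function.extend UpperHalfPlane.coe (SS.indicator (Hs f g s)) 0 (x + y * Complex.I) =
        SS.indicator (Hs f g s) ⟨x + y * Complex.I, by simpa using hy⟩ :=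
      measurableEmbedding_coe.injective.extend_apply _ _ ⟨x + y * Complex.I, by simpa using hy⟩
    rw [e0]
    by_cases hx : x ∈ Set.Ico (0:ℝ) 1
    · rw [Set.indicator_of_mem hx, Set.indicator_of_mem]
      · unfold Hs
        have e2 : (⟨x + y * Complex.I, by simpa using hy⟩ : ℍ).im = y := by
          simp [UpperHalfPlane.im]
        rw [e2]
        have hyc : (y : ℂ) ≠ 0 := by exact_mod_cast hy.ne'
        have e3 : (y : ℂ) ^ (sp k l s - 1) = (((1 / y) ^ 2 : ℝ) : ℂ) *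
            (y : ℂ) ^ (s + ((k : ℂ) + l) / 2) := by
          have e4 : sp k l s - 1 = (s + ((k : ℂ) + l) / 2) - 2 := by unfold sp; ring
          rw [e4, Complex.cpow_sub _ _ hyc]
          have e5 : (y : ℂ) ^ (2 : ℂ) = (y : ℂ) ^ 2 := by
            rw [← Complex.cpow_natCast]
            norm_num
          rw [e5]
          push_cast
          field_simp
        rw [e3]
        ring
      · have e3 : (⟨x + y * Complex.I, by simpa using hy⟩ : ℍ).re = x := by
          simp [UpperHalfPlane.re]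
        show 0 ≤ _ ∧ _ < 1
        rw [e3]; exact hx
    · rw [Set.indicator_of_notMem hx, Set.indicator_of_notMem, mul_zero]
      intro h
      have e3 : (⟨x + y * Complex.I, by simpa using hy⟩ : ℍ).re = x := by
          simp [UpperHalfPlane.re]
      have h' : 0 ≤ (⟨x + y * Complex.I, by simpa using hy⟩ : ℍ).re ∧
        (⟨x + y * Complex.I, by simpa using hy⟩ : ℍ).re < 1 := h
      rw [e3] at h'
      exact hx h'
  simp_rw [e1]
  rw [integral_indicator measurableSet_Ico, integral_mul_const, ← (horo2 f g hy).tsum_eq,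
    ← tsum_mul_right]
  rfl

theorem pt2_zero (s : ℂ) (y : ℝ) : pt2 f g s 0 y = 0 := by
  unfold pt2
  rw [aq_zero]
  simp

/-- the real integrand -/
theorem norm_pt2 (s : ℂ) (n : ℕ) {y : ℝ} (hy : 0 < y) : ‖pt2 f g s n y‖ =
    ‖aq f n‖ * ‖aq g n‖ * (y ^ ((sp k l s).re - 1) * Real.exp (-(4 * Real.pi * n * y))) := by
  unfold pt2
  rw [norm_mul, norm_mul, norm_mul, Complex.norm_conj, Complex.norm_real,
    Real.norm_of_nonneg (Real.exp_pos _).le, Complex.norm_cpow_eq_rpow_re_of_pos hy]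
  simp only [Complex.sub_re, Complex.one_re]
  ring

theorem term2 (s : ℂ) {n : ℕ} (hn : 0 < n) :
    aq f n * conj (aq g n) * ((1 / ((4 * Real.pi * n : ℝ) : ℂ)) ^ (sp k l s) *
      Complex.Gamma (sp k l s)) =
    ((4 * Real.pi : ℝ) : ℂ) ^ (-(sp k l s)) * Complex.Gamma (sp k l s) *
      (lm f n * conj (lm g n) * (n : ℂ) ^ (-s)) := by
  have hn' : (0 : ℝ) < n := by exact_mod_cast hn
  have hpi := Real.pi_pos
  have h4 : (0 : ℝ) < 4 * Real.pi := by positivity
  have hr : (0 : ℝ) < 4 * Real.pi * n := by positivity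
  have e1 : (1 / ((4 * Real.pi * n : ℝ) : ℂ)) ^ (sp k l s) =
      ((4 * Real.pi : ℝ) : ℂ) ^ (-(sp k l s)) * ((n : ℝ) : ℂ) ^ (-(sp k l s)) := by
    rw [← Complex.mul_cpow_ofReal_nonneg h4.le hn'.le, ← Complex.ofReal_mul, one_div,
      ← Complex.ofReal_inv, cpow_exp (inv_pos.2 hr), cpow_exp hr, Real.log_inv]
    congr 1
    push_cast
    ring
  have e2 : ((n : ℝ) : ℂ) ^ (-(sp k l s)) = ((((n : ℝ) ^ (-(((k : ℝ) - 1) / 2)) : ℝ)) : ℂ) *
      ((((n : ℝ) ^ (-(((l : ℝ) - 1) / 2)) : ℝ)) : ℂ) * (n : ℂ) ^ (-s) := by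
    have hnc : ((n : ℝ) : ℂ) ≠ 0 := by exact_mod_cast hn'.ne'
    rw [Complex.ofReal_cpow hn'.le, Complex.ofReal_cpow hn'.le, Complex.ofReal_natCast,
      ← Complex.cpow_add _ _ (by exact_mod_cast hn'.ne'), ← Complex.cpow_add _ _
        (by exact_mod_cast hn'.ne')]
    congr 1
    unfold sp
    push_cast
    ring
  unfold lm
  rw [e1, e2, map_mul, Complex.conj_ofReal]
  ring

theorem pt2_int (hk : 0 < k) (hl : 0 < l) {s : ℂ} (hs : 1 < s.re) {n : ℕ} (hn : 0 < n) :
    IntegrableOn (pt2 f g s n) (Set.Ioi 0) ∧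
    (∫ y in Set.Ioi (0 : ℝ), pt2 f g s n y =
      ((4 * Real.pi : ℝ) : ℂ) ^ (-(sp k l s)) * Complex.Gamma (sp k l s) *
      (lm f n * conj (lm g n) * (n : ℂ) ^ (-s))) := by
  have hn' : (0 : ℝ) < n := by exact_mod_cast hn
  have hk' : (1 : ℝ) ≤ k := by exact_mod_cast hk
  have hl' : (1 : ℝ) ≤ l := by exact_mod_cast hl
  have hσ : 0 < (sp k l s).re := by rw [sp_re]; linarith
  set r : ℝ := 4 * Real.pi * n with hr
  have hr0 : 0 < r := by positivity
  have e1 : ∀ y ∈ Set.Ioi (0 : ℝ), pt2 f g s n y = aq f n * conj (aq g n) *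
      ((y : ℂ) ^ (sp k l s - 1) * Complex.exp (-((r : ℂ) * y))) := by
    intro y hy
    unfold pt2
    rw [hr]
    push_cast
    ring
  have hval := Complex.integral_cpow_mul_exp_neg_mul_Ioi (a := sp k l s) (r := r) hσ hr0
  have hint : IntegrableOn (fun t : ℝ => (t : ℂ) ^ (sp k l s - 1) * Complex.exp (-((r : ℂ) * t)))
      (Set.Ioi 0) := by
    by_contra hcon
    rw [integral_undef hcon] at hval
    have h1 : (1 / (r : ℂ)) ^ (sp k l s) * Complex.Gamma (sp k l s) ≠ 0 := by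
      refine mul_ne_zero ?_ (Complex.Gamma_ne_zero_of_re_pos hσ)
      rw [Ne, Complex.cpow_eq_zero_iff]
      intro h
      have : (1 / (r : ℂ)) ≠ 0 := by
        rw [one_div]
        exact inv_ne_zero (by exact_mod_cast hr0.ne')
      exact this h.1
    exact h1 hval.symm
  constructor
  · refine (integrableOn_congr_fun e1 measurableSet_Ioi).2 ?_
    exact hint.const_mul _
  · rw [setIntegral_congr_fun measurableSet_Ioi e1, integral_const_mul, hval, ← term2 f g s hn]

theorem pt2_norm (hk : 0 < k) (hl : 0 < l) {s : ℂ} (hs : 1 < s.re) {n : ℕ} (hn : 0 < n) :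
    ∫ y in Set.Ioi (0 : ℝ), ‖pt2 f g s n y‖ =
      (4 * Real.pi) ^ (-(sp k l s).re) * Real.Gamma (sp k l s).re *
      ‖lm f n * conj (lm g n) * (n : ℂ) ^ (-s)‖ := by
  have hn' : (0 : ℝ) < n := by exact_mod_cast hn
  have hk' : (1 : ℝ) ≤ k := by exact_mod_cast hk
  have hl' : (1 : ℝ) ≤ l := by exact_mod_cast hl
  have hσ : 0 < (sp k l s).re := by rw [sp_re]; linarith
  have hpi := Real.pi_pos
  have hr : 0 < 4 * Real.pi * n := by positivity
  rw [setIntegral_congr_fun measurableSet_Ioi (fun y hy => norm_pt2 f g s n hy),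
    integral_const_mul, Real.integral_rpow_mul_exp_neg_mul_Ioi hσ hr]
  have hre : s.re ≠ 0 := by linarith
  unfold lm
  rw [norm_mul, norm_mul, norm_mul, map_mul, norm_mul, Complex.norm_conj, Complex.conj_ofReal,
    Complex.norm_real, Complex.norm_real, Real.norm_of_nonneg (by positivity),
    Real.norm_of_nonneg (by positivity), norm_ncpow n hre, one_div,
    Real.inv_rpow (by positivity), ← Real.rpow_neg (by positivity),
    Real.mul_rpow (by positivity) (by positivity)]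
  have e2 : (n : ℝ) ^ (-(sp k l s).re) = (n : ℝ) ^ (-(((k : ℝ) - 1) / 2)) *
      (n : ℝ) ^ (-(((l : ℝ) - 1) / 2)) * (n : ℝ) ^ (-s.re) := by
    rw [← Real.rpow_add hn', ← Real.rpow_add hn', sp_re]
    congr 1
    ring
  rw [e2]
  ring

/-- **The strip integral.** -/
theorem strip2 (hk : 0 < k) (hl : 0 < l) (sf : Sm f) (sg : Sm g) {s : ℂ} (hs : 1 < s.re) :
    ∫ z in SS, Hs f g s z = ((4 * Real.pi : ℝ) : ℂ) ^ (-(sp k l s)) * Complex.Gamma (sp k l s) *
      CR (lm f) (lm g) s := by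
  have hfin := lint_Hs f g hk hl sf sg hs
  have hint : IntegrableOn (Hs f g s) SS :=
    ⟨(Hs_meas f g s).aestronglyMeasurable, lt_of_le_of_ne le_top hfin⟩
  have hint2 : Integrable (SS.indicator (Hs f g s)) := by
    rw [integrable_indicator_iff measurableSet_SS]
    exact hint
  rw [← integral_indicator measurableSet_SS,
    integral_coords ((Hs_meas f g s).indicator measurableSet_SS) hint2,
    setIntegral_congr_fun measurableSet_Ioi (fun y hy => inner_eq f g s hy)]
  have hre : s.re ≠ 0 := by linarith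
  have hsum := CR_summable hre (Sq_of sf hs) (Sq_of sg hs)
  have h1 : ∀ n : ℕ, Integrable (pt2 f g s n) (volume.restrict (Set.Ioi (0 : ℝ))) := by
    intro n
    rcases Nat.eq_zero_or_pos n with rfl | hn
    · have : pt2 f g s 0 = fun _ => 0 := funext fun y => pt2_zero f g s y
      rw [this]
      exact integrable_zero _ _ _
    · exact (pt2_int f g hk hl hs hn).1
  have h2 : ∀ n : ℕ, ∫ y in Set.Ioi (0 : ℝ), ‖pt2 f g s n y‖ =
      (4 * Real.pi) ^ (-(sp k l s).re) * Real.Gamma (sp k l s).re *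
      ‖lm f n * conj (lm g n) * (n : ℂ) ^ (-s)‖ := by
    intro n
    rcases Nat.eq_zero_or_pos n with rfl | hn
    · simp_rw [pt2_zero]
      rw [lm_zero]
      simp
    · exact pt2_norm f g hk hl hs hn
  have h3 : ∀ n : ℕ, ∫ y in Set.Ioi (0 : ℝ), pt2 f g s n y =
      ((4 * Real.pi : ℝ) : ℂ) ^ (-(sp k l s)) * Complex.Gamma (sp k l s) *
      (lm f n * conj (lm g n) * (n : ℂ) ^ (-s)) := by
    intro n
    rcases Nat.eq_zero_or_pos n with rfl | hn
    · simp_rw [pt2_zero]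
      rw [lm_zero]
      simp
    · exact (pt2_int f g hk hl hs hn).2
  have h4 := hasSum_integral_of_summable_integral_norm h1 (by
    simp_rw [h2]
    exact hsum.mul_left _)
  rw [← h4.tsum_eq]
  simp_rw [h3]
  rw [tsum_mul_left]
  rfl

end

end Run7.h186.NT
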