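import Mathlib.NumberTheory.ModularForms.QExpansion
import Mathlib.NumberTheory.DirichletCharacter.Basic

/-!
# Holomorphic eigenforms of any weight, level and character: definitions

In contrast to `Pool.Agent.Run7.h186.NTDefs` the Ramanujan-Petersson bound (Deligne's theorem) is not
part of the definition of an eigenform.
-/

set_option autoImplicit false

namespace Run7.h186.NU

open Filter Topology Polynomial UpperHalfPlane CongruenceSubgroup
open scoped MatrixGroups ModularForm

/-- A holomorphic cusp form `f = ∑ a_n q^n` of weight `k ≥ 1` on `Γ₁(N)` with nebentypus `χ`, `k = weight`,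
`N = level`, `χ = chi`, which is a normalised eigenform of all Hecke operators `T_n`, for example any
newform. -/
structure Eigenform where
  level : ℕ
  weight : ℕ
  chi : DirichletCharacter ℂ level
  form : CuspForm (Gamma1 level : Subgroup (GL (Fin 2) ℝ)) (weight : ℤ)
  level_pos : 0 < level
  weight_pos : 0 < weight
  nebentypus : ∀ γ : SL(2, ℤ), γ ∈ Gamma0 level →
    (form : ℍ → ℂ) ∣[(weight : ℤ)] γ = chi ((γ 1 1 : ℤ) : ZMod level) • (form : ℍ → ℂ)
  one : (qExpansion 1 form).coeff 1 = 1
  mul : ∀ m n : ℕ, m.Coprime n →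
    (qExpansion 1 form).coeff (m * n) = (qExpansion 1 form).coeff m * (qExpansion 1 form).coeff n
  pow : ∀ p : ℕ, p.Prime → ∀ j : ℕ, (qExpansion 1 form).coeff (p ^ (j + 2)) =
    (qExpansion 1 form).coeff p * (qExpansion 1 form).coeff (p ^ (j + 1)) -
      chi (p : ZMod level) * (p : ℂ) ^ (weight - 1) * (qExpansion 1 form).coeff (p ^ j)

/-- the Fourier coefficient `a_n` -/
noncomputable def Eigenform.a (f : Eigenform) (n : ℕ) : ℂ := (qExpansion 1 f.form).coeff n

/-- `f` and `f'` have different weights, or different `a_p` or `χ(p)` for some prime `p` which divides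
neither level.  Different newforms satisfy this, by multiplicity one. -/
def Differ (f f' : Eigenform) : Prop :=
  f.weight ≠ f'.weight ∨ ∃ p : ℕ, p.Prime ∧ ¬ p ∣ f.level ∧ ¬ p ∣ f'.level ∧
    (f.a p ≠ f'.a p ∨ f.chi (p : ZMod f.level) ≠ f'.chi (p : ZMod f'.level))

/-- The eigenvalues of Frobenius at `p` on the two-dimensional Galois representation (of weight `k - 1`)
of `f`, `p` a prime not dividing the level: the roots of `X² - a_p X + χ(p) p^{k-1}`. -/
noncomputable def frob (f : Eigenform) (p : ℕ) : Multiset ℂ :=
  (X ^ 2 - C (f.a p) * X + C (f.chi (p : ZMod f.level) * (p : ℂ) ^ (f.weight - 1))).roots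

/-- The conjecture of Ramanujan and Petersson for `f`: the eigenvalues of Frobenius at the primes not
dividing the level have absolute value `p^{(k-1)/2}` (theorems of Deligne and of Deligne and Serre). -/
def Ramanujan (f : Eigenform) : Prop :=
  ∀ p : ℕ, p.Prime → ¬ p ∣ f.level → ∀ z ∈ frob f p, ‖z‖ = (p : ℝ) ^ (((f.weight : ℝ) - 1) / 2)

end Run7.h186.NU
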