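import Pool.Agent.Run7.h186.NT12
import Pool.Agent.Run7.h186.NUDefs

/-! Eigenforms without the Ramanujan-Petersson bound: the Rankin-Selberg series are bounded. -/

set_option autoImplicit false
set_option linter.unusedSectionVars false

namespace Run7.h186.NU

open MeasureTheory Filter Topology UpperHalfPlane CongruenceSubgroup Complex
open scoped ENNReal MatrixGroups ModularForm Pointwise ComplexConjugate
open Run7.h186.ML (pt pt_re)
open Run7.h186.NT (S1 aq lm CR Neb Sm SD gg rs_form half_pow lm_ppow lm_zero gg_eq term_nonneg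
  Neb_restr Sm_restr restr cross_bdd changeLevel_int CR_rel_right CR_rel_left CR_summable Sq Sq_of
  Sq_shift norm_ncpow CR_bdd' CR_symm conj_pt shift0 lm_ne)

noncomputable section

variable {N k : ℕ}

/-- the properties of an eigenform which are used -/
structure Hf [NeZero N] (f : S1 N k) (χ : DirichletCharacter ℂ N) : Prop where
  pos : 0 < k
  neb : Neb χ f
  one : aq f 1 = 1
  mul : ∀ m n : ℕ, m.Coprime n → aq f (m * n) = aq f m * aq f n
  pow : ∀ p : ℕ, p.Prime → ∀ j : ℕ, aq f (p ^ (j + 2)) = aq f p * aq f (p ^ (j + 1)) -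
      χ (p : ZMod N) * (p : ℂ) ^ (k - 1) * aq f (p ^ j)

instance (f : Eigenform) : NeZero f.level := ⟨f.level_pos.ne'⟩

theorem Eigenform.hf (f : Eigenform) : Hf (N := f.level) (k := f.weight) f.form f.chi :=
  ⟨f.weight_pos, f.nebentypus, f.one, f.mul, f.pow⟩

section
variable [NeZero N] {f : S1 N k} {χ : DirichletCharacter ℂ N}

theorem Hf.sm (h : Hf f χ) : Sm f := (rs_form f h.neb h.pos h.one).1

theorem Hf.lm_one (h : Hf f χ) : lm f 1 = 1 := by
  unfold lm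
  rw [h.one]
  simp

theorem Hf.lm_mul (h : Hf f χ) {m n : ℕ} (hmn : m.Coprime n) : lm f (m * n) = lm f m * lm f n := by
  unfold lm
  rw [h.mul m n hmn, Nat.cast_mul, Real.mul_rpow (Nat.cast_nonneg _) (Nat.cast_nonneg _)]
  push_cast
  ring

theorem Hf.lm_pow (h : Hf f χ) {p : ℕ} (hp : p.Prime) (j : ℕ) :
    lm f (p ^ (j + 2)) = lm f p * lm f (p ^ (j + 1)) - χ (p : ZMod N) * lm f (p ^ j) := by
  have e1 := lm_ppow f p 1
  rw [pow_one, pow_one] at e1
  rw [lm_ppow, lm_ppow, lm_ppow, e1, h.pow p hp j]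
  have h2 := half_pow (k := k) hp.pos h.pos
  linear_combination (-(χ (p : ZMod N) * aq f (p ^ j) *
    (((p : ℝ) ^ (-(((k : ℝ) - 1) / 2)) : ℝ) : ℂ) ^ j)) * h2

theorem norm_chi {p : ℕ} (hp : p.Prime) (hN : ¬ p ∣ N) : ‖χ (p : ZMod N)‖ = 1 := by
  have hu : IsUnit ((p : ℕ) : ZMod N) := by
    rw [ZMod.isUnit_iff_coprime]
    exact (Nat.Prime.coprime_iff_not_dvd hp).2 hN
  obtain ⟨u, hu⟩ := hu
  rw [← hu]
  exact χ.unit_norm_eq_one u

theorem chi_zero {p : ℕ} (hp : p.Prime) (h : p ∣ N) : χ (p : ZMod N) = 0 := by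
  refine χ.map_nonunit fun hu => ?_
  rw [ZMod.isUnit_iff_coprime] at hu
  exact (Nat.Prime.coprime_iff_not_dvd hp).1 hu h

/-- the Hecke relation -/
theorem Hf.rel (h : Hf f χ) {p : ℕ} (hp : p.Prime) (m : ℕ) :
    lm f (p * m) = lm f p * lm f m - if p ∣ m then χ (p : ZMod N) * lm f (m / p) else 0 := by
  rcases Nat.eq_zero_or_pos m with rfl | hm
  · simp [lm_zero]
  obtain ⟨j, m', hm', rfl⟩ := Nat.exists_eq_pow_mul_and_not_dvd hm.ne' p hp.ne_one
  have hc : ∀ i : ℕ, Nat.Coprime (p ^ i) m' := fun i =>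
    Nat.Coprime.pow_left i ((Nat.Prime.coprime_iff_not_dvd hp).2 hm')
  rcases Nat.eq_zero_or_pos j with rfl | hj
  · rw [pow_zero, one_mul, if_neg hm', sub_zero]
    have := hc 1
    rw [pow_one] at this
    exact h.lm_mul this
  · obtain ⟨i, rfl⟩ : ∃ i, j = i + 1 := ⟨j - 1, by omega⟩
    have e1 : p * (p ^ (i + 1) * m') = p ^ (i + 2) * m' := by ring
    have e2 : p ^ (i + 1) * m' / p = p ^ i * m' := by
      rw [show p ^ (i + 1) * m' = p * (p ^ i * m') by ring, Nat.mul_div_cancel_left _ hp.pos]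
    rw [e1, if_pos (Dvd.intro (p ^ i * m') (by ring)), e2, h.lm_mul (hc _), h.lm_mul (hc _),
      h.lm_mul (hc _), h.lm_pow hp]
    ring

theorem CR_self (f : S1 N k) (s : ℝ) : CR (lm f) (lm f) (s : ℂ) = ((SD f s : ℝ) : ℂ) := by
  unfold CR SD
  rw [Complex.ofReal_tsum]
  refine tsum_congr fun n => ?_
  rw [gg_eq, Complex.mul_conj, Complex.normSq_eq_norm_sq, Complex.ofReal_mul,
    Complex.ofReal_cpow (Nat.cast_nonneg n)]
  push_cast
  rfl

/-- the relations between the three series -/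
theorem Hf.three {M₁ M₂ l : ℕ} [NeZero M₁] [NeZero M₂] {f : S1 M₁ k} {g : S1 M₂ l}
    {χ : DirichletCharacter ℂ M₁} {ξ : DirichletCharacter ℂ M₂} (hf : Hf f χ) (hg : Hf g ξ)
    {p : ℕ} (hp : p.Prime) (h1 : ¬ p ∣ M₁) (q4 : χ (p : ZMod M₁) = ξ (p : ZMod M₂))
    {s : ℝ} (hs : 1 < s) :
    (conj (lm g p) - conj (χ (p : ZMod M₁)) * lm f p) * CR (lm f) (lm g) (s : ℂ) =
      (1 - (p : ℂ) ^ (-(s : ℂ))) * (CR (lm f) (fun n => lm g (p * n)) (s : ℂ) -
        conj (χ (p : ZMod M₁)) * CR (fun n => lm f (p * n)) (lm g) (s : ℂ)) := by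
  have : NeZero p := ⟨hp.ne_zero⟩
  have hre : ((s : ℂ)).re ≠ 0 := by rw [Complex.ofReal_re]; linarith
  have sf : Sq (lm f) ((s : ℂ)).re := by rw [Complex.ofReal_re]; exact Sq_of hf.sm hs
  have sg : Sq (lm g) ((s : ℂ)).re := by rw [Complex.ofReal_re]; exact Sq_of hg.sm hs
  have e1 := CR_rel_right (a := lm f) (b := lm g) (s := (s : ℂ)) (hg.rel hp)
    (CR_summable hre sf sg) (CR_summable hre sf (Sq_shift sg))
  have e2 := CR_rel_left (a := lm f) (b := lm g) (s := (s : ℂ)) (hf.rel hp)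
    (CR_summable hre sf sg) (CR_summable hre (Sq_shift sf) sg)
  rw [← q4] at e1
  have e4 : conj (χ (p : ZMod M₁)) * χ (p : ZMod M₁) = 1 := by
    rw [mul_comm, Complex.mul_conj, Complex.normSq_eq_norm_sq, norm_chi hp h1]
    norm_num
  set A := CR (lm f) (fun n => lm g (p * n)) (s : ℂ)
  set B := CR (fun n => lm f (p * n)) (lm g) (s : ℂ)
  set D := CR (lm f) (lm g) (s : ℂ)
  set c := χ (p : ZMod M₁)
  set x := (p : ℂ) ^ (-(s : ℂ)) with hx
  linear_combination (-1) * e1 + conj c * e2 - x * A * e4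

theorem norm_one_sub {p : ℕ} (hp : p.Prime) {s : ℝ} (hs : 1 < s) :
    ‖1 - (p : ℂ) ^ (-(s : ℂ))‖ ≤ 2 := by
  have hre : ((s : ℂ)).re ≠ 0 := by rw [Complex.ofReal_re]; linarith
  have hxn : ‖(p : ℂ) ^ (-(s : ℂ))‖ ≤ 1 := by
    have hp1 : (1 : ℝ) ≤ p := by exact_mod_cast hp.one_le
    rw [norm_ncpow p hre, Complex.ofReal_re]
    exact Real.rpow_le_one_of_one_le_of_nonpos hp1 (by linarith)
  refine (norm_sub_le _ _).trans ?_
  rw [norm_one]
  linarith

/-- **The coefficients at the good primes are real up to the character**, from the theorem of Rankin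
and Selberg. -/
theorem Hf.conj_lm (h : Hf f χ) {p : ℕ} (hp : p.Prime) (hN : ¬ p ∣ N) :
    conj (lm f p) = conj (χ (p : ZMod N)) * lm f p := by
  by_contra hne
  have : NeZero p := ⟨hp.ne_zero⟩
  have hco : Nat.Coprime p N := (Nat.Prime.coprime_iff_not_dvd hp).2 hN
  obtain ⟨C, hC0, hC⟩ := cross_bdd h.pos hco h.neb h.neb h.sm h.sm
  obtain ⟨-, c, hc, hlim⟩ := rs_form f h.neb h.pos h.one
  have hd : 0 < ‖conj (lm f p) - conj (χ (p : ZMod N)) * lm f p‖ :=
    norm_pos_iff.2 (sub_ne_zero.2 hne)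
  set d := ‖conj (lm f p) - conj (χ (p : ZMod N)) * lm f p‖ with hdd
  have hb : ∀ᶠ s : ℝ in 𝓝[>] 1, |(s - 1) * SD f s| ≤ (s - 1) * (2 * C / d) := by
    filter_upwards [hC, self_mem_nhdsWithin] with s h1 h2
    have hs : (1 : ℝ) < s := h2
    have h3 := h.three h hp hN rfl hs
    have h4 := congrArg norm h3
    rw [norm_mul, norm_mul, ← hdd, CR_self, Complex.norm_real] at h4
    have h5 : |SD f s| ≤ 2 * C / d := by
      rw [le_div_iff₀ hd, mul_comm]
      rw [Real.norm_eq_abs] at h4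
      rw [h4]
      exact mul_le_mul (norm_one_sub hp hs) h1 (norm_nonneg _) (by norm_num)
    rw [abs_mul, abs_of_pos (sub_pos.2 hs)]
    exact mul_le_mul_of_nonneg_left h5 (sub_pos.2 hs).le
  have h0 : Tendsto (fun s : ℝ => (s - 1) * (2 * C / d)) (𝓝[>] 1) (𝓝 0) := by
    have h1 : Continuous fun s : ℝ => (s - 1) * (2 * C / d) := by fun_prop
    have h2 := h1.tendsto 1
    rw [sub_self, zero_mul] at h2
    exact h2.mono_left nhdsWithin_le_nhds
  have h1 : Tendsto (fun s : ℝ => (s - 1) * SD f s) (𝓝[>] 1) (𝓝 0) :=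
    squeeze_zero_norm' (by simpa only [Real.norm_eq_abs] using hb) h0
  have h2 := tendsto_nhds_unique hlim h1
  exact hc.ne' h2

end

/-- **Same weight and character.** -/
theorem D_bdd {M₁ M₂ : ℕ} [NeZero M₁] [NeZero M₂] {f : S1 M₁ k} {g : S1 M₂ k}
    {χ : DirichletCharacter ℂ M₁} {ξ : DirichletCharacter ℂ M₂} (hf : Hf f χ) (hg : Hf g ξ)
    (hc : DirichletCharacter.changeLevel (dvd_mul_right M₁ M₂) χ =
      DirichletCharacter.changeLevel (dvd_mul_left M₂ M₁) ξ)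
    {p : ℕ} (hp : p.Prime) (h1 : ¬ p ∣ M₁) (h2 : ¬ p ∣ M₂) (hne : lm f p ≠ lm g p) :
    ∃ C : ℝ, ∀ᶠ s : ℝ in 𝓝[>] 1, ‖CR (lm f) (lm g) (s : ℂ)‖ ≤ C := by
  have : NeZero p := ⟨hp.ne_zero⟩
  have hco : Nat.Coprime p (M₁ * M₂) := (Nat.Prime.coprime_iff_not_dvd hp).2 fun h =>
    ((Nat.Prime.dvd_mul hp).1 h).elim h1 h2
  have hu : IsUnit (((p : ℤ)) : ZMod (M₁ * M₂)) := by
    rw [Int.cast_natCast, ZMod.isUnit_iff_coprime]
    exact hco
  have n1 := Neb_restr (M₁ * M₂) (dvd_mul_right _ _) hf.neb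
  have n2 := Neb_restr (M₁ * M₂) (dvd_mul_left _ _) hg.neb
  rw [← hc] at n2
  obtain ⟨C, hC0, hC⟩ := cross_bdd hf.pos hco n1 n2 (Sm_restr _ _ hf.sm) (Sm_restr _ _ hg.sm)
  have q1 : lm (restr (M₁ * M₂) (dvd_mul_right _ _) f) = lm f := rfl
  have q2 : lm (restr (M₁ * M₂) (dvd_mul_left _ _) g) = lm g := rfl
  have q3 : DirichletCharacter.changeLevel (dvd_mul_right M₁ M₂) χ (p : ZMod (M₁ * M₂)) =
      χ (p : ZMod M₁) := by
    have := changeLevel_int (dvd_mul_right M₁ M₂) χ hu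
    simpa using this
  have q4 : χ (p : ZMod M₁) = ξ (p : ZMod M₂) := by
    have := changeLevel_int (dvd_mul_left M₂ M₁) ξ hu
    rw [← hc] at this
    rw [← q3]
    simpa using this
  rw [q1, q2, q3] at hC
  have hd : 0 < ‖lm g p - lm f p‖ := norm_pos_iff.2 (sub_ne_zero.2 hne.symm)
  refine ⟨2 * C / ‖lm g p - lm f p‖, ?_⟩
  filter_upwards [hC, self_mem_nhdsWithin] with s hs hs1
  have hs1' : (1 : ℝ) < s := hs1
  have h3 := hf.three hg hp h1 q4 hs1'
  have e3 := hg.conj_lm hp h2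
  rw [← q4] at e3
  rw [e3, ← mul_sub] at h3
  have h4 := congrArg norm h3
  rw [norm_mul, norm_mul, norm_mul, Complex.norm_conj, norm_chi hp h1, one_mul] at h4
  rw [le_div_iff₀ hd, mul_comm, h4]
  exact mul_le_mul (norm_one_sub hp hs1') hs (norm_nonneg _) (by norm_num)

section
variable {M₁ M₂ l : ℕ} [NeZero M₁] [NeZero M₂] {f : S1 M₁ k} {g : S1 M₂ l}
  {χ : DirichletCharacter ℂ M₁} {ξ : DirichletCharacter ℂ M₂}

theorem bdd_ge (hf : Hf f χ) (hg : Hf g ξ) {κ : ℕ} (hkl : k = l + κ) {τ : ℝ}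
    (h : τ ≠ 0 ∨ κ ≠ 0 ∨ ∃ u : (ZMod (M₁ * M₂))ˣ,
      DirichletCharacter.changeLevel (dvd_mul_right M₁ M₂) χ u ≠
      DirichletCharacter.changeLevel (dvd_mul_left M₂ M₁) ξ u) :
    ∃ C : ℝ, ∀ᶠ ε : ℝ in 𝓝[>] 0, ‖CR (lm f) (lm g) (pt τ ε)‖ ≤ C := by
  have n1 := Neb_restr (M₁ * M₂) (dvd_mul_right _ _) hf.neb
  have n2 := Neb_restr (M₁ * M₂) (dvd_mul_left _ _) hg.neb
  exact CR_bdd' n1 n2 hf.pos hg.pos (Sm_restr _ _ hf.sm) (Sm_restr _ _ hg.sm) hkl h

/-- **Different eigenforms.** -/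
theorem bdd_all (hf : Hf f χ) (hg : Hf g ξ) {τ : ℝ}
    (h : τ ≠ 0 ∨ k ≠ l ∨ ∃ p : ℕ, p.Prime ∧ ¬ p ∣ M₁ ∧ ¬ p ∣ M₂ ∧
      (aq f p ≠ aq g p ∨ χ (p : ZMod M₁) ≠ ξ (p : ZMod M₂))) :
    ∃ C : ℝ, ∀ᶠ ε : ℝ in 𝓝[>] 0, ‖CR (lm f) (lm g) (pt τ ε)‖ ≤ C := by
  rcases lt_trichotomy k l with hlt | heq | hgt
  · -- the other order
    obtain ⟨κ, hκ⟩ : ∃ κ, l = k + κ := ⟨l - k, by omega⟩
    obtain ⟨C, hC⟩ := bdd_ge (τ := -τ) hg hf hκ (Or.inr (Or.inl (by omega)))
    refine ⟨C, hC.mono fun ε h1 => ?_⟩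
    rw [CR_symm, Complex.norm_conj, conj_pt]
    exact h1
  · subst heq
    by_cases hτ : τ ≠ 0
    · exact bdd_ge hf hg (κ := 0) (by omega) (Or.inl hτ)
    · push Not at hτ
      subst hτ
      by_cases hc : DirichletCharacter.changeLevel (dvd_mul_right M₁ M₂) χ =
          DirichletCharacter.changeLevel (dvd_mul_left M₂ M₁) ξ
      · rcases h with h | h | ⟨p, hp, h1, h2, h3⟩
        · exact absurd rfl h
        · exact absurd rfl h
        · have hco : Nat.Coprime p (M₁ * M₂) := (Nat.Prime.coprime_iff_not_dvd hp).2 fun h =>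
            ((Nat.Prime.dvd_mul hp).1 h).elim h1 h2
          have hu : IsUnit (((p : ℤ)) : ZMod (M₁ * M₂)) := by
            rw [Int.cast_natCast, ZMod.isUnit_iff_coprime]
            exact hco
          have q4 : χ (p : ZMod M₁) = ξ (p : ZMod M₂) := by
            have g1 := changeLevel_int (dvd_mul_right M₁ M₂) χ hu
            have g2 := changeLevel_int (dvd_mul_left M₂ M₁) ξ hu
            rw [← hc, g1] at g2
            simpa using g2
          have h4 : aq f p ≠ aq g p := by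
            rcases h3 with h3 | h3
            · exact h3
            · exact absurd q4 h3
          obtain ⟨C, hC⟩ := D_bdd hf hg hc hp h1 h2 (lm_ne hp.pos h4)
          refine ⟨C, ?_⟩
          filter_upwards [shift0.eventually hC] with ε h5
          have e : pt 0 ε = ((1 + ε : ℝ) : ℂ) := by
            unfold pt
            push_cast
            ring
          rw [e]
          exact h5
      · refine bdd_ge hf hg (κ := 0) (by omega) (Or.inr (Or.inr ?_))
        by_contra hcon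
        push Not at hcon
        exact hc (MulChar.ext hcon)
  · obtain ⟨κ, hκ⟩ : ∃ κ, k = l + κ := ⟨k - l, by omega⟩
    exact bdd_ge hf hg hκ (Or.inr (Or.inl (by omega)))

end

end

end Run7.h186.NU
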