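import Pool.Agent.Run7.h186.NT13
import Pool.Agent.Run7.h186.NT8
import Mathlib.Analysis.SpecialFunctions.Complex.LogBounds

/-! The local factors of the Rankin-Selberg series, without bounds for the coefficients. -/

set_option autoImplicit false

namespace Run7.h186.NU

open Filter Topology Complex
open scoped ComplexConjugate
open Run7.h186.NT (Rc SC SC_closed exists_roots)

noncomputable section

/-- the first root of `z² - t z + e` -/
def al (t e : ℂ) : ℂ := (exists_roots t e).choose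

/-- the second root -/
def be (t e : ℂ) : ℂ := (exists_roots t e).choose_spec.choose

theorem al_add (t e : ℂ) : al t e + be t e = t := (exists_roots t e).choose_spec.choose_spec.1

theorem al_mul (t e : ℂ) : al t e * be t e = e := (exists_roots t e).choose_spec.choose_spec.2

/-- the power sums -/
def us (t e : ℂ) (k : ℕ) : ℂ := al t e ^ (k + 1) + be t e ^ (k + 1)

variable {c d : ℕ → ℂ} {t e t' e' x : ℂ}

theorem Rc.step' (hc : Rc c t e) {α β : ℂ} (h1 : α + β = t) (h2 : α * β = e) (k : ℕ) :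
    c (k + 1) - β * c k = α ^ (k + 1) := by
  subst h1 h2
  induction k with
  | zero =>
    rw [hc.zero, zero_add, hc.one]
    ring
  | succ k ih =>
    rw [show k + 1 + 1 = k + 2 by ring, hc.step, pow_succ, ← ih]
    ring

theorem Rc.root_lt (hc : Rc c t e) {α β : ℂ} (h1 : α + β = t) (h2 : α * β = e) {y : ℝ} (hy : 0 < y)
    (hs : Summable fun j : ℕ => ‖c j‖ ^ 2 * y ^ j) : ‖α‖ ^ 2 * y < 1 := by
  have h3 : Summable fun j : ℕ => ‖c (j + 1)‖ ^ 2 * y ^ (j + 1) := (summable_nat_add_iff 1).2 hs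
  have h4 : Summable fun j : ℕ => (‖α‖ ^ 2 * y) ^ (j + 1) := by
    refine Summable.of_nonneg_of_le (fun j => by positivity) (fun j => ?_)
      ((h3.mul_left 2).add (hs.mul_left (2 * ‖β‖ ^ 2 * y)))
    have h5 := Rc.step' hc h1 h2 j
    have h6 : ‖α ^ (j + 1)‖ ≤ ‖c (j + 1)‖ + ‖β‖ * ‖c j‖ := by
      rw [← h5]
      refine (norm_sub_le _ _).trans ?_
      rw [norm_mul]
    have h7 := pow_le_pow_left₀ (norm_nonneg _) h6 2
    rw [norm_pow, ← pow_mul, mul_comm (j + 1) 2, pow_mul] at h7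
    have h8 : (‖α‖ ^ 2) ^ (j + 1) ≤ 2 * ‖c (j + 1)‖ ^ 2 + 2 * (‖β‖ ^ 2 * ‖c j‖ ^ 2) := by
      nlinarith [sq_nonneg (‖c (j + 1)‖ - ‖β‖ * ‖c j‖)]
    rw [mul_pow]
    have h9 := mul_le_mul_of_nonneg_right h8 (pow_nonneg hy.le (j + 1))
    refine h9.trans (le_of_eq ?_)
    rw [pow_succ y j]
    ring
  have h5 := (summable_nat_add_iff (f := fun j : ℕ => (‖α‖ ^ 2 * y) ^ j) 1).1 h4
  rw [summable_geometric_iff_norm_lt_one, Real.norm_of_nonneg (by positivity)] at h5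
  exact h5

/-- **Closed form**, with the roots. -/
theorem closed (hc : Rc c t e) (hd : Rc d t' e') (hx : x ≠ 0)
    (h : Summable fun k : ℕ => c k * conj (d k) * x ^ k) :
    ((1 - al t e * conj (al t' e') * x) * (1 - al t e * conj (be t' e') * x) *
      ((1 - be t e * conj (al t' e') * x) * (1 - be t e * conj (be t' e') * x))) * SC c d x 0 =
      1 - e * conj e' * x ^ 2 := by
  rw [← SC_closed hc hd hx h]
  congr 1
  rw [← al_add t e, ← al_mul t e, ← al_add t' e', ← al_mul t' e']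
  simp only [al_add, al_mul]
  have h1 := al_add t e
  have h2 := al_mul t e
  have h3 := al_add t' e'
  have h4 := al_mul t' e'
  have h5 : conj (al t' e') + conj (be t' e') = conj t' := by rw [← map_add, h3]
  have h6 : conj (al t' e') * conj (be t' e') = conj e' := by rw [← map_mul, h4]
  rw [← h5, ← h6, ← h1, ← h2]
  simp only [h1, h2]
  set a := al t e
  set b := be t e
  set a' := conj (al t' e')
  set b' := conj (be t' e')
  rw [← h1, ← h2]
  ring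

theorem factor_le {a b : ℂ} {P : ℝ} (ha : ‖a‖ ^ 2 ≤ P) (hb : ‖b‖ ^ 2 ≤ P) (hx : P * ‖x‖ ≤ 1) :
    ‖1 - a * conj b * x‖ ≤ 2 := by
  have h1 := norm_sub_le (1 : ℂ) (a * conj b * x)
  rw [norm_one, norm_mul, norm_mul, Complex.norm_conj] at h1
  have h2 : ‖a‖ * ‖b‖ ≤ P := by nlinarith [sq_nonneg (‖a‖ - ‖b‖)]
  have h3 := mul_le_mul_of_nonneg_right h2 (norm_nonneg x)
  linarith

/-- **Lower bound for the local factor.** -/
theorem SC_lower' (hc : Rc c t e) (hd : Rc d t' e') (hx : x ≠ 0)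
    (h : Summable fun k : ℕ => c k * conj (d k) * x ^ k) (hx2 : ‖x‖ ≤ 1 / 2) {P : ℝ}
    (h1 : ‖al t e‖ ^ 2 ≤ P) (h2 : ‖be t e‖ ^ 2 ≤ P) (h3 : ‖al t' e'‖ ^ 2 ≤ P)
    (h4 : ‖be t' e'‖ ^ 2 ≤ P) (hP : P * ‖x‖ ≤ 1) : 1 / 22 ≤ ‖SC c d x 0‖ := by
  have h5 := congrArg norm (closed hc hd hx h)
  rw [norm_mul, norm_mul, norm_mul, norm_mul] at h5
  have f1 := factor_le h1 h3 hP
  have f2 := factor_le h1 h4 hP
  have f3 := factor_le h2 h3 hP
  have f4 := factor_le h2 h4 hP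
  have hr : 3 / 4 ≤ ‖1 - e * conj e' * x ^ 2‖ := by
    have h6 := norm_sub_norm_le (1 : ℂ) (e * conj e' * x ^ 2)
    rw [norm_one, norm_mul, norm_pow, norm_mul, Complex.norm_conj] at h6
    have hee : ‖e‖ * ‖e'‖ ≤ 1 := mul_le_one₀ hc.e1 (norm_nonneg _) hd.e1
    have hx4 : ‖x‖ ^ 2 ≤ 1 / 4 := by nlinarith [norm_nonneg x]
    have h7 : ‖e‖ * ‖e'‖ * ‖x‖ ^ 2 ≤ 1 * (1 / 4) :=
      mul_le_mul hee hx4 (by positivity) zero_le_one
    linarith
  have g1 : ‖1 - al t e * conj (al t' e') * x‖ * ‖1 - al t e * conj (be t' e') * x‖ ≤ 4 := by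
    calc _ ≤ (2 : ℝ) * 2 := mul_le_mul f1 f2 (norm_nonneg _) (by norm_num)
      _ = 4 := by norm_num
  have g2 : ‖1 - be t e * conj (al t' e') * x‖ * ‖1 - be t e * conj (be t' e') * x‖ ≤ 4 := by
    calc _ ≤ (2 : ℝ) * 2 := mul_le_mul f3 f4 (norm_nonneg _) (by norm_num)
      _ = 4 := by norm_num
  have g3 : ‖1 - al t e * conj (al t' e') * x‖ * ‖1 - al t e * conj (be t' e') * x‖ *
      (‖1 - be t e * conj (al t' e') * x‖ * ‖1 - be t e * conj (be t' e') * x‖) ≤ 16 := by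
    calc _ ≤ (4 : ℝ) * 4 := mul_le_mul g1 g2 (by positivity) (by norm_num)
      _ = 16 := by norm_num
  have g4 := mul_le_mul_of_nonneg_right g3 (norm_nonneg (SC c d x 0))
  rw [h5] at g4
  linarith

theorem hasSum_log {z : ℂ} (hz : ‖z‖ < 1) :
    HasSum (fun k : ℕ => z ^ (k + 1) / ((k : ℂ) + 1)) (-Complex.log (1 - z)) := by
  have h1 := Complex.hasSum_taylorSeries_neg_log hz
  have h2 := (hasSum_nat_add_iff' 1).2 h1
  simp only [Finset.range_one, Finset.sum_singleton, pow_zero, Nat.cast_zero, div_zero,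
    sub_zero] at h2
  refine h2.congr_fun fun k => ?_
  push_cast
  rfl

theorem hasSum_log_re {z : ℂ} (hz : ‖z‖ < 1) :
    HasSum (fun k : ℕ => (z ^ (k + 1)).re / ((k : ℝ) + 1)) (-Real.log ‖1 - z‖) := by
  have h1 := Complex.hasSum_re (hasSum_log hz)
  rw [Complex.neg_re, Complex.log_re] at h1
  refine h1.congr_fun fun k => ?_
  have e : ((k : ℂ) + 1) = (((k : ℝ) + 1 : ℝ) : ℂ) := by push_cast; rfl
  rw [e, Complex.div_ofReal_re]

/-- **The logarithm of the local factor.** -/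
theorem SC_logsum (hc : Rc c t e) (hd : Rc d t' e') (hx : x ≠ 0)
    (h : Summable fun k : ℕ => c k * conj (d k) * x ^ k)
    (hx2 : ‖x‖ ≤ 1 / 2)
    (h1 : ‖al t e‖ ^ 2 * ‖x‖ < 1) (h2 : ‖be t e‖ ^ 2 * ‖x‖ < 1) (h3 : ‖al t' e'‖ ^ 2 * ‖x‖ < 1)
    (h4 : ‖be t' e'‖ ^ 2 * ‖x‖ < 1) :
    ‖SC c d x 0‖ ≠ 0 ∧
    HasSum (fun k : ℕ => (us t e k * conj (us t' e' k) * x ^ (k + 1)).re / ((k : ℝ) + 1))
      (Real.log ‖SC c d x 0‖ - Real.log ‖1 - e * conj e' * x ^ 2‖) := by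
  have key : ∀ a b : ℂ, ‖a‖ ^ 2 * ‖x‖ < 1 → ‖b‖ ^ 2 * ‖x‖ < 1 → ‖a * conj b * x‖ < 1 := by
    intro a b ha hb
    rw [norm_mul, norm_mul, Complex.norm_conj]
    have h5 : ‖a‖ * ‖b‖ * ‖x‖ ≤ (‖a‖ ^ 2 * ‖x‖ + ‖b‖ ^ 2 * ‖x‖) / 2 := by
      nlinarith [mul_nonneg (norm_nonneg x) (sq_nonneg (‖a‖ - ‖b‖))]
    linarith
  have k1 := key _ _ h1 h3
  have k2 := key _ _ h1 h4
  have k3 := key _ _ h2 h3
  have k4 := key _ _ h2 h4
  have hne : ∀ z : ℂ, ‖z‖ < 1 → ‖1 - z‖ ≠ 0 := by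
    intro z hz h0
    rw [norm_eq_zero, sub_eq_zero] at h0
    rw [← h0, norm_one] at hz
    exact lt_irrefl _ hz
  have n1 := hne _ k1
  have n2 := hne _ k2
  have n3 := hne _ k3
  have n4 := hne _ k4
  have h5 := congrArg norm (closed hc hd hx h)
  rw [norm_mul, norm_mul, norm_mul, norm_mul] at h5
  have hr : ‖1 - e * conj e' * x ^ 2‖ ≠ 0 := by
    refine hne _ ?_
    rw [norm_mul, norm_mul, Complex.norm_conj, norm_pow]
    have hee : ‖e‖ * ‖e'‖ ≤ 1 := mul_le_one₀ hc.e1 (norm_nonneg _) hd.e1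
    have hx4 : ‖x‖ ^ 2 ≤ 1 / 4 := by nlinarith [norm_nonneg x]
    have h7 : ‖e‖ * ‖e'‖ * ‖x‖ ^ 2 ≤ 1 * (1 / 4) :=
      mul_le_mul hee hx4 (by positivity) zero_le_one
    linarith
  have hS : ‖SC c d x 0‖ ≠ 0 := by
    intro h0
    rw [h0, mul_zero] at h5
    exact hr h5.symm
  refine ⟨hS, ?_⟩
  have s := ((hasSum_log_re k1).add (hasSum_log_re k2)).add
    ((hasSum_log_re k3).add (hasSum_log_re k4))
  have e1 : -Real.log ‖1 - al t e * conj (al t' e') * x‖ +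
      -Real.log ‖1 - al t e * conj (be t' e') * x‖ +
      (-Real.log ‖1 - be t e * conj (al t' e') * x‖ +
      -Real.log ‖1 - be t e * conj (be t' e') * x‖) =
      Real.log ‖SC c d x 0‖ - Real.log ‖1 - e * conj e' * x ^ 2‖ := by
    rw [← h5, Real.log_mul (mul_ne_zero (mul_ne_zero n1 n2) (mul_ne_zero n3 n4)) hS,
      Real.log_mul (mul_ne_zero n1 n2) (mul_ne_zero n3 n4), Real.log_mul n1 n2, Real.log_mul n3 n4]
    ring
  rw [e1] at s
  refine s.congr_fun fun k => ?_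
  have e2 : us t e k * conj (us t' e' k) * x ^ (k + 1) =
      (al t e * conj (al t' e') * x) ^ (k + 1) + (al t e * conj (be t' e') * x) ^ (k + 1) +
      ((be t e * conj (al t' e') * x) ^ (k + 1) + (be t e * conj (be t' e') * x) ^ (k + 1)) := by
    unfold us
    rw [map_add, map_pow, map_pow]
    ring
  rw [e2]
  simp only [Complex.add_re]
  ring

theorem neg_log_le {u : ℝ} (h0 : 0 ≤ u) (h1 : u ≤ 1 / 2) : -Real.log (1 - u) ≤ 2 * u := by
  have h2 : 0 < 1 - u := by linarith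
  rw [← Real.log_inv]
  refine (Real.log_le_sub_one_of_pos (inv_pos.2 h2)).trans ?_
  rw [inv_eq_one_div, div_sub_one h2.ne', div_le_iff₀ h2]
  nlinarith

theorem neg_log_res (he : ‖e‖ ≤ 1) (he' : ‖e'‖ ≤ 1) (hx2 : ‖x‖ ≤ 1 / 2) :
    -Real.log ‖1 - e * conj e' * x ^ 2‖ ≤ 2 * ‖x‖ ^ 2 := by
  have h6 := norm_sub_norm_le (1 : ℂ) (e * conj e' * x ^ 2)
  rw [norm_one, norm_mul, norm_pow, norm_mul, Complex.norm_conj] at h6
  have hee : ‖e‖ * ‖e'‖ ≤ 1 := mul_le_one₀ he (norm_nonneg _) he'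
  have hx4 : ‖x‖ ^ 2 ≤ 1 / 4 := by nlinarith [norm_nonneg x]
  have h7 : ‖e‖ * ‖e'‖ * ‖x‖ ^ 2 ≤ 1 * ‖x‖ ^ 2 := mul_le_mul_of_nonneg_right hee (sq_nonneg _)
  have h8 : Real.log (1 - ‖x‖ ^ 2) ≤ Real.log ‖1 - e * conj e' * x ^ 2‖ :=
    Real.log_le_log (by linarith) (by linarith)
  have h9 := neg_log_le (sq_nonneg ‖x‖) (by linarith)
  linarith

end

end Run7.h186.NU
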