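import Pool.Agent.Run7.h186.NU1
import Pool.Agent.Run7.h186.NU2
import Pool.Agent.Run7.h186.NU3
import Pool.Agent.Run7.h186.NT14
import Mathlib.Data.Nat.Factorization.PrimePow

/-! The family of the eigenforms in the space of the functions on the prime powers. -/

set_option autoImplicit false
set_option linter.unusedSectionVars false

namespace Run7.h186.NU

open MeasureTheory Filter Topology UpperHalfPlane CongruenceSubgroup Complex
open scoped ENNReal MatrixGroups ModularForm Pointwise ComplexConjugate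
open Run7.h186.ML (pt pt_re)
open Pool.Agent.Y149.CR (pow_cpow norm_p)
open Pool.Agent.TH941 (rpow_half)
open Pool.Agent.H341R2 (lam lam_bounded lam_tendsto)
open Run7.h186.NT (S1 aq lm CR Neb Sm SD gg rs_form lm_zero gg_eq gg_zero term_nonneg CR_summable Sq
  Sq_of shift0 Rc SC LF finite_dvd cpow_pt norm_pI)

noncomputable section

/-- the prime powers -/
abbrev PP := Nat.Primes × ℕ

/-- the weights -/
def W (ε : ℝ) (a : PP) : ℝ := (((a.1 : ℕ) : ℝ) ^ (-(1 + ε))) ^ (a.2 + 1) / ((a.2 : ℝ) + 1)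

theorem W_nonneg (ε : ℝ) (a : PP) : 0 ≤ W ε a := by
  unfold W
  positivity

/-- the power sums at the good primes -/
def PW {M k : ℕ} (f : S1 M k) (χ : DirichletCharacter ℂ M) (a : PP) : ℂ :=
  if (a.1 : ℕ) ∣ M then 0 else us (lm f a.1) (χ ((a.1 : ℕ) : ZMod M)) a.2

/-- the twist -/
def tw (τ : ℝ) (a : PP) : ℂ := (((a.1 : ℕ) : ℂ) ^ (-((τ : ℂ) * Complex.I))) ^ (a.2 + 1)

theorem norm_tw (τ : ℝ) (a : PP) : ‖tw τ a‖ = 1 := by
  unfold tw
  rw [norm_pow, norm_pI, one_pow]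

/-- the family -/
def UU {M k : ℕ} (f : S1 M k) (χ : DirichletCharacter ℂ M) (τ : ℝ) (a : PP) : ℂ :=
  PW f χ a * tw τ a

theorem conj_pI (τ : ℝ) (p : Nat.Primes) : conj (((p : ℕ) : ℂ) ^ (-((τ : ℂ) * Complex.I))) =
    ((p : ℕ) : ℂ) ^ ((τ : ℂ) * Complex.I) := by
  have h1 : (((p : ℕ) : ℂ)).arg ≠ Real.pi := by
    rw [Complex.natCast_arg]
    exact Real.pi_pos.ne
  have h2 := Complex.cpow_conj ((p : ℕ) : ℂ) ((τ : ℂ) * Complex.I) h1
  rw [Complex.conj_natCast, map_mul, Complex.conj_ofReal, Complex.conj_I, mul_neg] at h2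
  rw [h2, Complex.conj_conj]

theorem tw_mul_conj (τ τ' : ℝ) (a : PP) : tw τ a * conj (tw τ' a) = tw (τ - τ') a := by
  have hpc : ((a.1 : ℕ) : ℂ) ≠ 0 := by exact_mod_cast a.1.2.ne_zero
  unfold tw
  rw [map_pow, conj_pI, ← mul_pow, ← Complex.cpow_add _ _ hpc]
  congr 2
  push_cast
  ring

/-- a term -/
theorem W_term (ε τ : ℝ) (p : Nat.Primes) (k : ℕ) (z : ℂ) :
    W ε (p, k) * (z * tw τ (p, k)).re =
      (z * (((p : ℕ) : ℂ) ^ (-(pt τ ε))) ^ (k + 1)).re / ((k : ℝ) + 1) := by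
  have e : z * (((p : ℕ) : ℂ) ^ (-(pt τ ε))) ^ (k + 1) =
      (((((p : ℕ) : ℝ) ^ (-(1 + ε))) ^ (k + 1) : ℝ) : ℂ) * (z * tw τ (p, k)) := by
    rw [cpow_pt, mul_pow]
    unfold tw
    push_cast
    ring
  rw [e, Complex.re_ofReal_mul]
  unfold W
  simp only
  ring

section
variable {M k : ℕ} [NeZero M] {f : S1 M k} {χ : DirichletCharacter ℂ M}

theorem Hf.rc (hf : Hf f χ) {p : ℕ} (hp : p.Prime) :
    Rc (fun j => lm f (p ^ j)) (lm f p) (χ (p : ZMod M)) := by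
  refine ⟨?_, ?_, fun j => ?_, χ.norm_le_one _⟩
  · simp only [pow_zero]
    exact hf.lm_one
  · simp only [pow_one]
  · exact hf.lm_pow hp j

theorem Hf.loc_sq (hf : Hf f χ) {s : ℝ} (hs : 1 < s) (p : Nat.Primes) :
    Summable fun j : ℕ => ‖lm f ((p : ℕ) ^ j)‖ ^ 2 * (((p : ℕ) : ℝ) ^ (-s)) ^ j := by
  have h1 := (hf.sm s hs).comp_injective (Nat.pow_right_injective p.2.two_le)
  refine h1.congr fun j => ?_
  simp only [Function.comp_apply]
  rw [gg_eq]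
  congr 1
  push_cast
  rw [← Real.rpow_natCast, ← Real.rpow_natCast, ← Real.rpow_mul (Nat.cast_nonneg _),
    ← Real.rpow_mul (Nat.cast_nonneg _)]
  congr 1
  ring

theorem Hf.root_lt (hf : Hf f χ) {s : ℝ} (hs : 1 < s) (p : Nat.Primes) :
    ‖al (lm f p) (χ ((p : ℕ) : ZMod M))‖ ^ 2 * ((p : ℕ) : ℝ) ^ (-s) < 1 ∧
    ‖be (lm f p) (χ ((p : ℕ) : ZMod M))‖ ^ 2 * ((p : ℕ) : ℝ) ^ (-s) < 1 := by
  have hp0 : (0 : ℝ) < (p : ℕ) := by exact_mod_cast p.2.pos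
  have h1 := hf.rc p.2
  have h2 := hf.loc_sq hs p
  have h3 : (0 : ℝ) < ((p : ℕ) : ℝ) ^ (-s) := by positivity
  refine ⟨Rc.root_lt h1 (al_add _ _) (al_mul _ _) h3 h2, ?_⟩
  refine Rc.root_lt (β := al (lm f p) (χ ((p : ℕ) : ZMod M))) h1 ?_ ?_ h3 h2
  · rw [add_comm]; exact al_add _ _
  · rw [mul_comm]; exact al_mul _ _

theorem le_of_rpow {q x : ℝ} (hq : 0 < q) (h : ∀ s : ℝ, 1 < s → x * q ^ (-s) < 1) : x ≤ q := by
  have h3 : Tendsto (fun s : ℝ => q ^ s) (𝓝[>] 1) (𝓝 (q ^ (1 : ℝ))) :=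
    ((Real.continuous_const_rpow hq.ne').tendsto 1).mono_left nhdsWithin_le_nhds
  rw [Real.rpow_one] at h3
  refine ge_of_tendsto h3 ?_
  filter_upwards [self_mem_nhdsWithin] with s hs
  have h4 := h s hs
  rw [Real.rpow_neg hq.le, ← div_eq_mul_inv, div_lt_one (by positivity)] at h4
  exact h4.le

theorem Hf.root_le (hf : Hf f χ) (p : Nat.Primes) :
    ‖al (lm f p) (χ ((p : ℕ) : ZMod M))‖ ^ 2 ≤ (p : ℕ) ∧
    ‖be (lm f p) (χ ((p : ℕ) : ZMod M))‖ ^ 2 ≤ (p : ℕ) := by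
  have hp0 : (0 : ℝ) < (p : ℕ) := by exact_mod_cast p.2.pos
  exact ⟨le_of_rpow hp0 fun s hs => (hf.root_lt hs p).1,
    le_of_rpow hp0 fun s hs => (hf.root_lt hs p).2⟩

end

section
variable {M₁ M₂ k l : ℕ} [NeZero M₁] [NeZero M₂] {f : S1 M₁ k} {g : S1 M₂ l}
  {χ : DirichletCharacter ℂ M₁} {ξ : DirichletCharacter ℂ M₂}

theorem sum_norm (hf : Hf f χ) (hg : Hf g ξ) {s : ℂ} (hs : 1 < s.re) :
    Summable fun n : ℕ => ‖lm f n * conj (lm g n) * (n : ℂ) ^ (-s)‖ :=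
  CR_summable (by linarith) (Sq_of hf.sm hs) (Sq_of hg.sm hs)

theorem loc_summable (hf : Hf f χ) (hg : Hf g ξ) {s : ℂ} (hs : 1 < s.re) (p : Nat.Primes) :
    Summable fun j : ℕ => lm f ((p : ℕ) ^ j) * conj (lm g ((p : ℕ) ^ j)) *
      (((p : ℕ) : ℂ) ^ (-s)) ^ j := by
  have h1 := (sum_norm hf hg hs).comp_injective (Nat.pow_right_injective p.2.two_le)
  refine (h1.of_norm).congr fun j => ?_
  rw [pow_cpow p.2.pos]

theorem hasProd_CR (hf : Hf f χ) (hg : Hf g ξ) {s : ℂ} (hs : 1 < s.re) :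
    HasProd (fun p : Nat.Primes => LF f g s p) (CR (lm f) (lm g) s) := by
  have h1 : lm f 1 * conj (lm g 1) * ((1 : ℕ) : ℂ) ^ (-s) = 1 := by
    rw [hf.lm_one, hg.lm_one]; simp
  have hmul : ∀ {m n : ℕ}, Nat.Coprime m n →
      lm f (m * n) * conj (lm g (m * n)) * ((m * n : ℕ) : ℂ) ^ (-s) =
      lm f m * conj (lm g m) * (m : ℂ) ^ (-s) * (lm f n * conj (lm g n) * (n : ℂ) ^ (-s)) := by
    intro m n h
    rw [hf.lm_mul h, hg.lm_mul h, Nat.cast_mul, Complex.natCast_mul_natCast_cpow, map_mul]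
    ring
  have h := EulerProduct.eulerProduct_hasProd
    (f := fun n : ℕ => lm f n * conj (lm g n) * (n : ℂ) ^ (-s)) h1 hmul (sum_norm hf hg hs) (by
      rw [lm_zero]; simp)
  refine h.congr_fun fun p => ?_
  unfold LF SC
  refine tsum_congr fun j => ?_
  simp only [add_zero]
  rw [pow_cpow p.2.pos]

theorem x_ne (p : Nat.Primes) (s : ℂ) : ((p : ℕ) : ℂ) ^ (-s) ≠ 0 := by
  have hpc : ((p : ℕ) : ℂ) ≠ 0 := by exact_mod_cast p.2.ne_zero
  rw [Ne, Complex.cpow_eq_zero_iff]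
  intro h
  exact hpc h.1

/-- the local factor and its logarithm -/
theorem LF_facts (hf : Hf f χ) (hg : Hf g ξ) {s : ℂ} (hs : 1 < s.re) (p : Nat.Primes) :
    1 / 22 ≤ ‖LF f g s p‖ ∧
    HasSum (fun k : ℕ => (us (lm f p) (χ ((p : ℕ) : ZMod M₁)) k *
      conj (us (lm g p) (ξ ((p : ℕ) : ZMod M₂)) k) * (((p : ℕ) : ℂ) ^ (-s)) ^ (k + 1)).re /
        ((k : ℝ) + 1))
      (Real.log ‖LF f g s p‖ - Real.log ‖1 - χ ((p : ℕ) : ZMod M₁) *
        conj (ξ ((p : ℕ) : ZMod M₂)) * (((p : ℕ) : ℂ) ^ (-s)) ^ 2‖) := by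
  obtain ⟨h0, h1, -⟩ := rpow_half p.2 hs.le
  have hp0 : (0 : ℝ) < (p : ℕ) := by exact_mod_cast p.2.pos
  have hp1 : (1 : ℝ) ≤ (p : ℕ) := by exact_mod_cast p.2.one_le
  have a := hf.rc p.2
  have b := hg.rc p.2
  have hsum := loc_summable hf hg hs p
  have hx : ‖((p : ℕ) : ℂ) ^ (-s)‖ ≤ 1 / 2 := by rw [norm_p]; exact h1
  have hP : ((p : ℕ) : ℝ) * ‖((p : ℕ) : ℂ) ^ (-s)‖ ≤ 1 := by
    rw [norm_p]
    have h3 : ((p : ℕ) : ℝ) ^ (-s.re) ≤ ((p : ℕ) : ℝ) ^ (-1 : ℝ) :=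
      Real.rpow_le_rpow_of_exponent_le hp1 (by linarith)
    calc _ ≤ ((p : ℕ) : ℝ) * ((p : ℕ) : ℝ) ^ (-1 : ℝ) := mul_le_mul_of_nonneg_left h3 hp0.le
      _ = 1 := by rw [Real.rpow_neg_one, mul_inv_cancel₀ hp0.ne']
  refine ⟨SC_lower' a b (x_ne p s) hsum hx (hf.root_le p).1 (hf.root_le p).2 (hg.root_le p).1
    (hg.root_le p).2 hP, ?_⟩
  refine (SC_logsum a b (x_ne p s) hsum hx ?_ ?_ ?_ ?_).2
  · rw [norm_p]; exact (hf.root_lt hs p).1
  · rw [norm_p]; exact (hf.root_lt hs p).2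
  · rw [norm_p]; exact (hg.root_lt hs p).1
  · rw [norm_p]; exact (hg.root_lt hs p).2

/-- the correction at the bad primes -/
def bq (M : ℕ) (p : Nat.Primes) : ℝ := if (p : ℕ) ∣ M then Real.log 22 else 0

theorem bq_summable {M : ℕ} (hM : M ≠ 0) : Summable (bq M) := by
  refine summable_of_finite_support ((finite_dvd hM).subset fun p hp => ?_)
  by_contra h
  refine hp ?_
  unfold bq
  exact if_neg h

theorem term_eq (f : S1 M₁ k) (g : S1 M₂ l) (χ : DirichletCharacter ℂ M₁)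
    (ξ : DirichletCharacter ℂ M₂) (τ τ' ε : ℝ) (p : Nat.Primes) (j : ℕ) :
    W ε (p, j) * (UU f χ τ (p, j) * conj (UU g ξ τ' (p, j))).re =
      (PW f χ (p, j) * conj (PW g ξ (p, j)) *
        (((p : ℕ) : ℂ) ^ (-(pt (τ - τ') ε))) ^ (j + 1)).re / ((j : ℝ) + 1) := by
  rw [← W_term]
  congr 2
  unfold UU
  rw [map_mul, ← tw_mul_conj]
  ring

/-- the local sums -/
theorem loc_sum (hf : Hf f χ) (hg : Hf g ξ) (τ τ' : ℝ) {ε : ℝ} (hε : 0 < ε) (p : Nat.Primes) :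
    (Summable fun j : ℕ => W ε (p, j) * (UU f χ τ (p, j) * conj (UU g ξ τ' (p, j))).re) ∧
    (∑' j : ℕ, W ε (p, j) * (UU f χ τ (p, j) * conj (UU g ξ τ' (p, j))).re) -
      2 * (((p : ℕ) : ℝ) ^ (-(1 + ε))) ^ 2 - bq (M₁ * M₂) p ≤
      Real.log ‖LF f g (pt (τ - τ') ε) p‖ := by
  have hre : (pt (τ - τ') ε).re = 1 + ε := pt_re _ _
  have hs : 1 < (pt (τ - τ') ε).re := by rw [hre]; linarith
  obtain ⟨h1, h2⟩ := LF_facts hf hg hs p
  obtain ⟨h0, h0', -⟩ := rpow_half p.2 hs.le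
  simp_rw [term_eq]
  by_cases h : (p : ℕ) ∣ M₁ * M₂
  · have h3 : ∀ j, PW f χ (p, j) * conj (PW g ξ (p, j)) = 0 := by
      intro j
      rcases (Nat.Prime.dvd_mul p.2).1 h with h | h
      · unfold PW
        rw [if_pos h, zero_mul]
      · unfold PW
        rw [if_pos h, map_zero, mul_zero]
    simp_rw [h3, zero_mul, Complex.zero_re, zero_div]
    refine ⟨summable_zero, ?_⟩
    rw [tsum_zero]
    unfold bq
    rw [if_pos h]
    have h4 : -Real.log 22 ≤ Real.log ‖LF f g (pt (τ - τ') ε) p‖ := by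
      rw [← Real.log_inv]
      refine Real.log_le_log (by norm_num) ?_
      norm_num
      linarith
    have h5 : 0 ≤ 2 * (((p : ℕ) : ℝ) ^ (-(1 + ε))) ^ 2 := by positivity
    linarith
  · have hf' : ¬ (p : ℕ) ∣ M₁ := fun h' => h (Dvd.dvd.mul_right h' _)
    have hg' : ¬ (p : ℕ) ∣ M₂ := fun h' => h (Dvd.dvd.mul_left h' _)
    have h3 : ∀ j, PW f χ (p, j) * conj (PW g ξ (p, j)) =
        us (lm f p) (χ ((p : ℕ) : ZMod M₁)) j * conj (us (lm g p) (ξ ((p : ℕ) : ZMod M₂)) j) := by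
      intro j
      unfold PW
      rw [if_neg hf', if_neg hg']
    simp_rw [h3]
    refine ⟨h2.summable, ?_⟩
    rw [h2.tsum_eq]
    unfold bq
    rw [if_neg h]
    have h5 := neg_log_res (x := ((p : ℕ) : ℂ) ^ (-(pt (τ - τ') ε)))
      (χ.norm_le_one ((p : ℕ) : ZMod M₁)) (ξ.norm_le_one ((p : ℕ) : ZMod M₂))
      (by rw [norm_p]; exact h0')
    rw [norm_p, hre] at h5
    linarith

end

section
variable {M k : ℕ} [NeZero M] {f : S1 M k} {χ : DirichletCharacter ℂ M}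

/-- the power series at `p`, over all `p` -/
theorem Hf.sum_pp (hf : Hf f χ) {s : ℝ} (hs : 1 < s) :
    Summable fun a : PP => ‖lm f ((a.1 : ℕ) ^ (a.2 + 1))‖ ^ 2 *
      (((a.1 : ℕ) : ℝ) ^ (-s)) ^ (a.2 + 1) := by
  have hinj : Function.Injective fun a : PP => ((Nat.Primes.prodNatEquiv a : ℕ)) :=
    Subtype.val_injective.comp Nat.Primes.prodNatEquiv.injective
  have h1 := (hf.sm s hs).comp_injective hinj
  refine h1.congr fun a => ?_
  simp only [Function.comp_apply]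
  have e : (Nat.Primes.prodNatEquiv a : ℕ) = (a.1 : ℕ) ^ (a.2 + 1) := by
    rw [Nat.Primes.coe_prodNatEquiv_apply]
  rw [e, gg_eq]
  congr 1
  push_cast
  rw [← Real.rpow_natCast, ← Real.rpow_natCast, ← Real.rpow_mul (Nat.cast_nonneg _),
    ← Real.rpow_mul (Nat.cast_nonneg _)]
  congr 1
  ring

/-- the local factor of one form -/
theorem Hf.LF_self (hf : Hf f χ) {ε : ℝ} (hε : 0 < ε) (p : Nat.Primes) :
    Real.log ‖LF f f (pt 0 ε) p‖ ≤ ∑' j : ℕ, ‖lm f ((p : ℕ) ^ (j + 1))‖ ^ 2 *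
      (((p : ℕ) : ℝ) ^ (-(1 + ε))) ^ (j + 1) := by
  have hs : (1 : ℝ) < 1 + ε := by linarith
  have h1 := hf.loc_sq hs p
  have hre : (pt 0 ε).re = 1 + ε := pt_re _ _
  have hx : ((p : ℕ) : ℂ) ^ (-(pt 0 ε)) = ((((p : ℕ) : ℝ) ^ (-(1 + ε)) : ℝ) : ℂ) := by
    rw [cpow_pt]
    simp
  have e : LF f f (pt 0 ε) p = ((∑' j : ℕ, ‖lm f ((p : ℕ) ^ j)‖ ^ 2 *
      (((p : ℕ) : ℝ) ^ (-(1 + ε))) ^ j : ℝ) : ℂ) := by
    unfold LF SC
    rw [Complex.ofReal_tsum]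
    refine tsum_congr fun j => ?_
    rw [add_zero, hx, Complex.mul_conj, Complex.normSq_eq_norm_sq]
    push_cast
    rfl
  have h2 : ∑' j : ℕ, ‖lm f ((p : ℕ) ^ j)‖ ^ 2 * (((p : ℕ) : ℝ) ^ (-(1 + ε))) ^ j =
      1 + ∑' j : ℕ, ‖lm f ((p : ℕ) ^ (j + 1))‖ ^ 2 *
      (((p : ℕ) : ℝ) ^ (-(1 + ε))) ^ (j + 1) := by
    rw [h1.tsum_eq_zero_add]
    congr 1
    rw [pow_zero, pow_zero, hf.lm_one]
    norm_num
  have h3 : 0 ≤ ∑' j : ℕ, ‖lm f ((p : ℕ) ^ (j + 1))‖ ^ 2 *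
      (((p : ℕ) : ℝ) ^ (-(1 + ε))) ^ (j + 1) := tsum_nonneg fun j => by positivity
  rw [e, h2, Complex.norm_real, Real.norm_of_nonneg (by linarith)]
  refine (Real.log_le_sub_one_of_pos (by linarith)).trans ?_
  linarith

/-- **Square summability.** -/
theorem Hf.l2 (hf : Hf f χ) (τ : ℝ) {ε : ℝ} (hε : 0 < ε) : L2 (W ε) (UU f χ τ) := by
  have hs : (1 : ℝ) < 1 + ε := by linarith
  unfold L2
  have e : ∀ a : PP, W ε a * ‖UU f χ τ a‖ ^ 2 = W ε a * (UU f χ 0 a * conj (UU f χ 0 a)).re := by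
    intro a
    rw [Complex.mul_conj, Complex.normSq_eq_norm_sq, Complex.ofReal_re]
    unfold UU
    rw [norm_mul, norm_mul, norm_tw, norm_tw]
  simp_rw [e]
  rw [summable_prod_of_nonneg]
  · refine ⟨fun p => (loc_sum hf hf 0 0 hε p).1, ?_⟩
    have h1 := (summable_prod_of_nonneg (f := fun a : PP => ‖lm f ((a.1 : ℕ) ^ (a.2 + 1))‖ ^ 2 *
      (((a.1 : ℕ) : ℝ) ^ (-(1 + ε))) ^ (a.2 + 1)) (fun a => by
        show 0 ≤ _
        positivity)).1 (hf.sum_pp hs)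
    have hs2 : Summable fun p : Nat.Primes => (((p : ℕ) : ℝ) ^ (-(1 + ε))) ^ 2 := by
      refine Summable.of_nonneg_of_le (fun p => by positivity) (fun p => ?_)
        (Nat.Primes.summable_rpow.2 (by linarith : -(1 + ε) < -1))
      have h2 : ((p : ℕ) : ℝ) ^ (-(1 + ε)) ≤ 1 :=
        Real.rpow_le_one_of_one_le_of_nonpos (by exact_mod_cast p.2.one_le) (by linarith)
      rw [sq]
      exact mul_le_of_le_one_right (by positivity) h2
    have hM : M * M ≠ 0 := mul_ne_zero (NeZero.ne M) (NeZero.ne M)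
    refine Summable.of_nonneg_of_le (fun p => tsum_nonneg fun j => ?_) (fun p => ?_)
      ((h1.2.add (hs2.mul_left 2)).add (bq_summable hM))
    · refine mul_nonneg (W_nonneg _ _) ?_
      rw [Complex.mul_conj, Complex.normSq_eq_norm_sq, Complex.ofReal_re]
      positivity
    · have h2 := (loc_sum hf hf 0 0 hε p).2
      rw [sub_zero] at h2
      have h3 := hf.LF_self hε p
      linarith
  · intro a
    show 0 ≤ _
    refine mul_nonneg (W_nonneg _ _) ?_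
    rw [Complex.mul_conj, Complex.normSq_eq_norm_sq, Complex.ofReal_re]
    positivity

end

section
variable {M₁ M₂ k l : ℕ} [NeZero M₁] [NeZero M₂] {f : S1 M₁ k} {g : S1 M₂ l}
  {χ : DirichletCharacter ℂ M₁} {ξ : DirichletCharacter ℂ M₂}

/-- the constant from the prime powers and the bad primes -/
def K4 (M : ℕ) : ℝ := 2 * ∑' p : Nat.Primes, ((p : ℕ) : ℝ) ^ (-2 : ℝ) + ∑' p, bq M p

/-- **Lower bound for the Rankin-Selberg series.** -/
theorem ip_le_log (hf : Hf f χ) (hg : Hf g ξ) (τ τ' : ℝ) {ε : ℝ} (hε : 0 < ε) :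
    ip (W ε) (UU f χ τ) (UU g ξ τ') ≤
      Real.log ‖CR (lm f) (lm g) (pt (τ - τ') ε)‖ + K4 (M₁ * M₂) := by
  set s : ℂ := pt (τ - τ') ε with hs'
  have hre : s.re = 1 + ε := pt_re _ ε
  have hs : 1 < s.re := by rw [hre]; linarith
  have hP := hasProd_CR hf hg hs
  have hM : M₁ * M₂ ≠ 0 := mul_ne_zero (NeZero.ne M₁) (NeZero.ne M₂)
  have hsum := L2.summable (W_nonneg ε) (hf.l2 τ hε) (hg.l2 τ' hε)
  have hip : ip (W ε) (UU f χ τ) (UU g ξ τ') =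
      ∑' p : Nat.Primes, ∑' j : ℕ, W ε (p, j) * (UU f χ τ (p, j) * conj (UU g ξ τ' (p, j))).re := by
    unfold ip
    exact hsum.tsum_prod
  have hsum1 : Summable fun p : Nat.Primes =>
      ∑' j : ℕ, W ε (p, j) * (UU f χ τ (p, j) * conj (UU g ξ τ' (p, j))).re := hsum.prod
  have hs2 : Summable fun p : Nat.Primes => ((p : ℕ) : ℝ) ^ (-2 : ℝ) :=
    Nat.Primes.summable_rpow.2 (by norm_num)
  have hle2 : ∀ p : Nat.Primes, (((p : ℕ) : ℝ) ^ (-(1 + ε))) ^ 2 ≤ ((p : ℕ) : ℝ) ^ (-2 : ℝ) := by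
    intro p
    have hp1 : (1 : ℝ) ≤ (p : ℕ) := by exact_mod_cast p.2.one_le
    rw [← Real.rpow_natCast, ← Real.rpow_mul (by positivity)]
    refine Real.rpow_le_rpow_of_exponent_le hp1 ?_
    push_cast
    linarith
  have hsum2 : Summable fun p : Nat.Primes => (((p : ℕ) : ℝ) ^ (-(1 + ε))) ^ 2 :=
    Summable.of_nonneg_of_le (fun p => by positivity) hle2 hs2
  have hsumb := bq_summable hM
  have hsum3 := (hsum1.sub (hsum2.mul_left 2)).sub hsumb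
  have hfin : ∀ T : Finset Nat.Primes, Real.exp (∑ p ∈ T, ((∑' j : ℕ, W ε (p, j) *
      (UU f χ τ (p, j) * conj (UU g ξ τ' (p, j))).re) -
      2 * (((p : ℕ) : ℝ) ^ (-(1 + ε))) ^ 2 - bq (M₁ * M₂) p)) ≤ ‖∏ p ∈ T, LF f g s p‖ := by
    intro T
    rw [norm_prod, Real.exp_sum]
    refine Finset.prod_le_prod (fun p _ => (Real.exp_pos _).le) fun p _ => ?_
    have h1 : 0 < ‖LF f g s p‖ := lt_of_lt_of_le (by norm_num) (LF_facts hf hg hs p).1
    have h2 := (loc_sum hf hg τ τ' hε p).2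
    rw [← hs'] at h2
    rw [← Real.exp_log h1]
    exact Real.exp_le_exp.2 h2
  have hlim1 : Tendsto (fun T : Finset Nat.Primes => Real.exp (∑ p ∈ T, ((∑' j : ℕ, W ε (p, j) *
      (UU f χ τ (p, j) * conj (UU g ξ τ' (p, j))).re) -
      2 * (((p : ℕ) : ℝ) ^ (-(1 + ε))) ^ 2 - bq (M₁ * M₂) p))) atTop
      (𝓝 (Real.exp (∑' p : Nat.Primes, ((∑' j : ℕ, W ε (p, j) *
      (UU f χ τ (p, j) * conj (UU g ξ τ' (p, j))).re) -
      2 * (((p : ℕ) : ℝ) ^ (-(1 + ε))) ^ 2 - bq (M₁ * M₂) p)))) :=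
    (Real.continuous_exp.tendsto _).comp hsum3.hasSum
  have hlim2 : Tendsto (fun T : Finset Nat.Primes => ‖∏ p ∈ T, LF f g s p‖) atTop
      (𝓝 ‖CR (lm f) (lm g) s‖) := Tendsto.norm hP
  have h3 := le_of_tendsto_of_tendsto' hlim1 hlim2 hfin
  have h4 := Real.log_le_log (Real.exp_pos _) h3
  rw [Real.log_exp, (hsum1.sub (hsum2.mul_left 2)).tsum_sub hsumb,
    hsum1.tsum_sub (hsum2.mul_left 2), tsum_mul_left, ← hip] at h4
  have h5 : ∑' p : Nat.Primes, (((p : ℕ) : ℝ) ^ (-(1 + ε))) ^ 2 ≤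
      ∑' p : Nat.Primes, ((p : ℕ) : ℝ) ^ (-2 : ℝ) := hsum2.tsum_le_tsum hle2 hs2
  unfold K4
  linarith

/-- **One-sided orthogonality.** -/
theorem cross_le (hf : Hf f χ) (hg : Hf g ξ) {τ τ' : ℝ}
    (h : τ - τ' ≠ 0 ∨ k ≠ l ∨ ∃ p : ℕ, p.Prime ∧ ¬ p ∣ M₁ ∧ ¬ p ∣ M₂ ∧
      (aq f p ≠ aq g p ∨ χ (p : ZMod M₁) ≠ ξ (p : ZMod M₂))) :
    ∃ C : ℝ, ∀ᶠ ε : ℝ in 𝓝[>] 0, ip (W ε) (UU f χ τ) (UU g ξ τ') ≤ C := by
  obtain ⟨C, hC⟩ := bdd_all hf hg h
  refine ⟨Real.log (|C| + 1) + K4 (M₁ * M₂), ?_⟩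
  filter_upwards [hC, self_mem_nhdsWithin] with ε h3 h4
  have hε : (0 : ℝ) < ε := h4
  refine (ip_le_log hf hg τ τ' hε).trans ?_
  have h5 : Real.log ‖CR (lm f) (lm g) (pt (τ - τ') ε)‖ ≤ Real.log (|C| + 1) := by
    rcases eq_or_lt_of_le (norm_nonneg (CR (lm f) (lm g) (pt (τ - τ') ε))) with h6 | h6
    · rw [← h6, Real.log_zero]
      exact Real.log_nonneg (by have := abs_nonneg C; linarith)
    · refine Real.log_le_log h6 ?_
      have := le_abs_self C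
      linarith
  linarith

/-- **The norm of an eigenform.** -/
theorem self_le (hf : Hf f χ) (τ : ℝ) : ∃ C : ℝ, ∀ᶠ ε : ℝ in 𝓝[>] 0,
    ip (W ε) (UU f χ τ) (UU f χ τ) ≤ lam ε + C := by
  obtain ⟨-, c, hc, hlim⟩ := rs_form f hf.neb hf.pos hf.one
  have h1 := hlim.comp shift0
  have h2 := h1.eventually (gt_mem_nhds (lt_add_one c))
  obtain ⟨B, hB⟩ := lam_bounded
  refine ⟨Real.log (c + 1) + K4 (M₁ * M₁) + B, ?_⟩
  filter_upwards [h2, hB, self_mem_nhdsWithin] with ε h3 hB' h4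
  have hε : (0 : ℝ) < ε := h4
  refine (ip_le_log hf hf τ τ hε).trans ?_
  rw [sub_self]
  have e0 : pt 0 ε = ((1 + ε : ℝ) : ℂ) := by
    unfold pt
    push_cast
    ring
  have e1 : CR (lm f) (lm f) (pt 0 ε) = ((SD f (1 + ε) : ℝ) : ℂ) := by
    rw [e0]
    exact CR_self f _
  simp only [Function.comp_apply] at h3
  rw [add_sub_cancel_left] at h3
  have h0 : 0 ≤ SD f (1 + ε) := tsum_nonneg (term_nonneg f _)
  have h5 : Real.log ‖CR (lm f) (lm f) (pt 0 ε)‖ ≤ Real.log (1 / ε) + Real.log (c + 1) := by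
    rw [e1, Complex.norm_real, Real.norm_of_nonneg h0,
      ← Real.log_mul (by positivity) (by positivity)]
    rcases eq_or_lt_of_le h0 with h6 | h6
    · exfalso
      have h8 := (hf.sm (1 + ε) (by linarith)).le_tsum 1 (fun n _ => term_nonneg f _ n)
      have h9 : SD f (1 + ε) = ∑' n : ℕ, gg f n * (n : ℝ) ^ (-(1 + ε)) := rfl
      rw [← h9, ← h6] at h8
      simp only [Nat.cast_one, Real.one_rpow, mul_one] at h8
      rw [gg_eq, hf.lm_one] at h8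
      norm_num at h8
    · refine Real.log_le_log h6 ?_
      rw [one_div, inv_mul_eq_div, le_div_iff₀ hε, mul_comm]
      exact h3.le
  have h6 : Real.log (1 / ε) = -Real.log ε := by rw [one_div, Real.log_inv]
  have h7 := (abs_le.1 hB').1
  rw [h6] at h5
  linarith

end

end

end Run7.h186.NU
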