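import Pool.Agent.Run7.h186.NU4
import Pool.Agent.Y149.TL.Core

/-! The size of the `L`-functions on the edge line in terms of the sums over the prime powers. -/

set_option autoImplicit false
set_option linter.unusedSectionVars false

namespace Run7.h186.NU

open Finset Filter Topology Complex ComplexConjugate Polynomial
open Pool.Agent.H341R2 (lam lam_tendsto lam_bounded K2 tprod_split norm_neg_log_sub_le
  prime_rpow_le_two)
open Pool.Agent.Y149.CM (LFun norm_msum)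
open Pool.Agent.Y149.PK (tens lam_pos lam_log log_inv_tendsto)
open Pool.Agent.Y149.TL (IsEuler HasOrder size edge Pure line_order)

noncomputable section

/-- the mass of the weights -/
theorem W_mass {ε : ℝ} (hε : 0 < ε) : Summable (W ε) ∧ ∑' a, W ε a ≤ lam ε + K2 := by
  have hx : ∀ p : Nat.Primes, 0 ≤ ((p : ℕ) : ℝ) ^ (-(1 + ε)) ∧
      ((p : ℕ) : ℝ) ^ (-(1 + ε)) ≤ 1 / 2 := fun p =>
    ⟨by positivity, prime_rpow_le_two (by linarith)⟩
  have hloc : ∀ p : Nat.Primes, HasSum (fun k : ℕ => W ε (p, k))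
      (-Real.log (1 - ((p : ℕ) : ℝ) ^ (-(1 + ε)))) := by
    intro p
    obtain ⟨h1, h2⟩ := hx p
    have h3 : |((p : ℕ) : ℝ) ^ (-(1 + ε))| < 1 := by
      rw [abs_of_nonneg h1]
      linarith
    refine (Real.hasSum_pow_div_log_of_abs_lt_one h3).congr_fun fun k => ?_
    unfold W
    rfl
  have hle2 : ∀ p : Nat.Primes, (((p : ℕ) : ℝ) ^ (-(1 + ε))) ^ 2 ≤ ((p : ℕ) : ℝ) ^ (-2 : ℝ) := by
    intro p
    have hp1 : (1 : ℝ) ≤ (p : ℕ) := by exact_mod_cast p.2.one_le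
    rw [← Real.rpow_natCast, ← Real.rpow_mul (by positivity)]
    refine Real.rpow_le_rpow_of_exponent_le hp1 ?_
    push_cast
    linarith
  have hb : ∀ p : Nat.Primes, ∑' k : ℕ, W ε (p, k) ≤
      ((p : ℕ) : ℝ) ^ (-(1 + ε)) + ((p : ℕ) : ℝ) ^ (-2 : ℝ) := by
    intro p
    rw [(hloc p).tsum_eq]
    obtain ⟨h1, h2⟩ := hx p
    set x : ℝ := ((p : ℕ) : ℝ) ^ (-(1 + ε)) with hxd
    have h3 := norm_neg_log_sub_le (z := (x : ℂ)) (by
      rw [Complex.norm_real, Real.norm_of_nonneg h1]; exact h2)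
    rw [Complex.norm_real, Real.norm_of_nonneg h1] at h3
    have h4 := (Complex.re_le_norm _).trans h3
    rw [Complex.sub_re, Complex.neg_re, Complex.log_re, Complex.ofReal_re] at h4
    have h5 : ‖1 - (x : ℂ)‖ = 1 - x := by
      have : (1 - (x : ℂ)) = ((1 - x : ℝ) : ℂ) := by push_cast; rfl
      rw [this, Complex.norm_real, Real.norm_of_nonneg (by linarith)]
    rw [h5] at h4
    have h6 := hle2 p
    rw [← hxd] at h6
    linarith
  have hs1 : Summable fun p : Nat.Primes => ((p : ℕ) : ℝ) ^ (-(1 + ε)) :=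
    Nat.Primes.summable_rpow.2 (by linarith)
  have hs2 : Summable fun p : Nat.Primes => ((p : ℕ) : ℝ) ^ (-2 : ℝ) :=
    Nat.Primes.summable_rpow.2 (by norm_num)
  have hs3 : Summable fun p : Nat.Primes => ∑' k : ℕ, W ε (p, k) :=
    Summable.of_nonneg_of_le (fun p => tsum_nonneg fun k => W_nonneg _ _) hb (hs1.add hs2)
  have hs : Summable (W ε) := by
    rw [summable_prod_of_nonneg (fun a => W_nonneg ε a)]
    exact ⟨fun p => (hloc p).summable, hs3⟩
  refine ⟨hs, ?_⟩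
  have e0 : ∑' a, W ε a = ∑' p : Nat.Primes, ∑' k : ℕ, W ε (p, k) := hs.tsum_prod
  rw [e0]
  refine (hs3.tsum_le_tsum hb (hs1.add hs2)).trans (le_of_eq ?_)
  rw [hs1.tsum_add hs2]
  rfl

theorem L2_bdd {Q : PP → ℂ} {c : ℝ} (hc : 0 ≤ c) (hQ : ∀ a, ‖Q a‖ ≤ c) {ε : ℝ} (hε : 0 < ε) :
    L2 (W ε) Q ∧ ip (W ε) Q Q ≤ c ^ 2 * (lam ε + K2) := by
  have h1 := W_mass hε
  have h2 : ∀ a, W ε a * ‖Q a‖ ^ 2 ≤ c ^ 2 * W ε a := by
    intro a
    rw [mul_comm]
    exact mul_le_mul_of_nonneg_right (pow_le_pow_left₀ (norm_nonneg _) (hQ a) 2) (W_nonneg _ _)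
  have h3 : L2 (W ε) Q := Summable.of_nonneg_of_le
    (fun a => mul_nonneg (W_nonneg _ _) (sq_nonneg _)) h2 (h1.1.mul_left _)
  refine ⟨h3, ?_⟩
  rw [ip_self]
  refine (Summable.tsum_le_tsum h2 h3 (h1.1.mul_left _)).trans ?_
  rw [tsum_mul_left]
  exact mul_le_mul_of_nonneg_left h1.2 (sq_nonneg _)

theorem multi_log (M : Multiset ℂ) (x : ℂ) (h : ∀ α ∈ M, ‖α * x‖ < 1) :
    HasSum (fun k : ℕ => (M.map fun α => (α * x) ^ (k + 1)).sum / ((k : ℂ) + 1))
      ((M.map fun α => -Complex.log (1 - α * x)).sum) ∧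
    Complex.exp ((M.map fun α => -Complex.log (1 - α * x)).sum) =
      ((M.map fun α => 1 - α * x).prod)⁻¹ := by
  induction M using Multiset.induction_on with
  | empty =>
    simp only [Multiset.map_zero, Multiset.sum_zero, zero_div, Complex.exp_zero,
      Multiset.prod_zero, inv_one, and_true]
    exact hasSum_zero
  | cons α M ih =>
    obtain ⟨h1, h2⟩ := ih fun β hβ => h β (Multiset.mem_cons_of_mem hβ)
    have h3 := h α (Multiset.mem_cons_self _ _)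
    have hne : 1 - α * x ≠ 0 := by
      intro h0
      have h4 : α * x = 1 := (sub_eq_zero.1 h0).symm
      rw [h4, norm_one] at h3
      exact lt_irrefl _ h3
    constructor
    · rw [Multiset.map_cons, Multiset.sum_cons]
      refine ((hasSum_log h3).add h1).congr_fun fun k => ?_
      rw [Multiset.map_cons, Multiset.sum_cons, add_div]
    · rw [Multiset.map_cons, Multiset.sum_cons, Complex.exp_add, h2, Multiset.map_cons,
        Multiset.prod_cons, mul_inv, Complex.exp_neg, Complex.exp_log hne]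

theorem geo_bound {p : Nat.Primes} {ε : ℝ} (hε : 0 < ε) :
    ((p : ℕ) : ℝ) ^ (-(1 + ε)) * Real.sqrt (p : ℕ) ≤ 3 / 4 := by
  have h2 : (2 : ℝ) ≤ (p : ℕ) := by exact_mod_cast p.2.two_le
  have hp0 : (0 : ℝ) < (p : ℕ) := by linarith
  have h3 : ((p : ℕ) : ℝ) ^ (-(1 + ε)) ≤ ((p : ℕ) : ℝ)⁻¹ := by
    rw [← Real.rpow_neg_one]
    exact Real.rpow_le_rpow_of_exponent_le (by linarith) (by linarith)
  have h4 : 0 ≤ Real.sqrt (p : ℕ) := Real.sqrt_nonneg _
  refine (mul_le_mul_of_nonneg_right h3 h4).trans ?_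
  have h5 : 4 / 3 ≤ Real.sqrt (p : ℕ) := by
    refine Real.le_sqrt_of_sq_le ?_
    norm_num
    linarith
  have h6 : Real.sqrt (p : ℕ) * Real.sqrt (p : ℕ) = (p : ℕ) := Real.mul_self_sqrt hp0.le
  rw [inv_mul_eq_div, div_le_iff₀ hp0]
  nlinarith

section
variable {w : ℤ} {B : Nat.Primes → ℂ[X]} {δ : Nat.Primes → Multiset ℂ}

theorem pow_pt (w : ℤ) (τ ε : ℝ) (p : Nat.Primes) : ((p : ℕ) : ℂ) ^ (-(edge w τ + ε)) =
    ((((p : ℕ) : ℝ) ^ ((w : ℝ) / 2) : ℝ) : ℂ)⁻¹ * (((((p : ℕ) : ℝ) ^ (-(1 + ε)) : ℝ) : ℂ) *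
      ((p : ℕ) : ℂ) ^ (-((τ : ℂ) * Complex.I))) := by
  have hpp : (0 : ℝ) < (p : ℕ) := by exact_mod_cast p.2.pos
  have hpc : ((p : ℕ) : ℂ) ≠ 0 := by exact_mod_cast p.2.ne_zero
  have e0 : ((((p : ℕ) : ℝ) ^ ((w : ℝ) / 2) : ℝ) : ℂ)⁻¹ = ((p : ℕ) : ℂ) ^ (-((w : ℂ) / 2)) := by
    rw [Complex.ofReal_cpow hpp.le, ← Complex.cpow_neg]
    push_cast
    rfl
  have e1 : ((((p : ℕ) : ℝ) ^ (-(1 + ε)) : ℝ) : ℂ) = ((p : ℕ) : ℂ) ^ (-((1 : ℂ) + ε)) := by
    rw [Complex.ofReal_cpow hpp.le]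
    push_cast
    rfl
  rw [e0, e1, ← Complex.cpow_add _ _ hpc, ← Complex.cpow_add _ _ hpc]
  congr 1
  unfold edge
  ring

/-- **The size lemma.** -/
theorem link (hB : IsEuler w δ B) (τ : ℝ) {T : PP → ℂ} {C0 : ℝ}
    (hT : ∀ a : PP, ‖T a‖ ≤ C0 * Real.sqrt (a.1 : ℕ) ^ (a.2 + 1))
    (hsum : ∀ ε : ℝ, 0 < ε → Summable fun a => W ε a * ‖T a‖)
    (hδ : ∀ᶠ p : Nat.Primes in cofinite,
      (∀ z ∈ δ p, ‖z‖ ≤ ((p : ℕ) : ℝ) ^ ((w : ℝ) / 2) * Real.sqrt (p : ℕ)) ∧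
      ∀ k : ℕ, T (p, k) = ((δ p).map fun z =>
        (z * ((((p : ℕ) : ℝ) ^ ((w : ℝ) / 2) : ℝ) : ℂ)⁻¹) ^ (k + 1)).sum * tw τ (p, k)) :
    ∃ C : ℝ, ∀ᶠ ε : ℝ in 𝓝[>] 0, LFun B (edge w τ + ε) ≠ 0 ∧
      |Real.log ‖LFun B (edge w τ + ε)‖ - ∑' a, W ε a * (T a).re| ≤ C := by
  classical
  set Good : Nat.Primes → Prop := fun p =>
    ((∀ z ∈ δ p, ‖z‖ ≤ ((p : ℕ) : ℝ) ^ ((w : ℝ) / 2) * Real.sqrt (p : ℕ)) ∧
      ∀ k : ℕ, T (p, k) = ((δ p).map fun z =>
        (z * ((((p : ℕ) : ℝ) ^ ((w : ℝ) / 2) : ℝ) : ℂ)⁻¹) ^ (k + 1)).sum * tw τ (p, k)) ∧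
    ∀ z : ℂ, (B p).eval z = ((δ p).map fun α => 1 - α * z).prod with hGood
  have hev : ∀ᶠ p : Nat.Primes in cofinite, Good p := hδ.and hB.1
  have hfin : {p | ¬ Good p}.Finite := eventually_cofinite.1 hev
  have hC0 : 0 ≤ C0 := by
    have h1 := (norm_nonneg _).trans (hT (⟨2, Nat.prime_two⟩, 0))
    have h2 : (0 : ℝ) < Real.sqrt ((⟨2, Nat.prime_two⟩ : Nat.Primes) : ℕ) ^ (0 + 1) := by
      have : (0 : ℝ) < Real.sqrt ((2 : ℕ) : ℝ) := Real.sqrt_pos.2 (by norm_num)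
      exact pow_pos this _
    exact nonneg_of_mul_nonneg_left h1 h2
  -- the bad factors
  have hbad : ∃ C : ℝ, ∀ᶠ ε : ℝ in 𝓝[>] 0, (∀ p ∈ hfin.toFinset,
      ((B p).eval (((p : ℕ) : ℂ) ^ (-(edge w τ + ε)))) ≠ 0) ∧
      |∑ p ∈ hfin.toFinset,
        Real.log ‖((B p).eval (((p : ℕ) : ℂ) ^ (-(edge w τ + ε))))⁻¹‖| ≤ C := by
    have hcont : ∀ p : Nat.Primes, Tendsto (fun ε : ℝ =>
        (B p).eval (((p : ℕ) : ℂ) ^ (-(edge w τ + ε)))) (𝓝[>] 0)
        (𝓝 ((B p).eval (((p : ℕ) : ℂ) ^ (-(edge w τ))))) := by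
      intro p
      have hpc : ((p : ℕ) : ℂ) ≠ 0 := by exact_mod_cast p.2.ne_zero
      have h1 : Continuous fun ε : ℝ => (B p).eval (((p : ℕ) : ℂ) ^ (-(edge w τ + ε))) := by
        refine (B p).continuous.comp ?_
        refine Continuous.const_cpow (by fun_prop) (Or.inl hpc)
      have h2 := h1.tendsto 0
      simp only [Complex.ofReal_zero, add_zero] at h2
      exact h2.mono_left nhdsWithin_le_nhds
    have h1 : ∀ᶠ ε : ℝ in 𝓝[>] 0, ∀ p ∈ hfin.toFinset,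
        ((B p).eval (((p : ℕ) : ℂ) ^ (-(edge w τ + ε)))) ≠ 0 := by
      rw [Filter.eventually_all_finset]
      intro p _
      exact (hcont p).eventually_ne (hB.2 p τ)
    have h2 : Tendsto (fun ε : ℝ => |∑ p ∈ hfin.toFinset,
        Real.log ‖((B p).eval (((p : ℕ) : ℂ) ^ (-(edge w τ + ε))))⁻¹‖|) (𝓝[>] 0)
        (𝓝 (|∑ p ∈ hfin.toFinset,
        Real.log ‖((B p).eval (((p : ℕ) : ℂ) ^ (-(edge w τ))))⁻¹‖|)) := by
      refine (tendsto_finsetSum _ fun p _ => ?_).abs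
      refine (((hcont p).inv₀ (hB.2 p τ)).norm).log ?_
      exact norm_ne_zero_iff.2 (inv_ne_zero (hB.2 p τ))
    obtain ⟨C, hC⟩ := h2.isBoundedUnder_le
    exact ⟨C, h1.and (Filter.eventually_map.1 hC)⟩
  obtain ⟨Cb, hCb⟩ := hbad
  refine ⟨Cb + hfin.toFinset.card * (C0 * 3), ?_⟩
  filter_upwards [hCb, self_mem_nhdsWithin] with ε hb hε'
  have hε : (0 : ℝ) < ε := hε'
  set s : ℂ := edge w τ + ε with hs
  have hsn := hsum ε hε
  set G : Nat.Primes → ℂ := fun p => ∑' k : ℕ, (W ε (p, k) : ℂ) * T (p, k) with hG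
  have hnorm : ∀ a : PP, ‖(W ε a : ℂ) * T a‖ = W ε a * ‖T a‖ := by
    intro a
    rw [norm_mul, Complex.norm_real, Real.norm_of_nonneg (W_nonneg _ _)]
  have hsC : Summable fun a : PP => (W ε a : ℂ) * T a := by
    refine Summable.of_norm ?_
    simp_rw [hnorm]
    exact hsn
  have hGs : Summable G := hsC.prod
  -- the local sums
  have hloc : ∀ p, Good p → cexp (G p) = ((B p).eval (((p : ℕ) : ℂ) ^ (-s)))⁻¹ := by
    intro p hp
    have hp0 : (0 : ℝ) < (p : ℕ) := by exact_mod_cast p.2.pos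
    have hq : (0 : ℝ) < ((p : ℕ) : ℝ) ^ ((w : ℝ) / 2) := Real.rpow_pos_of_pos hp0 _
    have hx := pow_pt w τ ε p
    rw [← hs] at hx
    have h1 : ∀ α ∈ δ p, ‖α * ((p : ℕ) : ℂ) ^ (-s)‖ < 1 := by
      intro α hα
      have h2 := hp.1.1 α hα
      rw [hx, norm_mul, norm_mul, norm_mul, norm_inv, Complex.norm_real, Complex.norm_real,
        Real.norm_of_nonneg hq.le, Real.norm_of_nonneg (by positivity),
        Run7.h186.NT.norm_pI, mul_one]
      have h3 : ‖α‖ * (((p : ℕ) : ℝ) ^ ((w : ℝ) / 2))⁻¹ ≤ Real.sqrt (p : ℕ) := by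
        rw [← div_eq_mul_inv, div_le_iff₀ hq, mul_comm]
        exact h2
      have h4 := geo_bound (p := p) hε
      have h5 : (0 : ℝ) ≤ ((p : ℕ) : ℝ) ^ (-(1 + ε)) := by positivity
      have h6 := mul_le_mul_of_nonneg_right h3 h5
      rw [← mul_assoc]
      linarith
    obtain ⟨h7, h8⟩ := multi_log (δ p) (((p : ℕ) : ℂ) ^ (-s)) h1
    rw [hp.2, ← h8]
    congr 1
    rw [hG]
    simp only
    rw [← h7.tsum_eq]
    refine tsum_congr fun k => ?_
    rw [hp.1.2 k]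
    have e1 : ∀ α : ℂ, (α * ((p : ℕ) : ℂ) ^ (-s)) ^ (k + 1) =
        (α * ((((p : ℕ) : ℝ) ^ ((w : ℝ) / 2) : ℝ) : ℂ)⁻¹) ^ (k + 1) *
        ((((((p : ℕ) : ℝ) ^ (-(1 + ε)) : ℝ) : ℂ)) ^ (k + 1) * tw τ (p, k)) := by
      intro α
      rw [hx]
      unfold tw
      simp only
      rw [← mul_pow, ← mul_pow]
      congr 1
      ring
    simp_rw [e1]
    rw [Multiset.sum_map_mul_right]
    unfold W
    push_cast
    ring
  have hGn : ∀ p, ‖G p‖ ≤ C0 * 3 := by
    intro p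
    have hgeo : HasSum (fun k : ℕ => C0 * ((3 / 4 : ℝ) ^ k * (3 / 4))) (C0 * 3) := by
      have h1 := (hasSum_geometric_of_lt_one (by norm_num : (0 : ℝ) ≤ 3 / 4)
        (by norm_num)).mul_right (3 / 4)
      have h2 := h1.mul_left C0
      norm_num at h2
      norm_num
      exact h2
    refine tsum_of_norm_bounded hgeo fun k => ?_
    rw [hnorm (p, k)]
    have h1 := hT (p, k)
    have h2 : W ε (p, k) ≤ (((p : ℕ) : ℝ) ^ (-(1 + ε))) ^ (k + 1) := by
      unfold W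
      simp only
      refine div_le_self (by positivity) ?_
      have : (0 : ℝ) ≤ (k : ℝ) := Nat.cast_nonneg k
      linarith
    calc W ε (p, k) * ‖T (p, k)‖ ≤ (((p : ℕ) : ℝ) ^ (-(1 + ε))) ^ (k + 1) *
          (C0 * Real.sqrt (p : ℕ) ^ (k + 1)) :=
          mul_le_mul h2 h1 (norm_nonneg _) (by positivity)
      _ = C0 * (((p : ℕ) : ℝ) ^ (-(1 + ε)) * Real.sqrt (p : ℕ)) ^ (k + 1) := by
          rw [mul_pow]; ring
      _ ≤ C0 * (3 / 4) ^ (k + 1) :=
          mul_le_mul_of_nonneg_left (pow_le_pow_left₀ (by positivity) (geo_bound hε) _) hC0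
      _ = _ := by rw [pow_succ]
  have hgood : Summable fun p => if Good p then G p else 0 := by
    have := hGs.indicator {p | Good p}
    refine this.congr fun p => ?_
    by_cases hp : Good p
    · rw [if_pos hp, Set.indicator_of_mem (by exact hp)]
    · rw [if_neg hp, Set.indicator_of_notMem (by exact hp)]
  have hprod := tprod_split hfin G (fun p => ((B p).eval (((p : ℕ) : ℂ) ^ (-s)))⁻¹) hgood
  have hL : LFun B s = (∏ p ∈ hfin.toFinset, ((B p).eval (((p : ℕ) : ℂ) ^ (-s)))⁻¹) *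
      cexp (∑' p, if Good p then G p else 0) := by
    rw [← hprod, LFun]
    refine tprod_congr fun p => ?_
    split_ifs with h
    · rw [hloc p h]
    · rfl
  refine ⟨?_, ?_⟩
  · rw [hL]
    exact mul_ne_zero (Finset.prod_ne_zero_iff.2 fun p hp => inv_ne_zero (hb.1 p hp))
      (Complex.exp_ne_zero _)
  have hlog : Real.log ‖LFun B s‖ = ∑ p ∈ hfin.toFinset,
        Real.log ‖((B p).eval (((p : ℕ) : ℂ) ^ (-s)))⁻¹‖ +
        (∑' p, if Good p then G p else 0).re := by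
    rw [hL, norm_mul, Complex.norm_exp, Real.log_mul, Real.log_exp, norm_prod, Real.log_prod]
    · intro p hp
      exact norm_ne_zero_iff.2 (inv_ne_zero (hb.1 p hp))
    · rw [norm_prod]
      exact Finset.prod_ne_zero_iff.2 fun p hp => norm_ne_zero_iff.2 (inv_ne_zero (hb.1 p hp))
    · exact (Real.exp_pos _).ne'
  have htot : ∑' a, W ε a * (T a).re = (∑' p, if Good p then G p else 0).re +
      (∑ p ∈ hfin.toFinset, G p).re := by
    have e1 : ∑' a, W ε a * (T a).re = (∑' a : PP, (W ε a : ℂ) * T a).re := by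
      rw [Complex.re_tsum hsC]
      refine tsum_congr fun a => ?_
      rw [Complex.re_ofReal_mul]
    have e2 : ∑' a : PP, (W ε a : ℂ) * T a = ∑' p, G p := hsC.tsum_prod
    have e3 : ∑' p, G p = (∑' p, if Good p then G p else 0) + ∑' p, if Good p then 0 else G p := by
      have hrest : Summable fun p => if Good p then 0 else G p := by
        refine (hGs.sub hgood).congr fun p => ?_
        by_cases hp : Good p
        · rw [if_pos hp, if_pos hp, sub_self]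
        · rw [if_neg hp, if_neg hp, sub_zero]
      rw [← hgood.tsum_add hrest]
      refine tsum_congr fun p => ?_
      by_cases hp : Good p
      · rw [if_pos hp, if_pos hp, add_zero]
      · rw [if_neg hp, if_neg hp, zero_add]
    have e4 : (∑' p, if Good p then 0 else G p) = ∑ p ∈ hfin.toFinset, G p := by
      rw [tsum_eq_sum (s := hfin.toFinset)]
      · refine Finset.sum_congr rfl fun p hp => ?_
        rw [if_neg (hfin.mem_toFinset.1 hp)]
      · intro p hp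
        have : Good p := by
          by_contra h
          exact hp (hfin.mem_toFinset.2 h)
        rw [if_pos this]
    rw [e1, e2, e3, e4, Complex.add_re]
  have hbd : |(∑ p ∈ hfin.toFinset, G p).re| ≤ hfin.toFinset.card * (C0 * 3) := by
    refine (Complex.abs_re_le_norm _).trans ((norm_sum_le _ _).trans ?_)
    rw [← nsmul_eq_mul]
    exact Finset.sum_le_card_nsmul _ _ _ fun p _ => hGn p
  rw [hlog, htot]
  have h7 := hb.2
  rw [abs_le] at *
  constructor <;> linarith [hbd.1, hbd.2, h7.1, h7.2]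

/-- the size is the mean -/
theorem size_lim (B : Nat.Primes → ℂ[X]) (w : ℤ) (τ : ℝ) {Y : ℝ → ℝ} {C2 : ℝ}
    (h : ∃ C : ℝ, ∀ᶠ ε : ℝ in 𝓝[>] 0, LFun B (edge w τ + ε) ≠ 0 ∧
      |Real.log ‖LFun B (edge w τ + ε)‖ - Y ε| ≤ C)
    (hY : ∀ᶠ ε : ℝ in 𝓝[>] 0, |Y ε| ≤ C2 * lam ε) :
    Tendsto (fun ε : ℝ => size w B τ ε - Y ε / lam ε) (𝓝[>] 0) (𝓝 0) := by
  obtain ⟨C, hC⟩ := h
  have h1 : Tendsto (fun ε : ℝ => C / Real.log (1 / ε) + C2 * |lam ε / Real.log (1 / ε) - 1|)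
      (𝓝[>] 0) (𝓝 0) := by
    have h2 := (log_inv_tendsto.const_div_atTop C).add
      (((lam_log.sub_const 1).abs).const_mul C2)
    rw [sub_self, abs_zero, mul_zero, add_zero] at h2
    exact h2
  rw [tendsto_zero_iff_abs_tendsto_zero]
  refine squeeze_zero' (Filter.Eventually.of_forall fun _ => abs_nonneg _) ?_ h1
  filter_upwards [hC, log_inv_tendsto.eventually_gt_atTop 0, lam_pos, hY] with ε g1 g2 g3 g4
  have e1 : size w B τ ε - Y ε / lam ε =
      (Real.log ‖LFun B (edge w τ + ε)‖ - Y ε) / Real.log (1 / ε) +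
      (Y ε / lam ε) * (lam ε / Real.log (1 / ε) - 1) := by
    unfold size
    field_simp
    ring
  simp only [Function.comp_apply]
  rw [e1]
  refine (abs_add_le _ _).trans (add_le_add ?_ ?_)
  · rw [abs_div, abs_of_pos g2]
    exact div_le_div_of_nonneg_right g1.2 g2.le
  · rw [abs_mul]
    refine mul_le_mul_of_nonneg_right ?_ (abs_nonneg _)
    rw [abs_div, abs_of_pos g3, div_le_iff₀ g3]
    exact g4

end

end

end Run7.h186.NU
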