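import Pool.Agent.Run7.h186.NU5
import Pool.Agent.Run7.h186.NT15

/-! The mean square for an arbitrary pure system twisted by the eigenforms. -/

set_option autoImplicit false
set_option linter.unusedSectionVars false

namespace Run7.h186.NU

open Finset Filter Topology Complex ComplexConjugate Polynomial
open Pool.Agent.H341R2 (lam lam_tendsto lam_bounded K2)
open Pool.Agent.Y149.CM (LFun norm_msum)
open Pool.Agent.Y149.PK (tens lam_pos)
open Pool.Agent.Y149.TL (IsEuler HasOrder size edge Pure line_order tens_pure tensL)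
open Run7.h186.NT (S1 aq lm half_pow max_perturb sqrt_pow_eq finite_dvd)

noncomputable section

/-- the family -/
def fam {ι : Type} (f : ι → Eigenform) (x : ι × ℝ) (a : PP) : ℂ :=
  conj (UU (M := (f x.1).level) (k := (f x.1).weight) (f x.1).form (f x.1).chi x.2 a)

theorem ip_conj (w : PP → ℝ) (u v : PP → ℂ) :
    ip w (fun a => conj (u a)) (fun a => conj (v a)) = ip w u v := by
  unfold ip
  refine tsum_congr fun a => ?_
  rw [← map_mul, Complex.conj_re]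

theorem l2_conj {w : PP → ℝ} {u : PP → ℂ} (h : L2 w u) : L2 w fun a => conj (u a) := by
  unfold L2 at *
  refine h.congr fun a => ?_
  rw [Complex.norm_conj]

/-- **The family of the eigenforms.** -/
theorem fam_Fam {ι : Type} {f : ι → Eigenform} (hψ : ∀ e e', e ≠ e' → Differ (f e) (f e')) :
    Fam W lam (fam f) := by
  refine ⟨fun x => ?_, fun x => ?_, fun x y hxy => ?_⟩
  · filter_upwards [self_mem_nhdsWithin] with ε hε
    exact l2_conj ((f x.1).hf.l2 x.2 hε)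
  · obtain ⟨C, hC⟩ := self_le (f x.1).hf x.2
    refine ⟨C, hC.mono fun ε h => ?_⟩
    unfold fam
    rw [ip_conj]
    exact h
  · obtain ⟨C, hC⟩ := cross_le (f x.1).hf (f y.1).hf (τ := x.2) (τ' := y.2) (by
      by_cases h2 : x.2 = y.2
      · have h1 : x.1 ≠ y.1 := fun h1 => hxy (Prod.ext h1 h2)
        rcases hψ _ _ h1 with h | ⟨p, hp, g1, g2, g3⟩
        · exact Or.inr (Or.inl h)
        · exact Or.inr (Or.inr ⟨p, hp, g1, g2, g3⟩)
      · exact Or.inl (sub_ne_zero.2 h2))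
    refine ⟨C, hC.mono fun ε h => ?_⟩
    unfold fam
    rw [ip_conj]
    exact h

/-- the good primes -/
theorem good (f : Eigenform) : ∀ᶠ p : Nat.Primes in cofinite, ¬ (p : ℕ) ∣ f.level := by
  rw [eventually_cofinite]
  refine (finite_dvd f.level_pos.ne').subset fun p hp => ?_
  rw [Set.mem_ofPred_eq, not_not] at hp
  exact hp

/-- the weight of the Galois representation -/
def wg (f : Eigenform) : ℕ := f.weight - 1

/-- the coefficient -/
def lmf (f : Eigenform) (p : ℕ) : ℂ := lm (N := f.level) (k := f.weight) f.form p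

theorem frob_eq (f : Eigenform) (p : Nat.Primes) :
    frob f p = {((((p : ℕ) : ℝ) ^ (((wg f : ℤ) : ℝ) / 2) : ℝ) : ℂ) *
        al (lmf f p) (f.chi ((p : ℕ) : ZMod f.level)),
      ((((p : ℕ) : ℝ) ^ (((wg f : ℤ) : ℝ) / 2) : ℝ) : ℂ) *
        be (lmf f p) (f.chi ((p : ℕ) : ZMod f.level))} := by
  have hpp : (0 : ℝ) < ((p : ℕ) : ℝ) := by exact_mod_cast p.2.pos
  have hk := f.weight_pos
  rw [← sqrt_pow_eq]
  have hw : wg f = f.weight - 1 := rfl
  rw [hw]
  set u := al (lmf f p) (f.chi ((p : ℕ) : ZMod f.level)) with hu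
  set v := be (lmf f p) (f.chi ((p : ℕ) : ZMod f.level)) with hv
  have hs : u + v = lmf f p := al_add _ _
  have hm : u * v = f.chi ((p : ℕ) : ZMod f.level) := al_mul _ _
  set P : ℂ := ((Real.sqrt (p : ℕ) ^ (f.weight - 1) : ℝ) : ℂ) with hP
  have e2 : P ^ 2 = ((p : ℕ) : ℂ) ^ (f.weight - 1) := by
    rw [hP, ← Complex.ofReal_pow, ← pow_mul, mul_comm, pow_mul, Real.sq_sqrt hpp.le,
      Complex.ofReal_pow, Complex.ofReal_natCast]
  have e3 : Real.sqrt (p : ℕ) ^ (f.weight - 1) = ((p : ℕ) : ℝ) ^ (((f.weight : ℝ) - 1) / 2) := by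
    rw [Real.sqrt_eq_rpow, ← Real.rpow_natCast, ← Real.rpow_mul hpp.le, Nat.cast_sub hk]
    congr 1
    push_cast
    ring
  have e4 : f.a p = P * (u + v) := by
    rw [hs, hP, e3]
    unfold lmf lm
    have e5 : f.a p = aq (N := f.level) (k := f.weight) f.form p := rfl
    rw [e5, mul_comm, mul_assoc, ← Complex.ofReal_mul, ← Real.rpow_add hpp, neg_add_cancel,
      Real.rpow_zero]
    simp
  unfold frob
  rw [e4]
  have e6 : (X ^ 2 - C (P * (u + v)) * X +
      C (f.chi ((p : ℕ) : ZMod f.level) * ((p : ℕ) : ℂ) ^ (f.weight - 1)) : ℂ[X]) =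
      (X - C (P * u)) * (X - C (P * v)) := by
    rw [← hm, ← e2]
    simp only [map_mul, map_add, map_pow]
    ring
  rw [e6, Polynomial.roots_mul (mul_ne_zero (X_sub_C_ne_zero _) (X_sub_C_ne_zero _)),
    roots_X_sub_C, roots_X_sub_C]
  rfl

theorem root_sqrt (f : Eigenform) (p : Nat.Primes) :
    ‖al (lmf f p) (f.chi ((p : ℕ) : ZMod f.level))‖ ≤ Real.sqrt (p : ℕ) ∧
    ‖be (lmf f p) (f.chi ((p : ℕ) : ZMod f.level))‖ ≤ Real.sqrt (p : ℕ) := by
  have h := f.hf.root_le p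
  exact ⟨Real.le_sqrt_of_sq_le h.1, Real.le_sqrt_of_sq_le h.2⟩

theorem frob_le (f : Eigenform) (p : Nat.Primes) : ∀ z ∈ frob f p,
    ‖z‖ ≤ ((p : ℕ) : ℝ) ^ (((wg f : ℤ) : ℝ) / 2) * Real.sqrt (p : ℕ) := by
  have hq : (0 : ℝ) ≤ ((p : ℕ) : ℝ) ^ (((wg f : ℤ) : ℝ) / 2) := by positivity
  obtain ⟨h1, h2⟩ := root_sqrt f p
  intro z hz
  rw [frob_eq] at hz
  simp only [Multiset.insert_eq_cons, Multiset.mem_cons, Multiset.mem_singleton] at hz
  rcases hz with rfl | rfl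
  · rw [norm_mul, Complex.norm_real, Real.norm_of_nonneg hq]
    exact mul_le_mul_of_nonneg_left h1 hq
  · rw [norm_mul, Complex.norm_real, Real.norm_of_nonneg hq]
    exact mul_le_mul_of_nonneg_left h2 hq

theorem frob_pow (f : Eigenform) (p : Nat.Primes) (k : ℕ) :
    ((frob f p).map fun z =>
      (z * ((((p : ℕ) : ℝ) ^ (((wg f : ℤ) : ℝ) / 2) : ℝ) : ℂ)⁻¹) ^ (k + 1)).sum =
      us (lmf f p) (f.chi ((p : ℕ) : ZMod f.level)) k := by
  have hpp : (0 : ℝ) < ((p : ℕ) : ℝ) := by exact_mod_cast p.2.pos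
  have hq : ((((p : ℕ) : ℝ) ^ (((wg f : ℤ) : ℝ) / 2) : ℝ) : ℂ) ≠ 0 := by
    exact_mod_cast (Real.rpow_pos_of_pos hpp _).ne'
  rw [frob_eq]
  simp only [Multiset.insert_eq_cons, Multiset.map_cons, Multiset.map_singleton,
    Multiset.sum_cons, Multiset.sum_singleton]
  unfold us
  congr 2
  · field_simp
  · field_simp

theorem frob_pure {f : Eigenform} (h : Ramanujan f) (p : Nat.Primes) (hp : ¬ (p : ℕ) ∣ f.level) :
    Pure (wg f) 2 p (frob f p) := by
  refine ⟨fun z hz => ?_, ?_⟩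
  · rw [h p p.2 hp z hz]
    congr 1
    unfold wg
    have hk := f.weight_pos
    push_cast [Nat.cast_sub hk]
    ring
  · rw [frob_eq]
    simp

theorem tens_pow (s t : Multiset ℂ) (c d : ℂ) (k : ℕ) :
    ((tens s t).map fun z => (z * (c * d)) ^ (k + 1)).sum =
      (s.map fun z => (z * c) ^ (k + 1)).sum * (t.map fun z => (z * d) ^ (k + 1)).sum := by
  unfold tens
  rw [Multiset.map_map]
  induction s using Multiset.induction_on with
  | empty => simp
  | cons a s ih =>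
    rw [Multiset.cons_product, Multiset.map_add, Multiset.sum_add, ih, Multiset.map_map,
      Multiset.map_cons, Multiset.sum_cons, add_mul]
    congr 1
    rw [← Multiset.sum_map_mul_left]
    congr 1
    refine Multiset.map_congr rfl fun z _ => ?_
    simp only [Function.comp_apply]
    rw [← mul_pow]
    congr 1
    ring

/-- the normalised power sums at the pure primes -/
def Qf (w : ℤ) (N : ℕ) (δ : Nat.Primes → Multiset ℂ) (a : PP) : ℂ :=
  open Classical in if Pure w N a.1 (δ a.1) then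
    ((δ a.1).map fun z => (z * ((((a.1 : ℕ) : ℝ) ^ ((w : ℝ) / 2) : ℝ) : ℂ)⁻¹) ^ (a.2 + 1)).sum else 0

theorem norm_Qf (w : ℤ) (N : ℕ) (δ : Nat.Primes → Multiset ℂ) (a : PP) : ‖Qf w N δ a‖ ≤ N := by
  have hp0 : (0 : ℝ) < (a.1 : ℕ) := by exact_mod_cast a.1.2.pos
  have hq : (0 : ℝ) < ((a.1 : ℕ) : ℝ) ^ ((w : ℝ) / 2) := Real.rpow_pos_of_pos hp0 _
  unfold Qf
  split_ifs with h
  · refine (norm_msum _ _ 1 fun z hz => ?_).trans ?_
    · rw [norm_pow, norm_mul, h.1 z hz, norm_inv, Complex.norm_real, Real.norm_of_nonneg hq.le,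
        mul_inv_cancel₀ hq.ne', one_pow]
    · rw [mul_one]
      exact_mod_cast h.2
  · simp

theorem ip_Q (w : ℤ) (N : ℕ) (δ : Nat.Primes → Multiset ℂ) {η : ℝ} (hη : 0 < η) :
    ∀ᶠ ε : ℝ in 𝓝[>] 0, ip (W ε) (Qf w N δ) (Qf w N δ) ≤ ((N : ℝ) ^ 2 + η) * lam ε := by
  have h1 : Tendsto (fun ε => η * lam ε) (𝓝[>] 0) atTop :=
    Tendsto.const_mul_atTop hη lam_tendsto
  filter_upwards [h1.eventually_ge_atTop ((N : ℝ) ^ 2 * K2), self_mem_nhdsWithin] with ε h2 h3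
  have h4 := (L2_bdd (Nat.cast_nonneg N) (norm_Qf w N δ) h3).2
  nlinarith

theorem inv_mul_half (w w' : ℤ) (p : Nat.Primes) :
    ((((p : ℕ) : ℝ) ^ (((w + w' : ℤ) : ℝ) / 2) : ℝ) : ℂ)⁻¹ =
      ((((p : ℕ) : ℝ) ^ ((w : ℝ) / 2) : ℝ) : ℂ)⁻¹ *
      ((((p : ℕ) : ℝ) ^ ((w' : ℝ) / 2) : ℝ) : ℂ)⁻¹ := by
  have hp0 : (0 : ℝ) < (p : ℕ) := by exact_mod_cast p.2.pos
  rw [← mul_inv, ← Complex.ofReal_mul, ← Real.rpow_add hp0]
  congr 3
  push_cast
  ring

section
variable {ι : Type} {ψ : ι → Eigenform} {w : ℤ} {N : ℕ} {δ : Nat.Primes → Multiset ℂ}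

/-- the product with the eigenform -/
theorem link_form (hδ : ∀ᶠ p in cofinite, Pure w N p (δ p)) (x : ι × ℝ) {B : Nat.Primes → ℂ[X]}
    (hB : IsEuler (w + wg (ψ x.1)) (fun p => tens (δ p) (frob (ψ x.1) p)) B) :
    (∀ᶠ ε : ℝ in 𝓝[>] 0, LFun B (edge (w + wg (ψ x.1)) x.2 + ε) ≠ 0) ∧
    Tendsto (fun ε : ℝ => size (w + wg (ψ x.1)) B x.2 ε -
      ip (W ε) (Qf w N δ) (fam ψ x) / lam ε) (𝓝[>] 0) (𝓝 0) := by
  set F := ψ x.1 with hF
  have hUl : ∀ ε : ℝ, 0 < ε → L2 (W ε)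
      (UU (M := F.level) (k := F.weight) F.form F.chi x.2) := fun ε hε => F.hf.l2 x.2 hε
  have hQl : ∀ ε : ℝ, 0 < ε → L2 (W ε) (Qf w N δ) := fun ε hε =>
    (L2_bdd (Nat.cast_nonneg N) (norm_Qf w N δ) hε).1
  set T : PP → ℂ := fun a => Qf w N δ a *
    UU (M := F.level) (k := F.weight) F.form F.chi x.2 a with hT
  have hip : ∀ ε : ℝ, ip (W ε) (Qf w N δ) (fam ψ x) = ∑' a, W ε a * (T a).re := by
    intro ε
    unfold ip fam
    simp only [Complex.conj_conj]
    rfl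
  have hlink := link hB x.2 (T := T) (C0 := N * 2) (fun a => ?_) (fun ε hε => ?_) ?_
  · refine ⟨?_, ?_⟩
    · obtain ⟨C, hC⟩ := hlink
      exact hC.mono fun ε h => h.1
    · simp_rw [hip]
      obtain ⟨C1, hC1⟩ := self_le F.hf x.2
      refine size_lim B _ x.2 (C2 := (N : ℝ) ^ 2 + 1 + 2) hlink ?_
      have h3 := lam_tendsto.eventually_ge_atTop C1
      filter_upwards [ip_Q w N δ one_pos, hC1, h3, self_mem_nhdsWithin] with ε g1 g2 g3 g4
      rw [← hip]
      have h4 := ip_abs_le (W_nonneg ε) (hQl ε g4) (l2_conj (hUl ε g4))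
      rw [ip_conj] at h4
      have h5 : |ip (W ε) (Qf w N δ) (fam ψ x)| ≤ ip (W ε) (Qf w N δ) (Qf w N δ) +
          ip (W ε) (UU (M := F.level) (k := F.weight) F.form F.chi x.2)
          (UU (M := F.level) (k := F.weight) F.form F.chi x.2) := h4
      linarith
  · rw [hT]
    simp only
    rw [norm_mul, mul_assoc]
    refine mul_le_mul (norm_Qf w N δ a) ?_ (norm_nonneg _) (Nat.cast_nonneg _)
    unfold UU
    rw [norm_mul, norm_tw, mul_one]
    unfold PW
    have h0 : 0 ≤ Real.sqrt (a.1 : ℕ) ^ (a.2 + 1) := by positivity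
    split_ifs with h
    · rw [norm_zero]
      linarith
    · obtain ⟨h1, h2⟩ := root_sqrt F a.1
      unfold us
      refine (norm_add_le _ _).trans ?_
      rw [norm_pow, norm_pow]
      have h3 := pow_le_pow_left₀ (norm_nonneg _) h1 (a.2 + 1)
      have h4 := pow_le_pow_left₀ (norm_nonneg _) h2 (a.2 + 1)
      unfold lmf at h3 h4
      linarith
  · refine Summable.of_nonneg_of_le (fun a => mul_nonneg (W_nonneg _ _) (norm_nonneg _))
      (fun a => ?_) (Summable.add (hQl ε hε) (hUl ε hε))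
    rw [← mul_add]
    refine mul_le_mul_of_nonneg_left ?_ (W_nonneg _ _)
    rw [hT]
    simp only
    rw [norm_mul]
    nlinarith [sq_nonneg (‖Qf w N δ a‖ -
      ‖UU (M := F.level) (k := F.weight) F.form F.chi x.2 a‖), norm_nonneg (Qf w N δ a),
      norm_nonneg (UU (M := F.level) (k := F.weight) F.form F.chi x.2 a),
      sq_nonneg (‖Qf w N δ a‖), sq_nonneg (‖UU (M := F.level) (k := F.weight) F.form F.chi x.2 a‖)]
  · filter_upwards [hδ, good F] with p h1 h2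
    have hp0 : (0 : ℝ) < (p : ℕ) := by exact_mod_cast p.2.pos
    refine ⟨fun z hz => ?_, fun k => ?_⟩
    · unfold tens at hz
      obtain ⟨y, hy, rfl⟩ := Multiset.mem_map.1 hz
      obtain ⟨h3, h4⟩ := Multiset.mem_product.1 hy
      rw [norm_mul, h1.1 _ h3]
      have h5 := frob_le F p _ h4
      have h6 : ((p : ℕ) : ℝ) ^ (((w + wg F : ℤ) : ℝ) / 2) =
          ((p : ℕ) : ℝ) ^ ((w : ℝ) / 2) * ((p : ℕ) : ℝ) ^ (((wg F : ℤ) : ℝ) / 2) := by
        rw [← Real.rpow_add hp0]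
        congr 1
        push_cast
        ring
      rw [h6, mul_assoc]
      exact mul_le_mul_of_nonneg_left h5 (by positivity)
    · rw [hT]
      simp only
      rw [inv_mul_half, tens_pow, frob_pow]
      unfold Qf UU PW
      simp only
      rw [if_pos h1, if_neg h2]
      unfold lmf
      ring

/-- the self product -/
theorem link_self (hδ : ∀ᶠ p in cofinite, Pure w N p (δ p)) {B : Nat.Primes → ℂ[X]} {m : ℕ}
    (hB : IsEuler (2 * w) (fun p => tens (δ p) ((δ p).map star)) B)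
    (hm : HasOrder (2 * w) B 0 (-m)) {η : ℝ} (hη : 0 < η) :
    ∀ᶠ ε : ℝ in 𝓝[>] 0, ip (W ε) (Qf w N δ) (Qf w N δ) ≤ ((m : ℝ) + η) * lam ε := by
  have hQl : ∀ ε : ℝ, 0 < ε → L2 (W ε) (Qf w N δ) := fun ε hε =>
    (L2_bdd (Nat.cast_nonneg N) (norm_Qf w N δ) hε).1
  set T : PP → ℂ := fun a => Qf w N δ a * conj (Qf w N δ a) with hT
  have hip : ∀ ε : ℝ, ip (W ε) (Qf w N δ) (Qf w N δ) = ∑' a, W ε a * (T a).re := fun ε => rfl
  have hnT : ∀ a, ‖T a‖ ≤ (N : ℝ) ^ 2 := by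
    intro a
    rw [hT]
    simp only
    rw [norm_mul, Complex.norm_conj, ← sq]
    exact pow_le_pow_left₀ (norm_nonneg _) (norm_Qf w N δ a) 2
  have hlink := link hB 0 (T := T) (C0 := (N : ℝ) ^ 2) (fun a => ?_) (fun ε hε => ?_) ?_
  · have h1 := size_lim B (2 * w) 0 (Y := fun ε => ip (W ε) (Qf w N δ) (Qf w N δ))
      (C2 := (N : ℝ) ^ 2 + 1) (by simpa only [hip] using hlink) (by
        filter_upwards [ip_Q w N δ one_pos] with ε g1
        rw [abs_of_nonneg (ip_self_nonneg (W_nonneg ε) _)]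
        exact g1)
    have h2 := line_order hm
    have h3 := h2.sub h1
    simp only [sub_sub_cancel, sub_zero] at h3
    push_cast at h3
    rw [neg_neg] at h3
    filter_upwards [h3.eventually_lt_const (lt_add_of_pos_right (m : ℝ) hη), lam_pos] with ε g1 g2
    rw [div_lt_iff₀ g2] at g1
    exact g1.le
  · refine (hnT a).trans ?_
    have h2 : (1 : ℝ) ≤ Real.sqrt (a.1 : ℕ) ^ (a.2 + 1) := by
      refine one_le_pow₀ (Real.one_le_sqrt.2 ?_)
      exact_mod_cast a.1.2.one_le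
    have h3 : (0 : ℝ) ≤ (N : ℝ) ^ 2 := by positivity
    nlinarith
  · refine Summable.of_nonneg_of_le (fun a => mul_nonneg (W_nonneg _ _) (norm_nonneg _))
      (fun a => ?_) ((W_mass hε).1.mul_left ((N : ℝ) ^ 2))
    rw [mul_comm]
    exact mul_le_mul_of_nonneg_right (hnT a) (W_nonneg _ _)
  · filter_upwards [hδ] with p h1
    have hp0 : (0 : ℝ) < (p : ℕ) := by exact_mod_cast p.2.pos
    have hw2 : (2 * w : ℤ) = w + w := by ring
    have hstar : Pure w N p ((δ p).map star) := by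
      refine ⟨fun z hz => ?_, ?_⟩
      · obtain ⟨y, hy, rfl⟩ := Multiset.mem_map.1 hz
        rw [norm_star]
        exact h1.1 y hy
      · rw [Multiset.card_map]
        exact h1.2
    refine ⟨fun z hz => ?_, fun k => ?_⟩
    · have h2 := (tens_pure h1 hstar).1 z hz
      rw [h2, ← hw2]
      have h3 : (1 : ℝ) ≤ Real.sqrt (p : ℕ) := by
        refine Real.one_le_sqrt.2 ?_
        exact_mod_cast p.2.one_le
      have h4 : (0 : ℝ) ≤ ((p : ℕ) : ℝ) ^ (((2 * w : ℤ) : ℝ) / 2) := by positivity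
      exact le_mul_of_one_le_right h4 h3
    · rw [hT]
      simp only
      rw [hw2, inv_mul_half, tens_pow]
      have e1 : tw 0 (p, k) = 1 := by
        unfold tw
        simp
      rw [e1, mul_one]
      unfold Qf
      simp only
      rw [if_pos h1, Multiset.map_map]
      congr 1
      refine (map_multiset_sum (starRingEnd ℂ) _).trans ?_
      rw [Multiset.map_map]
      refine congrArg _ (Multiset.map_congr rfl fun z _ => ?_)
      simp only [Function.comp_apply]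
      simp

/-- **The mean square.** -/
theorem one_mean (hψ : ∀ e e', e ≠ e' → Differ (ψ e) (ψ e'))
    (hδ : ∀ᶠ p in cofinite, Pure w N p (δ p)) {κ : ℝ} (hκ0 : 0 ≤ κ)
    (hκ : ∀ η : ℝ, 0 < η → ∀ᶠ ε : ℝ in 𝓝[>] 0,
      ip (W ε) (Qf w N δ) (Qf w N δ) ≤ (κ + η) * lam ε)
    (S : Finset (ι × ℝ)) {B : ι × ℝ → Nat.Primes → ℂ[X]} (hB : ∀ x ∈ S,
      IsEuler (w + wg (ψ x.1)) (fun p => tens (δ p) (frob (ψ x.1) p)) (B x))
    {η : ℝ} (hη : 0 < η) : ∀ᶠ ε : ℝ in 𝓝[>] 0,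
      (∀ x ∈ S, LFun (B x) (edge (w + wg (ψ x.1)) x.2 + ε) ≠ 0) ∧
      ∑ x ∈ S, max (size (w + wg (ψ x.1)) (B x) x.2 ε) 0 ^ 2 ≤ κ + η ∧
      ∑ x ∈ S, max (-size (w + wg (ψ x.1)) (B x) x.2 ε) 0 ^ 2 ≤ κ + η := by
  classical
  have hfam := fam_Fam hψ
  have hlink := fun x (hx : x ∈ S) => link_form (N := N) hδ x (hB x hx)
  have hQl : ∀ᶠ ε : ℝ in 𝓝[>] 0, L2 (W ε) (Qf w N δ) := by
    filter_upwards [self_mem_nhdsWithin] with ε hε
    exact (L2_bdd (Nat.cast_nonneg N) (norm_Qf w N δ) hε).1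
  have h1 : ∀ᶠ ε : ℝ in 𝓝[>] 0, ∀ x ∈ S, LFun (B x) (edge (w + wg (ψ x.1)) x.2 + ε) ≠ 0 := by
    rw [Filter.eventually_all_finset]
    exact fun x hx => (hlink x hx).1
  have h2 := max_perturb S (fun x ε => 1 * (ip (W ε) (Qf w N δ) (fam ψ x) / lam ε))
    (fun x ε => size (w + wg (ψ x.1)) (B x) x.2 ε) _ hκ0
    (fun η' hη' => hfam.bes W_nonneg lam_tendsto hQl hκ0 hκ S hη' (Or.inl rfl))
    (fun x hx => by simpa only [one_mul] using (hlink x hx).2) hη
  have h3 := max_perturb S (fun x ε => (-1) * (ip (W ε) (Qf w N δ) (fam ψ x) / lam ε))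
    (fun x ε => -size (w + wg (ψ x.1)) (B x) x.2 ε) _ hκ0
    (fun η' hη' => hfam.bes W_nonneg lam_tendsto hQl hκ0 hκ S hη' (Or.inr rfl))
    (fun x hx => by
      have := (hlink x hx).2.neg
      rw [neg_zero] at this
      refine this.congr fun ε => ?_
      ring) hη
  exact h1.and (h2.and h3)

/-- **The orders.** -/
theorem one_order (hψ : ∀ e e', e ≠ e' → Differ (ψ e) (ψ e'))
    (hδ : ∀ᶠ p in cofinite, Pure w N p (δ p)) {K : ℕ}
    (hκ : ∀ η : ℝ, 0 < η → ∀ᶠ ε : ℝ in 𝓝[>] 0,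
      ip (W ε) (Qf w N δ) (Qf w N δ) ≤ ((K : ℝ) + η) * lam ε)
    (S : Finset (ι × ℝ)) {B : ι × ℝ → Nat.Primes → ℂ[X]} (hB : ∀ x ∈ S,
      IsEuler (w + wg (ψ x.1)) (fun p => tens (δ p) (frob (ψ x.1) p)) (B x))
    {r : ι × ℝ → ℤ} (hr : ∀ x ∈ S, HasOrder (w + wg (ψ x.1)) (B x) x.2 (r x)) :
    ∑ x ∈ S, max (r x) 0 ^ 2 ≤ (K : ℤ) ∧ ∑ x ∈ S, max (-r x) 0 ^ 2 ≤ (K : ℤ) := by
  have hK0 : (0 : ℝ) ≤ K := Nat.cast_nonneg K
  have h1 : ∑ x ∈ S, (max (-(-(r x : ℝ))) 0) ^ 2 ≤ (K : ℝ) := by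
    refine le_of_forall_pos_le_add fun η hη => ?_
    have h2 : Tendsto (fun ε : ℝ => ∑ x ∈ S, max (-size (w + wg (ψ x.1)) (B x) x.2 ε) 0 ^ 2)
        (𝓝[>] 0) (𝓝 (∑ x ∈ S, (max (-(-(r x : ℝ))) 0) ^ 2)) :=
      tendsto_finsetSum _ fun x hx => ((line_order (hr x hx)).neg.max tendsto_const_nhds).pow 2
    refine le_of_tendsto h2 ?_
    exact (one_mean hψ hδ hK0 hκ S hB hη).mono fun ε h3 => h3.2.2
  have h1' : ∑ x ∈ S, (max (-(r x : ℝ)) 0) ^ 2 ≤ (K : ℝ) := by
    refine le_of_forall_pos_le_add fun η hη => ?_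
    have h2 : Tendsto (fun ε : ℝ => ∑ x ∈ S, max (size (w + wg (ψ x.1)) (B x) x.2 ε) 0 ^ 2)
        (𝓝[>] 0) (𝓝 (∑ x ∈ S, (max (-(r x : ℝ)) 0) ^ 2)) :=
      tendsto_finsetSum _ fun x hx => ((line_order (hr x hx)).max tendsto_const_nhds).pow 2
    refine le_of_tendsto h2 ?_
    exact (one_mean hψ hδ hK0 hκ S hB hη).mono fun ε h3 => h3.2.1
  simp only [neg_neg] at h1
  exact ⟨by exact_mod_cast h1, by exact_mod_cast h1'⟩

/-- tensor products are pure -/
theorem tensL_pure' (hδ : ∀ᶠ p in cofinite, Pure w N p (δ p)) (l : List ι)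
    (hl : ∀ e ∈ l, Ramanujan (ψ e)) :
    ∀ᶠ p : Nat.Primes in cofinite, Pure (w + ((l.map fun e => wg (ψ e)).sum : ℕ))
      (N * 2 ^ l.length) p (tensL (δ p) (fun e => frob (ψ e) p) l) := by
  induction l with
  | nil => simpa [tensL] using hδ
  | cons e l ih =>
    filter_upwards [ih fun e he => hl e (List.mem_cons_of_mem _ he), good (ψ e)] with p h1 h2
    have h3 := tens_pure h1 (frob_pure (hl e List.mem_cons_self) p h2)
    rw [tensL, List.length_cons, pow_succ, ← mul_assoc]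
    have e1 : w + (((e :: l).map fun e => wg (ψ e)).sum : ℕ) =
        w + ((l.map fun e => wg (ψ e)).sum : ℕ) + wg (ψ e) := by
      rw [List.map_cons, List.sum_cons]
      push_cast
      ring
    rw [e1]
    exact h3

end

end

end Run7.h186.NU
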