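import Pool.Agent.Run7.h186.NU5

/-! Multiplicative functions with a recursion of order two at every prime, in the space of the
functions on the prime powers. -/

set_option autoImplicit false
set_option linter.unusedSectionVars false

namespace Run7.h186.NV

open Filter Topology Complex
open scoped ComplexConjugate
open Run7.h186.ML (pt pt_re)
open Pool.Agent.Y149.CR (pow_cpow norm_p)
open Pool.Agent.TH941 (rpow_half)
open Pool.Agent.H341R2 (lam lam_bounded lam_tendsto)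
open Run7.h186.NT (CR CR_summable Sq Rc SC finite_dvd cpow_pt norm_pI)
open Run7.h186.NU (PP W W_nonneg W_term tw norm_tw tw_mul_conj al be us al_add al_mul Rc.root_lt
  le_of_rpow SC_lower' SC_logsum x_ne neg_log_res bq bq_summable K4 L2 L2.summable ip)

noncomputable section

/-- a multiplicative function with a recursion of order two at every prime, `e p` is the product of
the roots at `p`, which is square summable at the edge -/
structure Mu (b e : ℕ → ℂ) : Prop where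
  zero : b 0 = 0
  one : b 1 = 1
  mul : ∀ m n : ℕ, m.Coprime n → b (m * n) = b m * b n
  rc : ∀ p : ℕ, p.Prime → Rc (fun j => b (p ^ j)) (b p) (e p)
  sq : ∀ s : ℝ, 1 < s → Sq b s

/-- the power sums at the good primes -/
def PW (M : ℕ) (b e : ℕ → ℂ) (a : PP) : ℂ := if (a.1 : ℕ) ∣ M then 0 else us (b a.1) (e a.1) a.2

/-- the family -/
def UU (M : ℕ) (b e : ℕ → ℂ) (τ : ℝ) (a : PP) : ℂ := PW M b e a * tw τ a

/-- the local factor -/
def LF (a b : ℕ → ℂ) (s : ℂ) (p : ℕ) : ℂ :=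
  SC (fun j => a (p ^ j)) (fun j => b (p ^ j)) ((p : ℂ) ^ (-s)) 0

section
variable {a e : ℕ → ℂ}

theorem Mu.loc_sq (h : Mu a e) {s : ℝ} (hs : 1 < s) (p : Nat.Primes) :
    Summable fun j : ℕ => ‖a ((p : ℕ) ^ j)‖ ^ 2 * (((p : ℕ) : ℝ) ^ (-s)) ^ j := by
  have h1 := (h.sq s hs).comp_injective (Nat.pow_right_injective p.2.two_le)
  refine h1.congr fun j => ?_
  simp only [Function.comp_apply]
  congr 1
  push_cast
  rw [← Real.rpow_natCast, ← Real.rpow_natCast, ← Real.rpow_mul (Nat.cast_nonneg _),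
    ← Real.rpow_mul (Nat.cast_nonneg _)]
  congr 1
  ring

theorem Mu.root_lt (h : Mu a e) {s : ℝ} (hs : 1 < s) (p : Nat.Primes) :
    ‖al (a p) (e p)‖ ^ 2 * ((p : ℕ) : ℝ) ^ (-s) < 1 ∧
    ‖be (a p) (e p)‖ ^ 2 * ((p : ℕ) : ℝ) ^ (-s) < 1 := by
  have hp0 : (0 : ℝ) < (p : ℕ) := by exact_mod_cast p.2.pos
  have h1 := h.rc p p.2
  have h2 := h.loc_sq hs p
  have h3 : (0 : ℝ) < ((p : ℕ) : ℝ) ^ (-s) := by positivity
  refine ⟨Rc.root_lt h1 (al_add _ _) (al_mul _ _) h3 h2, ?_⟩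
  refine Rc.root_lt (β := al (a p) (e p)) h1 ?_ ?_ h3 h2
  · rw [add_comm]; exact al_add _ _
  · rw [mul_comm]; exact al_mul _ _

theorem Mu.root_le (h : Mu a e) (p : Nat.Primes) :
    ‖al (a p) (e p)‖ ^ 2 ≤ (p : ℕ) ∧ ‖be (a p) (e p)‖ ^ 2 ≤ (p : ℕ) := by
  have hp0 : (0 : ℝ) < (p : ℕ) := by exact_mod_cast p.2.pos
  exact ⟨le_of_rpow hp0 fun s hs => (h.root_lt hs p).1,
    le_of_rpow hp0 fun s hs => (h.root_lt hs p).2⟩

end

section
variable {a e b e' : ℕ → ℂ}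

theorem sum_norm (hf : Mu a e) (hg : Mu b e') {s : ℂ} (hs : 1 < s.re) :
    Summable fun n : ℕ => ‖a n * conj (b n) * (n : ℂ) ^ (-s)‖ :=
  CR_summable (by linarith) (hf.sq _ hs) (hg.sq _ hs)

theorem loc_summable (hf : Mu a e) (hg : Mu b e') {s : ℂ} (hs : 1 < s.re) (p : Nat.Primes) :
    Summable fun j : ℕ => a ((p : ℕ) ^ j) * conj (b ((p : ℕ) ^ j)) *
      (((p : ℕ) : ℂ) ^ (-s)) ^ j := by
  have h1 := (sum_norm hf hg hs).comp_injective (Nat.pow_right_injective p.2.two_le)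
  refine (h1.of_norm).congr fun j => ?_
  rw [pow_cpow p.2.pos]

theorem hasProd_CR (hf : Mu a e) (hg : Mu b e') {s : ℂ} (hs : 1 < s.re) :
    HasProd (fun p : Nat.Primes => LF a b s p) (CR a b s) := by
  have h1 : a 1 * conj (b 1) * ((1 : ℕ) : ℂ) ^ (-s) = 1 := by
    rw [hf.one, hg.one]; simp
  have hmul : ∀ {m n : ℕ}, Nat.Coprime m n →
      a (m * n) * conj (b (m * n)) * ((m * n : ℕ) : ℂ) ^ (-s) =
      a m * conj (b m) * (m : ℂ) ^ (-s) * (a n * conj (b n) * (n : ℂ) ^ (-s)) := by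
    intro m n h
    rw [hf.mul _ _ h, hg.mul _ _ h, Nat.cast_mul, Complex.natCast_mul_natCast_cpow, map_mul]
    ring
  have h := EulerProduct.eulerProduct_hasProd
    (f := fun n : ℕ => a n * conj (b n) * (n : ℂ) ^ (-s)) h1 hmul (sum_norm hf hg hs) (by
      rw [hf.zero]; simp)
  refine h.congr_fun fun p => ?_
  unfold LF SC
  refine tsum_congr fun j => ?_
  simp only [add_zero]
  rw [pow_cpow p.2.pos]

/-- the local factor and its logarithm -/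
theorem LF_facts (hf : Mu a e) (hg : Mu b e') {s : ℂ} (hs : 1 < s.re) (p : Nat.Primes) :
    1 / 22 ≤ ‖LF a b s p‖ ∧
    HasSum (fun k : ℕ => (us (a p) (e p) k * conj (us (b p) (e' p) k) *
        (((p : ℕ) : ℂ) ^ (-s)) ^ (k + 1)).re / ((k : ℝ) + 1))
      (Real.log ‖LF a b s p‖ - Real.log ‖1 - e p * conj (e' p) *
        (((p : ℕ) : ℂ) ^ (-s)) ^ 2‖) := by
  obtain ⟨h0, h1, -⟩ := rpow_half p.2 hs.le
  have hp0 : (0 : ℝ) < (p : ℕ) := by exact_mod_cast p.2.pos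
  have hp1 : (1 : ℝ) ≤ (p : ℕ) := by exact_mod_cast p.2.one_le
  have c := hf.rc p p.2
  have d := hg.rc p p.2
  have hsum := loc_summable hf hg hs p
  have hx : ‖((p : ℕ) : ℂ) ^ (-s)‖ ≤ 1 / 2 := by rw [norm_p]; exact h1
  have hP : ((p : ℕ) : ℝ) * ‖((p : ℕ) : ℂ) ^ (-s)‖ ≤ 1 := by
    rw [norm_p]
    have h3 : ((p : ℕ) : ℝ) ^ (-s.re) ≤ ((p : ℕ) : ℝ) ^ (-1 : ℝ) :=
      Real.rpow_le_rpow_of_exponent_le hp1 (by linarith)
    calc _ ≤ ((p : ℕ) : ℝ) * ((p : ℕ) : ℝ) ^ (-1 : ℝ) := mul_le_mul_of_nonneg_left h3 hp0.le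
      _ = 1 := by rw [Real.rpow_neg_one, mul_inv_cancel₀ hp0.ne']
  refine ⟨SC_lower' c d (x_ne p s) hsum hx (hf.root_le p).1 (hf.root_le p).2 (hg.root_le p).1
    (hg.root_le p).2 hP, ?_⟩
  refine (SC_logsum c d (x_ne p s) hsum hx ?_ ?_ ?_ ?_).2
  · rw [norm_p]; exact (hf.root_lt hs p).1
  · rw [norm_p]; exact (hf.root_lt hs p).2
  · rw [norm_p]; exact (hg.root_lt hs p).1
  · rw [norm_p]; exact (hg.root_lt hs p).2

theorem term_eq (M₁ M₂ : ℕ) (a e b e' : ℕ → ℂ) (τ τ' ε : ℝ) (p : Nat.Primes) (j : ℕ) :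
    W ε (p, j) * (UU M₁ a e τ (p, j) * conj (UU M₂ b e' τ' (p, j))).re =
      (PW M₁ a e (p, j) * conj (PW M₂ b e' (p, j)) *
        (((p : ℕ) : ℂ) ^ (-(pt (τ - τ') ε))) ^ (j + 1)).re / ((j : ℝ) + 1) := by
  rw [← W_term]
  congr 2
  unfold UU
  rw [map_mul, ← tw_mul_conj]
  ring

/-- the local sums -/
theorem loc_sum (M₁ M₂ : ℕ) (hf : Mu a e) (hg : Mu b e') (τ τ' : ℝ) {ε : ℝ} (hε : 0 < ε)
    (p : Nat.Primes) :
    (Summable fun j : ℕ => W ε (p, j) * (UU M₁ a e τ (p, j) * conj (UU M₂ b e' τ' (p, j))).re) ∧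
    (∑' j : ℕ, W ε (p, j) * (UU M₁ a e τ (p, j) * conj (UU M₂ b e' τ' (p, j))).re) -
      2 * (((p : ℕ) : ℝ) ^ (-(1 + ε))) ^ 2 - bq (M₁ * M₂) p ≤
      Real.log ‖LF a b (pt (τ - τ') ε) p‖ := by
  have hre : (pt (τ - τ') ε).re = 1 + ε := pt_re _ _
  have hs : 1 < (pt (τ - τ') ε).re := by rw [hre]; linarith
  obtain ⟨h1, h2⟩ := LF_facts hf hg hs p
  obtain ⟨h0, h0', -⟩ := rpow_half p.2 hs.le
  simp_rw [term_eq]
  by_cases h : (p : ℕ) ∣ M₁ * M₂
  · have h3 : ∀ j, PW M₁ a e (p, j) * conj (PW M₂ b e' (p, j)) = 0 := by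
      intro j
      rcases (Nat.Prime.dvd_mul p.2).1 h with h | h
      · unfold PW
        rw [if_pos h, zero_mul]
      · unfold PW
        rw [if_pos h, map_zero, mul_zero]
    simp_rw [h3, zero_mul, Complex.zero_re, zero_div]
    refine ⟨summable_zero, ?_⟩
    rw [tsum_zero]
    unfold bq
    rw [if_pos h]
    have h4 : -Real.log 22 ≤ Real.log ‖LF a b (pt (τ - τ') ε) p‖ := by
      rw [← Real.log_inv]
      refine Real.log_le_log (by norm_num) ?_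
      norm_num
      linarith
    have h5 : 0 ≤ 2 * (((p : ℕ) : ℝ) ^ (-(1 + ε))) ^ 2 := by positivity
    linarith
  · have hf' : ¬ (p : ℕ) ∣ M₁ := fun h' => h (Dvd.dvd.mul_right h' _)
    have hg' : ¬ (p : ℕ) ∣ M₂ := fun h' => h (Dvd.dvd.mul_left h' _)
    have h3 : ∀ j, PW M₁ a e (p, j) * conj (PW M₂ b e' (p, j)) =
        us (a p) (e p) j * conj (us (b p) (e' p) j) := by
      intro j
      unfold PW
      rw [if_neg hf', if_neg hg']
    simp_rw [h3]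
    refine ⟨h2.summable, ?_⟩
    rw [h2.tsum_eq]
    unfold bq
    rw [if_neg h]
    have h5 := neg_log_res (x := ((p : ℕ) : ℂ) ^ (-(pt (τ - τ') ε)))
      (hf.rc p p.2).e1 (hg.rc p p.2).e1 (by rw [norm_p]; exact h0')
    rw [norm_p, hre] at h5
    linarith

end

section
variable {a e : ℕ → ℂ}

/-- the power series at `p`, over all `p` -/
theorem Mu.sum_pp (hf : Mu a e) {s : ℝ} (hs : 1 < s) :
    Summable fun x : PP => ‖a ((x.1 : ℕ) ^ (x.2 + 1))‖ ^ 2 *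
      (((x.1 : ℕ) : ℝ) ^ (-s)) ^ (x.2 + 1) := by
  have hinj : Function.Injective fun x : PP => ((Nat.Primes.prodNatEquiv x : ℕ)) :=
    Subtype.val_injective.comp Nat.Primes.prodNatEquiv.injective
  have h1 := (hf.sq s hs).comp_injective hinj
  refine h1.congr fun x => ?_
  simp only [Function.comp_apply]
  have e : (Nat.Primes.prodNatEquiv x : ℕ) = (x.1 : ℕ) ^ (x.2 + 1) := by
    rw [Nat.Primes.coe_prodNatEquiv_apply]
  rw [e]
  congr 1
  push_cast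
  rw [← Real.rpow_natCast, ← Real.rpow_natCast, ← Real.rpow_mul (Nat.cast_nonneg _),
    ← Real.rpow_mul (Nat.cast_nonneg _)]
  congr 1
  ring

/-- the local factor of one function -/
theorem Mu.LF_self (hf : Mu a e) {ε : ℝ} (hε : 0 < ε) (p : Nat.Primes) :
    Real.log ‖LF a a (pt 0 ε) p‖ ≤ ∑' j : ℕ, ‖a ((p : ℕ) ^ (j + 1))‖ ^ 2 *
      (((p : ℕ) : ℝ) ^ (-(1 + ε))) ^ (j + 1) := by
  have hs : (1 : ℝ) < 1 + ε := by linarith
  have h1 := hf.loc_sq hs p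
  have hx : ((p : ℕ) : ℂ) ^ (-(pt 0 ε)) = ((((p : ℕ) : ℝ) ^ (-(1 + ε)) : ℝ) : ℂ) := by
    rw [cpow_pt]
    simp
  have e : LF a a (pt 0 ε) p = ((∑' j : ℕ, ‖a ((p : ℕ) ^ j)‖ ^ 2 *
      (((p : ℕ) : ℝ) ^ (-(1 + ε))) ^ j : ℝ) : ℂ) := by
    unfold LF SC
    rw [Complex.ofReal_tsum]
    refine tsum_congr fun j => ?_
    rw [add_zero, hx, Complex.mul_conj, Complex.normSq_eq_norm_sq]
    push_cast
    rfl
  have h2 : ∑' j : ℕ, ‖a ((p : ℕ) ^ j)‖ ^ 2 * (((p : ℕ) : ℝ) ^ (-(1 + ε))) ^ j =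
      1 + ∑' j : ℕ, ‖a ((p : ℕ) ^ (j + 1))‖ ^ 2 *
      (((p : ℕ) : ℝ) ^ (-(1 + ε))) ^ (j + 1) := by
    rw [h1.tsum_eq_zero_add]
    congr 1
    rw [pow_zero, pow_zero, hf.one]
    norm_num
  have h3 : 0 ≤ ∑' j : ℕ, ‖a ((p : ℕ) ^ (j + 1))‖ ^ 2 *
      (((p : ℕ) : ℝ) ^ (-(1 + ε))) ^ (j + 1) := tsum_nonneg fun j => by positivity
  rw [e, h2, Complex.norm_real, Real.norm_of_nonneg (by linarith)]
  refine (Real.log_le_sub_one_of_pos (by linarith)).trans ?_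
  linarith

/-- **Square summability.** -/
theorem Mu.l2 (hf : Mu a e) (M : ℕ) (hM0 : M ≠ 0) (τ : ℝ) {ε : ℝ} (hε : 0 < ε) :
    L2 (W ε) (UU M a e τ) := by
  have hs : (1 : ℝ) < 1 + ε := by linarith
  unfold L2
  have e : ∀ x : PP, W ε x * ‖UU M a e τ x‖ ^ 2 =
      W ε x * (UU M a e 0 x * conj (UU M a e 0 x)).re := by
    intro x
    rw [Complex.mul_conj, Complex.normSq_eq_norm_sq, Complex.ofReal_re]
    unfold UU
    rw [norm_mul, norm_mul, norm_tw, norm_tw]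
  simp_rw [e]
  rw [summable_prod_of_nonneg]
  · refine ⟨fun p => (loc_sum M M hf hf 0 0 hε p).1, ?_⟩
    have h1 := (summable_prod_of_nonneg (f := fun x : PP => ‖a ((x.1 : ℕ) ^ (x.2 + 1))‖ ^ 2 *
      (((x.1 : ℕ) : ℝ) ^ (-(1 + ε))) ^ (x.2 + 1)) (fun x => by
        show 0 ≤ _
        positivity)).1 (hf.sum_pp hs)
    have hs2 : Summable fun p : Nat.Primes => (((p : ℕ) : ℝ) ^ (-(1 + ε))) ^ 2 := by
      refine Summable.of_nonneg_of_le (fun p => by positivity) (fun p => ?_)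
        (Nat.Primes.summable_rpow.2 (by linarith : -(1 + ε) < -1))
      have h2 : ((p : ℕ) : ℝ) ^ (-(1 + ε)) ≤ 1 :=
        Real.rpow_le_one_of_one_le_of_nonpos (by exact_mod_cast p.2.one_le) (by linarith)
      rw [_root_.sq]
      exact mul_le_of_le_one_right (by positivity) h2
    have hM : M * M ≠ 0 := mul_ne_zero hM0 hM0
    refine Summable.of_nonneg_of_le (fun p => tsum_nonneg fun j => ?_) (fun p => ?_)
      ((h1.2.add (hs2.mul_left 2)).add (bq_summable hM))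
    · refine mul_nonneg (W_nonneg _ _) ?_
      rw [Complex.mul_conj, Complex.normSq_eq_norm_sq, Complex.ofReal_re]
      positivity
    · have h2 := (loc_sum M M hf hf 0 0 hε p).2
      rw [sub_zero] at h2
      have h3 := hf.LF_self hε p
      linarith
  · intro x
    show 0 ≤ _
    refine mul_nonneg (W_nonneg _ _) ?_
    rw [Complex.mul_conj, Complex.normSq_eq_norm_sq, Complex.ofReal_re]
    positivity

end

section
variable {a e b e' : ℕ → ℂ}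

/-- **Lower bound for the Rankin-Selberg series.** -/
theorem ip_le_log {M₁ M₂ : ℕ} (h1M : M₁ ≠ 0) (h2M : M₂ ≠ 0) (hf : Mu a e) (hg : Mu b e')
    (τ τ' : ℝ) {ε : ℝ} (hε : 0 < ε) :
    ip (W ε) (UU M₁ a e τ) (UU M₂ b e' τ') ≤
      Real.log ‖CR a b (pt (τ - τ') ε)‖ + K4 (M₁ * M₂) := by
  set s : ℂ := pt (τ - τ') ε with hs'
  have hre : s.re = 1 + ε := pt_re _ ε
  have hs : 1 < s.re := by rw [hre]; linarith
  have hP := hasProd_CR hf hg hs
  have hM : M₁ * M₂ ≠ 0 := mul_ne_zero h1M h2M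
  have hsum := L2.summable (W_nonneg ε) (hf.l2 M₁ h1M τ hε) (hg.l2 M₂ h2M τ' hε)
  have hip : ip (W ε) (UU M₁ a e τ) (UU M₂ b e' τ') =
      ∑' p : Nat.Primes, ∑' j : ℕ,
        W ε (p, j) * (UU M₁ a e τ (p, j) * conj (UU M₂ b e' τ' (p, j))).re := by
    unfold ip
    exact hsum.tsum_prod
  have hsum1 : Summable fun p : Nat.Primes =>
      ∑' j : ℕ, W ε (p, j) * (UU M₁ a e τ (p, j) * conj (UU M₂ b e' τ' (p, j))).re := hsum.prod
  have hs2 : Summable fun p : Nat.Primes => ((p : ℕ) : ℝ) ^ (-2 : ℝ) :=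
    Nat.Primes.summable_rpow.2 (by norm_num)
  have hle2 : ∀ p : Nat.Primes, (((p : ℕ) : ℝ) ^ (-(1 + ε))) ^ 2 ≤ ((p : ℕ) : ℝ) ^ (-2 : ℝ) := by
    intro p
    have hp1 : (1 : ℝ) ≤ (p : ℕ) := by exact_mod_cast p.2.one_le
    rw [← Real.rpow_natCast, ← Real.rpow_mul (by positivity)]
    refine Real.rpow_le_rpow_of_exponent_le hp1 ?_
    push_cast
    linarith
  have hsum2 : Summable fun p : Nat.Primes => (((p : ℕ) : ℝ) ^ (-(1 + ε))) ^ 2 :=
    Summable.of_nonneg_of_le (fun p => by positivity) hle2 hs2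
  have hsumb := bq_summable hM
  have hsum3 := (hsum1.sub (hsum2.mul_left 2)).sub hsumb
  have hfin : ∀ T : Finset Nat.Primes, Real.exp (∑ p ∈ T, ((∑' j : ℕ, W ε (p, j) *
      (UU M₁ a e τ (p, j) * conj (UU M₂ b e' τ' (p, j))).re) -
      2 * (((p : ℕ) : ℝ) ^ (-(1 + ε))) ^ 2 - bq (M₁ * M₂) p)) ≤ ‖∏ p ∈ T, LF a b s p‖ := by
    intro T
    rw [norm_prod, Real.exp_sum]
    refine Finset.prod_le_prod (fun p _ => (Real.exp_pos _).le) fun p _ => ?_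
    have h1 : 0 < ‖LF a b s p‖ := lt_of_lt_of_le (by norm_num) (LF_facts hf hg hs p).1
    have h2 := (loc_sum M₁ M₂ hf hg τ τ' hε p).2
    rw [← hs'] at h2
    rw [← Real.exp_log h1]
    exact Real.exp_le_exp.2 h2
  have hlim1 : Tendsto (fun T : Finset Nat.Primes => Real.exp (∑ p ∈ T, ((∑' j : ℕ, W ε (p, j) *
      (UU M₁ a e τ (p, j) * conj (UU M₂ b e' τ' (p, j))).re) -
      2 * (((p : ℕ) : ℝ) ^ (-(1 + ε))) ^ 2 - bq (M₁ * M₂) p))) atTop
      (𝓝 (Real.exp (∑' p : Nat.Primes, ((∑' j : ℕ, W ε (p, j) *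
      (UU M₁ a e τ (p, j) * conj (UU M₂ b e' τ' (p, j))).re) -
      2 * (((p : ℕ) : ℝ) ^ (-(1 + ε))) ^ 2 - bq (M₁ * M₂) p)))) :=
    (Real.continuous_exp.tendsto _).comp hsum3.hasSum
  have hlim2 : Tendsto (fun T : Finset Nat.Primes => ‖∏ p ∈ T, LF a b s p‖) atTop
      (𝓝 ‖CR a b s‖) := Tendsto.norm hP
  have h3 := le_of_tendsto_of_tendsto' hlim1 hlim2 hfin
  have h4 := Real.log_le_log (Real.exp_pos _) h3
  rw [Real.log_exp, (hsum1.sub (hsum2.mul_left 2)).tsum_sub hsumb,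
    hsum1.tsum_sub (hsum2.mul_left 2), tsum_mul_left, ← hip] at h4
  have h5 : ∑' p : Nat.Primes, (((p : ℕ) : ℝ) ^ (-(1 + ε))) ^ 2 ≤
      ∑' p : Nat.Primes, ((p : ℕ) : ℝ) ^ (-2 : ℝ) := hsum2.tsum_le_tsum hle2 hs2
  unfold K4
  linarith

/-- **One-sided orthogonality.** -/
theorem cross_of {M₁ M₂ : ℕ} (h1M : M₁ ≠ 0) (h2M : M₂ ≠ 0) (hf : Mu a e) (hg : Mu b e')
    {τ τ' : ℝ} (h : ∃ C : ℝ, ∀ᶠ ε : ℝ in 𝓝[>] 0, ‖CR a b (pt (τ - τ') ε)‖ ≤ C) :
    ∃ C : ℝ, ∀ᶠ ε : ℝ in 𝓝[>] 0, ip (W ε) (UU M₁ a e τ) (UU M₂ b e' τ') ≤ C := by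
  obtain ⟨C, hC⟩ := h
  refine ⟨Real.log (|C| + 1) + K4 (M₁ * M₂), ?_⟩
  filter_upwards [hC, self_mem_nhdsWithin] with ε h3 h4
  have hε : (0 : ℝ) < ε := h4
  refine (ip_le_log h1M h2M hf hg τ τ' hε).trans ?_
  have h5 : Real.log ‖CR a b (pt (τ - τ') ε)‖ ≤ Real.log (|C| + 1) := by
    rcases eq_or_lt_of_le (norm_nonneg (CR a b (pt (τ - τ') ε))) with h6 | h6
    · rw [← h6, Real.log_zero]
      exact Real.log_nonneg (by have := abs_nonneg C; linarith)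
    · refine Real.log_le_log h6 ?_
      have := le_abs_self C
      linarith
  linarith

end

end

end Run7.h186.NV
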