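import Pool.Agent.Run7.h186.NT12
import Mathlib.NumberTheory.ModularForms.Bounds
import Mathlib.Analysis.Fourier.ZMod
import Mathlib.NumberTheory.LSeries.MellinEqDirichlet

/-! The twist of a cusp form by a periodic function is bounded near the edge line. -/

set_option autoImplicit false
set_option linter.unusedSectionVars false

namespace Run7.h186.NV

open MeasureTheory Filter Topology UpperHalfPlane CongruenceSubgroup Complex Set
open scoped ENNReal MatrixGroups ModularForm Pointwise ComplexConjugate ZMod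
open Run7.h186.ML (pt pt_re)
open Run7.h186.NT (S1 aq lm CR Sm Sq Sq_of CR_summable hasSum_f summable_f aq_zero)
open Pool.Agent.W165.RS (ee norm_ee)

noncomputable section

variable {N k q : ℕ} [NeZero N] [NeZero q]

/-- the coefficients of the expansion of a periodic function in exponentials -/
def cf (Φ : ZMod q → ℂ) (b : ZMod q) : ℂ := (q : ℂ)⁻¹ * ZMod.dft Φ b

theorem cf_expand (Φ : ZMod q → ℂ) (n : ℕ) :
    Φ (n : ZMod q) = ∑ b : ZMod q, cf Φ b * ee n ((b.val : ℝ) / q) := by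
  have h1 : ZMod.dft.symm (ZMod.dft Φ) (n : ZMod q) = Φ (n : ZMod q) := by
    rw [LinearEquiv.symm_apply_apply]
  rw [← h1, ZMod.invDFT_apply, smul_eq_mul, Finset.mul_sum]
  refine Finset.sum_congr rfl fun b _ => ?_
  have e1 : (b * (n : ZMod q)) = (((b.val * n : ℕ) : ℤ) : ZMod q) := by
    push_cast
    rw [ZMod.natCast_zmod_val]
  rw [e1, ZMod.stdAddChar_coe]
  unfold cf ee
  rw [smul_eq_mul]
  have e2 : cexp (2 * Real.pi * Complex.I * ((b.val * n : ℕ) : ℤ) / q) =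
      cexp (2 * Real.pi * ((n : ℤ) : ℂ) * (((b.val : ℝ) / q : ℝ) : ℂ) * Complex.I) := by
    congr 1
    push_cast
    ring
  rw [e2]
  ring

variable (f : S1 N k) (Φ : ZMod q → ℂ)

/-- the twisted coefficients -/
def tq (n : ℕ) : ℂ := aq f n * Φ (n : ZMod q)

/-- the twisted form on the imaginary axis -/
def FT (t : ℝ) : ℂ := ∑' n : ℕ, tq f Φ n * (Real.exp (-(2 * Real.pi * n) * t) : ℝ)

theorem hasSum_FT {t : ℝ} (ht : 0 < t) :
    HasSum (fun n : ℕ => tq f Φ n * ((Real.exp (-(2 * Real.pi * n) * t) : ℝ) : ℂ))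
      (∑ b : ZMod q, cf Φ b * f ⟨((b.val : ℝ) / q : ℝ) + t * Complex.I, by simpa using ht⟩) := by
  have h1 : HasSum (fun n : ℕ => ∑ b : ZMod q, cf Φ b *
      ((aq f n * ((Real.exp (-(2 * Real.pi * n * t)) : ℝ) : ℂ)) * ee n ((b.val : ℝ) / q)))
      (∑ b : ZMod q, cf Φ b * f ⟨((b.val : ℝ) / q : ℝ) + t * Complex.I, by simpa using ht⟩) :=
    hasSum_sum fun b _ => (hasSum_f f ((b.val : ℝ) / q) ht).mul_left _
  refine h1.congr_fun fun n => ?_
  unfold tq
  rw [cf_expand Φ n, neg_mul, Finset.mul_sum, Finset.sum_mul]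
  refine Finset.sum_congr rfl fun b _ => ?_
  ring

theorem FT_eq {t : ℝ} (ht : 0 < t) : FT f Φ t =
    ∑ b : ZMod q, cf Φ b * f ⟨((b.val : ℝ) / q : ℝ) + t * Complex.I, by simpa using ht⟩ :=
  (hasSum_FT f Φ ht).tsum_eq

/-- the bound near `0` -/
theorem FT_zero : ∃ A : ℝ, 0 ≤ A ∧ ∀ t : ℝ, 0 < t → ‖FT f Φ t‖ ≤ A * t ^ (-((k : ℝ) / 2)) := by
  obtain ⟨C, hC⟩ := CuspFormClass.exists_bound (k := (k : ℤ))
    (Γ := (Gamma1 N : Subgroup (GL (Fin 2) ℝ))) f
  refine ⟨(∑ b : ZMod q, ‖cf Φ b‖) * |C|, by positivity, fun t ht => ?_⟩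
  rw [FT_eq f Φ ht, Finset.sum_mul, Finset.sum_mul]
  refine norm_sum_le_of_le _ fun b _ => ?_
  rw [norm_mul, mul_assoc]
  refine mul_le_mul_of_nonneg_left ?_ (norm_nonneg _)
  refine (hC _).trans ?_
  have e1 : (⟨((b.val : ℝ) / q : ℝ) + t * Complex.I, by simpa using ht⟩ : ℍ).im = t := by
    show (((((b.val : ℝ) / q : ℝ) : ℂ)) + t * Complex.I).im = t
    simp
  rw [e1, Real.rpow_neg ht.le, ← div_eq_mul_inv, Int.cast_natCast]
  exact div_le_div_of_nonneg_right (le_abs_self C) (by positivity)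

/-- the bound near infinity -/
theorem FT_infty (hΦ : ∀ x, ‖Φ x‖ ≤ 1) : ∃ A : ℝ, 0 ≤ A ∧ ∀ t : ℝ, 1 ≤ t →
    ‖FT f Φ t‖ ≤ A * Real.exp (-(Real.pi * t)) := by
  have hs := summable_f f (show (0 : ℝ) < 1 / 2 by norm_num)
  refine ⟨∑' n : ℕ, ‖aq f n * ((Real.exp (-(2 * Real.pi * n * (1 / 2))) : ℝ) : ℂ)‖,
    tsum_nonneg fun n => norm_nonneg _, fun t ht => ?_⟩
  unfold FT
  rw [← tsum_mul_right]
  refine tsum_of_norm_bounded (hs.mul_right _).hasSum fun n => ?_
  rcases Nat.eq_zero_or_pos n with rfl | hn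
  · unfold tq
    rw [aq_zero]
    simp
  · have hn1 : (1 : ℝ) ≤ n := by exact_mod_cast hn
    unfold tq
    rw [norm_mul, norm_mul, norm_mul, Complex.norm_real, Complex.norm_real,
      Real.norm_of_nonneg (Real.exp_pos _).le, Real.norm_of_nonneg (Real.exp_pos _).le,
      mul_assoc ‖aq f n‖, mul_assoc ‖aq f n‖]
    refine mul_le_mul_of_nonneg_left ?_ (norm_nonneg _)
    calc ‖Φ n‖ * Real.exp (-(2 * Real.pi * n) * t) ≤ 1 * Real.exp (-(2 * Real.pi * n) * t) :=
          mul_le_mul_of_nonneg_right (hΦ _) (Real.exp_pos _).le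
      _ = Real.exp (-(2 * Real.pi * n) * t) := one_mul _
      _ ≤ Real.exp (-(2 * Real.pi * n * (1 / 2)) + -(Real.pi * t)) := by
          refine Real.exp_le_exp.2 ?_
          have hpi := Real.pi_pos
          have h1 : (n : ℝ) ≤ n * t := le_mul_of_one_le_right (by positivity) ht
          have h2 : t ≤ n * t := le_mul_of_one_le_left (by linarith) hn1
          nlinarith
      _ = _ := Real.exp_add _ _

/-- the bound -/
theorem FT_bound (hΦ : ∀ x, ‖Φ x‖ ≤ 1) : ∃ A : ℝ, 0 ≤ A ∧ ∀ t : ℝ, 0 < t →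
    ‖FT f Φ t‖ ≤ A * (t ^ (-((k : ℝ) / 2)) * Real.exp (-t)) := by
  obtain ⟨A, hA, h0⟩ := FT_zero f Φ
  obtain ⟨B, hB, h1⟩ := FT_infty f Φ hΦ
  refine ⟨A * Real.exp 1 + B * (k.factorial : ℝ), by positivity, fun t ht => ?_⟩
  have hp : (0 : ℝ) ≤ t ^ (-((k : ℝ) / 2)) := by positivity
  rcases le_total t 1 with h | h
  · refine (h0 t ht).trans ?_
    have h2 : (1 : ℝ) ≤ Real.exp 1 * Real.exp (-t) := by
      rw [← Real.exp_add]
      exact Real.one_le_exp (by linarith)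
    have h3 : A * t ^ (-((k : ℝ) / 2)) ≤ A * Real.exp 1 * (t ^ (-((k : ℝ) / 2)) * Real.exp (-t)) := by
      have := mul_le_mul_of_nonneg_left h2 (mul_nonneg hA hp)
      linarith
    have h4 : 0 ≤ B * (k.factorial : ℝ) * (t ^ (-((k : ℝ) / 2)) * Real.exp (-t)) := by positivity
    linarith
  · refine (h1 t h).trans ?_
    have h2 : t ^ ((k : ℝ) / 2) ≤ (k.factorial : ℝ) * Real.exp t := by
      have g1 : t ^ ((k : ℝ) / 2) ≤ t ^ (k : ℝ) := Real.rpow_le_rpow_of_exponent_le h (by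
        have : (0 : ℝ) ≤ k := Nat.cast_nonneg k
        linarith)
      rw [Real.rpow_natCast] at g1
      have g2 := Real.pow_div_factorial_le_exp t ht.le k
      rw [div_le_iff₀ (by positivity)] at g2
      linarith
    have h3 : Real.exp (-(Real.pi * t)) ≤ Real.exp (-t) * Real.exp (-t) := by
      rw [← Real.exp_add]
      refine Real.exp_le_exp.2 ?_
      nlinarith [Real.pi_gt_three]
    have h4 : (1 : ℝ) ≤ t ^ (-((k : ℝ) / 2)) * ((k.factorial : ℝ) * Real.exp t) := by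
      have g1 : t ^ (-((k : ℝ) / 2)) * t ^ ((k : ℝ) / 2) = 1 := by
        rw [← Real.rpow_add ht, neg_add_cancel, Real.rpow_zero]
      rw [← g1]
      exact mul_le_mul_of_nonneg_left h2 hp
    have h5 : Real.exp (-t) * Real.exp (-t) ≤ (k.factorial : ℝ) *
        (t ^ (-((k : ℝ) / 2)) * Real.exp (-t)) := by
      have g1 := mul_le_mul_of_nonneg_left h4
        (mul_nonneg (Real.exp_pos (-t)).le (Real.exp_pos (-t)).le)
      have g2 : Real.exp (-t) * Real.exp t = 1 := by rw [← Real.exp_add, neg_add_cancel, Real.exp_zero]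
      calc Real.exp (-t) * Real.exp (-t) = Real.exp (-t) * Real.exp (-t) * 1 := by ring
        _ ≤ _ := g1
        _ = (k.factorial : ℝ) * (t ^ (-((k : ℝ) / 2)) * Real.exp (-t)) *
            (Real.exp (-t) * Real.exp t) := by ring
        _ = _ := by rw [g2, mul_one]
    have h6 : B * Real.exp (-(Real.pi * t)) ≤ B * ((k.factorial : ℝ) *
        (t ^ (-((k : ℝ) / 2)) * Real.exp (-t))) := mul_le_mul_of_nonneg_left (h3.trans h5) hB
    have h7 : 0 ≤ A * Real.exp 1 * (t ^ (-((k : ℝ) / 2)) * Real.exp (-t)) := by positivity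
    linarith

/-- the bound of the Mellin transform -/
theorem mellin_le (hΦ : ∀ x, ‖Φ x‖ ≤ 1) : ∃ A : ℝ, 0 ≤ A ∧ ∀ s : ℂ, (k : ℝ) / 2 < s.re →
    ‖mellin (FT f Φ) s‖ ≤ A * Real.Gamma (s.re - (k : ℝ) / 2) := by
  obtain ⟨A, hA, h⟩ := FT_bound f Φ hΦ
  refine ⟨A, hA, fun s hs => ?_⟩
  have hpos : 0 < s.re - (k : ℝ) / 2 := by linarith
  rw [Real.Gamma_eq_integral hpos, ← integral_const_mul]
  unfold mellin
  refine norm_integral_le_of_norm_le ((Real.GammaIntegral_convergent hpos).const_mul A) ?_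
  refine (ae_restrict_iff' measurableSet_Ioi).2 (ae_of_all _ fun t ht => ?_)
  have ht0 : (0 : ℝ) < t := ht
  rw [norm_smul, Complex.norm_cpow_eq_rpow_re_of_pos ht0, Complex.sub_re, Complex.one_re]
  have h1 := mul_le_mul_of_nonneg_left (h t ht0) (show (0 : ℝ) ≤ t ^ (s.re - 1) by positivity)
  refine h1.trans (le_of_eq ?_)
  have e1 : t ^ (s.re - (k : ℝ) / 2 - 1) = t ^ (s.re - 1) * t ^ (-((k : ℝ) / 2)) := by
    rw [← Real.rpow_add ht0]
    congr 1
    ring
  rw [e1]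
  ring

/-- **The twist is bounded near the edge line.** -/
theorem twist_bdd (hk : 0 < k) (hf : Sm f) (ξ : DirichletCharacter ℂ q) (τ : ℝ) :
    ∃ C : ℝ, ∀ᶠ ε : ℝ in 𝓝[>] 0, ‖CR (lm f) (fun n => ξ n) (pt τ ε)‖ ≤ C := by
  set Φ : ZMod q → ℂ := fun x => conj (ξ x) with hΦd
  have hΦ : ∀ x, ‖Φ x‖ ≤ 1 := fun x => by
    rw [hΦd]
    simp only
    rw [Complex.norm_conj]
    exact DirichletCharacter.norm_le_one ξ x
  obtain ⟨A, hA, hm⟩ := mellin_le f Φ hΦ
  set S : ℝ → ℂ := fun ε => pt τ ε + ((k : ℂ) - 1) / 2 with hS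
  have hSre : ∀ ε : ℝ, (S ε).re = ((k : ℝ) + 1) / 2 + ε := by
    intro ε
    rw [hS]
    simp only
    rw [Complex.add_re, pt_re]
    have : (((k : ℂ) - 1) / 2).re = ((k : ℝ) - 1) / 2 := by
      have e : (((k : ℂ) - 1) / 2) = (((((k : ℝ) - 1) / 2 : ℝ)) : ℂ) := by push_cast; ring
      rw [e, Complex.ofReal_re]
    rw [this]
    ring
  have hk1 : (1 : ℝ) ≤ k := by exact_mod_cast hk
  have hScont : Continuous S := by
    rw [hS]
    unfold pt
    fun_prop
  have hpi : ((2 * Real.pi : ℝ) : ℂ) ≠ 0 := by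
    exact_mod_cast (by positivity : (2 * Real.pi : ℝ) ≠ 0)
  -- the value
  have hval : ∀ ε : ℝ, 0 < ε → Complex.Gamma (S ε) * CR (lm f) (fun n => ξ n) (pt τ ε) =
      ((2 * Real.pi : ℝ) : ℂ) ^ (S ε) * mellin (FT f Φ) (S ε) := by
    intro ε hε
    have hre : 0 < (S ε).re := by rw [hSre]; positivity
    have hterm : ∀ n : ℕ, lm f n * conj (ξ n) * (n : ℂ) ^ (-(pt τ ε)) =
        tq f Φ n * (n : ℂ) ^ (-(S ε)) := by
      intro n
      rcases Nat.eq_zero_or_pos n with rfl | hn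
      · unfold lm tq
        rw [aq_zero]
        simp
      · have hnc : (n : ℂ) ≠ 0 := by exact_mod_cast hn.ne'
        unfold lm tq
        rw [hΦd, hS]
        simp only
        have e1 : (((n : ℝ) ^ (-(((k : ℝ) - 1) / 2)) : ℝ) : ℂ) =
            (n : ℂ) ^ (-(((k : ℂ) - 1) / 2)) := by
          rw [Complex.ofReal_cpow (Nat.cast_nonneg n)]
          push_cast
          rfl
        have e2 : (n : ℂ) ^ (-(pt τ ε + ((k : ℂ) - 1) / 2)) =
            (n : ℂ) ^ (-(pt τ ε)) * (n : ℂ) ^ (-(((k : ℂ) - 1) / 2)) := by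
          rw [← Complex.cpow_add _ _ hnc]
          congr 1
          ring
        rw [e1, e2]
        ring
    have hsumn : Summable fun n : ℕ => ‖tq f Φ n‖ / (2 * Real.pi * n) ^ (S ε).re := by
      have h1 : Summable fun n : ℕ => ‖lm f n * conj (ξ n) * (n : ℂ) ^ (-(pt τ ε))‖ := by
        refine CR_summable (b := fun n => ξ n) (by rw [pt_re]; positivity) (Sq_of hf (by
          rw [pt_re]; linarith)) ?_
        unfold Sq
        refine Summable.of_nonneg_of_le (fun n => by positivity) (fun n => ?_)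
          (Real.summable_nat_rpow.2 (by rw [pt_re]; linarith : -(pt τ ε).re < -1))
        have h2 := DirichletCharacter.norm_le_one ξ (n : ZMod q)
        have h3 : ‖ξ n‖ ^ 2 ≤ 1 := pow_le_one₀ (norm_nonneg _) h2
        exact mul_le_of_le_one_left (by positivity) h3
      simp_rw [hterm] at h1
      refine (h1.mul_right ((2 * Real.pi) ^ (-(S ε).re))).congr fun n => ?_
      rcases Nat.eq_zero_or_pos n with rfl | hn
      · unfold tq
        rw [aq_zero]
        simp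
      · have e0 : (2 * Real.pi * (n : ℝ)) ^ (S ε).re =
            (2 * Real.pi) ^ (S ε).re * (n : ℝ) ^ (S ε).re :=
          Real.mul_rpow (by positivity) (by positivity)
        rw [norm_mul, Complex.norm_natCast_cpow_of_pos hn, Complex.neg_re, e0, div_eq_mul_inv,
          mul_inv, Real.rpow_neg (Nat.cast_nonneg n),
          Real.rpow_neg (by positivity : (0 : ℝ) ≤ 2 * Real.pi)]
        ring
    have h1 := hasSum_mellin (a := tq f Φ) (p := fun n : ℕ => 2 * Real.pi * n) (F := FT f Φ)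
      (s := S ε) (fun n => by
        rcases Nat.eq_zero_or_pos n with rfl | hn
        · left
          unfold tq
          rw [aq_zero, zero_mul]
        · right
          have : (0 : ℝ) < n := by exact_mod_cast hn
          positivity) hre (fun t ht => by
        rw [FT_eq f Φ ht]
        exact hasSum_FT f Φ ht) hsumn
    rw [← h1.tsum_eq, ← tsum_mul_left]
    unfold CR
    rw [← tsum_mul_left]
    refine tsum_congr fun n => ?_
    rw [hterm]
    rcases Nat.eq_zero_or_pos n with rfl | hn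
    · unfold tq
      rw [aq_zero]
      simp
    · have hnr : (0 : ℝ) < n := by exact_mod_cast hn
      have hnc : (n : ℂ) ≠ 0 := by exact_mod_cast hn.ne'
      have e1 : ((2 * Real.pi * n : ℝ) : ℂ) ^ (S ε) = ((2 * Real.pi : ℝ) : ℂ) ^ (S ε) *
          (n : ℂ) ^ (S ε) := by
        rw [Complex.ofReal_mul, Complex.mul_cpow_ofReal_nonneg (by positivity) hnr.le]
        rfl
      rw [e1, Complex.cpow_neg]
      have h2 : ((2 * Real.pi : ℝ) : ℂ) ^ (S ε) ≠ 0 := by
        rw [Complex.cpow_def_of_ne_zero hpi]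
        exact Complex.exp_ne_zero _
      have h3 : (n : ℂ) ^ (S ε) ≠ 0 := by
        rw [Complex.cpow_def_of_ne_zero hnc]
        exact Complex.exp_ne_zero _
      field_simp
  -- the limits
  have hG0 : Complex.Gamma (S 0) ≠ 0 := Complex.Gamma_ne_zero_of_re_pos (by
    rw [hSre]; positivity)
  have hGc : ContinuousAt Complex.Gamma (S 0) := by
    refine (Complex.differentiableAt_Gamma _ fun m => ?_).continuousAt
    intro h
    have h1 := congrArg Complex.re h
    rw [hSre, Complex.neg_re, Complex.natCast_re] at h1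
    have : (0 : ℝ) ≤ m := Nat.cast_nonneg m
    linarith
  have hGr : ContinuousAt Real.Gamma (1 / 2) := by
    refine (Real.differentiableAt_Gamma fun m => ?_).continuousAt
    have : (0 : ℝ) ≤ m := Nat.cast_nonneg m
    intro h
    linarith
  have hlim : Tendsto (fun ε : ℝ => ‖Complex.Gamma (S ε)‖⁻¹ *
      (‖((2 * Real.pi : ℝ) : ℂ) ^ (S ε)‖ * (A * Real.Gamma (1 / 2 + ε)))) (𝓝[>] 0)
      (𝓝 (‖Complex.Gamma (S 0)‖⁻¹ *
      (‖((2 * Real.pi : ℝ) : ℂ) ^ (S 0)‖ * (A * Real.Gamma (1 / 2 + 0))))) := by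
    have hS0 : Tendsto S (𝓝[>] 0) (𝓝 (S 0)) := hScont.continuousWithinAt.tendsto
    have h1 : Tendsto (fun ε : ℝ => ‖Complex.Gamma (S ε)‖⁻¹) (𝓝[>] 0)
        (𝓝 (‖Complex.Gamma (S 0)‖⁻¹)) :=
      ((hGc.tendsto.comp hS0).norm).inv₀ (norm_ne_zero_iff.2 hG0)
    have h2 : Tendsto (fun ε : ℝ => ‖((2 * Real.pi : ℝ) : ℂ) ^ (S ε)‖) (𝓝[>] 0)
        (𝓝 ‖((2 * Real.pi : ℝ) : ℂ) ^ (S 0)‖) := by
      have h3 : Continuous fun ε : ℝ => ((2 * Real.pi : ℝ) : ℂ) ^ (S ε) :=
        hScont.const_cpow (Or.inl hpi)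
      exact h3.norm.continuousWithinAt.tendsto
    have h3 : Tendsto (fun ε : ℝ => 1 / 2 + ε) (𝓝[>] 0) (𝓝 (1 / 2 + 0)) := by
      have : Continuous fun ε : ℝ => (1 / 2 : ℝ) + ε := by fun_prop
      exact this.continuousWithinAt.tendsto
    have h4 : Tendsto (fun ε : ℝ => Real.Gamma (1 / 2 + ε)) (𝓝[>] 0)
        (𝓝 (Real.Gamma (1 / 2 + 0))) := by
      rw [add_zero] at h3 ⊢
      exact hGr.tendsto.comp h3
    exact h1.mul (h2.mul (h4.const_mul A))
  obtain ⟨C, hC⟩ := hlim.isBoundedUnder_le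
  refine ⟨C, ?_⟩
  filter_upwards [Filter.eventually_map.1 hC, self_mem_nhdsWithin] with ε h1 h2
  have hε : (0 : ℝ) < ε := h2
  refine le_trans ?_ h1
  have hG : Complex.Gamma (S ε) ≠ 0 := Complex.Gamma_ne_zero_of_re_pos (by
    rw [hSre]; positivity)
  have e1 : CR (lm f) (fun n => ξ n) (pt τ ε) = (Complex.Gamma (S ε))⁻¹ *
      (((2 * Real.pi : ℝ) : ℂ) ^ (S ε) * mellin (FT f Φ) (S ε)) := by
    rw [← hval ε hε, ← mul_assoc, inv_mul_cancel₀ hG, one_mul]
  rw [e1, norm_mul, norm_inv, norm_mul]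
  have h3 := hm (S ε) (by rw [hSre]; linarith)
  have e2 : (S ε).re - (k : ℝ) / 2 = 1 / 2 + ε := by rw [hSre]; ring
  rw [e2] at h3
  gcongr

end

end Run7.h186.NV
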