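import Pool.Agent.Run7.h186.NV1
import Mathlib.NumberTheory.LSeries.DirichletContinuation

/-! Dirichlet characters. -/

set_option autoImplicit false
set_option linter.unusedSectionVars false

namespace Run7.h186.NV

open Filter Topology Complex
open scoped ComplexConjugate
open Run7.h186.ML (pt pt_re)
open Run7.h186.NT (CR Sq Rc)
open Run7.h186.NU (PP W W_nonneg tw norm_tw al be us al_add al_mul L2 ip L2_bdd K4)
open Pool.Agent.H341R2 (lam K2)

noncomputable section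

/-- the character as a function on the natural numbers, `0` at `0` -/
def cn {M : ℕ} (χ : DirichletCharacter ℂ M) (n : ℕ) : ℂ := if n = 0 then 0 else χ (n : ZMod M)

theorem cn_ne {M : ℕ} (χ : DirichletCharacter ℂ M) {n : ℕ} (h : n ≠ 0) :
    cn χ n = χ (n : ZMod M) := if_neg h

theorem norm_cn {M : ℕ} (χ : DirichletCharacter ℂ M) (n : ℕ) : ‖cn χ n‖ ≤ 1 := by
  unfold cn
  split_ifs
  · simp
  · exact DirichletCharacter.norm_le_one χ _

theorem cn_mul {M : ℕ} (χ : DirichletCharacter ℂ M) (m n : ℕ) : cn χ (m * n) = cn χ m * cn χ n := by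
  unfold cn
  by_cases hm : m = 0
  · simp [hm]
  · by_cases hn : n = 0
    · simp [hn]
    · rw [if_neg hm, if_neg hn, if_neg (mul_ne_zero hm hn), Nat.cast_mul, map_mul]

theorem cn_pow {M : ℕ} (χ : DirichletCharacter ℂ M) (p j : ℕ) : cn χ (p ^ j) = cn χ p ^ j := by
  induction j with
  | zero => simp [cn]
  | succ j ih => rw [pow_succ, cn_mul, ih, pow_succ]

theorem chr_mu {M : ℕ} (χ : DirichletCharacter ℂ M) : Mu (cn χ) (fun _ => 0) := by
  refine ⟨by simp [cn], by simp [cn], fun m n _ => cn_mul χ m n, fun p hp => ?_, fun s hs => ?_⟩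
  · refine ⟨by simp [cn], by simp, fun k => ?_, by simp⟩
    rw [cn_pow, cn_pow]
    ring
  · refine Summable.of_nonneg_of_le (fun n => by positivity) (fun n => ?_)
      (Real.summable_nat_rpow.2 (by linarith : -s < -1))
    have h3 : ‖cn χ n‖ ^ 2 ≤ 1 := pow_le_one₀ (norm_nonneg _) (norm_cn χ n)
    exact mul_le_of_le_one_left (by positivity) h3

/-- the power sums of one root -/
theorem us_zero (t : ℂ) (k : ℕ) : us t 0 k = t ^ (k + 1) := by
  have h1 := al_add t 0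
  have h2 := al_mul t 0
  unfold us
  rcases mul_eq_zero.1 h2 with h | h
  · rw [h, zero_add] at h1
    rw [h, h1, zero_pow (Nat.succ_ne_zero k), zero_add]
  · rw [h, add_zero] at h1
    rw [h, h1, zero_pow (Nat.succ_ne_zero k), add_zero]

theorem CR_cn_left {M : ℕ} (χ : DirichletCharacter ℂ M) (b : ℕ → ℂ) {s : ℂ} (hs : s ≠ 0) :
    CR (cn χ) b s = CR (fun n => χ n) b s := by
  unfold CR
  refine tsum_congr fun n => ?_
  rcases Nat.eq_zero_or_pos n with rfl | hn
  · rw [Nat.cast_zero, Complex.zero_cpow (neg_ne_zero.2 hs), mul_zero, mul_zero]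
  · rw [cn_ne χ hn.ne']

theorem CR_cn_right {M : ℕ} (χ : DirichletCharacter ℂ M) (a : ℕ → ℂ) {s : ℂ} (hs : s ≠ 0) :
    CR a (cn χ) s = CR a (fun n => χ n) s := by
  unfold CR
  refine tsum_congr fun n => ?_
  rcases Nat.eq_zero_or_pos n with rfl | hn
  · rw [Nat.cast_zero, Complex.zero_cpow (neg_ne_zero.2 hs), mul_zero, mul_zero]
  · rw [cn_ne χ hn.ne']

section
variable {M₁ M₂ : ℕ} [NeZero M₁] [NeZero M₂]

/-- the character `χ ξ⁻¹` -/
def om (χ : DirichletCharacter ℂ M₁) (ξ : DirichletCharacter ℂ M₂) :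
    DirichletCharacter ℂ (M₁ * M₂) :=
  DirichletCharacter.changeLevel (dvd_mul_right M₁ M₂) χ *
    (DirichletCharacter.changeLevel (dvd_mul_left M₂ M₁) ξ)⁻¹

theorem om_apply (χ : DirichletCharacter ℂ M₁) (ξ : DirichletCharacter ℂ M₂) (n : ℕ) :
    om χ ξ (n : ZMod (M₁ * M₂)) = χ n * conj (ξ n) := by
  by_cases h : n.Coprime (M₁ * M₂)
  · have h1 : IsCoprime (n : ℤ) ((M₁ * M₂ : ℕ) : ℤ) := Nat.isCoprime_iff_coprime.2 h
    have e1 := DirichletCharacter.changeLevel_eq_cast_of_dvd' χ (dvd_mul_right M₁ M₂) h1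
    have e2 := DirichletCharacter.changeLevel_eq_cast_of_dvd' ξ (dvd_mul_left M₂ M₁) h1
    rw [Int.cast_natCast, Int.cast_natCast] at e1 e2
    have h2 : n.Coprime M₂ := Nat.Coprime.coprime_dvd_right (dvd_mul_left M₂ M₁) h
    have h3 : ‖ξ (n : ZMod M₂)‖ = 1 := by
      have := DirichletCharacter.unit_norm_eq_one ξ (ZMod.unitOfCoprime n h2)
      rwa [ZMod.coe_unitOfCoprime] at this
    unfold om
    rw [MulChar.mul_apply, MulChar.inv_apply_eq_inv', e1, e2]
    congr 1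
    rw [Complex.inv_def, Complex.normSq_eq_norm_sq, h3]
    simp
  · have h1 : ¬ IsUnit ((n : ZMod (M₁ * M₂))) := by
      rw [ZMod.isUnit_iff_coprime]
      exact h
    rw [MulChar.map_nonunit _ h1]
    symm
    rw [Nat.coprime_mul_iff_right, not_and_or] at h
    rcases h with h | h
    · have h2 : ¬ IsUnit ((n : ZMod M₁)) := by
        rw [ZMod.isUnit_iff_coprime]
        exact h
      rw [MulChar.map_nonunit _ h2, zero_mul]
    · have h2 : ¬ IsUnit ((n : ZMod M₂)) := by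
        rw [ZMod.isUnit_iff_coprime]
        exact h
      rw [MulChar.map_nonunit _ h2, map_zero, mul_zero]

theorem om_ne (χ : DirichletCharacter ℂ M₁) (ξ : DirichletCharacter ℂ M₂)
    (h : ∃ p : ℕ, p.Prime ∧ ¬ p ∣ M₁ ∧ ¬ p ∣ M₂ ∧ χ p ≠ ξ p) : om χ ξ ≠ 1 := by
  obtain ⟨p, hp, h1, h2, h3⟩ := h
  intro h4
  have g1 : p.Coprime M₁ := (Nat.Prime.coprime_iff_not_dvd hp).2 h1
  have g2 : p.Coprime M₂ := (Nat.Prime.coprime_iff_not_dvd hp).2 h2
  have h5 := om_apply χ ξ p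
  have h6 : IsUnit ((p : ZMod (M₁ * M₂))) := by
    rw [ZMod.isUnit_iff_coprime]
    exact Nat.Coprime.mul_right g1 g2
  rw [h4, MulChar.one_apply h6] at h5
  have h7 : ‖ξ (p : ZMod M₂)‖ = 1 := by
    have := DirichletCharacter.unit_norm_eq_one ξ (ZMod.unitOfCoprime p g2)
    rwa [ZMod.coe_unitOfCoprime] at this
  have h8 : conj (ξ (p : ZMod M₂)) * ξ (p : ZMod M₂) = 1 := by
    rw [mul_comm, Complex.mul_conj, Complex.normSq_eq_norm_sq, h7]
    simp
  refine h3 ?_
  calc χ p = χ p * (conj (ξ (p : ZMod M₂)) * ξ (p : ZMod M₂)) := by rw [h8, mul_one]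
    _ = (χ p * conj (ξ (p : ZMod M₂))) * ξ (p : ZMod M₂) := by ring
    _ = ξ p := by rw [← h5, one_mul]

/-- **Two characters.** -/
theorem chr_bdd (χ : DirichletCharacter ℂ M₁) (ξ : DirichletCharacter ℂ M₂) {τ : ℝ}
    (h : τ ≠ 0 ∨ ∃ p : ℕ, p.Prime ∧ ¬ p ∣ M₁ ∧ ¬ p ∣ M₂ ∧ χ p ≠ ξ p) :
    ∃ C : ℝ, ∀ᶠ ε : ℝ in 𝓝[>] 0, ‖CR (cn χ) (cn ξ) (pt τ ε)‖ ≤ C := by
  have : NeZero (M₁ * M₂) := ⟨mul_ne_zero (NeZero.ne M₁) (NeZero.ne M₂)⟩
  have hd : ContinuousAt (DirichletCharacter.LFunction (om χ ξ)) (pt τ 0) := by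
    refine (DirichletCharacter.differentiableAt_LFunction (om χ ξ) _ ?_).continuousAt
    rcases h with h | h
    · left
      intro h1
      have h2 := congrArg Complex.im h1
      unfold pt at h2
      simp at h2
      exact h h2
    · right
      exact om_ne χ ξ h
  have hpt : Continuous (pt τ) := by
    unfold pt
    fun_prop
  have hlim : Tendsto (fun ε : ℝ => ‖DirichletCharacter.LFunction (om χ ξ) (pt τ ε)‖) (𝓝[>] 0)
      (𝓝 ‖DirichletCharacter.LFunction (om χ ξ) (pt τ 0)‖) :=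
    (hd.tendsto.comp hpt.continuousWithinAt.tendsto).norm
  obtain ⟨C, hC⟩ := hlim.isBoundedUnder_le
  refine ⟨C, ?_⟩
  filter_upwards [Filter.eventually_map.1 hC, self_mem_nhdsWithin] with ε h1 h2
  have hε : (0 : ℝ) < ε := h2
  have hre : 1 < (pt τ ε).re := by rw [pt_re]; linarith
  have hs : pt τ ε ≠ 0 := by
    intro h3
    rw [h3] at hre
    simp at hre
    linarith
  refine le_trans (le_of_eq ?_) h1
  rw [CR_cn_left χ _ hs, CR_cn_right ξ _ hs, DirichletCharacter.LFunction_eq_LSeries _ hre]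
  congr 1
  unfold CR LSeries
  refine tsum_congr fun n => ?_
  rcases Nat.eq_zero_or_pos n with rfl | hn
  · rw [LSeries.term_zero, Nat.cast_zero, Complex.zero_cpow (neg_ne_zero.2 hs), mul_zero]
  · rw [LSeries.term_of_ne_zero hn.ne', om_apply, Complex.cpow_neg, div_eq_mul_inv]

end

end

end Run7.h186.NV
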