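import Pool.Agent.Y149.TL.Defs
import Pool.Agent.Run7.h186.NUDefs

/-!
# Tensor products with Dirichlet characters and newforms on the edge line: definitions

The forms are the Dirichlet characters (automorphic forms of `GL(1)`) and the holomorphic Hecke
eigenforms of any weight, level and character (automorphic forms of `GL(2)`).
-/

set_option autoImplicit false

namespace Run7.h186.NV

open Filter Topology Polynomial
open Pool.Agent.Y149.PK (tens)
open Pool.Agent.Y149.TL (Motive IsEuler HasOrder tensL)

/-- A Dirichlet character `χ` modulo `N ≥ 1`, or a normalised holomorphic Hecke eigenform. -/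
inductive Form
  | chr (N : ℕ) (χ : DirichletCharacter ℂ N) (hN : 0 < N) : Form
  | cusp (f : NU.Eigenform) : Form

/-- the dimension of the Galois representation: `1` for the characters and `2` for the eigenforms -/
def Form.dim : Form → ℕ
  | .chr _ _ _ => 1
  | .cusp _ => 2

/-- the weight of the Galois representation: `0` for the characters and `k - 1` for the eigenforms of
weight `k` -/
def Form.wt : Form → ℕ
  | .chr _ _ _ => 0
  | .cusp f => f.weight - 1

/-- the eigenvalues of Frobenius at `p`: `χ(p)`, or the roots of `X² - a_p X + χ(p) p^{k-1}` -/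
noncomputable def Form.frob : Form → ℕ → Multiset ℂ
  | .chr N χ _, p => {χ (p : ZMod N)}
  | .cusp f, p => NU.frob f p

/-- Two characters differ if `χ(p) ≠ χ'(p)` for some prime `p` not dividing the moduli, that is if they
belong to different primitive characters.  Two eigenforms differ if they have different weights, or
different `a_p` or `χ(p)` for some prime `p` which divides neither level. -/
def Form.Differ : Form → Form → Prop
  | .chr N χ _, .chr N' χ' _ =>
    ∃ p : ℕ, p.Prime ∧ ¬ p ∣ N ∧ ¬ p ∣ N' ∧ χ (p : ZMod N) ≠ χ' (p : ZMod N')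
  | .cusp f, .cusp f' => NU.Differ f f'
  | .chr _ _ _, .cusp _ => True
  | .cusp _, .chr _ _ _ => True

/-- the conjecture of Ramanujan and Petersson (nothing for the characters) -/
def Form.Ramanujan : Form → Prop
  | .chr _ _ _ => True
  | .cusp f => NU.Ramanujan f

/-- The weight of `M ⊗ f_{l_1} ⊗ ⋯ ⊗ f_{l_k}`. -/
def wt {ι : Type} (M : Motive) (f : ι → Form) (l : List ι) : ℤ :=
  M.weight + ((l.map fun e => (f e).wt).sum : ℕ)

/-- The eigenvalues of Frobenius at `p` on `M ⊗ f_{l_1} ⊗ ⋯ ⊗ f_{l_k}`. -/
noncomputable def eig {ι : Type} (M : Motive) (f : ι → Form) (l : List ι) (p : Nat.Primes) :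
    Multiset ℂ := tensL (M.frob p) (fun e => (f e).frob p) l

/-- `B` are the Euler factors of `L(M ⊗ f_{l_1} ⊗ ⋯ ⊗ f_{l_k}, s)`. -/
def IsTensor {ι : Type} (M : Motive) (f : ι → Form) (l : List ι) (B : Nat.Primes → ℂ[X]) :
    Prop :=
  IsEuler (wt M f l) (eig M f l) B

/-- The function `L(M_l ⊗ M_l', s)` has a pole of order `m` at the real point of its edge line, where
`M_l = M ⊗ f_{l_1} ⊗ ⋯ ⊗ f_{l_k}` and `M_l'` has the complex conjugate eigenvalues of Frobenius (it is the
dual of `M_l` up to a Tate twist). -/
def SelfPole {ι : Type} (M : Motive) (f : ι → Form) (l : List ι) (m : ℕ) : Prop :=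
  ∃ B : Nat.Primes → ℂ[X],
    IsEuler (2 * wt M f l) (fun p => tens (eig M f l p) ((eig M f l p).map star)) B ∧
    HasOrder (2 * wt M f l) B 0 (-m)

/-- The bounds: `K = (N d_2 ⋯ d_k)²`, `N` the rank of `M` and `d_i` the dimension of `f_{l_i}`, where the
first form `f_{l_1}` is left out, or `K` is the order of the pole of `L(M_l ⊗ M_l', s)` at the real point
of the edge line. -/
def Bound {ι : Type} (M : Motive) (f : ι → Form) (l : List ι) (K : ℕ) : Prop :=
  K = (M.rank * (l.tail.map fun e => (f e).dim).prod) ^ 2 ∨ SelfPole M f l K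

end Run7.h186.NV
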