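import Pool.Agent.Y149.TL.Defs
import Pool.Agent.Run7.h186.NUDefs

/-!
# Tensor products with newforms of any weight, level and character on the edge line: definitions
-/

set_option autoImplicit false

namespace Run7.h186.NU

open Filter Topology Polynomial
open Pool.Agent.Y149.PK (tens)
open Pool.Agent.Y149.TL (Motive IsEuler HasOrder tensL)

/-- The weight of `M ⊗ f_{l_1} ⊗ ⋯ ⊗ f_{l_k}`: the weight of `M` plus the `k_e - 1`, `k_e` the weight of
the form `f_e`. -/
def wt {ι : Type} (M : Motive) (f : ι → Eigenform) (l : List ι) : ℤ :=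
  M.weight + ((l.map fun e => (f e).weight - 1).sum : ℕ)

/-- The eigenvalues of Frobenius at `p` on `M ⊗ f_{l_1} ⊗ ⋯ ⊗ f_{l_k}`. -/
noncomputable def eig {ι : Type} (M : Motive) (f : ι → Eigenform) (l : List ι) (p : Nat.Primes) :
    Multiset ℂ := tensL (M.frob p) (fun e => frob (f e) p) l

/-- `B` are the Euler factors of `L(M ⊗ f_{l_1} ⊗ ⋯ ⊗ f_{l_k}, s)`. -/
def IsTensor {ι : Type} (M : Motive) (f : ι → Eigenform) (l : List ι) (B : Nat.Primes → ℂ[X]) :
    Prop :=
  IsEuler (wt M f l) (eig M f l) B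

/-- The function `L(M_l ⊗ M_l', s)` has a pole of order `m` at the real point of its edge line, where
`M_l = M ⊗ f_{l_1} ⊗ ⋯ ⊗ f_{l_k}` and `M_l'` has the complex conjugate eigenvalues of Frobenius (it is the
dual of `M_l` up to a Tate twist). -/
def SelfPole {ι : Type} (M : Motive) (f : ι → Eigenform) (l : List ι) (m : ℕ) : Prop :=
  ∃ B : Nat.Primes → ℂ[X],
    IsEuler (2 * wt M f l) (fun p => tens (eig M f l p) ((eig M f l p).map star)) B ∧
    HasOrder (2 * wt M f l) B 0 (-m)

/-- The bounds: `K = N²` if `k ≤ 1` and `K = N² 4^{k-1}` if `k ≥ 1`, `N` the rank of `M` and `k` the length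
of `l`, or `K` is the order of the pole of `L(M_l ⊗ M_l', s)` at the real point of the edge line. -/
def Bound {ι : Type} (M : Motive) (f : ι → Eigenform) (l : List ι) (K : ℕ) : Prop :=
  K = M.rank ^ 2 * 4 ^ (l.length - 1) ∨ SelfPole M f l K

end Run7.h186.NU
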