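import Pool.Agent.Run7.h186.NW2
import Pool.Agent.Run7.h186.NWDefs

/-! The family of the eigenforms. -/

set_option autoImplicit false

namespace Run7.h186.NW

open Finset Filter Topology Complex Polynomial
open scoped ComplexConjugate
open Pool.Agent.H341R2 (lam)
open Pool.Agent.Y149.CM (LFun)
open Pool.Agent.Y149.PK (tens)
open Pool.Agent.Y149.TL
open Run7.h186.NU

noncomputable section

theorem tw_zero (a : PP) : tw 0 a = 1 := by
  unfold tw
  simp

theorem PW_eq (f : Eigenform) (a : PP) :
    PW (M := f.level) (k := f.weight) f.form f.chi a =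
      UU (M := f.level) (k := f.weight) f.form f.chi 0 a := by
  unfold UU
  rw [tw_zero, mul_one]

/-- the twist by an eigenform -/
def twf (f : Eigenform) : Tw where
  wt := (wg f : ℤ)
  frob := fun p => frob f p
  P := PW (M := f.level) (k := f.weight) f.form f.chi
  sys := by
    refine ⟨fun ε hε => ?_, ?_⟩
    · exact l2_mono (W_nonneg ε) (fun a => (congrArg norm (PW_eq f a)).le) (f.hf.l2 0 hε)
    · filter_upwards [good f] with p hp
      refine ⟨frob_le f p, fun k => ?_⟩
      rw [frob_pow]
      unfold PW lmf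
      simp only
      rw [if_neg hp]
  self := by
    obtain ⟨C, hC⟩ := self_le f.hf 0
    refine ⟨C, ?_⟩
    filter_upwards [hC, self_mem_nhdsWithin] with ε h1 h2
    exact (ip_mono (W_nonneg ε) (fun a => (congrArg norm (PW_eq f a)).le)
      (f.hf.l2 0 h2)).trans h1

theorem fam_twf {ι : Type} {f : ι → Eigenform} (hψ : ∀ e e', e ≠ e' → Differ (f e) (f e')) :
    Fam W lam fun x : ι × ℝ => (twf (f x.1)).U x.2 := fam_Fam hψ

theorem ram_twf {ι : Type} {f : ι → Eigenform} {e : ι} (h : Ramanujan (f e)) :
    Ram (fun e => twf (f e)) (fun _ => 2) e := by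
  unfold Ram
  filter_upwards [good (f e)] with p hp
  exact frob_pure h p hp

theorem wtL_twf {ι : Type} (M : Motive) (f : ι → Eigenform) (l : List ι) :
    wtL M (fun e => twf (f e)) l = wt M f l := by
  induction l with
  | nil => simp [wtL, wt]
  | cons e l ih =>
    rw [wtL_cons, ih]
    unfold wt
    rw [List.map_cons, List.sum_cons]
    have : (twf (f e)).wt = (((f e).weight - 1 : ℕ) : ℤ) := rfl
    rw [this]
    push_cast
    ring

theorem eigL_twf {ι : Type} (M : Motive) (f : ι → Eigenform) (l : List ι) :
    eigL M (fun e => twf (f e)) l = eig M f l := rfl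

theorem tensL_twf {ι : Type} {M : Motive} {f : ι → Eigenform} {l : List ι}
    {B : Nat.Primes → ℂ[X]} (h : IsTensor M f l B) : TensL M (fun e => twf (f e)) l B := by
  unfold TensL
  rw [wtL_twf]
  exact h

theorem bound_twf {ι : Type} {M : Motive} {f : ι → Eigenform} {l : List ι} {K : ℕ}
    (h : Bound M f l K) : BoundL M (fun e => twf (f e)) (fun _ => 2) l K := by
  rcases h with h | ⟨B, h1, h2⟩
  · left
    rw [h, List.map_const', List.prod_replicate, List.length_tail, mul_pow, ← pow_mul,
      mul_comm _ 2, pow_mul]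
    norm_num
  · right
    rw [wtL_twf]
    exact ⟨B, h1, h2⟩

end

end Run7.h186.NW
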