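import Pool.Agent.Run7.h186.NV2
import Pool.Agent.Run7.h186.NV3
import Pool.Agent.Run7.h186.NVDefs
import Pool.Agent.Run7.h186.NW3

/-! The family of the Dirichlet characters and the eigenforms. -/

set_option autoImplicit false

namespace Run7.h186.NV

open Finset Filter Topology Complex Polynomial
open scoped ComplexConjugate
open Pool.Agent.H341R2 (lam K2)
open Pool.Agent.Y149.CM (LFun)
open Pool.Agent.Y149.PK (tens)
open Pool.Agent.Y149.TL
open Run7.h186.ML (pt pt_re)
open Run7.h186.NT (CR Sq_of lm lm_zero finite_dvd CR_symm conj_pt)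
open Run7.h186.NU (PP W W_nonneg tw norm_tw L2 ip L2_bdd ip_conj Hf Fam fam_Fam ip_symm)
open Run7.h186.NW (Tw Sys twf wtL eigL TensL Ram BoundL l2_mono ip_mono tw_zero ram_twf)

noncomputable section

theorem Hf_mu {M k : ℕ} [NeZero M] {f : NT.S1 M k} {χ : DirichletCharacter ℂ M} (h : Hf f χ) :
    Mu (lm f) (fun p => χ (p : ZMod M)) :=
  ⟨lm_zero f, h.lm_one, fun _ _ hmn => h.lm_mul hmn, fun _ hp => h.rc hp,
    fun _ hs => Sq_of h.sm hs⟩

/-- the power sums of a character -/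
def PC {M : ℕ} (χ : DirichletCharacter ℂ M) : PP → ℂ := PW M (cn χ) (fun _ => 0)

theorem PC_apply {M : ℕ} (χ : DirichletCharacter ℂ M) (a : PP) :
    PC χ a = if (a.1 : ℕ) ∣ M then 0 else χ ((a.1 : ℕ) : ZMod M) ^ (a.2 + 1) := by
  unfold PC PW
  split_ifs with h
  · rfl
  · rw [us_zero, cn_ne χ a.1.2.ne_zero]

theorem norm_PC {M : ℕ} (χ : DirichletCharacter ℂ M) (a : PP) : ‖PC χ a‖ ≤ 1 := by
  rw [PC_apply]
  split_ifs
  · simp
  · rw [norm_pow]
    exact pow_le_one₀ (norm_nonneg _) (DirichletCharacter.norm_le_one χ _)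

/-- the twist by a character -/
def twc {M : ℕ} (χ : DirichletCharacter ℂ M) (hM : 0 < M) : Tw where
  wt := 0
  frob := fun p => {χ ((p : ℕ) : ZMod M)}
  P := PC χ
  sys := by
    refine ⟨fun ε hε => (L2_bdd zero_le_one (norm_PC χ) hε).1, ?_⟩
    have hg : ∀ᶠ p : Nat.Primes in cofinite, ¬ (p : ℕ) ∣ M := by
      rw [eventually_cofinite]
      refine (finite_dvd hM.ne').subset fun p hp => ?_
      rw [Set.mem_ofPred_eq, not_not] at hp
      exact hp
    filter_upwards [hg] with p hp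
    refine ⟨fun z hz => ?_, fun k => ?_⟩
    · rw [Multiset.mem_singleton] at hz
      rw [hz]
      have h1 := DirichletCharacter.norm_le_one χ ((p : ℕ) : ZMod M)
      have h2 : (1 : ℝ) ≤ Real.sqrt (p : ℕ) := by
        refine Real.one_le_sqrt.2 ?_
        exact_mod_cast p.2.one_le
      simp only [Int.cast_zero, zero_div, Real.rpow_zero, one_mul]
      linarith
    · rw [PC_apply, if_neg hp]
      simp
  self := by
    refine ⟨K2, ?_⟩
    filter_upwards [self_mem_nhdsWithin] with ε hε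
    have := (L2_bdd zero_le_one (norm_PC χ) hε).2
    rwa [one_pow, one_mul] at this

/-- the twist by a form -/
def twF : Form → Tw
  | .chr _ χ hN => twc χ hN
  | .cusp f => twf f

/-- two vectors -/
theorem cross_U {M₁ M₂ : ℕ} (h1 : M₁ ≠ 0) (h2 : M₂ ≠ 0) {a e b e' : ℕ → ℂ} (hf : Mu a e)
    (hg : Mu b e') {t t' : Tw} (ht : t.P = PW M₁ a e) (ht' : t'.P = PW M₂ b e') {τ τ' : ℝ}
    (h : ∃ C : ℝ, ∀ᶠ ε : ℝ in 𝓝[>] 0, ‖CR a b (pt (τ - τ') ε)‖ ≤ C) :
    ∃ C : ℝ, ∀ᶠ ε : ℝ in 𝓝[>] 0, ip (W ε) (t.U τ) (t'.U τ') ≤ C := by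
  obtain ⟨C, hC⟩ := cross_of h1 h2 hf hg h
  refine ⟨C, hC.mono fun ε h3 => ?_⟩
  have e1 : t.U τ = fun x => conj (UU M₁ a e τ x) := by
    funext x
    unfold Tw.U UU
    rw [ht]
  have e2 : t'.U τ' = fun x => conj (UU M₂ b e' τ' x) := by
    funext x
    unfold Tw.U UU
    rw [ht']
  rw [e1, e2, ip_conj]
  exact h3

theorem ip_comm {w : PP → ℝ} (u v : PP → ℂ) : ip w u v = ip w v u := by
  unfold ip
  refine tsum_congr fun a => ?_
  congr 1
  rw [← Complex.conj_re, map_mul, Complex.conj_conj, mul_comm]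

theorem cross_cusp_chr (f : NU.Eigenform) {M : ℕ} (χ : DirichletCharacter ℂ M) (hM : 0 < M)
    (τ τ' : ℝ) : ∃ C : ℝ, ∀ᶠ ε : ℝ in 𝓝[>] 0,
      ip (W ε) ((twf f).U τ) ((twc χ hM).U τ') ≤ C := by
  have : NeZero M := ⟨hM.ne'⟩
  refine cross_U f.level_pos.ne' hM.ne' (Hf_mu f.hf) (chr_mu χ) (t := twf f) (t' := twc χ hM)
    rfl rfl ?_
  obtain ⟨C, hC⟩ := twist_bdd (N := f.level) (k := f.weight) f.form f.weight_pos f.hf.sm χ (τ - τ')
  refine ⟨C, ?_⟩
  filter_upwards [hC, self_mem_nhdsWithin] with ε h1 h2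
  have hε : (0 : ℝ) < ε := h2
  have hs : pt (τ - τ') ε ≠ 0 := by
    intro h3
    have h4 := pt_re (τ - τ') ε
    rw [h3] at h4
    simp at h4
    linarith
  rw [CR_cn_right χ _ hs]
  exact h1

/-- **The family of the characters and the eigenforms.** -/
theorem fam_twF {ι : Type} {f : ι → Form} (hψ : ∀ e e', e ≠ e' → (f e).Differ (f e')) :
    Fam W lam fun x : ι × ℝ => (twF (f x.1)).U x.2 := by
  refine ⟨fun x => ?_, fun x => (twF (f x.1)).self_U x.2, fun x y hxy => ?_⟩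
  · filter_upwards [self_mem_nhdsWithin] with ε hε
    exact (twF (f x.1)).l2 x.2 hε
  · obtain ⟨e, τ⟩ := x
    obtain ⟨e', τ'⟩ := y
    simp only
    have hd : τ - τ' ≠ 0 ∨ (f e).Differ (f e') := by
      by_cases h2 : τ = τ'
      · right
        refine hψ _ _ fun h1 => hxy ?_
        rw [h1, h2]
      · exact Or.inl (sub_ne_zero.2 h2)
    generalize f e = g at hd ⊢
    generalize f e' = g' at hd ⊢
    rcases g with ⟨M₁, χ, hM₁⟩ | g <;> rcases g' with ⟨M₂, ξ, hM₂⟩ | g'
    · have : NeZero M₁ := ⟨hM₁.ne'⟩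
      have : NeZero M₂ := ⟨hM₂.ne'⟩
      exact cross_U hM₁.ne' hM₂.ne' (chr_mu χ) (chr_mu ξ) (t := twc χ hM₁) (t' := twc ξ hM₂)
        rfl rfl (chr_bdd χ ξ hd)
    · obtain ⟨C, hC⟩ := cross_cusp_chr g' χ hM₁ τ' τ
      refine ⟨C, hC.mono fun ε h => ?_⟩
      rw [ip_comm]
      exact h
    · exact cross_cusp_chr g ξ hM₂ τ τ'
    · exact cross_U g.level_pos.ne' g'.level_pos.ne' (Hf_mu g.hf) (Hf_mu g'.hf) (t := twf g)
        (t' := twf g') rfl rfl (NU.bdd_all g.hf g'.hf (by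
          rcases hd with h | h
          · exact Or.inl h
          · rcases h with h | ⟨p, hp, g1, g2, g3⟩
            · exact Or.inr (Or.inl h)
            · exact Or.inr (Or.inr ⟨p, hp, g1, g2, g3⟩)))

theorem ram_twF {ι : Type} {f : ι → Form} {e : ι} (h : (f e).Ramanujan) :
    Ram (fun e => twF (f e)) (fun e => (f e).dim) e := by
  unfold Ram
  simp only
  generalize f e = g at h ⊢
  rcases g with ⟨M, χ, hM⟩ | g
  · have hg : ∀ᶠ p : Nat.Primes in cofinite, ¬ (p : ℕ) ∣ M := by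
      rw [eventually_cofinite]
      refine (finite_dvd hM.ne').subset fun p hp => ?_
      rw [Set.mem_ofPred_eq, not_not] at hp
      exact hp
    filter_upwards [hg] with p hp
    refine ⟨fun z hz => ?_, (Multiset.card_singleton (χ ((p : ℕ) : ZMod M))).le⟩
    have hz' : z ∈ ({χ ((p : ℕ) : ZMod M)} : Multiset ℂ) := hz
    rw [Multiset.mem_singleton] at hz'
    rw [hz']
    have h1 : (p : ℕ).Coprime M := (Nat.Prime.coprime_iff_not_dvd p.2).2 hp
    have h3 := DirichletCharacter.unit_norm_eq_one χ (ZMod.unitOfCoprime p h1)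
    rw [ZMod.coe_unitOfCoprime] at h3
    have e1 : (twF (.chr M χ hM)).wt = 0 := rfl
    rw [h3, e1]
    simp
  · filter_upwards [NU.good g] with p hp
    exact NU.frob_pure h p hp

theorem wtL_twF {ι : Type} (M : Motive) (f : ι → Form) (l : List ι) :
    wtL M (fun e => twF (f e)) l = wt M f l := by
  induction l with
  | nil => simp [wtL, wt]
  | cons e l ih =>
    rw [NW.wtL_cons, ih]
    unfold wt
    rw [List.map_cons, List.sum_cons]
    have : (twF (f e)).wt = (((f e).wt : ℕ) : ℤ) := by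
      generalize f e = g
      rcases g with ⟨M, χ, hM⟩ | g
      · rfl
      · rfl
    rw [this]
    push_cast
    ring

theorem frob_twF (g : Form) (p : Nat.Primes) : (twF g).frob p = g.frob p := by
  rcases g with ⟨M, χ, hM⟩ | g
  · rfl
  · rfl

theorem eigL_twF {ι : Type} (M : Motive) (f : ι → Form) (l : List ι) :
    eigL M (fun e => twF (f e)) l = eig M f l := by
  funext p
  unfold eigL eig
  simp_rw [frob_twF]

theorem tensL_twF {ι : Type} {M : Motive} {f : ι → Form} {l : List ι}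
    {B : Nat.Primes → ℂ[X]} (h : IsTensor M f l B) : TensL M (fun e => twF (f e)) l B := by
  unfold TensL
  rw [wtL_twF, eigL_twF]
  exact h

theorem bound_twF {ι : Type} {M : Motive} {f : ι → Form} {l : List ι} {K : ℕ}
    (h : Bound M f l K) : BoundL M (fun e => twF (f e)) (fun e => (f e).dim) l K := by
  rcases h with h | ⟨B, h1, h2⟩
  · exact Or.inl h
  · right
    rw [wtL_twF, eigL_twF]
    exact ⟨B, h1, h2⟩

end

end Run7.h186.NV
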