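import Pool.Agent.Run7.h186.NU6

/-! The size of the `L`-functions on the edge line in terms of the sums over the prime powers, for
sums which vanish at the bad primes. -/

set_option autoImplicit false
set_option linter.unusedSectionVars false

namespace Run7.h186.NW

open Finset Filter Topology Complex ComplexConjugate Polynomial
open Pool.Agent.H341R2 (lam lam_tendsto lam_bounded K2 tprod_split)
open Pool.Agent.Y149.CM (LFun norm_msum)
open Pool.Agent.Y149.PK (tens lam_pos lam_log log_inv_tendsto)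
open Pool.Agent.Y149.TL (IsEuler HasOrder size edge Pure line_order tens_pure tensL)
open Run7.h186.NU (PP W W_nonneg tw norm_tw L2 L2.summable ip ip_self ip_self_nonneg ip_abs_le
  multi_log pow_pt size_lim L2_bdd W_mass tens_pow inv_mul_half Fam Fam.bes Qf norm_Qf ip_Q
  ip_conj l2_conj)
open Run7.h186.NT (max_perturb)

noncomputable section

section
variable {w : ℤ} {B : Nat.Primes → ℂ[X]} {δ : Nat.Primes → Multiset ℂ}

/-- **The size lemma.** -/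
theorem link (hB : IsEuler w δ B) (τ : ℝ) {T : PP → ℂ} {Z : Finset Nat.Primes}
    (hT0 : ∀ a : PP, a.1 ∈ Z → T a = 0)
    (hsum : ∀ ε : ℝ, 0 < ε → Summable fun a => W ε a * ‖T a‖)
    (hδ : ∀ p : Nat.Primes, p ∉ Z →
      (∀ z : ℂ, (B p).eval z = ((δ p).map fun α => 1 - α * z).prod) ∧
      (∀ z ∈ δ p, ‖z‖ ≤ ((p : ℕ) : ℝ) ^ ((w : ℝ) / 2) * (p : ℕ)) ∧
      ∀ k : ℕ, T (p, k) = ((δ p).map fun z =>
        (z * ((((p : ℕ) : ℝ) ^ ((w : ℝ) / 2) : ℝ) : ℂ)⁻¹) ^ (k + 1)).sum * tw τ (p, k)) :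
    ∃ C : ℝ, ∀ᶠ ε : ℝ in 𝓝[>] 0, LFun B (edge w τ + ε) ≠ 0 ∧
      |Real.log ‖LFun B (edge w τ + ε)‖ - ∑' a, W ε a * (T a).re| ≤ C := by
  classical
  have hfin : {p : Nat.Primes | ¬ p ∉ Z}.Finite := by
    refine Z.finite_toSet.subset fun p hp => ?_
    rw [Set.mem_ofPred_eq, not_not] at hp
    exact hp
  have hmem : ∀ p, p ∈ hfin.toFinset ↔ p ∈ Z := by
    intro p
    rw [hfin.mem_toFinset, Set.mem_ofPred_eq, not_not]
  -- the bad factors
  have hbad : ∃ C : ℝ, ∀ᶠ ε : ℝ in 𝓝[>] 0, (∀ p ∈ hfin.toFinset,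
      ((B p).eval (((p : ℕ) : ℂ) ^ (-(edge w τ + ε)))) ≠ 0) ∧
      |∑ p ∈ hfin.toFinset,
        Real.log ‖((B p).eval (((p : ℕ) : ℂ) ^ (-(edge w τ + ε))))⁻¹‖| ≤ C := by
    have hcont : ∀ p : Nat.Primes, Tendsto (fun ε : ℝ =>
        (B p).eval (((p : ℕ) : ℂ) ^ (-(edge w τ + ε)))) (𝓝[>] 0)
        (𝓝 ((B p).eval (((p : ℕ) : ℂ) ^ (-(edge w τ))))) := by
      intro p
      have hpc : ((p : ℕ) : ℂ) ≠ 0 := by exact_mod_cast p.2.ne_zero
      have h1 : Continuous fun ε : ℝ => (B p).eval (((p : ℕ) : ℂ) ^ (-(edge w τ + ε))) := by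
        refine (B p).continuous.comp ?_
        refine Continuous.const_cpow (by fun_prop) (Or.inl hpc)
      have h2 := h1.tendsto 0
      simp only [Complex.ofReal_zero, add_zero] at h2
      exact h2.mono_left nhdsWithin_le_nhds
    have h1 : ∀ᶠ ε : ℝ in 𝓝[>] 0, ∀ p ∈ hfin.toFinset,
        ((B p).eval (((p : ℕ) : ℂ) ^ (-(edge w τ + ε)))) ≠ 0 := by
      rw [Filter.eventually_all_finset]
      intro p _
      exact (hcont p).eventually_ne (hB.2 p τ)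
    have h2 : Tendsto (fun ε : ℝ => |∑ p ∈ hfin.toFinset,
        Real.log ‖((B p).eval (((p : ℕ) : ℂ) ^ (-(edge w τ + ε))))⁻¹‖|) (𝓝[>] 0)
        (𝓝 (|∑ p ∈ hfin.toFinset,
        Real.log ‖((B p).eval (((p : ℕ) : ℂ) ^ (-(edge w τ))))⁻¹‖|)) := by
      refine (tendsto_finsetSum _ fun p _ => ?_).abs
      refine (((hcont p).inv₀ (hB.2 p τ)).norm).log ?_
      exact norm_ne_zero_iff.2 (inv_ne_zero (hB.2 p τ))
    obtain ⟨C, hC⟩ := h2.isBoundedUnder_le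
    exact ⟨C, h1.and (Filter.eventually_map.1 hC)⟩
  obtain ⟨Cb, hCb⟩ := hbad
  refine ⟨Cb, ?_⟩
  filter_upwards [hCb, self_mem_nhdsWithin] with ε hb hε'
  have hε : (0 : ℝ) < ε := hε'
  set s : ℂ := edge w τ + ε with hs
  have hsn := hsum ε hε
  set G : Nat.Primes → ℂ := fun p => ∑' k : ℕ, (W ε (p, k) : ℂ) * T (p, k) with hG
  have hnorm : ∀ a : PP, ‖(W ε a : ℂ) * T a‖ = W ε a * ‖T a‖ := by
    intro a
    rw [norm_mul, Complex.norm_real, Real.norm_of_nonneg (W_nonneg _ _)]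
  have hsC : Summable fun a : PP => (W ε a : ℂ) * T a := by
    refine Summable.of_norm ?_
    simp_rw [hnorm]
    exact hsn
  have hGs : Summable G := hsC.prod
  have hG0 : ∀ p ∈ Z, G p = 0 := by
    intro p hp
    rw [hG]
    simp only
    have : ∀ k : ℕ, (W ε (p, k) : ℂ) * T (p, k) = 0 := by
      intro k
      rw [hT0 (p, k) hp, mul_zero]
    simp_rw [this]
    exact tsum_zero
  -- the local sums
  have hloc : ∀ p, p ∉ Z → cexp (G p) = ((B p).eval (((p : ℕ) : ℂ) ^ (-s)))⁻¹ := by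
    intro p hp
    have hp0 : (0 : ℝ) < (p : ℕ) := by exact_mod_cast p.2.pos
    have hp1 : (1 : ℝ) < (p : ℕ) := by exact_mod_cast p.2.one_lt
    have hq : (0 : ℝ) < ((p : ℕ) : ℝ) ^ ((w : ℝ) / 2) := Real.rpow_pos_of_pos hp0 _
    have hx := pow_pt w τ ε p
    rw [← hs] at hx
    obtain ⟨f1, f2, f3⟩ := hδ p hp
    have h1 : ∀ α ∈ δ p, ‖α * ((p : ℕ) : ℂ) ^ (-s)‖ < 1 := by
      intro α hα
      have h2 := f2 α hα
      rw [hx, norm_mul, norm_mul, norm_mul, norm_inv, Complex.norm_real, Complex.norm_real,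
        Real.norm_of_nonneg hq.le, Real.norm_of_nonneg (by positivity),
        Run7.h186.NT.norm_pI, mul_one]
      have h3 : ‖α‖ * (((p : ℕ) : ℝ) ^ ((w : ℝ) / 2))⁻¹ ≤ (p : ℕ) := by
        rw [← div_eq_mul_inv, div_le_iff₀ hq, mul_comm]
        exact h2
      have h4 : (p : ℕ) * ((p : ℕ) : ℝ) ^ (-(1 + ε)) < 1 := by
        have e1 : ((p : ℕ) : ℝ) * ((p : ℕ) : ℝ) ^ (-(1 + ε)) = ((p : ℕ) : ℝ) ^ (-ε) := by
          conv_lhs => rw [← Real.rpow_one ((p : ℕ) : ℝ)]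
          rw [← Real.rpow_mul hp0.le, ← Real.rpow_add hp0]
          congr 1
          ring
        rw [e1]
        exact Real.rpow_lt_one_of_one_lt_of_neg hp1 (by linarith)
      have h5 : (0 : ℝ) ≤ ((p : ℕ) : ℝ) ^ (-(1 + ε)) := by positivity
      have h6 := mul_le_mul_of_nonneg_right h3 h5
      rw [← mul_assoc]
      linarith
    obtain ⟨h7, h8⟩ := multi_log (δ p) (((p : ℕ) : ℂ) ^ (-s)) h1
    rw [f1, ← h8]
    congr 1
    rw [hG]
    simp only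
    rw [← h7.tsum_eq]
    refine tsum_congr fun k => ?_
    rw [f3 k]
    have e1 : ∀ α : ℂ, (α * ((p : ℕ) : ℂ) ^ (-s)) ^ (k + 1) =
        (α * ((((p : ℕ) : ℝ) ^ ((w : ℝ) / 2) : ℝ) : ℂ)⁻¹) ^ (k + 1) *
        ((((((p : ℕ) : ℝ) ^ (-(1 + ε)) : ℝ) : ℂ)) ^ (k + 1) * tw τ (p, k)) := by
      intro α
      rw [hx]
      unfold tw
      simp only
      rw [← mul_pow, ← mul_pow]
      congr 1
      ring
    simp_rw [e1]
    rw [Multiset.sum_map_mul_right]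
    unfold W
    push_cast
    ring
  have hgood : Summable fun p => if p ∉ Z then G p else 0 := by
    refine hGs.congr fun p => ?_
    by_cases hp : p ∈ Z
    · rw [if_neg (not_not.2 hp), hG0 p hp]
    · rw [if_pos hp]
  have hprod := tprod_split hfin G (fun p => ((B p).eval (((p : ℕ) : ℂ) ^ (-s)))⁻¹) hgood
  have hsg : (∑' p, if p ∉ Z then G p else 0) = ∑' p, G p := by
    refine tsum_congr fun p => ?_
    by_cases hp : p ∈ Z
    · rw [if_neg (not_not.2 hp), hG0 p hp]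
    · rw [if_pos hp]
  have hL : LFun B s = (∏ p ∈ hfin.toFinset, ((B p).eval (((p : ℕ) : ℂ) ^ (-s)))⁻¹) *
      cexp (∑' p, G p) := by
    rw [← hsg, ← hprod, LFun]
    refine tprod_congr fun p => ?_
    split_ifs with h
    · rfl
    · rw [hloc p h]
  refine ⟨?_, ?_⟩
  · rw [hL]
    exact mul_ne_zero (Finset.prod_ne_zero_iff.2 fun p hp => inv_ne_zero (hb.1 p hp))
      (Complex.exp_ne_zero _)
  have hlog : Real.log ‖LFun B s‖ = ∑ p ∈ hfin.toFinset,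
        Real.log ‖((B p).eval (((p : ℕ) : ℂ) ^ (-s)))⁻¹‖ +
        (∑' p, G p).re := by
    rw [hL, norm_mul, Complex.norm_exp, Real.log_mul, Real.log_exp, norm_prod, Real.log_prod]
    · intro p hp
      exact norm_ne_zero_iff.2 (inv_ne_zero (hb.1 p hp))
    · rw [norm_prod]
      exact Finset.prod_ne_zero_iff.2 fun p hp => norm_ne_zero_iff.2 (inv_ne_zero (hb.1 p hp))
    · exact (Real.exp_pos _).ne'
  have htot : ∑' a, W ε a * (T a).re = (∑' p, G p).re := by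
    have e1 : ∑' a, W ε a * (T a).re = (∑' a : PP, (W ε a : ℂ) * T a).re := by
      rw [Complex.re_tsum hsC]
      refine tsum_congr fun a => ?_
      rw [Complex.re_ofReal_mul]
    have e2 : ∑' a : PP, (W ε a : ℂ) * T a = ∑' p, G p := hsC.tsum_prod
    rw [e1, e2]
  rw [hlog, htot, add_sub_cancel_right]
  exact hb.2

end

/-- the function without the primes in a finite set -/
def cut (Z : Finset Nat.Primes) (Q : PP → ℂ) (a : PP) : ℂ :=
  open Classical in if a.1 ∈ Z then 0 else Q a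

theorem cut_le (Z : Finset Nat.Primes) (Q : PP → ℂ) (a : PP) : ‖cut Z Q a‖ ≤ ‖Q a‖ := by
  unfold cut
  split_ifs
  · rw [norm_zero]; exact norm_nonneg _
  · exact le_rfl

theorem cut_mono {Z Z' : Finset Nat.Primes} (h : Z ⊆ Z') (Q : PP → ℂ) (a : PP) :
    ‖cut Z' Q a‖ ≤ ‖cut Z Q a‖ := by
  unfold cut
  by_cases h1 : a.1 ∈ Z'
  · rw [if_pos h1, norm_zero]; exact norm_nonneg _
  · rw [if_neg h1, if_neg fun h2 => h1 (h h2)]

theorem l2_mono {w : PP → ℝ} (hw : ∀ a, 0 ≤ w a) {u v : PP → ℂ} (h : ∀ a, ‖u a‖ ≤ ‖v a‖)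
    (hv : L2 w v) : L2 w u :=
  Summable.of_nonneg_of_le (fun a => mul_nonneg (hw a) (sq_nonneg _))
    (fun a => mul_le_mul_of_nonneg_left (pow_le_pow_left₀ (norm_nonneg _) (h a) 2) (hw a)) hv

theorem ip_mono {w : PP → ℝ} (hw : ∀ a, 0 ≤ w a) {u v : PP → ℂ} (h : ∀ a, ‖u a‖ ≤ ‖v a‖)
    (hv : L2 w v) : ip w u u ≤ ip w v v := by
  rw [ip_self, ip_self]
  exact Summable.tsum_le_tsum (fun a => mul_le_mul_of_nonneg_left
    (pow_le_pow_left₀ (norm_nonneg _) (h a) 2) (hw a)) (l2_mono hw h hv) hv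

/-- a system of eigenvalues and its power sums -/
structure Sys (w : ℤ) (δ : Nat.Primes → Multiset ℂ) (Q : PP → ℂ) : Prop where
  l2 : ∀ ε : ℝ, 0 < ε → L2 (W ε) Q
  pw : ∀ᶠ p : Nat.Primes in cofinite,
    (∀ z ∈ δ p, ‖z‖ ≤ ((p : ℕ) : ℝ) ^ ((w : ℝ) / 2) * Real.sqrt (p : ℕ)) ∧
    ∀ k : ℕ, Q (p, k) = ((δ p).map fun z =>
      (z * ((((p : ℕ) : ℝ) ^ ((w : ℝ) / 2) : ℝ) : ℂ)⁻¹) ^ (k + 1)).sum

/-- a system for the twists -/
structure Tw where
  wt : ℤ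
  frob : Nat.Primes → Multiset ℂ
  P : PP → ℂ
  sys : Sys wt frob P
  self : ∃ C : ℝ, ∀ᶠ ε : ℝ in 𝓝[>] 0, ip (W ε) P P ≤ lam ε + C

/-- the vector of the twist -/
def Tw.U (t : Tw) (τ : ℝ) (a : PP) : ℂ := conj (t.P a * tw τ a)

theorem Tw.norm_U (t : Tw) (τ : ℝ) (a : PP) : ‖t.U τ a‖ = ‖t.P a‖ := by
  unfold Tw.U
  rw [Complex.norm_conj, norm_mul, norm_tw, mul_one]

theorem Tw.l2 (t : Tw) (τ : ℝ) {ε : ℝ} (hε : 0 < ε) : L2 (W ε) (t.U τ) :=
  l2_mono (W_nonneg ε) (fun a => (t.norm_U τ a).le) (t.sys.l2 ε hε)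

theorem Tw.self_U (t : Tw) (τ : ℝ) : ∃ C : ℝ, ∀ᶠ ε : ℝ in 𝓝[>] 0,
    ip (W ε) (t.U τ) (t.U τ) ≤ lam ε + C := by
  obtain ⟨C, hC⟩ := t.self
  refine ⟨C, ?_⟩
  filter_upwards [hC, self_mem_nhdsWithin] with ε h1 h2
  exact (ip_mono (W_nonneg ε) (fun a => (t.norm_U τ a).le) (t.sys.l2 ε h2)).trans h1

/-- the bound for the mean square of the system -/
def Msq (Q : PP → ℂ) (κ : ℝ) : Prop := ∃ Z : Finset Nat.Primes, ∀ η : ℝ, 0 < η →
  ∀ᶠ ε : ℝ in 𝓝[>] 0, ip (W ε) (cut Z Q) (cut Z Q) ≤ (κ + η) * lam ε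

/-- the eigenvalues and the power sums at the good primes, as a finite set of exceptions -/
theorem exists_bad {P : Nat.Primes → Prop} (h : ∀ᶠ p in cofinite, P p) :
    ∃ Z : Finset Nat.Primes, ∀ p, p ∉ Z → P p := by
  have h1 := eventually_cofinite.1 h
  refine ⟨h1.toFinset, fun p hp => ?_⟩
  by_contra h2
  exact hp (h1.mem_toFinset.2 h2)

section
variable {w : ℤ} {δ : Nat.Primes → Multiset ℂ} {Q : PP → ℂ}

/-- the product with a twist -/
theorem link_form (hQ : Sys w δ Q) {κ : ℝ} (hκ : Msq Q κ) (t : Tw) (τ : ℝ)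
    {B : Nat.Primes → ℂ[X]} (hB : IsEuler (w + t.wt) (fun p => tens (δ p) (t.frob p)) B) :
    ∃ Z0 : Finset Nat.Primes, ∀ Z : Finset Nat.Primes, Z0 ⊆ Z →
    (∀ᶠ ε : ℝ in 𝓝[>] 0, LFun B (edge (w + t.wt) τ + ε) ≠ 0) ∧
    Tendsto (fun ε : ℝ => size (w + t.wt) B τ ε -
      ip (W ε) (cut Z Q) (t.U τ) / lam ε) (𝓝[>] 0) (𝓝 0) := by
  classical
  obtain ⟨Z1, hZ1⟩ := exists_bad ((hQ.pw.and t.sys.pw).and hB.1)
  obtain ⟨Z2, hZ2⟩ := hκ
  refine ⟨Z1 ∪ Z2, fun Z hZ => ?_⟩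
  have hgood : ∀ p, p ∉ Z → _ := fun p hp => hZ1 p fun h => hp (hZ (Finset.mem_union_left _ h))
  have hcut : ∀ a, ‖cut Z Q a‖ ≤ ‖cut Z2 Q a‖ :=
    cut_mono (Finset.union_subset_iff.1 hZ).2 Q
  have hUl : ∀ ε : ℝ, 0 < ε → L2 (W ε) (t.U τ) := fun ε hε => t.l2 τ hε
  have hQl : ∀ ε : ℝ, 0 < ε → L2 (W ε) (cut Z Q) := fun ε hε =>
    l2_mono (W_nonneg ε) (cut_le Z Q) (hQ.l2 ε hε)
  have hQl2 : ∀ ε : ℝ, 0 < ε → L2 (W ε) (cut Z2 Q) := fun ε hε =>
    l2_mono (W_nonneg ε) (cut_le Z2 Q) (hQ.l2 ε hε)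
  set T : PP → ℂ := fun a => cut Z Q a * (t.P a * tw τ a) with hT
  have hip : ∀ ε : ℝ, ip (W ε) (cut Z Q) (t.U τ) = ∑' a, W ε a * (T a).re := by
    intro ε
    unfold ip Tw.U
    simp only [Complex.conj_conj]
    rfl
  have hlink := link hB τ (T := T) (Z := Z) (fun a ha => ?_) (fun ε hε => ?_) ?_
  · refine ⟨?_, ?_⟩
    · obtain ⟨C, hC⟩ := hlink
      exact hC.mono fun ε h => h.1
    · simp_rw [hip]
      obtain ⟨C1, hC1⟩ := t.self_U τ
      refine size_lim B _ τ (C2 := κ + 1 + 2) hlink ?_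
      have h3 := lam_tendsto.eventually_ge_atTop C1
      filter_upwards [hZ2 1 one_pos, hC1, h3, self_mem_nhdsWithin] with ε g1 g2 g3 g4
      rw [← hip]
      have h4 := ip_abs_le (W_nonneg ε) (hQl ε g4) (hUl ε g4)
      have h5 := ip_mono (W_nonneg ε) hcut (hQl2 ε g4)
      linarith
  · rw [hT]
    simp only
    unfold cut
    rw [if_pos ha, zero_mul]
  · refine Summable.of_nonneg_of_le (fun a => mul_nonneg (W_nonneg _ _) (norm_nonneg _))
      (fun a => ?_) (Summable.add (hQl ε hε) (hUl ε hε))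
    rw [← mul_add]
    refine mul_le_mul_of_nonneg_left ?_ (W_nonneg _ _)
    have e1 : ‖T a‖ = ‖cut Z Q a‖ * ‖t.U τ a‖ := by
      rw [hT]
      simp only
      rw [t.norm_U, norm_mul, norm_mul, norm_tw, mul_one]
    rw [e1]
    nlinarith [sq_nonneg (‖cut Z Q a‖ - ‖t.U τ a‖), norm_nonneg (cut Z Q a),
      norm_nonneg (t.U τ a), sq_nonneg (‖cut Z Q a‖), sq_nonneg (‖t.U τ a‖)]
  · intro p hp
    obtain ⟨⟨h1, h2⟩, h3⟩ := hgood p hp
    have hp0 : (0 : ℝ) < (p : ℕ) := by exact_mod_cast p.2.pos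
    refine ⟨h3, fun z hz => ?_, fun k => ?_⟩
    · unfold tens at hz
      obtain ⟨y, hy, rfl⟩ := Multiset.mem_map.1 hz
      obtain ⟨h4, h5⟩ := Multiset.mem_product.1 hy
      rw [norm_mul]
      have h6 := h1.1 _ h4
      have h7 := h2.1 _ h5
      have h8 : ((p : ℕ) : ℝ) ^ (((w + t.wt : ℤ) : ℝ) / 2) =
          ((p : ℕ) : ℝ) ^ ((w : ℝ) / 2) * ((p : ℕ) : ℝ) ^ ((t.wt : ℝ) / 2) := by
        rw [← Real.rpow_add hp0]
        congr 1
        push_cast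
        ring
      rw [h8]
      have h9 : Real.sqrt (p : ℕ) * Real.sqrt (p : ℕ) = (p : ℕ) := Real.mul_self_sqrt hp0.le
      calc ‖y.1‖ * ‖y.2‖ ≤ (((p : ℕ) : ℝ) ^ ((w : ℝ) / 2) * Real.sqrt (p : ℕ)) *
            (((p : ℕ) : ℝ) ^ ((t.wt : ℝ) / 2) * Real.sqrt (p : ℕ)) :=
            mul_le_mul h6 h7 (norm_nonneg _) (by positivity)
        _ = _ := by rw [mul_mul_mul_comm, h9]
    · rw [hT]
      simp only
      rw [inv_mul_half, tens_pow, ← h1.2, ← h2.2]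
      unfold cut
      rw [if_neg hp, mul_assoc]

/-- the self product -/
theorem link_self (hQ : Sys w δ Q) (hκ : ∃ κ, Msq Q κ) {B : Nat.Primes → ℂ[X]} {m : ℕ}
    (hB : IsEuler (2 * w) (fun p => tens (δ p) ((δ p).map star)) B)
    (hm : HasOrder (2 * w) B 0 (-m)) : Msq Q m := by
  classical
  obtain ⟨Z1, hZ1⟩ := exists_bad (hQ.pw.and hB.1)
  obtain ⟨κ, Z2, hZ2⟩ := hκ
  set Z := Z1 ∪ Z2 with hZ
  have hgood : ∀ p, p ∉ Z → _ := fun p hp => hZ1 p fun h => hp (Finset.mem_union_left _ h)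
  have hcut : ∀ a, ‖cut Z Q a‖ ≤ ‖cut Z2 Q a‖ :=
    cut_mono Finset.subset_union_right Q
  have hQl : ∀ ε : ℝ, 0 < ε → L2 (W ε) (cut Z Q) := fun ε hε =>
    l2_mono (W_nonneg ε) (cut_le Z Q) (hQ.l2 ε hε)
  have hQl2 : ∀ ε : ℝ, 0 < ε → L2 (W ε) (cut Z2 Q) := fun ε hε =>
    l2_mono (W_nonneg ε) (cut_le Z2 Q) (hQ.l2 ε hε)
  refine ⟨Z, fun η hη => ?_⟩
  set T : PP → ℂ := fun a => cut Z Q a * conj (cut Z Q a) with hT
  have hip : ∀ ε : ℝ, ip (W ε) (cut Z Q) (cut Z Q) = ∑' a, W ε a * (T a).re := fun ε => rfl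
  have hnT : ∀ a, ‖T a‖ = ‖cut Z Q a‖ ^ 2 := by
    intro a
    rw [hT]
    simp only
    rw [norm_mul, Complex.norm_conj, ← sq]
  have hlink := link hB 0 (T := T) (Z := Z) (fun a ha => ?_) (fun ε hε => ?_) ?_
  · have h1 := size_lim B (2 * w) 0 (Y := fun ε => ip (W ε) (cut Z Q) (cut Z Q))
      (C2 := κ + 1) (by simpa only [hip] using hlink) (by
        filter_upwards [hZ2 1 one_pos, self_mem_nhdsWithin] with ε g1 g2
        rw [abs_of_nonneg (ip_self_nonneg (W_nonneg ε) _)]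
        exact (ip_mono (W_nonneg ε) hcut (hQl2 ε g2)).trans g1)
    have h2 := line_order hm
    have h3 := h2.sub h1
    simp only [sub_sub_cancel, sub_zero] at h3
    push_cast at h3
    rw [neg_neg] at h3
    filter_upwards [h3.eventually_lt_const (lt_add_of_pos_right (m : ℝ) hη), lam_pos] with ε g1 g2
    rw [div_lt_iff₀ g2] at g1
    exact g1.le
  · rw [hT]
    simp only
    unfold cut
    rw [if_pos ha, zero_mul]
  · simp_rw [hnT]
    exact hQl ε hε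
  · intro p hp
    obtain ⟨h1, h3⟩ := hgood p hp
    have hp0 : (0 : ℝ) < (p : ℕ) := by exact_mod_cast p.2.pos
    have hw2 : (2 * w : ℤ) = w + w := by ring
    refine ⟨h3, fun z hz => ?_, fun k => ?_⟩
    · unfold tens at hz
      obtain ⟨y, hy, rfl⟩ := Multiset.mem_map.1 hz
      obtain ⟨h4, h5⟩ := Multiset.mem_product.1 hy
      obtain ⟨u, hu, hu2⟩ := Multiset.mem_map.1 h5
      rw [norm_mul, ← hu2, norm_star]
      have h6 := h1.1 _ h4
      have h7 := h1.1 _ hu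
      have h8 : ((p : ℕ) : ℝ) ^ (((2 * w : ℤ) : ℝ) / 2) =
          ((p : ℕ) : ℝ) ^ ((w : ℝ) / 2) * ((p : ℕ) : ℝ) ^ ((w : ℝ) / 2) := by
        rw [← Real.rpow_add hp0]
        congr 1
        push_cast
        ring
      rw [h8]
      have h9 : Real.sqrt (p : ℕ) * Real.sqrt (p : ℕ) = (p : ℕ) := Real.mul_self_sqrt hp0.le
      calc ‖y.1‖ * ‖u‖ ≤ (((p : ℕ) : ℝ) ^ ((w : ℝ) / 2) * Real.sqrt (p : ℕ)) *
            (((p : ℕ) : ℝ) ^ ((w : ℝ) / 2) * Real.sqrt (p : ℕ)) :=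
            mul_le_mul h6 h7 (norm_nonneg _) (by positivity)
        _ = _ := by rw [mul_mul_mul_comm, h9]
    · rw [hT]
      simp only
      rw [hw2, inv_mul_half, tens_pow]
      have e1 : tw 0 (p, k) = 1 := by
        unfold tw
        simp
      rw [e1, mul_one]
      unfold cut
      rw [if_neg hp, h1.2, Multiset.map_map]
      congr 1
      refine (map_multiset_sum (starRingEnd ℂ) _).trans ?_
      rw [Multiset.map_map]
      refine congrArg _ (Multiset.map_congr rfl fun z _ => ?_)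
      simp only [Function.comp_apply]
      simp

variable {ι : Type} {t : ι → Tw}

/-- **The mean square.** -/
theorem one_mean (hfam : Fam W lam fun x : ι × ℝ => (t x.1).U x.2)
    (hQ : Sys w δ Q) {κ : ℝ} (hκ0 : 0 ≤ κ) (hκ : Msq Q κ)
    (S : Finset (ι × ℝ)) {B : ι × ℝ → Nat.Primes → ℂ[X]} (hB : ∀ x ∈ S,
      IsEuler (w + (t x.1).wt) (fun p => tens (δ p) ((t x.1).frob p)) (B x))
    {η : ℝ} (hη : 0 < η) : ∀ᶠ ε : ℝ in 𝓝[>] 0,
      (∀ x ∈ S, LFun (B x) (edge (w + (t x.1).wt) x.2 + ε) ≠ 0) ∧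
      ∑ x ∈ S, max (size (w + (t x.1).wt) (B x) x.2 ε) 0 ^ 2 ≤ κ + η ∧
      ∑ x ∈ S, max (-size (w + (t x.1).wt) (B x) x.2 ε) 0 ^ 2 ≤ κ + η := by
  classical
  have hch : ∀ x : ι × ℝ, ∃ Z0 : Finset Nat.Primes, x ∈ S → ∀ Z : Finset Nat.Primes, Z0 ⊆ Z →
      (∀ᶠ ε : ℝ in 𝓝[>] 0, LFun (B x) (edge (w + (t x.1).wt) x.2 + ε) ≠ 0) ∧
      Tendsto (fun ε : ℝ => size (w + (t x.1).wt) (B x) x.2 ε -
        ip (W ε) (cut Z Q) ((t x.1).U x.2) / lam ε) (𝓝[>] 0) (𝓝 0) := by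
    intro x
    by_cases hx : x ∈ S
    · obtain ⟨Z0, h⟩ := link_form hQ hκ (t x.1) x.2 (hB x hx)
      exact ⟨Z0, fun _ => h⟩
    · exact ⟨∅, fun h => absurd h hx⟩
  choose Z0 hZ0 using hch
  obtain ⟨Z2, hZ2⟩ := hκ
  set Z := S.biUnion Z0 ∪ Z2 with hZ
  have hlink : ∀ x ∈ S, _ := fun x hx => hZ0 x hx Z
    ((Finset.subset_biUnion_of_mem Z0 hx).trans Finset.subset_union_left)
  have hκ' : ∀ η : ℝ, 0 < η → ∀ᶠ ε : ℝ in 𝓝[>] 0,
      ip (W ε) (cut Z Q) (cut Z Q) ≤ (κ + η) * lam ε := by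
    intro η hη
    filter_upwards [hZ2 η hη, self_mem_nhdsWithin] with ε g1 g2
    exact (ip_mono (W_nonneg ε) (cut_mono Finset.subset_union_right Q)
      (l2_mono (W_nonneg ε) (cut_le Z2 Q) (hQ.l2 ε g2))).trans g1
  have hQl : ∀ᶠ ε : ℝ in 𝓝[>] 0, L2 (W ε) (cut Z Q) := by
    filter_upwards [self_mem_nhdsWithin] with ε hε
    exact l2_mono (W_nonneg ε) (cut_le Z Q) (hQ.l2 ε hε)
  have h1 : ∀ᶠ ε : ℝ in 𝓝[>] 0, ∀ x ∈ S, LFun (B x) (edge (w + (t x.1).wt) x.2 + ε) ≠ 0 := by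
    rw [Filter.eventually_all_finset]
    exact fun x hx => (hlink x hx).1
  have h2 := max_perturb S (fun x ε => 1 * (ip (W ε) (cut Z Q) ((t x.1).U x.2) / lam ε))
    (fun x ε => size (w + (t x.1).wt) (B x) x.2 ε) _ hκ0
    (fun η' hη' => hfam.bes W_nonneg lam_tendsto hQl hκ0 hκ' S hη' (Or.inl rfl))
    (fun x hx => by simpa only [one_mul] using (hlink x hx).2) hη
  have h3 := max_perturb S (fun x ε => (-1) * (ip (W ε) (cut Z Q) ((t x.1).U x.2) / lam ε))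
    (fun x ε => -size (w + (t x.1).wt) (B x) x.2 ε) _ hκ0
    (fun η' hη' => hfam.bes W_nonneg lam_tendsto hQl hκ0 hκ' S hη' (Or.inr rfl))
    (fun x hx => by
      have := (hlink x hx).2.neg
      rw [neg_zero] at this
      refine this.congr fun ε => ?_
      ring) hη
  exact h1.and (h2.and h3)

/-- **The orders.** -/
theorem one_order (hfam : Fam W lam fun x : ι × ℝ => (t x.1).U x.2)
    (hQ : Sys w δ Q) {K : ℕ} (hκ : Msq Q K)
    (S : Finset (ι × ℝ)) {B : ι × ℝ → Nat.Primes → ℂ[X]} (hB : ∀ x ∈ S,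
      IsEuler (w + (t x.1).wt) (fun p => tens (δ p) ((t x.1).frob p)) (B x))
    {r : ι × ℝ → ℤ} (hr : ∀ x ∈ S, HasOrder (w + (t x.1).wt) (B x) x.2 (r x)) :
    ∑ x ∈ S, max (r x) 0 ^ 2 ≤ (K : ℤ) ∧ ∑ x ∈ S, max (-r x) 0 ^ 2 ≤ (K : ℤ) := by
  have hK0 : (0 : ℝ) ≤ K := Nat.cast_nonneg K
  have h1 : ∑ x ∈ S, (max (-(-(r x : ℝ))) 0) ^ 2 ≤ (K : ℝ) := by
    refine le_of_forall_pos_le_add fun η hη => ?_
    have h2 : Tendsto (fun ε : ℝ => ∑ x ∈ S, max (-size (w + (t x.1).wt) (B x) x.2 ε) 0 ^ 2)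
        (𝓝[>] 0) (𝓝 (∑ x ∈ S, (max (-(-(r x : ℝ))) 0) ^ 2)) :=
      tendsto_finsetSum _ fun x hx => ((line_order (hr x hx)).neg.max tendsto_const_nhds).pow 2
    refine le_of_tendsto h2 ?_
    exact (one_mean hfam hQ hK0 hκ S hB hη).mono fun ε h3 => h3.2.2
  have h1' : ∑ x ∈ S, (max (-(r x : ℝ)) 0) ^ 2 ≤ (K : ℝ) := by
    refine le_of_forall_pos_le_add fun η hη => ?_
    have h2 : Tendsto (fun ε : ℝ => ∑ x ∈ S, max (size (w + (t x.1).wt) (B x) x.2 ε) 0 ^ 2)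
        (𝓝[>] 0) (𝓝 (∑ x ∈ S, (max (-(r x : ℝ)) 0) ^ 2)) :=
      tendsto_finsetSum _ fun x hx => ((line_order (hr x hx)).max tendsto_const_nhds).pow 2
    refine le_of_tendsto h2 ?_
    exact (one_mean hfam hQ hK0 hκ S hB hη).mono fun ε h3 => h3.2.1
  simp only [neg_neg] at h1
  exact ⟨by exact_mod_cast h1, by exact_mod_cast h1'⟩

end

/-- pure systems -/
theorem sys_pure {w : ℤ} {N : ℕ} {δ : Nat.Primes → Multiset ℂ}
    (hδ : ∀ᶠ p in cofinite, Pure w N p (δ p)) : Sys w δ (Qf w N δ) ∧ Msq (Qf w N δ) (N ^ 2) := by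
  refine ⟨⟨fun ε hε => (L2_bdd (Nat.cast_nonneg N) (norm_Qf w N δ) hε).1, ?_⟩, ∅, fun η hη => ?_⟩
  · filter_upwards [hδ] with p hp
    have h3 : (1 : ℝ) ≤ Real.sqrt (p : ℕ) := by
      refine Real.one_le_sqrt.2 ?_
      exact_mod_cast p.2.one_le
    refine ⟨fun z hz => ?_, fun k => ?_⟩
    · rw [hp.1 z hz]
      exact le_mul_of_one_le_right (by positivity) h3
    · unfold Qf
      rw [if_pos hp]
  · filter_upwards [ip_Q w N δ hη] with ε g1
    have : cut ∅ (Qf w N δ) = Qf w N δ := by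
      funext a
      unfold cut
      rw [if_neg (Finset.notMem_empty _)]
    rw [this]
    exact g1

/-- one twist of a pure system -/
theorem sys_twist {w : ℤ} {N : ℕ} {δ : Nat.Primes → Multiset ℂ}
    (hδ : ∀ᶠ p in cofinite, Pure w N p (δ p)) (t : Tw) :
    Sys (w + t.wt) (fun p => tens (δ p) (t.frob p)) (fun a => Qf w N δ a * t.P a) ∧
    Msq (fun a => Qf w N δ a * t.P a) (N ^ 2) := by
  have hle : ∀ a, ‖Qf w N δ a * t.P a‖ ^ 2 ≤ (N : ℝ) ^ 2 * ‖t.P a‖ ^ 2 := by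
    intro a
    rw [norm_mul, mul_pow]
    exact mul_le_mul_of_nonneg_right (pow_le_pow_left₀ (norm_nonneg _) (norm_Qf w N δ a) 2)
      (sq_nonneg _)
  have hl2 : ∀ ε : ℝ, 0 < ε → L2 (W ε) (fun a => Qf w N δ a * t.P a) := by
    intro ε hε
    refine Summable.of_nonneg_of_le (fun a => mul_nonneg (W_nonneg _ _) (sq_nonneg _))
      (fun a => ?_) ((t.sys.l2 ε hε).mul_left ((N : ℝ) ^ 2))
    have h1 := mul_le_mul_of_nonneg_left (hle a) (W_nonneg ε a)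
    linarith
  refine ⟨⟨hl2, ?_⟩, ∅, fun η hη => ?_⟩
  · filter_upwards [hδ, t.sys.pw] with p h1 h2
    have hp0 : (0 : ℝ) < (p : ℕ) := by exact_mod_cast p.2.pos
    refine ⟨fun z hz => ?_, fun k => ?_⟩
    · unfold tens at hz
      obtain ⟨y, hy, rfl⟩ := Multiset.mem_map.1 hz
      obtain ⟨h4, h5⟩ := Multiset.mem_product.1 hy
      rw [norm_mul, h1.1 _ h4]
      have h7 := h2.1 _ h5
      have h8 : ((p : ℕ) : ℝ) ^ (((w + t.wt : ℤ) : ℝ) / 2) =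
          ((p : ℕ) : ℝ) ^ ((w : ℝ) / 2) * ((p : ℕ) : ℝ) ^ ((t.wt : ℝ) / 2) := by
        rw [← Real.rpow_add hp0]
        congr 1
        push_cast
        ring
      rw [h8, mul_assoc]
      exact mul_le_mul_of_nonneg_left h7 (by positivity)
    · have e0 : Qf w N δ (p, k) = ((δ p).map fun z =>
          (z * ((((p : ℕ) : ℝ) ^ ((w : ℝ) / 2) : ℝ) : ℂ)⁻¹) ^ (k + 1)).sum := by
        unfold Qf
        rw [if_pos h1]
      rw [inv_mul_half, tens_pow, ← h2.2 k, ← e0]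
  · obtain ⟨C, hC⟩ := t.self
    have h1 : Tendsto (fun ε => η * lam ε) (𝓝[>] 0) atTop :=
      Tendsto.const_mul_atTop hη lam_tendsto
    filter_upwards [hC, h1.eventually_ge_atTop ((N : ℝ) ^ 2 * C), self_mem_nhdsWithin]
      with ε g1 g2 g3
    have : cut ∅ (fun a => Qf w N δ a * t.P a) = fun a => Qf w N δ a * t.P a := by
      funext a
      unfold cut
      rw [if_neg (Finset.notMem_empty _)]
    rw [this]
    have h2 : ip (W ε) (fun a => Qf w N δ a * t.P a) (fun a => Qf w N δ a * t.P a) ≤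
        (N : ℝ) ^ 2 * ip (W ε) t.P t.P := by
      rw [ip_self, ip_self, ← tsum_mul_left]
      refine Summable.tsum_le_tsum (fun a => ?_) (hl2 ε g3) ((t.sys.l2 ε g3).mul_left _)
      have h1 := mul_le_mul_of_nonneg_left (hle a) (W_nonneg ε a)
      linarith
    have h3 : (0 : ℝ) ≤ (N : ℝ) ^ 2 := by positivity
    nlinarith

end

end Run7.h186.NW
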