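import Pool.Agent.Run7.h186.NW1
import Pool.Agent.Run7.h186.NT16
import Pool.Agent.Y149.TL.Sub

/-! The multiple tensor products with the members of a family, the exceptional members, and one
infinite family for countably many motives. -/

set_option autoImplicit false

namespace Run7.h186.NW

open Finset Filter Topology Complex Polynomial
open Pool.Agent.H341R2 (lam)
open Pool.Agent.Y149.CM (LFun)
open Pool.Agent.Y149.PK (tens)
open Pool.Agent.Y149.TL
open Run7.h186.NT (exists_finset)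
open Run7.h186.NU (PP W Fam)

noncomputable section

variable {ι : Type} {t : ι → Tw} {dim : ι → ℕ}

/-- the weight -/
def wtL (M : Motive) (t : ι → Tw) (l : List ι) : ℤ := M.weight + (l.map fun e => (t e).wt).sum

/-- the eigenvalues -/
def eigL (M : Motive) (t : ι → Tw) (l : List ι) (p : Nat.Primes) : Multiset ℂ :=
  tensL (M.frob p) (fun e => (t e).frob p) l

/-- the Euler factors -/
def TensL (M : Motive) (t : ι → Tw) (l : List ι) (B : Nat.Primes → ℂ[X]) : Prop :=
  IsEuler (wtL M t l) (eigL M t l) B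

/-- the bounds of Ramanujan and Petersson -/
def Ram (t : ι → Tw) (dim : ι → ℕ) (e : ι) : Prop :=
  ∀ᶠ p : Nat.Primes in cofinite, Pure (t e).wt (dim e) p ((t e).frob p)

/-- the bounds -/
def BoundL (M : Motive) (t : ι → Tw) (dim : ι → ℕ) (l : List ι) (K : ℕ) : Prop :=
  K = (M.rank * (l.tail.map dim).prod) ^ 2 ∨ ∃ B : Nat.Primes → ℂ[X],
    IsEuler (2 * wtL M t l) (fun p => tens (eigL M t l p) ((eigL M t l p).map star)) B ∧
    HasOrder (2 * wtL M t l) B 0 (-K)

theorem wtL_cons (M : Motive) (t : ι → Tw) (e : ι) (l : List ι) :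
    wtL M t (e :: l) = wtL M t l + (t e).wt := by
  unfold wtL
  rw [List.map_cons, List.sum_cons]
  ring

theorem twist_cons {M : Motive} {e : ι} {l : List ι} {B : Nat.Primes → ℂ[X]}
    (h : TensL M t (e :: l) B) : IsEuler (wtL M t l + (t e).wt) (fun p =>
      tens (eigL M t l p) ((t e).frob p)) B := by
  unfold TensL at h
  rw [wtL_cons] at h
  exact h

/-- tensor products are pure -/
theorem pureL (M : Motive) (l : List ι) (hl : ∀ e ∈ l, Ram t dim e) :
    ∀ᶠ p : Nat.Primes in cofinite,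
      Pure (wtL M t l) (M.rank * (l.map dim).prod) p (eigL M t l p) := by
  induction l with
  | nil => simpa [wtL, eigL, tensL] using M.Pure
  | cons e l ih =>
    filter_upwards [ih fun e he => hl e (List.mem_cons_of_mem _ he), hl e List.mem_cons_self]
      with p h1 h2
    have h3 := tens_pure h1 h2
    rw [wtL_cons, List.map_cons, List.prod_cons, mul_left_comm, mul_comm]
    exact h3

/-- the system of a multiple tensor product -/
theorem sysL (M : Motive) (l : List ι) (hl : ∀ e ∈ l.tail, Ram t dim e) :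
    ∃ Q : PP → ℂ, Sys (wtL M t l) (eigL M t l) Q ∧
      Msq Q (((M.rank * (l.tail.map dim).prod : ℕ) : ℝ) ^ 2) := by
  rcases l with _ | ⟨g, l⟩
  · have h := sys_pure (pureL (t := t) (dim := dim) M [] (by simp))
    exact ⟨_, h.1, h.2⟩
  · have h := sys_twist (pureL (t := t) (dim := dim) M l hl) (t g)
    rw [wtL_cons]
    exact ⟨_, h.1, h.2⟩

theorem sysK (M : Motive) (l : List ι) (hl : ∀ e ∈ l.tail, Ram t dim e) {K : ℕ}
    (hK : BoundL M t dim l K) :
    ∃ Q : PP → ℂ, Sys (wtL M t l) (eigL M t l) Q ∧ Msq Q (K : ℝ) := by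
  obtain ⟨Q, h1, h2⟩ := sysL M l hl
  refine ⟨Q, h1, ?_⟩
  rcases hK with h | ⟨B, hB, hm⟩
  · rw [h]
    push_cast at h2 ⊢
    exact h2
  · exact link_self h1 ⟨_, h2⟩ hB hm

/-- **The mean square.** -/
theorem mean (hfam : Fam W lam fun x : ι × ℝ => (t x.1).U x.2) (M : Motive)
    (l : List ι) (hl : ∀ e ∈ l.tail, Ram t dim e) {K : ℕ} (hK : BoundL M t dim l K)
    (S : Finset (ι × ℝ)) {B : ι × ℝ → Nat.Primes → ℂ[X]}
    (hB : ∀ x ∈ S, TensL M t (x.1 :: l) (B x)) {η : ℝ} (hη : 0 < η) : ∀ᶠ ε : ℝ in 𝓝[>] 0,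
      (∀ x ∈ S, LFun (B x) (edge (wtL M t (x.1 :: l)) x.2 + ε) ≠ 0) ∧
      ∑ x ∈ S, max (size (wtL M t (x.1 :: l)) (B x) x.2 ε) 0 ^ 2 ≤ (K : ℝ) + η ∧
      ∑ x ∈ S, max (-size (wtL M t (x.1 :: l)) (B x) x.2 ε) 0 ^ 2 ≤ (K : ℝ) + η := by
  obtain ⟨Q, h1, h2⟩ := sysK M l hl hK
  have h3 := one_mean hfam h1 (Nat.cast_nonneg K) h2 S (fun x hx => twist_cons (hB x hx)) hη
  simp only [wtL_cons]
  exact h3

/-- **The orders.** -/
theorem order (hfam : Fam W lam fun x : ι × ℝ => (t x.1).U x.2) (M : Motive)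
    (l : List ι) (hl : ∀ e ∈ l.tail, Ram t dim e) {K : ℕ} (hK : BoundL M t dim l K)
    (S : Finset (ι × ℝ)) {B : ι × ℝ → Nat.Primes → ℂ[X]}
    (hB : ∀ x ∈ S, TensL M t (x.1 :: l) (B x)) {r : ι × ℝ → ℤ}
    (hr : ∀ x ∈ S, HasOrder (wtL M t (x.1 :: l)) (B x) x.2 (r x)) :
    ∑ x ∈ S, max (r x) 0 ^ 2 ≤ (K : ℤ) ∧ ∑ x ∈ S, max (-r x) 0 ^ 2 ≤ (K : ℤ) := by
  obtain ⟨Q, h1, h2⟩ := sysK M l hl hK
  simp only [wtL_cons] at hr
  exact one_order hfam h1 h2 S (fun x hx => twist_cons (hB x hx)) hr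

/-- the members with an order of a given sign -/
def BadS (M : Motive) (t : ι → Tw) (l : List ι) (s : ℤ) (e : ι) : Prop :=
  ∃ (B : Nat.Primes → ℂ[X]) (τ : ℝ) (r : ℤ), 0 < s * r ∧ TensL M t (e :: l) B ∧
    HasOrder (wtL M t (e :: l)) B τ r

theorem badS_card (hfam : Fam W lam fun x : ι × ℝ => (t x.1).U x.2) (M : Motive)
    (l : List ι) (hl : ∀ e ∈ l.tail, Ram t dim e) {K : ℕ} (hK : BoundL M t dim l K)
    {s : ℤ} (hs : s = 1 ∨ s = -1) (S : Finset ι) (hS : ∀ e ∈ S, BadS M t l s e) :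
    S.card ≤ K := by
  classical
  have hch : ∀ e : ι, ∃ (B : Nat.Primes → ℂ[X]) (τ : ℝ) (r : ℤ), e ∈ S → 0 < s * r ∧
      TensL M t (e :: l) B ∧ HasOrder (wtL M t (e :: l)) B τ r := by
    intro e
    by_cases he : e ∈ S
    · obtain ⟨B, τ, r, h1⟩ := hS e he
      exact ⟨B, τ, r, fun _ => h1⟩
    · exact ⟨fun _ => 0, 0, 0, fun h' => absurd h' he⟩
  choose B τ r hB using hch
  have h2 := order hfam M l hl hK (S.image fun e => (e, τ e)) (B := fun x => B x.1)
      (fun x hx => by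
      obtain ⟨e, he, rfl⟩ := Finset.mem_image.1 hx
      exact (hB e he).2.1) (r := fun x => r x.1) (fun x hx => by
      obtain ⟨e, he, rfl⟩ := Finset.mem_image.1 hx
      exact (hB e he).2.2)
  have hinj : ∀ x ∈ S, ∀ y ∈ S, (fun e => (e, τ e)) x = (fun e => (e, τ e)) y → x = y :=
    fun x _ y _ hxy => congrArg Prod.fst hxy
  rw [Finset.sum_image hinj, Finset.sum_image hinj] at h2
  have h3 : ∑ e ∈ S, max (s * r e) 0 ^ 2 ≤ (K : ℤ) := by
    rcases hs with rfl | rfl
    · simpa only [one_mul] using h2.1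
    · simpa only [neg_mul, one_mul] using h2.2
  have h4 : (S.card : ℤ) ≤ ∑ e ∈ S, max (s * r e) 0 ^ 2 := by
    rw [Finset.card_eq_sum_ones, Nat.cast_sum]
    refine Finset.sum_le_sum fun e he => ?_
    have h5 := (hB e he).1
    rw [max_eq_left h5.le]
    have h6 : (1 : ℤ) ≤ s * r e := h5
    push_cast
    nlinarith
  exact_mod_cast h4.trans h3

/-- **The exceptional members.** -/
theorem exceptional (hfam : Fam W lam fun x : ι × ℝ => (t x.1).U x.2)
    (M : Motive) (l : List ι) (hl : ∀ e ∈ l.tail, Ram t dim e) {K : ℕ}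
    (hK : BoundL M t dim l K) :
    ∃ F G : Finset ι, F.card ≤ K ∧ G.card ≤ K ∧
      ∀ (e : ι) (B : Nat.Primes → ℂ[X]), TensL M t (e :: l) B → ∀ (τ : ℝ) (r : ℤ),
        HasOrder (wtL M t (e :: l)) B τ r → (e ∉ F → 0 ≤ r) ∧ (e ∉ G → r ≤ 0) := by
  obtain ⟨F, hF, hF'⟩ := exists_finset (badS_card hfam M l hl hK (Or.inr rfl))
  obtain ⟨G, hG, hG'⟩ := exists_finset (badS_card hfam M l hl hK (Or.inl rfl))
  refine ⟨F, G, hF, hG, fun e B hB τ r hr => ⟨fun he => ?_, fun he => ?_⟩⟩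
  · by_contra h
    exact he (hF' e ⟨B, τ, r, by omega, hB, hr⟩)
  · by_contra h
    exact he (hG' e ⟨B, τ, r, by omega, hB, hr⟩)

theorem wtL_perm {M : Motive} {l l' : List ι} (h : l.Perm l') : wtL M t l = wtL M t l' := by
  unfold wtL
  rw [(h.map fun e => (t e).wt).sum_eq]

theorem twist_perm {M : Motive} {l l' : List ι} (h : l.Perm l') {B : Nat.Primes → ℂ[X]}
    (hB : TensL M t l B) : TensL M t l' B := by
  unfold TensL at *
  rw [← wtL_perm h]
  have e : eigL M t l' = eigL M t l := by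
    funext p
    unfold eigL
    rw [tensL_perm _ _ h]
  rw [e]
  exact hB

/-- **One infinite family for countably many motives.** -/
theorem universal [Infinite ι] (hfam : Fam W lam fun x : ι × ℝ => (t x.1).U x.2)
    (dim : ι → ℕ) (M : ℕ → Motive) :
    ∃ 𝒥 : Set ι, 𝒥.Infinite ∧ ∀ j, ∃ F : Finset ι, (∀ x ∈ F, x ∈ 𝒥) ∧
      ∀ l : List ι, l.Nodup → (∀ e ∈ l, e ∈ 𝒥) → (∃ e ∈ l, e ∉ F) →
      (l.length ≤ 2 ∨ ∀ e ∈ l, Ram t dim e) →
      ∀ B : Nat.Primes → ℂ[X], TensL (M j) t l B →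
      ∀ (τ : ℝ) (r : ℤ), HasOrder (wtL (M j) t l) B τ r → r = 0 := by
  classical
  have hfin : ∀ (j : ℕ) (A : Finset ι), ({e | (A.card ≤ 1 ∨ ∀ x ∈ A, Ram t dim x) ∧
      (BadS (M j) t A.toList 1 e ∨ BadS (M j) t A.toList (-1) e)} : Set ι).Finite := by
    intro j A
    by_cases hA : A.card ≤ 1 ∨ ∀ x ∈ A, Ram t dim x
    · have htl : ∀ e ∈ A.toList.tail, Ram t dim e := by
        rcases hA with h | h
        · intro e he
          have h1 : A.toList.tail.length = 0 := by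
            rw [List.length_tail, Finset.length_toList]
            omega
          rw [List.length_eq_zero_iff] at h1
          rw [h1] at he
          exact absurd he List.not_mem_nil
        · intro e he
          exact h e (Finset.mem_toList.1 (List.mem_of_mem_tail he))
      obtain ⟨F, -, hF⟩ := exists_finset (badS_card hfam (M j) A.toList htl
        (Or.inl rfl) (Or.inl rfl))
      obtain ⟨G, -, hG⟩ := exists_finset (badS_card hfam (M j) A.toList htl
        (Or.inl rfl) (Or.inr rfl))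
      refine (F ∪ G).finite_toSet.subset fun e he => ?_
      rw [Finset.coe_union]
      exact he.2.imp (hF e) (hG e)
    · refine Set.Finite.subset Set.finite_empty fun e he => ?_
      exact hA he.1
  obtain ⟨𝒥, hinf, h1⟩ := greedy (Bad := fun j A => {e | (A.card ≤ 1 ∨ ∀ x ∈ A, Ram t dim x) ∧
      (BadS (M j) t A.toList 1 e ∨ BadS (M j) t A.toList (-1) e)}) hfin
  refine ⟨𝒥, hinf, fun j => ?_⟩
  obtain ⟨F, hF, h2⟩ := h1 j
  refine ⟨F, hF, fun l hl hmem hex hlen B hB τ r hr => ?_⟩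
  set A : Finset ι := l.toFinset with hA
  obtain ⟨e, he, hbad⟩ := h2 A (fun x hx => hmem x (List.mem_toFinset.1 hx)) (by
    obtain ⟨e, he, heF⟩ := hex
    exact ⟨e, List.mem_toFinset.2 he, heF⟩)
  have hperm : l.Perm (e :: (A.erase e).toList) := by
    have g1 : A.toList.Perm (e :: (A.erase e).toList) := by
      conv_lhs => rw [← Finset.insert_erase he]
      exact Finset.toList_insert (Finset.notMem_erase e A)
    refine List.Perm.trans ?_ g1
    exact (List.toFinset_toList hl).symm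
  have hcond : (A.erase e).card ≤ 1 ∨ ∀ x ∈ A.erase e, Ram t dim x := by
    rcases hlen with h | h
    · left
      rw [Finset.card_erase_of_mem he, hA, List.toFinset_card_of_nodup hl]
      omega
    · exact Or.inr fun x hx => h x (List.mem_toFinset.1 (Finset.mem_of_mem_erase hx))
  rw [wtL_perm hperm] at hr
  by_contra hr0
  refine hbad ⟨hcond, ?_⟩
  rcases lt_or_gt_of_ne hr0 with h3 | h3
  · exact Or.inr ⟨B, τ, r, by omega, twist_perm hperm hB, hr⟩
  · exact Or.inl ⟨B, τ, r, by omega, twist_perm hperm hB, hr⟩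

end

end Run7.h186.NW
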