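import Pool.Agent.Run7.h186.BF2
import Pool.Agent.Run7.h186.BF6
import Pool.Agent.Run7.h186.NV4
import Pool.Agent.X288.L2.Inst
import Pool.Agent.H126T.Field
import Pool.Agent.W401.Cheb.Main

/-! Instances: motives of elliptic curves and Artin representations, and forms. -/

set_option autoImplicit false

namespace Run7.h186.NY

open Filter Topology Polynomial NumberField
open Pool.Agent.Y149.TL (Motive tensL)
open Pool.Agent.Y149.PK (tens frobE)
open Pool.Agent.Y722.EP (points IsModular NotIsogenous IsNewformOf)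
open Pool.Agent.W401.Cheb (HasFrob torsor)
open Run7.h186.NV

/-- Hasse's theorem -/
theorem hasse (a b : ℤ) {p : ℕ} (hp : p.Prime) (h2 : p ≠ 2) :
    ((((p : ℤ) + 1 - points (ZMod p) a b : ℤ)) : ℝ) ^ 2 ≤ 4 * p := by
  classical
  have : Fact p.Prime := ⟨hp⟩
  set f : (ZMod p)[X] := X ^ 3 + C (a : ZMod p) * X + C (b : ZMod p) with hf
  have hdeg : f.natDegree = 3 := by
    rw [hf]
    compute_degree!
  have hchar : ringChar (ZMod p) ≠ 2 := by rw [ZMod.ringChar_zmod_n]; exact h2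
  have h := Pool.Agent.H126T.trace_bound hchar f (by rw [hdeg]; decide) 1 one_ne_zero 1 one_ne_zero
  have e : (Pool.Agent.H126T.affPts (ZMod p) f 1 1 : ℤ) + 1 = points (ZMod p) a b := by
    rw [Pool.Agent.H126T.affPts_eq f 1 1 (ZMod p) (by rw [pow_one])]
    unfold points
    push_cast
    congr 2
    refine Nat.card_congr (Equiv.subtypeEquivRight fun P => ?_)
    rw [hf]
    simp
  rw [e, hdeg, Nat.card_eq_fintype_card, ZMod.card, pow_one, pow_one] at h
  have hp0 : (0 : ℝ) ≤ p := Nat.cast_nonneg p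
  have h3 := pow_le_pow_left₀ (abs_nonneg _) h 2
  rw [sq_abs, mul_pow, Real.sq_sqrt hp0] at h3
  norm_num at h3 ⊢
  linarith

theorem frobE_two (a b : ℤ) (p : Nat.Primes) (h2 : (p : ℕ) ≠ 2) : ∃ u v : ℂ,
    frobE a b p 1 = {u, v} ∧ ‖u‖ = Real.sqrt (p : ℕ) ∧ ‖v‖ = Real.sqrt (p : ℕ) := by
  obtain ⟨u, v, g1, g2, g3, g4⟩ := Pool.Agent.Y149.CM.exists_uv
    ((((p : ℕ) : ℤ) + 1 - points (ZMod p) a b : ℤ) : ℝ) (p : ℕ) (hasse a b p.2 h2)
  refine ⟨u, v, ?_, g3, g4⟩
  have e : (X ^ 2 - C (((((p : ℕ) : ℤ) + 1 - points (ZMod p) a b : ℤ)) : ℂ) * X +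
      C ((p : ℕ) : ℂ) : ℂ[X]) = (X - C u) * (X - C v) := by
    have h1' : (((((p : ℕ) : ℤ) + 1 - points (ZMod p) a b : ℤ)) : ℂ) = u + v := by
      rw [g1]
      push_cast
      rfl
    have h2' : (((p : ℕ)) : ℂ) = u * v := by rw [g2]; push_cast; rfl
    rw [h1', h2', C_add, C_mul]
    ring
  unfold frobE
  rw [e, roots_mul (mul_ne_zero (X_sub_C_ne_zero u) (X_sub_C_ne_zero v)), roots_X_sub_C,
    roots_X_sub_C]
  rfl

/-- exact purity -/
def EPure (w : ℤ) (N : ℕ) (p : Nat.Primes) (s : Multiset ℂ) : Prop :=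
  (∀ z ∈ s, ‖z‖ = (p : ℝ) ^ ((w : ℝ) / 2)) ∧ Multiset.card s = N

theorem tens_epure {w w' : ℤ} {N N' : ℕ} {p : Nat.Primes} {s t : Multiset ℂ} (hs : EPure w N p s)
    (ht : EPure w' N' p t) : EPure (w + w') (N * N') p (tens s t) := by
  have hp0 : (0 : ℝ) < (p : ℕ) := by exact_mod_cast p.2.pos
  unfold tens
  refine ⟨fun z hz => ?_, ?_⟩
  · obtain ⟨x, hx, rfl⟩ := Multiset.mem_map.1 hz
    obtain ⟨h1, h2⟩ := Multiset.mem_product.1 hx
    rw [norm_mul, hs.1 _ h1, ht.1 _ h2, ← Real.rpow_add hp0]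
    congr 1
    push_cast
    ring
  · rw [Multiset.card_map, Multiset.card_product, hs.2, ht.2]

theorem frobE_epure (a b : ℤ) (p : Nat.Primes) (h2 : (p : ℕ) ≠ 2) :
    EPure 1 2 p (frobE a b p 1) := by
  obtain ⟨u, v, h1, h3, h4⟩ := frobE_two a b p h2
  have e : ((p : ℕ) : ℝ) ^ (((1 : ℤ) : ℝ) / 2) = Real.sqrt (p : ℕ) := by
    rw [Real.sqrt_eq_rpow]
    norm_num
  refine ⟨fun z hz => ?_, ?_⟩
  · rw [e]
    rw [h1] at hz
    simp only [Multiset.insert_eq_cons, Multiset.mem_cons, Multiset.mem_singleton] at hz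
    rcases hz with rfl | rfl
    · exact h3
    · exact h4
  · rw [h1]
    simp

theorem tensL_epure {n : ℕ} (a b : Fin n → ℤ) {d : ℕ} {p : Nat.Primes} (h2 : (p : ℕ) ≠ 2)
    {s : Multiset ℂ} (hs : EPure 0 d p s) (l : List (Fin n)) :
    EPure (l.length : ℤ) (d * 2 ^ l.length) p (tensL s (fun i => frobE (a i) (b i) p 1) l) := by
  induction l with
  | nil => simpa [tensL] using hs
  | cons e l ih =>
    have h := tens_epure ih (frobE_epure (a e) (b e) p h2)
    rw [tensL, List.length_cons]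
    push_cast
    rw [pow_succ, ← mul_assoc]
    exact h

theorem ne_two : ∀ᶠ p : Nat.Primes in cofinite, (p : ℕ) ≠ 2 := by
  rw [eventually_cofinite]
  refine Set.Finite.subset (Set.finite_singleton (⟨2, Nat.prime_two⟩ : Nat.Primes)) fun p hp => ?_
  simp only [ne_eq, not_not] at hp
  exact Subtype.ext hp

section artin
variable {G : Type} [Group G] [Finite G] {d : ℕ} (ρ : G →* GL (Fin d) ℂ)

theorem root_norm (σ : G) {z : ℂ} (hz : z ∈ ((ρ σ : GL (Fin d) ℂ) : Matrix (Fin d) (Fin d) ℂ).charpoly.roots) :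
    ‖z‖ = 1 := by
  rcases isEmpty_or_nonempty (Fin d) with hd | hd
  · exfalso
    have h1 : ((ρ σ : GL (Fin d) ℂ) : Matrix (Fin d) (Fin d) ℂ).charpoly = 1 := by
      unfold Matrix.charpoly
      exact Matrix.det_isEmpty
    rw [h1, roots_one] at hz
    exact Multiset.notMem_zero _ hz
  have hk : 0 < Nat.card G := Nat.card_pos
  set A : Matrix (Fin d) (Fin d) ℂ := ((ρ σ : GL (Fin d) ℂ) : Matrix (Fin d) (Fin d) ℂ) with hA
  have hpow : A ^ Nat.card G = 1 := by
    rw [hA, ← Units.val_pow_eq_pow_val, ← map_pow, pow_card_eq_one', map_one, Units.val_one]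
  have h1 : z ∈ spectrum ℂ A := by
    refine Matrix.mem_spectrum_of_isRoot_charpoly ?_
    exact (mem_roots (Matrix.charpoly_monic A).ne_zero).1 hz
  have h2 : z ^ Nat.card G ∈ spectrum ℂ (A ^ Nat.card G) := spectrum.pow_mem_pow A _ h1
  rw [hpow, spectrum.one_eq, Set.mem_singleton_iff] at h2
  have h3 : ‖z‖ ^ Nat.card G = 1 := by rw [← norm_pow, h2, norm_one]
  exact (pow_eq_one_iff_of_nonneg (norm_nonneg z) hk.ne').1 h3

theorem roots_card (σ : G) :
    Multiset.card ((ρ σ : GL (Fin d) ℂ) : Matrix (Fin d) (Fin d) ℂ).charpoly.roots = d := by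
  rw [← (IsAlgClosed.splits _).natDegree_eq_card_roots, Matrix.charpoly_natDegree_eq_dim,
    Fintype.card_fin]

theorem conj_charpoly {σ τ g : G} (h : g * τ = σ * g) :
    ((ρ σ : GL (Fin d) ℂ) : Matrix (Fin d) (Fin d) ℂ).charpoly =
      ((ρ τ : GL (Fin d) ℂ) : Matrix (Fin d) (Fin d) ℂ).charpoly := by
  have e : ρ σ = ρ g * ρ τ * ρ g⁻¹ := by
    rw [← map_mul, ← map_mul]
    congr 1
    rw [h]
    group
  rw [e, Units.val_mul, Matrix.charpoly_mul_comm, ← Units.val_mul, ← mul_assoc, ← map_mul,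
    inv_mul_cancel, map_one, one_mul]

end artin

/-- **Instances of motives.** -/
theorem exists_motive (n : ℕ) (a b : Fin n → ℤ) (L : Type) [Field L] [NumberField L] [IsGalois ℚ L]
    (d : ℕ) (ρ : Gal(L/ℚ) →* GL (Fin d) ℂ) :
    ∃ M : Motive, M.weight = n ∧ M.rank = d * 2 ^ n ∧
      ∀ᶠ p : Nat.Primes in cofinite, ∀ [Fact (p : ℕ).Prime]
        (φ : 𝓞 L →+* AlgebraicClosure (ZMod p)) (σ : Gal(L/ℚ)), HasFrob (p : ℕ) φ σ → M.frob p =
          tensL ((ρ σ : GL (Fin d) ℂ) : Matrix (Fin d) (Fin d) ℂ).charpoly.roots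
            (fun i => frobE (a i) (b i) p 1) (List.finRange n) := by
  classical
  obtain ⟨D, hD, hT⟩ := torsor L
  have hGood : ∀ᶠ p : Nat.Primes in cofinite, ¬ (p : ℕ) ∣ D := by
    rw [eventually_cofinite]
    simp only [not_not]
    refine Set.Finite.of_finite_image (f := fun p : Nat.Primes => (p : ℕ))
      ((Finset.range (D + 1)).finite_toSet.subset ?_) Subtype.val_injective.injOn
    rintro _ ⟨p, hp, rfl⟩
    simp only [Finset.coe_range, Set.mem_Iio]
    exact Nat.lt_succ_of_le (Nat.le_of_dvd hD hp)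
  have hfin : Finite Gal(L/ℚ) := inferInstance
  let s : Nat.Primes → Gal(L/ℚ) := fun p =>
    haveI : Fact (p : ℕ).Prime := ⟨p.2⟩
    if h : ∃ (φ : 𝓞 L →+* AlgebraicClosure (ZMod p)) (σ : Gal(L/ℚ)), HasFrob (p : ℕ) φ σ then
      h.choose_spec.choose else 1
  have hs : ∀ p : Nat.Primes, ¬ (p : ℕ) ∣ D → ∀ [Fact (p : ℕ).Prime]
      (φ : 𝓞 L →+* AlgebraicClosure (ZMod p)) (σ : Gal(L/ℚ)), HasFrob (p : ℕ) φ σ →
      ((ρ σ : GL (Fin d) ℂ) : Matrix (Fin d) (Fin d) ℂ).charpoly =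
        ((ρ (s p) : GL (Fin d) ℂ) : Matrix (Fin d) (Fin d) ℂ).charpoly := by
    intro p hp _ φ σ hφ
    have h : ∃ (φ : 𝓞 L →+* AlgebraicClosure (ZMod p)) (σ : Gal(L/ℚ)), HasFrob (p : ℕ) φ σ :=
      ⟨φ, σ, hφ⟩
    have e : s p = h.choose_spec.choose := dif_pos h
    have h' : HasFrob (p : ℕ) h.choose (s p) := by rw [e]; exact h.choose_spec.choose_spec
    set φ' := h.choose
    obtain ⟨-, ht, -⟩ := hT p hp
    obtain ⟨g, hg, -⟩ := ht φ φ'
    -- φ' x = φ (g x)
    have key : ∀ x, φ ((g * s p) • x) = φ ((σ * g) • x) := by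
      intro x
      rw [mul_smul, mul_smul, ← hg, h' x, hg, hφ (g • x)]
    -- uniqueness
    obtain ⟨r, hr, hru⟩ := ht φ (φ.comp (MulSemiringAction.toRingHom Gal(L/ℚ) (𝓞 L) (σ * g)))
    have e1 : g * s p = r := hru _ fun x => (key x).symm
    have e2 : σ * g = r := hru _ fun x => rfl
    exact conj_charpoly ρ (e1.trans e2.symm)
  refine ⟨⟨n, d * 2 ^ n, fun p =>
    tensL ((ρ (s p) : GL (Fin d) ℂ) : Matrix (Fin d) (Fin d) ℂ).charpoly.roots
      (fun i => frobE (a i) (b i) p 1) (List.finRange n), ?_⟩, rfl, rfl, ?_⟩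
  · filter_upwards [ne_two] with p h2
    have h1 : EPure 0 d p ((ρ (s p) : GL (Fin d) ℂ) : Matrix (Fin d) (Fin d) ℂ).charpoly.roots := by
      refine ⟨fun z hz => ?_, roots_card ρ _⟩
      rw [root_norm ρ _ hz, Int.cast_zero, zero_div, Real.rpow_zero]
    have h3 := tensL_epure a b h2 h1 (List.finRange n)
    rw [List.length_finRange] at h3
    exact h3
  · filter_upwards [hGood] with p hp _ φ σ hφ
    have h := hs p hp φ σ hφ
    rw [h]

/-- Different primitive characters differ. -/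
theorem primitive_differ {N N' : ℕ} (hN : 0 < N) (hN' : 0 < N') (χ : DirichletCharacter ℂ N)
    (χ' : DirichletCharacter ℂ N') (h : χ.IsPrimitive) (h' : χ'.IsPrimitive)
    (hne : N ≠ N' ∨ ¬ HEq χ χ') : (Form.chr N χ hN).Differ (Form.chr N' χ' hN') := by
  change ∃ p : ℕ, p.Prime ∧ ¬ p ∣ N ∧ ¬ p ∣ N' ∧ χ (p : ZMod N) ≠ χ' (p : ZMod N')
  by_contra hc
  push Not at hc
  have hM : 0 < N * N' := Nat.mul_pos hN hN'
  have : NeZero (N * N') := ⟨hM.ne'⟩
  have e : DirichletCharacter.changeLevel (Nat.dvd_mul_right N N') χ =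
      DirichletCharacter.changeLevel (Nat.dvd_mul_left N' N) χ' := by
    rw [← DirichletCharacter.toUnitHom_inj]
    ext u
    obtain ⟨p, hpB, hp, hpk⟩ := Nat.forall_exists_prime_gt_and_eq_mod (a := (u : ZMod (N * N')))
      u.isUnit (N * N')
    have h1 : ¬ p ∣ N := fun h1 => by
      have := Nat.le_of_dvd hN h1
      have := Nat.le_mul_of_pos_right N hN'
      omega
    have h2 : ¬ p ∣ N' := fun h1 => by
      have := Nat.le_of_dvd hN' h1
      have := Nat.le_mul_of_pos_left N' hN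
      omega
    have h3 := hc p hp h1 h2
    rw [MulChar.coe_toUnitHom, MulChar.coe_toUnitHom,
      DirichletCharacter.changeLevel_eq_cast_of_dvd, DirichletCharacter.changeLevel_eq_cast_of_dvd,
      ← hpk]
    rw [ZMod.cast_natCast (Nat.dvd_mul_right N N'), ZMod.cast_natCast (Nat.dvd_mul_left N' N)]
    exact h3
  have h1 : N = N' := by
    have h2 := DirichletCharacter.conductor_changeLevel χ (Nat.dvd_mul_right N N')
    have h3 := DirichletCharacter.conductor_changeLevel χ' (Nat.dvd_mul_left N' N)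
    rw [e, h3] at h2
    rw [DirichletCharacter.isPrimitive_def] at h h'
    rw [h, h'] at h2
    exact h2.symm
  subst h1
  rcases hne with h2 | h2
  · exact h2 rfl
  · exact h2 (heq_of_eq (DirichletCharacter.changeLevel_injective _ e))

end Run7.h186.NY
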