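import Pool.Agent.Run7.h186.Pc
import Mathlib.NumberTheory.NumberField.InfinitePlace.Embeddings
import Mathlib.NumberTheory.NumberField.Units.Basic
import Mathlib.Analysis.Matrix.PosDef
import Mathlib.RingTheory.Jacobson.Ring
import Mathlib.FieldTheory.IntermediateField.Algebraic

/-!
# Real parts of characters and roots of unity
-/

set_option autoImplicit false
set_option linter.unusedSectionVars false

namespace Run7.h186

open Finset Pool.Agent.Y72.Dt Pool.Agent.Y72.Log MulAction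

universe u

section cnj

open scoped ComplexConjugate Matrix ComplexOrder

variable {G : Type*} [Group G] [Fintype G]

/-- the character of the inverse of an element -/
theorem trace_inv_conj {d : ℕ} (R : G →* Matrix (Fin d) (Fin d) ℂ) (g : G) :
    (R g⁻¹).trace = conj (R g).trace := by
  classical
  let H : Matrix (Fin d) (Fin d) ℂ := ∑ g : G, (R g)ᴴ * R g
  have hH : ∀ h, (R h)ᴴ * H * R h = H := by
    intro h
    simp only [H]
    rw [Finset.mul_sum, Finset.sum_mul]
    refine Fintype.sum_equiv (Equiv.mulRight h) _ _ ?_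
    intro g
    rw [Equiv.coe_mulRight, map_mul, Matrix.conjTranspose_mul]
    simp only [Matrix.mul_assoc]
  have hpos : H.PosDef := by
    have h1 : H = 1 + ∑ g ∈ Finset.univ.erase (1 : G), (R g)ᴴ * R g := by
      simp only [H]
      rw [← Finset.add_sum_erase _ _ (Finset.mem_univ (1 : G)), map_one]
      simp
    rw [h1]
    exact Matrix.PosDef.one.add_posSemidef
      (Matrix.posSemidef_sum _ fun g _ => Matrix.posSemidef_conjTranspose_mul_self _)
  have hunit := hpos.isUnit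
  have hdet : IsUnit H.det := (Matrix.isUnit_iff_isUnit_det _).1 hunit
  have h1 : (R g)ᴴ * H = H * R g⁻¹ := by
    have h2 := hH g
    have h3 : R g * R g⁻¹ = 1 := by rw [← map_mul, mul_inv_cancel, map_one]
    calc (R g)ᴴ * H = (R g)ᴴ * H * (R g * R g⁻¹) := by rw [h3, Matrix.mul_one]
      _ = ((R g)ᴴ * H * R g) * R g⁻¹ := by rw [Matrix.mul_assoc _ (R g)]
      _ = H * R g⁻¹ := by rw [h2]
  have h2 : R g⁻¹ = H⁻¹ * ((R g)ᴴ * H) := by
    rw [h1, ← Matrix.mul_assoc, Matrix.nonsing_inv_mul _ hdet, Matrix.one_mul]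
  rw [h2, Matrix.trace_mul_comm, Matrix.mul_assoc, Matrix.mul_nonsing_inv _ hdet, Matrix.mul_one,
    Matrix.trace_conjTranspose]
  rfl

end cnj

section nf

open scoped ComplexConjugate

variable {G : Type u} {n : Type*} [Group G] [Fintype G] [Fintype n] [DecidableEq n]

/-- the congruences outside a set `V` -/
def MCV (V : Set G) (X : (Matrix n n (MonoidAlgebra ℤ G))ˣ) : Prop :=
  ∀ p : ℕ, p.Prime → ∀ a : ℕ, 1 ≤ a → ∀ k : ℕ, (∃ Z : Matrix n n (MonoidAlgebra ℤ G),
      (X : Matrix n n (MonoidAlgebra ℤ G)) ^ k = 1 + ((p : ℤ) ^ a) • Z) → ∀ g : G,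
      p ∣ orderOf g → g ∉ V → (p : ℤ) ^ (2 * a) ∣ ∑ x : G, ∑ i,
        (((X : Matrix n n (MonoidAlgebra ℤ G)) ^ k) i i).coeff (x * g * x⁻¹)

lemma DD_unit {R : Type*} [CommRing R] {ι : Type*} [Fintype ι] [DecidableEq ι]
    (X : (Matrix n n (MonoidAlgebra ℤ G))ˣ) (σ : G →* Matrix ι ι R) :
    DD σ X.val * DD σ (X⁻¹).val = 1 := by
  unfold DD
  rw [← Matrix.det_mul, ← map_mul, Units.mul_inv, map_one, Matrix.det_one]

lemma DD_integral {F : Type*} [Field F] {ι : Type*} [Fintype ι] [DecidableEq ι]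
    (X : Matrix n n (MonoidAlgebra ℤ G)) (σ : G →* Matrix ι ι F) : IsIntegral ℤ (DD σ X) := by
  have h1 : IsIntegral ℤ (DD (chg (algebraMap F (AlgebraicClosure F)) σ) X) :=
    det_integral (blkR_integral _ X)
  rw [DD_chg] at h1
  exact (isIntegral_algHom_iff ((algebraMap F (AlgebraicClosure F)).toIntAlgHom)
    (algebraMap F (AlgebraicClosure F)).injective).1 h1

lemma chg_trace {R S : Type*} [CommRing R] [CommRing S] (f : R →+* S) {ι : Type*} [Fintype ι]
    [DecidableEq ι] (σ : G →* Matrix ι ι R) (g : G) : (chg f σ g).trace = f (σ g).trace := by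
  rw [Matrix.trace, Matrix.trace, map_sum]
  rfl

/-- **number fields** -/
theorem nf_part {K : Type*} [Field K] [NumberField K] (X : (Matrix n n (MonoidAlgebra ℤ G))ˣ)
    (V : Set G) (hV : ∀ v ∈ V, ∀ h, Into h v → h ∈ V) (hX : MCV V X) {d d' : ℕ}
    (σ : G →* Matrix (Fin d) (Fin d) K) (τ : G →* Matrix (Fin d') (Fin d') K)
    (h : ∀ v ∈ V, ∃ q : ℚ, (σ v).trace + (σ v⁻¹).trace - ((τ v).trace + (τ v⁻¹).trace) = (q : K)) :
    ∃ N : ℕ, 0 < N ∧ DD σ X.val ^ N = DD τ X.val ^ N := by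
  classical
  -- the case of one embedding
  let RC : ∀ {m : ℕ} (_ : G →* Matrix (Fin m) (Fin m) K) (_ : K →+* ℂ), G → ℂ :=
    fun ρ e g => e (ρ g).trace + conj (e (ρ g).trace)
  have hRC : ∀ {m : ℕ} (ρ : G →* Matrix (Fin m) (Fin m) K) (e : K →+* ℂ),
      Rv X.val (e (DD ρ X.val) * conj (e (DD ρ X.val))) (RC ρ e) := by
    intro m ρ e
    have h1 := (Rv.of (X := X.val) (chg e ρ)).mul
      (Rv.of (X := X.val) (chg (starRingEnd ℂ) (chg e ρ)))
    rw [DD_chg, DD_chg, DD_chg] at h1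
    simp only [chg_trace] at h1
    exact h1
  have hRCq : ∀ (e : K →+* ℂ) (v : G) (q : ℚ),
      (σ v).trace + (σ v⁻¹).trace - ((τ v).trace + (τ v⁻¹).trace) = (q : K) →
      RC σ e v - RC τ e v = q := by
    intro e v q hq
    have h1 := trace_inv_conj (chg e σ) v
    have h2 := trace_inv_conj (chg e τ) v
    rw [chg_trace, chg_trace] at h1 h2
    show e (σ v).trace + conj (e (σ v).trace) - (e (τ v).trace + conj (e (τ v).trace)) = q
    rw [← h1, ← h2, ← map_add, ← map_add, ← map_sub, hq, map_ratCast]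
  have hnorm : ∀ {m : ℕ} (ρ : G →* Matrix (Fin m) (Fin m) K),
      ∏ e : K →+* ℂ, ‖e (DD ρ X.val)‖ = 1 := by
    intro m ρ
    have hint := DD_integral X.val ρ
    have hint' := DD_integral (X⁻¹).val ρ
    let w : NumberField.RingOfIntegers K := ⟨DD ρ X.val, hint⟩
    have hw : IsUnit w := by
      refine IsUnit.of_mul_eq_one (⟨DD ρ (X⁻¹).val, hint'⟩ : NumberField.RingOfIntegers K) ?_
      apply NumberField.RingOfIntegers.ext
      exact DD_unit X ρ
    have h1 := NumberField.isUnit_iff_norm.1 hw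
    have h2 : algebraMap ℚ ℂ (Algebra.norm ℚ (DD ρ X.val)) = ∏ e : K →ₐ[ℚ] ℂ, e (DD ρ X.val) :=
      Algebra.norm_eq_prod_embeddings ℚ ℂ _
    have h3 : ((RingOfIntegers.norm ℚ w : NumberField.RingOfIntegers ℚ) : ℚ) = Algebra.norm ℚ (DD ρ X.val) := rfl
    rw [h3] at h1
    have h4 : ‖algebraMap ℚ ℂ (Algebra.norm ℚ (DD ρ X.val))‖ = 1 := by
      have h5 : algebraMap ℚ ℂ (Algebra.norm ℚ (DD ρ X.val)) =
          ((Algebra.norm ℚ (DD ρ X.val) : ℚ) : ℂ) := rfl
      rw [h5, Complex.norm_ratCast]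
      exact_mod_cast h1
    rw [h2, norm_prod] at h4
    rw [← h4]
    exact (Fintype.prod_equiv (RingHom.equivRatAlgHom K ℂ) _ _ (fun e => rfl))
  have hab : ∀ e0 : K →+* ℂ, ‖e0 (DD σ X.val)‖ = ‖e0 (DD τ X.val)‖ := by
    intro e0
    set m := Fintype.card (K →+* ℂ) with hm
    have hmpos : 0 < m := Fintype.card_pos_iff.2 ⟨e0⟩
    have hA := ((hRC σ e0).pow m).mul (Rv.prod Finset.univ (fun e _ => hRC τ e))
    have hB := ((hRC τ e0).pow m).mul (Rv.prod Finset.univ (fun e _ => hRC σ e))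
    have hdiff : ∀ v : G, ∀ q : ℚ,
        (σ v).trace + (σ v⁻¹).trace - ((τ v).trace + (τ v⁻¹).trace) = (q : K) →
        (m : ℂ) * RC σ e0 v + ∑ e, RC τ e v = (m : ℂ) * RC τ e0 v + ∑ e, RC σ e v := by
      intro v q hq
      have h1 : ∑ e : K →+* ℂ, (RC σ e v - RC τ e v) = m * q := by
        simp_rw [hRCq _ v q hq]
        rw [Finset.sum_const, Finset.card_univ, nsmul_eq_mul]
      rw [Finset.sum_sub_distrib] at h1
      have h2 := hRCq e0 v q hq
      linear_combination (m : ℂ) * h2 - h1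
    obtain ⟨N, hN, h1⟩ := Rv.off X V hV hX hA hB (by
      intro v hv
      obtain ⟨q, hq⟩ := h v hv
      exact hdiff v q hq) (by
      refine hdiff 1 (2 * d - 2 * d') ?_
      rw [inv_one, map_one, map_one, Matrix.trace_one, Matrix.trace_one, Fintype.card_fin,
        Fintype.card_fin]
      push_cast
      ring)
    have hn : ∀ z : ℂ, ‖z * conj z‖ = ‖z‖ ^ 2 := by
      intro z
      rw [norm_mul, RCLike.norm_conj]
      ring
    have h2 := congrArg (fun z => ‖z‖) h1
    simp only [norm_pow, norm_mul, norm_prod, hn] at h2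
    rw [Finset.prod_pow, Finset.prod_pow, hnorm σ, hnorm τ, one_pow, mul_one, mul_one] at h2
    simp only [← pow_mul] at h2
    refine (pow_left_inj₀ (norm_nonneg _) (norm_nonneg _) ?_).1 h2
    exact (Nat.mul_pos (Nat.mul_pos two_pos hmpos) hN).ne'
  -- Kronecker
  have hint : IsIntegral ℤ (DD σ X.val * DD τ (X⁻¹).val) :=
    (DD_integral X.val σ).mul (DD_integral (X⁻¹).val τ)
  obtain ⟨N, hN, h1⟩ := NumberField.Embeddings.pow_eq_one_of_norm_eq_one K ℂ hint (by
    intro e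
    have h2 : ‖e (DD τ X.val) * e (DD τ (X⁻¹).val)‖ = 1 := by
      rw [← map_mul, DD_unit, map_one, norm_one]
    rw [map_mul, norm_mul, hab e, ← norm_mul, h2])
  refine ⟨N, hN, ?_⟩
  have h3 := DD_unit X τ
  calc DD σ X.val ^ N = (DD σ X.val * DD τ (X⁻¹).val) ^ N * DD τ X.val ^ N := by
        rw [← mul_pow, mul_assoc, mul_comm (DD τ (X⁻¹).val), h3, mul_one]
    _ = _ := by rw [h1, one_mul]

end nf

end Run7.h186
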