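import Pool.Agent.Run7.h186.Rv

/-!
# Permutation characters and the part outside a closed set
-/

set_option autoImplicit false
set_option linter.unusedSectionVars false

namespace Run7.h186

open Finset Pool.Agent.Y72.Dt Pool.Agent.Y72.Log MulAction

universe u

section ring

variable {G : Type u} [Group G]

/-- differences of permutation characters -/
def RP {G : Type u} [Group G] (f : G → ℤ) : Prop :=
  ∃ (X Y : Type u) (_ : Finite X) (_ : Finite Y) (_ : MulAction G X) (_ : MulAction G Y),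
      ∀ g, f g = (Nat.card (fixedBy X g) : ℤ) - Nat.card (fixedBy Y g)

lemma RP.zero : RP (fun _ : G => 0) := by
  let _ : MulAction G PEmpty.{u+1} :=
    { smul := fun _ x => x
      one_smul := fun x => rfl
      mul_smul := fun _ _ x => rfl }
  exact ⟨PEmpty.{u+1}, PEmpty.{u+1}, inferInstance, inferInstance, inferInstance, inferInstance,
    fun g => by rw [sub_self]⟩

lemma RP.neg {f : G → ℤ} (h : RP f) : RP (fun g => - f g) := by
  obtain ⟨X, Y, i1, i2, i3, i4, h3⟩ := h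
  exact ⟨Y, X, i2, i1, i4, i3, fun g => by simp only [h3]; ring⟩

lemma RP.add {f f' : G → ℤ} (h : RP f) (h' : RP f') : RP (fun g => f g + f' g) := by
  obtain ⟨X, Y, i1, i2, i3, i4, h3⟩ := h
  obtain ⟨X', Y', j1, j2, j3, j4, k3⟩ := h'
  refine ⟨X ⊕ X', Y ⊕ Y', inferInstance, inferInstance, inferInstance, inferInstance,
    fun g => ?_⟩
  simp only [card_fix_sum, h3, k3]
  push_cast
  ring

lemma RP.mul {f f' : G → ℤ} (h : RP f) (h' : RP f') : RP (fun g => f g * f' g) := by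
  obtain ⟨X, Y, i1, i2, i3, i4, h3⟩ := h
  obtain ⟨X', Y', j1, j2, j3, j4, k3⟩ := h'
  refine ⟨(X × X') ⊕ (Y × Y'), (X × Y') ⊕ (Y × X'), inferInstance, inferInstance, inferInstance,
    inferInstance, fun g => ?_⟩
  simp only [card_fix_sum, card_fix_prod, h3, k3]
  push_cast
  ring

lemma RP.one : RP (fun _ : G => 1) := by
  let _ := ptAct G
  let _ : MulAction G PEmpty.{u+1} :=
    { smul := fun _ x => x
      one_smul := fun x => rfl
      mul_smul := fun _ _ x => rfl }
  refine ⟨PUnit.{u+1}, PEmpty.{u+1}, inferInstance, inferInstance, inferInstance, inferInstance,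
    fun g => ?_⟩
  have h1 : Nat.card (fixedBy PUnit.{u+1} g) = 1 := by
    rw [Nat.card_eq_one_iff_unique]
    exact ⟨inferInstance, ⟨⟨PUnit.unit, rfl⟩⟩⟩
  have h2 : Nat.card (fixedBy PEmpty.{u+1} g) = 0 := Nat.card_of_isEmpty
  rw [h1, h2]
  rfl

lemma RP.const (m : ℕ) : RP (fun _ : G => (m : ℤ)) := by
  induction m with
  | zero => exact RP.zero
  | succ m ih =>
    have := ih.add (RP.one (G := G))
    have e : (fun _ : G => ((m + 1 : ℕ) : ℤ)) = fun _ => (m : ℤ) + 1 := by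
      funext g
      push_cast
      rfl
    rw [e]
    exact this

lemma RP.constZ (m : ℤ) : RP (fun _ : G => m) := by
  rcases m.eq_nat_or_neg with ⟨n, h | h⟩
  · rw [h]
    exact RP.const n
  · rw [h]
    exact (RP.const n).neg

lemma RP.prod {J : Type*} (s : Finset J) {f : J → G → ℤ} (h : ∀ j ∈ s, RP (f j)) :
    RP (fun g => ∏ j ∈ s, f j g) := by
  classical
  induction s using Finset.induction_on with
  | empty =>
    simp only [Finset.prod_empty]
    exact RP.one
  | insert a s ha ih =>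
    have h1 := (h a (Finset.mem_insert_self a s)).mul
      (ih (fun j hj => h j (Finset.mem_insert_of_mem hj)))
    have e : (fun g => ∏ j ∈ insert a s, f j g) = fun g => f a g * ∏ j ∈ s, f j g := by
      funext g
      rw [Finset.prod_insert ha]
    rw [e]
    exact h1

/-- `h` lies in a conjugate of the cyclic group generated by `g` -/
def Into (h g : G) : Prop := ∃ t : G, h ∈ Subgroup.zpowers (t * g * t⁻¹)

lemma Into.order [Finite G] {h g : G} (hg : Into h g) : orderOf h ∣ orderOf g := by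
  obtain ⟨t, ht⟩ := hg
  have h1 := orderOf_dvd_of_mem_zpowers ht
  rwa [show orderOf (t * g * t⁻¹) = orderOf g from
    orderOf_injective (MulAut.conj t).toMonoidHom (MulAut.conj t).injective g] at h1

variable [Finite G]

/-- the permutation character of the cosets of a cyclic subgroup -/
lemma exists_fix (g : G) : ∃ f : G → ℤ, RP f ∧ 0 < f g ∧ ∀ h, ¬ Into h g → f h = 0 := by
  let H := Subgroup.zpowers g
  let _ : MulAction G PEmpty.{u+1} :=
    { smul := fun _ x => x
      one_smul := fun x => rfl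
      mul_smul := fun _ _ x => rfl }
  refine ⟨fun x => Nat.card (fixedBy (G ⧸ H) x), ⟨G ⧸ H, PEmpty.{u+1}, inferInstance,
    inferInstance, inferInstance, inferInstance, fun x => ?_⟩, ?_, ?_⟩
  · have h2 : Nat.card (fixedBy PEmpty.{u+1} x) = 0 := Nat.card_of_isEmpty
    rw [h2, Nat.cast_zero, sub_zero]
  · have h1 : Nonempty (fixedBy (G ⧸ H) g) := by
      refine ⟨⟨((1 : G) : G ⧸ H), ?_⟩⟩
      show ((g * 1 : G) : G ⧸ H) = ((1 : G) : G ⧸ H)
      symm
      rw [QuotientGroup.eq, inv_one, one_mul, mul_one]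
      exact Subgroup.mem_zpowers g
    have h2 : 0 < Nat.card (fixedBy (G ⧸ H) g) := Nat.card_pos
    show (0 : ℤ) < ((Nat.card (fixedBy (G ⧸ H) g) : ℕ) : ℤ)
    exact_mod_cast h2
  · intro h hh
    have h1 : IsEmpty (fixedBy (G ⧸ H) h) := by
      refine ⟨fun x => hh ?_⟩
      obtain ⟨x, hx⟩ := x
      obtain ⟨t, rfl⟩ := QuotientGroup.mk_surjective x
      have h2 : ((h * t : G) : G ⧸ H) = ((t : G) : G ⧸ H) := hx
      have h3 := QuotientGroup.eq.1 h2.symm
      refine ⟨t, ?_⟩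
      obtain ⟨k, hk⟩ := h3
      refine ⟨k, ?_⟩
      show (t * g * t⁻¹) ^ k = h
      have hk' : g ^ k = t⁻¹ * (h * t) := hk
      rw [conj_zpow, hk']
      group
    show ((Nat.card (fixedBy (G ⧸ H) h) : ℕ) : ℤ) = 0
    rw [Nat.card_of_isEmpty, Nat.cast_zero]

lemma exists_sep (g h : G) (hgh : ¬ (Into h g ∧ Into g h)) :
    ∃ f : G → ℤ, RP f ∧ 0 < f g ∧ f h = 0 := by
  by_cases h1 : Into h g
  · have h2 : ¬ Into g h := fun h2 => hgh ⟨h1, h2⟩
    obtain ⟨f, hf, hf1, hf2⟩ := exists_fix h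
    refine ⟨fun x => f h + - f x, (RP.constZ _).add hf.neg, ?_, by ring⟩
    show 0 < f h + - f g
    rw [hf2 g h2]
    linarith
  · obtain ⟨f, hf, hf1, hf2⟩ := exists_fix g
    exact ⟨f, hf, hf1, hf2 h h1⟩

/-- a multiple of the indicator function of a closed set is a difference of permutation
characters -/
theorem exists_ind (S : Set G) (hS : ∀ g ∈ S, ∀ h, Into h g → Into g h → h ∈ S) :
    ∃ (N : ℕ) (f : G → ℤ), 0 < N ∧ RP f ∧ (∀ g ∈ S, f g = N) ∧ ∀ g, g ∉ S → f g = 0 := by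
  classical
  cases nonempty_fintype G
  have h1 : ∀ g h : G, ∃ f : G → ℤ, RP f ∧ 0 < f g ∧ (¬ (Into h g ∧ Into g h) → f h = 0) := by
    intro g h
    by_cases hgh : Into h g ∧ Into g h
    · exact ⟨fun _ => 1, RP.one, one_pos, fun hc => absurd hgh hc⟩
    · obtain ⟨f, h2, h3, h4⟩ := exists_sep g h hgh
      exact ⟨f, h2, h3, fun _ => h4⟩
  choose f hf hf1 hf2 using h1
  -- the functions supported on a class
  let E : G → G → ℤ := fun g x => ∏ h : G, f g h x
  have hE : ∀ g, RP (E g) := fun g => RP.prod _ (fun h _ => hf g h)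
  have hE1 : ∀ g, 0 < E g g := fun g => Finset.prod_pos (fun h _ => hf1 g h)
  have hE2 : ∀ g h, ¬ (Into h g ∧ Into g h) → E g h = 0 := fun g h hgh =>
    Finset.prod_eq_zero (Finset.mem_univ h) (hf2 g h hgh)
  let T : Finset G := Finset.univ.filter (fun g => g ∈ S)
  have hN : 0 < ∏ s ∈ T, E s s := Finset.prod_pos (fun s _ => hE1 s)
  obtain ⟨N, hN'⟩ := Int.eq_ofNat_of_zero_le hN.le
  refine ⟨N, fun x => (∏ s ∈ T, E s s) + - ∏ s ∈ T, (E s s + - E s x), ?_, ?_, ?_, ?_⟩
  · omega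
  · exact (RP.constZ _).add (RP.prod _ (fun s _ => (RP.constZ _).add (hE s).neg)).neg
  · intro g hg
    show (∏ s ∈ T, E s s) + - ∏ s ∈ T, (E s s + - E s g) = N
    rw [Finset.prod_eq_zero (i := g) (s := T) (f := fun s => E s s + - E s g)
      (Finset.mem_filter.2 ⟨Finset.mem_univ _, hg⟩) (by ring), neg_zero, add_zero, hN']
  · intro g hg
    show (∏ s ∈ T, E s s) + - ∏ s ∈ T, (E s s + - E s g) = 0
    have h2 : ∏ s ∈ T, (E s s + - E s g) = ∏ s ∈ T, E s s := by
      apply Finset.prod_congr rfl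
      intro s hs
      rw [hE2 s g (fun hc => hg (hS s (Finset.mem_filter.1 hs).2 g hc.1 hc.2)), neg_zero, add_zero]
    rw [h2]
    ring

end ring

section off

variable {G : Type u} {n F : Type*} [Group G] [Fintype G] [Fintype n] [DecidableEq n] [Field F]
  [IsAlgClosed F] [CharZero F]

lemma Rv.ne_zero (X : (Matrix n n (MonoidAlgebra ℤ G))ˣ) {x : F} {χ : G → F}
    (hx : Rv X.val x χ) : x ≠ 0 := by
  obtain ⟨d, σ, h1, _⟩ := hx
  have h2 : x * DD σ (X⁻¹).val = 1 := by
    rw [← h1]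
    unfold DD
    rw [← Matrix.det_mul, ← map_mul, Units.mul_inv, map_one, Matrix.det_one]
  exact left_ne_zero_of_mul_eq_one h2

/-- equal characters -/
lemma Rv.eq_char (X : (Matrix n n (MonoidAlgebra ℤ G))ˣ) {x y : F} {χ ψ : G → F}
    (hx : Rv X.val x χ) (hy : Rv X.val y ψ) (h : ∀ g, χ g = ψ g) :
    ∃ N : ℕ, 0 < N ∧ x ^ N = y ^ N :=
  Rv.prime Nat.prime_two X ∅ (Set.notMem_empty _) (fun _ _ _ _ g hg => absurd hg (Set.notMem_empty g))
    hx hy (fun g _ => h g)

lemma Rv.tns {X : Matrix n n (MonoidAlgebra ℤ G)} {d : ℕ} (σ : G →* Matrix (Fin d) (Fin d) F)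
    (Y : Type u) [Fintype Y] [DecidableEq Y] [MulAction G Y] :
    Rv X (DD (tns Y σ) X) (fun g => (σ g).trace * (Nat.card (fixedBy Y g) : F)) := by
  have h1 := Rv.of (X := X) (Pool.Agent.Y72.Dt.tns Y σ)
  have e : (fun g => (Pool.Agent.Y72.Dt.tns Y σ g).trace) =
      fun g => (σ g).trace * (Nat.card (fixedBy Y g) : F) := by
    funext g
    show (Matrix.kroneckerMap (· * ·) (σ g) (pm Y F g)).trace = _
    rw [← trace_pm (R := F) Y g]
    exact Matrix.trace_kronecker _ _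
  rwa [e] at h1

/-- **the part outside a closed set** -/
theorem Rv.off (X : (Matrix n n (MonoidAlgebra ℤ G))ˣ) (V : Set G)
    (hV : ∀ v ∈ V, ∀ h, Into h v → h ∈ V)
    (hX : ∀ p : ℕ, p.Prime → ∀ a : ℕ, 1 ≤ a → ∀ k : ℕ, (∃ Z : Matrix n n (MonoidAlgebra ℤ G),
      (X : Matrix n n (MonoidAlgebra ℤ G)) ^ k = 1 + ((p : ℤ) ^ a) • Z) → ∀ g : G,
      p ∣ orderOf g → g ∉ V → (p : ℤ) ^ (2 * a) ∣ ∑ x : G, ∑ i,
        (((X : Matrix n n (MonoidAlgebra ℤ G)) ^ k) i i).coeff (x * g * x⁻¹))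
    {x y : F} {χ ψ : G → F} (hx : Rv X.val x χ) (hy : Rv X.val y ψ)
    (hχ : ∀ g ∈ V, χ g = ψ g) (hχ1 : χ 1 = ψ 1) : ∃ N : ℕ, 0 < N ∧ x ^ N = y ^ N := by
  classical
  obtain ⟨d, σ, h1, h2⟩ := id hx
  obtain ⟨e, τ, h3, h4⟩ := id hy
  -- one prime
  have key : ∀ p : ℕ, ∃ (N : ℕ) (M : ℕ) (u w : F) (α β : G → F), 0 < N ∧ 0 < M ∧
      Rv X.val u α ∧ Rv X.val w β ∧ (p.Prime → u ^ M = w ^ M) ∧
      ∀ g, α g - β g = if g ∉ V ∧ p = (orderOf g).minFac ∧ g ≠ 1 then (N : F) * (χ g - ψ g)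
        else 0 := by
    intro p
    obtain ⟨N, f, hN, ⟨Y, Z, i1, i2, i3, i4, hf⟩, hf1, hf2⟩ :=
      exists_ind {g : G | g ∉ V ∧ p = (orderOf g).minFac ∧ g ≠ 1} (by
        rintro g ⟨h5, h6, h7⟩ h hhg hgh
        have h8 : orderOf h = orderOf g := Nat.dvd_antisymm hhg.order hgh.order
        refine ⟨fun h9 => h5 (hV h h9 g hgh), by rw [h8]; exact h6, ?_⟩
        rintro rfl
        apply h7
        rw [← orderOf_eq_one_iff, ← h8, orderOf_one])
    cases nonempty_fintype Y
    cases nonempty_fintype Z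
    have hu := (Rv.tns (X := X.val) σ Y).mul (Rv.tns (X := X.val) τ Z)
    have hw := (Rv.tns (X := X.val) σ Z).mul (Rv.tns (X := X.val) τ Y)
    have hdiff : ∀ g, ((σ g).trace * (Nat.card (fixedBy Y g) : F) +
        (τ g).trace * (Nat.card (fixedBy Z g) : F)) -
        ((σ g).trace * (Nat.card (fixedBy Z g) : F) +
        (τ g).trace * (Nat.card (fixedBy Y g) : F)) =
        if g ∉ V ∧ p = (orderOf g).minFac ∧ g ≠ 1 then (N : F) * (χ g - ψ g) else 0 := by
      intro g
      have h5 : ((Nat.card (fixedBy Y g) : F) - (Nat.card (fixedBy Z g) : F)) =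
          if g ∉ V ∧ p = (orderOf g).minFac ∧ g ≠ 1 then (N : F) else 0 := by
        have h6 := hf g
        by_cases hg : g ∉ V ∧ p = (orderOf g).minFac ∧ g ≠ 1
        · rw [if_pos hg]
          have h7 := hf1 g hg
          rw [h6] at h7
          exact_mod_cast congrArg (fun z : ℤ => (z : F)) h7
        · rw [if_neg hg]
          have h7 := hf2 g hg
          rw [h6] at h7
          exact_mod_cast congrArg (fun z : ℤ => (z : F)) h7
      rw [h2, h4]
      have e1 : χ g * (Nat.card (fixedBy Y g) : F) + ψ g * (Nat.card (fixedBy Z g) : F) -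
          (χ g * (Nat.card (fixedBy Z g) : F) + ψ g * (Nat.card (fixedBy Y g) : F)) =
          (χ g - ψ g) * ((Nat.card (fixedBy Y g) : F) - (Nat.card (fixedBy Z g) : F)) := by
        ring
      rw [e1, h5]
      split_ifs <;> ring
    by_cases hp : p.Prime
    · obtain ⟨M, hM, h5⟩ := Rv.prime hp X {g : G | g ∉ V ∧ p = (orderOf g).minFac ∧ g ≠ 1}
        (fun hc => hc.2.2 rfl) (by
          rintro a ha k hk g ⟨h6, h7, _⟩
          exact hX p hp a ha k hk g (by rw [h7]; exact Nat.minFac_dvd _) h6) hu hw (by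
          intro g hg
          have h6 := hdiff g
          have hg' : ¬ (g ∉ V ∧ p = (orderOf g).minFac ∧ g ≠ 1) := hg
          rw [if_neg hg'] at h6
          exact sub_eq_zero.1 h6)
      exact ⟨N, M, _, _, _, _, hN, hM, hu, hw, fun _ => h5, hdiff⟩
    · exact ⟨N, 1, _, _, _, _, hN, one_pos, hu, hw, fun h => absurd h hp, hdiff⟩
  choose N M u w α β hN hM hu hw huw hαβ using key
  set P := (Fintype.card G).primeFactors with hP
  -- the comparison of the characters
  have hA := (hx.pow (∏ p ∈ P, N p)).mul (Rv.prod P (fun p _ => (hw p).pow (∏ q ∈ P.erase p, N q)))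
  have hB := (hy.pow (∏ p ∈ P, N p)).mul (Rv.prod P (fun p _ => (hu p).pow (∏ q ∈ P.erase p, N q)))
  obtain ⟨K, hK, hAB⟩ := Rv.eq_char X hA hB (by
    intro g
    rw [← sub_eq_zero]
    have e1 : ((∏ p ∈ P, N p : ℕ) : F) * χ g + ∑ p ∈ P, ((∏ q ∈ P.erase p, N q : ℕ) : F) * β p g -
        (((∏ p ∈ P, N p : ℕ) : F) * ψ g + ∑ p ∈ P, ((∏ q ∈ P.erase p, N q : ℕ) : F) * α p g) =
        ((∏ p ∈ P, N p : ℕ) : F) * (χ g - ψ g) -
          ∑ p ∈ P, ((∏ q ∈ P.erase p, N q : ℕ) : F) * (α p g - β p g) := by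
      simp only [mul_sub, Finset.sum_sub_distrib]
      ring
    rw [e1]
    simp only [hαβ]
    by_cases hg : g ∈ V ∨ g = 1
    · have h5 : χ g - ψ g = 0 := by
        rcases hg with hg | hg
        · rw [hχ g hg, sub_self]
        · rw [hg, hχ1, sub_self]
      rw [h5, mul_zero, zero_sub, neg_eq_zero]
      apply Finset.sum_eq_zero
      intro p _
      split_ifs <;> simp
    · push Not at hg
      have hp0 : (orderOf g).minFac ∈ P := by
        rw [hP, Nat.mem_primeFactors]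
        refine ⟨Nat.minFac_prime ?_, (Nat.minFac_dvd _).trans (orderOf_dvd_card), Fintype.card_ne_zero⟩
        intro hc
        exact hg.2 (orderOf_eq_one_iff.1 hc)
      rw [Finset.sum_eq_single (orderOf g).minFac]
      · rw [if_pos ⟨hg.1, rfl, hg.2⟩, ← mul_assoc, ← Nat.cast_mul,
          Finset.prod_erase_mul _ _ hp0, sub_self]
      · intro p _ hp
        rw [if_neg (fun hc => hp hc.2.1), mul_zero]
      · intro hc
        exact absurd hp0 hc)
  -- the conclusion
  refine ⟨(∏ p ∈ P, N p) * (K * ∏ p ∈ P, M p), ?_, ?_⟩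
  · exact Nat.mul_pos (Finset.prod_pos (fun p _ => hN p))
      (Nat.mul_pos hK (Finset.prod_pos (fun p _ => hM p)))
  have h5 := congrArg (fun z => z ^ (∏ p ∈ P, M p)) hAB
  simp only [] at h5
  rw [← pow_mul, ← pow_mul, mul_pow, mul_pow, ← Finset.prod_pow, ← Finset.prod_pow, ← pow_mul,
    ← pow_mul] at h5
  have h6 : ∏ p ∈ P, (w p ^ ∏ q ∈ P.erase p, N q) ^ (K * ∏ p ∈ P, M p) =
      ∏ p ∈ P, (u p ^ ∏ q ∈ P.erase p, N q) ^ (K * ∏ p ∈ P, M p) := by
    apply Finset.prod_congr rfl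
    intro p hp
    have hpp : p.Prime := Nat.prime_of_mem_primeFactors hp
    obtain ⟨c, hc⟩ : M p ∣ ∏ p ∈ P, M p := Finset.dvd_prod_of_mem M hp
    have e2 : (∏ q ∈ P.erase p, N q) * (K * (M p * c)) = M p * ((∏ q ∈ P.erase p, N q) * (K * c)) := by
      ring
    rw [← pow_mul, ← pow_mul, hc, e2, pow_mul, pow_mul (u p), huw p hpp]
  rw [h6] at h5
  refine mul_right_cancel₀ ?_ h5
  rw [Finset.prod_ne_zero_iff]
  intro p _
  exact pow_ne_zero _ (pow_ne_zero _ (Rv.ne_zero X (hu p)))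

end off

end Run7.h186
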