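import Pool.Agent.Run7.h186.Mts

/-!
# Representations lying over a finite set
-/

set_option autoImplicit false
set_option linter.unusedSectionVars false

namespace Run7.h186

open Module Pool.Agent.Y72.Dt Pool.Agent.Y72.Log MulAction

universe u v

/-- the representations with a system of imprimitivity over `X` have determinant `1` or `-1` -/
def QX {G : Type u} [Group G] {n : Type} [Fintype n] [DecidableEq n]
    (A : Matrix n n (MonoidAlgebra ℤ G)) (L : Type v) [Field L] (X : Type*) [MulAction G X] : Prop :=
  ∀ (κ : Type) [Fintype κ] [DecidableEq κ] (σ : G →* Matrix κ κ L) (β : κ → X),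
    (∀ g k j, σ g k j ≠ 0 → β k = g • β j) → DD σ A ^ 2 = 1

section base

variable {G : Type u} [Group G] [Finite G] {L : Type v} [Field L] [IsAlgClosed L] {n : Type}
  [Fintype n] [DecidableEq n] {A : Matrix n n (MonoidAlgebra ℤ G)} {l : ℕ}

/-- functions supported over a point -/
def sptb (L : Type v) [Field L] {κ : Type} {X : Type*} (β : κ → X) (x : X) :
    Submodule L (κ → L) where
  carrier := {f | ∀ k, β k ≠ x → f k = 0}
  zero_mem' := fun _ _ => rfl
  add_mem' := fun {f g} hf hg k hk => by rw [Pi.add_apply, hf k hk, hg k hk, add_zero]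
  smul_mem' := fun c f hf k hk => by rw [Pi.smul_apply, hf k hk, smul_zero]

lemma sptb_indep {κ : Type} {X : Type*} (β : κ → X) : iSupIndep (fun x : X => sptb L β x) := by
  intro x
  rw [Submodule.disjoint_def]
  intro f hf hf'
  let Kx : Submodule L (κ → L) :=
    { carrier := {f | ∀ k, β k = x → f k = 0}
      zero_mem' := fun _ _ => rfl
      add_mem' := fun {f g} hf hg k hk => by rw [Pi.add_apply, hf k hk, hg k hk, add_zero]
      smul_mem' := fun c f hf k hk => by rw [Pi.smul_apply, hf k hk, smul_zero] }
  have h1 : (⨆ (j) (_ : j ≠ x), sptb L β j) ≤ Kx := by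
    apply iSup_le
    intro y
    apply iSup_le
    intro hy g hg k hk
    exact hg k (fun h => hy (h.symm.trans hk))
  have h2 := h1 hf'
  funext k
  by_cases hk : β k = x
  · exact h2 k hk
  · exact hf k hk

lemma sptb_sup {κ : Type} [Fintype κ] {X : Type*} (β : κ → X) : (⨆ x : X, sptb L β x) = ⊤ := by
  classical
  rw [eq_top_iff]
  intro f _
  have h1 : f = ∑ k : κ, fun j : κ => if j = k then f k else 0 := by
    funext j
    rw [Finset.sum_apply, Finset.sum_ite_eq, if_pos (Finset.mem_univ _)]
  rw [h1]
  apply Submodule.sum_mem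
  intro k _
  apply Submodule.mem_iSup_of_mem (β k)
  intro j hj
  show (if j = k then f k else 0) = 0
  rw [if_neg]
  rintro rfl
  exact hj rfl

open scoped Classical in
/-- **sets with regular stabilisers in the class `Ep`** -/
theorem QX_base (hA : TorOKl.{u, v} l A) {p : ℕ} [Fact p.Prime] {X : Type u} [Finite X]
    [MulAction G X] (hX : ∀ x : X, Ep p (stabilizer G x))
    (hXl : ∀ (x : X) (g : G), g • x = x → ¬ l ∣ orderOf g) : QX A L X := by
  intro κ _ _ σ β hσ
  have hne : NeZero (Nat.card G) := ⟨Nat.card_pos.ne'⟩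
  have h1 : Mts (Nat.card G) (fun g => l ∣ orderOf g) (toEnd σ) := by
    refine Mts.ind (X := X) (toEnd σ) (fun x => sptb L β x)
      (DirectSum.isInternal_submodule_of_iSupIndep_of_iSup_eq_top (sptb_indep β) (sptb_sup β))
      ?_ ?_ ?_
    · intro g x f hf k hk
      rw [toEnd_apply, Matrix.toLin'_apply, Matrix.mulVec, dotProduct]
      apply Finset.sum_eq_zero
      intro j _
      by_cases hj : β j = x
      · by_cases h0 : σ g k j = 0
        · rw [h0, zero_mul]
        · exact absurd ((hσ g k j h0).trans (by rw [hj])) hk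
      · rw [hf j hj, mul_zero]
    · intro x
      exact mt_main _ _ (hX x) (fun g => Subtype.ext (pow_card_eq_one' (x := g.1))) _ rfl _
    · intro g x hx
      exact hXl x g hx
  rcases DD_Mts hA σ h1 with h | h <;> rw [h] <;> ring

end base

end Run7.h186
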