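import Pool.Agent.Run7.h186.Mcl
import Pool.Agent.Y72.Log.Rep2

/-!
# Determinants of representations of finite groups whose characters vanish at the elements of
order divisible by `l`
-/

set_option autoImplicit false
set_option linter.unusedSectionVars false

namespace Run7.h186

open Finset Pool.Agent.Y72.Log
open scoped Classical

section main

variable {G n : Type*} [Group G] [Fintype G] [Fintype n] [DecidableEq n]
variable {C T : Type*} [CommGroup C] [Fintype C] [Fintype T] [DecidableEq T] (e : G ≃ T × C)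
  (ι : C →* G) (he : ∀ z c, e (z * ι c) = ((e z).1, (e z).2 * c))

/-- one prime -/
lemma one_prime {l : ℕ} (hι : Function.Injective ι) (X : (Matrix n n (MonoidAlgebra ℤ G))ˣ)
    (hX : MCl l X) (hCl : ∀ c : C, ¬ l ∣ orderOf c)
    {p : ℕ} (hp : p.Prime) {m : ℕ} (hm : ∀ c : C, ¬ p ∣ orderOf c → c ^ m = c) :
    ∃ N : ℕ, 0 < N ∧ em m (du e ι he X.val) ^ N = du e ι he X.val ^ N := by
  set u := du e ι he X.val with hu
  set u' := du e ι he (X⁻¹).val with hu'
  have huu : u * u' = 1 := by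
    rw [hu, hu', ← du_mul, Units.mul_inv, du_one]
  obtain ⟨k, hk, Z, hZ⟩ := exists_pow_near X hp
  have hk2 : ∀ a : ℕ, 1 ≤ a → ∃ W : Matrix n n (MonoidAlgebra ℤ G),
      X.val ^ (k * p ^ (a - 1)) = 1 + ((p : ℤ) ^ a) • W := by
    intro a ha
    obtain ⟨W, hW⟩ := pow_near hZ (a - 1)
    rw [Nat.sub_add_cancel ha] at hW
    exact ⟨W, by rw [pow_mul, hW]⟩
  have h1 : ∃ N : ℕ, 0 < N ∧ (u * em m u') ^ N = 1 := by
    apply torsion_of_fast hp (fun x hx => tf_alg hp x hx) (fun x hx => sep_alg hp x hx) hk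
      (Fintype.card_pos (α := C))
    intro a ha
    obtain ⟨W, hW⟩ := hk2 a ha
    set K := k * p ^ (a - 1) with hK
    obtain ⟨c, hc⟩ := du_near e ι he hW
    rw [du_pow, ← hu] at hc
    set tr := (blkR (indR e ι he) (X.val ^ K)).trace with htr
    obtain ⟨y, hy⟩ := sub_em (m := m) ((Fintype.card C : ℤ) • tr) ((p : ℤ) ^ (2 * a)) (by
      intro g
      by_cases hg : p ∣ orderOf g
      · right
        rw [MonoidAlgebra.coeff_smul, Finsupp.smul_apply, smul_eq_mul, htr, trace_coeff]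
        apply hX p hp a ha K ⟨W, hW⟩
        · rw [orderOf_injective ι hι]
          exact hg
        · rw [orderOf_injective ι hι]
          exact hCl g
      · left
        exact hm g hg)
    have h2 : (Fintype.card C : MonoidAlgebra ℤ C) * (u ^ K - em m u ^ K) =
        (p : MonoidAlgebra ℤ C) ^ (2 * a) *
        (y + (Fintype.card C : MonoidAlgebra ℤ C) * (c - em m c)) := by
      rw [← map_pow, hc]
      simp only [map_sub, map_add, map_mul, map_one, map_pow, map_natCast, map_intCast]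
      have h3 : (Fintype.card C : MonoidAlgebra ℤ C) * (tr - em m tr) =
          (p : MonoidAlgebra ℤ C) ^ (2 * a) * y := by
        rw [map_zsmul, ← smul_sub, zsmul_eq_mul, zsmul_eq_mul] at hy
        push_cast at hy
        exact hy
      have h4 : (((p : ℤ) ^ a : ℤ) : MonoidAlgebra ℤ C) ^ 2 =
          (p : MonoidAlgebra ℤ C) ^ (2 * a) := by
        push_cast
        rw [← pow_mul, mul_comm a 2]
      rw [h4, mul_add, ← h3]
      ring
    have h5 : (u * em m u') ^ K - 1 = (u ^ K - em m u ^ K) * em m u' ^ K := by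
      have h6 : em m u * em m u' = 1 := by rw [← map_mul, huu, map_one]
      rw [mul_pow, sub_mul, ← mul_pow (em m u), h6, one_pow]
    rw [h5, ← mul_assoc, h2, mul_assoc]
    exact Dvd.intro _ rfl
  obtain ⟨N, hN, h2⟩ := h1
  refine ⟨N, hN, ?_⟩
  have h6 : em m u' * em m u = 1 := by rw [← map_mul, mul_comm u', huu, map_one]
  calc em m u ^ N = (u * em m u') ^ N * em m u ^ N := by rw [h2, one_mul]
    _ = u ^ N := by
      rw [← mul_pow, mul_assoc, h6, mul_one]

/-- **the determinant over a commutative subgroup has finite order** -/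
theorem du_torsion {l : ℕ} (hι : Function.Injective ι) (X : (Matrix n n (MonoidAlgebra ℤ G))ˣ)
    (hX : MCl l X) (hCl : ∀ c : C, ¬ l ∣ orderOf c) : ∃ N : ℕ, 0 < N ∧ du e ι he X.val ^ N = 1 := by
  set u := du e ι he X.val with hu
  set u' := du e ι he (X⁻¹).val with hu'
  have huu : u * u' = 1 := by
    rw [hu, hu', ← du_mul, Units.mul_inv, du_one]
  have h1 : ∀ p : ℕ, ∃ m : ℕ, p.Prime → (p ^ ((Fintype.card C).factorization p) ∣ m ∧
      ∀ c : C, ¬ p ∣ orderOf c → c ^ m = c) := by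
    intro p
    by_cases hp : p.Prime
    · obtain ⟨m, hm⟩ := exists_exp (C := C) hp
      exact ⟨m, fun _ => hm⟩
    · exact ⟨0, fun h => absurd h hp⟩
  choose μ hμ using h1
  have h2 : ∀ s : Finset ℕ, (∀ p ∈ s, p.Prime) →
      ∃ N : ℕ, 0 < N ∧ em (∏ p ∈ s, μ p) u ^ N = u ^ N := by
    intro s
    induction s using Finset.induction_on with
    | empty =>
      intro _
      exact ⟨1, one_pos, by rw [Finset.prod_empty, em_one]⟩
    | insert p s hps ih =>
      intro hs
      obtain ⟨N, hN, h3⟩ := ih (fun q hq => hs q (Finset.mem_insert_of_mem hq))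
      have hp := hs p (Finset.mem_insert_self p s)
      obtain ⟨N', hN', h4⟩ := one_prime e ι he hι X hX hCl hp (hμ p hp).2
      refine ⟨N * N', Nat.mul_pos hN hN', ?_⟩
      rw [Finset.prod_insert hps, ← em_mul]
      calc em (μ p) (em (∏ p ∈ s, μ p) u) ^ (N * N') =
          (em (μ p) (em (∏ p ∈ s, μ p) u ^ N)) ^ N' := by rw [map_pow, ← pow_mul]
        _ = (em (μ p) u ^ N') ^ N := by rw [h3, map_pow, ← pow_mul, ← pow_mul, mul_comm]
        _ = u ^ (N * N') := by rw [h4, ← pow_mul, mul_comm]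
  obtain ⟨N, hN, h3⟩ := h2 (Fintype.card C).primeFactors
    (fun p hp => Nat.prime_of_mem_primeFactors hp)
  set m := ∏ p ∈ (Fintype.card C).primeFactors, μ p with hm
  have h4 : Fintype.card C ∣ m := by
    have hcard : Fintype.card C ≠ 0 := Fintype.card_ne_zero
    conv_lhs => rw [← Nat.prod_factorization_pow_eq_self hcard]
    rw [Finsupp.prod, Nat.support_factorization]
    exact Finset.prod_dvd_prod_of_dvd _ _ (fun p hp => (hμ p (Nat.prime_of_mem_primeFactors hp)).1)
  have h5 : ∀ x : MonoidAlgebra ℤ C, ∃ a : ℤ, em m x = ((a : ℤ) : MonoidAlgebra ℤ C) := by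
    intro x
    induction x using MonoidAlgebra.induction_linear with
    | zero => exact ⟨0, by rw [map_zero, Int.cast_zero]⟩
    | add x y hx hy =>
      obtain ⟨a, ha⟩ := hx
      obtain ⟨b, hb⟩ := hy
      exact ⟨a + b, by rw [map_add, ha, hb, Int.cast_add]⟩
    | single c a =>
      refine ⟨a, ?_⟩
      have h6 : c ^ m = 1 := by
        rw [← orderOf_dvd_iff_pow_eq_one]
        exact orderOf_dvd_card.trans h4
      rw [em_single, h6]
      exact (MonoidAlgebra.intCast_def a).symm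
  obtain ⟨a, ha⟩ := h5 u
  obtain ⟨b, hb⟩ := h5 u'
  have h7 : ((a * b : ℤ) : MonoidAlgebra ℤ C) = 1 := by
    rw [Int.cast_mul, ← ha, ← hb, ← map_mul, huu, map_one]
  have h8 : a * b = 1 := by
    rw [MonoidAlgebra.intCast_def, MonoidAlgebra.one_def] at h7
    exact_mod_cast MonoidAlgebra.single_right_injective h7
  have h9 : a ^ 2 = 1 := by
    rcases Int.mul_eq_one_iff_eq_one_or_neg_one.1 h8 with h | h
    · rw [h.1]; norm_num
    · rw [h.1]; norm_num
  refine ⟨N * 2, Nat.mul_pos hN two_pos, ?_⟩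
  rw [pow_mul, ← h3, ha, ← pow_mul, mul_comm, pow_mul, ← Int.cast_pow, h9, Int.cast_one, one_pow]


end main

section sums

variable {G n : Type*} [Group G] [Fintype G] [Fintype n] [DecidableEq n]

/-- one element -/
lemma exists_order {l : ℕ} (X : (Matrix n n (MonoidAlgebra ℤ G))ˣ) (hX : MCl l X) (g : G)
    (hgl : ¬ l ∣ orderOf g) :
    ∃ N : ℕ, 0 < N ∧ ∀ K : ℕ, N ∣ K → ∀ q : ℤ,
      (∃ W : Matrix n n (MonoidAlgebra ℤ G), X.val ^ K = 1 + q • W) →
      q ^ 2 ∣ ∑ x : G, ∑ i, ((X.val ^ K) i i).coeff (x * g * x⁻¹) -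
        (if g = 1 then (Fintype.card n : ℤ) * Fintype.card G else 0) := by
  letI hC : CommGroup (Subgroup.zpowers g) :=
    { (inferInstance : Group (Subgroup.zpowers g)) with
      mul_comm := by
        intro w x
        obtain ⟨j, hj⟩ := w.2
        obtain ⟨k, hk⟩ := x.2
        apply Subtype.ext
        show (w : G) * x = x * w
        rw [← hj, ← hk]
        exact (Commute.zpow_zpow_self g j k) }
  haveI : Fintype (Subgroup.zpowers g) := Fintype.ofFinite _
  let ι : Subgroup.zpowers g →* G := (Subgroup.zpowers g).subtype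
  obtain ⟨e, he⟩ := exists_equiv ι (Subgroup.subtype_injective _)
  haveI : Fintype (G ⧸ ι.range) := Fintype.ofFinite _
  obtain ⟨N, hN, hu⟩ := du_torsion e ι he (Subgroup.subtype_injective _) X hX (by
    intro c hc
    apply hgl
    refine hc.trans ?_
    have h1 : orderOf c = orderOf (c : G) := (Subgroup.orderOf_coe c).symm
    rw [h1]
    exact orderOf_dvd_of_mem_zpowers c.2)
  refine ⟨N, hN, ?_⟩
  rintro K ⟨K', rfl⟩ q ⟨W, hW⟩
  obtain ⟨c, hc⟩ := du_near e ι he hW
  rw [du_pow, pow_mul, hu, one_pow] at hc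
  have h1 := trace_coeff e ι he (X.val ^ (N * K')) (⟨g, Subgroup.mem_zpowers g⟩ : Subgroup.zpowers g)
  have h2 : ι (⟨g, Subgroup.mem_zpowers g⟩ : Subgroup.zpowers g) = g := rfl
  rw [h2] at h1
  rw [← h1]
  have h3 : (blkR (indR e ι he) (X.val ^ (N * K'))).trace =
      ((Fintype.card (n × (G ⧸ ι.range)) : ℤ) : MonoidAlgebra ℤ (Subgroup.zpowers g)) -
        (q ^ 2) • c := by
    rw [zsmul_eq_mul]
    push_cast
    linear_combination -hc
  rw [h3, MonoidAlgebra.coeff_sub, Finsupp.sub_apply, MonoidAlgebra.coeff_smul,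
    Finsupp.smul_apply, MonoidAlgebra.intCast_def, MonoidAlgebra.coeff_single,
    Finsupp.single_apply]
  have h4 : Fintype.card G = Fintype.card (G ⧸ ι.range) * Fintype.card (Subgroup.zpowers g) := by
    rw [← Fintype.card_prod]
    exact Fintype.card_congr e
  refine ⟨-((Fintype.card (Subgroup.zpowers g) : ℤ) * c.coeff ⟨g, Subgroup.mem_zpowers g⟩), ?_⟩
  by_cases hg : g = 1
  · rw [if_pos hg, if_pos (Subtype.ext hg.symm), h4, Fintype.card_prod, smul_eq_mul]
    push_cast
    ring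
  · rw [if_neg hg, if_neg (fun h => hg (congrArg Subtype.val h).symm), smul_eq_mul]
    ring

/-- all elements -/
lemma exists_order_all {l : ℕ} (X : (Matrix n n (MonoidAlgebra ℤ G))ˣ) (hX : MCl l X) :
    ∃ N : ℕ, 0 < N ∧ ∀ K : ℕ, N ∣ K → ∀ q : ℤ,
      (∃ W : Matrix n n (MonoidAlgebra ℤ G), X.val ^ K = 1 + q • W) → ∀ g : G,
      ¬ l ∣ orderOf g → q ^ 2 ∣ ∑ x : G, ∑ i, ((X.val ^ K) i i).coeff (x * g * x⁻¹) -
        (if g = 1 then (Fintype.card n : ℤ) * Fintype.card G else 0) := by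
  have h1 : ∀ g : G, ∃ N : ℕ, 0 < N ∧ (¬ l ∣ orderOf g → ∀ K : ℕ, N ∣ K → ∀ q : ℤ,
      (∃ W : Matrix n n (MonoidAlgebra ℤ G), X.val ^ K = 1 + q • W) →
      q ^ 2 ∣ ∑ x : G, ∑ i, ((X.val ^ K) i i).coeff (x * g * x⁻¹) -
        (if g = 1 then (Fintype.card n : ℤ) * Fintype.card G else 0)) := by
    intro g
    by_cases hg : l ∣ orderOf g
    · exact ⟨1, one_pos, fun h => absurd hg h⟩
    · obtain ⟨N, hN, h⟩ := exists_order X hX g hg
      exact ⟨N, hN, fun _ => h⟩
  choose N hN h2 using h1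
  refine ⟨∏ g, N g, Finset.prod_pos (fun g _ => hN g), ?_⟩
  intro K hK q hq g hg
  exact h2 g hg K (dvd_trans (Finset.dvd_prod_of_mem N (Finset.mem_univ g)) hK) q hq

end sums


section rep

variable {G n d F : Type*} [Group G] [Fintype G] [Fintype n] [Fintype d] [DecidableEq n]
  [DecidableEq d] [Field F]

/-- the determinant of a power congruent to one -/
lemma det_cong [IsAlgClosed F] [CharZero F] {l : ℕ} (V W : Matrix n n (MonoidAlgebra ℤ G))
    (ρ : G →* Matrix d d F) (hρ : ∀ g : G, l ∣ orderOf g → (ρ g).trace = 0) {q : ℤ} (hq : q ≠ 0)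
    (hV : V = 1 + q • W)
    (h2 : ∀ g : G, ¬ l ∣ orderOf g → q ^ 2 ∣ ∑ x : G, ∑ i, (V i i).coeff (x * g * x⁻¹) -
        (if g = 1 then (Fintype.card n : ℤ) * Fintype.card G else 0)) :
    ∃ θ : F, IsIntegral ℤ θ ∧
      (Fintype.card G : F) * ((blkR (lr ρ) V).det - 1) = (q : F) ^ 2 * θ := by
  have hqF : (q : F) ≠ 0 := by exact_mod_cast hq
  have h2' : ∀ g : G, ∃ s : ℤ, ¬ l ∣ orderOf g → ∑ x : G, ∑ i, (V i i).coeff (x * g * x⁻¹) -
        (if g = 1 then (Fintype.card n : ℤ) * Fintype.card G else 0) = q ^ 2 * s := by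
    intro g
    by_cases hg : l ∣ orderOf g
    · exact ⟨0, fun h => absurd hg h⟩
    · obtain ⟨s, hs⟩ := h2 g hg
      exact ⟨s, fun _ => hs⟩
  choose s hs using h2'
  have h3 : blkR (lr ρ) V = 1 + (q : F) • blkR (lr ρ) W := by
    rw [hV, map_add, map_one, map_zsmul]
    congr 1
    ext1 i j
    rw [Matrix.smul_apply, Matrix.smul_apply, zsmul_eq_mul, smul_eq_mul]
  obtain ⟨θ, hθ, h4⟩ := det_one_add_integral (F := F) hqF (blkR_integral ρ W)
  rw [← h3] at h4
  have h5 := trace_lr ρ V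
  have h7 : ∀ g : G, ((∑ x : G, ∑ i, (V i i).coeff (x * g * x⁻¹) : ℤ) : F) * (ρ g).trace =
      ((if g = 1 then (Fintype.card n : F) * Fintype.card G else 0) +
        (q : F) ^ 2 * s g) * (ρ g).trace := by
    intro g
    by_cases hg : l ∣ orderOf g
    · rw [hρ g hg, mul_zero, mul_zero]
    have h8 : ∑ x : G, ∑ i, (V i i).coeff (x * g * x⁻¹) =
        (if g = 1 then (Fintype.card n : ℤ) * Fintype.card G else 0) + q ^ 2 * s g := by
      rw [← hs g hg]
      ring
    rw [h8]
    push_cast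
    rfl
  have h6 : (Fintype.card G : F) * (blkR (lr ρ) V).trace =
      (Fintype.card G : F) * (Fintype.card n * Fintype.card d) +
      (q : F) ^ 2 * ∑ g : G, (s g : F) * (ρ g).trace := by
    rw [h5]
    simp_rw [h7, add_mul]
    rw [Finset.sum_add_distrib]
    congr 1
    · simp only [ite_mul, zero_mul]
      rw [Finset.sum_ite_eq', if_pos (Finset.mem_univ _), map_one, Matrix.trace_one]
      ring
    · rw [Finset.mul_sum]
      apply Finset.sum_congr rfl
      intro g _
      ring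
  have h6' : (Fintype.card G : F) * ((q : F) * (blkR (lr ρ) W).trace) =
      (q : F) ^ 2 * ∑ g : G, (s g : F) * (ρ g).trace := by
    rw [h3, Matrix.trace_add, Matrix.trace_one, Matrix.trace_smul, smul_eq_mul,
      Fintype.card_prod] at h6
    push_cast at h6
    linear_combination h6
  have h9 : IsIntegral ℤ (∑ g : G, (s g : F) * (ρ g).trace + (Fintype.card G : F) * θ) := by
    apply IsIntegral.add
    · apply IsIntegral.sum
      intro g _
      exact (isIntegral_algebraMap (x := s g)).mul (char_integral ρ g)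
    · have h10 : IsIntegral ℤ (Fintype.card G : F) := by
        have := isIntegral_algebraMap (R := ℤ) (A := F) (x := (Fintype.card G : ℤ))
        simpa using this
      exact h10.mul hθ
  refine ⟨_, h9, ?_⟩
  rw [h4, mul_add, ← h6']
  ring

/-- the case of an algebraically closed field -/
lemma det_rep_closed [IsAlgClosed F] [CharZero F] {l : ℕ}
    (X : (Matrix n n (MonoidAlgebra ℤ G))ˣ)
    (hX : MCl l X) (ρ : G →* Matrix d d F) (hρ : ∀ g : G, l ∣ orderOf g → (ρ g).trace = 0) :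
    ∃ N : ℕ, 0 < N ∧ (blkR (lr ρ) X.val).det ^ N = 1 := by
  obtain ⟨N, hN, hN2⟩ := exists_order_all X hX
  have hp : (3 : ℕ).Prime := Nat.prime_three
  obtain ⟨k, hk, Z, hZ⟩ := exists_pow_near (X ^ N) hp
  rw [Units.val_pow_eq_pow_val] at hZ
  have hYi : IsIntegral ℤ (blkR (lr ρ) X.val).det := det_integral (blkR_integral ρ X.val)
  have h1 : ∃ M : ℕ, 0 < M ∧ ((blkR (lr ρ) X.val).det ^ N) ^ M = 1 := by
    apply torsion_field hp (hYi.pow N) hk (D := Fintype.card G) Fintype.card_pos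
    intro a ha
    obtain ⟨W, hW⟩ := pow_near hZ (a - 1)
    rw [Nat.sub_add_cancel ha, ← pow_mul, ← pow_mul, ← mul_assoc] at hW
    obtain ⟨θ, hθ, h2⟩ := det_cong (X.val ^ (N * k * 3 ^ (a - 1))) W ρ hρ
      (q := ((3 : ℕ) : ℤ) ^ a) (pow_ne_zero _ (by norm_num)) hW
      (hN2 _ ⟨k * 3 ^ (a - 1), by rw [mul_assoc]⟩ _ ⟨W, hW⟩)
    refine ⟨θ, hθ, ?_⟩
    have h3 : ((blkR (lr ρ) X.val).det ^ N) ^ (k * 3 ^ (a - 1)) =
        (blkR (lr ρ) (X.val ^ (N * k * 3 ^ (a - 1)))).det := by
      rw [← pow_mul, map_pow, Matrix.det_pow, mul_assoc]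
    rw [h3, h2]
    congr 1
    push_cast
    rw [← pow_mul, mul_comm]
  obtain ⟨M, hM, h2⟩ := h1
  exact ⟨N * M, Nat.mul_pos hN hM, by rw [pow_mul, h2]⟩

/-- **determinants of representations of finite groups** -/
theorem det_rep [CharZero F] {l : ℕ} (X : (Matrix n n (MonoidAlgebra ℤ G))ˣ)
    (hX : MCl l X) (ρ : G →* Matrix d d F) (hρ : ∀ g : G, l ∣ orderOf g → (ρ g).trace = 0) :
    ∃ N : ℕ, 0 < N ∧ (blkR (lr ρ) X.val).det ^ N = 1 := by
  let f : F →+* AlgebraicClosure F := algebraMap F (AlgebraicClosure F)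
  let ρ' : G →* Matrix d d (AlgebraicClosure F) := (f.mapMatrix.toMonoidHom).comp ρ
  haveI : CharZero (AlgebraicClosure F) := charZero_of_injective_algebraMap f.injective
  obtain ⟨N, hN, h1⟩ := det_rep_closed X hX ρ' (by
    intro g hg
    show (f.mapMatrix (ρ g)).trace = 0
    have h2 : (f.mapMatrix (ρ g)).trace = f (ρ g).trace := by
      rw [Matrix.trace, Matrix.trace, map_sum]
      rfl
    rw [h2, hρ g hg, map_zero])
  refine ⟨N, hN, ?_⟩
  apply f.injective
  rw [map_pow, RingHom.map_det, map_one, ← h1]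
  congr 2
  ext1 i j
  show f (lr ρ (X.val i.1 j.1) i.2 j.2) = lr ρ' (X.val i.1 j.1) i.2 j.2
  rw [lr_apply, lr_apply, Matrix.sum_apply, Matrix.sum_apply, map_sum]
  apply Finset.sum_congr rfl
  intro g _
  rw [Matrix.smul_apply, Matrix.smul_apply, map_zsmul]
  rfl


end rep

end Run7.h186
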