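import Pool.Agent.Run7.h186.CuLin

/-!
# Values of characters and determinants: the part at one prime
-/

set_option autoImplicit false
set_option linter.unusedSectionVars false

namespace Run7.h186

open Finset Pool.Agent.Y72.Dt Pool.Agent.Y72.Log

section rv

variable {G : Type*} [Group G] {n : Type*} [Fintype n] [DecidableEq n] {F : Type*} [Field F]

/-- `x` is the determinant of `X` in a representation with the character `χ` -/
def Rv (X : Matrix n n (MonoidAlgebra ℤ G)) (x : F) (χ : G → F) : Prop :=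
  ∃ (d : ℕ) (σ : G →* Matrix (Fin d) (Fin d) F), DD σ X = x ∧ ∀ g, (σ g).trace = χ g

/-- the direct sum of two representations -/
def dsm {ι κ : Type*} [Fintype ι] [DecidableEq ι] [Fintype κ] [DecidableEq κ]
    (ρ : G →* Matrix ι ι F) (σ : G →* Matrix κ κ F) : G →* Matrix (ι ⊕ κ) (ι ⊕ κ) F where
  toFun g := Matrix.fromBlocks (ρ g) 0 0 (σ g)
  map_one' := by rw [map_one, map_one, Matrix.fromBlocks_one]
  map_mul' g h := by
    rw [map_mul, map_mul, Matrix.fromBlocks_multiply]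
    simp only [Matrix.mul_zero, Matrix.zero_mul, add_zero, zero_add]

lemma dsm_trace {ι κ : Type*} [Fintype ι] [DecidableEq ι] [Fintype κ] [DecidableEq κ]
    (ρ : G →* Matrix ι ι F) (σ : G →* Matrix κ κ F) (g : G) :
    (dsm ρ σ g).trace = (ρ g).trace + (σ g).trace := by
  show ∑ i, (Matrix.fromBlocks (ρ g) 0 0 (σ g)) i i = _
  rw [Fintype.sum_sum_type]
  rfl

lemma DD_dsm {ι κ : Type*} [Fintype ι] [DecidableEq ι] [Fintype κ] [DecidableEq κ]
    (ρ : G →* Matrix ι ι F) (σ : G →* Matrix κ κ F) (A : Matrix n n (MonoidAlgebra ℤ G)) :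
    DD (dsm ρ σ) A = DD ρ A * DD σ A := by
  unfold DD
  let e : n × (ι ⊕ κ) ≃ (n × ι) ⊕ (n × κ) :=
    { toFun := fun x => match x with
        | (a, Sum.inl i) => Sum.inl (a, i)
        | (a, Sum.inr i) => Sum.inr (a, i)
      invFun := fun x => match x with
        | Sum.inl (a, i) => (a, Sum.inl i)
        | Sum.inr (a, i) => (a, Sum.inr i)
      left_inv := by rintro ⟨a, i | i⟩ <;> rfl
      right_inv := by rintro (⟨a, i⟩ | ⟨a, i⟩) <;> rfl }
  rw [← Matrix.det_reindex_self e, ← Matrix.det_fromBlocks_zero₂₁ _ 0]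
  congr 1
  ext x y
  rw [Matrix.reindex_apply, Matrix.submatrix_apply, blkR_apply, lrG_apply]
  rcases x with ⟨a, i⟩ | ⟨a, i⟩ <;> rcases y with ⟨b, j⟩ | ⟨b, j⟩
  · rw [Matrix.fromBlocks_apply₁₁, blkR_apply, lrG_apply]
    rfl
  · rw [Matrix.fromBlocks_apply₁₂, Matrix.zero_apply, Finsupp.sum]
    apply Finset.sum_eq_zero
    intro g _
    show _ * (0 : F) = 0
    rw [mul_zero]
  · rw [Matrix.fromBlocks_apply₂₁, Matrix.zero_apply, Finsupp.sum]
    apply Finset.sum_eq_zero
    intro g _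
    show _ * (0 : F) = 0
    rw [mul_zero]
  · rw [Matrix.fromBlocks_apply₂₂, blkR_apply, lrG_apply]
    rfl

variable {X : Matrix n n (MonoidAlgebra ℤ G)}

lemma Rv.of {ι : Type*} [Fintype ι] [DecidableEq ι] (ρ : G →* Matrix ι ι F) :
    Rv X (DD ρ X) (fun g => (ρ g).trace) := by
  refine ⟨Fintype.card ι, rei (Fintype.equivFin ι) ρ, DD_rei _ _ _, fun g => ?_⟩
  exact Equiv.sum_comp (Fintype.equivFin ι).symm (fun i => ρ g i i)

lemma Rv.mul {x y : F} {χ ψ : G → F} (hx : Rv X x χ) (hy : Rv X y ψ) :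
    Rv X (x * y) (fun g => χ g + ψ g) := by
  obtain ⟨d, σ, h1, h2⟩ := hx
  obtain ⟨e, τ, h3, h4⟩ := hy
  have h5 := Rv.of (X := X) (dsm σ τ)
  rw [DD_dsm, h1, h3] at h5
  simp only [dsm_trace, h2, h4] at h5
  exact h5

lemma Rv.one : Rv X (1 : F) (fun _ => 0) := by
  refine ⟨0, 1, ?_, fun g => Matrix.trace_eq_zero_of_isEmpty _⟩
  unfold DD
  exact Matrix.det_isEmpty

lemma Rv.pow {x : F} {χ : G → F} (hx : Rv X x χ) (m : ℕ) :
    Rv X (x ^ m) (fun g => (m : F) * χ g) := by
  induction m with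
  | zero =>
    have := Rv.one (X := X) (F := F)
    simpa using this
  | succ m ih =>
    have h1 := ih.mul hx
    rw [← pow_succ] at h1
    have e : (fun g => (m : F) * χ g + χ g) = fun g => ((m + 1 : ℕ) : F) * χ g := by
      funext g
      push_cast
      ring
    rwa [e] at h1

lemma Rv.prod {J : Type*} (s : Finset J) {x : J → F} {χ : J → G → F}
    (h : ∀ j ∈ s, Rv X (x j) (χ j)) : Rv X (∏ j ∈ s, x j) (fun g => ∑ j ∈ s, χ j g) := by
  classical
  induction s using Finset.induction_on with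
  | empty => simpa using Rv.one (X := X) (F := F)
  | insert a s ha ih =>
    have h1 := (h a (Finset.mem_insert_self a s)).mul
      (ih (fun j hj => h j (Finset.mem_insert_of_mem hj)))
    rw [Finset.prod_insert ha]
    have e : (fun g => ∑ j ∈ insert a s, χ j g) = fun g => χ a g + ∑ j ∈ s, χ j g := by
      funext g
      rw [Finset.sum_insert ha]
    rw [e]
    exact h1

end rv

section one

variable {G n F : Type*} [Group G] [Fintype G] [Fintype n] [DecidableEq n] [Field F]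
  [IsAlgClosed F] [CharZero F]

/-- the determinant of a power congruent to one -/
lemma det_cong_aux {d : ℕ} (V W : Matrix n n (MonoidAlgebra ℤ G))
    (ρ : G →* Matrix (Fin d) (Fin d) F) {q : ℤ} (hq : q ≠ 0) (hV : V = 1 + q • W) :
    ∃ θ : F, IsIntegral ℤ θ ∧ (Fintype.card G : F) * (DD ρ V) =
      (Fintype.card G : F) + (∑ g : G, ((∑ x : G, ∑ i, (V i i).coeff (x * g * x⁻¹) : ℤ) : F) *
        (ρ g).trace - (Fintype.card G : F) * (Fintype.card n * (ρ 1).trace)) + (q : F) ^ 2 * θ := by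
  have hqF : (q : F) ≠ 0 := by exact_mod_cast hq
  have hDD : DD ρ V = (blkR (lr ρ) V).det := rfl
  have h3 : blkR (lr ρ) V = 1 + (q : F) • blkR (lr ρ) W := by
    rw [hV, map_add, map_one, map_zsmul]
    congr 1
    ext1 i j
    rw [Matrix.smul_apply, Matrix.smul_apply, zsmul_eq_mul, smul_eq_mul]
  obtain ⟨θ, hθ, h4⟩ := det_one_add_integral (F := F) hqF (blkR_integral ρ W)
  rw [← h3] at h4
  have h5 := trace_lr ρ V
  have h6 := h5
  rw [h3, Matrix.trace_add, Matrix.trace_one, Matrix.trace_smul, smul_eq_mul,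
    Fintype.card_prod, Fintype.card_fin] at h6
  have h10 : IsIntegral ℤ (Fintype.card G : F) := by
    have := isIntegral_algebraMap (R := ℤ) (A := F) (x := (Fintype.card G : ℤ))
    simpa using this
  refine ⟨(Fintype.card G : F) * θ, h10.mul hθ, ?_⟩
  rw [hDD, h4, map_one, Matrix.trace_one, Fintype.card_fin]
  push_cast at h6 ⊢
  linear_combination h6

/-- **the part at one prime** -/
theorem Rv.prime {p : ℕ} (hp : p.Prime) (X : (Matrix n n (MonoidAlgebra ℤ G))ˣ) (S : Set G)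
    (h1S : (1 : G) ∉ S)
    (hX : ∀ a : ℕ, 1 ≤ a → ∀ k : ℕ, (∃ Z : Matrix n n (MonoidAlgebra ℤ G),
      (X : Matrix n n (MonoidAlgebra ℤ G)) ^ k = 1 + ((p : ℤ) ^ a) • Z) → ∀ g ∈ S,
      (p : ℤ) ^ (2 * a) ∣ ∑ x : G, ∑ i,
        (((X : Matrix n n (MonoidAlgebra ℤ G)) ^ k) i i).coeff (x * g * x⁻¹))
    {x y : F} {χ ψ : G → F} (hx : Rv X.val x χ) (hy : Rv X.val y ψ)
    (hχ : ∀ g, g ∉ S → χ g = ψ g) : ∃ N : ℕ, 0 < N ∧ x ^ N = y ^ N := by
  classical
  obtain ⟨d, σ, h1, h2⟩ := hx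
  obtain ⟨e, τ, h3, h4⟩ := hy
  have hint : ∀ {m : ℕ} (ρ : G →* Matrix (Fin m) (Fin m) F) (Y : Matrix n n (MonoidAlgebra ℤ G)),
      IsIntegral ℤ (DD ρ Y) := fun ρ Y => det_integral (blkR_integral ρ Y)
  have hpow : ∀ {m : ℕ} (ρ : G →* Matrix (Fin m) (Fin m) F) (Y : Matrix n n (MonoidAlgebra ℤ G))
      (k : ℕ), DD ρ (Y ^ k) = DD ρ Y ^ k := by
    intro m ρ Y k
    unfold DD
    rw [map_pow, Matrix.det_pow]
  set y' := DD τ (X⁻¹).val with hy'
  have hyy' : y * y' = 1 := by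
    rw [← h3, hy']
    unfold DD
    rw [← Matrix.det_mul, ← map_mul, Units.mul_inv, map_one, Matrix.det_one]
  obtain ⟨k, hk, Z, hZ⟩ := exists_pow_near X hp
  have hz : ∃ M : ℕ, 0 < M ∧ (x * y') ^ M = 1 := by
    apply torsion_field hp (hk := hk) (D := Fintype.card G) (hD := Fintype.card_pos)
    · rw [← h1]
      exact (hint σ _).mul (hint τ _)
    intro a ha
    obtain ⟨W, hW⟩ := pow_near hZ (a - 1)
    rw [Nat.sub_add_cancel ha, ← pow_mul] at hW
    set K := k * p ^ (a - 1) with hK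
    have hqa : (p : ℤ) ^ a ≠ 0 := pow_ne_zero _ (by exact_mod_cast hp.ne_zero)
    obtain ⟨θ, hθ, h5⟩ := det_cong_aux (X.val ^ K) W σ hqa hW
    obtain ⟨θ', hθ', h6⟩ := det_cong_aux (X.val ^ K) W τ hqa hW
    have h7 : ∀ g : G, ∃ s : ℤ, g ∈ S → ∑ x : G, ∑ i,
        ((X.val ^ K) i i).coeff (x * g * x⁻¹) = (p : ℤ) ^ (2 * a) * s := by
      intro g
      by_cases hg : g ∈ S
      · obtain ⟨s, hs⟩ := hX a ha K ⟨W, hW⟩ g hg
        exact ⟨s, fun _ => hs⟩
      · exact ⟨0, fun h => absurd h hg⟩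
    choose s hs using h7
    have h8 : ∑ g : G, ((∑ x : G, ∑ i, ((X.val ^ K) i i).coeff (x * g * x⁻¹) : ℤ) : F) *
        (σ g).trace - ∑ g : G, ((∑ x : G, ∑ i, ((X.val ^ K) i i).coeff (x * g * x⁻¹) : ℤ) : F) *
        (τ g).trace = (p : F) ^ (2 * a) * ∑ g : G, (if g ∈ S then (s g : F) *
          ((σ g).trace - (τ g).trace) else 0) := by
      rw [← Finset.sum_sub_distrib, Finset.mul_sum]
      apply Finset.sum_congr rfl
      intro g _
      by_cases hg : g ∈ S
      · rw [if_pos hg, hs g hg]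
        push_cast
        ring
      · rw [if_neg hg, h2, h4, hχ g hg]
        ring
    have h9 : (σ 1).trace = (τ 1).trace := by rw [h2, h4, hχ 1 h1S]
    have h10 : (Fintype.card G : F) * (x ^ K - y ^ K) = (p : F) ^ (2 * a) *
        (∑ g : G, (if g ∈ S then (s g : F) * ((σ g).trace - (τ g).trace) else 0) + θ - θ') := by
      have e1 : (((p : ℤ) ^ a : ℤ) : F) ^ 2 = (p : F) ^ (2 * a) := by
        push_cast
        rw [← pow_mul, mul_comm a 2]
      rw [← h1, ← h3, ← hpow, ← hpow, mul_sub, h5, h6, e1, h9]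
      linear_combination h8
    refine ⟨(∑ g : G, (if g ∈ S then (s g : F) * ((σ g).trace - (τ g).trace) else 0) + θ - θ') *
      y' ^ K, ?_, ?_⟩
    · apply IsIntegral.mul
      · apply IsIntegral.sub _ hθ'
        apply IsIntegral.add _ hθ
        apply IsIntegral.sum
        intro g _
        split_ifs
        · exact (isIntegral_algebraMap (x := s g)).mul
            ((char_integral σ g).sub (char_integral τ g))
        · exact isIntegral_zero
      · exact (hint τ _).pow K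
    · rw [← mul_assoc, ← h10]
      have e2 : y ^ K * y' ^ K = 1 := by rw [← mul_pow, hyy', one_pow]
      rw [mul_pow]
      linear_combination (Fintype.card G : F) * e2
  obtain ⟨M, hM, h5⟩ := hz
  refine ⟨M, hM, ?_⟩
  calc x ^ M = (x * y') ^ M * y ^ M := by
        rw [← mul_pow, mul_assoc, mul_comm y', hyy', mul_one]
    _ = y ^ M := by rw [h5, one_mul]

end one

end Run7.h186
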