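import Pool.Agent.Run7.h186.Fin
import Pool.Agent.Y72.Dt.UrLin
import Pool.Agent.Y72.Un.CnLin

/-!
# Finite stages and the passage to all residue characteristics
-/

set_option autoImplicit false
set_option linter.unusedSectionVars false

namespace Run7.h186

open Pool.Agent.Y72.Dt Pool.Agent.Y72.Log Pool.Agent.Y72.Un Pool.Agent.H23R2 H219.Wh

section stage

universe u v w

variable {Γ : Type w} [Group Γ] {n d : ℕ}

/-- **finite stages** -/
theorem stage (A : (Matrix (Fin n) (Fin n) (MonoidAlgebra ℤ Γ))ˣ) {U : Set Γ} (hn : Cu Γ U)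
    {G : Type u} [Group G] [Finite G] (π : Γ →* G) (hπ : Function.Surjective π) {l : ℕ}
    (hl : l.Prime) (hπU : ∀ w ∈ U, ∃ k, π w ^ l ^ k = 1)
    (hS : ∀ w ∈ wset A, w ≠ 1 → π w ≠ 1) {L : Type v} [Field L] [CharP L l]
    (ρ : G →* Matrix (Fin d) (Fin d) L) :
    DD (ρ.comp π) A.val ^ 2 = (ρ (π (gamA A))).det ^ 2 := by
  have : Fact l.Prime := ⟨hl⟩
  let B : Matrix (Fin n ⊕ Unit) (Fin n ⊕ Unit) (MonoidAlgebra ℤ Γ) :=
    Matrix.fromBlocks A.val 0 0 (Matrix.of fun _ _ : Unit => MonoidAlgebra.single (gamA A)⁻¹ 1)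
  have hB : TorOKl.{u, v} l (B.map (mp π)) := by
    intro T _ _ d' ρ' hρ'
    rw [DD_mp, DD_fromBlocks]
    exact tors_l A hn π hπ hl hπU hS ρ' hρ'
  have : CharP (AlgebraicClosure L) l :=
    charP_of_injective_algebraMap (algebraMap L (AlgebraicClosure L)).injective l
  have h1 := fin_l hB (chg (algebraMap L (AlgebraicClosure L)) ρ)
  rw [DD_chg, DD_mp, DD_fromBlocks, ← map_pow] at h1
  have hinj := (algebraMap L (AlgebraicClosure L)).injective
  have h2 : (ρ (π (gamA A))).det * ((ρ.comp π) (gamA A)⁻¹).det = 1 := by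
    rw [← Matrix.det_mul]
    show (ρ (π (gamA A)) * ρ (π (gamA A)⁻¹)).det = 1
    rw [← map_mul, ← map_mul, mul_inv_cancel, map_one, map_one, Matrix.det_one]
  have h3 : (DD (ρ.comp π) A.val * ((ρ.comp π) (gamA A)⁻¹).det) ^ 2 = 1 := by
    apply hinj
    rw [h1, map_one]
  calc DD (ρ.comp π) A.val ^ 2 = (DD (ρ.comp π) A.val * ((ρ.comp π) (gamA A)⁻¹).det) ^ 2 *
        (ρ (π (gamA A))).det ^ 2 := by
        rw [← mul_pow, mul_assoc, mul_comm ((ρ.comp π) (gamA A)⁻¹).det, h2, mul_one]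
    _ = _ := by rw [h3, one_mul]

end stage

section unip

/-- unipotent matrices in characteristic `l` -/
lemma unip_pow {l : ℕ} [Fact l.Prime] {k : Type*} [Field k] [CharP k l] {m : Type*} [Fintype m]
    [DecidableEq m] {M : Matrix m m k} (h : IsNilpotent (M - 1)) : ∃ a : ℕ, M ^ l ^ a = 1 := by
  obtain ⟨s, hs⟩ := h
  have hp : l.Prime := Fact.out
  refine ⟨s, ?_⟩
  rcases isEmpty_or_nonempty m with hm | hm
  · exact Subsingleton.elim _ _
  haveI : CharP (Matrix m m k) l := Matrix.charP l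
  haveI : ExpChar (Matrix m m k) l := ExpChar.prime hp
  have h1 : (M - 1) ^ (l ^ s) = M ^ (l ^ s) - 1 ^ (l ^ s) :=
    sub_pow_expChar_pow_of_commute (p := l) (n := s) (Commute.one_right M)
  have h2 : (M - 1) ^ (l ^ s) = 0 := by
    have h3 : s ≤ l ^ s := (Nat.lt_pow_self hp.one_lt).le
    obtain ⟨d, hd⟩ := Nat.exists_eq_add_of_le h3
    rw [hd, pow_add, hs, zero_mul]
  rw [h2, one_pow] at h1
  exact (sub_eq_zero.1 h1.symm)

universe u

variable {R : Type u} [CommRing R] [IsDomain R] [IsNoetherianRing R] {m : Type*} [Fintype m]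
  [DecidableEq m]

/-- unipotent matrices modulo a power of a maximal ideal of residue characteristic `l` -/
lemma unip_pow_ideal (I : Ideal R) [hI : I.IsMaximal] {l : ℕ} (hl : l.Prime) (hlI : (l : R) ∈ I)
    {M : Matrix m m R} (h : IsNilpotent (M - 1)) (j : ℕ) :
    ∃ a : ℕ, (Ideal.Quotient.mk (I ^ (j + 1))).mapMatrix M ^ l ^ a = 1 := by
  have : Fact l.Prime := ⟨hl⟩
  let i1 : Field (R ⧸ I) := Ideal.Quotient.field I
  have : CharP (R ⧸ I) l := by
    rw [CharP.charP_iff_prime_eq_zero hl, ← map_natCast (Ideal.Quotient.mk I),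
      Ideal.Quotient.eq_zero_iff_mem]
    exact hlI
  have h1 : IsNilpotent ((Ideal.Quotient.mk I).mapMatrix M - 1) := by
    obtain ⟨s, hs⟩ := h
    refine ⟨s, ?_⟩
    rw [← map_one (Ideal.Quotient.mk I).mapMatrix, ← map_sub, ← map_pow, hs, map_zero]
  obtain ⟨a, ha⟩ := unip_pow (l := l) h1
  have key : ∀ j : ℕ, ∀ x y, (M ^ l ^ (a + j) - 1) x y ∈ I ^ (j + 1) := by
    intro j
    induction j with
    | zero =>
      intro x y
      rw [zero_add, pow_one, add_zero]
      rw [← map_pow, mapMatrix_eq_one_iff] at ha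
      exact ha x y
    | succ j ih =>
      have h2 := congr_step I l hlI (j + 1) (by omega) _ ih
      intro x y
      have h3 := h2 x y
      rwa [← pow_mul, ← pow_succ, add_assoc] at h3
  refine ⟨a + j, ?_⟩
  rw [← map_pow, mapMatrix_eq_one_iff]
  exact key j

end unip

section glob

universe u v w

variable {H : Type v} [Group H] {n d : ℕ}

/-- a finite quotient separating a finite set from `1` in which the unipotent elements have
`l`-power order, over a given residue field of a second representation -/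
theorem glob_max {R₁ : Type u} [CommRing R₁] [IsDomain R₁] [Algebra.FiniteType ℤ R₁] {N : ℕ}
    (ψ₁ : H →* (Matrix (Fin N) (Fin N) R₁)ˣ) (hψ₁ : Function.Injective ψ₁) {U : Set H}
    (hn : Cu H U) (hU : ∀ w ∈ U, IsNilpotent ((ψ₁ w).val - 1))
    (A : (Matrix (Fin n) (Fin n) (MonoidAlgebra ℤ H))ˣ) {l : ℕ} (hl : l.Prime)
    (hunit : ¬ IsUnit (l : R₁)) {F : Type w} [Field F] [Finite F] [CharP F l]
    (ρ : H →* Matrix (Fin d) (Fin d) F) (hρ : ∀ w ∈ U, IsNilpotent (ρ w - 1)) :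
    DD ρ A.val ^ 2 = (ρ (gamA A)).det ^ 2 := by
  classical
  have : Fact l.Prime := ⟨hl⟩
  have hN : IsNoetherianRing R₁ := Algebra.FiniteType.isNoetherianRing ℤ R₁
  obtain ⟨I, hI, hlI⟩ := exists_max_ideal_of_mem_nonunits hunit
  obtain ⟨q, hq, hqI, hfin⟩ := residue_finite R₁ I
  -- the level
  have hsep : ∀ w : H, w ≠ 1 → ∃ j, (Ideal.Quotient.mk (I ^ (j + 1))).mapMatrix (ψ₁ w).val ≠ 1 := by
    intro w hw
    by_contra hcon
    push Not at hcon
    apply hw
    apply hψ₁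
    rw [map_one]
    apply Units.ext
    rw [Units.val_one]
    apply eq_of_congr I hI.ne_top
    intro j
    exact (mapMatrix_eq_one_iff _ _).1 (hcon j)
  have hmono : ∀ (w : H) (j j' : ℕ), j ≤ j' →
      (Ideal.Quotient.mk (I ^ (j + 1))).mapMatrix (ψ₁ w).val ≠ 1 →
      (Ideal.Quotient.mk (I ^ (j' + 1))).mapMatrix (ψ₁ w).val ≠ 1 := by
    intro w j j' hjj h1 h2
    apply h1
    rw [mapMatrix_eq_one_iff] at h2 ⊢
    intro a b
    exact Ideal.pow_le_pow_right (by omega) (h2 a b)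
  obtain ⟨k, hk⟩ : ∃ k, ∀ w ∈ wset A, w ≠ 1 →
      (Ideal.Quotient.mk (I ^ (k + 1))).mapMatrix (ψ₁ w).val ≠ 1 := by
    choose! f hf using hsep
    refine ⟨(wset A).sup f, fun w hw hw1 => ?_⟩
    exact hmono w (f w) _ (Finset.le_sup hw) (hf w hw1)
  have hfinQ : Finite (R₁ ⧸ I ^ (k + 1)) := Ideal.finite_quotient_pow (IsNoetherian.noetherian I) _
  let θ : H →* (Matrix (Fin N) (Fin N) (R₁ ⧸ I ^ (k + 1)))ˣ :=
    (Units.map ((Ideal.Quotient.mk (I ^ (k + 1))).mapMatrix (m := Fin N)).toMonoidHom).comp ψ₁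
  have hθ : ∀ w, (θ w).val = (Ideal.Quotient.mk (I ^ (k + 1))).mapMatrix (ψ₁ w).val := fun _ => rfl
  let Pq : H →* (Matrix (Fin N) (Fin N) (R₁ ⧸ I ^ (k + 1)))ˣ × (Matrix (Fin d) (Fin d) F)ˣ :=
    θ.prod ρ.toHomUnits
  let G := Pq.range
  let π : H →* G := Pq.rangeRestrict
  let ρG : G →* Matrix (Fin d) (Fin d) F :=
    ((Units.coeHom _).comp (MonoidHom.snd _ _)).comp G.subtype
  have hρG : ρG.comp π = ρ := by
    ext1 g
    rfl
  have h1 := stage A hn π Pq.rangeRestrict_surjective hl (by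
    intro w hw
    obtain ⟨a, ha⟩ := unip_pow_ideal I hl hlI (hU w hw) k
    obtain ⟨b, hb⟩ := unip_pow (l := l) (hρ w hw)
    refine ⟨a + b, ?_⟩
    apply Subtype.ext
    apply Prod.ext
    · apply Units.ext
      show (θ w ^ l ^ (a + b)).val = 1
      rw [Units.val_pow_eq_pow_val, hθ, pow_add l a b, pow_mul, ha, one_pow]
    · apply Units.ext
      show (ρ.toHomUnits w ^ l ^ (a + b)).val = 1
      rw [Units.val_pow_eq_pow_val]
      show (ρ w) ^ l ^ (a + b) = 1
      rw [pow_add l a b, mul_comm (l ^ a), pow_mul, hb, one_pow]) (by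
    intro w hw hw1 h2
    apply hk w hw hw1
    have h3 : (Pq w).1 = 1 := congrArg (fun z : G => z.1.1) h2
    have h4 : θ w = 1 := h3
    rw [← hθ, h4, Units.val_one]) ρG
  rw [hρG] at h1
  exact h1

/-- **finitely generated groups** -/
theorem glob [Group.FG H] {K : Type u} [Field K] [CharZero K] {N : ℕ} (φ : H →* GL (Fin N) K)
    (hφ : Function.Injective φ) (A : (Matrix (Fin n) (Fin n) (MonoidAlgebra ℤ H))ˣ) :
    ∃ s : ℕ, s ≠ 0 ∧ ∀ (U : Set H), Cu H U → (∀ w ∈ U, IsNilpotent ((φ w).val - 1)) →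
      ∀ (L : Type w) [Field L], (s : L) ≠ 0 → ∀ (d : ℕ)
      (ρ : H →* Matrix (Fin d) (Fin d) L), (∀ w ∈ U, IsNilpotent (ρ w - 1)) →
        DD ρ A.val = (ρ (gamA A)).det ∨ DD ρ A.val = - (ρ (gamA A)).det := by
  classical
  obtain ⟨R₁, hR₁, ψ0, hψ0⟩ := exists_ring ((Units.coeHom _).comp φ)
  obtain ⟨t, ht⟩ := (Subalgebra.fg_iff_finiteType R₁).2 hR₁
  let ψ₁ : H →* (Matrix (Fin N) (Fin N) R₁)ˣ := ψ0.toHomUnits
  have hinj : Function.Injective (R₁.val.toRingHom.mapMatrix :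
      Matrix (Fin N) (Fin N) R₁ →+* Matrix (Fin N) (Fin N) K) := by
    intro X Y hXY
    ext i j
    exact congrFun (congrFun hXY i) j
  have hval : ∀ h : H, R₁.val.toRingHom.mapMatrix (ψ₁ h).val = (φ h).val := by
    intro h
    ext i j
    exact hψ0 h i j
  have hψ₁ : Function.Injective ψ₁ := by
    intro x y hxy
    apply hφ
    apply Units.ext
    rw [← hval, ← hval, hxy]
  have hbad := finite_inv_primes (K := K) t
  rw [ht] at hbad
  refine ⟨∏ p ∈ hbad.toFinset, p, ?_, ?_⟩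
  · rw [Finset.prod_ne_zero_iff]
    intro p hp
    exact ((hbad.mem_toFinset).1 hp).1.ne_zero
  intro U hn hU L _ hs d ρ hρ
  have hU₁ : ∀ w ∈ U, IsNilpotent ((ψ₁ w).val - 1) := by
    intro w hw
    obtain ⟨e, he⟩ := hU w hw
    refine ⟨e, hinj ?_⟩
    rw [map_zero, map_pow, map_sub, map_one, hval, he]
  set s : ℕ := ∏ p ∈ hbad.toFinset, p with hsdef
  obtain ⟨R, hR, ψ, hψ⟩ := exists_ring ρ
  have hval' : chg (R.val.toRingHom) ψ = ρ := by
    ext g i j
    exact hψ g i j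
  have hinj' : Function.Injective (R.val.toRingHom.mapMatrix :
      Matrix (Fin d) (Fin d) R →+* Matrix (Fin d) (Fin d) L) := by
    intro X Y hXY
    ext i j
    exact congrFun (congrFun hXY i) j
  have hψU : ∀ w ∈ U, IsNilpotent (ψ w - 1) := by
    intro w hw
    obtain ⟨e, he⟩ := hρ w hw
    refine ⟨e, hinj' ?_⟩
    have h1 : R.val.toRingHom.mapMatrix (ψ w) = ρ w := by
      ext i j
      exact hψ w i j
    rw [map_zero, map_pow, map_sub, map_one, h1, he]
  have h1 : ∀ m : Ideal R, m.IsMaximal →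
      ((DD ψ A.val) ^ 2 - ((ψ (gamA A)).det) ^ 2) * (s : R) ∈ m := by
    intro m hm
    obtain ⟨l, hl, hlm, hfin⟩ := residue_finite R m
    let i1 : Field (R ⧸ m) := Ideal.Quotient.field m
    by_cases hlb : l ∈ hbad.toFinset
    · apply Ideal.mul_mem_left
      obtain ⟨c, hc⟩ := Finset.dvd_prod_of_mem (fun p => p) hlb
      rw [hsdef, hc, Nat.cast_mul]
      exact Ideal.mul_mem_right _ _ hlm
    · apply Ideal.mul_mem_right
      have hunit : ¬ IsUnit (l : R₁) := by
        intro hu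
        apply hlb
        rw [hbad.mem_toFinset]
        refine ⟨hl, ?_⟩
        obtain ⟨b, hb⟩ := hu.exists_right_inv
        have h2 : (l : K) * (b : K) = 1 := by
          have := congrArg (fun z : R₁ => (z : K)) hb
          simpa using this
        have h3 : (l : K)⁻¹ = (b : K) := by
          rw [inv_eq_iff_eq_inv]
          exact eq_inv_of_mul_eq_one_left h2
        show (l : K)⁻¹ ∈ R₁
        rw [h3]
        exact b.2
      have : CharP (R ⧸ m) l := by
        rw [CharP.charP_iff_prime_eq_zero hl, ← map_natCast (Ideal.Quotient.mk m),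
          Ideal.Quotient.eq_zero_iff_mem]
        exact hlm
      have h2 := glob_max ψ₁ hψ₁ hn hU₁ A hl hunit (chg (Ideal.Quotient.mk m) ψ) (by
        intro w hw
        obtain ⟨e, he⟩ := hψU w hw
        refine ⟨e, ?_⟩
        show ((Ideal.Quotient.mk m).mapMatrix (ψ w) - 1) ^ e = 0
        rw [← map_one (Ideal.Quotient.mk m).mapMatrix, ← map_sub, ← map_pow, he, map_zero])
      rw [DD_chg] at h2
      have h3 : (chg (Ideal.Quotient.mk m) ψ (gamA A)).det =
          Ideal.Quotient.mk m (ψ (gamA A)).det := (RingHom.map_det _ _).symm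
      rw [h3] at h2
      rw [← Ideal.Quotient.eq_zero_iff_mem, map_sub, map_pow, map_pow, h2, sub_self]
  have h2 : ((DD ψ A.val) ^ 2 - ((ψ (gamA A)).det) ^ 2) * (s : R) = 0 := by
    have hJ : IsJacobsonRing R := isJacobsonRing_of_finiteType (A := ℤ)
    have h3 : (⊥ : Ideal R).jacobson = ⊥ := hJ.out (Ideal.isPrime_bot (α := R)).isRadical
    have h4 : ((DD ψ A.val) ^ 2 - ((ψ (gamA A)).det) ^ 2) * (s : R) ∈
        (⊥ : Ideal R).jacobson := by
      rw [Ideal.jacobson, Ideal.mem_sInf]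
      rintro m ⟨_, hm⟩
      exact h1 m hm
    rw [h3, Ideal.mem_bot] at h4
    exact h4
  have hs' : (s : R) ≠ 0 := by
    intro h0
    apply hs
    have := congrArg (fun z : R => (z : L)) h0
    simpa using this
  have h3 : (DD ρ A.val) ^ 2 = ((ρ (gamA A)).det) ^ 2 := by
    have h4 := congrArg (R.val.toRingHom) ((mul_eq_zero.1 h2).resolve_right hs')
    rw [map_sub, map_pow, map_pow, map_zero, ← DD_chg, hval', RingHom.map_det, sub_eq_zero] at h4
    rw [h4, ← hval']
    rfl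
  exact sq_eq_sq_iff_eq_or_eq_neg.1 h3

end glob

end Run7.h186
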