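import Pool.Agent.Run7.h186.PDc
import Pool.Agent.Y72.Dt.Comb
import Pool.Agent.Y72.Tr.Fin

/-!
# Determinants of monomial representations without fixed lines for the `l`-singular elements
-/

set_option autoImplicit false
set_option linter.unusedSectionVars false

namespace Run7.h186

open Finset H219.Wh Pool.Agent.Y72.Log Pool.Agent.Y72.Dt Pool.Agent.Y72.Tr Pool.Agent.Y72.Un
open Pool.Agent.H23R2 (InvPair IsCoc DsumZ cf supp invPair_units jacobi isCoc_of_hochschild
  pairing)
open scoped Classical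

section supp

variable {Γ : Type*} [Group Γ] {n : ℕ}

/-- the products of two elements of the supports of a matrix and its inverse -/
noncomputable def wset (A : (Matrix (Fin n) (Fin n) (MonoidAlgebra ℤ Γ))ˣ) : Finset Γ :=
  ((supp A.val ∪ supp (A⁻¹).val) ×ˢ (supp A.val ∪ supp (A⁻¹).val)).image (fun y => y.1 * y.2)

lemma PD_supp (A : (Matrix (Fin n) (Fin n) (MonoidAlgebra ℤ Γ))ˣ) {M : Type*} [AddCommGroup M]
    {F : Γ → Γ → M} (hF : ∀ w ∈ wset A, ∀ x, F w x = 0) : PD A F = 0 := by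
  unfold PD DsumZ
  apply Finset.sum_eq_zero
  intro y _
  rw [hF, smul_zero]
  apply Finset.mem_image_of_mem (fun y : Γ × Γ => y.1 * y.2)
      (a := ((y.2.2.1 : Γ), (y.2.2.2 : Γ)))
  rw [Finset.mem_product]
  exact ⟨y.2.2.1.2, y.2.2.2.2⟩

/-- the theorem for small coefficient groups -/
theorem PD_U0 (A : (Matrix (Fin n) (Fin n) (MonoidAlgebra ℤ Γ))ˣ) {U : Set Γ} (hn : Cu Γ U)
    {p : ℕ} (hp : p.Prime) {N : ℕ} {M : Type} [AddCommGroup M]
    (hM : ∀ x : M, (p ^ N) • x = 0) {F : Γ → Γ → M} (hF : IsCoc F)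
    (hFU : ∀ w ∈ wset A, w ≠ 1 → (∃ u ∈ U, IsConj u w) → ∀ x, F w x = 0) :
    PD A F = F 1 (gamA A) := by
  obtain ⟨T, hT⟩ := PD_clF A F
  rw [hT, PD_one A hF]
  have h2 : ∑ C ∈ T with C ≠ ConjClasses.mk 1, PD A (clF F C) = 0 := by
    apply Finset.sum_eq_zero
    intro C hC
    rw [Finset.mem_filter] at hC
    have hC1 : rep C ≠ 1 := by
      intro h3
      apply hC.2
      rw [← mk_out C, h3]
    by_cases hCU : rep C ∈ U
    · apply PD_supp
      intro w hw x
      unfold clF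
      by_cases h3 : ConjClasses.mk w = C
      · rw [if_pos h3]
        apply hFU w hw
        · rintro rfl
          exact hC.2 h3.symm
        · exact ⟨rep C, hCU, (isConj_out_iff C w).2 h3⟩
      · rw [if_neg h3]
    · apply PD_class_zero A hn hp hM (c := rep C) hC1 hCU (clF_coc hF C)
      intro w x hw
      exact if_neg (fun hc => hw ((isConj_out_iff C w).2 hc))
  rw [h2, add_zero]

/-- the Dennis trace for cocycles vanishing at the exceptional elements of the support -/
theorem PD_U (A : (Matrix (Fin n) (Fin n) (MonoidAlgebra ℤ Γ))ˣ) {U : Set Γ} (hn : Cu Γ U)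
    {p : ℕ} (hp : p.Prime) {N : ℕ} {Λ : Type*} {M : Type*} [AddCommGroup M]
    (κ : Λ → M →+ ZMod (p ^ N)) (hκ : ∀ x : M, (∀ μ, κ μ x = 0) → x = 0)
    {F : Γ → Γ → M} (hF : IsCoc F)
    (hFU : ∀ w ∈ wset A, w ≠ 1 → (∃ u ∈ U, IsConj u w) → ∀ x, F w x = 0) :
    PD A F = F 1 (gamA A) := by
  rw [← sub_eq_zero]
  apply hκ
  intro μ
  rw [map_sub, map_PD, sub_eq_zero]
  apply PD_U0 A hn hp (N := N)
  · intro x
    rw [nsmul_eq_mul, ZMod.natCast_self, zero_mul]
  · intro w x y
    show κ μ _ = κ μ _ + κ μ _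
    rw [← map_add, hF]
  · intro w hw h1 hu x
    show κ μ (F w x) = 0
    rw [hFU w hw h1 hu x, map_zero]

end supp

section dlog

variable {Γ : Type*} [Group Γ] {n d : ℕ} {R : Type*} [CommRing R]

lemma hoch_trace (ρ : Γ →* Matrix (Fin d) (Fin d) R) (D : Derivation ℤ R R) (x y z : Γ) :
    (ρ (x * y) * (ρ z).map D).trace - (ρ x * (ρ (y * z)).map D).trace +
      (ρ (z * x) * (ρ y).map D).trace = 0 := by
  have hDmul : ∀ (X Y : Matrix (Fin d) (Fin d) R), (X * Y).map D =
      X.map D * Y + X * Y.map D := by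
    intro X Y
    ext i j
    simp only [Matrix.map_apply, Matrix.mul_apply, Matrix.add_apply, map_sum]
    rw [← Finset.sum_add_distrib]
    apply Finset.sum_congr rfl
    intro k _
    rw [Derivation.leibniz]
    simp only [smul_eq_mul]
    ring
  simp only [map_mul]
  rw [hDmul, mul_add, Matrix.trace_add, ← mul_assoc (ρ x) ((ρ y).map D) (ρ z),
    Matrix.trace_mul_comm (ρ x * (ρ y).map D) (ρ z), mul_assoc (ρ z) (ρ x),
    mul_assoc (ρ x) (ρ y)]
  ring

/-- the logarithmic derivative of the determinant -/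
theorem dlog_one (A : (Matrix (Fin n) (Fin n) (MonoidAlgebra ℤ Γ))ˣ) {γ : Γ}
    (D : Derivation ℤ R R) (ρ : Γ →* Matrix (Fin d) (Fin d) R)
    (h : PD A (fun w x => (ρ (x⁻¹ * w) * (ρ x).map D).trace) =
      (ρ γ⁻¹ * (ρ γ).map D).trace) :
    D ((block ρ A.val).det * (ρ γ⁻¹).det) = 0 := by
  have hXY : block ρ A.val * block ρ (A⁻¹).val = 1 := by
    rw [← block_mul, A.mul_inv, block_one]
  have h1 := jacobi D (block ρ A.val) (block ρ (A⁻¹).val) hXY
  rw [trace_block, pairing_PD A (fun g h => (ρ g * (ρ h).map D).trace), h] at h1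
  have h2 := jacobi D (ρ γ) (ρ γ⁻¹) (by rw [← map_mul, mul_inv_cancel, map_one])
  have hab : (ρ γ).det * (ρ γ⁻¹).det = 1 := by
    rw [← Matrix.det_mul, ← map_mul, mul_inv_cancel, map_one, Matrix.det_one]
  set τ := (ρ γ⁻¹ * (ρ γ).map D).trace with hτ
  set a := (ρ γ).det with ha
  set b := (ρ γ⁻¹).det with hb
  have h3 : D b = - (b * τ) := by
    have h4 := D.leibniz a b
    rw [hab, Derivation.map_one_eq_zero, h2] at h4
    simp only [smul_eq_mul] at h4
    have h5 : b * (a * D b + b * (a * τ)) = 0 := by rw [← h4, mul_zero]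
    have h6 : (a * b) * D b + (a * b) * (b * τ) = 0 := by linear_combination h5
    rw [hab, one_mul, one_mul] at h6
    exact eq_neg_of_add_eq_zero_left h6
  rw [Derivation.leibniz, h3, h1]
  simp only [smul_eq_mul]
  ring

end dlog

end Run7.h186
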