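import Pool.Agent.Run7.h186.Tors

/-!
# Trivial units from monomial representations
-/

set_option autoImplicit false
set_option linter.unusedSectionVars false

namespace Run7.h186

open Finset H219.Wh Pool.Agent.Y72.Log Pool.Agent.Y72.Dt Pool.Agent.Y72.Tr Pool.Agent.Y72.Un
open Pool.Agent.H23R2 (InvPair IsCoc DsumZ cf supp invPair_units jacobi isCoc_of_hochschild
  pairing)
open scoped Classical

section monl

variable {G : Type*} [Group G] {T : Type*} [CommGroup T] {κ : Type*} [Fintype κ] [DecidableEq κ]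

/-- a monomial representation over a group ring, in which the elements of order divisible by `l`
fix no basis line -/
def Monl (l : ℕ) (ρ : G →* Matrix κ κ (MonoidAlgebra ℤ T)) : Prop :=
  ∀ g j, ∃ i, ∃ t : T, (∀ k, ρ g k j = if k = i then MonoidAlgebra.single t 1 else 0) ∧
    (l ∣ orderOf g → i ≠ j)

lemma Monl.diag {l : ℕ} {ρ : G →* Matrix κ κ (MonoidAlgebra ℤ T)} (h : Monl l ρ) {g : G}
    (hg : l ∣ orderOf g) (j : κ) : ρ g j j = 0 := by
  obtain ⟨i, t, h1, h2⟩ := h g j
  rw [h1, if_neg (fun hc => h2 hg hc.symm)]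

/-- the logarithmic derivative of a monomial representation vanishes at the `l`-singular elements -/
lemma Monl.dlog {l : ℕ} {ρ : G →* Matrix κ κ (MonoidAlgebra ℤ T)} (h : Monl l ρ)
    {S : Type*} [CommRing S] (μ : T →* Multiplicative S) {w : G} (hw : l ∣ orderOf w) (x : G) :
    (((MonoidAlgebra.mapRingHom T (Int.castRingHom S)).mapMatrix (ρ (x⁻¹ * w))) *
      ((MonoidAlgebra.mapRingHom T (Int.castRingHom S)).mapMatrix (ρ x)).map (DM μ)).trace = 0 := by
  set π := MonoidAlgebra.mapRingHom T (Int.castRingHom S) with hπ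
  rw [Matrix.trace]
  apply Finset.sum_eq_zero
  intro j _
  rw [Matrix.diag_apply, Matrix.mul_apply]
  obtain ⟨i, t, h1, _⟩ := h x j
  rw [Finset.sum_eq_single i]
  · -- the diagonal entry of a conjugate of `w`
    have h2 : l ∣ orderOf (x⁻¹ * w * x) := by
      have h3 : orderOf (x⁻¹ * w * x) = orderOf w := by
        have h4 := orderOf_injective (MulAut.conj x⁻¹).toMonoidHom (MulAut.conj x⁻¹).injective w
        have h5 : (MulAut.conj x⁻¹).toMonoidHom w = x⁻¹ * w * x := by
          show x⁻¹ * w * x⁻¹⁻¹ = _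
          rw [inv_inv]
        rwa [h5] at h4
      rwa [h3]
    have h3 := h.diag h2 j
    rw [map_mul, Matrix.mul_apply, Finset.sum_eq_single i] at h3
    · rw [h1, if_pos rfl] at h3
      have h4 : ρ (x⁻¹ * w) j i = 0 := by
        have h5 : ρ (x⁻¹ * w) j i * MonoidAlgebra.single t 1 * MonoidAlgebra.single t⁻¹ 1 = 0 := by
          rw [h3, zero_mul]
        rwa [mul_assoc, MonoidAlgebra.single_mul_single, mul_inv_cancel, mul_one,
          ← MonoidAlgebra.one_def, mul_one] at h5
      have h5 : (π.mapMatrix (ρ (x⁻¹ * w))) j i = 0 := by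
        show π (ρ (x⁻¹ * w) j i) = 0
        rw [h4, map_zero]
      rw [h5, zero_mul]
    · intro k _ hk
      rw [h1, if_neg hk, mul_zero]
    · intro hc
      exact absurd (Finset.mem_univ _) hc
  · intro k _ hk
    have h2 : ((π.mapMatrix (ρ x)).map (DM μ)) k j = 0 := by
      show DM μ (π (ρ x k j)) = 0
      rw [h1, if_neg hk, map_zero, map_zero]
    rw [h2, mul_zero]
  · intro hc
    exact absurd (Finset.mem_univ _) hc

end monl

section main

variable {Γ : Type*} [Group Γ] {n d : ℕ}

/-- **Determinants of monomial representations over integral group rings** -/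
theorem tors_l (A : (Matrix (Fin n) (Fin n) (MonoidAlgebra ℤ Γ))ˣ) {U : Set Γ} (hn : Cu Γ U)
    {G : Type*} [Group G] [Finite G] (π : Γ →* G) (hπ : Function.Surjective π) {l : ℕ}
    (hl : l.Prime) (hπU : ∀ w ∈ U, ∃ k, π w ^ l ^ k = 1)
    (hS : ∀ w ∈ wset A, w ≠ 1 → π w ≠ 1)
    {T : Type*} [CommGroup T] [Finite T]
    (ρ : G →* Matrix (Fin d) (Fin d) (MonoidAlgebra ℤ T)) (hρ : Monl l ρ) :
    DD (ρ.comp π) A.val * (ρ (π (gamA A)⁻¹)).det = 1 ∨
      DD (ρ.comp π) A.val * (ρ (π (gamA A)⁻¹)).det = -1 := by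
  haveI : Fintype G := Fintype.ofFinite G
  have hblk : DD (ρ.comp π) A.val = (block (ρ.comp π) A.val).det := by
    unfold DD
    rw [block_eq_blkR]
  rw [hblk]
  set u := (block (ρ.comp π) A.val).det * (ρ (π (gamA A)⁻¹)).det with hudef
  have hMC := mcl_of_cu hn π hπ hl hπU A
  -- the character values
  have h1 : ∀ ψ : AddChar (Additive T) ℂ, ‖chr ψ u‖ = 1 := by
    intro ψ
    let ρψ : G →* Matrix (Fin d) (Fin d) ℂ := ((chr ψ).mapMatrix.toMonoidHom).comp ρ
    obtain ⟨N, hN, h2⟩ := det_rep (mpU π A) hMC ρψ (by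
      intro g hg
      rw [Matrix.trace]
      apply Finset.sum_eq_zero
      intro j _
      show chr ψ (ρ g j j) = 0
      rw [hρ.diag hg j, map_zero])
    have h2' : (block (ρψ.comp π) A.val).det ^ N = 1 := by
      rw [← h2]
      congr 2
      rw [block_eq_blkR, ← blkR_mpU]
      rfl
    have h3 : (ρψ (π (gamA A)⁻¹)) ^ (Nat.card G) = 1 := by
      rw [← map_pow, pow_card_eq_one', map_one]
    have h4 : (ρψ (π (gamA A)⁻¹)).det ^ (Nat.card G) = 1 := by
      rw [← Matrix.det_pow, h3, Matrix.det_one]
    have h5 : (chr ψ u) ^ (N * Nat.card G) = 1 := by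
      have e1 := det_map (chr ψ) (ρ.comp π) A.val (gamA A)⁻¹
      have e2 : chr ψ u = (block (ρψ.comp π) A.val).det * (ρψ (π (gamA A)⁻¹)).det := e1.symm
      rw [e2, mul_pow, pow_mul, h2', one_pow, one_mul, mul_comm N, pow_mul, h4, one_pow]
    exact Complex.norm_eq_one_of_pow_eq_one h5 (Nat.mul_pos hN Nat.card_pos).ne'
  obtain ⟨t, ht⟩ := triv_unit u h1
  -- the logarithmic derivative
  have h2 : t = 1 := by
    by_contra hne
    obtain ⟨p, N, hp, μ, hμ⟩ := exists_char t hne
    let θ : MonoidAlgebra ℤ T →+* MonoidAlgebra (ZMod (p ^ N)) T :=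
      MonoidAlgebra.mapRingHom T (Int.castRingHom (ZMod (p ^ N)))
    let ρθ : Γ →* Matrix (Fin d) (Fin d) (MonoidAlgebra (ZMod (p ^ N)) T) :=
      (θ.mapMatrix.toMonoidHom).comp (ρ.comp π)
    have hPD : PD A (fun w x => (ρθ (x⁻¹ * w) * (ρθ x).map (DM μ)).trace) =
        (ρθ (gamA A)⁻¹ * (ρθ (gamA A)).map (DM μ)).trace := by
      have hcoc : IsCoc (fun w x => (ρθ (x⁻¹ * w) * (ρθ x).map (DM μ)).trace) :=
        isCoc_of_hochschild (fun g h => (ρθ g * (ρθ h).map (DM μ)).trace)
          (fun x y z => hoch_trace ρθ (DM μ) x y z)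
      have h3 := PD_U A hn hp (N := N) (Λ := T)
        (M := MonoidAlgebra (ZMod (p ^ N)) T)
        (fun t => { toFun := fun f => f.coeff t
                    map_zero' := rfl
                    map_add' := fun f g => rfl }) (by
          intro x hx
          ext s
          exact hx s) hcoc (by
          rintro w hw hw1 ⟨v, hv, hvw⟩ x
          have h4 : π w ≠ 1 := hS w hw hw1
          obtain ⟨k, hk⟩ := hπU v hv
          have h5 : π w ^ l ^ k = 1 := by
            obtain ⟨c, hc⟩ := isConj_iff.1 hvw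
            rw [← hc, map_mul, map_mul, map_inv, conj_pow, hk]
            group
          have h6 : l ∣ orderOf (π w) := by
            have h7 := orderOf_dvd_of_pow_eq_one h5
            obtain ⟨j, _, hj⟩ := (Nat.dvd_prime_pow hl).1 h7
            rcases Nat.eq_zero_or_pos j with h8 | h8
            · exfalso
              apply h4
              rw [h8, pow_zero] at hj
              exact orderOf_eq_one_iff.1 hj
            · rw [hj]
              exact dvd_pow_self l h8.ne'
          have h7 := hρ.dlog μ h6 (π x)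
          rw [← h7]
          rw [← map_inv, ← map_mul]
          rfl)
      rw [h3, mul_one]
    have h3 := dlog_one A (DM μ) ρθ hPD
    have h3' : DM μ (θ u) = 0 := by
      rw [← h3]
      congr 1
      exact (det_map θ (ρ.comp π) A.val (gamA A)⁻¹).symm
    have h4 : (μ t).toAdd * (θ u).coeff t = 0 := by
      have h40 := DM_coeff μ (θ u) t
      rw [h3'] at h40
      exact h40.symm
    apply hμ
    have h5 : (θ u).coeff t = 1 ∨ (θ u).coeff t = -1 := by
      rcases ht with h | h
      · left
        rw [h]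
        show (MonoidAlgebra.mapRingHom T (Int.castRingHom (ZMod (p ^ N)))
          (MonoidAlgebra.single t 1)).coeff t = 1
        rw [MonoidAlgebra.coeff_mapRingHom, MonoidAlgebra.coeff_single, Finsupp.single_eq_same,
          map_one]
      · right
        rw [h]
        show (MonoidAlgebra.mapRingHom T (Int.castRingHom (ZMod (p ^ N)))
          (MonoidAlgebra.single t (-1))).coeff t = -1
        rw [MonoidAlgebra.coeff_mapRingHom, MonoidAlgebra.coeff_single, Finsupp.single_eq_same,
          map_neg, map_one]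
    have h6 : (μ t).toAdd = 0 := by
      rcases h5 with h | h
      · rw [h, mul_one] at h4
        exact h4
      · rw [h, mul_neg, mul_one, neg_eq_zero] at h4
        exact h4
    exact toAdd_eq_zero.1 h6
  rw [h2] at ht
  rcases ht with h | h
  · left
    rw [h]
    rfl
  · right
    rw [h, MonoidAlgebra.single_neg]
    rfl

end main

end Run7.h186
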